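import Pool.Agent.H83.LW.LDef
import Pool.Agent.H38.TD.MertA
import Pool.Agent.H63.MA.LBd

/-!
# [H83 LW LGB] Mertens' theorem for the good primes (three theorems, 80-140 lines)

`gdY D z` = the good primes (outside `S0`, of prime norm) with `nm v ≤ z` (`mem`: `chr_mem` in `H38/BB/CHr`).
* `lg_low`: `mert_lower` (`H38/TD/MertA`) for `S = (D.S0 : Set (Pl K))` and `w = 0`: `c log z ≤ exp(Lv nv (Zs S 0 z))` for `z ≥ z₀`
  (`Lv` is the sum of `1 / N v`, `nv v = nm v` by `rfl`, `mem_Zs`). Split the places `v ∉ S0`, `nm v ≤ z`, into those of prime norm (they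
  are in `gdY D z`) and the others, whose contribution is at most the constant
  `∑' v, indicator {v | ¬ (nm v).Prime} (nm v)^(-1)` (`deg_summable K` in `MA/PZb`, with exponent `1`; see the proof of `pz_deg`).
  So `log c + log log z ≤ Li (gdY D z) + C`. For `3 ≤ z ≤ z₀`: `Li ≥ 0` and `log log z ≤ log log (max z₀ 3)`.
* `gup`: put `s = 1 + 1 / log z`, `1 < s ≤ 2` as `log z ≥ 1` for `z ≥ 3`. The sum over the good primes is at most the sum over all
  primes `PZ univ s` (`PZ` in `MA/Base`; `pz_summable K hs`, `Summable.tsum_le_tsum`), which is `≤ log (1/(s-1)) + C = log log z + C`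
  (`pz_all` in `MA/LBd`), and `log log z ≤ Li (gdY D z) + C` by `lg_low`.
* `lg_up`: `mer` (`H38/BB/CMer`) with `t = 1`, `A₀ = 1` gives `Li (gdY D z) ≤ ∑' + C`, and the series is `≤ log log z + C` as before.
-/

set_option autoImplicit false

open scoped NumberField
open IsDedekindDomain
open scoped Classical

noncomputable section

namespace H83.LW

open H63.MA H38.BB

variable {K : Type} [Field K] [NumberField K] {p : ℕ} {ζ : K}

private theorem lgb_log {z : ℝ} (hz : 3 ≤ z) : 1 ≤ Real.log z := by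
  rw [Real.le_log_iff_exp_le (by linarith)]
  linarith [Real.exp_one_lt_d9]

private theorem lgb_s {z : ℝ} (hz : 3 ≤ z) : 1 < 1 + 1 / Real.log z ∧ 1 + 1 / Real.log z ≤ 2 := by
  have h1 := lgb_log hz
  have h0 : 0 < Real.log z := by linarith
  refine ⟨?_, ?_⟩
  · have : 0 < 1 / Real.log z := by positivity
    linarith
  · have : 1 / Real.log z ≤ 1 := by
      rw [div_le_one h0]
      exact h1
    linarith

private theorem lgb_ser (D : RD0 K p ζ) : ∃ C : ℝ, 0 < C ∧ ∀ z : ℝ, 3 ≤ z →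
    (∑' v : Pl K, if D.Gd v then (nm v : ℝ) ^ (-(1 + 1 / Real.log z)) else 0) ≤
      Real.log (Real.log z) + C := by
  obtain ⟨C₂, h2⟩ := pz_all K
  refine ⟨|C₂| + 1, by positivity, fun z hz => ?_⟩
  have h1 := lgb_log hz
  have h0 : 0 < Real.log z := by linarith
  obtain ⟨hs, hs2⟩ := lgb_s hz
  have h3 := (abs_le.1 (h2 _ hs hs2)).2
  have h4 : (∑' v : Pl K, if D.Gd v then (nm v : ℝ) ^ (-(1 + 1 / Real.log z)) else 0) ≤
      PZ (Set.univ : Set (Pl K)) (1 + 1 / Real.log z) := by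
    unfold PZ
    have hle : ∀ v : Pl K, (if D.Gd v then (nm v : ℝ) ^ (-(1 + 1 / Real.log z)) else 0) ≤
        (nm v : ℝ) ^ (-(1 + 1 / Real.log z)) := by
      intro v
      split_ifs
      · exact le_rfl
      · exact pzb_nonneg v _
    refine Summable.tsum_le_tsum (fun v => ?_) ?_ ((pz_summable K hs).indicator _)
    · rw [Set.indicator_of_mem (Set.mem_univ v)]
      exact hle v
    · refine Summable.of_nonneg_of_le (fun v => ?_) hle (pz_summable K hs)
      split_ifs
      · exact pzb_nonneg v _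
      · exact le_rfl
  have h5 : 1 / ((1 + 1 / Real.log z) - 1) = Real.log z := by
    rw [add_sub_cancel_left, one_div_one_div]
  rw [h5] at h3
  linarith [le_abs_self C₂]

theorem lg_low (D : RD0 K p ζ) : ∃ C : ℝ, 0 < C ∧ ∀ z : ℝ, 3 ≤ z →
    Real.log (Real.log z) - C ≤ Li (gdY D z) := by
  obtain ⟨c, hc, z₀, hz₀⟩ := H38.TD.mert_lower (K := K) (D.S0 : Set (Pl K)) D.S0.finite_toSet 0
  have hdeg := deg_summable K (σ := 1) (by norm_num)
  obtain ⟨T, hT⟩ : ∃ T : ℝ, T = ∑' v : Pl K, Set.indicator {v : Pl K | ¬ (nm v).Prime}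
      (fun v => (nm v : ℝ) ^ (-(1 : ℝ))) v := ⟨_, rfl⟩
  have hT0 : 0 ≤ T := by
    rw [hT]
    exact tsum_nonneg fun v => Set.indicator_nonneg (fun v _ => pzb_nonneg v _) v
  have key : ∀ z : ℝ, H38.TD.Lv (fun v : H38.TD.Po K (D.S0 : Set (Pl K)) => H38.TD.nv v.1)
      (H38.TD.Zs (D.S0 : Set (Pl K)) 0 z) ≤ Li (gdY D z) + T := by
    intro z
    unfold H38.TD.Lv Li
    have e1 : ∑ v ∈ H38.TD.Zs (D.S0 : Set (Pl K)) 0 z, 1 / ((H38.TD.nv v.1 : ℕ) : ℝ) =
        ∑ v ∈ (H38.TD.Zs (D.S0 : Set (Pl K)) 0 z).image Subtype.val, 1 / (nm v : ℝ) := by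
      rw [Finset.sum_image (fun a _ b _ h => Subtype.ext h)]
      rfl
    rw [e1, ← Finset.sum_filter_add_sum_filter_not _ (fun v : Pl K => (nm v).Prime)]
    refine add_le_add ?_ ?_
    · refine Finset.sum_le_sum_of_subset_of_nonneg ?_ fun v _ _ => by positivity
      intro v hv
      rw [Finset.mem_filter, Finset.mem_image] at hv
      obtain ⟨⟨u, hu, rfl⟩, hp⟩ := hv
      rw [H38.TD.mem_Zs] at hu
      rw [chr_mem]
      exact ⟨hu.1, fun h => u.2 (by exact_mod_cast h), hp⟩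
    · rw [hT]
      refine le_trans (le_of_eq ?_) (hdeg.sum_le_tsum
        (((H38.TD.Zs (D.S0 : Set (Pl K)) 0 z).image Subtype.val).filter fun v => ¬ (nm v).Prime)
        fun v _ => Set.indicator_nonneg (fun v _ => pzb_nonneg v _) v)
      refine Finset.sum_congr rfl fun v hv => ?_
      rw [Set.indicator_of_mem (show v ∈ {v : Pl K | ¬ (nm v).Prime} from
        (Finset.mem_filter.1 hv).2), Real.rpow_neg_one, one_div]
  refine ⟨|Real.log c| + T + |Real.log (Real.log (max z₀ 3))| + 1, by positivity,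
    fun z hz => ?_⟩
  have h1 := lgb_log hz
  have h0 : 0 < Real.log z := by linarith
  have hLi : 0 ≤ Li (gdY D z) := Finset.sum_nonneg fun v _ => by positivity
  have ha := abs_nonneg (Real.log c)
  have hb := abs_nonneg (Real.log (Real.log (max z₀ 3)))
  rcases le_or_gt z₀ z with hzz | hzz
  · have h2 := hz₀ z hzz
    have h3 : Real.log (c * Real.log z) ≤ _ :=
      (Real.log_le_iff_le_exp (by positivity)).2 h2
    rw [Real.log_mul hc.ne' h0.ne'] at h3
    have h4 := key z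
    have h5 := neg_abs_le (Real.log c)
    linarith
  · have h2 : Real.log (Real.log z) ≤ Real.log (Real.log (max z₀ 3)) := by
      refine Real.log_le_log h0 (Real.log_le_log (by linarith) ?_)
      exact hzz.le.trans (le_max_left _ _)
    have h3 := le_abs_self (Real.log (Real.log (max z₀ 3)))
    linarith

theorem gup (D : RD0 K p ζ) : ∃ C : ℝ, 0 < C ∧ ∀ z : ℝ, 3 ≤ z →
    (∑' v : Pl K, if D.Gd v then (nm v : ℝ) ^ (-(1 + 1 / Real.log z)) else 0) ≤
      Li (gdY D z) + C := by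
  obtain ⟨C₁, hC₁, h1⟩ := lg_low D
  obtain ⟨C₂, hC₂, h2⟩ := lgb_ser D
  refine ⟨C₁ + C₂, by positivity, fun z hz => ?_⟩
  linarith [h1 z hz, h2 z hz]

theorem lg_up (D : RD0 K p ζ) : ∃ C : ℝ, 0 < C ∧ ∀ z : ℝ, 3 ≤ z →
    Li (gdY D z) ≤ Real.log (Real.log z) + C := by
  obtain ⟨C₁, hC₁, h1⟩ := mer K 1 zero_le_one
  obtain ⟨C₂, hC₂, h2⟩ := lgb_ser D
  refine ⟨C₁ + C₂, by positivity, fun z hz => ?_⟩
  have h3 := h1 p ζ D (fun _ => 1) (fun _ => ⟨zero_le_one, le_rfl⟩) z hz
  simp only [one_mul] at h3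
  have h4 := h2 z hz
  unfold Li
  linarith

end H83.LW
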