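import Pool.Agent.H83.LW.GRPC

/-!
# [H83 LW TABM] the case where all elements of order `p` of `P` are in the abelian subgroup (70-110 lines)

The second half of the proof of `td_all` in `H38/TD/TdAll.lean` (the commutative case; copy) with `A₀` instead of `P`:
`T = ((A₀).prod ⊥).comap (φ.toMonoidHom.comp (QuotientGroup.mk' N))`, i.e. `g ∈ T ↔ (φ g).1 ∈ A₀ ∧ (φ g).2 = 1`. `T` is normal (`A₀` is normal: index
`p` in a `p`-group, as in `grp2`; `⊥` is normal), `⁅T, T⁆ ≤ N` since the first components commute (`hcomm`) and the second are `1`.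
`hreal : Realizable (G ⧸ N) := realizable_prod φ (grpc_real …) hF hcop`. Least index elements `g`: `orderOf g = p`, `(φ g)^p = 1`, so `(φ g).2 = 1` (`p ∤ #F`) and
`(φ g).1 ^ p = 1`, so `(φ g).1 ∈ A₀` by `hall`. `lower_bound hn G hG T N hT hN hTN htow hreal ⟨⟨g₀, …⟩⟩`, `beta_eq_betaAll`.
-/

open scoped NumberField Pointwise commutatorElement Classical
open H38.ML

noncomputable section

namespace H83.LW

open H38.TD

theorem tabm {n : ℕ} (hn : 2 ≤ n) (G : Subgroup (Equiv.Perm (Fin n)))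
    (hG : MulAction.IsPretransitive G (Fin n)) {p : ℕ} (hp : p.Prime) (hpG : p ∣ Nat.card G)
    (hleast : ∀ g : G, orderOf g = p ↔ g ≠ 1 ∧ ind (g : Equiv.Perm (Fin n)) = indG G)
    (N : Subgroup G) (hN : N.Normal) (htow : GoodTower N) (hNp : ¬ p ∣ Nat.card N)
    (P F : Type) [Group P] [Group F] [Finite P] [Finite F] (φ : G ⧸ N ≃* P × F)
    (hP : IsPGroup p P) (hFp : ¬ p ∣ Nat.card F) (hF : Realizable F)
    (A₀ : Subgroup P) (hi : A₀.index = p) (hcomm : ∀ a ∈ A₀, ∀ b ∈ A₀, a * b = b * a)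
    (hall : ∀ g : P, g ^ p = 1 → g ∈ A₀) :
    ∃ K₀ : IntermediateField ℚ QBar, FiniteDimensional ℚ K₀ ∧
      ∀ K : IntermediateField ℚ QBar, K₀ ≤ K → FiniteDimensional ℚ K →
        ∃ c : ℝ, 0 < c ∧ ∃ B₀ : ℝ, ∀ B : ℝ, B₀ ≤ B →
          ((⌈c * B ^ (1 / (indG G : ℝ)) * Real.log B ^ (betaAll G K - 1)⌉₊ : ℕ) : ℕ∞) ≤
            nK G K B := by
  have := Fact.mk hp
  have := hN
  obtain ⟨k, hk⟩ := IsPGroup.iff_card.mp hP
  have hcop : Nat.Coprime (Nat.card P) (Nat.card F) := by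
    rw [hk]
    exact Nat.Coprime.pow_left _ ((Nat.Prime.coprime_iff_not_dvd hp).mpr hFp)
  have hnorm : A₀.Normal := by
    apply Subgroup.normal_of_index_eq_minFac_card
    have hn0 : k ≠ 0 := by
      rintro rfl
      have h1 : A₀.index ∣ Nat.card P := Subgroup.index_dvd_card A₀
      rw [hi, hk, pow_zero, Nat.dvd_one] at h1
      exact hp.one_lt.ne' h1
    rw [hi, hk, Nat.Prime.pow_minFac hp hn0]
  let T : Subgroup G := (A₀.prod (⊥ : Subgroup F)).comap
    (φ.toMonoidHom.comp (QuotientGroup.mk' N))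
  have hTmem : ∀ g : G, g ∈ T ↔ (φ (g : G ⧸ N)).1 ∈ A₀ ∧ (φ (g : G ⧸ N)).2 = 1 := by
    intro g
    change φ (g : G ⧸ N) ∈ A₀.prod (⊥ : Subgroup F) ↔ _
    rw [Subgroup.mem_prod]
    simp
  have hT : T.Normal := Subgroup.Normal.comap (Subgroup.prod_normal _ _) _
  have hTN : ⁅T, T⁆ ≤ N := by
    rw [Subgroup.commutator_le]
    intro g hg h hh
    rw [← QuotientGroup.eq_one_iff]
    apply φ.injective
    rw [map_one, commutatorElement_def, QuotientGroup.mk_mul, QuotientGroup.mk_mul,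
      QuotientGroup.mk_mul, QuotientGroup.mk_inv, QuotientGroup.mk_inv, map_mul, map_mul, map_mul,
      map_inv, map_inv]
    have h1 := (hTmem g).mp hg
    have h2 := (hTmem h).mp hh
    ext
    · change (φ (g : G ⧸ N)).1 * (φ (h : G ⧸ N)).1 * ((φ (g : G ⧸ N)).1)⁻¹ *
        ((φ (h : G ⧸ N)).1)⁻¹ = 1
      rw [hcomm _ h1.1 _ h2.1]
      group
    · change (φ (g : G ⧸ N)).2 * (φ (h : G ⧸ N)).2 * ((φ (g : G ⧸ N)).2)⁻¹ *
        ((φ (h : G ⧸ N)).2)⁻¹ = 1
      rw [h1.2, h2.2]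
      group
  have hreal : Realizable (G ⧸ N) :=
    realizable_prod φ (grpc_real hp hP A₀ hi hcomm) hF hcop
  have hleast' : ∀ g : G, g ≠ 1 → ind (g : Equiv.Perm (Fin n)) = indG G →
      g ∈ T ∧ Nat.Coprime (orderOf g) (Nat.card N) := by
    intro g hg hi
    have h1 : orderOf g = p := (hleast g).mpr ⟨hg, hi⟩
    constructor
    · rw [hTmem]
      have h2 : (φ (g : G ⧸ N)) ^ p = 1 := by
        rw [← map_pow, ← QuotientGroup.mk_pow, ← h1, pow_orderOf_eq_one]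
        simp
      have h3 : (φ (g : G ⧸ N)).2 ^ p = 1 := (Prod.ext_iff.mp h2).2
      refine ⟨hall _ (Prod.ext_iff.mp h2).1, ?_⟩
      rw [← orderOf_eq_one_iff]
      rcases (Nat.dvd_prime hp).mp (orderOf_dvd_of_pow_eq_one h3) with h | h
      · exact h
      · exact absurd (h ▸ orderOf_dvd_natCard _) hFp
    · rw [h1]
      exact (Nat.Prime.coprime_iff_not_dvd hp).mpr hNp
  obtain ⟨g₀, hg₀⟩ := exists_prime_orderOf_dvd_card' (G := G) p hpG
  have h1 := (hleast g₀).mp hg₀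
  have h2 := hleast' g₀ h1.1 h1.2
  obtain ⟨K₀, hK₀, h⟩ := lower_bound hn G hG T N hT hN hTN htow hreal
    ⟨⟨g₀, h2.1, h1.1, h1.2, h2.2⟩⟩
  refine ⟨K₀, hK₀, fun K hK hKf => ?_⟩
  rw [← beta_eq_betaAll G K T N hleast']
  exact h K hK hKf

end H83.LW
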