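import Pool.Agent.H83.LW.TDML
import Pool.Agent.H83.LW.TABM

/-!
# LW-TDAL: the lower bound for all groups with an abelian subgroup of index `p` (final assembly)

If `P` is commutative: `td_all` with `hgen` true (`center = ⊤`). If there is `c ∉ A₀` with `c^p = 1`: `grpc_pd` and `td_malle'`. Otherwise `tabm`.
-/

open scoped NumberField Pointwise
open H38.ML

noncomputable section

namespace H83.LW

open H38.TD

theorem td_all' {n : ℕ} (hn : 2 ≤ n) (G : Subgroup (Equiv.Perm (Fin n)))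
    (hG : MulAction.IsPretransitive G (Fin n)) {p : ℕ} (hp : p.Prime) (hpG : p ∣ Nat.card G)
    (hleast : ∀ g : G, orderOf g = p ↔ g ≠ 1 ∧ ind (g : Equiv.Perm (Fin n)) = indG G)
    (N : Subgroup G) (hN : N.Normal) (htow : GoodTower N) (hNp : ¬ p ∣ Nat.card N)
    (P F : Type) [Group P] [Group F] [Finite P] [Finite F] (φ : G ⧸ N ≃* P × F)
    (hP : IsPGroup p P) (hFp : ¬ p ∣ Nat.card F) (hF : Realizable F)
    (A₀ : Subgroup P) (hi : A₀.index = p) (hcomm : ∀ a ∈ A₀, ∀ b ∈ A₀, a * b = b * a) :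
    ∃ K₀ : IntermediateField ℚ QBar, FiniteDimensional ℚ K₀ ∧
      ∀ K : IntermediateField ℚ QBar, K₀ ≤ K → FiniteDimensional ℚ K →
        ∃ c : ℝ, 0 < c ∧ ∃ B₀ : ℝ, ∀ B : ℝ, B₀ ≤ B →
          ((⌈c * B ^ (1 / (indG G : ℝ)) * Real.log B ^ (betaAll G K - 1)⌉₊ : ℕ) : ℕ∞) ≤
            nK G K B := by
  by_cases hnc : ∃ a b : P, a * b ≠ b * a
  · by_cases hall : ∀ g : P, g ^ p = 1 → g ∈ A₀
    · exact tabm hn G hG hp hpG hleast N hN htow hNp P F φ hP hFp hF A₀ hi hcomm hall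
    · push Not at hall
      obtain ⟨c, hc1, hc2⟩ := hall
      obtain ⟨A, i1, i2, ⟨pd⟩⟩ := grpc_pd hp hP A₀ hi hcomm c hc2 hc1
      exact td_malle' hn G hG hp hleast N hN htow hNp P F φ hP hFp hF A pd hnc
  · push Not at hnc
    refine td_all hn G hG hp hpG hleast N hN htow hNp P F φ hP hFp hF A₀ hi hcomm ?_
    rw [eq_top_iff]
    intro g _
    apply Subgroup.mem_sup_left
    rw [Subgroup.mem_center_iff]
    intro h
    exact hnc h g

end H83.LW
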