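import Pool.Agent.H38.TD.Ana7

/-!
# [H83 LW DUMA] the inner sum over `R` (80-130 lines)

`ana7` (`H38/TD/Ana7`) for the following abstract data `D : AD Pt (Fin 2) Ht p`, `Ht = ((Fin 2 × (Pt →₀ ZMod p)) × Finset Pt) × ℕ`:
`N, h, q, V, flag` as given, `o = 1`, `Spl x v = (x.1 = 0 → Sp x.2 v)` (so `Spl (0, i) = Sp i`, and `Spl (1, i)` is always true),
`H x R = {((x, R), n) | n < h^#supp (V^#spl q^(#R - #spl))}` (`Finset.range` mapped), `xi ρ = ρ.1.1`, `r ρ = ρ.1.2`.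
* `P2`: the `x = (1, i)`, `supp i ⊆ R`, are `p^#R` many and all are split at `v`: `2 p^#R ≤ p p^#R` (`hp.two_le`).
* `cnt`: equality, by definition of `H`. `hH`: by definition. `hflag`: `hfl`. The other fields are hypotheses.
Then `ana7` for the point `x = (0, i)`: `x ∈ XR` (`mem_XR`), `gx Z x`: `x ≠ (1, 0)` as `0 ≠ 1` in `Fin 2`, and the second part is the
hypothesis `hi` (`AD.Xs`, `Lv`, `spl`, unfold; `spl D.Spl x R = R.filter (Sp i)`). `D.F Z x` and `D.f x v` unfold to the expressions of the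
theorem; `D.Rs Z Λ ε` is `Z.powerset.filter (Ln ≤ Λ ∧ Lv ≤ ε)`, `Finset.filter_filter`.
-/

open scoped Classical

noncomputable section

namespace H83.LW

open H38.TD

private def dumAD {Pt : Type} {p : ℕ} [NeZero p] (hp : p.Prime) (N : Pt → ℕ) (hN : ∀ v, 2 ≤ N v)
    (Sp : (Pt →₀ ZMod p) → Pt → Prop) (h q V : ℕ) (hh : 1 ≤ h) (hq : 1 ≤ q) (hqV : q ≤ V)
    (flag : Prop) (hflag : flag ∨ (2 * (p - 1) * h * p ≤ V ∧ q < V)) :
    AD Pt (Fin 2) (((Fin 2 × (Pt →₀ ZMod p)) × Finset Pt) × ℕ) p where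
  N := N
  o := 1
  Spl := fun x v => x.1 = 0 → Sp x.2 v
  h := h
  q := q
  V := V
  flag := flag
  H := fun x R => (Finset.range (h ^ x.2.support.card *
    (V ^ (spl (fun x v => x.1 = 0 → Sp x.2 v) x R).card *
      q ^ (R.card - (spl (fun x v => x.1 = 0 → Sp x.2 v) x R).card)))).map
    ⟨fun n => ((x, R), n), fun _ _ hab => (Prod.mk.inj hab).2⟩
  xi := fun ρ => ρ.1.1
  r := fun ρ => ρ.1.2
  hN := hN
  hp := hp.two_le
  hh := hh
  hq := hq
  hqV := hqV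
  hflag := hflag
  P2 := by
    intro R v hv
    have h1 : (({1} : Finset (Fin 2)) ×ˢ (R.finsupp fun _ => (Finset.univ : Finset (ZMod p)))) ⊆
        (XR (Fin 2) p R).filter fun x => x.1 = 0 → Sp x.2 v := by
      rintro ⟨a, i⟩ hi
      rw [Finset.mem_product, Finset.mem_singleton, Finset.mem_finsupp_iff] at hi
      obtain ⟨ha, hi1, -⟩ := hi
      rw [Finset.mem_filter, mem_XR]
      refine ⟨hi1, fun h0 => ?_⟩
      exact absurd (ha.symm.trans h0) (by decide)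
    have h2 := Finset.card_le_card h1
    have h3 : (({1} : Finset (Fin 2)) ×ˢ
        (R.finsupp fun _ => (Finset.univ : Finset (ZMod p)))).card = p ^ R.card := by
      simp [Finset.card_finsupp, ZMod.card]
    rw [h3] at h2
    rw [Fintype.card_fin]
    convert Nat.mul_le_mul hp.two_le h2
  cnt := by
    intro x R _ _ _
    rw [Finset.card_map, Finset.card_range]
  hH := by
    intro x R ρ hρ
    obtain ⟨n, -, rfl⟩ := Finset.mem_map.1 hρ
    exact ⟨rfl, subset_rfl⟩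

theorem duma {Pt : Type} {p : ℕ} [NeZero p] (hp : p.Prime) (N : Pt → ℕ) (hN : ∀ v, 2 ≤ N v)
    (Sp : (Pt →₀ ZMod p) → Pt → Prop) (h q V : ℕ) (hh : 1 ≤ h) (hq : 1 ≤ q) (hqV : q ≤ V)
    (flag : Prop) (hflag : flag ∨ (2 * (p - 1) * h * p ≤ V ∧ q < V)) (ε : ℝ) (hε : 0 < ε) :
    ∃ c : ℝ, 0 < c ∧ ∃ L₀ : ℝ, ∀ (Z : Finset Pt) (Λ : ℝ),
      8 * ((p : ℝ) * h + V) * ∑ v ∈ Z, Real.log (N v) / N v ≤ Λ →
      16 * ((p : ℝ) * h + V) ^ 2 * ∑ v ∈ Z, 1 / (N v : ℝ) ^ 2 ≤ min ε 1 →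
      L₀ ≤ Lv N Z → ∀ i : Pt →₀ ZMod p, i.support ⊆ Z →
      (flag ∨ ((i.support.card : ℝ) ≤ 13 / 10 * ((p : ℝ) - 1) * h * Lv N Z ∧
        9 / 10 / p * Lv N Z ≤ Lv N ((Z \ i.support).filter (Sp i)))) →
      c * Real.exp (∑ v ∈ Z \ i.support, (if Sp i v then (V : ℝ) else q) / N v) ≤
        ∑ R ∈ Z.powerset.filter (fun R => (Ln N R ≤ Λ ∧ Lv N R ≤ ε) ∧
          Disjoint i.support R ∧ (flag ∨ i.support.card ≤ (R.filter (Sp i)).card)),
          ∏ v ∈ R, (if Sp i v then (V : ℝ) else q) / N v := by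
  obtain ⟨c, hc, L₀, hana⟩ := ana7 (dumAD hp N hN Sp h q V hh hq hqV flag hflag) ε hε
  refine ⟨c, hc, L₀, fun Z Λ h1 h2 h3 i hi hcond => ?_⟩
  have hspl : ∀ R : Finset Pt, spl (dumAD hp N hN Sp h q V hh hq hqV flag hflag).Spl
      ((0 : Fin 2), i) R = R.filter (Sp i) := by
    intro R
    unfold spl
    refine Finset.filter_congr fun v _ => ?_
    change ((0 : Fin 2) = 0 → Sp i v) ↔ Sp i v
    simp
  have hf : ∀ v : Pt, (dumAD hp N hN Sp h q V hh hq hqV flag hflag).f ((0 : Fin 2), i) v =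
      if Sp i v then (V : ℝ) else q := by
    intro v
    unfold AD.f
    refine if_congr ?_ rfl rfl
    change ((0 : Fin 2) = 0 → Sp i v) ↔ Sp i v
    simp
  have h4 := hana Z Λ h1 h2 h3 ((0 : Fin 2), i) (by rw [mem_XR]; exact hi) ⟨by
      intro h0
      have h5 : (0 : Fin 2) = 1 := congrArg Prod.fst h0
      exact absurd h5 (by decide), by
      refine hcond.imp id fun h5 => ⟨h5.1, ?_⟩
      unfold AD.Xs
      rw [hspl]
      exact h5.2⟩
  unfold AD.F AD.Rs at h4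
  simp only [hspl, hf] at h4
  refine h4.trans (le_of_eq ?_)
  rw [Finset.filter_filter]
  rfl

end H83.LW
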