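import Pool.Agent.H83.LW.GXM
import Pool.Agent.H83.LW.DUMA
import Pool.Agent.H38.TD.MertB

/-!
# [H83 LW CNTA] the sum over the pairs `(i, R)` (assembly, 120-200 lines)

`h = p ϖ = h₀ p^e`. `gxm` gives `K₁, K₂`. Let `η = min ε 1 / (K₂ + 16 (p h₀ + V)²)`; `sq_small K (D.S0 : Set (Pl K)) η` (`H38/TD/MertB`) gives
`w₀` with `∑_{v ∈ Zs S w₀ z} 1 / nv² ≤ η` for all `z`; put `w = max w₀ h` (`h = p ϖ`). `ZY D ⊥ w z` maps injectively into
`Zs S w₀ z` (the primes outside `S0`), so `∑_{v ∈ ZY D ⊥ w z} 1 / (nm v)² ≤ η`. `gxm` for `ε`, `w` gives `c, B, z₀`. `duma` with `Pt = Pl K`, `N = nm`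
(`one_lt_nm`), the given `Sp`, `h = h₀`, `q`, `V`, `flag` gives `c₂`, `L₀`. `K₃ = K₁ + 8 (p h₀ + V)`.
Let `z` be large, `Z = ZY D ⊥ w z`, `L = LY D ⊥ w z` (`= Lv nm Z`), so large that `L ≥ L₀` and `L ≥ 10 (ε + p B) + 1` (`lg_low`: `L → ∞`), and
`I = {(i, R) | i ∈ GX …, R ⊆ Z, Ln R ≤ Λ, Lv R ≤ ε, Disjoint (supp i) R, flag ∨ #supp i ≤ #(R.filter (Sp i))}` (a sigma/filtered product).
The listed properties hold by definition of `GX` (`supp i ⊆ ZY D 𝒦 w z ⊆ Z`).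
For `i ∈ GX`: `∑_{v ∈ Z ∖ supp i, LL v (xx i) = 0} 1 / nm v = (1/p) ∑_{j : ZMod p} Re Gr D Z i j` (`∑_j ep(j c) = p [c = 0]`), where
`Gr D Z i 0 = Li (Z ∖ supp i) ≥ L - ε` and `|Re Gr D Z i j| ≤ B` for `j ≠ 0`. So by `hSp`
`X := Li ((Z ∖ supp i).filter (Sp i)) ≥ (L - ε) / p - B ≥ (9/10) / p * L`. Hence (with `#supp ≤ 13/10 (p-1) h₀ L`) `duma` applies:
`c₂ exp(F i) ≤ ∑_{R, (i, R) ∈ I} ∏_{v ∈ R} f / nm`, `F i = q Li (Z ∖ supp i) + (V - q) X ≥ q (L - ε) + (V - q) ((L - ε) / p - B) ≥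
(q + (V - q) / p) L - C₅`. Multiply by `Wt h i ≥ 0` and sum over `i ∈ GX`: `gxm`: the total is `≥ c₂ exp(-C₅) exp((q + (V-q)/p) L) c exp((p-1) h₀ L)`.
-/

set_option autoImplicit false

open scoped NumberField
open IsDedekindDomain
open scoped Classical

noncomputable section

namespace H83.LW

open H63.MA H38.BB

variable {K : Type} [Field K] [NumberField K] {p : ℕ} {ζ : K}

/-- the classes over which there are homomorphisms -/
def IsGd [NeZero p] (D : RD0 K p ζ) (𝒦 : Submodule (ZMod p) (Fin D.r → ZMod p))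
    (i : Pl K →₀ ZMod p) : Prop :=
  i ≠ 0 ∧ (∀ v ∈ i.support, D.Gd v) ∧ cl D i = 0 ∧ (Rl D i).card = p ∧
    ∀ v ∈ i.support, ∀ κ ∈ 𝒦, dt κ (D.q v) = 0

theorem cnta [NeZero p] (hp : p.Prime) (hp2 : MOne p K) (hζ : IsPrimitiveRoot ζ p)
    (D : RD K p ζ) {e : ℕ} {d : Fin e → Kˣ} {𝒦 : Submodule (ZMod p) (Fin D.r → ZMod p)}
    (hK : DK D.toRD0 e d 𝒦) (hcard : Nat.card 𝒦 = p ^ e) {U : Type} [CommGroup U] [Fintype U]
    (F : U → Kˣ) (hU : UR D.toRD0 U F) (hUc : 32 * p ^ e ≤ Fintype.card U) (ϖ h₀ : ℕ)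
    (hϖ : 1 ≤ ϖ) (hh : p * ϖ = h₀ * p ^ e) (q V : ℕ) (hh0 : 1 ≤ h₀) (hq : 1 ≤ q) (hqV : q ≤ V)
    (flag : Prop) (hflag : flag ∨ (2 * (p - 1) * h₀ * p ≤ V ∧ q < V))
    (Sp : (Pl K →₀ ZMod p) → Pl K → Prop)
    (hSp : ∀ i, IsGd D.toRD0 𝒦 i → ∀ v, v ∉ D.S0 → v ∉ i.support →
      D.LL v (xx D.toRD0 i) = 0 → Sp i v) (ε : ℝ) (hε : 0 < ε) :
    ∃ w c K₃ z₀ : ℝ, 0 < c ∧ 0 < K₃ ∧ ∀ z : ℝ, z₀ ≤ z → ∀ Λ : ℝ,
      K₃ * ∑ v ∈ ZY D.toRD0 ⊥ w z, Real.log (nm v) / nm v ≤ Λ →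
      ∃ I : Finset ((Pl K →₀ ZMod p) × Finset (Pl K)),
        (∀ y ∈ I, IsGd D.toRD0 𝒦 y.1 ∧ y.1.support ⊆ ZY D.toRD0 ⊥ w z ∧
          y.2 ⊆ ZY D.toRD0 ⊥ w z ∧ Disjoint y.1.support y.2 ∧
          (flag ∨ y.1.support.card ≤ (y.2.filter (Sp y.1)).card) ∧
          ∑ v ∈ y.1.support, Real.log (nm v) ≤ Λ ∧ ∑ v ∈ y.2, Real.log (nm v) ≤ Λ ∧
          Li y.1.support ≤ ε ∧ Li y.2 ≤ ε) ∧
        c * Real.exp ((((p : ℝ) - 1) * h₀ + (q + ((V : ℝ) - q) / p)) *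
            LY D.toRD0 ⊥ w z) ≤
          ∑ y ∈ I, Wt (p * ϖ) y.1 * ∏ v ∈ y.2, (if Sp y.1 v then (V : ℝ) else q) / nm v := by
  have hp0 : (0 : ℝ) < p := by exact_mod_cast hp.pos
  have hA0 : (0 : ℝ) ≤ 16 * ((p : ℝ) * h₀ + V) ^ 2 := by positivity
  have hB0 : (0 : ℝ) ≤ 8 * ((p : ℝ) * h₀ + V) := by positivity
  obtain ⟨K₁, K₂, hK₁, hK₂, hg⟩ := gxm hp hp2 hζ D hK hcard F hU hUc ϖ h₀ hϖ hh
  have hm1 : (0 : ℝ) < min ε 1 := lt_min hε one_pos
  obtain ⟨η, hη⟩ : ∃ η : ℝ, η = min ε 1 / (K₂ + 16 * ((p : ℝ) * h₀ + V) ^ 2) := ⟨_, rfl⟩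
  have hη0 : 0 < η := by rw [hη]; positivity
  have hηK : K₂ * η ≤ min ε 1 := by
    rw [hη, mul_div_assoc', div_le_iff₀ (by positivity)]
    nlinarith [mul_nonneg hm1.le hA0]
  have hηA : 16 * ((p : ℝ) * h₀ + V) ^ 2 * η ≤ min ε 1 := by
    rw [hη, mul_div_assoc', div_le_iff₀ (by positivity)]
    nlinarith [mul_nonneg hm1.le hK₂.le]
  obtain ⟨w₀, hw₀⟩ := H38.TD.sq_small K (D.S0 : Set (Pl K)) η hη0
  obtain ⟨w, hw⟩ : ∃ w : ℝ, w = max w₀ ((p * ϖ : ℕ) : ℝ) := ⟨_, rfl⟩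
  have hsq : ∀ z : ℝ, ∑ v ∈ ZY D.toRD0 ⊥ w z, 1 / (nm v : ℝ) ^ 2 ≤ η := by
    intro z
    refine le_trans ?_ (hw₀ z)
    have e1 : ∑ v ∈ H38.TD.Zs (D.S0 : Set (Pl K)) w₀ z, 1 / (H38.TD.nv v.1 : ℝ) ^ 2 =
        ∑ v ∈ (H38.TD.Zs (D.S0 : Set (Pl K)) w₀ z).image Subtype.val, 1 / (nm v : ℝ) ^ 2 := by
      rw [Finset.sum_image (fun a _ b _ h => Subtype.ext h)]
      rfl
    rw [e1]
    refine Finset.sum_le_sum_of_subset_of_nonneg ?_ fun v _ _ => by positivity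
    intro v hv
    rw [mem_ZY] at hv
    rw [Finset.mem_image]
    refine ⟨⟨v, fun h => hv.2.1.1 (by exact_mod_cast h)⟩, ?_, rfl⟩
    rw [H38.TD.mem_Zs]
    refine ⟨hv.1, lt_of_le_of_lt ?_ hv.2.2.1⟩
    rw [hw]
    exact le_max_left _ _
  obtain ⟨c, B, z₀, hc, hB, hg2⟩ := hg ε hε w (by rw [hw]; exact le_max_right _ _) fun z =>
    (mul_le_mul_of_nonneg_left (hsq z) hK₂.le).trans hηK
  obtain ⟨c₂, hc₂, L₀, hd⟩ := duma hp (nm : Pl K → ℕ) (fun v => one_lt_nm v) Sp h₀ q V hh0 hq hqV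
    flag hflag ε hε
  obtain ⟨C₃, hC₃, hlg⟩ := lg_low D.toRD0
  have hqV' : (q : ℝ) ≤ V := by exact_mod_cast hqV
  obtain ⟨C₅, hC₅⟩ : ∃ C₅ : ℝ, C₅ = q * ε + (V - q) * (ε / p + B) := ⟨_, rfl⟩
  obtain ⟨T, hT⟩ : ∃ T : ℝ, T = max L₀ (10 * (ε + p * B)) + C₃ + Li (gdY D.toRD0 w) := ⟨_, rfl⟩
  refine ⟨w, c₂ * Real.exp (-C₅) * c, K₁ + 8 * ((p : ℝ) * h₀ + V),
    max z₀ (max 3 (Real.exp (Real.exp T))), by positivity, by positivity, ?_⟩
  intro z hz Λ hΛ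
  have hz0 : z₀ ≤ z := (le_max_left _ _).trans hz
  have hz3 : (3 : ℝ) ≤ z := ((le_max_left _ _).trans (le_max_right _ _)).trans hz
  have hzT : Real.exp (Real.exp T) ≤ z := ((le_max_right _ _).trans (le_max_right _ _)).trans hz
  obtain ⟨Z, hZ⟩ : ∃ Z : Finset (Pl K), Z = ZY D.toRD0 ⊥ w z := ⟨_, rfl⟩
  obtain ⟨L, hL⟩ : ∃ L : ℝ, L = LY D.toRD0 ⊥ w z := ⟨_, rfl⟩
  have hLZ : L = Li Z := by rw [hL, hZ]; rfl
  have hLT : T - C₃ - Li (gdY D.toRD0 w) ≤ L := by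
    have h1 : T ≤ Real.log (Real.log z) := by
      have h2 : Real.exp T ≤ Real.log z := by
        rw [Real.le_log_iff_exp_le (by linarith)]
        exact hzT
      rw [Real.le_log_iff_exp_le (lt_of_lt_of_le (Real.exp_pos _) h2)]
      exact h2
    have h2 := hlg z hz3
    have h3 : Li (gdY D.toRD0 z) ≤ Li Z + Li (gdY D.toRD0 w) := by
      unfold Li
      have h4 : gdY D.toRD0 z ⊆ Z ∪ gdY D.toRD0 w := by
        intro v hv
        rw [chr_mem] at hv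
        rw [Finset.mem_union, hZ, mem_ZY, chr_mem]
        by_cases h5 : w < nm v
        · refine Or.inl ⟨hv.1, hv.2, h5, ?_⟩
          intro κ hκ
          rw [Submodule.mem_bot] at hκ
          subst hκ
          simp [dt]
        · exact Or.inr ⟨not_lt.1 h5, hv.2⟩
      refine (Finset.sum_le_sum_of_subset_of_nonneg h4 fun v _ _ => by positivity).trans ?_
      rw [← Finset.sum_union_inter]
      exact le_add_of_nonneg_right (Finset.sum_nonneg fun v _ => by positivity)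
    rw [hLZ]
    linarith
  have hLL₀ : L₀ ≤ L := by
    have := le_max_left L₀ (10 * (ε + p * B))
    linarith [hT]
  have hLB : 10 * (ε + p * B) ≤ L := by
    have := le_max_right L₀ (10 * (ε + p * B))
    linarith [hT]
  rw [← hZ] at hΛ
  have hS0 : 0 ≤ ∑ v ∈ Z, Real.log (nm v) / nm v :=
    Finset.sum_nonneg fun v _ => div_nonneg (Real.log_natCast_nonneg _) (by positivity)
  have hΛ1 : K₁ * ∑ v ∈ Z, Real.log (nm v) / nm v ≤ Λ := by
    nlinarith [mul_nonneg hB0 hS0]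
  have hΛ2 : 8 * ((p : ℝ) * h₀ + V) * ∑ v ∈ Z, Real.log (nm v) / nm v ≤ Λ := by
    nlinarith [mul_nonneg hK₁.le hS0]
  have hgm := hg2 z hz0 Λ (by rw [← hZ]; exact hΛ1)
  rw [← hL] at hgm
  obtain ⟨G, hG⟩ : ∃ G : Finset (Pl K →₀ ZMod p), G = GX D.toRD0 𝒦 h₀ w z B Λ ε := ⟨_, rfl⟩
  rw [← hG] at hgm
  have hmemG : ∀ i ∈ G, IsGd D.toRD0 𝒦 i ∧ i.support ⊆ Z ∧
      (∀ j : ZMod p, j ≠ 0 → ‖Gr D.toRD0 Z i j‖ ≤ B) ∧
      (i.support.card : ℝ) ≤ 13 / 10 * ((p : ℝ) - 1) * h₀ * L ∧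
      ∑ v ∈ i.support, Real.log (nm v) ≤ Λ ∧ Li i.support ≤ ε := by
    intro i hi
    rw [hG, GX, Finset.mem_filter, XC, Finset.mem_filter, mem_XF] at hi
    obtain ⟨⟨h1, h2⟩, h3, h4, h5, h6, h7, h8⟩ := hi
    refine ⟨⟨h3, fun v hv => (mem_ZY.1 (h1 hv)).2.1, h2, h4,
      fun v hv => (mem_ZY.1 (h1 hv)).2.2.2⟩, ?_, by rw [hZ]; exact h5, by rw [hL]; exact h6,
      h7, h8⟩
    intro v hv
    have h9 := mem_ZY.1 (h1 hv)
    rw [hZ, mem_ZY]
    refine ⟨h9.1, h9.2.1, h9.2.2.1, ?_⟩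
    intro κ hκ
    rw [Submodule.mem_bot] at hκ
    subst hκ
    simp [dt]
  obtain ⟨P, hP⟩ : ∃ P : (Pl K →₀ ZMod p) → Finset (Pl K) → Prop, P = fun i R =>
    (H38.TD.Ln nm R ≤ Λ ∧ H38.TD.Lv nm R ≤ ε) ∧ Disjoint i.support R ∧
      (flag ∨ i.support.card ≤ (R.filter (Sp i)).card) := ⟨_, rfl⟩
  refine ⟨(G ×ˢ Z.powerset).filter fun y => P y.1 y.2, ?_, ?_⟩
  · intro y hy
    rw [Finset.mem_filter, Finset.mem_product, Finset.mem_powerset, hP] at hy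
    obtain ⟨⟨hy1, hy2⟩, ⟨hy3, hy4⟩, hy5, hy6⟩ := hy
    obtain ⟨g1, g2, g3, g4, g5, g6⟩ := hmemG y.1 hy1
    rw [← hZ]
    exact ⟨g1, g2, hy2, hy5, hy6, g5, hy3, g6, hy4⟩
  · rw [← hL, Finset.sum_filter, Finset.sum_product]
    have key : ∀ i ∈ G, Wt (p * ϖ) i * (c₂ * Real.exp ((q + ((V : ℝ) - q) / p) * L - C₅)) ≤
        ∑ R ∈ Z.powerset, if P i R then
          Wt (p * ϖ) i * ∏ v ∈ R, (if Sp i v then (V : ℝ) else q) / nm v else 0 := by
      intro i hi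
      obtain ⟨g1, g2, g3, g4, g5, g6⟩ := hmemG i hi
      rw [← Finset.sum_filter, ← Finset.mul_sum]
      refine mul_le_mul_of_nonneg_left ?_ (Wt_nonneg _ _)
      have hLi : L - ε ≤ Li (Z \ i.support) := by
        have h1 : Li (Z \ i.support) + Li i.support = Li Z := by
          unfold Li
          exact Finset.sum_sdiff g2
        linarith
      have hX0 : (L - ε) / p - B ≤
          Li ((Z \ i.support).filter fun v => D.LL v (xx D.toRD0 i) = 0) := by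
        have h1 : ∑ j : ZMod p, Gr D.toRD0 Z i j =
            ((p * Li ((Z \ i.support).filter fun v => D.LL v (xx D.toRD0 i) = 0) : ℝ) : ℂ) := by
          unfold Gr Li
          rw [Finset.sum_comm, Finset.sum_filter, Finset.mul_sum]
          push_cast
          refine Finset.sum_congr rfl fun v _ => ?_
          rw [← Finset.sum_div, ep_sum hp]
          split_ifs <;> simp [div_eq_mul_inv]
        have h2 : ∑ j : ZMod p, (Gr D.toRD0 Z i j).re =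
            p * Li ((Z \ i.support).filter fun v => D.LL v (xx D.toRD0 i) = 0) := by
          rw [← Complex.re_sum, h1, Complex.ofReal_re]
        rw [← Finset.add_sum_erase _ _ (Finset.mem_univ (0 : ZMod p))] at h2
        have h3 : (Gr D.toRD0 Z i 0).re = Li (Z \ i.support) := by
          have h4 : Gr D.toRD0 Z i 0 = ((Li (Z \ i.support) : ℝ) : ℂ) := by
            unfold Gr Li
            push_cast
            refine Finset.sum_congr rfl fun v _ => ?_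
            rw [zero_mul, ep_zero]
          rw [h4, Complex.ofReal_re]
        have h5 : -(((p : ℝ) - 1) * B) ≤
            ∑ j ∈ Finset.univ.erase (0 : ZMod p), (Gr D.toRD0 Z i j).re := by
          have h6 : ∑ j ∈ Finset.univ.erase (0 : ZMod p), (-B) = -(((p : ℝ) - 1) * B) := by
            rw [Finset.sum_const, Finset.card_erase_of_mem (Finset.mem_univ _),
              Finset.card_univ, ZMod.card, nsmul_eq_mul, Nat.cast_pred hp.pos]
            ring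
          rw [← h6]
          refine Finset.sum_le_sum fun j hj => ?_
          have h7 := g3 j (Finset.ne_of_mem_erase hj)
          have h8 := Complex.abs_re_le_norm (Gr D.toRD0 Z i j)
          linarith [(abs_le.1 (h8.trans h7)).1]
        rw [h3] at h2
        rw [sub_le_iff_le_add, div_le_iff₀ hp0]
        nlinarith
      obtain ⟨X, hX⟩ : ∃ X : ℝ, X = Li ((Z \ i.support).filter (Sp i)) := ⟨_, rfl⟩
      have hX1 : (L - ε) / p - B ≤ X := by
        refine hX0.trans ?_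
        rw [hX]
        unfold Li
        refine Finset.sum_le_sum_of_subset_of_nonneg ?_ fun v _ _ => by positivity
        intro v hv
        rw [Finset.mem_filter] at hv ⊢
        refine ⟨hv.1, ?_⟩
        have h1 := Finset.mem_sdiff.1 hv.1
        have h2 := h1.1
        rw [hZ, mem_ZY] at h2
        exact hSp i g1 v h2.2.1.1 h1.2 hv.2
      have hd2 := hd Z Λ hΛ2 ((mul_le_mul_of_nonneg_left (by rw [hZ]; exact hsq z) hA0).trans hηA)
        (by rw [hLZ] at hLL₀; exact hLL₀) i g2 (Or.inr ⟨by rw [hLZ] at g4; exact g4, by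
          have h1 : 9 / 10 / p * L ≤ X := by
            refine le_trans ?_ hX1
            rw [div_mul_eq_mul_div, le_sub_iff_add_le, le_div_iff₀ hp0, add_mul,
              div_mul_cancel₀ _ hp0.ne']
            nlinarith
          rw [hLZ, hX] at h1
          exact h1⟩)
      refine le_trans ?_ (hd2.trans (le_of_eq ?_))
      · refine mul_le_mul_of_nonneg_left (Real.exp_le_exp.2 ?_) hc₂.le
        have h1 : ∑ v ∈ Z \ i.support, (if Sp i v then (V : ℝ) else q) / nm v =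
            q * Li (Z \ i.support) + (V - q) * X := by
          rw [hX]
          unfold Li
          rw [Finset.sum_filter, Finset.mul_sum, Finset.mul_sum, ← Finset.sum_add_distrib]
          refine Finset.sum_congr rfl fun v _ => ?_
          split_ifs <;> ring
        rw [h1]
        have h2 : (q : ℝ) * (L - ε) ≤ q * Li (Z \ i.support) :=
          mul_le_mul_of_nonneg_left hLi (by positivity)
        have h3 : ((V : ℝ) - q) * ((L - ε) / p - B) ≤ (V - q) * X :=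
          mul_le_mul_of_nonneg_left hX1 (by linarith)
        have h4 : (q + ((V : ℝ) - q) / p) * L - C₅ =
            q * (L - ε) + ((V : ℝ) - q) * ((L - ε) / p - B) := by
          rw [hC₅]
          ring
        linarith
      · refine Finset.sum_congr (Finset.filter_congr fun R _ => ?_) fun _ _ => rfl
        rw [hP]
    refine le_trans ?_ (Finset.sum_le_sum key)
    rw [← Finset.sum_mul]
    have h1 : Real.exp ((((p : ℝ) - 1) * h₀ + (q + ((V : ℝ) - q) / p)) * L) =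
        Real.exp (((p : ℝ) - 1) * h₀ * L) * Real.exp ((q + ((V : ℝ) - q) / p) * L) := by
      rw [← Real.exp_add]
      congr 1
      ring
    have h2 : Real.exp ((q + ((V : ℝ) - q) / p) * L - C₅) =
        Real.exp (-C₅) * Real.exp ((q + ((V : ℝ) - q) / p) * L) := by
      rw [← Real.exp_add]
      congr 1
      ring
    rw [h1, h2]
    calc c₂ * Real.exp (-C₅) * c * (Real.exp (((p : ℝ) - 1) * h₀ * L) *
          Real.exp ((q + ((V : ℝ) - q) / p) * L))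
        = (c * Real.exp (((p : ℝ) - 1) * h₀ * L)) *
          (c₂ * (Real.exp (-C₅) * Real.exp ((q + ((V : ℝ) - q) / p) * L))) := by ring
      _ ≤ _ := mul_le_mul_of_nonneg_right hgm (by positivity)

end H83.LW
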