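import Pool.Agent.H38.TD.Ana10

/-!
# [H83 LW ANAT] from pairs `(x, R)` to homomorphisms (50-90 lines)

Adaptation of `ana10` (`H38/TD/Ana10.lean`, with `ana10_fib`). `∑_{(x,R) ∈ I} #H x R Pv (supp x) Pv R = ∑_{ρ} ∑_{(x, R) ∈ I, ρ ∈ H x R} Pv (supp x) Pv R`,
`ρ` in `I.biUnion H`. For given `ρ`: `x = xi ρ` and `r ρ ⊆ R ⊆ Z`, `R` disjoint from `supp x` (`h1`, `h2`), so
`Pv (supp x) Pv R = Pv (supp x ∪ r ρ) Pv (R ∖ r ρ)` (disjoint unions), and the sum over `R` of `Pv (R ∖ r ρ)` is at most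
`∑_{R' ⊆ Z} Pv R' = ∏ (1 + 1/N) ≤ exp (Lv N Z)` (`R ↦ R ∖ r ρ` is injective on the `R ⊇ r ρ`; terms are nonnegative).
-/

open scoped Classical

noncomputable section

namespace H83.LW

open H38.TD

theorem anat {Pt X Ht : Type} (N : Pt → ℕ) (Z : Finset Pt) (I : Finset (X × Finset Pt))
    (supp : X → Finset Pt) (H : X → Finset Pt → Finset Ht) (xi : Ht → X) (r : Ht → Finset Pt)
    (h1 : ∀ y ∈ I, y.2 ⊆ Z ∧ Disjoint (supp y.1) y.2)
    (h2 : ∀ y ∈ I, ∀ ρ ∈ H y.1 y.2, xi ρ = y.1 ∧ r ρ ⊆ y.2) :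
    ∑ y ∈ I, ((H y.1 y.2).card : ℝ) * (Pv N (supp y.1) * Pv N y.2) ≤
      Real.exp (Lv N Z) * ∑ ρ ∈ I.biUnion (fun y => H y.1 y.2),
        Pv N (supp (xi ρ) ∪ r ρ) := by
  have hPv : ∀ R : Finset Pt, 0 ≤ Pv N R := fun R => Finset.prod_nonneg fun v _ => by positivity
  have hfib : ∀ ρ : Ht, ∑ y ∈ I.filter (fun y => ρ ∈ H y.1 y.2), Pv N (supp y.1) * Pv N y.2 ≤
      Real.exp (Lv N Z) * Pv N (supp (xi ρ) ∪ r ρ) := by
    intro ρ
    have hmem : ∀ y ∈ I.filter (fun y => ρ ∈ H y.1 y.2),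
        y.2 ⊆ Z ∧ Disjoint (supp y.1) y.2 ∧ xi ρ = y.1 ∧ r ρ ⊆ y.2 := by
      intro y hy
      rw [Finset.mem_filter] at hy
      obtain ⟨hy1, hy2⟩ := hy
      exact ⟨(h1 y hy1).1, (h1 y hy1).2, (h2 y hy1 ρ hy2).1, (h2 y hy1 ρ hy2).2⟩
    have h3 : ∀ y ∈ I.filter (fun y => ρ ∈ H y.1 y.2),
        Pv N (supp y.1) * Pv N y.2 = Pv N (y.2 \ r ρ) * Pv N (supp (xi ρ) ∪ r ρ) := by
      intro y hy
      obtain ⟨_, hd, hx, hr⟩ := hmem y hy
      have h4 : Pv N (supp (xi ρ) ∪ r ρ) = Pv N (supp y.1) * Pv N (r ρ) := by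
        unfold Pv
        rw [hx, Finset.prod_union (Finset.disjoint_of_subset_right hr hd)]
      have h5 : Pv N y.2 = Pv N (y.2 \ r ρ) * Pv N (r ρ) := by
        unfold Pv
        rw [Finset.prod_sdiff hr]
      rw [h4, h5]
      ring
    rw [Finset.sum_congr rfl h3, ← Finset.sum_mul]
    refine mul_le_mul_of_nonneg_right ?_ (hPv _)
    have hinj : Set.InjOn (fun y : X × Finset Pt => y.2 \ r ρ)
        (I.filter (fun y => ρ ∈ H y.1 y.2) : Set (X × Finset Pt)) := by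
      intro y hy y' hy' h
      obtain ⟨_, _, hx, hr⟩ := hmem y (Finset.mem_coe.1 hy)
      obtain ⟨_, _, hx', hr'⟩ := hmem y' (Finset.mem_coe.1 hy')
      refine Prod.ext (hx.symm.trans hx') ?_
      have h4 : y.2 \ r ρ = y'.2 \ r ρ := h
      rw [← Finset.sdiff_union_of_subset hr, ← Finset.sdiff_union_of_subset hr', h4]
    have h4 := Finset.sum_image (f := fun R => Pv N R) hinj
    rw [← h4]
    have h5 : (I.filter (fun y => ρ ∈ H y.1 y.2)).image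
        (fun y : X × Finset Pt => y.2 \ r ρ) ⊆ Z.powerset := by
      intro R hR
      rw [Finset.mem_image] at hR
      obtain ⟨y, hy, rfl⟩ := hR
      rw [Finset.mem_powerset]
      exact Finset.sdiff_subset.trans (hmem y hy).1
    refine (Finset.sum_le_sum_of_subset_of_nonneg h5 fun R _ _ => hPv _).trans ?_
    unfold Pv Lv
    rw [← Finset.prod_one_add]
    exact prod_le_exp Z _ fun v _ => by positivity
  have h3 : ∀ y ∈ I, ((H y.1 y.2).card : ℝ) * (Pv N (supp y.1) * Pv N y.2) =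
      ∑ ρ ∈ I.biUnion (fun y => H y.1 y.2),
        if ρ ∈ H y.1 y.2 then Pv N (supp y.1) * Pv N y.2 else 0 := by
    intro y hy
    have h4 : (I.biUnion (fun y => H y.1 y.2)).filter (fun ρ => ρ ∈ H y.1 y.2) = H y.1 y.2 := by
      ext ρ
      rw [Finset.mem_filter]
      refine ⟨fun h => h.2, fun h => ⟨?_, h⟩⟩
      rw [Finset.mem_biUnion]
      exact ⟨y, hy, h⟩
    rw [← Finset.sum_filter, h4, Finset.sum_const, nsmul_eq_mul]
  rw [Finset.sum_congr rfl h3, Finset.sum_comm, Finset.mul_sum]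
  refine Finset.sum_le_sum fun ρ _ => ?_
  rw [← Finset.sum_filter]
  exact hfib ρ

end H83.LW
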