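import Pool.Agent.H83.LW.JDef
import Pool.Agent.H63.MA.SymC
import Pool.Agent.H63.MA.ABilB

/-!
# [H83 LW BFORM] the symbols and the total phase (three theorems, 80-140 lines)

* `bform`: `v ∉ S0`, so `v ∤ p`. `x = xx i`, `y = n`, `a = ord v x`, `b = ord v y`. `x = x' π^a`, `y = y' π^b`, `π = pi v` (`pi_self`),
  `x^b y^{-a} = x'^b y'^{-a}`, so `B v x y = lg v (x'^b y'^{-a}) = b lg v x' - a lg v y' = b LL v x - a LL v y` (`lg_mul`, `lg_zpow` in
  `MA/SymB` for elements of order `0`; definition of `LL` and `B`).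
* `ord_xx`: `ord v (xx D i) = ((i v).val : ℤ)` for `v ∉ S0` if the support of `i` is outside `S0` (`ord_prod`, `pi_self`, `pi_ne`).
* `bph`: `g` disjoint family of good primes, `i = ig g`, `j = jg g`, `k = kg g`; `supp i = ⋃ g a`, and for `v ∈ g a`: `i v = a.i`,
  `j v = a.j`, `k v = a.t`. `u` has order `0` outside `S0`. By `bform` and `ord_xx` (`(c.val : ZMod p) = c`):
  `∑_{v ∈ supp i} k v B v (xx i) (u xx j) = ∑_a ∑_{v ∈ g a} a.t (a.j LL v (xx i) - a.i LL v (u xx j))`.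
  `LL v (xx i) = ∑_{w ∈ supp i} i w LL v (pi w)` (`LL_prod`/`aph_LL_prod` in `MA/APh`, `LL_zpow`), the same for `j`. On the other side
  `ph D (PJ p ϖ) ![1, u] g = ∑_a ∑_{v ∈ g a} (a.t a.j LL v 1 - a.t a.i LL v u) + ∑_a ∑_{a'} (a.t a.j a'.i - a.t a.i a'.j)
  ∑_{v ∈ g a} ∑_{w ∈ g a'} LL v (pi w)` (`lf_pf` in `MA/ABilB`, `LL_one`). Both are equal.
-/

set_option autoImplicit false

open scoped NumberField
open IsDedekindDomain
open scoped Classical

noncomputable section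

namespace H83.LW

open H63.MA H38.BB

variable {K : Type} [Field K] [NumberField K] {p ϖ : ℕ} {ζ : K}

theorem bform (hp : p.Prime) (hζ : IsPrimitiveRoot ζ p) (D : RD0 K p ζ) {v : Pl K}
    (hv : v ∉ D.S0) (x y : Kˣ) :
    B p ζ v x y = (ord v y : ZMod p) * D.LL v x - (ord v x : ZMod p) * D.LL v y := by
  rw [B_eq hp hζ D hv, mul_comm (D.LL v x)]

theorem ord_xx (D : RD0 K p ζ) (i : Pl K →₀ ZMod p) (hi : ∀ v ∈ i.support, v ∉ D.S0) {v : Pl K}
    (hv : v ∉ D.S0) : ord v (xx D i) = ((i v).val : ℤ) := by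
  unfold xx
  rw [ord_prod]
  by_cases h : v ∈ i.support
  · rw [Finset.sum_eq_single v]
    · rw [ord_pow, D.pi_self v hv, mul_one]
    · intro w hw hwv
      rw [ord_pow, D.pi_ne w v (hi w hw) hv (fun h => hwv h.symm), mul_zero]
    · intro h'
      exact absurd h h'
  · rw [Finsupp.notMem_support_iff.1 h, ZMod.val_zero, Nat.cast_zero]
    refine Finset.sum_eq_zero fun w hw => ?_
    rw [ord_pow, D.pi_ne w v (hi w hw) hv (fun h' => h (h' ▸ hw)), mul_zero]

private theorem bfm_LL_prod {ι : Type} (hp : p.Prime) (hζ : IsPrimitiveRoot ζ p) (D : RD0 K p ζ)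
    {w : Pl K} (hw : w ∉ D.S0) (s : Finset ι) (f : ι → Kˣ) :
    D.LL w (∏ v ∈ s, f v) = ∑ v ∈ s, D.LL w (f v) := by
  induction s using Finset.induction_on with
  | empty => rw [Finset.prod_empty, Finset.sum_empty, LL_one hp hζ D hw]
  | insert a s ha ih =>
    rw [Finset.prod_insert ha, Finset.sum_insert ha, LL_mul hp hζ D hw, ih]

theorem LL_xx (hp : p.Prime) (hζ : IsPrimitiveRoot ζ p) (D : RD0 K p ζ) (i : Pl K →₀ ZMod p)
    {v : Pl K} (hv : v ∉ D.S0) :
    D.LL v (xx D i) = ∑ w ∈ i.support, i w * D.LL v (D.pi w) := by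
  have : NeZero p := ⟨hp.ne_zero⟩
  unfold xx
  rw [bfm_LL_prod hp hζ D hv]
  refine Finset.sum_congr rfl fun w _ => ?_
  have h := LL_zpow hp hζ D hv (D.pi w) ((i w).val : ℤ)
  rw [zpow_natCast, Int.cast_natCast, ZMod.natCast_zmod_val] at h
  exact h

private theorem bfm_apply {J : Type} [Fintype J] (g : J → Finset (Pl K)) (hd : Dj g)
    (c : J → ZMod p) {a : J} {v : Pl K} (hv : v ∈ g a) :
    (∑ a, ∑ v ∈ g a, Finsupp.single v (c a)) v = c a := by
  rw [Finsupp.finsetSum_apply, Finset.sum_eq_single a]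
  · rw [Finsupp.finsetSum_apply, Finset.sum_eq_single v]
    · rw [Finsupp.single_apply, if_pos rfl]
    · intro w _ hw
      rw [Finsupp.single_apply, if_neg hw]
    · intro h
      exact absurd hv h
  · intro a' _ ha'
    rw [Finsupp.finsetSum_apply]
    refine Finset.sum_eq_zero fun w hw => ?_
    rw [Finsupp.single_apply, if_neg]
    rintro rfl
    exact Finset.disjoint_left.1 (hd a' a ha') hw hv
  · intro h
    exact absurd (Finset.mem_univ _) h

private theorem bfm_zero {J : Type} [Fintype J] (g : J → Finset (Pl K))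
    (c : J → ZMod p) {v : Pl K} (hv : v ∉ Finset.univ.biUnion g) :
    (∑ a, ∑ v ∈ g a, Finsupp.single v (c a)) v = 0 := by
  rw [Finsupp.finsetSum_apply]
  refine Finset.sum_eq_zero fun a _ => ?_
  rw [Finsupp.finsetSum_apply]
  refine Finset.sum_eq_zero fun w hw => ?_
  rw [Finsupp.single_apply, if_neg]
  rintro rfl
  exact hv (Finset.mem_biUnion.2 ⟨a, Finset.mem_univ _, hw⟩)

private theorem bfm_supp {J : Type} [Fintype J] (g : J → Finset (Pl K)) (c : J → ZMod p) :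
    (∑ a, ∑ v ∈ g a, Finsupp.single v (c a)).support ⊆ Finset.univ.biUnion g := by
  intro v hv
  by_contra h
  exact (Finsupp.mem_support_iff.1 hv) (bfm_zero g c h)

private theorem bfm_sum {J : Type} [Fintype J] (g : J → Finset (Pl K)) (hd : Dj g)
    (c : J → ZMod p) (Φ : Pl K → ZMod p → ZMod p) (h0 : ∀ v, Φ v 0 = 0) :
    ∑ v ∈ (∑ a, ∑ v ∈ g a, Finsupp.single v (c a)).support,
        Φ v ((∑ a, ∑ v ∈ g a, Finsupp.single v (c a)) v) =
      ∑ a, ∑ v ∈ g a, Φ v (c a) := by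
  rw [Finset.sum_subset (bfm_supp g c) (fun v _ hv => by
    rw [Finsupp.notMem_support_iff.1 hv, h0]), Finset.sum_biUnion (fun l _ l' _ h => hd l l' h)]
  refine Finset.sum_congr rfl fun a _ => Finset.sum_congr rfl fun v hv => ?_
  rw [bfm_apply g hd c hv]

theorem bph [NeZero p] (hp : p.Prime) (hζ : IsPrimitiveRoot ζ p) (D : RD0 K p ζ)
    (g : JT p ϖ → Finset (Pl K)) (hg : ∀ a, ∀ v ∈ g a, D.Gd v) (hd : Dj g) (u : Kˣ)
    (hu : ∀ v, v ∉ D.S0 → ord v u = 0) :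
    ∑ v ∈ (ig g).support, kg g v * B p ζ v (xx D (ig g)) (u * xx D (jg g)) =
      ph D (PJ p ϖ) ![1, u] g := by
  have hgS : ∀ a, ∀ v ∈ g a, v ∉ D.S0 := fun a v hv => (hg a v hv).1
  have hUS : ∀ v ∈ Finset.univ.biUnion g, v ∉ D.S0 := fun v hv => by
    obtain ⟨a, -, ha⟩ := Finset.mem_biUnion.1 hv
    exact hgS a v ha
  have hiS : ∀ v ∈ (ig g).support, v ∉ D.S0 := fun v hv => hUS v (bfm_supp g _ hv)
  have hjS : ∀ v ∈ (jg g).support, v ∉ D.S0 := fun v hv => hUS v (bfm_supp g _ hv)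
  have hiv : ∀ a, ∀ v ∈ g a, ig g v = a.i := fun a v hv =>
    bfm_apply g hd (fun a => (a.i : ZMod p)) hv
  have hjv : ∀ a, ∀ v ∈ g a, jg g v = a.j := fun a v hv => bfm_apply g hd (fun a => a.j) hv
  have hkv : ∀ a, ∀ v ∈ g a, kg g v = a.t := fun a v hv => bfm_apply g hd (fun a => a.t) hv
  have hsupp : (ig g).support = Finset.univ.biUnion g := by
    refine Finset.Subset.antisymm (bfm_supp g _) fun v hv => ?_
    obtain ⟨a, -, ha⟩ := Finset.mem_biUnion.1 hv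
    rw [Finsupp.mem_support_iff, hiv a v ha]
    exact a.i.2
  rw [hsupp, Finset.sum_biUnion (fun l _ l' _ h => hd l l' h)]
  unfold ph
  rw [← Finset.sum_add_distrib]
  refine Finset.sum_congr rfl fun a _ => ?_
  have h1 : ∀ a', dt ((PJ p ϖ).θ a) ((PJ p ϖ).x a') =
      a.t * a.j * a'.i - a.t * a.i * a'.j := fun a' => by
    simp [dt, PJ, Fin.sum_univ_two]
    ring
  have h2 : ∀ v ∈ g a, dt ((PJ p ϖ).θ a) (fun k => D.LL v (![1, u] k)) =
      -(a.t * a.i * D.LL v u) := fun v hv => by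
    simp [dt, PJ, Fin.sum_univ_two, LL_one hp hζ D (hgS a v hv)]
  have h3 : ∀ a', Lf D (g a) (pf D (g a')) = ∑ v ∈ g a, ∑ w ∈ g a', D.LL v (D.pi w) :=
    fun a' => lf_pf hp hζ D (hgS a) (g a')
  have h4 : ∑ a', dt ((PJ p ϖ).θ a) ((PJ p ϖ).x a') * Lf D (g a) (pf D (g a')) =
      ∑ v ∈ g a, ∑ a', (a.t * a.j * a'.i - a.t * a.i * a'.j) * ∑ w ∈ g a', D.LL v (D.pi w) := by
    rw [Finset.sum_comm]
    refine Finset.sum_congr rfl fun a' _ => ?_
    rw [h1, h3, Finset.mul_sum]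
  rw [h4, ← Finset.sum_add_distrib]
  refine Finset.sum_congr rfl fun v hv => ?_
  have hvS := hgS a v hv
  have h5 : D.LL v (xx D (ig g)) = ∑ a' : JT p ϖ, (a'.i : ZMod p) * ∑ w ∈ g a', D.LL v (D.pi w) := by
    rw [LL_xx hp hζ D (ig g) hvS]
    have := bfm_sum g hd (fun a => (a.i : ZMod p)) (fun w c => c * D.LL v (D.pi w))
      (fun w => zero_mul _)
    refine this.trans (Finset.sum_congr rfl fun a' _ => ?_)
    rw [Finset.mul_sum]
  have h6 : D.LL v (xx D (jg g)) = ∑ a' : JT p ϖ, a'.j * ∑ w ∈ g a', D.LL v (D.pi w) := by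
    rw [LL_xx hp hζ D (jg g) hvS]
    have := bfm_sum g hd (fun a => a.j) (fun w c => c * D.LL v (D.pi w))
      (fun w => zero_mul _)
    refine this.trans (Finset.sum_congr rfl fun a' _ => ?_)
    rw [Finset.mul_sum]
  rw [h2 v hv, hkv a v hv, bform hp hζ D hvS, ord_mul, hu v hvS, zero_add, ord_xx D _ hjS hvS,
    ord_xx D _ hiS hvS, Int.cast_natCast, Int.cast_natCast, ZMod.natCast_zmod_val,
    ZMod.natCast_zmod_val, hiv a v hv, hjv a v hv, LL_mul hp hζ D hvS, h5, h6]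
  have h7 : ∑ a' : JT p ϖ, (a.t * a.j * a'.i - a.t * a.i * a'.j) * ∑ w ∈ g a', D.LL v (D.pi w) =
      a.t * a.j * ∑ a' : JT p ϖ, (a'.i : ZMod p) * ∑ w ∈ g a', D.LL v (D.pi w) -
        a.t * a.i * ∑ a' : JT p ϖ, a'.j * ∑ w ∈ g a', D.LL v (D.pi w) := by
    rw [Finset.mul_sum, Finset.mul_sum, ← Finset.sum_sub_distrib]
    refine Finset.sum_congr rfl fun a' _ => ?_
    ring
  rw [h7]
  ring

end H83.LW
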