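import Pool.Agent.H83.LW.SML
import Pool.Agent.H63.MA.ABilB

/-!
# [H83 LW BLOG] the bilinear form with logarithmic weights (120-200 lines)

Put `V = exp((log z)²)`, `σ = 1 / log z ∈ (0, 1]`.
(1) Tails (Rankin): for `n ⊆ Z` with `V < nr n`: `1 / nr n ≤ V^(-σ) (nr n)^(σ - 1)`, and
`∑_{n ⊆ Z} (nr n)^(σ-1) = ∏_{v ∈ Z} (1 + (nm v)^(σ-1)) ≤ exp(3 Li Z)` since `(nm v)^σ ≤ z^σ = e ≤ 3`; `V^(-σ) = exp(-log z) = 1 / z`. As
`Z ⊆ gdY D z`, `exp(Li Z) ≤ C log z` (`lg_up`). So the pairs `(m, n)` with `V < nr m` or `V < nr n` contribute at most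
`2 (1/z) (C log z)^3 (C log z)` in absolute value (`sm_full` for the other variable).
(2) The pairs with `y < nr m ≤ V`, `y < nr n ≤ V`: dyadic blocks `2^i < nr m ≤ 2^(i+1)`, `2^j < nr n ≤ 2^(j+1)`,
`i, j ≤ log V / log 2 + 1` (if `y ≥ 1` all such `m` have `nr m ≥ 2`, so `i, j ≥ 0`; note that `2^i < nr m ≤ 2^(i+1)` is needed with the
strict inequality on the left and `nr m > 1`; take `i` minimal with `nr m ≤ 2^(i+1)`. The lemmas `dy_one`, `dy_sum` in `MA/ABilB` do this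
decomposition: `z 2^i < nr m ≤ z 2^(i+1)` starting from `z = y`). In the block with `M = y 2^(i+1)`, `N = y 2^(j+1)` put
`α' m = α m (M / 2) / nr m`, `β' n = β n (N / 2) / nr n`: absolute values `≤ 1`, and
`α m β n / (nr m nr n) = (4 / (M N)) α' m β' n`. `bil_rect` with the finite sets `PM`, `PN` of the `m`, `n` in the block (all good,
`y < nr`): `‖BB …‖ ≤ C M N y^(-δ) (1 + log (M N))^A`, so the block contributes `≤ 4 C y^(-δ) (1 + log (M N))^A`, where `M, N ≤ 2 V`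
may be assumed (other blocks are empty), `1 + log (M N) ≤ 4 (log z)² + 4 ≤ 8 (log z)²`. The number of blocks is
`≤ (C (log z)²)²`. Total `≤ C' (log z)^(2 A + 4) y^(-δ)`.
-/

set_option autoImplicit false

open scoped NumberField
open IsDedekindDomain
open scoped Classical

noncomputable section

namespace H83.LW

open H63.MA H38.BB

variable {K : Type} [Field K] [NumberField K] {p : ℕ} {ζ : K}

private theorem blog_log {z : ℝ} (hz : 3 ≤ z) : 1 ≤ Real.log z := by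
  rw [Real.le_log_iff_exp_le (by linarith)]
  linarith [Real.exp_one_lt_d9]

private theorem blog_full (D : RD0 K p ζ) : ∃ C : ℝ, 1 ≤ C ∧ ∀ z : ℝ, 3 ≤ z →
    ∀ Z : Finset (Pl K), Z ⊆ gdY D z → Real.exp (Li Z) ≤ C * Real.log z := by
  obtain ⟨C, hC, h⟩ := lg_up D
  refine ⟨Real.exp C, Real.one_le_exp hC.le, fun z hz Z hZ => ?_⟩
  have h0 : 0 < Real.log z := lt_of_lt_of_le one_pos (blog_log hz)
  have h1 := (Li_mono hZ).trans (h z hz)
  calc Real.exp (Li Z) ≤ Real.exp (Real.log (Real.log z) + C) := Real.exp_le_exp.2 h1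
    _ = Real.exp C * Real.log z := by rw [Real.exp_add, Real.exp_log h0, mul_comm]

private theorem blog_nm0 (v : Pl K) : (0 : ℝ) < nm v := by
  have := one_lt_nm v
  exact_mod_cast (by omega : 0 < nm v)

private theorem blog_nr0 (n : Finset (Pl K)) : 0 < nr n := lt_of_lt_of_le one_pos (one_le_nr n)

private theorem blog_tail {z : ℝ} (hz : 3 ≤ z) (Z : Finset (Pl K))
    (hZ : ∀ v ∈ Z, (nm v : ℝ) ≤ z) :
    ∑ n ∈ Z.powerset.filter (fun n => Real.exp (Real.log z ^ 2) < nr n), 1 / nr n ≤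
      1 / z * Real.exp (Li Z) ^ 3 := by
  have h1 := blog_log hz
  have h0 : 0 < Real.log z := by linarith
  obtain ⟨σ, hσ⟩ : ∃ σ : ℝ, σ = 1 / Real.log z := ⟨_, rfl⟩
  have hσ0 : 0 < σ := by rw [hσ]; positivity
  have hσH : σ * Real.log z = 1 := by rw [hσ]; field_simp
  have hprod : ∀ n : Finset (Pl K), ∏ v ∈ n, Real.exp (σ * Real.log (nm v)) / (nm v : ℝ) =
      Real.exp (σ * Real.log (nr n)) / nr n := by
    intro n
    have h2 : Real.log (nr n) = ∑ v ∈ n, Real.log (nm v) := by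
      unfold nr
      exact Real.log_prod fun v _ => (blog_nm0 v).ne'
    rw [Finset.prod_div_distrib, ← Real.exp_sum, ← Finset.mul_sum, h2]
    rfl
  have h2 : ∀ n ∈ Z.powerset.filter (fun n => Real.exp (Real.log z ^ 2) < nr n),
      1 / nr n ≤ 1 / z * ∏ v ∈ n, Real.exp (σ * Real.log (nm v)) / (nm v : ℝ) := by
    intro n hn
    rw [Finset.mem_filter] at hn
    have hn0 := blog_nr0 n
    rw [hprod]
    have h3 : Real.log z ^ 2 ≤ Real.log (nr n) := ((Real.lt_log_iff_exp_lt hn0).2 hn.2).le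
    have h4 : Real.log z ≤ σ * Real.log (nr n) := by
      calc Real.log z = σ * Real.log z ^ 2 := by rw [pow_two, ← mul_assoc, hσH, one_mul]
        _ ≤ _ := mul_le_mul_of_nonneg_left h3 hσ0.le
    have h5 : z ≤ Real.exp (σ * Real.log (nr n)) := by
      rw [← Real.log_le_iff_le_exp (by linarith)]
      exact h4
    rw [← mul_div_assoc, div_le_div_iff_of_pos_right hn0, one_div, inv_mul_eq_div,
      le_div_iff₀ (by linarith)]
    linarith
  refine (Finset.sum_le_sum h2).trans ?_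
  rw [← Finset.mul_sum]
  refine mul_le_mul_of_nonneg_left ?_ (by positivity)
  have hpos : ∀ v : Pl K, 0 ≤ Real.exp (σ * Real.log (nm v)) / (nm v : ℝ) := fun v => by
    positivity
  have h6 : ∑ n ∈ Z.powerset.filter (fun n => Real.exp (Real.log z ^ 2) < nr n),
      ∏ v ∈ n, Real.exp (σ * Real.log (nm v)) / (nm v : ℝ) ≤
      ∑ n ∈ Z.powerset, ∏ v ∈ n, Real.exp (σ * Real.log (nm v)) / (nm v : ℝ) :=
    Finset.sum_le_sum_of_subset_of_nonneg (Finset.filter_subset _ _)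
      fun n _ _ => Finset.prod_nonneg fun v _ => hpos v
  refine h6.trans ?_
  rw [← Finset.prod_one_add]
  have h7 : ∏ v ∈ Z, (1 + Real.exp (σ * Real.log (nm v)) / (nm v : ℝ)) ≤
      ∏ v ∈ Z, Real.exp (3 * (1 / (nm v : ℝ))) := by
    refine Finset.prod_le_prod (fun v _ => add_nonneg zero_le_one (hpos v)) fun v hv => ?_
    have h8 : σ * Real.log (nm v) ≤ 1 := by
      rw [← hσH]
      exact mul_le_mul_of_nonneg_left (Real.log_le_log (blog_nm0 v) (hZ v hv)) hσ0.le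
    have h9 : Real.exp (σ * Real.log (nm v)) ≤ 3 :=
      (Real.exp_le_exp.2 h8).trans (by linarith [Real.exp_one_lt_d9])
    have h10 : Real.exp (σ * Real.log (nm v)) / (nm v : ℝ) ≤ 3 * (1 / (nm v : ℝ)) := by
      rw [mul_one_div]
      exact div_le_div_of_nonneg_right h9 (blog_nm0 v).le
    have := Real.add_one_le_exp (3 * (1 / (nm v : ℝ)))
    linarith
  refine h7.trans (le_of_eq ?_)
  rw [← Real.exp_sum, ← Finset.mul_sum, ← Real.exp_nat_mul]
  unfold Li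
  push_cast
  rfl

private theorem blog_two (T : Finset (Pl K) → Finset (Pl K) → ℂ)
    (hT : ∀ m n, ‖T m n‖ ≤ 1 / nr m * (1 / nr n)) (A B : Finset (Finset (Pl K))) :
    ‖∑ m ∈ A, ∑ n ∈ B, T m n‖ ≤ (∑ m ∈ A, 1 / nr m) * ∑ n ∈ B, 1 / nr n := by
  rw [Finset.sum_mul_sum]
  exact (norm_sum_le _ _).trans (Finset.sum_le_sum fun m _ => (norm_sum_le _ _).trans
    (Finset.sum_le_sum fun n _ => hT m n))

private theorem blog_sc (α : Finset (Pl K) → ℂ) (hα : ∀ n, ‖α n‖ ≤ 1) (M : ℝ) (hM : 0 < M)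
    (n : Finset (Pl K)) :
    ‖(if M < nr n then ((M / nr n : ℝ) : ℂ) * α n else 0)‖ ≤ 1 := by
  split_ifs with h
  · rw [norm_mul, Complex.norm_real, Real.norm_of_nonneg (div_nonneg hM.le (blog_nr0 n).le)]
    refine mul_le_one₀ ?_ (norm_nonneg _) (hα n)
    rw [div_le_one (blog_nr0 n)]
    exact h.le
  · rw [norm_zero]
    exact zero_le_one

private theorem blog_block (hp : p.Prime) (hζ : IsPrimitiveRoot ζ p) (D : RD K p ζ) :
    ∃ C A δ : ℝ, 0 < C ∧ 0 ≤ A ∧ 0 < δ ∧ ∀ (e : ZMod p), e ≠ 0 →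
      ∀ (α β : Finset (Pl K) → ℂ), (∀ n, ‖α n‖ ≤ 1) → (∀ n, ‖β n‖ ≤ 1) →
        ∀ M N y W : ℝ, 1 ≤ y → y ≤ M → y ≤ N → 1 ≤ W → ∀ PM PN : Finset (Finset (Pl K)),
        (∀ m ∈ PM, (∀ v ∈ m, D.Gd v) ∧ M < nr m ∧ nr m ≤ 2 * M ∧ nr m ≤ W) →
        (∀ m ∈ PN, (∀ v ∈ m, D.Gd v) ∧ N < nr m ∧ nr m ≤ 2 * N ∧ nr m ≤ W) →
        ‖∑ m ∈ PM, ∑ n ∈ PN, if Disjoint m n then ((1 / (nr m * nr n) : ℝ) : ℂ) *
            (α m * β n * ep p (e * Lf D.toRD0 m (pf D.toRD0 n))) else 0‖ ≤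
          C * y ^ (-δ) * (1 + 2 * Real.log W) ^ A := by
  obtain ⟨C, A, δ, hC, hA, hδ, -, hb⟩ := bil_block hp hζ D
  refine ⟨C, A, δ, hC, hA, hδ, fun e he α β hα hβ M N y W hy hM hN hW PM PN hPM hPN => ?_⟩
  have hM0 : 0 < M := by linarith
  have hN0 : 0 < N := by linarith
  have hlW : 0 ≤ Real.log W := Real.log_nonneg hW
  have hR0 : 0 ≤ C * y ^ (-δ) * (1 + 2 * Real.log W) ^ A := by
    have := Real.rpow_nonneg (show 0 ≤ y by linarith) (-δ)
    positivity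
  rcases Finset.eq_empty_or_nonempty PM with hPMe | ⟨m0, hm0⟩
  · rw [hPMe, Finset.sum_empty, norm_zero]
    exact hR0
  rcases Finset.eq_empty_or_nonempty PN with hPNe | ⟨n0, hn0⟩
  · rw [hPNe]
    simp only [Finset.sum_empty, Finset.sum_const_zero, norm_zero]
    exact hR0
  have hMW : M ≤ W := (hPM m0 hm0).2.1.le.trans (hPM m0 hm0).2.2.2
  have hNW : N ≤ W := (hPN n0 hn0).2.1.le.trans (hPN n0 hn0).2.2.2
  have h1 := hb e he (fun m => if M < nr m then ((M / nr m : ℝ) : ℂ) * α m else 0)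
    (fun n => if N < nr n then ((N / nr n : ℝ) : ℂ) * β n else 0) (blog_sc α hα M hM0)
    (blog_sc β hβ N hN0) M N y hy hM hN PM PN
    (fun m hm => ⟨(hPM m hm).1, (hPM m hm).2.1, (hPM m hm).2.2.1⟩)
    (fun m hm => ⟨(hPN m hm).1, (hPN m hm).2.1, (hPN m hm).2.2.1⟩)
  have h2 : (∑ m ∈ PM, ∑ n ∈ PN, if Disjoint m n then ((1 / (nr m * nr n) : ℝ) : ℂ) *
            (α m * β n * ep p (e * Lf D.toRD0 m (pf D.toRD0 n))) else 0) =
      ((1 / (M * N) : ℝ) : ℂ) * BB D.toRD0 e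
        (fun m => if M < nr m then ((M / nr m : ℝ) : ℂ) * α m else 0)
        (fun n => if N < nr n then ((N / nr n : ℝ) : ℂ) * β n else 0) PM PN := by
    unfold BB
    rw [Finset.mul_sum]
    refine Finset.sum_congr rfl fun m hm => ?_
    rw [Finset.mul_sum]
    refine Finset.sum_congr rfl fun n hn => ?_
    beta_reduce
    rw [if_pos (hPM m hm).2.1, if_pos (hPN n hn).2.1]
    by_cases h : Disjoint m n
    · rw [if_pos h, if_pos h]
      have h3 : ((1 / (nr m * nr n) : ℝ) : ℂ) =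
          ((1 / (M * N) : ℝ) : ℂ) * ((M / nr m : ℝ) : ℂ) * ((N / nr n : ℝ) : ℂ) := by
        rw [← Complex.ofReal_mul, ← Complex.ofReal_mul]
        congr 1
        have := blog_nr0 m
        have := blog_nr0 n
        field_simp
      rw [h3]
      ring
    · rw [if_neg h, if_neg h, mul_zero]
  rw [h2, norm_mul, Complex.norm_real, Real.norm_of_nonneg (by positivity)]
  have h3 : Real.log (M * N) ≤ 2 * Real.log W := by
    rw [Real.log_mul hM0.ne' hN0.ne']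
    have := Real.log_le_log hM0 hMW
    have := Real.log_le_log hN0 hNW
    linarith
  have h4 : 0 ≤ Real.log (M * N) := Real.log_nonneg (by nlinarith)
  have h5 : (1 + Real.log (M * N)) ^ A ≤ (1 + 2 * Real.log W) ^ A :=
    Real.rpow_le_rpow (by linarith) (by linarith) hA
  have h6 : 0 ≤ y ^ (-δ) := Real.rpow_nonneg (by linarith) _
  calc 1 / (M * N) * ‖BB D.toRD0 e
        (fun m => if M < nr m then ((M / nr m : ℝ) : ℂ) * α m else 0)
        (fun n => if N < nr n then ((N / nr n : ℝ) : ℂ) * β n else 0) PM PN‖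
      ≤ 1 / (M * N) * (C * M * N * y ^ (-δ) * (1 + Real.log (M * N)) ^ A) :=
        mul_le_mul_of_nonneg_left h1 (by positivity)
    _ = C * y ^ (-δ) * (1 + Real.log (M * N)) ^ A := by
        field_simp
    _ ≤ _ := mul_le_mul_of_nonneg_left h5 (by positivity)

theorem blog (hp : p.Prime) (hζ : IsPrimitiveRoot ζ p) (D : RD K p ζ) :
    ∃ C A δ : ℝ, 0 < C ∧ 0 ≤ A ∧ 0 < δ ∧ ∀ (e : ZMod p), e ≠ 0 →
      ∀ (α β : Finset (Pl K) → ℂ), (∀ n, ‖α n‖ ≤ 1) → (∀ n, ‖β n‖ ≤ 1) →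
        ∀ y z : ℝ, 1 ≤ y → 3 ≤ z → ∀ Z : Finset (Pl K), Z ⊆ gdY D.toRD0 z →
        ‖∑ m ∈ Z.powerset.filter (fun m => y < nr m), ∑ n ∈ Z.powerset.filter (fun n => y < nr n),
          if Disjoint m n then ((1 / (nr m * nr n) : ℝ) : ℂ) *
            (α m * β n * ep p (e * Lf D.toRD0 m (pf D.toRD0 n))) else 0‖ ≤
          C * Real.log z ^ A * (y ^ (-δ) + 1 / z) := by
  obtain ⟨C, A, δ, hC, hA, hδ, hb⟩ := blog_block hp hζ D
  obtain ⟨C₁, hC₁, hf⟩ := blog_full D.toRD0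
  refine ⟨16 * C * 3 ^ A + 2 * C₁ ^ 4, 2 * A + 4, δ, by positivity, by linarith, hδ,
    fun e he α β hα hβ y z hy hz Z hZ => ?_⟩
  have h1 := blog_log hz
  have htail := blog_tail hz Z fun v hv => (chr_mem.1 (hZ hv)).1
  have hfull := (sm_full Z).trans (hf z hz Z hZ)
  have hexp := hf z hz Z hZ
  obtain ⟨H, hH⟩ : ∃ H, H = Real.log z := ⟨_, rfl⟩
  rw [← hH] at h1 htail hfull hexp ⊢
  have h0 : 0 < H := by linarith
  have hz0 : 0 < z := by linarith
  obtain ⟨V, hV⟩ : ∃ V, V = Real.exp (H ^ 2) := ⟨_, rfl⟩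
  rw [← hV] at htail
  have hV1 : 1 ≤ V := by rw [hV]; exact Real.one_le_exp (by positivity)
  have hlV : Real.log V = H ^ 2 := by rw [hV, Real.log_exp]
  obtain ⟨T, hT⟩ : ∃ T : Finset (Pl K) → Finset (Pl K) → ℂ, T = fun m n =>
      if Disjoint m n then ((1 / (nr m * nr n) : ℝ) : ℂ) *
        (α m * β n * ep p (e * Lf D.toRD0 m (pf D.toRD0 n))) else 0 := ⟨_, rfl⟩
  obtain ⟨P, hP⟩ : ∃ P, P = Z.powerset.filter (fun m => y < nr m) := ⟨_, rfl⟩
  have hgoal : (∑ m ∈ Z.powerset.filter (fun m => y < nr m),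
      ∑ n ∈ Z.powerset.filter (fun n => y < nr n),
          if Disjoint m n then ((1 / (nr m * nr n) : ℝ) : ℂ) *
            (α m * β n * ep p (e * Lf D.toRD0 m (pf D.toRD0 n))) else 0) =
      ∑ m ∈ P, ∑ n ∈ P, T m n := by
    rw [hT, hP]
  rw [hgoal]
  have hT1 : ∀ m n, ‖T m n‖ ≤ 1 / nr m * (1 / nr n) := by
    intro m n
    have hm0 := blog_nr0 m
    have hn0 := blog_nr0 n
    rw [hT]
    dsimp only
    split_ifs
    · rw [norm_mul, Complex.norm_real, Real.norm_of_nonneg (by positivity), norm_mul, norm_mul,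
        ep_norm, mul_one, one_div_mul_one_div]
      exact mul_le_of_le_one_right (by positivity) (mul_le_one₀ (hα m) (norm_nonneg _) (hβ n))
    · rw [norm_zero]
      positivity
  have hnn : ∀ n : Finset (Pl K), 0 ≤ 1 / nr n := fun n => by
    have := blog_nr0 n
    positivity
  obtain ⟨P1, hP1⟩ : ∃ P1, P1 = P.filter (fun m => nr m ≤ V) := ⟨_, rfl⟩
  obtain ⟨P2, hP2⟩ : ∃ P2, P2 = P.filter (fun m => ¬ nr m ≤ V) := ⟨_, rfl⟩
  have hsplit : ∀ f : Finset (Pl K) → ℂ, ∑ m ∈ P, f m = ∑ m ∈ P1, f m + ∑ m ∈ P2, f m := by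
    intro f
    rw [hP1, hP2]
    exact (Finset.sum_filter_add_sum_filter_not P (fun m => nr m ≤ V) f).symm
  have hSP : ∑ n ∈ P, 1 / nr n ≤ C₁ * H := by
    refine le_trans ?_ hfull
    rw [hP]
    exact Finset.sum_le_sum_of_subset_of_nonneg (Finset.filter_subset _ _) fun n _ _ => hnn n
  have hSP1 : ∑ n ∈ P1, 1 / nr n ≤ C₁ * H := by
    refine le_trans ?_ hSP
    rw [hP1]
    exact Finset.sum_le_sum_of_subset_of_nonneg (Finset.filter_subset _ _) fun n _ _ => hnn n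
  have hSP2 : ∑ n ∈ P2, 1 / nr n ≤ 1 / z * (C₁ * H) ^ 3 := by
    refine le_trans ?_ (htail.trans (mul_le_mul_of_nonneg_left
      (pow_le_pow_left₀ (Real.exp_pos _).le hexp 3) (by positivity)))
    refine Finset.sum_le_sum_of_subset_of_nonneg (fun n hn => ?_) fun n _ _ => hnn n
    rw [hP2, Finset.mem_filter, hP, Finset.mem_filter] at hn
    rw [Finset.mem_filter]
    exact ⟨hn.1.1, not_le.1 hn.2⟩
  have hS0 : ∀ Q : Finset (Finset (Pl K)), 0 ≤ ∑ n ∈ Q, 1 / nr n := fun Q =>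
    Finset.sum_nonneg fun n _ => hnn n
  have hC1H : 0 ≤ C₁ * H := by positivity
  have e12 : ‖∑ m ∈ P1, ∑ n ∈ P2, T m n‖ ≤ C₁ ^ 4 * H ^ 4 * (1 / z) := by
    refine (blog_two T hT1 P1 P2).trans ((mul_le_mul hSP1 hSP2 (hS0 _) hC1H).trans
      (le_of_eq ?_))
    ring
  have e2 : ‖∑ m ∈ P2, ∑ n ∈ P, T m n‖ ≤ C₁ ^ 4 * H ^ 4 * (1 / z) := by
    refine (blog_two T hT1 P2 P).trans ((mul_le_mul hSP2 hSP (hS0 _) (by positivity)).trans
      (le_of_eq ?_))
    ring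
  have hA1 : (3 : ℝ) ^ A * H ^ (2 * A) = (3 * H ^ 2) ^ A := by
    rw [Real.mul_rpow (by norm_num) (by positivity), ← Real.rpow_natCast H 2,
      ← Real.rpow_mul h0.le]
    norm_num
  have hyd : 0 ≤ y ^ (-δ) := Real.rpow_nonneg (by linarith) _
  -- the main part
  have e11 : ‖∑ m ∈ P1, ∑ n ∈ P1, T m n‖ ≤ 16 * C * 3 ^ A * H ^ (2 * A + 4) * y ^ (-δ) := by
    obtain ⟨L, hL1, hL2⟩ := dy_L hV1 zero_lt_one le_rfl
    rw [div_one, hlV] at hL1
    rw [one_add_one_eq_two] at hL2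
    have hP1m : ∀ m ∈ P1, (∀ v ∈ m, D.Gd v) ∧ y < nr m ∧ nr m ≤ V := by
      intro m hm
      rw [hP1, Finset.mem_filter, hP, Finset.mem_filter, Finset.mem_powerset] at hm
      exact ⟨fun v hv => (chr_mem.1 (hZ (hm.1.1 hv))).2, hm.1.2, hm.2⟩
    have hP1r : ∀ m ∈ P1, y < nr m ∧ nr m ≤ y * 2 ^ L := by
      intro m hm
      refine ⟨(hP1m m hm).2.1, (hP1m m hm).2.2.trans (hL2.trans ?_)⟩
      exact le_mul_of_one_le_left (by positivity) hy
    obtain ⟨Q, hQ⟩ : ∃ Q : ℕ → Finset (Finset (Pl K)), Q = fun i =>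
        P1.filter (fun m => y * 2 ^ i < nr m ∧ nr m ≤ y * 2 ^ (i + 1)) := ⟨_, rfl⟩
    have hdy : ∀ f : Finset (Pl K) → ℂ, ∑ m ∈ P1, f m = ∑ i ∈ Finset.range L, ∑ m ∈ Q i, f m := by
      intro f
      rw [hQ]
      exact dy_sum P1 nr f (by linarith) (by norm_num) L hP1r
    have hrw : ∑ m ∈ P1, ∑ n ∈ P1, T m n =
        ∑ i ∈ Finset.range L, ∑ j ∈ Finset.range L, ∑ m ∈ Q i, ∑ n ∈ Q j, T m n := by
      rw [hdy]
      refine Finset.sum_congr rfl fun i _ => ?_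
      rw [Finset.sum_comm (s := Finset.range L) (t := Q i)]
      exact Finset.sum_congr rfl fun m _ => hdy _
    have hQm : ∀ i, ∀ m ∈ Q i, (∀ v ∈ m, D.Gd v) ∧ y * 2 ^ i < nr m ∧
        nr m ≤ 2 * (y * 2 ^ i) ∧ nr m ≤ V := by
      intro i m hm
      rw [hQ] at hm
      have hm' := Finset.mem_filter.1 hm
      have h2 := hP1m m hm'.1
      refine ⟨h2.1, hm'.2.1, hm'.2.2.trans (le_of_eq ?_), h2.2.2⟩
      rw [pow_succ]
      ring
    have hyi : ∀ i : ℕ, y ≤ y * 2 ^ i := fun i =>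
      le_mul_of_one_le_right (by linarith) (one_le_pow₀ (by norm_num))
    have hblk : ∀ i j : ℕ, ‖∑ m ∈ Q i, ∑ n ∈ Q j, T m n‖ ≤ C * y ^ (-δ) * (3 * H ^ 2) ^ A := by
      intro i j
      have h2 := hb e he α β hα hβ (y * 2 ^ i) (y * 2 ^ j) y V hy (hyi i) (hyi j) hV1 (Q i) (Q j)
        (hQm i) (hQm j)
      rw [hT]
      refine h2.trans ?_
      rw [hlV]
      refine mul_le_mul_of_nonneg_left ?_ (by positivity)
      refine Real.rpow_le_rpow (by positivity) ?_ hA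
      nlinarith
    have hLL : (L : ℝ) ≤ 4 * H ^ 2 := by
      refine hL1.trans ?_
      nlinarith
    have hX0 : 0 ≤ C * y ^ (-δ) * (3 * H ^ 2) ^ A := by positivity
    rw [hrw]
    calc ‖∑ i ∈ Finset.range L, ∑ j ∈ Finset.range L, ∑ m ∈ Q i, ∑ n ∈ Q j, T m n‖
        ≤ ∑ i ∈ Finset.range L, ∑ j ∈ Finset.range L, C * y ^ (-δ) * (3 * H ^ 2) ^ A :=
          (norm_sum_le _ _).trans (Finset.sum_le_sum fun i _ => (norm_sum_le _ _).trans
            (Finset.sum_le_sum fun j _ => hblk i j))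
      _ = (L : ℝ) * L * (C * y ^ (-δ) * (3 * H ^ 2) ^ A) := by
          rw [Finset.sum_const, Finset.sum_const, Finset.card_range, nsmul_eq_mul, nsmul_eq_mul]
          ring
      _ ≤ (4 * H ^ 2) * (4 * H ^ 2) * (C * y ^ (-δ) * (3 * H ^ 2) ^ A) :=
          mul_le_mul_of_nonneg_right (mul_le_mul hLL hLL (Nat.cast_nonneg _) (by positivity)) hX0
      _ = 16 * C * 3 ^ A * H ^ (2 * A + 4) * y ^ (-δ) := by
          rw [← hA1, Real.rpow_add h0, show (4 : ℝ) = ((4 : ℕ) : ℝ) by norm_num, Real.rpow_natCast]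
          push_cast
          ring
  have hH4 : H ^ 4 ≤ H ^ (2 * A + 4) := by
    rw [← Real.rpow_natCast H 4]
    exact Real.rpow_le_rpow_of_exponent_le h1 (by push_cast; linarith)
  have hHA : 0 ≤ H ^ (2 * A + 4) := Real.rpow_nonneg h0.le _
  have e3 : C₁ ^ 4 * H ^ 4 * (1 / z) ≤ C₁ ^ 4 * H ^ (2 * A + 4) * (1 / z) :=
    mul_le_mul_of_nonneg_right (mul_le_mul_of_nonneg_left hH4 (by positivity)) (by positivity)
  have hsum : ∑ m ∈ P, ∑ n ∈ P, T m n = ∑ m ∈ P1, ∑ n ∈ P1, T m n +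
      ∑ m ∈ P1, ∑ n ∈ P2, T m n + ∑ m ∈ P2, ∑ n ∈ P, T m n := by
    rw [hsplit, ← Finset.sum_add_distrib]
    congr 1
    exact Finset.sum_congr rfl fun m _ => hsplit _
  rw [hsum]
  refine (norm_add₃_le).trans ?_
  have h3 : 0 ≤ 1 / z := by positivity
  have e4 : 0 ≤ 16 * C * 3 ^ A * H ^ (2 * A + 4) * (1 / z) := by positivity
  have e5 : 0 ≤ 2 * C₁ ^ 4 * H ^ (2 * A + 4) * y ^ (-δ) := by positivity
  have e6 : (16 * C * 3 ^ A + 2 * C₁ ^ 4) * H ^ (2 * A + 4) * (y ^ (-δ) + 1 / z) =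
      16 * C * 3 ^ A * H ^ (2 * A + 4) * y ^ (-δ) + 16 * C * 3 ^ A * H ^ (2 * A + 4) * (1 / z) +
        2 * C₁ ^ 4 * H ^ (2 * A + 4) * y ^ (-δ) + 2 * (C₁ ^ 4 * H ^ (2 * A + 4) * (1 / z)) := by
    ring
  rw [e6]
  linarith

end H83.LW
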