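import Pool.Agent.H83.LW.UPD
import Pool.Agent.H83.LW.BLOG

/-!
# [H83 LW BLKA] two linked large variables (120-180 lines)

`b` supported on `S0`: `BSup D b ∅`. Choose `a, a' ∈ S` with `lk a a' ≠ 0`; `a ≠ a'` (`lk a a = 2 dt (θ a) (x a) = 0` by `self`).
`upd2` (with `x₀ = ∅`): fix the other components `g`, sum over `m = g a`, `n = g a'`, `m, n ∈ Z.powerset`, `Z = ZY D 𝒦 w z ⊆ gdY D z`.
Let `g' = update (update g a m) a' n`. `Dj g'` iff: the `g l`, `l ≠ a, a'`, are pairwise disjoint, `m` and `n` are disjoint from all of
them, and `Disjoint m n`. `Lgs y g' = S` iff `y < nr m`, `y < nr n`, and for `l ≠ a, a'`: `y < nr (g l) ↔ l ∈ S`.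
`wg g' = (∏_{l ≠ a, a'} 1 / nr (g l)) (1 / (nr m nr n))`.
Phase: `ph_two` (`MA/APh`; `b` with `BSup D b ∅`, `E = ∅`) gives functions `c₁, c₂` and the bilinear term: for admissible `g'`
`ph g' = c₁ m + c₂ n + lk a a' * Lf m (pf n) + (θ_{a'} · x_a) * ∑ i, ∑ j, eta i j * (qf n) i * (qf m) j` (in whatever precise form it is
stated there), and `phc` adds `dt (κ a) (qf m) + dt (κ a') (qf n) +` a constant. Split the sum over `m` according to the class
`c = qf m` (`p^r` values): for fixed `c` the term is
`α_c m * β_c n * ep(lk a a' * Lf m (pf n))` with `α_c m = [qf m = c] [m disjoint from the g l] ep(c₁ m + dt (κ a) c)`,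
`β_c n = [n disjoint from the g l] ep(c₂ n + dt (κ a') (qf n) + (bilinear form of (qf n, c)) + const)`: absolute values `≤ 1`. `blog`
(`e = lk a a'`) bounds the double sum by `C (log z)^A (y^(-δ) + 1/z)`; `p^r` classes. The sum over the other components: bounded by
`∏_{l ≠ a, a'} ∑_{n ⊆ Z} 1 / nr n ≤ exp(LY)^{#J} ≤ (C log z)^{#J}` (`upd_prod`, `sm_full`, `sm_up`).
(The final exponent is `A + #J`.)
-/

set_option autoImplicit false

open scoped NumberField
open IsDedekindDomain
open scoped Classical

noncomputable section

namespace H83.LW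

open H63.MA H38.BB

variable {K : Type} [Field K] [NumberField K] {p : ℕ} {ζ : K} {m : ℕ} {J : Type} [Fintype J]

private theorem bka_nr0 (n : Finset (Pl K)) : 0 < nr n := lt_of_lt_of_le one_pos (one_le_nr n)

private theorem bka_nr_empty : nr (∅ : Finset (Pl K)) = 1 := by
  unfold nr
  exact Finset.prod_empty

private theorem bka_log {z : ℝ} (hz : 3 ≤ z) : 1 ≤ Real.log z := by
  rw [Real.le_log_iff_exp_le (by linarith)]
  linarith [Real.exp_one_lt_d9]

private theorem bka_wg0 (g : J → Finset (Pl K)) : 0 ≤ wg g :=
  Finset.prod_nonneg fun a _ => one_div_nonneg.2 (bka_nr0 (g a)).le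

private theorem bka_wg_upd (g : J → Finset (Pl K)) (a : J) (ha : g a = ∅) (n : Finset (Pl K)) :
    wg (Function.update g a n) = 1 / nr n * wg g := by
  unfold wg
  rw [← Finset.mul_prod_erase Finset.univ (fun l => 1 / nr (Function.update g a n l))
    (Finset.mem_univ a), ← Finset.mul_prod_erase Finset.univ (fun l => 1 / nr (g l))
    (Finset.mem_univ a)]
  have h1 : ∀ l ∈ Finset.univ.erase a, 1 / nr (Function.update g a n l) = 1 / nr (g l) :=
    fun l hl => by rw [Function.update_of_ne (Finset.ne_of_mem_erase hl)]
  rw [Finset.prod_congr rfl h1, Function.update_self, ha, bka_nr_empty]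
  ring

private theorem bka_dj (g : J → Finset (Pl K)) (a a' : J) (haa : a ≠ a') (ha : g a = ∅)
    (ha' : g a' = ∅) (hg : Dj g) (m n : Finset (Pl K)) :
    Dj (Function.update (Function.update g a m) a' n) ↔
      Disjoint m (Finset.univ.biUnion g) ∧ Disjoint n (Finset.univ.biUnion g) ∧
        Disjoint m n := by
  rw [Finset.disjoint_biUnion_right, Finset.disjoint_biUnion_right]
  have e1 : Function.update (Function.update g a m) a' n a = m := by
    rw [Function.update_of_ne haa, Function.update_self]
  have e2 : Function.update (Function.update g a m) a' n a' = n := Function.update_self _ _ _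
  have e3 : ∀ l, l ≠ a → l ≠ a' → Function.update (Function.update g a m) a' n l = g l :=
    fun l hl hl' => by rw [Function.update_of_ne hl', Function.update_of_ne hl]
  constructor
  · intro h
    refine ⟨fun l _ => ?_, fun l _ => ?_, ?_⟩
    · by_cases hl : l = a
      · rw [hl, ha]
        exact Finset.disjoint_empty_right _
      · by_cases hl' : l = a'
        · rw [hl', ha']
          exact Finset.disjoint_empty_right _
        · have := h a l (fun h => hl h.symm)
          rwa [e1, e3 l hl hl'] at this
    · by_cases hl : l = a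
      · rw [hl, ha]
        exact Finset.disjoint_empty_right _
      · by_cases hl' : l = a'
        · rw [hl', ha']
          exact Finset.disjoint_empty_right _
        · have := h a' l (fun h => hl' h.symm)
          rwa [e2, e3 l hl hl'] at this
    · have := h a a' haa
      rwa [e1, e2] at this
  · rintro ⟨h1, h2, h3⟩ l l' hll
    by_cases hl : l = a
    · by_cases hl' : l' = a'
      · rw [hl, hl', e1, e2]
        exact h3
      · have hla : l' ≠ a := fun h => hll (hl.trans h.symm)
        rw [hl, e1, e3 l' hla hl']
        exact h1 l' (Finset.mem_univ _)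
    · by_cases hlb : l = a'
      · by_cases hl' : l' = a
        · rw [hlb, hl', e1, e2]
          exact h3.symm
        · have hla : l' ≠ a' := fun h => hll (hlb.trans h.symm)
          rw [hlb, e2, e3 l' hl' hla]
          exact h2 l' (Finset.mem_univ _)
      · rw [e3 l hl hlb]
        by_cases hl' : l' = a
        · rw [hl', e1]
          exact (h1 l (Finset.mem_univ _)).symm
        · by_cases hl'b : l' = a'
          · rw [hl'b, e2]
            exact (h2 l (Finset.mem_univ _)).symm
          · rw [e3 l' hl' hl'b]
            exact hg l l' hll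

/-- the sum over two variables, the others being fixed -/
private theorem bka_inner (hp : p.Prime) (hζ : IsPrimitiveRoot ζ p) (D : RD K p ζ) (P : PD p m J) :
    ∃ C A δ : ℝ, 0 < C ∧ 0 ≤ A ∧ 0 < δ ∧
      ∀ (Z : Finset (Pl K)) (y z : ℝ), 3 ≤ y → 3 ≤ z → Z ⊆ gdY D.toRD0 z →
      ∀ (b : Fin m → Kˣ) (κ : J → Fin D.r → ZMod p) (a a' : J), a ≠ a' → P.lk a a' ≠ 0 →
      ∀ (g : J → Finset (Pl K)), g a = ∅ → g a' = ∅ → (∀ l, g l ⊆ Z) → Dj g →
        ‖∑ m ∈ Z.powerset, ∑ n ∈ Z.powerset,
          if Dj (Function.update (Function.update g a m) a' n) ∧ (y < nr m ∧ y < nr n) then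
            ((wg (Function.update (Function.update g a m) a' n) : ℝ) : ℂ) *
              ep p (phc D.toRD0 P b κ (Function.update (Function.update g a m) a' n)) else 0‖ ≤
          wg g * (C * Real.log z ^ A * (y ^ (-δ) + 1 / z)) := by
  have : NeZero p := ⟨hp.ne_zero⟩
  obtain ⟨C, A, δ, hC, hA, hδ, h⟩ := blog hp hζ D
  refine ⟨(Fintype.card (Fin D.r → ZMod p) : ℝ) * C, A, δ, ?_, hA, hδ,
    fun Z y z hy hz hZ b κ a a' haa hlk g hga hga' hgZ hgD => ?_⟩
  · have : (0 : ℝ) < Fintype.card (Fin D.r → ZMod p) := by exact_mod_cast Fintype.card_pos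
    positivity
  obtain ⟨c₁, c₂, hph⟩ := ph_two hp hζ D P b g a a' haa
  obtain ⟨Fs, hFs⟩ : ∃ Fs, Fs = Finset.univ.biUnion g := ⟨_, rfl⟩
  obtain ⟨R, hR⟩ : ∃ R : ZMod p, R = ∑ l ∈ (Finset.univ.erase a).erase a',
    dt (κ l) (qf D.toRD0 (g l)) := ⟨_, rfl⟩
  obtain ⟨α, hα⟩ : ∃ α : (Fin D.r → ZMod p) → Finset (Pl K) → ℂ, α = fun c n =>
    if qf D.toRD0 n = c ∧ Disjoint n Fs then ep p (c₁ n + dt (κ a) (qf D.toRD0 n)) else 0 :=
    ⟨_, rfl⟩
  obtain ⟨β, hβ⟩ : ∃ β : (Fin D.r → ZMod p) → Finset (Pl K) → ℂ, β = fun c n =>
    if Disjoint n Fs then ep p (c₂ n - dt (P.θ a') (P.x a) *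
      ∑ i, ∑ j, D.eta i j * qf D.toRD0 n i * c j + dt (κ a') (qf D.toRD0 n) + R) else 0 :=
    ⟨_, rfl⟩
  have hα1 : ∀ c n, ‖α c n‖ ≤ 1 := fun c n => by
    rw [hα]
    show ‖if qf D.toRD0 n = c ∧ Disjoint n Fs then
      ep p (c₁ n + dt (κ a) (qf D.toRD0 n)) else 0‖ ≤ 1
    split_ifs
    · exact (ep_norm p _).le
    · rw [norm_zero]
      exact zero_le_one
  have hβ1 : ∀ c n, ‖β c n‖ ≤ 1 := fun c n => by
    rw [hβ]
    show ‖if Disjoint n Fs then ep p (c₂ n - dt (P.θ a') (P.x a) *
      ∑ i, ∑ j, D.eta i j * qf D.toRD0 n i * c j + dt (κ a') (qf D.toRD0 n) + R) else 0‖ ≤ 1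
    split_ifs
    · exact (ep_norm p _).le
    · rw [norm_zero]
      exact zero_le_one
  have hZg : ∀ v ∈ Z, D.Gd v := fun v hv => (chr_mem.1 (hZ hv)).2
  have hkey : ∀ m ∈ Z.powerset, ∀ n ∈ Z.powerset,
      (if Dj (Function.update (Function.update g a m) a' n) ∧ (y < nr m ∧ y < nr n) then
            ((wg (Function.update (Function.update g a m) a' n) : ℝ) : ℂ) *
              ep p (phc D.toRD0 P b κ (Function.update (Function.update g a m) a' n)) else 0) =
        ((wg g : ℝ) : ℂ) * ∑ c : Fin D.r → ZMod p, if y < nr m then (if y < nr n then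
          (if Disjoint m n then ((1 / (nr m * nr n) : ℝ) : ℂ) *
            (α c m * β c n * ep p (P.lk a a' * Lf D.toRD0 m (pf D.toRD0 n))) else 0)
          else 0) else 0 := by
    intro m hm n hn
    rw [Finset.mem_powerset] at hm hn
    by_cases hym : y < nr m
    · by_cases hyn : y < nr n
      · by_cases hmn : Disjoint m n
        · simp only [if_pos hym, if_pos hyn, if_pos hmn]
          by_cases hmF : Disjoint m Fs
          · rw [Finset.sum_eq_single (qf D.toRD0 m)]
            · by_cases hnF : Disjoint n Fs
              · have hDj : Dj (Function.update (Function.update g a m) a' n) := by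
                  rw [bka_dj g a a' haa hga hga' hgD, ← hFs]
                  exact ⟨hmF, hnF, hmn⟩
                have hAdm : Adm D.toRD0 (Function.update (Function.update g a m) a' n) := by
                  refine ⟨fun l v hv => ?_, hDj⟩
                  by_cases hl' : l = a'
                  · subst hl'
                    rw [Function.update_self] at hv
                    exact hZg v (hn hv)
                  · rw [Function.update_of_ne hl'] at hv
                    by_cases hl : l = a
                    · subst hl
                      rw [Function.update_self] at hv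
                      exact hZg v (hm hv)
                    · rw [Function.update_of_ne hl] at hv
                      exact hZg v (hgZ l hv)
                rw [if_pos ⟨hDj, hym, hyn⟩, bka_wg_upd _ a' (by
                  rw [Function.update_of_ne (fun h => haa h.symm)]
                  exact hga') n, bka_wg_upd g a hga m]
                have e1 : α (qf D.toRD0 m) m = ep p (c₁ m + dt (κ a) (qf D.toRD0 m)) := by
                  rw [hα]
                  exact if_pos ⟨rfl, hmF⟩
                have e2 : β (qf D.toRD0 m) n = ep p (c₂ n - dt (P.θ a') (P.x a) *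
                    ∑ i, ∑ j, D.eta i j * qf D.toRD0 n i * qf D.toRD0 m j +
                      dt (κ a') (qf D.toRD0 n) + R) := by
                  rw [hβ]
                  exact if_pos hnF
                have e3 : phc D.toRD0 P b κ (Function.update (Function.update g a m) a' n) =
                    (c₁ m + dt (κ a) (qf D.toRD0 m)) + (c₂ n - dt (P.θ a') (P.x a) *
                    ∑ i, ∑ j, D.eta i j * qf D.toRD0 n i * qf D.toRD0 m j +
                      dt (κ a') (qf D.toRD0 n) + R) +
                      P.lk a a' * Lf D.toRD0 m (pf D.toRD0 n) := by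
                  unfold phc
                  rw [hph m n hAdm, ← Finset.add_sum_erase Finset.univ
                    (fun l => dt (κ l) (qf D.toRD0
                      (Function.update (Function.update g a m) a' n l))) (Finset.mem_univ a),
                    ← Finset.add_sum_erase (Finset.univ.erase a)
                    (fun l => dt (κ l) (qf D.toRD0
                      (Function.update (Function.update g a m) a' n l)))
                    (Finset.mem_erase.2 ⟨fun h => haa h.symm, Finset.mem_univ a'⟩)]
                  have e4 : ∀ l ∈ (Finset.univ.erase a).erase a', dt (κ l) (qf D.toRD0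
                      (Function.update (Function.update g a m) a' n l)) =
                      dt (κ l) (qf D.toRD0 (g l)) := fun l hl => by
                    rw [Function.update_of_ne (Finset.ne_of_mem_erase hl), Function.update_of_ne
                      (Finset.ne_of_mem_erase (Finset.mem_of_mem_erase hl))]
                  rw [Finset.sum_congr rfl e4, Function.update_self, Function.update_of_ne haa,
                    Function.update_self, ← hR]
                  ring
                rw [e1, e2, e3, ep_add hp, ep_add hp]
                push_cast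
                field_simp
              · rw [if_neg, show β (qf D.toRD0 m) n = 0 by rw [hβ]; exact if_neg hnF]
                · ring
                · rintro ⟨hD, -⟩
                  rw [bka_dj g a a' haa hga hga' hgD, ← hFs] at hD
                  exact hnF hD.2.1
            · intro c _ hc
              have e1 : α c m = 0 := by
                rw [hα]
                exact if_neg fun h => hc h.1.symm
              rw [e1]
              ring
            · intro h
              exact absurd (Finset.mem_univ _) h
          · rw [if_neg, Finset.sum_eq_zero, mul_zero]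
            · intro c _
              have e1 : α c m = 0 := by
                rw [hα]
                exact if_neg fun h => hmF h.2
              rw [e1]
              ring
            · rintro ⟨hD, -⟩
              rw [bka_dj g a a' haa hga hga' hgD, ← hFs] at hD
              exact hmF hD.1
        · rw [if_neg, Finset.sum_eq_zero, mul_zero]
          · intro c _
            rw [if_pos hym, if_pos hyn, if_neg hmn]
          · rintro ⟨hD, -⟩
            rw [bka_dj g a a' haa hga hga' hgD] at hD
            exact hmn hD.2.2
      · rw [if_neg fun h => hyn h.2.2, Finset.sum_eq_zero, mul_zero]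
        intro c _
        rw [if_pos hym, if_neg hyn]
    · rw [if_neg fun h => hym h.2.1, Finset.sum_eq_zero, mul_zero]
      intro c _
      rw [if_neg hym]
  have hsum : (∑ m ∈ Z.powerset, ∑ n ∈ Z.powerset,
          if Dj (Function.update (Function.update g a m) a' n) ∧ (y < nr m ∧ y < nr n) then
            ((wg (Function.update (Function.update g a m) a' n) : ℝ) : ℂ) *
              ep p (phc D.toRD0 P b κ (Function.update (Function.update g a m) a' n)) else 0) =
      ((wg g : ℝ) : ℂ) * ∑ c : Fin D.r → ZMod p,
        ∑ m ∈ Z.powerset.filter (fun m => y < nr m), ∑ n ∈ Z.powerset.filter (fun n => y < nr n),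
          if Disjoint m n then ((1 / (nr m * nr n) : ℝ) : ℂ) *
            (α c m * β c n * ep p (P.lk a a' * Lf D.toRD0 m (pf D.toRD0 n))) else 0 := by
    rw [Finset.sum_congr rfl fun m hm => Finset.sum_congr rfl fun n hn => hkey m hm n hn]
    simp only [← Finset.mul_sum]
    congr 1
    rw [Finset.sum_congr rfl fun m _ => Finset.sum_comm, Finset.sum_comm]
    refine Finset.sum_congr rfl fun c _ => ?_
    rw [Finset.sum_filter]
    refine Finset.sum_congr rfl fun m _ => ?_
    by_cases hym : y < nr m
    · rw [if_pos hym, Finset.sum_filter]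
      refine Finset.sum_congr rfl fun n _ => ?_
      rw [if_pos hym]
    · rw [if_neg hym]
      refine Finset.sum_eq_zero fun n _ => ?_
      rw [if_neg hym]
  rw [hsum, norm_mul, Complex.norm_real, Real.norm_eq_abs, abs_of_nonneg (bka_wg0 g)]
  refine mul_le_mul_of_nonneg_left ?_ (bka_wg0 g)
  refine (norm_sum_le _ _).trans ((Finset.sum_le_sum fun c _ =>
    h (P.lk a a') hlk (α c) (β c) (hα1 c) (hβ1 c) y z (by linarith) hz Z hZ).trans (le_of_eq ?_))
  rw [Finset.sum_const, nsmul_eq_mul, Finset.card_univ]
  ring

theorem blka (hp : p.Prime) (hζ : IsPrimitiveRoot ζ p) (D : RD K p ζ) (P : PD p m J) :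
    ∃ C A δ : ℝ, 0 < C ∧ 0 ≤ A ∧ 0 < δ ∧
      ∀ (𝒦 : Submodule (ZMod p) (Fin D.r → ZMod p)) (w y z : ℝ), 3 ≤ y → 3 ≤ z →
      ∀ (b : Fin m → Kˣ) (κ : J → Fin D.r → ZMod p), BSup D.toRD0 b ∅ →
      ∀ S : Finset J, (∃ a ∈ S, ∃ a' ∈ S, P.lk a a' ≠ 0) →
        ‖FS D.toRD0 P b κ (ZY D.toRD0 𝒦 w z) (fun g => Lgs y g = S)‖ ≤
          C * Real.log z ^ A * (y ^ (-δ) + 1 / z) := by
  obtain ⟨C1, A, δ, hC1, hA, hδ, h1⟩ := bka_inner hp hζ D P
  obtain ⟨C2, hC2, h2⟩ := sm_up D.toRD0
  refine ⟨C1 * C2 ^ Fintype.card J, A + Fintype.card J, δ, by positivity, by positivity, hδ,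
    fun 𝒦 w y z hy hz b κ hb S hex => ?_⟩
  obtain ⟨a, haS, a', ha'S, hlk⟩ := hex
  have hlz := bka_log hz
  have haa : a ≠ a' := by
    rintro rfl
    apply hlk
    unfold PD.lk
    rw [P.self a, add_zero]
  obtain ⟨Z, hZ⟩ : ∃ Z, Z = ZY D.toRD0 𝒦 w z := ⟨_, rfl⟩
  have hZs : Z ⊆ gdY D.toRD0 z := by
    rw [hZ]
    exact Finset.filter_subset _ _
  have hLY : LY D.toRD0 𝒦 w z = Li Z := by
    rw [hZ]
    rfl
  have h3 := h2 𝒦 w z hz
  rw [hLY] at h3
  rw [← hZ]
  obtain ⟨Cn, hCn⟩ : ∃ Cn : (J → Finset (Pl K)) → Prop, Cn = fun g => Lgs y g = S := ⟨_, rfl⟩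
  have hCn' : ∀ g, Cn g ↔ Lgs y g = S := fun g => by rw [hCn]
  rw [← hCn]
  unfold FS
  rw [upd2 a a' haa (fun _ => Z.powerset) ∅]
  have hB : 0 ≤ C1 * Real.log z ^ A * (y ^ (-δ) + 1 / z) := by positivity
  have hterm : ∀ g ∈ Fintype.piFinset (fun l : J => if l = a ∨ l = a' then {∅} else Z.powerset),
      ‖∑ m ∈ Z.powerset, ∑ n ∈ Z.powerset,
        (if Dj (Function.update (Function.update g a m) a' n) ∧
          Cn (Function.update (Function.update g a m) a' n) then
          ((wg (Function.update (Function.update g a m) a' n) : ℝ) : ℂ) *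
            ep p (phc D.toRD0 P b κ (Function.update (Function.update g a m) a' n)) else 0)‖ ≤
        wg g * (C1 * Real.log z ^ A * (y ^ (-δ) + 1 / z)) := by
    intro g hg
    rw [Fintype.mem_piFinset] at hg
    have hga : g a = ∅ := by
      have := hg a
      rw [if_pos (Or.inl rfl), Finset.mem_singleton] at this
      exact this
    have hga' : g a' = ∅ := by
      have := hg a'
      rw [if_pos (Or.inr rfl), Finset.mem_singleton] at this
      exact this
    have hgZ : ∀ l, g l ⊆ Z := fun l => by
      by_cases hl : l = a ∨ l = a'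
      · rcases hl with hl | hl
        · rw [hl, hga]
          exact Finset.empty_subset _
        · rw [hl, hga']
          exact Finset.empty_subset _
      · have := hg l
        rw [if_neg hl, Finset.mem_powerset] at this
        exact this
    have u1 : ∀ m n : Finset (Pl K), Function.update (Function.update g a m) a' n a = m :=
      fun m n => by rw [Function.update_of_ne haa, Function.update_self]
    have u2 : ∀ m n : Finset (Pl K), Function.update (Function.update g a m) a' n a' = n :=
      fun m n => Function.update_self _ _ _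
    have u3 : ∀ (m n : Finset (Pl K)) l, l ≠ a → l ≠ a' →
        Function.update (Function.update g a m) a' n l = g l :=
      fun m n l hl hl' => by rw [Function.update_of_ne hl', Function.update_of_ne hl]
    by_cases hOK : Dj g ∧ (∀ l, l ≠ a → l ≠ a' → (y < nr (g l) ↔ l ∈ S))
    · obtain ⟨hgD, hgS⟩ := hOK
      have e : ∀ m ∈ Z.powerset, ∀ n ∈ Z.powerset,
          (if Dj (Function.update (Function.update g a m) a' n) ∧
            Cn (Function.update (Function.update g a m) a' n) then
            ((wg (Function.update (Function.update g a m) a' n) : ℝ) : ℂ) *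
              ep p (phc D.toRD0 P b κ (Function.update (Function.update g a m) a' n)) else 0) =
          (if Dj (Function.update (Function.update g a m) a' n) ∧ (y < nr m ∧ y < nr n) then
            ((wg (Function.update (Function.update g a m) a' n) : ℝ) : ℂ) *
              ep p (phc D.toRD0 P b κ (Function.update (Function.update g a m) a' n))
            else 0) := by
        intro m _ n _
        refine if_congr ?_ rfl rfl
        refine and_congr_right fun _ => ?_
        rw [hCn']
        constructor
        · intro hL
          have h4 : a ∈ Lgs y (Function.update (Function.update g a m) a' n) := hL ▸ haS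
          have h5 : a' ∈ Lgs y (Function.update (Function.update g a m) a' n) := hL ▸ ha'S
          unfold Lgs at h4 h5
          rw [Finset.mem_filter, u1] at h4
          rw [Finset.mem_filter, u2] at h5
          exact ⟨h4.2, h5.2⟩
        · rintro ⟨hm, hn⟩
          ext l
          unfold Lgs
          rw [Finset.mem_filter]
          by_cases hl : l = a
          · rw [hl, u1]
            exact ⟨fun _ => haS, fun _ => ⟨Finset.mem_univ _, hm⟩⟩
          · by_cases hl' : l = a'
            · rw [hl', u2]
              exact ⟨fun _ => ha'S, fun _ => ⟨Finset.mem_univ _, hn⟩⟩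
            · rw [u3 m n l hl hl', hgS l hl hl']
              exact ⟨fun h => h.2, fun h => ⟨Finset.mem_univ _, h⟩⟩
      rw [Finset.sum_congr rfl fun m hm => Finset.sum_congr rfl fun n hn => e m hm n hn]
      exact h1 Z y z hy hz hZs b κ a a' haa hlk g hga hga' hgZ hgD
    · have e : ∀ m ∈ Z.powerset, ∀ n ∈ Z.powerset,
          (if Dj (Function.update (Function.update g a m) a' n) ∧
            Cn (Function.update (Function.update g a m) a' n) then
            ((wg (Function.update (Function.update g a m) a' n) : ℝ) : ℂ) *
              ep p (phc D.toRD0 P b κ (Function.update (Function.update g a m) a' n)) else 0) =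
          0 := by
        intro m _ n _
        rw [if_neg]
        rintro ⟨hD, hC⟩
        have hL := (hCn' _).1 hC
        refine hOK ⟨?_, ?_⟩
        · intro l l' hll
          by_cases hl : l = a ∨ l = a'
          · have : g l = ∅ := by
              rcases hl with hl | hl
              · rw [hl, hga]
              · rw [hl, hga']
            rw [this]
            exact Finset.disjoint_empty_left _
          · by_cases hl' : l' = a ∨ l' = a'
            · have : g l' = ∅ := by
                rcases hl' with hl' | hl'
                · rw [hl', hga]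
                · rw [hl', hga']
              rw [this]
              exact Finset.disjoint_empty_right _
            · rw [not_or] at hl hl'
              have := hD l l' hll
              rwa [u3 m n l hl.1 hl.2, u3 m n l' hl'.1 hl'.2] at this
        · intro l hl hl'
          rw [← hL]
          unfold Lgs
          rw [Finset.mem_filter, u3 m n l hl hl']
          exact ⟨fun h => ⟨Finset.mem_univ _, h⟩, fun h => h.2⟩
      rw [Finset.sum_eq_zero fun m hm => Finset.sum_eq_zero fun n hn => e m hm n hn, norm_zero]
      exact mul_nonneg (bka_wg0 g) hB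
  refine (norm_sum_le _ _).trans ((Finset.sum_le_sum hterm).trans ?_)
  rw [← Finset.sum_mul]
  have h4 : ∑ g ∈ Fintype.piFinset (fun l : J => if l = a ∨ l = a' then {∅} else Z.powerset),
      wg g ≤ Real.exp (Li Z) ^ Fintype.card J := by
    have h5 : ∑ g ∈ Fintype.piFinset (fun l : J => if l = a ∨ l = a' then {∅} else Z.powerset),
        wg g = ∏ l : J, ∑ n ∈ (if l = a ∨ l = a' then {∅} else Z.powerset), 1 / nr n :=
      upd_prod (fun l : J => if l = a ∨ l = a' then {∅} else Z.powerset) (fun _ n => 1 / nr n)
    rw [h5, ← Finset.card_univ, ← Finset.prod_const]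
    refine Finset.prod_le_prod (fun l _ => Finset.sum_nonneg fun n _ =>
      one_div_nonneg.2 (bka_nr0 n).le) fun l _ => ?_
    by_cases hl : l = a ∨ l = a'
    · rw [if_pos hl, Finset.sum_singleton, bka_nr_empty, one_div_one]
      exact Real.one_le_exp (Li_nonneg Z)
    · rw [if_neg hl]
      exact sm_full Z
  have h6 : Real.exp (Li Z) ^ Fintype.card J ≤ (C2 * Real.log z) ^ Fintype.card J :=
    pow_le_pow_left₀ (Real.exp_pos _).le h3 _
  calc _ ≤ (C2 * Real.log z) ^ Fintype.card J * (C1 * Real.log z ^ A * (y ^ (-δ) + 1 / z)) :=
        mul_le_mul_of_nonneg_right (h4.trans h6) hB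
    _ = _ := by
      rw [Real.rpow_add (by linarith), Real.rpow_natCast, mul_pow]
      ring

end H83.LW
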