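import Pool.Agent.H83.LW.MERS

/-!
# [H83 LW EUY] upper bound for sums of characters over `ZY` (70-120 lines)

For `κ' ∈ 𝒦` consider `t v = if v ∉ E then Re ep(fE E μ (κ + κ') v) else 0`, `|t v| ≤ 1` (`ep_norm`,
`Complex.abs_re_le_norm`). `mers` and `chs` (`H38/BB/CChs`, for `η`; the condition of `chs` holds: either `μ v ≠ 0` for some `v ∈ E`, or
`κ ∉ 𝒦`, and then `κ + κ' ≠ 0`) give `∑_{v ∈ gdY D z} t v / nm v ≤ η log (nr E) + C`. The primes with `nm v ≤ w` are in `gdY D w`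
(`z` or not) and contribute at most `Li (gdY D w)`, a constant. So
`∑_{v ∈ gdY D z, w < nm v, v ∉ E} Re ep(fE E μ (κ + κ') v) / nm v ≤ η log (nr E) + C'`.
Average over `κ' ∈ 𝒦` (a finite group): `fE E μ (κ + κ') v = fE E μ κ v + dt κ' (q v)`, and
`∑_{κ' ∈ 𝒦} ep(dt κ' (q v)) = #𝒦` if `dt κ' (q v) = 0` for all `κ' ∈ 𝒦`, and `0` otherwise (`κ' ↦ dt κ' (q v)` is additive; if it is not
zero at `κ₀`, translation by `κ₀` multiplies the sum by `ep(dt κ₀ (q v)) ≠ 1`). So the average of the left sides is the left side of the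
theorem.
-/

set_option autoImplicit false

open scoped NumberField
open IsDedekindDomain
open scoped Classical

noncomputable section

namespace H83.LW

open H63.MA H38.BB

variable {K : Type} [Field K] [NumberField K] {p : ℕ} {ζ : K}

theorem euy_dt {m : ℕ} (a b x : Fin m → ZMod p) : dt (a + b) x = dt a x + dt b x := by
  unfold dt
  rw [← Finset.sum_add_distrib]
  exact Finset.sum_congr rfl fun k _ => by rw [Pi.add_apply, add_mul]

theorem euy_fE (D : RD0 K p ζ) (E : Finset (Pl K)) (μ : Pl K → ZMod p)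
    (κ κ' : Fin D.r → ZMod p) (v : Pl K) :
    fE D E μ (κ + κ') v = fE D E μ κ v + dt κ' (D.q v) := by
  unfold fE
  rw [euy_dt, add_assoc]

/-- orthogonality -/
theorem euy_orth [NeZero p] (hp : p.Prime) {m : ℕ} (𝒦 : Submodule (ZMod p) (Fin m → ZMod p))
    (x : Fin m → ZMod p) :
    ∑ κ ∈ Finset.univ.filter (fun κ : Fin m → ZMod p => κ ∈ 𝒦), ep p (dt κ x) =
      if ∀ κ ∈ 𝒦, dt κ x = 0 then
        (((Finset.univ.filter (fun κ : Fin m → ZMod p => κ ∈ 𝒦)).card : ℝ) : ℂ) else 0 := by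
  split_ifs with h
  · rw [Finset.sum_congr rfl fun κ hκ => by
      rw [h κ (Finset.mem_filter.1 hκ).2, ep_zero], Finset.sum_const, nsmul_eq_mul, mul_one]
    push_cast
    rfl
  · push Not at h
    obtain ⟨κ0, hκ0, hne⟩ := h
    have h1 : ∑ κ ∈ Finset.univ.filter (fun κ : Fin m → ZMod p => κ ∈ 𝒦), ep p (dt κ x) =
        ∑ κ ∈ Finset.univ.filter (fun κ : Fin m → ZMod p => κ ∈ 𝒦), ep p (dt (κ + κ0) x) := by
      refine (Finset.sum_equiv (Equiv.addRight κ0) (fun κ => ?_) fun κ _ => rfl).symm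
      simp only [Finset.mem_filter, Finset.mem_univ, true_and, Equiv.coe_addRight]
      constructor
      · intro hk
        exact 𝒦.add_mem hk hκ0
      · intro hk
        have h2 := 𝒦.sub_mem hk hκ0
        rwa [add_sub_cancel_right] at h2
    have h2 : ∑ κ ∈ Finset.univ.filter (fun κ : Fin m → ZMod p => κ ∈ 𝒦),
        ep p (dt (κ + κ0) x) =
        (∑ κ ∈ Finset.univ.filter (fun κ : Fin m → ZMod p => κ ∈ 𝒦), ep p (dt κ x)) *
          ep p (dt κ0 x) := by
      rw [Finset.sum_mul]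
      exact Finset.sum_congr rfl fun κ _ => by rw [euy_dt, ep_add hp]
    rw [h2] at h1
    have h3 : ep p (dt κ0 x) ≠ 1 := fun h => hne ((ep_eq_one hp _).1 h)
    have h4 : (∑ κ ∈ Finset.univ.filter (fun κ : Fin m → ZMod p => κ ∈ 𝒦), ep p (dt κ x)) *
        (ep p (dt κ0 x) - 1) = 0 := by
      rw [mul_sub, mul_one, ← h1, sub_self]
    rcases mul_eq_zero.1 h4 with h5 | h5
    · exact h5
    · exact absurd (sub_eq_zero.1 h5) h3

theorem euy (hp : p.Prime) (hζ : IsPrimitiveRoot ζ p) (D : RD K p ζ)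
    (𝒦 : Submodule (ZMod p) (Fin D.r → ZMod p)) (w η : ℝ) (hη : 0 < η) :
    ∃ C : ℝ, 0 < C ∧ ∀ z : ℝ, 3 ≤ z → ∀ (E : Finset (Pl K)) (μ : Pl K → ZMod p)
      (κ : Fin D.r → ZMod p), (∀ v ∈ E, v ∉ D.S0) → ((∃ v ∈ E, μ v ≠ 0) ∨ κ ∉ 𝒦) →
        ∑ v ∈ ZY D.toRD0 𝒦 w z \ E, (ep p (fE D.toRD0 E μ κ v)).re / nm v ≤
          η * Real.log (nr E) + C := by
  have : NeZero p := ⟨hp.ne_zero⟩
  obtain ⟨C1, hC1, hmers⟩ := mers D.toRD0
  obtain ⟨C2, hC2, hchs⟩ := chs hp hζ D η hη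
  have hL0 : 0 ≤ Li (gdY D.toRD0 w) := Finset.sum_nonneg fun v _ => by positivity
  refine ⟨C1 + C2 + Li (gdY D.toRD0 w), by positivity, fun z hz E μ κ hE hcond => ?_⟩
  have hlog : 1 ≤ Real.log z := by
    rw [Real.le_log_iff_exp_le (by linarith)]
    linarith [Real.exp_one_lt_d9]
  have hs1 : 1 < 1 + 1 / Real.log z := by
    have : 0 < 1 / Real.log z := by positivity
    linarith
  have hs2 : 1 + 1 / Real.log z ≤ 2 := by
    have : 1 / Real.log z ≤ 1 := by
      rw [div_le_one (by linarith)]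
      exact hlog
    linarith
  obtain ⟨S, hS⟩ : ∃ S : Finset (Fin D.r → ZMod p),
      S = Finset.univ.filter (fun κ : Fin D.r → ZMod p => κ ∈ 𝒦) := ⟨_, rfl⟩
  have hS0 : 0 < (S.card : ℝ) := by
    have h1 : (0 : Fin D.r → ZMod p) ∈ S := by
      rw [hS, Finset.mem_filter]
      exact ⟨Finset.mem_univ _, 𝒦.zero_mem⟩
    have h2 := Finset.card_pos.2 ⟨_, h1⟩
    exact_mod_cast h2
  obtain ⟨Z, hZ⟩ : ∃ Z : Finset (Pl K),
      Z = (gdY D.toRD0 z).filter fun v => w < nm v := ⟨_, rfl⟩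
  -- one character
  have hone : ∀ κ' ∈ S, ∑ v ∈ Z \ E, (ep p (fE D.toRD0 E μ (κ + κ') v)).re / nm v ≤
      η * Real.log (nr E) + (C1 + C2 + Li (gdY D.toRD0 w)) := by
    intro κ' hκ'
    rw [hS, Finset.mem_filter] at hκ'
    have hκk : (∃ v ∈ E, μ v ≠ 0) ∨ κ + κ' ≠ 0 := by
      rcases hcond with h | h
      · exact Or.inl h
      · right
        intro h0
        apply h
        have h1 : κ = -κ' := eq_neg_of_add_eq_zero_left h0
        rw [h1]
        exact 𝒦.neg_mem hκ'.2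
    obtain ⟨t, ht⟩ : ∃ t : Pl K → ℝ, t = fun v =>
        if v ∉ E then (ep p (fE D.toRD0 E μ (κ + κ') v)).re else 0 := ⟨_, rfl⟩
    have ht1 : ∀ v, |t v| ≤ 1 := by
      intro v
      rw [ht]
      dsimp only
      by_cases hv : v ∈ E
      · rw [if_neg (not_not.2 hv), abs_zero]
        exact zero_le_one
      · rw [if_pos hv]
        exact (Complex.abs_re_le_norm _).trans (ep_norm p _).le
    have h1 := hmers t ht1 z hz
    have h2 := hchs E μ (κ + κ') hE hκk (1 + 1 / Real.log z) hs1 hs2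
    have h3 : (∑' v : Pl K, if D.toRD0.Gd v then
        t v * (nm v : ℝ) ^ (-(1 + 1 / Real.log z)) else 0) =
        ∑' v : Pl K, if D.Gd v ∧ v ∉ E then
          (ep p (fE D.toRD0 E μ (κ + κ') v)).re * (nm v : ℝ) ^ (-(1 + 1 / Real.log z)) else 0 := by
      refine tsum_congr fun v => ?_
      rw [ht]
      by_cases h4 : D.toRD0.Gd v
      · by_cases h5 : v ∈ E
        · rw [if_pos h4, if_neg (fun h => h.2 h5)]
          simp [h5]
        · rw [if_pos h4, if_pos ⟨h4, h5⟩]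
          simp [h5]
      · rw [if_neg h4, if_neg (fun h => h4 h.1)]
    rw [h3] at h1
    -- the split
    have h4 : ∑ v ∈ Z \ E, (ep p (fE D.toRD0 E μ (κ + κ') v)).re / nm v =
        ∑ v ∈ Z, t v / nm v := by
      rw [← Finset.sum_sdiff (Finset.sdiff_subset : Z \ E ⊆ Z)]
      have h5 : ∑ v ∈ Z \ (Z \ E), t v / nm v = 0 := by
        refine Finset.sum_eq_zero fun v hv => ?_
        have h6 : v ∈ E := by
          rw [Finset.mem_sdiff, Finset.mem_sdiff, not_and, not_not] at hv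
          exact hv.2 hv.1
        rw [ht]
        simp [h6]
      rw [h5, zero_add]
      refine Finset.sum_congr rfl fun v hv => ?_
      rw [ht]
      dsimp only
      rw [if_pos (Finset.mem_sdiff.1 hv).2]
    have h5 : ∑ v ∈ gdY D.toRD0 z, t v / nm v = ∑ v ∈ Z, t v / nm v +
        ∑ v ∈ (gdY D.toRD0 z).filter (fun v => ¬ w < nm v), t v / nm v := by
      rw [hZ]
      exact (Finset.sum_filter_add_sum_filter_not _ _ _).symm
    have h6 : -Li (gdY D.toRD0 w) ≤
        ∑ v ∈ (gdY D.toRD0 z).filter (fun v => ¬ w < nm v), t v / nm v := by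
      have h7 : ∑ v ∈ (gdY D.toRD0 z).filter (fun v => ¬ w < nm v), 1 / (nm v : ℝ) ≤
          Li (gdY D.toRD0 w) := by
        refine Finset.sum_le_sum_of_subset_of_nonneg (fun v hv => ?_)
          fun v _ _ => by positivity
        rw [Finset.mem_filter, chr_mem] at hv
        rw [chr_mem]
        exact ⟨not_lt.1 hv.2, hv.1.2⟩
      have h8 : ∑ v ∈ (gdY D.toRD0 z).filter (fun v => ¬ w < nm v), -(1 / (nm v : ℝ)) ≤
          ∑ v ∈ (gdY D.toRD0 z).filter (fun v => ¬ w < nm v), t v / nm v := by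
        refine Finset.sum_le_sum fun v _ => ?_
        have h9 := (abs_le.1 (ht1 v)).1
        rw [← neg_div]
        exact div_le_div_of_nonneg_right h9 (Nat.cast_nonneg _)
      rw [Finset.sum_neg_distrib] at h8
      linarith
    rw [h4]
    linarith
  -- the average
  have havg := Finset.sum_le_sum hone
  rw [Finset.sum_const, nsmul_eq_mul, Finset.sum_comm] at havg
  have hin : ∀ v ∈ Z \ E, ∑ κ' ∈ S, (ep p (fE D.toRD0 E μ (κ + κ') v)).re / nm v =
      if v ∈ ZY D.toRD0 𝒦 w z \ E then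
        S.card * ((ep p (fE D.toRD0 E μ κ v)).re / nm v) else 0 := by
    intro v hv
    rw [Finset.mem_sdiff, hZ, Finset.mem_filter] at hv
    have h1 : ∑ κ' ∈ S, (ep p (fE D.toRD0 E μ (κ + κ') v)).re / nm v =
        (ep p (fE D.toRD0 E μ κ v) * ∑ κ' ∈ S, ep p (dt κ' (D.q v))).re / nm v := by
      rw [← Finset.sum_div, Finset.mul_sum, Complex.re_sum]
      congr 1
      exact Finset.sum_congr rfl fun κ' _ => by rw [euy_fE, ep_add hp]
    rw [h1, hS, euy_orth hp 𝒦 (D.q v), ← hS]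
    have h2 : v ∈ ZY D.toRD0 𝒦 w z \ E ↔ ∀ κ ∈ 𝒦, dt κ (D.q v) = 0 := by
      rw [Finset.mem_sdiff, mem_ZY]
      have h4 := chr_mem.1 hv.1.1
      constructor
      · intro h
        exact h.1.2.2.2
      · intro h
        exact ⟨⟨h4.1, h4.2, hv.1.2, h⟩, hv.2⟩
    by_cases h3 : ∀ κ ∈ 𝒦, dt κ (D.q v) = 0
    · rw [if_pos h3, if_pos (h2.2 h3), Complex.re_mul_ofReal]
      ring
    · rw [if_neg h3, if_neg fun h => h3 (h2.1 h), mul_zero, Complex.zero_re, zero_div]
  rw [Finset.sum_congr rfl hin, ← Finset.sum_filter] at havg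
  have hfil : (Z \ E).filter (fun v => v ∈ ZY D.toRD0 𝒦 w z \ E) = ZY D.toRD0 𝒦 w z \ E := by
    ext v
    rw [Finset.mem_filter, hZ]
    simp only [Finset.mem_sdiff, Finset.mem_filter, mem_ZY, chr_mem]
    constructor
    · intro h
      exact h.2
    · intro h
      exact ⟨⟨⟨⟨h.1.1, h.1.2.1⟩, h.1.2.2.1⟩, h.2⟩, h⟩
  rw [hfil, ← Finset.mul_sum] at havg
  exact le_of_mul_le_mul_left havg hS0

end H83.LW
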