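import Pool.Agent.H83.LW.LDef

/-!
# [H83 LW PRD] products over primes (three theorems, 50-90 lines)

* `prd`: `‖1 + x‖² = 1 + 2 Re x + ‖x‖² ≤ exp(2 Re x + ‖x‖²)`, so `‖1 + x‖ ≤ exp(Re x + ‖x‖² / 2)`; with `x = f v / nm v`,
  `‖x‖² ≤ A² / (nm v)²`, and `∑_{v ∈ Z} 1 / (nm v)² ≤ ∑' v, (nm v)^(-2)` (`pz_summable K`, `s = 2`, `MA/PZb`). `C = exp(A² ∑' / 2)`.
* `prd_low`: `exp(x - x²) ≤ 1 + x` for `x ≥ 0` (`markov_aux1` or `exp_le_prod` in `H38/TD/Markov`), `x = a v / nm v`.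
* `prd_sum`: `1 / nr n * ∏_{v ∈ n} f v = ∏_{v ∈ n} (f v / nm v)`, `Finset.prod_one_add`, and `prd` with `A = 1`.
-/

set_option autoImplicit false

open scoped NumberField
open IsDedekindDomain
open scoped Classical

noncomputable section

namespace H83.LW

open H63.MA H38.BB

private theorem prd_sq (K : Type) [Field K] [NumberField K] : ∃ S : ℝ, 0 ≤ S ∧
    ∀ Z : Finset (Pl K), ∑ v ∈ Z, 1 / (nm v : ℝ) ^ 2 ≤ S := by
  have hs := pz_summable K (s := 2) (by norm_num)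
  refine ⟨∑' v : Pl K, (nm v : ℝ) ^ (-(2 : ℝ)), tsum_nonneg fun v => pzb_nonneg v _, fun Z => ?_⟩
  refine le_trans (le_of_eq (Finset.sum_congr rfl fun v _ => ?_))
    (hs.sum_le_tsum Z fun v _ => pzb_nonneg v _)
  rw [Real.rpow_neg (Nat.cast_nonneg _), one_div]
  congr 1
  exact_mod_cast (Real.rpow_natCast (nm v : ℝ) 2).symm

private theorem prd_one (x : ℂ) : ‖1 + x‖ ≤ Real.exp (x.re + ‖x‖ ^ 2 / 2) := by
  have h1 : ‖1 + x‖ ^ 2 = 1 + 2 * x.re + ‖x‖ ^ 2 := by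
    rw [← Complex.normSq_eq_norm_sq, ← Complex.normSq_eq_norm_sq, Complex.normSq_apply,
      Complex.normSq_apply]
    simp only [Complex.add_re, Complex.one_re, Complex.add_im, Complex.one_im]
    ring
  have h2 : ‖1 + x‖ ^ 2 ≤ Real.exp (x.re + ‖x‖ ^ 2 / 2) ^ 2 := by
    rw [h1, ← Real.exp_nat_mul]
    have := Real.add_one_le_exp (((2 : ℕ) : ℝ) * (x.re + ‖x‖ ^ 2 / 2))
    push_cast at this ⊢
    linarith
  exact (pow_le_pow_iff_left₀ (norm_nonneg _) (Real.exp_pos _).le two_ne_zero).1 h2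

private theorem prd_aux (w : ℝ) (hw : 0 ≤ w) : Real.exp (w - w ^ 2) ≤ 1 + w := by
  have h1 : (0 : ℝ) < 1 + w := by linarith
  rw [← Real.le_log_iff_exp_le h1]
  refine le_trans ?_ (Real.one_sub_inv_le_log_of_pos h1)
  have h2 : 1 - (1 + w)⁻¹ = w / (1 + w) := by
    field_simp
    ring
  rw [h2, le_div_iff₀ h1]
  nlinarith [pow_nonneg hw 3]

private theorem prd_expl {Pt : Type} (Z : Finset Pt) (w : Pt → ℝ) (hw : ∀ v ∈ Z, 0 ≤ w v) :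
    Real.exp (∑ v ∈ Z, w v - ∑ v ∈ Z, w v ^ 2) ≤ ∏ v ∈ Z, (1 + w v) := by
  rw [← Finset.sum_sub_distrib, Real.exp_sum]
  exact Finset.prod_le_prod (fun v _ => (Real.exp_pos _).le) fun v hv => prd_aux _ (hw v hv)

theorem prd (K : Type) [Field K] [NumberField K] (A : ℝ) : ∃ C : ℝ, 1 ≤ C ∧
    ∀ (Z : Finset (Pl K)) (f : Pl K → ℂ), (∀ v, ‖f v‖ ≤ A) →
      ‖∏ v ∈ Z, (1 + f v / (nm v : ℂ))‖ ≤ C * Real.exp (∑ v ∈ Z, (f v).re / nm v) := by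
  obtain ⟨S, hS0, hS⟩ := prd_sq K
  refine ⟨Real.exp (A ^ 2 * S / 2), Real.one_le_exp (by positivity), fun Z f hf => ?_⟩
  have h1 : ∀ v : Pl K, ‖1 + f v / (nm v : ℂ)‖ ≤
      Real.exp ((f v).re / nm v + A ^ 2 / 2 * (1 / (nm v : ℝ) ^ 2)) := by
    intro v
    refine (prd_one _).trans (Real.exp_le_exp.2 ?_)
    have h2 : (f v / (nm v : ℂ)).re = (f v).re / nm v := by
      have : (nm v : ℂ) = ((nm v : ℝ) : ℂ) := by push_cast; rfl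
      rw [this, Complex.div_ofReal_re]
    have h3 : ‖f v / (nm v : ℂ)‖ = ‖f v‖ / nm v := by
      rw [norm_div, Complex.norm_natCast]
    rw [h2, h3, div_pow]
    have h4 : ‖f v‖ ^ 2 ≤ A ^ 2 := pow_le_pow_left₀ (norm_nonneg _) (hf v) 2
    have h5 : ‖f v‖ ^ 2 / (nm v : ℝ) ^ 2 ≤ A ^ 2 / (nm v : ℝ) ^ 2 := by gcongr
    have h6 : A ^ 2 / 2 * (1 / (nm v : ℝ) ^ 2) = A ^ 2 / (nm v : ℝ) ^ 2 / 2 := by ring
    rw [h6]
    linarith
  rw [norm_prod]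
  refine (Finset.prod_le_prod (fun v _ => norm_nonneg _) fun v _ => h1 v).trans ?_
  rw [← Real.exp_sum, Finset.sum_add_distrib, ← Finset.mul_sum, ← Real.exp_add]
  refine Real.exp_le_exp.2 ?_
  have h7 := mul_le_mul_of_nonneg_left (hS Z) (show (0 : ℝ) ≤ A ^ 2 / 2 by positivity)
  linarith

theorem prd_low (K : Type) [Field K] [NumberField K] (A : ℝ) : ∃ c : ℝ, 0 < c ∧
    ∀ (Z : Finset (Pl K)) (a : Pl K → ℝ), (∀ v, 0 ≤ a v ∧ a v ≤ A) →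
      c * Real.exp (∑ v ∈ Z, a v / nm v) ≤ ∏ v ∈ Z, (1 + a v / nm v) := by
  obtain ⟨S, hS0, hS⟩ := prd_sq K
  refine ⟨Real.exp (-(A ^ 2 * S)), Real.exp_pos _, fun Z a ha => ?_⟩
  have h1 := prd_expl Z (fun v => a v / nm v)
    fun v _ => div_nonneg (ha v).1 (Nat.cast_nonneg _)
  refine le_trans ?_ h1
  rw [← Real.exp_add]
  refine Real.exp_le_exp.2 ?_
  have h2 : ∑ v ∈ Z, (a v / (nm v : ℝ)) ^ 2 ≤ ∑ v ∈ Z, A ^ 2 * (1 / (nm v : ℝ) ^ 2) := by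
    refine Finset.sum_le_sum fun v _ => ?_
    rw [div_pow, mul_one_div]
    have h4 : a v ^ 2 ≤ A ^ 2 := pow_le_pow_left₀ (ha v).1 (ha v).2 2
    gcongr
  rw [← Finset.mul_sum] at h2
  have h3 := mul_le_mul_of_nonneg_left (hS Z) (sq_nonneg A)
  linarith

theorem prd_sum (K : Type) [Field K] [NumberField K] : ∃ C : ℝ, 1 ≤ C ∧
    ∀ (Z : Finset (Pl K)) (f : Pl K → ℂ), (∀ v, ‖f v‖ ≤ 1) →
      ‖∑ n ∈ Z.powerset, ((1 / nr n : ℝ) : ℂ) * ∏ v ∈ n, f v‖ ≤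
        C * Real.exp (∑ v ∈ Z, (f v).re / nm v) := by
  obtain ⟨C, hC, h⟩ := prd K 1
  refine ⟨C, hC, fun Z f hf => ?_⟩
  refine le_trans (le_of_eq ?_) (h Z f hf)
  congr 1
  rw [Finset.prod_one_add]
  refine Finset.sum_congr rfl fun n _ => ?_
  rw [Finset.prod_div_distrib]
  unfold nr
  push_cast
  rw [div_eq_mul_one_div (∏ v ∈ n, f v), mul_comm]

end H83.LW
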