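import Pool.Agent.H83.LW.LGB
import Pool.Agent.H63.MA.EulA

/-!
# [H83 LW SML] elementary sums over sets of primes (five theorems, 90-140 lines)

`Li Z = ∑_{v ∈ Z} 1 / nm v`, `nr n = ∏_{v ∈ n} nm v` (`MA/AFin`).
* `sm_full`: `1 / nr n = ∏_{v ∈ n} 1 / nm v`, `∑_{n ⊆ Z} ∏_{v ∈ n} a v = ∏_{v ∈ Z} (1 + a v)` (`Finset.prod_one_add`), `1 + x ≤ exp x`
  (`prod_le_exp` in `H38/TD/Markov`).
* `sm_e`: the same with `a v = exp(1 / nm v) / nm v`: `exp(Li n) = ∏_{v ∈ n} exp(1 / nm v)`. For `x = 1 / nm v ≤ 1/2`: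
  `x exp x ≤ x + 2 x²` (`exp x ≤ 1 + 2 x` for `0 ≤ x ≤ 1/2`... e.g. from `Real.exp_bound'`, or `exp x ≤ 1 / (1 - x) ≤ 1 + 2 x`), so
  the sum is `≤ exp(Li Z + 2 ∑_{v ∈ Z} 1 / nm v ^ 2) ≤ exp(Li Z) exp(2 ∑' v, (nm v)^(-2))` (`pz_summable K` with `s = 2`).
* `sm_small`: the `n ⊆ Z` with `nr n ≤ y` are subsets of `Z ∩ {nm v ≤ y} ⊆ gdY D y`; `sm_e` and `lg_up`: `exp(Li (gdY D y)) ≤ C log y`.
* `sm_up`: `ZY ⊆ gdY D z` and `lg_up`.
* `sm_nr`: trivial from `1 ≤ exp`.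
-/

set_option autoImplicit false

open scoped NumberField
open IsDedekindDomain
open scoped Classical

noncomputable section

namespace H83.LW

open H63.MA H38.BB

variable {K : Type} [Field K] [NumberField K] {p : ℕ} {ζ : K}

theorem Li_nonneg (Z : Finset (Pl K)) : 0 ≤ Li Z := Finset.sum_nonneg fun v _ => by positivity

theorem Li_mono {Z Z' : Finset (Pl K)} (h : Z ⊆ Z') : Li Z ≤ Li Z' :=
  Finset.sum_le_sum_of_subset_of_nonneg h fun v _ _ => by positivity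

private theorem sml_prod_le {Pt : Type} (Z : Finset Pt) (w : Pt → ℝ) (hw : ∀ v ∈ Z, 0 ≤ w v) :
    ∏ v ∈ Z, (1 + w v) ≤ Real.exp (∑ v ∈ Z, w v) := by
  rw [Real.exp_sum]
  refine Finset.prod_le_prod (fun v hv => ?_) fun v _ => ?_
  · linarith [hw v hv]
  · linarith [Real.add_one_le_exp (w v)]

private theorem sml_nr (n : Finset (Pl K)) : 1 / nr n = ∏ v ∈ n, 1 / (nm v : ℝ) := by
  unfold nr
  rw [Finset.prod_div_distrib, Finset.prod_const_one]

theorem sm_full (Z : Finset (Pl K)) : ∑ n ∈ Z.powerset, 1 / nr n ≤ Real.exp (Li Z) := by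
  rw [Finset.sum_congr rfl fun n _ => sml_nr n, ← Finset.prod_one_add]
  exact sml_prod_le Z _ fun v _ => by positivity

theorem sm_e (K : Type) [Field K] [NumberField K] : ∃ C : ℝ, 1 ≤ C ∧ ∀ Z : Finset (Pl K),
    ∑ n ∈ Z.powerset, Real.exp (Li n) / nr n ≤ C * Real.exp (Li Z) := by
  have hs := pz_summable K (s := 2) (by norm_num)
  have hnn : ∀ v : Pl K, 0 ≤ (nm v : ℝ) ^ (-(2 : ℝ)) := fun v => by positivity
  refine ⟨Real.exp (2 * ∑' v : Pl K, (nm v : ℝ) ^ (-(2 : ℝ))), ?_, fun Z => ?_⟩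
  · rw [← Real.exp_zero]
    exact Real.exp_le_exp.2 (mul_nonneg (by norm_num) (tsum_nonneg hnn))
  have e1 : ∀ n : Finset (Pl K), Real.exp (Li n) / nr n =
      ∏ v ∈ n, Real.exp (1 / (nm v : ℝ)) * (1 / (nm v : ℝ)) := by
    intro n
    rw [Finset.prod_mul_distrib, ← sml_nr, ← Real.exp_sum, div_eq_mul_one_div]
    rfl
  rw [Finset.sum_congr rfl fun n _ => e1 n, ← Finset.prod_one_add, ← Real.exp_add]
  refine (sml_prod_le Z _ fun v _ => by positivity).trans (Real.exp_le_exp.2 ?_)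
  have e2 : ∀ v : Pl K, Real.exp (1 / (nm v : ℝ)) * (1 / (nm v : ℝ)) ≤
      1 / (nm v : ℝ) + 2 * (nm v : ℝ) ^ (-(2 : ℝ)) := by
    intro v
    have h2 := eula_two_le v
    have hp : (0 : ℝ) < nm v := by linarith
    set x := 1 / (nm v : ℝ) with hx
    have hx0 : 0 < x := by positivity
    have hx2 : x ≤ 1 / 2 := one_div_le_one_div_of_le (by norm_num) h2
    have e3 : (nm v : ℝ) ^ (-(2 : ℝ)) = x ^ 2 := by
      rw [Real.rpow_neg hp.le, hx, one_div, inv_pow]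
      norm_num
    rw [e3]
    have h3 : Real.exp x ≤ 1 / (1 - x) := Real.exp_bound_div_one_sub_of_interval hx0.le (by linarith)
    have h4 : 1 / (1 - x) ≤ 1 + 2 * x := by
      rw [div_le_iff₀ (by linarith)]
      nlinarith
    nlinarith [h3.trans h4]
  calc ∑ v ∈ Z, Real.exp (1 / (nm v : ℝ)) * (1 / (nm v : ℝ)) ≤
        ∑ v ∈ Z, (1 / (nm v : ℝ) + 2 * (nm v : ℝ) ^ (-(2 : ℝ))) := Finset.sum_le_sum fun v _ => e2 v
    _ = Li Z + 2 * ∑ v ∈ Z, (nm v : ℝ) ^ (-(2 : ℝ)) := by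
        rw [Finset.sum_add_distrib, ← Finset.mul_sum]
        rfl
    _ ≤ 2 * (∑' v : Pl K, (nm v : ℝ) ^ (-(2 : ℝ))) + Li Z := by
        have := hs.sum_le_tsum Z fun v _ => hnn v
        linarith

private theorem sml_le_nr {n : Finset (Pl K)} {v : Pl K} (hv : v ∈ n) : (nm v : ℝ) ≤ nr n := by
  have h := nr_mono (K := K) (Finset.singleton_subset_iff.2 hv)
  have e : nr ({v} : Finset (Pl K)) = nm v := by
    unfold nr
    rw [Finset.prod_singleton]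
  rwa [e] at h

private theorem sml_nr_pos (n : Finset (Pl K)) : 0 < nr n := by
  unfold nr
  refine Finset.prod_pos fun v _ => ?_
  have := eula_two_le v
  linarith

theorem sm_small (D : RD0 K p ζ) : ∃ C : ℝ, 1 ≤ C ∧ ∀ (Z : Finset (Pl K)) (y : ℝ), 3 ≤ y →
    (∀ v ∈ Z, D.Gd v) →
    ∑ n ∈ Z.powerset.filter (fun n => nr n ≤ y), Real.exp (Li n) / nr n ≤ C * Real.log y := by
  obtain ⟨C1, hC1, h1⟩ := sm_e K
  obtain ⟨C2, hC2, h2⟩ := lg_up D
  refine ⟨C1 * Real.exp C2, ?_, fun Z y hy hZ => ?_⟩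
  · have : 1 ≤ Real.exp C2 := Real.one_le_exp hC2.le
    nlinarith
  have hy1 : 1 < y := by linarith
  have hlog : 0 < Real.log y := Real.log_pos hy1
  have hsub : Z.powerset.filter (fun n => nr n ≤ y) ⊆
      (Z.filter fun v => (nm v : ℝ) ≤ y).powerset := by
    intro n hn
    rw [Finset.mem_filter, Finset.mem_powerset] at hn
    rw [Finset.mem_powerset]
    intro v hv
    rw [Finset.mem_filter]
    exact ⟨hn.1 hv, (sml_le_nr hv).trans hn.2⟩
  have hsub2 : (Z.filter fun v => (nm v : ℝ) ≤ y) ⊆ gdY D y := by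
    intro v hv
    rw [Finset.mem_filter] at hv
    exact chr_mem.2 ⟨hv.2, hZ v hv.1⟩
  calc ∑ n ∈ Z.powerset.filter (fun n => nr n ≤ y), Real.exp (Li n) / nr n ≤
        ∑ n ∈ (Z.filter fun v => (nm v : ℝ) ≤ y).powerset, Real.exp (Li n) / nr n :=
        Finset.sum_le_sum_of_subset_of_nonneg hsub fun n _ _ =>
          div_nonneg (Real.exp_pos _).le (sml_nr_pos n).le
    _ ≤ C1 * Real.exp (Li (Z.filter fun v => (nm v : ℝ) ≤ y)) := h1 _
    _ ≤ C1 * Real.exp (Real.log (Real.log y) + C2) :=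
        mul_le_mul_of_nonneg_left (Real.exp_le_exp.2 ((Li_mono hsub2).trans (h2 y hy)))
          (by linarith)
    _ = C1 * Real.exp C2 * Real.log y := by
        rw [Real.exp_add, Real.exp_log hlog]
        ring

theorem sm_nr (D : RD0 K p ζ) : ∃ C : ℝ, 1 ≤ C ∧ ∀ (Z : Finset (Pl K)) (y : ℝ), 3 ≤ y →
    (∀ v ∈ Z, D.Gd v) →
    ∑ n ∈ Z.powerset.filter (fun n => nr n ≤ y), 1 / nr n ≤ C * Real.log y := by
  obtain ⟨C, hC, h⟩ := sm_small D
  refine ⟨C, hC, fun Z y hy hZ => (Finset.sum_le_sum fun n _ => ?_).trans (h Z y hy hZ)⟩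
  exact div_le_div_of_nonneg_right (Real.one_le_exp (Li_nonneg n)) (sml_nr_pos n).le

theorem sm_up (D : RD0 K p ζ) : ∃ C : ℝ, 1 ≤ C ∧
    ∀ (𝒦 : Submodule (ZMod p) (Fin D.r → ZMod p)) (w z : ℝ), 3 ≤ z →
      Real.exp (LY D 𝒦 w z) ≤ C * Real.log z := by
  obtain ⟨C2, hC2, h2⟩ := lg_up D
  refine ⟨Real.exp C2, Real.one_le_exp hC2.le, fun 𝒦 w z hz => ?_⟩
  have hlog : 0 < Real.log z := Real.log_pos (by linarith)
  have h3 : LY D 𝒦 w z ≤ Real.log (Real.log z) + C2 :=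
    (Li_mono (Finset.filter_subset _ _)).trans (h2 z hz)
  calc Real.exp (LY D 𝒦 w z) ≤ Real.exp (Real.log (Real.log z) + C2) := Real.exp_le_exp.2 h3
    _ = Real.exp C2 * Real.log z := by
        rw [Real.exp_add, Real.exp_log hlog]
        ring

end H83.LW
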