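import Pool.Agent.H83.LW.UPD
import Pool.Agent.H83.LW.SML
import Pool.Agent.H83.LW.PRD
import Pool.Agent.H83.LW.EUY
import Pool.Agent.H63.MA.APh

/-!
# [H83 LW BLKB] a large variable linked to a nonempty small variable (150-220 lines)

`Z = ZY D 𝒦 w z`. Choose `a ∈ S`, `a' ∈ S' ∖ S` with `lk a a' ≠ 0`. `upd1` at `a` (`x₀ = ∅`): fix the components `g l`, `l ≠ a` (pairwise
disjoint, `y < nr (g l)` iff `l ∈ S`, `g l ≠ ∅` iff `l ∈ S'`), let `F = ⋃_{l ≠ a} g l`, and sum over `n = g a ⊆ Z ∖ F` with `y < nr n`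
(then `n ≠ ∅` automatically, `a ∈ S'`).
Phase: `ph_one` (`MA/APh`, with `E = ∅`, `BSup D b ∅`): there are `c`, `κ'` with `ph (update g a n) = c + ∑_{v ∈ n} (0 + ∑_{l ≠ a} lk a l
∑_{w ∈ g l} LL w (pi v) + dt κ' (q v))`; with the class characters `phc (update g a n) = c' + ∑_{v ∈ n} (… + dt (κ' + κ a) (q v))`.
Let `E = ⋃_{l ≠ a, lk a l ≠ 0} g l`, `μ w = lk a l` for `w ∈ g l` (unique `l`): the inner function is `fE D E μ (κ' + κ a) v`. All
`l` with `lk a l ≠ 0` are outside `S` (`S` is unlinked), so their `nr (g l) ≤ y` and `nr E ≤ y^{#J}`; `E ≠ ∅` contains a `v ∈ g a'`,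
`μ v = lk a a' ≠ 0`; `E` consists of good primes.
Sum over all `n ⊆ Z ∖ F`: `prd_sum` with `f v = ep(fE D E μ κ'' v)`: absolute value `≤ C exp(∑_{v ∈ Z ∖ F} Re f v / nm v)`, and
`∑_{v ∈ Z ∖ F} ≤ ∑_{v ∈ Z ∖ E} + Li F` (`E ⊆ F`, `|Re f v| ≤ 1`), where `∑_{v ∈ Z ∖ E} Re f v / nm v ≤ η' log (nr E) + C ≤
η' #J log y + C` by `euy` with `η' = η / (#J + 1)`. The `n` with `nr n ≤ y` contribute at most `C log y` (`sm_nr`; `Z` consists of good
primes). Together (note `1 ≤ y^η`, `1 ≤ log y`, `1 ≤ exp(Li F)`): the inner sum is at most `C y^η (log y) exp(Li F)`.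
Sum over the other components of `∏_{l ≠ a} (1 / nr (g l))` times this, `exp(Li F) ≤ ∏_{l ≠ a} exp(Li (g l))`: by `upd_prod` at most
`∏_{l ∈ S, l ≠ a} (∑_{n ⊆ Z} exp(Li n) / nr n) ∏_{l ∉ S} (∑_{n ⊆ Z, nr n ≤ y} exp(Li n) / nr n)`, and `sm_e`: `≤ C exp(LY)`, `sm_small`:
`≤ C log y`. Total `C y^η (log y)^{1 + #J - #S} exp((#S - 1) LY)`, `1 + #J - #S ≤ #J`, `log y ≥ 1`.
-/

set_option autoImplicit false

open scoped NumberField
open IsDedekindDomain
open scoped Classical

noncomputable section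

namespace H83.LW

open H63.MA H38.BB

variable {K : Type} [Field K] [NumberField K] {p : ℕ} {ζ : K} {m : ℕ} {J : Type} [Fintype J]

private theorem bkb_nr0 (n : Finset (Pl K)) : 0 < nr n := lt_of_lt_of_le one_pos (one_le_nr n)

private theorem bkb_nr_empty : nr (∅ : Finset (Pl K)) = 1 := by
  unfold nr
  exact Finset.prod_empty

private theorem bkb_log {z : ℝ} (hz : 3 ≤ z) : 1 ≤ Real.log z := by
  rw [Real.le_log_iff_exp_le (by linarith)]
  linarith [Real.exp_one_lt_d9]

private theorem bkb_wg0 (g : J → Finset (Pl K)) : 0 ≤ wg g :=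
  Finset.prod_nonneg fun a _ => one_div_nonneg.2 (bkb_nr0 (g a)).le

private theorem bkb_wg_upd (g : J → Finset (Pl K)) (a : J) (ha : g a = ∅) (n : Finset (Pl K)) :
    wg (Function.update g a n) = 1 / nr n * wg g := by
  unfold wg
  rw [← Finset.mul_prod_erase Finset.univ (fun l => 1 / nr (Function.update g a n l))
    (Finset.mem_univ a), ← Finset.mul_prod_erase Finset.univ (fun l => 1 / nr (g l))
    (Finset.mem_univ a)]
  have h1 : ∀ l ∈ Finset.univ.erase a, 1 / nr (Function.update g a n l) = 1 / nr (g l) :=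
    fun l hl => by rw [Function.update_of_ne (Finset.ne_of_mem_erase hl)]
  rw [Finset.prod_congr rfl h1, Function.update_self, ha, bkb_nr_empty]
  ring

private theorem bkb_mu {X : Type} (g : J → Finset X) (a : J) (c : J → ZMod p) (x : X → ZMod p) :
    ∑ w ∈ (Finset.univ.filter fun l => c l ≠ 0).biUnion g,
        (∑ l ∈ Finset.univ.erase a, if w ∈ g l then c l else 0) * x w =
      ∑ l ∈ Finset.univ.erase a, c l * ∑ w ∈ g l, x w := by
  obtain ⟨E, hE⟩ : ∃ E, E = (Finset.univ.filter fun l => c l ≠ 0).biUnion g := ⟨_, rfl⟩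
  rw [← hE]
  have h1 : ∀ w ∈ E, (∑ l ∈ Finset.univ.erase a, if w ∈ g l then c l else 0) * x w =
      ∑ l ∈ Finset.univ.erase a, if w ∈ g l then c l * x w else 0 := fun w _ => by
    rw [Finset.sum_mul]
    refine Finset.sum_congr rfl fun l _ => ?_
    by_cases hw : w ∈ g l
    · rw [if_pos hw, if_pos hw]
    · rw [if_neg hw, if_neg hw, zero_mul]
  rw [Finset.sum_congr rfl h1, Finset.sum_comm]
  refine Finset.sum_congr rfl fun l _ => ?_
  by_cases hcl : c l = 0
  · rw [hcl, zero_mul]
    refine Finset.sum_eq_zero fun w _ => ?_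
    rw [zero_mul, ite_self]
  · rw [← Finset.sum_filter]
    have : E.filter (fun w => w ∈ g l) = g l := by
      rw [Finset.filter_mem_eq_inter, Finset.inter_eq_right, hE]
      exact Finset.subset_biUnion_of_mem g (Finset.mem_filter.2 ⟨Finset.mem_univ _, hcl⟩)
    rw [this, Finset.mul_sum]

private theorem bkb_dt (D : RD0 K p ζ) (θ : Fin D.r → ZMod p) (n : Finset (Pl K)) :
    dt θ (qf D n) = ∑ v ∈ n, dt θ (D.q v) := by
  unfold dt qf
  rw [Finset.sum_comm]
  refine Finset.sum_congr rfl fun k _ => ?_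
  rw [Finset.sum_apply, Finset.mul_sum]

/-- the phase as a function of one variable -/
private theorem bkb_phase (hp : p.Prime) (hζ : IsPrimitiveRoot ζ p) (D : RD K p ζ) (P : PD p m J)
    (b : Fin m → Kˣ) (κ : J → Fin D.r → ZMod p) (hb : BSup D.toRD0 b ∅) (a : J)
    (g : J → Finset (Pl K)) (hg : Adm D.toRD0 g) :
    ∃ (c : ZMod p) (κ' : Fin D.r → ZMod p), ∀ n, Adm D.toRD0 (Function.update g a n) →
      phc D.toRD0 P b κ (Function.update g a n) = c + ∑ v ∈ n,
        fE D.toRD0 ((Finset.univ.filter fun l => P.lk a l ≠ 0).biUnion g)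
          (fun w => ∑ l ∈ Finset.univ.erase a, if w ∈ g l then P.lk a l else 0) κ' v := by
  obtain ⟨c, κ', h⟩ := ph_one hp hζ D P b ∅ hb g hg a
  refine ⟨c + ∑ l ∈ Finset.univ.erase a, dt (κ l) (qf D.toRD0 (g l)), κ' + κ a, fun n hn => ?_⟩
  unfold phc
  rw [h n hn, ← Finset.add_sum_erase Finset.univ
    (fun l => dt (κ l) (qf D.toRD0 (Function.update g a n l))) (Finset.mem_univ a)]
  have h1 : ∀ l ∈ Finset.univ.erase a, dt (κ l) (qf D.toRD0 (Function.update g a n l)) =
      dt (κ l) (qf D.toRD0 (g l)) :=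
    fun l hl => by rw [Function.update_of_ne (Finset.ne_of_mem_erase hl)]
  rw [Finset.sum_congr rfl h1, Function.update_self, bkb_dt]
  have h2 : ∀ v ∈ n, fE D.toRD0 ((Finset.univ.filter fun l => P.lk a l ≠ 0).biUnion g)
      (fun w => ∑ l ∈ Finset.univ.erase a, if w ∈ g l then P.lk a l else 0) (κ' + κ a) v =
      (∑ w ∈ (∅ : Finset (Pl K)), D.lam w * dord b (P.θ a) w * D.LL w (D.pi v) +
            ∑ l ∈ Finset.univ.erase a, P.lk a l * ∑ w ∈ g l, D.LL w (D.pi v) +
          dt κ' (D.q v)) + dt (κ a) (D.q v) := by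
    intro v _
    unfold fE
    rw [bkb_mu g a (fun l => P.lk a l) (fun w => D.LL w (D.pi v)), euy_dt, Finset.sum_empty]
    ring
  rw [Finset.sum_congr rfl h2, Finset.sum_add_distrib
    (f := fun v => (∑ w ∈ (∅ : Finset (Pl K)), D.lam w * dord b (P.θ a) w * D.LL w (D.pi v) +
      ∑ l ∈ Finset.univ.erase a, P.lk a l * ∑ w ∈ g l, D.LL w (D.pi v) + dt κ' (D.q v)))
    (g := fun v => dt (κ a) (D.q v))]
  ring

private theorem bkb_dj (g : J → Finset (Pl K)) (a : J) (ha : g a = ∅) (hg : Dj g)
    (n : Finset (Pl K)) : Dj (Function.update g a n) ↔ Disjoint n (Finset.univ.biUnion g) := by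
  rw [Finset.disjoint_biUnion_right]
  constructor
  · intro h l _
    by_cases hl : l = a
    · subst hl
      rw [ha]
      exact Finset.disjoint_empty_right _
    · have := h a l (fun h => hl h.symm)
      rwa [Function.update_self, Function.update_of_ne hl] at this
  · intro h l l' hll
    by_cases hl : l = a
    · subst hl
      rw [Function.update_self, Function.update_of_ne (fun h => hll h.symm)]
      exact h l' (Finset.mem_univ _)
    · by_cases hl' : l' = a
      · subst hl'
        rw [Function.update_self, Function.update_of_ne hl]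
        exact (h l (Finset.mem_univ _)).symm
      · rw [Function.update_of_ne hl, Function.update_of_ne hl']
        exact hg l l' hll

private theorem bkb_Li (g : J → Finset (Pl K)) (hg : Dj g) :
    Li (Finset.univ.biUnion g) = ∑ l, Li (g l) := by
  unfold Li
  exact Finset.sum_biUnion fun l _ l' _ h => hg l l' h

private theorem bkb_nrE (g : J → Finset (Pl K)) (hg : Dj g) (s : Finset J) (y : ℝ) (hy : 3 ≤ y)
    (h : ∀ l ∈ s, nr (g l) ≤ y) :
    Real.log (nr (s.biUnion g)) ≤ Fintype.card J * Real.log y := by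
  have h1 : nr (s.biUnion g) = ∏ l ∈ s, nr (g l) := by
    unfold nr
    exact Finset.prod_biUnion fun l _ l' _ h => hg l l' h
  have h2 : nr (s.biUnion g) ≤ y ^ Fintype.card J := by
    rw [h1]
    calc ∏ l ∈ s, nr (g l) ≤ ∏ _l ∈ s, y :=
          Finset.prod_le_prod (fun l _ => (bkb_nr0 _).le) h
      _ = y ^ s.card := Finset.prod_const _
      _ ≤ y ^ Fintype.card J := pow_le_pow_right₀ (by linarith) (Finset.card_le_univ _)
  rw [← Real.log_pow]
  exact Real.log_le_log (bkb_nr0 _) h2

/-- the sum over one variable, the others being fixed -/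
private theorem bkb_inner (hp : p.Prime) (hζ : IsPrimitiveRoot ζ p) (D : RD K p ζ) (P : PD p m J)
    (𝒦 : Submodule (ZMod p) (Fin D.r → ZMod p)) (w η : ℝ) (hη : 0 < η) :
    ∃ C : ℝ, 0 < C ∧ ∀ y z : ℝ, 3 ≤ y → 3 ≤ z →
      ∀ (b : Fin m → Kˣ) (κ : J → Fin D.r → ZMod p), BSup D.toRD0 b ∅ →
      ∀ (a : J) (g : J → Finset (Pl K)), g a = ∅ → (∀ l, g l ⊆ ZY D.toRD0 𝒦 w z) → Dj g →
        (∀ l, P.lk a l ≠ 0 → nr (g l) ≤ y) → (∃ l, P.lk a l ≠ 0 ∧ g l ≠ ∅) →
        ‖∑ n ∈ (ZY D.toRD0 𝒦 w z).powerset,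
          if Dj (Function.update g a n) ∧ y < nr n then
            ((wg (Function.update g a n) : ℝ) : ℂ) *
              ep p (phc D.toRD0 P b κ (Function.update g a n)) else 0‖ ≤
          C * y ^ η * Real.log y * ∏ l, (Real.exp (Li (g l)) / nr (g l)) := by
  obtain ⟨C1, hC1, h1⟩ := prd_sum K
  obtain ⟨C2, hC2, h2⟩ := euy hp hζ D 𝒦 w (η / (Fintype.card J + 1)) (by positivity)
  obtain ⟨C3, hC3, h3⟩ := sm_nr D.toRD0
  refine ⟨C1 * Real.exp C2 + C3, by positivity, fun y z hy hz b κ hb a g hga hgZ hgD hgy hgl => ?_⟩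
  have hly := bkb_log hy
  obtain ⟨Z, hZ⟩ : ∃ Z, Z = ZY D.toRD0 𝒦 w z := ⟨_, rfl⟩
  rw [← hZ] at hgZ ⊢
  have hZg : ∀ v ∈ Z, D.Gd v := fun v hv => by
    rw [hZ, mem_ZY] at hv
    exact hv.2.1
  have hgood : ∀ l, ∀ v ∈ g l, D.Gd v := fun l v hv => hZg v (hgZ l hv)
  obtain ⟨c, κ', hph⟩ := bkb_phase hp hζ D P b κ hb a g ⟨hgood, hgD⟩
  obtain ⟨E, hE⟩ : ∃ E, E = (Finset.univ.filter fun l => P.lk a l ≠ 0).biUnion g := ⟨_, rfl⟩
  obtain ⟨μ, hμ⟩ : ∃ μ : Pl K → ZMod p, μ = fun w => ∑ l ∈ Finset.univ.erase a,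
    if w ∈ g l then P.lk a l else 0 := ⟨_, rfl⟩
  obtain ⟨Fs, hFs⟩ : ∃ Fs, Fs = Finset.univ.biUnion g := ⟨_, rfl⟩
  rw [← hE, ← hμ] at hph
  obtain ⟨f, hf⟩ : ∃ f : Pl K → ℂ, f = fun v => ep p (fE D.toRD0 E μ κ' v) := ⟨_, rfl⟩
  have hf1 : ∀ v, ‖f v‖ ≤ 1 := fun v => by
    rw [hf]
    exact (ep_norm p _).le
  have hEF : E ⊆ Fs := by
    rw [hE, hFs]
    exact Finset.biUnion_subset_biUnion_of_subset_left _ (Finset.filter_subset _ _)
  -- the sum
  have hsum : ∑ n ∈ Z.powerset, (if Dj (Function.update g a n) ∧ y < nr n then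
        ((wg (Function.update g a n) : ℝ) : ℂ) *
          ep p (phc D.toRD0 P b κ (Function.update g a n)) else 0) =
      ((wg g : ℝ) : ℂ) * ep p c * ∑ n ∈ (Z \ Fs).powerset.filter (fun n => y < nr n),
        ((1 / nr n : ℝ) : ℂ) * ∏ v ∈ n, f v := by
    rw [← Finset.sum_filter]
    have e1 : Z.powerset.filter (fun n => Dj (Function.update g a n) ∧ y < nr n) =
        (Z \ Fs).powerset.filter (fun n => y < nr n) := by
      ext n
      rw [Finset.mem_filter, Finset.mem_filter, Finset.mem_powerset, Finset.mem_powerset,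
        Finset.subset_sdiff, bkb_dj g a hga hgD n, ← hFs, and_assoc]
    rw [e1, Finset.mul_sum]
    refine Finset.sum_congr rfl fun n hn => ?_
    rw [Finset.mem_filter, Finset.mem_powerset, Finset.subset_sdiff] at hn
    have hDj : Dj (Function.update g a n) := by
      rw [bkb_dj g a hga hgD n, ← hFs]
      exact hn.1.2
    have hAdm : Adm D.toRD0 (Function.update g a n) := by
      refine ⟨fun l v hv => ?_, hDj⟩
      by_cases hl : l = a
      · subst hl
        rw [Function.update_self] at hv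
        exact hZg v (hn.1.1 hv)
      · rw [Function.update_of_ne hl] at hv
        exact hgood l v hv
    rw [hph n hAdm, bkb_wg_upd g a hga n, ep_add hp, aexp_ep_sum hp, hf]
    push_cast
    ring
  rw [hsum, norm_mul, norm_mul, ep_norm, mul_one, Complex.norm_real, Real.norm_eq_abs,
    abs_of_nonneg (bkb_wg0 g)]
  -- the bound
  have hsplit : ∑ n ∈ (Z \ Fs).powerset.filter (fun n => y < nr n),
        ((1 / nr n : ℝ) : ℂ) * ∏ v ∈ n, f v =
      ∑ n ∈ (Z \ Fs).powerset, ((1 / nr n : ℝ) : ℂ) * ∏ v ∈ n, f v -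
        ∑ n ∈ (Z \ Fs).powerset.filter (fun n => nr n ≤ y),
          ((1 / nr n : ℝ) : ℂ) * ∏ v ∈ n, f v := by
    rw [eq_sub_iff_add_eq, ← Finset.sum_filter_add_sum_filter_not (Z \ Fs).powerset
      (fun n => y < nr n)]
    congr 1
    refine Finset.sum_congr (Finset.filter_congr fun n _ => ?_) fun _ _ => rfl
    rw [not_lt]
  have hsmall : ‖∑ n ∈ (Z \ Fs).powerset.filter (fun n => nr n ≤ y),
      ((1 / nr n : ℝ) : ℂ) * ∏ v ∈ n, f v‖ ≤ C3 * Real.log y := by
    refine (norm_sum_le _ _).trans (le_trans (Finset.sum_le_sum fun n _ => ?_)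
      (h3 (Z \ Fs) y hy fun v hv => hZg v (Finset.mem_sdiff.1 hv).1))
    rw [norm_mul, Complex.norm_real, Real.norm_eq_abs,
      abs_of_nonneg (one_div_nonneg.2 (bkb_nr0 n).le), norm_prod]
    exact mul_le_of_le_one_right (one_div_nonneg.2 (bkb_nr0 n).le)
      (Finset.prod_le_one (fun v _ => norm_nonneg _) fun v _ => hf1 v)
  have hlogE : Real.log (nr E) ≤ Fintype.card J * Real.log y := by
    rw [hE]
    exact bkb_nrE g hgD _ y hy fun l hl => hgy l (Finset.mem_filter.1 hl).2
  have hES : ∀ v ∈ E, v ∉ D.S0 := fun v hv => by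
    rw [hE, Finset.mem_biUnion] at hv
    obtain ⟨l, -, hl⟩ := hv
    exact (hgood l v hl).1
  have hEμ : ∃ v ∈ E, μ v ≠ 0 := by
    obtain ⟨l, hl, hne⟩ := hgl
    obtain ⟨v, hv⟩ := Finset.nonempty_iff_ne_empty.2 hne
    have hla : l ≠ a := fun h => hne (by rw [h, hga])
    refine ⟨v, ?_, ?_⟩
    · rw [hE, Finset.mem_biUnion]
      exact ⟨l, Finset.mem_filter.2 ⟨Finset.mem_univ _, hl⟩, hv⟩
    · have : μ v = P.lk a l := by
        rw [hμ]
        show ∑ l' ∈ Finset.univ.erase a, (if v ∈ g l' then P.lk a l' else 0) = _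
        rw [Finset.sum_eq_single l]
        · rw [if_pos hv]
        · intro l' _ hl'
          rw [if_neg]
          intro hv'
          exact (Finset.disjoint_left.1 (hgD l' l hl')) hv' hv
        · intro h
          exact absurd (Finset.mem_erase.2 ⟨hla, Finset.mem_univ _⟩) h
      rw [this]
      exact hl
  have heuy := h2 z hz E μ κ' hES (Or.inl hEμ)
  rw [← hZ] at heuy
  have hre : ∀ v, -(1 / (nm v : ℝ)) ≤ (f v).re / nm v := fun v => by
    have h := hf1 v
    have h' := (abs_le.1 ((Complex.abs_re_le_norm (f v)).trans h)).1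
    rw [← neg_div]
    exact div_le_div_of_nonneg_right h' (Nat.cast_nonneg _)
  have hsub : ∑ v ∈ Z \ Fs, (f v).re / nm v ≤ ∑ v ∈ Z \ E, (f v).re / nm v + Li Fs := by
    have hss : Z \ Fs ⊆ Z \ E := Finset.sdiff_subset_sdiff (Finset.Subset.refl _) hEF
    have e := Finset.sum_sdiff (f := fun v => (f v).re / (nm v : ℝ)) hss
    have h5 : -Li Fs ≤ ∑ v ∈ (Z \ E) \ (Z \ Fs), (f v).re / nm v := by
      have h6 : ∑ v ∈ (Z \ E) \ (Z \ Fs), -(1 / (nm v : ℝ)) ≤
          ∑ v ∈ (Z \ E) \ (Z \ Fs), (f v).re / nm v := Finset.sum_le_sum fun v _ => hre v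
      have h7 : ∑ v ∈ (Z \ E) \ (Z \ Fs), 1 / (nm v : ℝ) ≤ Li Fs := by
        refine Finset.sum_le_sum_of_subset_of_nonneg ?_ fun v _ _ => by positivity
        intro v hv
        rw [Finset.mem_sdiff, Finset.mem_sdiff, Finset.mem_sdiff] at hv
        by_contra h
        exact hv.2 ⟨hv.1.1, h⟩
      rw [Finset.sum_neg_distrib] at h6
      linarith
    linarith
  have hexp : ∑ v ∈ Z \ Fs, (f v).re / nm v ≤ η * Real.log y + C2 + Li Fs := by
    have h5 : η / (Fintype.card J + 1) * Real.log (nr E) ≤ η * Real.log y := by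
      have h6 : η / (Fintype.card J + 1) * Real.log (nr E) ≤
          η / (Fintype.card J + 1) * (Fintype.card J * Real.log y) :=
        mul_le_mul_of_nonneg_left hlogE (by positivity)
      have h7 : η / (Fintype.card J + 1) * (Fintype.card J * Real.log y) ≤ η * Real.log y := by
        have h8 : η / ((Fintype.card J : ℝ) + 1) * (Fintype.card J * Real.log y) =
            η * Real.log y * (Fintype.card J / (Fintype.card J + 1)) := by
          field_simp
        rw [h8]
        refine mul_le_of_le_one_right (by positivity) ?_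
        rw [div_le_one (by positivity)]
        linarith
      exact h6.trans h7
    rw [hf] at hsub ⊢
    linarith
  have hfull : ‖∑ n ∈ (Z \ Fs).powerset, ((1 / nr n : ℝ) : ℂ) * ∏ v ∈ n, f v‖ ≤
      C1 * (y ^ η * Real.exp C2 * Real.exp (Li Fs)) := by
    refine (h1 (Z \ Fs) f hf1).trans (mul_le_mul_of_nonneg_left ?_ (by linarith))
    refine (Real.exp_le_exp.2 hexp).trans (le_of_eq ?_)
    rw [Real.exp_add, Real.exp_add, Real.rpow_def_of_pos (by linarith), mul_comm η]
  have hyη : 1 ≤ y ^ η := Real.one_le_rpow (by linarith) hη.le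
  have hLF : 1 ≤ Real.exp (Li Fs) := Real.one_le_exp (Li_nonneg _)
  have hprod : ∏ l, (Real.exp (Li (g l)) / nr (g l)) = wg g * Real.exp (Li Fs) := by
    rw [hFs, bkb_Li g hgD, Real.exp_sum]
    unfold wg
    rw [← Finset.prod_mul_distrib]
    exact Finset.prod_congr rfl fun l _ => by ring
  rw [hprod, hsplit]
  have hfin : ‖∑ n ∈ (Z \ Fs).powerset, ((1 / nr n : ℝ) : ℂ) * ∏ v ∈ n, f v -
        ∑ n ∈ (Z \ Fs).powerset.filter (fun n => nr n ≤ y),
          ((1 / nr n : ℝ) : ℂ) * ∏ v ∈ n, f v‖ ≤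
      (C1 * Real.exp C2 + C3) * y ^ η * Real.log y * Real.exp (Li Fs) := by
    refine (norm_sub_le _ _).trans ?_
    have h5 : C3 * Real.log y ≤ C3 * Real.log y * (y ^ η * Real.exp (Li Fs)) :=
      le_mul_of_one_le_right (by positivity) (one_le_mul_of_one_le_of_one_le hyη hLF)
    have h6 : C1 * (y ^ η * Real.exp C2 * Real.exp (Li Fs)) ≤
        C1 * (y ^ η * Real.exp C2 * Real.exp (Li Fs)) * Real.log y :=
      le_mul_of_one_le_right (by positivity) hly
    calc _ ≤ C1 * (y ^ η * Real.exp C2 * Real.exp (Li Fs)) * Real.log y +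
          C3 * Real.log y * (y ^ η * Real.exp (Li Fs)) := add_le_add (hfull.trans h6) (hsmall.trans h5)
      _ = _ := by ring
  calc wg g * _ ≤ wg g * ((C1 * Real.exp C2 + C3) * y ^ η * Real.log y * Real.exp (Li Fs)) :=
        mul_le_mul_of_nonneg_left hfin (bkb_wg0 g)
    _ = _ := by ring

theorem blkb (hp : p.Prime) (hζ : IsPrimitiveRoot ζ p) (D : RD K p ζ) (P : PD p m J)
    (𝒦 : Submodule (ZMod p) (Fin D.r → ZMod p)) (w η : ℝ) (hη : 0 < η) :
    ∃ C : ℝ, 0 < C ∧ ∀ y z : ℝ, 3 ≤ y → 3 ≤ z →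
      ∀ (b : Fin m → Kˣ) (κ : J → Fin D.r → ZMod p), BSup D.toRD0 b ∅ →
      ∀ S S' : Finset J, S ⊆ S' → (∀ a ∈ S, ∀ a' ∈ S, P.lk a a' = 0) →
        (∃ a ∈ S, ∃ a' ∈ S', a' ∉ S ∧ P.lk a a' ≠ 0) →
        ‖FS D.toRD0 P b κ (ZY D.toRD0 𝒦 w z) (fun g => Lgs y g = S ∧ spg g = S')‖ ≤
          C * y ^ η * Real.log y ^ Fintype.card J *
            Real.exp (((S.card : ℝ) - 1) * LY D.toRD0 𝒦 w z) := by
  obtain ⟨C1, hC1, h1⟩ := bkb_inner hp hζ D P 𝒦 w η hη
  obtain ⟨C2, hC2, h2⟩ := sm_e K
  obtain ⟨C3, hC3, h3⟩ := sm_small D.toRD0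
  refine ⟨C1 * (C2 * C3) ^ Fintype.card J, by positivity,
    fun y z hy hz b κ hb S S' hSS' hS hex => ?_⟩
  obtain ⟨a, haS, a', ha'S', ha'S, hlk⟩ := hex
  have hly := bkb_log hy
  obtain ⟨Z, hZ⟩ : ∃ Z, Z = ZY D.toRD0 𝒦 w z := ⟨_, rfl⟩
  have hZg : ∀ v ∈ Z, D.Gd v := fun v hv => by
    rw [hZ, mem_ZY] at hv
    exact hv.2.1
  have hLY : LY D.toRD0 𝒦 w z = Li Z := by
    rw [hZ]
    rfl
  rw [← hZ, hLY]
  have haa' : a' ≠ a := fun h => ha'S (h ▸ haS)
  obtain ⟨Cn, hCn⟩ : ∃ Cn : (J → Finset (Pl K)) → Prop, Cn = fun g => Lgs y g = S ∧ spg g = S' :=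
    ⟨_, rfl⟩
  have hCn' : ∀ g, Cn g ↔ (Lgs y g = S ∧ spg g = S') := fun g => by rw [hCn]
  rw [← hCn]
  unfold FS
  rw [upd1 a (fun _ => Z.powerset) ∅]
  have hterm : ∀ g ∈ Fintype.piFinset (fun l : J => if l = a then {∅} else Z.powerset),
      ‖∑ n ∈ Z.powerset, (if Dj (Function.update g a n) ∧ Cn (Function.update g a n) then
          ((wg (Function.update g a n) : ℝ) : ℂ) *
            ep p (phc D.toRD0 P b κ (Function.update g a n)) else 0)‖ ≤
        if ∀ l, l ∉ S → nr (g l) ≤ y then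
          C1 * y ^ η * Real.log y * ∏ l, (Real.exp (Li (g l)) / nr (g l)) else 0 := by
    intro g hg
    rw [Fintype.mem_piFinset] at hg
    have hga : g a = ∅ := by
      have := hg a
      rw [if_pos rfl, Finset.mem_singleton] at this
      exact this
    have hgZ : ∀ l, g l ⊆ Z := fun l => by
      by_cases hl : l = a
      · rw [hl, hga]
        exact Finset.empty_subset _
      · have := hg l
        rw [if_neg hl, Finset.mem_powerset] at this
        exact this
    by_cases hOK : Dj g ∧ (∀ l, l ≠ a → (y < nr (g l) ↔ l ∈ S)) ∧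
        (∀ l, l ≠ a → (g l ≠ ∅ ↔ l ∈ S'))
    · obtain ⟨hgD, hgS, hgS'⟩ := hOK
      have hsm : ∀ l, l ∉ S → nr (g l) ≤ y := fun l hl => by
        by_cases hla : l = a
        · exact absurd (hla ▸ haS) hl
        · exact not_lt.1 fun h => hl ((hgS l hla).1 h)
      rw [if_pos hsm]
      have e : ∀ n ∈ Z.powerset, (if Dj (Function.update g a n) ∧
          Cn (Function.update g a n) then
          ((wg (Function.update g a n) : ℝ) : ℂ) *
            ep p (phc D.toRD0 P b κ (Function.update g a n)) else 0) =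
          if Dj (Function.update g a n) ∧ y < nr n then
            ((wg (Function.update g a n) : ℝ) : ℂ) *
              ep p (phc D.toRD0 P b κ (Function.update g a n)) else 0 := by
        intro n _
        refine if_congr ?_ rfl rfl
        refine and_congr_right fun _ => ?_
        rw [hCn']
        constructor
        · rintro ⟨hL, -⟩
          have : a ∈ Lgs y (Function.update g a n) := hL ▸ haS
          unfold Lgs at this
          rw [Finset.mem_filter, Function.update_self] at this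
          exact this.2
        · intro hn
          constructor
          · ext l
            unfold Lgs
            rw [Finset.mem_filter]
            by_cases hl : l = a
            · subst hl
              rw [Function.update_self]
              exact ⟨fun _ => haS, fun _ => ⟨Finset.mem_univ _, hn⟩⟩
            · rw [Function.update_of_ne hl, hgS l hl]
              exact ⟨fun h => h.2, fun h => ⟨Finset.mem_univ _, h⟩⟩
          · ext l
            unfold spg
            rw [Finset.mem_filter]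
            by_cases hl : l = a
            · subst hl
              rw [Function.update_self]
              refine ⟨fun _ => hSS' haS, fun _ => ⟨Finset.mem_univ _, fun h0 => ?_⟩⟩
              rw [h0, bkb_nr_empty] at hn
              linarith
            · rw [Function.update_of_ne hl, hgS' l hl]
              exact ⟨fun h => h.2, fun h => ⟨Finset.mem_univ _, h⟩⟩
      rw [Finset.sum_congr rfl e, hZ]
      rw [hZ] at hgZ
      refine h1 y z hy hz b κ hb a g hga hgZ hgD (fun l hl => hsm l fun hlS => hl (hS a haS l hlS))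
        ⟨a', hlk, (hgS' a' haa').2 ha'S'⟩
    · have e : ∀ n ∈ Z.powerset, (if Dj (Function.update g a n) ∧
          Cn (Function.update g a n) then
          ((wg (Function.update g a n) : ℝ) : ℂ) *
            ep p (phc D.toRD0 P b κ (Function.update g a n)) else 0) = 0 := by
        intro n _
        rw [if_neg]
        rintro ⟨hD, hC⟩
        obtain ⟨hL, hs⟩ := (hCn' _).1 hC
        refine hOK ⟨?_, ?_, ?_⟩
        · intro l l' hll
          by_cases hl : l = a
          · rw [hl, hga]
            exact Finset.disjoint_empty_left _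
          · by_cases hl' : l' = a
            · rw [hl', hga]
              exact Finset.disjoint_empty_right _
            · have := hD l l' hll
              rwa [Function.update_of_ne hl, Function.update_of_ne hl'] at this
        · intro l hl
          rw [← hL]
          unfold Lgs
          rw [Finset.mem_filter, Function.update_of_ne hl]
          exact ⟨fun h => ⟨Finset.mem_univ _, h⟩, fun h => h.2⟩
        · intro l hl
          rw [← hs]
          unfold spg
          rw [Finset.mem_filter, Function.update_of_ne hl]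
          exact ⟨fun h => ⟨Finset.mem_univ _, h⟩, fun h => h.2⟩
      rw [Finset.sum_eq_zero e, norm_zero]
      split_ifs
      · exact mul_nonneg (by positivity) (Finset.prod_nonneg fun l _ =>
          div_nonneg (Real.exp_pos _).le (bkb_nr0 _).le)
      · exact le_refl _
  refine (norm_sum_le _ _).trans ((Finset.sum_le_sum hterm).trans ?_)
  have h4 : (∑ g ∈ Fintype.piFinset (fun l : J => if l = a then {∅} else Z.powerset),
      if ∀ l, l ∉ S → nr (g l) ≤ y then
          C1 * y ^ η * Real.log y * ∏ l, (Real.exp (Li (g l)) / nr (g l)) else 0) ≤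
      ∑ g ∈ Fintype.piFinset (fun l : J => if l = a then {∅} else
          if l ∈ S then Z.powerset else Z.powerset.filter (fun n => nr n ≤ y)),
        C1 * y ^ η * Real.log y * ∏ l, (Real.exp (Li (g l)) / nr (g l)) := by
    rw [← Finset.sum_filter]
    refine Finset.sum_le_sum_of_subset_of_nonneg ?_ fun g _ _ =>
      mul_nonneg (by positivity) (Finset.prod_nonneg fun l _ =>
          div_nonneg (Real.exp_pos _).le (bkb_nr0 _).le)
    intro g hg
    rw [Finset.mem_filter, Fintype.mem_piFinset] at hg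
    rw [Fintype.mem_piFinset]
    intro l
    have h5 := hg.1 l
    by_cases hl : l = a
    · rw [if_pos hl] at h5 ⊢
      exact h5
    · rw [if_neg hl] at h5 ⊢
      by_cases hlS : l ∈ S
      · rw [if_pos hlS]
        exact h5
      · rw [if_neg hlS, Finset.mem_filter]
        exact ⟨h5, hg.2 l hlS⟩
  refine h4.trans ?_
  rw [← Finset.mul_sum]
  have h5 : ∑ g ∈ Fintype.piFinset (fun l : J => if l = a then {∅} else
          if l ∈ S then Z.powerset else Z.powerset.filter (fun n => nr n ≤ y)),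
        ∏ l, (Real.exp (Li (g l)) / nr (g l)) =
      ∏ l : J, ∑ n ∈ (if l = a then {∅} else
          if l ∈ S then Z.powerset else Z.powerset.filter (fun n => nr n ≤ y)),
        Real.exp (Li n) / nr n :=
    upd_prod (fun l : J => if l = a then {∅} else
          if l ∈ S then Z.powerset else Z.powerset.filter (fun n => nr n ≤ y))
      (fun _ n => Real.exp (Li n) / nr n)
  have h6 : ∏ l : J, ∑ n ∈ (if l = a then {∅} else
          if l ∈ S then Z.powerset else Z.powerset.filter (fun n => nr n ≤ y)),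
        Real.exp (Li n) / nr n ≤
      ∏ l : J, (C2 * C3) * (if l = a then 1 else if l ∈ S then Real.exp (Li Z) else
        Real.log y) := by
    have hCC : 1 ≤ C2 * C3 := one_le_mul_of_one_le_of_one_le hC2 hC3
    refine Finset.prod_le_prod (fun l _ => Finset.sum_nonneg fun n _ =>
      div_nonneg (Real.exp_pos _).le (bkb_nr0 _).le) fun l _ => ?_
    by_cases hl : l = a
    · rw [if_pos hl, if_pos hl, Finset.sum_singleton, bkb_nr_empty]
      have : Li (∅ : Finset (Pl K)) = 0 := Finset.sum_empty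
      rw [this, Real.exp_zero]
      linarith
    · rw [if_neg hl, if_neg hl]
      by_cases hlS : l ∈ S
      · rw [if_pos hlS, if_pos hlS]
        refine (h2 Z).trans (mul_le_mul_of_nonneg_right ?_ (Real.exp_pos _).le)
        exact le_mul_of_one_le_right (by linarith) hC3
      · rw [if_neg hlS, if_neg hlS]
        refine (h3 Z y hy hZg).trans (mul_le_mul_of_nonneg_right ?_ (by linarith))
        exact le_mul_of_one_le_left (by linarith) hC2
  have h7 : Real.log y * ∏ l : J, (if l = a then 1 else if l ∈ S then Real.exp (Li Z) else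
        Real.log y) = ∏ l : J, (if l ∈ S.erase a then Real.exp (Li Z) else Real.log y) := by
    rw [← Finset.mul_prod_erase Finset.univ (fun l : J => if l = a then 1 else
        if l ∈ S then Real.exp (Li Z) else Real.log y) (Finset.mem_univ a),
      ← Finset.mul_prod_erase Finset.univ (fun l : J => if l ∈ S.erase a then
        Real.exp (Li Z) else Real.log y) (Finset.mem_univ a), if_pos rfl,
      if_neg (Finset.notMem_erase a S), one_mul]
    congr 1
    refine Finset.prod_congr rfl fun l hl => ?_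
    have hla := Finset.ne_of_mem_erase hl
    rw [if_neg hla]
    refine if_congr ?_ rfl rfl
    rw [Finset.mem_erase]
    exact ⟨fun h => ⟨hla, h⟩, fun h => h.2⟩
  have h8 : ∏ l : J, (if l ∈ S.erase a then Real.exp (Li Z) else Real.log y) ≤
      Real.exp (((S.card : ℝ) - 1) * Li Z) * Real.log y ^ Fintype.card J := by
    rw [Finset.prod_ite, Finset.prod_const, Finset.prod_const, Finset.filter_mem_eq_inter,
      Finset.univ_inter]
    have h9 : ((S.card : ℝ) - 1) = ((S.erase a).card : ℝ) := by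
      rw [← Finset.card_erase_add_one haS]
      push_cast
      ring
    rw [h9, Real.exp_nat_mul]
    refine mul_le_mul_of_nonneg_left ?_ (by positivity)
    exact pow_le_pow_right₀ hly (Finset.card_le_univ _)
  rw [h5]
  have h10 : ∏ l : J, (C2 * C3) * (if l = a then 1 else if l ∈ S then Real.exp (Li Z) else
        Real.log y) = (C2 * C3) ^ Fintype.card J *
      ∏ l : J, (if l = a then 1 else if l ∈ S then Real.exp (Li Z) else Real.log y) := by
    rw [Finset.prod_mul_distrib, Finset.prod_const, Finset.card_univ]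
  calc C1 * y ^ η * Real.log y * _ ≤ C1 * y ^ η * Real.log y * _ :=
        mul_le_mul_of_nonneg_left h6 (by positivity)
    _ = C1 * y ^ η * (C2 * C3) ^ Fintype.card J * (Real.log y *
          ∏ l : J, (if l = a then 1 else if l ∈ S then Real.exp (Li Z) else Real.log y)) := by
      rw [h10]
      ring
    _ ≤ C1 * y ^ η * (C2 * C3) ^ Fintype.card J *
          (Real.exp (((S.card : ℝ) - 1) * Li Z) * Real.log y ^ Fintype.card J) := by
      rw [h7]
      exact mul_le_mul_of_nonneg_left h8 (by positivity)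
    _ = _ := by ring

end H83.LW
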