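import Pool.Agent.H83.LW.UPD
import Pool.Agent.H83.LW.SML

/-!
# [H83 LW BLKC] the trivial bound (50-90 lines)

`‖ep‖ = 1`, so the norm is at most the sum of `∏_a 1 / nr (g a)` over the families `g : J → Z.powerset` with
`nr (g a) ≤ y` for `a ∉ S`, which is (`upd_prod` with the set `Z.powerset` for `a ∈ S` and `Z.powerset.filter (nr · ≤ y)` for `a ∉ S`)
`∏_{a ∈ S} (∑_{n ⊆ Z} 1 / nr n) ∏_{a ∉ S} (∑_{n ⊆ Z, nr n ≤ y} 1 / nr n) ≤ exp(Li Z)^{#S} (C log y)^{#J - #S}` (`sm_full`, `sm_nr`), and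
`1 ≤ C log y`.
-/

set_option autoImplicit false

open scoped NumberField
open IsDedekindDomain
open scoped Classical

noncomputable section

namespace H83.LW

open H63.MA H38.BB

variable {K : Type} [Field K] [NumberField K] {p : ℕ} {ζ : K} {m : ℕ} {J : Type} [Fintype J]

private theorem blkc_nr0 (n : Finset (Pl K)) : 0 < nr n := lt_of_lt_of_le one_pos (one_le_nr n)

private theorem blkc_wg0 (g : J → Finset (Pl K)) : 0 ≤ wg g :=
  Finset.prod_nonneg fun a _ => one_div_nonneg.2 (blkc_nr0 (g a)).le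

private theorem blkc_norm (D : RD0 K p ζ) (P : PD p m J) (b : Fin m → Kˣ)
    (κ : J → Fin D.r → ZMod p) (Z : Finset (Pl K)) (Cn : (J → Finset (Pl K)) → Prop) :
    ‖FS D P b κ Z Cn‖ ≤
      ∑ g ∈ (Fintype.piFinset (fun _ : J => Z.powerset)).filter Cn, wg g := by
  unfold FS
  rw [Finset.sum_filter]
  refine (norm_sum_le _ _).trans (Finset.sum_le_sum fun g _ => ?_)
  by_cases h : Cn g
  · rw [if_pos h]
    by_cases h' : Dj g
    · rw [if_pos ⟨h', h⟩, norm_mul, ep_norm, mul_one, Complex.norm_real, Real.norm_eq_abs,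
        abs_of_nonneg (blkc_wg0 g)]
    · rw [if_neg (fun h2 => h' h2.1), norm_zero]
      exact blkc_wg0 g
  · rw [if_neg (fun h2 => h h2.2), if_neg h, norm_zero]

private theorem blkc_log {z : ℝ} (hz : 3 ≤ z) : 1 ≤ Real.log z := by
  rw [Real.le_log_iff_exp_le (by linarith)]
  linarith [Real.exp_one_lt_d9]

theorem blkc (D : RD0 K p ζ) (P : PD p m J) : ∃ C : ℝ, 0 < C ∧
    ∀ (Z : Finset (Pl K)) (y : ℝ), (∀ v ∈ Z, D.Gd v) → 3 ≤ y →
      ∀ (b : Fin m → Kˣ) (κ : J → Fin D.r → ZMod p) (S : Finset J)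
        (Cn : (J → Finset (Pl K)) → Prop), (∀ g, Cn g → ∀ a, a ∉ S → nr (g a) ≤ y) →
        ‖FS D P b κ Z Cn‖ ≤
          C * Real.log y ^ Fintype.card J * Real.exp ((S.card : ℝ) * Li Z) := by
  obtain ⟨C, hC, h⟩ := sm_nr D
  refine ⟨C ^ Fintype.card J, by positivity, fun Z y hZ hy b κ S Cn hCn => ?_⟩
  have hl := blkc_log hy
  have hCl : 1 ≤ C * Real.log y := one_le_mul_of_one_le_of_one_le hC hl
  have h1 : ∑ g ∈ (Fintype.piFinset (fun _ : J => Z.powerset)).filter Cn, wg g ≤
      ∑ g ∈ Fintype.piFinset (fun a : J => if a ∈ S then Z.powerset else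
        Z.powerset.filter (fun n => nr n ≤ y)), wg g := by
    refine Finset.sum_le_sum_of_subset_of_nonneg ?_ fun g _ _ => blkc_wg0 g
    intro g hg
    rw [Finset.mem_filter, Fintype.mem_piFinset] at hg
    rw [Fintype.mem_piFinset]
    intro a
    by_cases ha : a ∈ S
    · rw [if_pos ha]
      exact hg.1 a
    · rw [if_neg ha, Finset.mem_filter]
      exact ⟨hg.1 a, hCn g hg.2 a ha⟩
  have h2 : ∑ g ∈ Fintype.piFinset (fun a : J => if a ∈ S then Z.powerset else
        Z.powerset.filter (fun n => nr n ≤ y)), wg g =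
      ∏ a : J, ∑ n ∈ (if a ∈ S then Z.powerset else Z.powerset.filter (fun n => nr n ≤ y)),
        1 / nr n :=
    upd_prod (fun a : J => if a ∈ S then Z.powerset else Z.powerset.filter (fun n => nr n ≤ y))
      (fun _ n => 1 / nr n)
  have h3 : ∏ a : J, ∑ n ∈ (if a ∈ S then Z.powerset else Z.powerset.filter (fun n => nr n ≤ y)),
        1 / nr n ≤ ∏ a : J, (if a ∈ S then Real.exp (Li Z) else C * Real.log y) := by
    refine Finset.prod_le_prod (fun a _ => Finset.sum_nonneg fun n _ =>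
      one_div_nonneg.2 (blkc_nr0 n).le) fun a _ => ?_
    by_cases ha : a ∈ S
    · rw [if_pos ha, if_pos ha]
      exact sm_full Z
    · rw [if_neg ha, if_neg ha]
      exact h Z y hy hZ
  have h4 : ∏ a : J, (if a ∈ S then Real.exp (Li Z) else C * Real.log y) =
      Real.exp (Li Z) ^ S.card *
        (C * Real.log y) ^ (Finset.univ.filter (fun a : J => a ∉ S)).card := by
    rw [Finset.prod_ite, Finset.prod_const, Finset.prod_const, Finset.filter_mem_eq_inter,
      Finset.univ_inter]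
  have h5 : (C * Real.log y) ^ (Finset.univ.filter (fun a : J => a ∉ S)).card ≤
      C ^ Fintype.card J * Real.log y ^ Fintype.card J := by
    rw [← mul_pow]
    exact pow_le_pow_right₀ hCl (Finset.card_le_univ _)
  calc ‖FS D P b κ Z Cn‖ ≤ _ := blkc_norm D P b κ Z Cn
    _ ≤ _ := h1
    _ = _ := h2
    _ ≤ _ := h3
    _ = _ := h4
    _ ≤ Real.exp (Li Z) ^ S.card * (C ^ Fintype.card J * Real.log y ^ Fintype.card J) :=
      mul_le_mul_of_nonneg_left h5 (by positivity)
    _ = C ^ Fintype.card J * Real.log y ^ Fintype.card J * Real.exp ((S.card : ℝ) * Li Z) := by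
      rw [Real.exp_nat_mul]
      ring

end H83.LW
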