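import Pool.Agent.H38.TD.Grp1
import Pool.Agent.H38.TD.Grp3

/-!
# [H83 LW GRPB] the subgroup `B` generated by `ker N`, the fixed points and the elements of order `p` (two theorems, 120-180 lines)

`θ = pd.θ`, `N = nh θ p`, `θ^p = 1` (`grpa_pd_theta_p`), `Bg pd = closure(ker N ∪ fx θ ∪ tp)`.
* `grpb_st`: `θ` maps `ker N`, `fx θ`, `tp` into themselves (`grpa_nh_theta`; `map_pow`), so `Bg` into itself.
* `grpb_pow`: `a^p ∈ Bg`: `N a = ∏_{k<p} θ^k a ∈ fx θ` and `a^p (N a)⁻¹ = ∏_{k<p} a / θ^k a`, `N (a / θ^k a) = 1` (`grpa_nh_theta_pow`).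
* `grpb1`: `A ⧸ Bg` is a finite abelian group killed by `p`, so of order `p^e`, and it is generated by `e` elements (a basis over `ZMod p`; or
  induction: choose elements one by one outside the subgroup generated so far, each step multiplies the order by `p`). Lift them to `m`.
  Order: `#fx / #(Bg.map N)` with `#(Bg.map N) = #Bg / #ker N` (`ker N ≤ Bg`) and `#range N = #A / #ker N`, `#A = p^e #Bg`, so
  `#range N = p^e #(Bg.map N)`; `range N ≤ fx θ` (`adata_range`-type: `hc_range_le` in `H38/TD/HomCnt` or `N a` is fixed by `grpa_nh_theta`), so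
  `#fx = h #range N` exactly with `h = #fx / #range N` (Lagrange), and `#fx / #(Bg.map N) = h p^e`.
* `grpb2`: apply `grp3` to the restriction `θ_B : Bg ≃* Bg` of `θ` (as a type), `θ_B^p = 1`. `ker (nh θ_B) , fx θ_B, tp Bg` are the
  `subgroupOf Bg` of `ker N`, `fx θ`, `tp A`, which are contained in `Bg`; so their closure is `⊤` in `Bg`, the cardinalities agree
  (`Nat.card` of `H.subgroupOf Bg` for `H ≤ Bg`: `Subgroup.subgroupOfEquivOfLe`), `range (nh θ_B)` corresponds to `Bg.map N`. In the first case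
  of `grp3` the closure of `ker N ∪ fx θ` is `Bg` (map back with `Bg.subtype`; `Subgroup.map_closure`/`MonoidHom.map_closure`).
-/

noncomputable section

namespace H83.LW

open H38.TD

/-- the subgroup generated by the kernel of the norm, the fixed points and the elements of order `p` -/
def Bg {A P : Type} [CommGroup A] [Group P] {p : ℕ} (pd : PD p A P) : Subgroup A :=
  Subgroup.closure (((nh pd.θ p).ker : Set A) ∪ (fx pd.θ : Set A) ∪ (tp A p : Set A))

theorem ker_le_Bg {A P : Type} [CommGroup A] [Group P] {p : ℕ} (pd : PD p A P) :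
    (nh pd.θ p).ker ≤ Bg pd := fun _ h => Subgroup.subset_closure (Or.inl (Or.inl h))

theorem fx_le_Bg {A P : Type} [CommGroup A] [Group P] {p : ℕ} (pd : PD p A P) :
    fx pd.θ ≤ Bg pd := fun _ h => Subgroup.subset_closure (Or.inl (Or.inr h))

theorem tp_le_Bg {A P : Type} [CommGroup A] [Group P] {p : ℕ} (pd : PD p A P) :
    tp A p ≤ Bg pd := fun _ h => Subgroup.subset_closure (Or.inr h)

theorem grpb_st {A P : Type} [CommGroup A] [Group P] {p : ℕ} (pd : PD p A P) (b : A)
    (hb : b ∈ Bg pd) : pd.θ b ∈ Bg pd := by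
  have h : Bg pd ≤ (Bg pd).comap (pd.θ : A →* A) := by
    unfold Bg
    rw [Subgroup.closure_le]
    rintro x ((hx | hx) | hx)
    · apply Subgroup.subset_closure
      left; left
      show pd.θ x ∈ (nh pd.θ p).ker
      have hx' : nh pd.θ p x = 1 := hx
      rw [MonoidHom.mem_ker, grpa_nh_theta pd.θ (grpa_pd_theta_p pd), hx']
    · apply Subgroup.subset_closure
      left; right
      have hx' : pd.θ x = x := hx
      show pd.θ (pd.θ x) = pd.θ x
      rw [hx', hx']
    · apply Subgroup.subset_closure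
      right
      have hx' : x ∈ (powMonoidHom p : A →* A).ker := hx
      show pd.θ x ∈ (powMonoidHom p : A →* A).ker
      rw [MonoidHom.mem_ker, powMonoidHom_apply] at hx' ⊢
      rw [← map_pow, hx', map_one]
  exact h hb

theorem grpb_mem_tp {A : Type} [CommGroup A] {p : ℕ} (x : A) : x ∈ tp A p ↔ x ^ p = 1 := by
  show x ∈ (powMonoidHom p : A →* A).ker ↔ _
  rw [MonoidHom.mem_ker, powMonoidHom_apply]

theorem grpb_mem_fx {A : Type} [CommGroup A] (θ : A ≃* A) (x : A) : x ∈ fx θ ↔ θ x = x := Iff.rfl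

theorem grpb_Nfix {A : Type} [CommGroup A] {p : ℕ} (θ : A ≃* A)
    (hθ : ∀ a, (θ ^ p : MulAut A) a = a) (a : A) : θ (nh θ p a) = nh θ p a := by
  have e : θ (nh θ p a) = nh θ p (θ a) := by
    show θ (∏ k ∈ Finset.range p, (θ ^ k : MulAut A) a) =
      ∏ k ∈ Finset.range p, (θ ^ k : MulAut A) (θ a)
    rw [map_prod]
    refine Finset.prod_congr rfl fun k _ => ?_
    show (θ * θ ^ k : MulAut A) a = (θ ^ k * θ : MulAut A) a
    rw [← pow_succ', ← pow_succ]
  rw [e, grpa_nh_theta θ hθ a]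

theorem grpb_pow {A P : Type} [CommGroup A] [Group P] {p : ℕ} (pd : PD p A P) (a : A) :
    a ^ p ∈ Bg pd := by
  have hθ := grpa_pd_theta_p pd
  have h1 : nh pd.θ p a ∈ Bg pd := fx_le_Bg pd (grpb_Nfix pd.θ hθ a)
  have h2 : ∀ k : ℕ, a / (pd.θ ^ k : MulAut A) a ∈ Bg pd := by
    intro k
    apply ker_le_Bg pd
    rw [MonoidHom.mem_ker, map_div, grpa_nh_theta_pow pd.θ hθ, div_self']
  have h3 : a ^ p = (∏ k ∈ Finset.range p, a / (pd.θ ^ k : MulAut A) a) * nh pd.θ p a := by
    show _ = _ * ∏ k ∈ Finset.range p, (pd.θ ^ k : MulAut A) a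
    rw [← Finset.prod_mul_distrib]
    simp
  rw [h3]
  exact mul_mem (prod_mem fun k _ => h2 k) h1

theorem grpb_vsK (K Q : Type) [Field K] [AddCommGroup Q] [Finite Q] [Module K Q] :
    ∃ (e : ℕ) (b : Fin e → Q), Nat.card Q = Nat.card K ^ e ∧
      ∀ H : Submodule K Q, (∀ i, b i ∈ H) → H = ⊤ := by
  have : Module.Finite K Q := Module.Finite.of_finite
  let b := Module.finBasis K Q
  refine ⟨Module.finrank K Q, b, Module.natCard_eq_pow_finrank, ?_⟩
  intro H hH
  rw [eq_top_iff, ← b.span_eq, Submodule.span_le]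
  rintro _ ⟨i, rfl⟩
  exact hH i

theorem grpb_vs {Q : Type} [AddCommGroup Q] [Finite Q] {p : ℕ} (hp : p.Prime)
    (hQ : ∀ x : Q, p • x = 0) : ∃ (e : ℕ) (b : Fin e → Q), Nat.card Q = p ^ e ∧
      ∀ H : AddSubgroup Q, (∀ i, b i ∈ H) → H = ⊤ := by
  have : Fact p.Prime := ⟨hp⟩
  let inst : Module (ZMod p) Q := AddCommGroup.zmodModule hQ
  obtain ⟨e, b, h1, h2⟩ := grpb_vsK (ZMod p) Q
  rw [Nat.card_zmod] at h1
  refine ⟨e, b, h1, ?_⟩
  intro H hH
  have h3 := h2 (AddSubgroup.toZModSubmodule p H) hH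
  rw [eq_top_iff]
  intro x _
  exact (Submodule.eq_top_iff'.1 h3) x

theorem grpb_gen {A : Type} [CommGroup A] [Finite A] {p : ℕ} (hp : p.Prime) (B : Subgroup A)
    (hB : ∀ a : A, a ^ p ∈ B) : ∃ (e : ℕ) (m : Fin e → A), B.index = p ^ e ∧
      Subgroup.closure ((B : Set A) ∪ Set.range m) = ⊤ := by
  have hQ : ∀ x : Additive (A ⧸ B), p • x = 0 := by
    intro x
    obtain ⟨a, ha⟩ := QuotientGroup.mk_surjective x.toMul
    have h1 : (x.toMul) ^ p = 1 := by
      rw [← ha, ← QuotientGroup.mk_pow, QuotientGroup.eq_one_iff]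
      exact hB a
    exact congrArg Additive.ofMul h1
  have : Finite (Additive (A ⧸ B)) := inferInstanceAs (Finite (A ⧸ B))
  obtain ⟨e, b, h1, h2⟩ := grpb_vs hp hQ
  choose m hm using fun i : Fin e => QuotientGroup.mk_surjective (b i).toMul
  refine ⟨e, m, ?_, ?_⟩
  · rw [← h1]
    rfl
  · rw [eq_top_iff]
    intro a _
    set H := Subgroup.closure ((B : Set A) ∪ Set.range m) with hH
    have hBH : B ≤ H := fun x hx => Subgroup.subset_closure (Or.inl hx)
    have h3 := h2 (Subgroup.toAddSubgroup (H.map (QuotientGroup.mk' B))) (by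
      intro i
      have h2 : (b i).toMul ∈ H.map (QuotientGroup.mk' B) := by
        refine ⟨m i, Subgroup.subset_closure (Or.inr ⟨i, rfl⟩), ?_⟩
        exact hm i
      exact h2)
    have h3' : Additive.ofMul ((QuotientGroup.mk a : A ⧸ B)) ∈
        Subgroup.toAddSubgroup (H.map (QuotientGroup.mk' B)) := by
      rw [h3]
      exact AddSubgroup.mem_top _
    have h4 : (QuotientGroup.mk a : A ⧸ B) ∈ H.map (QuotientGroup.mk' B) := h3'
    obtain ⟨h, hh, hha⟩ := h4
    have h5 : h⁻¹ * a ∈ B := QuotientGroup.eq.1 hha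
    have h6 := mul_mem hh (hBH h5)
    rw [mul_inv_cancel_left] at h6
    exact h6

theorem grpb1 {A P : Type} [CommGroup A] [Finite A] [Group P] {p : ℕ} (hp : p.Prime)
    (pd : PD p A P) : ∃ (e : ℕ) (m : Fin e → A), (Bg pd).index = p ^ e ∧
      Subgroup.closure ((Bg pd : Set A) ∪ Set.range m) = ⊤ ∧
      Nat.card (fx pd.θ) / Nat.card ((Bg pd).map (nh pd.θ p)) =
        Nat.card (fx pd.θ) / Nat.card (nh pd.θ p).range * p ^ e := by
  obtain ⟨e, m, h1, h2⟩ := grpb_gen hp (Bg pd) (grpb_pow pd)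
  refine ⟨e, m, h1, h2, ?_⟩
  have hθ := grpa_pd_theta_p pd
  have c1 : Nat.card (nh pd.θ p).ker * Nat.card (nh pd.θ p).range = Nat.card A := by
    rw [← Subgroup.index_ker, Subgroup.card_mul_index]
  have c2 : Nat.card (Bg pd) = Nat.card (nh pd.θ p).ker * Nat.card ((Bg pd).map (nh pd.θ p)) := by
    rw [grpc_card_map (nh pd.θ p) (Bg pd), inf_eq_right.2 (ker_le_Bg pd)]
  have c3 : Nat.card (Bg pd) * p ^ e = Nat.card A := by
    rw [← h1, Subgroup.card_mul_index]
  have hk : 0 < Nat.card (nh pd.θ p).ker := Nat.card_pos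
  have c4 : Nat.card (nh pd.θ p).range = Nat.card ((Bg pd).map (nh pd.θ p)) * p ^ e := by
    apply Nat.eq_of_mul_eq_mul_left hk
    rw [c1, ← c3, c2]
    ring
  have c5 : Nat.card (nh pd.θ p).range ∣ Nat.card (fx pd.θ) := by
    apply Subgroup.card_dvd_of_le
    rintro _ ⟨a, rfl⟩
    exact grpb_Nfix pd.θ hθ a
  obtain ⟨t, ht⟩ := c5
  have hr : 0 < Nat.card (nh pd.θ p).range := Nat.card_pos
  have hM : 0 < Nat.card ((Bg pd).map (nh pd.θ p)) := Nat.card_pos
  rw [ht, Nat.mul_div_cancel_left _ hr, c4, mul_assoc, Nat.mul_div_cancel_left _ hM, mul_comm]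

/-- the restriction of `θ` to `Bg` -/
def grpb_hom {A P : Type} [CommGroup A] [Group P] {p : ℕ} (pd : PD p A P) : Bg pd →* Bg pd :=
  (((pd.θ : A →* A)).comp (Bg pd).subtype).codRestrict (Bg pd) (fun x => grpb_st pd x x.2)

theorem grpb_hom_bij {A P : Type} [CommGroup A] [Finite A] [Group P] {p : ℕ} (pd : PD p A P) :
    Function.Bijective (grpb_hom pd) := by
  apply Finite.injective_iff_bijective.1
  intro x y h
  have h1 : pd.θ (x : A) = pd.θ (y : A) := congrArg Subtype.val h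
  exact Subtype.ext (pd.θ.injective h1)

theorem grpb2 {A P : Type} [CommGroup A] [Finite A] [Group P] {p : ℕ} (hp : p.Prime)
    (pd : PD p A P) :
    Subgroup.closure (((nh pd.θ p).ker : Set A) ∪ (fx pd.θ : Set A)) = Bg pd ∨
      (2 * (p - 1) * (Nat.card (fx pd.θ) / Nat.card ((Bg pd).map (nh pd.θ p))) * p ≤
          Nat.card (tp A p) ∧
        Nat.card (fx pd.θ ⊓ tp A p : Subgroup A) < Nat.card (tp A p)) := by
  set θB : Bg pd ≃* Bg pd := MulEquiv.ofBijective (grpb_hom pd) (grpb_hom_bij pd) with hθB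
  have hval : ∀ x : Bg pd, ((θB x : Bg pd) : A) = pd.θ (x : A) := fun x => rfl
  have hvalk : ∀ (k : ℕ) (x : Bg pd), (((θB ^ k : MulAut (Bg pd)) x : Bg pd) : A) =
      (pd.θ ^ k : MulAut A) (x : A) := by
    intro k
    induction k with
    | zero => intro x; rfl
    | succ k ih =>
      intro x
      rw [pow_succ', pow_succ', MulAut.mul_apply, MulAut.mul_apply]
      show ((θB ((θB ^ k : MulAut (Bg pd)) x) : Bg pd) : A) = pd.θ ((pd.θ ^ k : MulAut A) (x : A))
      rw [hval, ih]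
  have hnh : ∀ x : Bg pd, ((nh θB p x : Bg pd) : A) = nh pd.θ p (x : A) := by
    intro x
    show (((∏ k ∈ Finset.range p, (θB ^ k : MulAut (Bg pd)) x : Bg pd)) : A) =
      ∏ k ∈ Finset.range p, (pd.θ ^ k : MulAut A) (x : A)
    rw [SubmonoidClass.coe_finsetProd]
    exact Finset.prod_congr rfl fun k _ => hvalk k x
  have hker : (nh θB p).ker = (nh pd.θ p).ker.subgroupOf (Bg pd) := by
    ext x
    rw [Subgroup.mem_subgroupOf, MonoidHom.mem_ker, MonoidHom.mem_ker, ← hnh, Subtype.ext_iff]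
    rfl
  have hfx : fx θB = (fx pd.θ).subgroupOf (Bg pd) := by
    ext x
    rw [Subgroup.mem_subgroupOf, grpb_mem_fx, grpb_mem_fx, Subtype.ext_iff, hval]
  have htp : tp (Bg pd) p = (tp A p).subgroupOf (Bg pd) := by
    ext x
    rw [Subgroup.mem_subgroupOf, grpb_mem_tp, grpb_mem_tp, Subtype.ext_iff]
    rfl
  have hθ : ∀ a : Bg pd, (θB ^ p : MulAut (Bg pd)) a = a := by
    intro a
    apply Subtype.ext
    rw [hvalk, grpa_pd_theta_p]
  have htop : Subgroup.closure (((nh θB p).ker : Set (Bg pd)) ∪ (fx θB : Set (Bg pd)) ∪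
      (tp (Bg pd) p : Set (Bg pd))) = ⊤ := by
    rw [hker, hfx, htp]
    exact Subgroup.closure_closure_coe_preimage
      (k := ((nh pd.θ p).ker : Set A) ∪ (fx pd.θ : Set A) ∪ (tp A p : Set A))
  have hcard : ∀ H : Subgroup A, H ≤ Bg pd → Nat.card (H.subgroupOf (Bg pd)) = Nat.card H :=
    fun H hH => Nat.card_congr (Subgroup.subgroupOfEquivOfLe hH).toEquiv
  rcases grp3 hp θB hθ htop with h | ⟨-, h1, h2⟩
  · left
    apply le_antisymm
    · rw [Subgroup.closure_le]
      rintro x (hx | hx)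
      · exact ker_le_Bg pd hx
      · exact fx_le_Bg pd hx
    · intro x hx
      have h3 : Subgroup.closure (((nh θB p).ker : Set (Bg pd)) ∪ (fx θB : Set (Bg pd))) ≤
          (Subgroup.closure (((nh pd.θ p).ker : Set A) ∪ (fx pd.θ : Set A))).comap
            (Bg pd).subtype := by
        rw [Subgroup.closure_le, hker, hfx]
        rintro y (hy | hy)
        · exact Subgroup.subset_closure (Or.inl hy)
        · exact Subgroup.subset_closure (Or.inr hy)
      rw [h] at h3
      exact h3 (Subgroup.mem_top (⟨x, hx⟩ : Bg pd))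
  · right
    have e1 : Nat.card (fx θB) = Nat.card (fx pd.θ) := by
      rw [hfx, hcard _ (fx_le_Bg pd)]
    have e2 : Nat.card (tp (Bg pd) p) = Nat.card (tp A p) := by
      rw [htp, hcard _ (tp_le_Bg pd)]
    have e3 : Nat.card (fx θB ⊓ tp (Bg pd) p : Subgroup (Bg pd)) =
        Nat.card (fx pd.θ ⊓ tp A p : Subgroup A) := by
      rw [hfx, htp, ← hcard _ (inf_le_left.trans (fx_le_Bg pd))]
      rfl
    have e4 : Nat.card (nh θB p).range = Nat.card ((Bg pd).map (nh pd.θ p)) := by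
      have e5 : (nh θB p).range.map (Bg pd).subtype = (Bg pd).map (nh pd.θ p) := by
        ext x
        constructor
        · rintro ⟨_, ⟨y, rfl⟩, rfl⟩
          exact ⟨y, y.2, (hnh y).symm⟩
        · rintro ⟨y, hy, rfl⟩
          exact ⟨nh θB p ⟨y, hy⟩, ⟨⟨y, hy⟩, rfl⟩, hnh ⟨y, hy⟩⟩
      rw [← e5, Subgroup.card_map_of_injective (Bg pd).subtype_injective]
    rw [e1, e2, e4] at h1
    rw [e2, e3] at h2
    exact ⟨h1, h2⟩

end H83.LW
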