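import Pool.Agent.H83.LW.SELT
import Pool.Agent.H38.TD.HomCnt

/-!
# [H83 LW HCTP] counting the homomorphisms over `x`, with given units (assembly, 250-350 lines: adaptation of `homcnt_core`)

Adaptation of `homcnt_core` in `H38/TD/HomCnt.lean` (copy the proof, about 200 lines). Differences:
(1) there are additional seeds `e0 j ∈ TU K M S`, `j ∈ J0`, with given values `mm j ∈ A` (arbitrary elements of `A`), and `sel'` (`SELT`) instead
of `sel`. Index type of the `e`: `(((J0 ⊕ ker N) ⊕ J2) ⊕ Fin #sp)` or `J0 ⊕ ((ker N ⊕ J2) ⊕ Fin #sp)`, whichever is convenient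
(`e' = Sum.elim e0 e`, values `Sum.elim mm a`). `ind_units` needs the relation property for the sum type: it is the last statement of `sel'`
(`Fintype.prod_sum_type`). The new seeds do not contribute to `nu` at the places `v ∉ S` (order `0`: `hc_ord`, `gU_mem_TU`).
(2) the free values `a₁ : Fin #sp → A` are restricted to the subgroup `B`: the parameter set is
`T = (Fin #sp → B) × (Fin (#supp + #R - #sp) → fx θ)`, and (as `fx θ ≤ B`) we regard the free part as a map to the group `B` (as a type):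
`θ_B : B ≃* B` the restriction of `θ` (`hBθ`; the inverse: `θ^(p-1)`), `tbB : Gal(M/K) →* MulAut B` with `tbB γ = θ_B` (`kx_rep`;
`θ_B^p = 1`), `((tbB g b : B) : A) = tb g b` (for `g = γ^l`, by induction). `φ Q : T →* B`,
`φ Q t = nu tbB (e ∘ inr) (f ∘ inr) t.1 (fun i => ⟨t.2 i, _⟩) Q`, whose image in `A` is the free part of `nu` (`map_prod`, `map_zpow` for `B.subtype`).
`nu_ram`, `nu_fix` for the group `B`: `v ∈ supp`: `(φ Q).range ≤ (nh θ_B p).range`; `v ∈ R ∖ sp`: `≤ fx θ_B`. `hc_count` for the group `B` with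
`N = (nh θ_B p).range`, `F = fx θ_B`, `Tp = tp B p`: the number of good `t` is at least
`(#fx θ_B / #range (nh θ_B))^#supp (#tp B)^#sp (#(fx θ_B ⊓ tp B))^(#R - #sp)`, and `#fx θ_B = #fx θ`, `#range (nh θ_B) = #(B.map (nh θ p))`,
`#tp B p = #tp A p`, `#(fx θ_B ⊓ tp B p) = #(fx θ ⊓ tp A p)` since `fx θ, tp A p ≤ B` (`Nat.card_congr`).
(3) surjectivity: `kum_surj'` with `hgen`: the values contain `ker N`, `range c2`, `range mm`, `fx θ`.
Everything else (`homex`, `homloc`, `hc_over`, `kum_inj'`, …) as there. `hs1` gives `#J0 + #ker N + #J2 + #fx θ + 1 ≤ s`.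
-/

open scoped NumberField Pointwise
open H38.ML H38.TD

noncomputable section

namespace H83.LW

/-- the counting part, with a subgroup `B` for the free values -/
private theorem hc_count' {T A I : Type} [CommGroup T] [Finite T] [CommGroup A] [Finite A]
    (supp R sp : Finset I) (hdis : Disjoint supp R) (hspR : sp ⊆ R) (N F Tp B : Subgroup A)
    (hNF : N ≤ F) (hTB : Tp ≤ B) (φ : I → T →* A) (h1 : ∀ v ∈ supp, (φ v).range ≤ N)
    (h2 : ∀ v ∈ R, v ∉ sp → (φ v).range ≤ F) (h3 : ∀ v ∈ sp, (φ v).range ≤ B)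
    (hT : Nat.card T = Nat.card B ^ sp.card * Nat.card F ^ (supp.card + R.card - sp.card)) :
    (Nat.card F / Nat.card N) ^ supp.card * (Nat.card Tp ^ sp.card *
      Nat.card (F ⊓ Tp : Subgroup A) ^ (R.card - sp.card)) ≤
      Nat.card {t : T // (∀ v ∈ supp, φ v t = 1) ∧ ∀ v ∈ R, φ v t ∈ Tp} := by
  classical
  set B' : I → Subgroup A := fun v => if v ∈ supp then N else if v ∈ sp then B else F with hB
  set C : I → Subgroup A := fun v => if v ∈ supp then ⊥ else Tp with hC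
  have hcnt := cnt_abs (supp ∪ R) φ B' C (by
    intro v hv
    by_cases hvs : v ∈ supp
    · simp only [hB, if_pos hvs]
      exact h1 v hvs
    · simp only [hB, if_neg hvs]
      have hvR : v ∈ R := by
        rcases Finset.mem_union.1 hv with h | h
        · exact absurd h hvs
        · exact h
      by_cases hvsp : v ∈ sp
      · rw [if_pos hvsp]; exact h3 v hvsp
      · rw [if_neg hvsp]; exact h2 v hvR hvsp)
  have hRs : ∀ v ∈ R, v ∉ supp := fun v hv hs => Finset.disjoint_left.1 hdis hs hv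
  have hgood : Nat.card {t : T // ∀ i ∈ supp ∪ R, φ i t ∈ C i} =
      Nat.card {t : T // (∀ v ∈ supp, φ v t = 1) ∧ ∀ v ∈ R, φ v t ∈ Tp} := by
    refine Nat.card_congr (Equiv.subtypeEquivRight fun t => ?_)
    constructor
    · intro h
      refine ⟨fun v hv => ?_, fun v hv => ?_⟩
      · have h3 := h v (Finset.mem_union_left _ hv)
        simp only [hC, if_pos hv] at h3
        exact Subgroup.mem_bot.1 h3
      · have h3 := h v (Finset.mem_union_right _ hv)
        simp only [hC, if_neg (hRs v hv)] at h3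
        exact h3
    · rintro ⟨h3, h4⟩ v hv
      by_cases hvs : v ∈ supp
      · simp only [hC, if_pos hvs]
        exact Subgroup.mem_bot.2 (h3 v hvs)
      · simp only [hC, if_neg hvs]
        rcases Finset.mem_union.1 hv with h | h
        · exact absurd h hvs
        · exact h4 v h
  have hprod : ∏ i ∈ supp ∪ R, (C i).relIndex (B' i) =
      Nat.card N ^ supp.card * (Tp.relIndex B ^ sp.card * Tp.relIndex F ^ (R.card - sp.card)) := by
    rw [Finset.prod_union hdis]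
    congr 1
    · rw [Finset.prod_congr rfl (g := fun _ => Nat.card N), Finset.prod_const]
      intro v hv
      simp only [hB, hC, if_pos hv, Subgroup.relIndex_bot_left]
    · rw [← Finset.prod_sdiff hspR, mul_comm]
      congr 1
      · rw [Finset.prod_congr rfl (g := fun _ => Tp.relIndex B), Finset.prod_const]
        intro v hv
        simp only [hB, hC, if_neg (hRs v (hspR hv)), if_pos hv]
      · rw [Finset.prod_congr rfl (g := fun _ => Tp.relIndex F), Finset.prod_const,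
          Finset.card_sdiff_of_subset hspR]
        intro v hv
        rw [Finset.mem_sdiff] at hv
        simp only [hB, hC, if_neg (hRs v hv.1), if_neg hv.2]
  rw [hgood, hprod] at hcnt
  have hrel : ∀ F' : Subgroup A, Nat.card F' =
      Nat.card (F' ⊓ Tp : Subgroup A) * Tp.relIndex F' := by
    intro F'
    have h3 := Subgroup.relIndex_mul_relIndex (⊥ : Subgroup A) (Tp ⊓ F') F' bot_le inf_le_right
    rw [Subgroup.relIndex_bot_left, Subgroup.relIndex_bot_left, Subgroup.inf_relIndex_right,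
      inf_comm] at h3
    exact h3.symm
  have ha : Nat.card B = Nat.card Tp * Tp.relIndex B := by
    have h4 := hrel B
    rwa [inf_eq_right.2 hTB] at h4
  have hf : Nat.card F = Nat.card (F ⊓ Tp : Subgroup A) * Tp.relIndex F := hrel F
  have hr : Nat.card F = Nat.card N * (Nat.card F / Nat.card N) :=
    (Nat.mul_div_cancel' (Subgroup.card_dvd_of_le hNF)).symm
  have hsc : sp.card ≤ R.card := Finset.card_le_card hspR
  have hexp : supp.card + R.card - sp.card = supp.card + (R.card - sp.card) := by omega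
  have hrpos : ∀ F' : Subgroup A, 0 < Tp.relIndex F' := by
    intro F'
    rcases Nat.eq_zero_or_pos (Tp.relIndex F') with h | h
    · have h4 := hrel F'
      rw [h, mul_zero] at h4
      have : 0 < Nat.card F' := Nat.card_pos
      omega
    · exact h
  have hpos : 0 < Nat.card N ^ supp.card * (Tp.relIndex B ^ sp.card *
      Tp.relIndex F ^ (R.card - sp.card)) := by
    have h3 : 0 < Nat.card N := Nat.card_pos
    have h4 := hrpos B
    have h5 := hrpos F
    positivity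
  refine Nat.le_of_mul_le_mul_right (le_of_eq_of_le ?_ hcnt) hpos
  rw [hT, hexp, pow_add]
  set q' := Nat.card F / Nat.card N
  have e1 : Nat.card F ^ supp.card = Nat.card N ^ supp.card * q' ^ supp.card := by
    conv_lhs => rw [hr]
    rw [mul_pow]
  have e2 : Nat.card F ^ (R.card - sp.card) = Nat.card (F ⊓ Tp : Subgroup A) ^
      (R.card - sp.card) * Tp.relIndex F ^ (R.card - sp.card) := by
    conv_lhs => rw [hf]
    rw [mul_pow]
  rw [e1, e2, ha, mul_pow]
  ring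

section nu

variable {K M : Type} [Field K] [NumberField K] [Field M] [NumberField M] [Algebra K M]
  [IsGalois K M] {p : ℕ} {ζ : K} {x : Kˣ} {A : Type} [CommGroup A]
  {J J' : Type} [Fintype J] [Fintype J']

omit [IsGalois K M] in
private theorem nu_mem' (tb : Gal(M/K) →* MulAut A) (e : J → Mˣ)
    (f : J' → Kˣ) (a : J → A) (b : J' → A) (Q : H38.TD.Pl M) (B : Subgroup A)
    (hB : ∀ (g : Gal(M/K)), ∀ t ∈ B, tb g t ∈ B) (ha : ∀ j, a j ∈ B) (hb : ∀ j, b j ∈ B) :
    nu tb e f a b Q ∈ B := by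
  rw [nu_eq]
  exact mul_mem (prod_mem fun j _ => prod_mem fun g _ => zpow_mem (hB g _ (ha j)) _)
    (prod_mem fun j _ => zpow_mem (hb j) _)

private theorem nu_ram' (D : KX K M p ζ x) (hp : p.Prime) (tb : Gal(M/K) →* MulAut A)
    (e : J → Mˣ) (f : J' → Kˣ) (a : J → A) (b : J' → A) (hb : ∀ j, tb D.γ (b j) = b j)
    (v : H38.TD.Pl K) (Q : H38.TD.Pl M)
    (h : ∀ g : Gal(M/K), g • Q.asIdeal = Q.asIdeal)
    (hv : ∀ f : Kˣ, od Q (iU K M f) = p * od v f) (B : Subgroup A)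
    (haB : ∀ j, a j ∈ B) (hbB : ∀ j, b j ∈ B) :
    nu tb e f a b Q ∈ B.map (nh (tb D.γ : A ≃* A) p) := by
  simp only [nu_eq]
  refine mul_mem (prod_mem fun j _ => ?_) (prod_mem fun j _ => ?_)
  · refine ⟨a j ^ od Q (e j), zpow_mem (haB j) _, ?_⟩
    rw [kx_prod D hp]
    change ∏ k ∈ Finset.range p, ((tb D.γ) ^ k : MulAut A) (a j ^ od Q (e j)) = _
    refine Finset.prod_congr rfl fun k _ => ?_
    rw [map_zpow, ← map_pow, od_gal (D.γ ^ k) Q Q (h _).symm]
  · refine ⟨b j ^ od v (f j), zpow_mem (hbB j) _, ?_⟩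
    change ∏ k ∈ Finset.range p, ((tb D.γ) ^ k : MulAut A) (b j ^ od v (f j)) = _
    rw [hv, mul_comm, zpow_mul, zpow_natCast]
    rw [Finset.prod_congr rfl (g := fun _ => b j ^ od v (f j)), Finset.prod_const,
      Finset.card_range]
    intro k _
    rw [map_zpow, ← map_pow, nu_tbfix D tb (b j) (hb j)]

end nu

variable {K Ω : Type} [Field K] [NumberField K] [Field Ω] [Algebra K Ω] [IsAlgClosure K Ω]

theorem homcnt' {A P : Type} [CommGroup A] [Finite A] [Group P] [Finite P] {p : ℕ}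
    (pd : PD p A P) (hp : p.Prime) (k : ℕ) (ζ : K) (hζ : IsPrimitiveRoot ζ (p ^ k)) (ζp : K)
    (hζp : IsPrimitiveRoot ζp p) (hA : ∀ t : A, t ^ p ^ k = 1)
    (htc : NumberField.IsTotallyComplex K) (s : ℕ)
    (hs : s + 1 ≤ Fintype.card (NumberField.InfinitePlace K)) (hs1 : 4 * Nat.card A + 1 ≤ s)
    (S : Set (H38.TD.Pl K)) (hS : S.Finite)
    (sd : SD K S) (hSp : ∀ v : H38.TD.Pl K, v ∉ S → ((p : ℕ) : 𝓞 K) ∉ v.asIdeal)
    (x : Kˣ) (M : IntermediateField K Ω) [FiniteDimensional K M] [IsGalois K M] [NumberField M]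
    (D : KX K M p ζp x)
    (supp R sp : Finset (H38.TD.Pl K)) (hsupp : ∀ v ∈ supp, v ∉ S) (hR : ∀ v ∈ R, v ∉ S)
    (hdis : Disjoint supp R) (hx : x ∈ TK K (S ∪ (supp : Set (H38.TD.Pl K))))
    (hram : ∀ v ∈ supp, ¬ (p : ℤ) ∣ od v x)
    (hsp : ∀ v, v ∈ sp ↔ v ∈ R ∧ Spl D.γ v)
    (B : Subgroup A) (hBθ : ∀ b ∈ B, pd.θ b ∈ B) (hBk : (nh pd.θ p).ker ≤ B)
    (hBf : fx pd.θ ≤ B) (hBt : tp A p ≤ B)
    {J0 : Type} [Fintype J0] (mm : J0 → A) (e0 : J0 → Mˣ) (he0 : ∀ j, e0 j ∈ TU K M S)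
    (hind : ∀ n : J0 → ℤ, (∃ (l : ℤ) (y : Kˣ), ∏ j, nU K M (e0 j) ^ n j = x ^ l * y ^ p) →
      ∀ j, (p : ℤ) ∣ n j) (hJ0 : Fintype.card J0 ≤ Nat.card A)
    {J2 : Type} [Fintype J2] (c2 : J2 → A) (hc2 : ∀ j, c2 j ^ p = 1)
    (hJ2 : Fintype.card J2 ≤ Nat.card A) (hfl : IsEmpty J2 ∨ supp.card ≤ sp.card)
    (hgen : Subgroup.closure (((nh pd.θ p).ker : Set A) ∪ (fx pd.θ : Set A) ∪ Set.range c2 ∪
      Set.range mm) = ⊤) :
    ∃ H : Finset (Gal(Ω/K) →* P),
      (∀ ρ ∈ H, Function.Surjective ρ ∧ FT ρ ∧ OverX pd ζp x ρ ∧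
        (∀ v, v ∉ S → v ∉ supp → v ∉ R → UnrAt ρ v.asIdeal) ∧
        ∀ v, v ∉ S → SmallAt p ρ v.asIdeal) ∧
      (Nat.card (fx pd.θ) / Nat.card (B.map (nh pd.θ p))) ^ supp.card *
          (Nat.card (tp A p) ^ sp.card *
            Nat.card (fx pd.θ ⊓ tp A p : Subgroup A) ^ (R.card - sp.card)) ≤ H.card := by
  classical
  obtain ⟨ρb, hρb⟩ := kx_rep D hp pd.c pd.cp
  obtain ⟨tb, htb⟩ := kx_rep D hp (pd.θ : MulAut A) (hc_theta_pow pd)
  have hconj : ∀ (g : Gal(M/K)) (t : A), pd.j (tb g t) = ρb g * pd.j t * (ρb g)⁻¹ := by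
    intro g t
    obtain ⟨l, rfl⟩ := D.gen g
    rw [map_pow, map_pow, hρb, htb]
    exact hc_conj pd l t
  have htbB : ∀ (g : Gal(M/K)), ∀ t ∈ B, tb g t ∈ B := by
    intro g t ht
    obtain ⟨l, rfl⟩ := D.gen g
    rw [map_pow, htb]
    induction l with
    | zero => simpa using ht
    | succ l ih =>
      rw [pow_succ', MulAut.mul_apply]
      exact hBθ _ ih
  letI : Fintype (nh pd.θ p).ker := Fintype.ofFinite _
  letI : Fintype (fx pd.θ) := Fintype.ofFinite _
  have hJ : Fintype.card J0 + Fintype.card (nh pd.θ p).ker + Fintype.card J2 +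
      Fintype.card (fx pd.θ) + 1 ≤ s := by
    have h1 : Fintype.card (nh pd.θ p).ker ≤ Nat.card A := by
      rw [← Nat.card_eq_fintype_card]
      exact Subgroup.card_le_card_group _
    have h2 : Fintype.card (fx pd.θ) ≤ Nat.card A := by
      rw [← Nat.card_eq_fintype_card]
      exact Subgroup.card_le_card_group _
    omega
  obtain ⟨e, f, he1, he2, he3, hf1, hf2, hind0⟩ := sel' (J0 := J0) (J1 := (nh pd.θ p).ker)
    (J2 := J2) (J3 := fx pd.θ) D hp hζp htc s hs S hS sd hSp supp R sp hsupp hR hdis hx hsp e0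
    hind hJ hfl
  -- the units
  let ee : ((J0 ⊕ ((nh pd.θ p).ker ⊕ J2)) ⊕ Fin sp.card) → Mˣ :=
    Sum.elim (Sum.elim e0 (fun j => e (Sum.inl j))) (fun j => e (Sum.inr j))
  have hindee := ind_units D hp hζp ee f (by
    intro n m l y h
    have h1 := hind0 (fun j => n (Sum.inl (Sum.inl j)))
      (Sum.elim (fun j => n (Sum.inl (Sum.inr j))) (fun j => n (Sum.inr j))) m l y (by
        rw [← h, ← mul_assoc]
        congr 1
        simp only [Fintype.prod_sum_type, ← mul_assoc]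
        rfl)
    refine ⟨?_, h1.2.2⟩
    rintro ((j | j) | j)
    · exact h1.1 j
    · exact h1.2.1 (Sum.inl j)
    · exact h1.2.1 (Sum.inr j))
  -- the parameters
  let a : ((Fin sp.card → B) × (Fin (supp.card + R.card - sp.card) → fx pd.θ)) →
      ((J0 ⊕ ((nh pd.θ p).ker ⊕ J2)) ⊕ Fin sp.card) → A :=
    fun t => Sum.elim (Sum.elim mm (Sum.elim Subtype.val c2)) (fun i => (t.1 i : A))
  let b : ((Fin sp.card → B) × (Fin (supp.card + R.card - sp.card) → fx pd.θ)) →
      (fx pd.θ ⊕ Fin (supp.card + R.card - sp.card)) → A :=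
    fun t => Sum.elim Subtype.val (fun i => (t.2 i : A))
  have hb : ∀ t j, pd.θ (b t j) = b t j := by
    rintro t (j | j)
    · exact j.2
    · exact (t.2 j).2
  have hb' : ∀ t j, tb D.γ (b t j) = b t j := by
    intro t j
    rw [htb]
    exact hb t j
  have hρex : ∀ t, ∃ ρ : Gal(Ω/K) →* P, IsKum M pd (p ^ k) ζ ρb tb ee f (a t) (b t) ρ := fun t =>
    homex M pd D (p ^ k) (pow_pos hp.pos k) ζ hζ hA ρb tb htb hconj ee f (a t) (b t) (hb t)
  choose ρ hρ using hρex
  let φ : H38.TD.Pl M →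
      ((Fin sp.card → B) × (Fin (supp.card + R.card - sp.card) → fx pd.θ)) →* A :=
    fun Q => MonoidHom.mk'
      (fun t => nu tb (ee ∘ Sum.inr) (f ∘ Sum.inr) (fun i => (t.1 i : A))
        (fun i => (t.2 i : A)) Q) (by
        intro t t'
        exact nu_mul tb _ _ (fun i => (t.1 i : A)) (fun i => (t'.1 i : A))
          (fun i => (t.2 i : A)) (fun i => (t'.2 i : A)) Q)
  let ν₀ : H38.TD.Pl M → A := fun Q =>
    nu tb (ee ∘ Sum.inl) (f ∘ Sum.inl) (Sum.elim mm (Sum.elim Subtype.val c2)) Subtype.val Q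
  have hsplit : ∀ t Q, nu tb ee f (a t) (b t) Q = ν₀ Q * φ Q t := by
    intro t Q
    rw [nu_sum]
    rfl
  have hbR : ∀ (t : (Fin sp.card → B) × (Fin (supp.card + R.card - sp.card) → fx pd.θ)) j,
      tb D.γ ((t.2 j : A)) = (t.2 j : A) := by
    intro t j
    rw [htb]
    exact (t.2 j).2
  -- orders
  have hout : ∀ v, v ∉ S → v ∉ supp → v ∉ R → ∀ Q : H38.TD.Pl M, Ov Q v → ∀ t,
      nu tb ee f (a t) (b t) Q = 1 := by
    intro v h1 h2 h3 Q hQ t
    have h4 : v ∉ S ∪ (supp : Set (H38.TD.Pl K)) ∪ (R : Set (H38.TD.Pl K)) := by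
      rintro ((h | h) | h)
      · exact h1 h
      · exact h2 h
      · exact h3 h
    refine nu_one tb ee f (a t) (b t) Q (fun j g => ?_) (fun j => ?_)
    · rcases j with (j | j) | j
      · exact hc_ord (gU_mem_TU _ g _ (he0 j)) h1 hQ
      · exact hc_ord (gU_mem_TU _ g _ (he3 (Sum.inl j))) h4 hQ
      · exact hc_ord (gU_mem_TU _ g _ (he3 (Sum.inr j))) h4 hQ
    · exact hc_ord ((iU_mem_TU_iff _ (f j)).2 (hf2 j)) h4 hQ
  have hS0 : ∀ (j : J0) v, v ∉ S → ∀ Q : H38.TD.Pl M, Ov Q v → ∀ g : Gal(M/K),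
      od Q (gU g (e0 j)) = 0 := fun j v h1 Q hQ g => hc_ord (gU_mem_TU _ g _ (he0 j)) h1 hQ
  have hS3 : ∀ (j : fx pd.θ) v, v ∉ S → ∀ Q : H38.TD.Pl M, Ov Q v →
      od Q (iU K M (f (Sum.inl j))) = 0 := fun j v h1 Q hQ =>
    hc_ord ((iU_mem_TU_iff _ (f (Sum.inl j))).2 (hf1 j)) h1 hQ
  have hQR : ∀ v ∈ supp, ∀ Q : H38.TD.Pl M, Ov Q v → ∀ g : Gal(M/K),
      g • Q.asIdeal = Q.asIdeal := by
    intro v hv Q hQ g
    obtain ⟨Q', hQ'⟩ := exists_smul_pl g Q
    rw [← hQ', (ramf_ram D hp hζp v (hram v hv) Q hQ).2 Q' (ov_smul g Q Q' v hQ' hQ)]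
  have hsupp0 : ∀ v ∈ supp, ∀ Q : H38.TD.Pl M, Ov Q v → ν₀ Q = 1 := by
    intro v hv Q hQ
    have hvR : v ∉ R := fun h => Finset.disjoint_left.1 hdis hv h
    have hgal : ∀ (g : Gal(M/K)) (y : Mˣ), od Q (gU g y) = od Q y := fun g y =>
      od_gal g Q Q (hQR v hv Q hQ g).symm y
    change nu tb (ee ∘ Sum.inl) (f ∘ Sum.inl) (Sum.elim mm (Sum.elim Subtype.val c2))
      Subtype.val Q = 1
    rw [nu_eq, Fintype.prod_sum_type, Fintype.prod_sum_type]
    have e0' : ∏ j : J0, ∏ g : Gal(M/K),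
        tb g (Sum.elim mm (Sum.elim (Subtype.val : (nh pd.θ p).ker → A) c2) (Sum.inl j)) ^
          od Q (gU g ((ee ∘ Sum.inl) (Sum.inl j))) = 1 := by
      refine Finset.prod_eq_one fun j _ => Finset.prod_eq_one fun g _ => ?_
      change _ ^ od Q (gU g (e0 j)) = 1
      rw [hS0 j v (hsupp v hv) Q hQ, zpow_zero]
    have e1 : ∏ j : (nh pd.θ p).ker, ∏ g : Gal(M/K),
        tb g (Sum.elim mm (Sum.elim (Subtype.val : (nh pd.θ p).ker → A) c2)
          (Sum.inr (Sum.inl j))) ^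
          od Q (gU g ((ee ∘ Sum.inl) (Sum.inr (Sum.inl j)))) = 1 := by
      refine Finset.prod_eq_one fun j _ => ?_
      have h1 : ∀ g : Gal(M/K), tb g (Sum.elim mm
          (Sum.elim (Subtype.val : (nh pd.θ p).ker → A) c2) (Sum.inr (Sum.inl j))) ^
          od Q (gU g ((ee ∘ Sum.inl) (Sum.inr (Sum.inl j)))) =
          (tb g (j : A)) ^ od Q (e (Sum.inl (Sum.inl j))) := by
        intro g
        rw [hgal]
        rfl
      rw [Finset.prod_congr rfl fun g _ => h1 g, Finset.prod_zpow, kx_prod D hp]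
      have h2 : ∏ l ∈ Finset.range p, tb (D.γ ^ l) (j : A) = nh pd.θ p (j : A) := by
        change _ = ∏ l ∈ Finset.range p, (pd.θ ^ l : MulAut A) (j : A)
        refine Finset.prod_congr rfl fun l _ => ?_
        rw [map_pow, htb]
      rw [h2, MonoidHom.mem_ker.1 j.2, one_zpow]
    have e2 : ∏ j : J2, ∏ g : Gal(M/K), tb g (Sum.elim mm
        (Sum.elim (Subtype.val : (nh pd.θ p).ker → A) c2)
        (Sum.inr (Sum.inr j))) ^ od Q (gU g ((ee ∘ Sum.inl) (Sum.inr (Sum.inr j)))) = 1 := by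
      refine Finset.prod_eq_one fun j _ => Finset.prod_eq_one fun g _ => ?_
      have h1 : od Q (gU g (e (Sum.inl (Sum.inr j)))) = 0 := by
        refine hc_ord (gU_mem_TU _ g _ (he2 j)) ?_ hQ
        rintro (h | h)
        · exact hsupp v hv h
        · exact hvR h
      change _ ^ od Q (gU g (e (Sum.inl (Sum.inr j)))) = 1
      rw [h1, zpow_zero]
    have e3 : ∏ j : fx pd.θ, (j : A) ^ od Q (iU K M ((f ∘ Sum.inl) j)) = 1 := by
      refine Finset.prod_eq_one fun j _ => ?_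
      change _ ^ od Q (iU K M (f (Sum.inl j))) = 1
      rw [hS3 j v (hsupp v hv) Q hQ, zpow_zero]
    rw [e0', e1, e2, e3, mul_one, mul_one, mul_one]
  have hR0 : ∀ v ∈ R, ∀ Q : H38.TD.Pl M, Ov Q v → ν₀ Q ^ p = 1 := by
    intro v hv Q hQ
    have hvs : v ∉ supp := fun h => Finset.disjoint_left.1 hdis h hv
    change nu tb (ee ∘ Sum.inl) (f ∘ Sum.inl) (Sum.elim mm (Sum.elim Subtype.val c2))
      Subtype.val Q ^ p = 1
    rw [nu_eq, Fintype.prod_sum_type, Fintype.prod_sum_type]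
    have e0' : ∏ j : J0, ∏ g : Gal(M/K),
        tb g (Sum.elim mm (Sum.elim (Subtype.val : (nh pd.θ p).ker → A) c2) (Sum.inl j)) ^
          od Q (gU g ((ee ∘ Sum.inl) (Sum.inl j))) = 1 := by
      refine Finset.prod_eq_one fun j _ => Finset.prod_eq_one fun g _ => ?_
      change _ ^ od Q (gU g (e0 j)) = 1
      rw [hS0 j v (hR v hv) Q hQ, zpow_zero]
    have e1 : ∏ j : (nh pd.θ p).ker, ∏ g : Gal(M/K),
        tb g (Sum.elim mm (Sum.elim (Subtype.val : (nh pd.θ p).ker → A) c2)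
          (Sum.inr (Sum.inl j))) ^
          od Q (gU g ((ee ∘ Sum.inl) (Sum.inr (Sum.inl j)))) = 1 := by
      refine Finset.prod_eq_one fun j _ => Finset.prod_eq_one fun g _ => ?_
      have h1 : od Q (gU g (e (Sum.inl (Sum.inl j)))) = 0 := by
        refine hc_ord (gU_mem_TU _ g _ (he1 j)) ?_ hQ
        rintro (h | h)
        · exact hR v hv h
        · exact hvs h
      change _ ^ od Q (gU g (e (Sum.inl (Sum.inl j)))) = 1
      rw [h1, zpow_zero]
    have e3 : ∏ j : fx pd.θ, (j : A) ^ od Q (iU K M ((f ∘ Sum.inl) j)) = 1 := by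
      refine Finset.prod_eq_one fun j _ => ?_
      change _ ^ od Q (iU K M (f (Sum.inl j))) = 1
      rw [hS3 j v (hR v hv) Q hQ, zpow_zero]
    rw [e0', e1, e3, mul_one, one_mul, one_mul, ← Finset.prod_pow]
    refine Finset.prod_eq_one fun j _ => ?_
    rw [← Finset.prod_pow]
    refine Finset.prod_eq_one fun g _ => ?_
    rw [← zpow_natCast, ← zpow_mul, mul_comm, zpow_mul, zpow_natCast, ← map_pow]
    change tb g (c2 j ^ p) ^ _ = 1
    rw [hc2, map_one, one_zpow]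
  have hφs : ∀ v ∈ supp, ∀ Q : H38.TD.Pl M, Ov Q v → (φ Q).range ≤ B.map (nh pd.θ p) := by
    intro v hv Q hQ
    rintro _ ⟨t, rfl⟩
    have h1 := nu_ram' D hp tb (ee ∘ Sum.inr) (f ∘ Sum.inr) (fun i => (t.1 i : A))
      (fun i => (t.2 i : A)) (hbR t) v Q
      (hQR v hv Q hQ) (ramf_ram D hp hζp v (hram v hv) Q hQ).1 B (fun i => (t.1 i).2)
      (fun i => hBf (t.2 i).2)
    rw [htb] at h1
    exact h1
  have hφR : ∀ v ∈ R, v ∉ sp → ∀ Q : H38.TD.Pl M, Ov Q v → (φ Q).range ≤ fx pd.θ := by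
    intro v hv hvs Q hQ
    rintro _ ⟨t, rfl⟩
    have h1 := nu_fix D tb (ee ∘ Sum.inr) (f ∘ Sum.inr) (fun i => (t.1 i : A))
      (fun i => (t.2 i : A)) (hbR t) Q
      (fun g => kx_nspl D v (fun h => hvs ((hsp v).2 ⟨hv, h⟩)) Q hQ g)
    rw [htb] at h1
    exact h1
  have hφB : ∀ Q : H38.TD.Pl M, (φ Q).range ≤ B := by
    intro Q
    rintro _ ⟨t, rfl⟩
    exact nu_mem' tb (ee ∘ Sum.inr) (f ∘ Sum.inr) (fun i => (t.1 i : A))
      (fun i => (t.2 i : A)) Q B htbB (fun i => (t.1 i).2) (fun i => hBf (t.2 i).2)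
  choose Qv hQv using fun v : H38.TD.Pl K => exists_ov M v
  have hcount := hc_count' supp R sp hdis (fun v hv => ((hsp v).1 hv).1) (B.map (nh pd.θ p))
    (fx pd.θ) (tp A p) B (by
      rintro _ ⟨y, -, rfl⟩
      exact hc_range_le (pd.θ : MulAut A) (hc_theta_pow pd) ⟨y, rfl⟩) hBt (fun v => φ (Qv v))
    (fun v hv => hφs v hv _ (hQv v)) (fun v hv hvs => hφR v hv hvs _ (hQv v))
    (fun v _ => hφB _) (by
      rw [Nat.card_prod, Nat.card_fun, Nat.card_fun, Nat.card_fin, Nat.card_fin])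
  -- good parameters
  set Gd : ((Fin sp.card → B) × (Fin (supp.card + R.card - sp.card) → fx pd.θ)) → Prop :=
    fun t => (∀ v ∈ supp, φ (Qv v) t = 1) ∧ ∀ v ∈ R, φ (Qv v) t ∈ tp A p with hGd
  letI : Fintype {t // Gd t} := Fintype.ofFinite _
  have hnu1 : ∀ t, Gd t → ∀ v, v ∉ S → v ∉ R → ∀ Q : H38.TD.Pl M, Ov Q v →
      nu tb ee f (a t) (b t) Q = 1 := by
    intro t ht v hvS hvR Q hQ
    by_cases hvs : v ∈ supp
    · have hQe : Q = Qv v := (ramf_ram D hp hζp v (hram v hvs) (Qv v) (hQv v)).2 Q hQ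
      rw [hsplit, hsupp0 v hvs Q hQ, one_mul, hQe]
      exact ht.1 v hvs
    · exact hout v hvS hvs hvR Q hQ t
  have hnuR : ∀ t, Gd t → ∀ v ∈ R, ∀ Q : H38.TD.Pl M, Ov Q v →
      nu tb ee f (a t) (b t) Q ^ p = 1 := by
    intro t ht v hvR Q hQ
    obtain ⟨g, hg⟩ := ov_trans (Qv v) Q v (hQv v) hQ
    rw [nu_smul D tb ee f (a t) (b t) (hb' t) g (Qv v) Q hg, ← map_pow, hsplit, mul_pow,
      hR0 v hvR _ (hQv v), one_mul]
    have h1 : φ (Qv v) t ^ p = 1 := ht.2 v hvR
    rw [h1, map_one]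
  have hinj : Function.Injective fun t : {t // Gd t} => ρ t.1 := by
    intro t t' htt
    have h1 := hρ t.1
    have h2 := hρ t'.1
    have h3 : ρ t.1 = ρ t'.1 := htt
    rw [← h3] at h2
    obtain ⟨h4, h5⟩ := kum_inj' hp hζ hindee (a t.1) (a t'.1) (b t.1) (b t'.1) (ρ t.1) h1 h2
    apply Subtype.ext
    apply Prod.ext
    · funext i
      exact Subtype.ext (congrFun h4 (Sum.inr i))
    · funext i
      exact Subtype.ext (congrFun h5 (Sum.inr i))
  refine ⟨Finset.univ.image fun t : {t // Gd t} => ρ t.1, ?_, ?_⟩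
  · intro r hr
    obtain ⟨⟨t, ht⟩, -, rfl⟩ := Finset.mem_image.1 hr
    have hloc := homloc hp hζ hζp D (a t) (b t) (ρ t) (hρ t) S hSp supp R hdis (by
      intro v h1 h2
      have h3 : od v x = 0 := by
        apply hx v
        rintro (h | h)
        · exact h1 h
        · exact h2 h
      rw [h3]
      exact dvd_zero _) (hnu1 t ht) (hnuR t ht)
    refine ⟨?_, (hρ t).ft, hc_over pd hp hζp D (hρ t) hρb, hloc.1, hloc.2⟩
    refine kum_surj' hp hζ D hρb hindee (a t) (b t) (ρ t) (hρ t) ?_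
    rw [eq_top_iff, ← hgen]
    apply Subgroup.closure_mono
    rintro y (((hy | hy) | ⟨j, rfl⟩) | ⟨j, rfl⟩)
    · exact Or.inl ⟨Sum.inl (Sum.inr (Sum.inl ⟨y, hy⟩)), rfl⟩
    · exact Or.inr ⟨Sum.inl ⟨y, hy⟩, rfl⟩
    · exact Or.inl ⟨Sum.inl (Sum.inr (Sum.inr j)), rfl⟩
    · exact Or.inl ⟨Sum.inl (Sum.inl j), rfl⟩
  · rw [Finset.card_image_of_injective _ hinj, Finset.card_univ, ← Nat.card_eq_fintype_card]
    exact hcount

end H83.LW
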