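import Pool.Agent.H38.BB.CChs
import Pool.Agent.H38.BB.CMer
import Pool.Agent.H38.BB.RdOf
import Pool.Agent.H63.MA.SUnit

/-!
# LW-LDEF: definitions (complete)

`D : RD0 K p ζ` reciprocity data, `𝒦` a subspace of `(ZMod p)^r`, `w < z`.
* `ZY D 𝒦 w z`: the good primes `v` with `w < nm v ≤ z` and `κ · q v = 0` for all `κ ∈ 𝒦`; `LY` the sum of `1 / nm v` over them.
  `ZY D ⊥ w z` is the set of all good primes with `w < nm v ≤ z`, `LG = LY D ⊥`.
* `FS D P b κ Z C`: the sum over the pairwise disjoint families `g : J → Finset Z` with the property `C` of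
  `∏_a 1 / nr (g a)` times `ep` of the total phase `phc` (`ph` of `MA/ADef` and the class characters `κ a`).
* `Lgs y g`: the set of the `a` with `y < nr (g a)`; `spg g` the set of the `a` with `g a ≠ ∅`.
* Kummer classes: `i : Pl K →₀ ZMod p` stands for `xx D i = ∏ (pi v)^(i v)`, of class `cl D i = ∑ (i v) • q v`.
  `XF p Z` the `i` with support in `Z`; `XC D Z` those of class `0`; `Wt h i = ∏_{v ∈ supp i} h / nm v`.
* `Rl D i`: the set of the relations `k` between the symbols at the support of `i`; `Gr D i j`: the sum of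
  `ep(j LL v (xx i)) / nm v` over the `v` in `Z` outside the support.
-/

set_option autoImplicit false

open scoped NumberField
open IsDedekindDomain
open scoped Classical

noncomputable section

namespace H83.LW

open H63.MA H38.BB

variable {K : Type} [Field K] [NumberField K] {p : ℕ} {ζ : K}

/-- the good primes with `w < nm v ≤ z` of class orthogonal to `𝒦` -/
def ZY (D : RD0 K p ζ) (𝒦 : Submodule (ZMod p) (Fin D.r → ZMod p)) (w z : ℝ) : Finset (Pl K) :=
  (gdY D z).filter fun v => w < nm v ∧ ∀ κ ∈ 𝒦, dt κ (D.q v) = 0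

theorem mem_ZY {D : RD0 K p ζ} {𝒦 : Submodule (ZMod p) (Fin D.r → ZMod p)} {w z : ℝ} {v : Pl K} :
    v ∈ ZY D 𝒦 w z ↔ (nm v : ℝ) ≤ z ∧ D.Gd v ∧ w < nm v ∧ ∀ κ ∈ 𝒦, dt κ (D.q v) = 0 := by
  unfold ZY
  rw [Finset.mem_filter, chr_mem, and_assoc]

/-- the sum of the inverses of the norms -/
def Li (Z : Finset (Pl K)) : ℝ := ∑ v ∈ Z, 1 / (nm v : ℝ)

/-- the sum of `1 / nm v` over `ZY` -/
def LY (D : RD0 K p ζ) (𝒦 : Submodule (ZMod p) (Fin D.r → ZMod p)) (w z : ℝ) : ℝ :=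
  Li (ZY D 𝒦 w z)

section fam

variable {m : ℕ} {J : Type} [Fintype J]

/-- the total phase with class characters -/
def phc (D : RD0 K p ζ) (P : PD p m J) (b : Fin m → Kˣ) (κ : J → Fin D.r → ZMod p)
    (g : J → Finset (Pl K)) : ZMod p := ph D P b g + ∑ a, dt (κ a) (qf D (g a))

/-- the weight of a family -/
def wg (g : J → Finset (Pl K)) : ℝ := ∏ a, 1 / nr (g a)

/-- the sum over the families -/
def FS (D : RD0 K p ζ) (P : PD p m J) (b : Fin m → Kˣ) (κ : J → Fin D.r → ZMod p)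
    (Z : Finset (Pl K)) (C : (J → Finset (Pl K)) → Prop) : ℂ :=
  ∑ g ∈ Fintype.piFinset (fun _ : J => Z.powerset),
    if Dj g ∧ C g then ((wg g : ℝ) : ℂ) * ep p (phc D P b κ g) else 0

/-- the large variables -/
def Lgs (y : ℝ) (g : J → Finset (Pl K)) : Finset J := Finset.univ.filter fun a => y < nr (g a)

/-- the nonempty variables -/
def spg (g : J → Finset (Pl K)) : Finset J := Finset.univ.filter fun a => g a ≠ ∅

end fam

/-- the Kummer classes with support in `Z` -/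
def XF (p : ℕ) [NeZero p] (Z : Finset (Pl K)) : Finset (Pl K →₀ ZMod p) :=
  Z.finsupp fun _ => Finset.univ

theorem mem_XF [NeZero p] {Z : Finset (Pl K)} {i : Pl K →₀ ZMod p} :
    i ∈ XF p Z ↔ i.support ⊆ Z := by
  simp [XF, Finset.mem_finsupp_iff]

/-- the element of `Kˣ` -/
def xx (D : RD0 K p ζ) (i : Pl K →₀ ZMod p) : Kˣ := ∏ v ∈ i.support, D.pi v ^ (i v).val

/-- the class -/
def cl (D : RD0 K p ζ) (i : Pl K →₀ ZMod p) : Fin D.r → ZMod p := ∑ v ∈ i.support, i v • D.q v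

/-- the Kummer classes with support in `Z` of class `0` -/
def XC [NeZero p] (D : RD0 K p ζ) (Z : Finset (Pl K)) : Finset (Pl K →₀ ZMod p) :=
  (XF p Z).filter fun i => cl D i = 0

/-- the weight -/
def Wt (h : ℕ) (i : Pl K →₀ ZMod p) : ℝ := ∏ v ∈ i.support, (h : ℝ) / nm v

theorem Wt_nonneg (h : ℕ) (i : Pl K →₀ ZMod p) : 0 ≤ Wt h i :=
  Finset.prod_nonneg fun v _ => by positivity

/-- `k` is a relation between the symbols of the units outside `S0` and the support of `i` -/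
def IsRl (D : RD0 K p ζ) (i k : Pl K →₀ ZMod p) : Prop :=
  k.support ⊆ i.support ∧ ∀ n : Kˣ, (∀ v, v ∉ D.S0 → v ∉ i.support → ord v n = 0) →
    ∑ v ∈ i.support, k v * B p ζ v (xx D i) n = 0

/-- the relations -/
def Rl [NeZero p] (D : RD0 K p ζ) (i : Pl K →₀ ZMod p) : Finset (Pl K →₀ ZMod p) :=
  (XF p i.support).filter fun k => IsRl D i k

/-- the sum of the characters of order `p` at `xx i` -/
def Gr (D : RD0 K p ζ) (Z : Finset (Pl K)) (i : Pl K →₀ ZMod p) (j : ZMod p) : ℂ :=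
  ∑ v ∈ Z \ i.support, ep p (j * D.LL v (xx D i)) / (nm v : ℂ)

/-- representatives of the `S0`-units modulo `p`-th powers -/
structure UR (D : RD0 K p ζ) (U : Type) [CommGroup U] (F : U → Kˣ) : Prop where
  one : F 1 = 1
  mem : ∀ u v, v ∉ D.S0 → ord v (F u) = 0
  mul : ∀ u u', ∃ y : Kˣ, F (u * u') = F u * F u' * y ^ p
  inj : ∀ u, (∃ y : Kˣ, F u = y ^ p) → u = 1
  surj : ∀ x : Kˣ, (∀ v, v ∉ D.S0 → ord v x = 0) → ∃ (u : U) (y : Kˣ), x = F u * y ^ p

/-- the units `d` of order `0` outside `S0`, independent modulo `p`-th powers, and the subspace `𝒦` of the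
classes of their characters -/
structure DK (D : RD0 K p ζ) (e : ℕ) (d : Fin e → Kˣ)
    (𝒦 : Submodule (ZMod p) (Fin D.r → ZMod p)) : Prop where
  ord0 : ∀ j v, v ∉ D.S0 → ord v (d j) = 0
  ind : ∀ n : Fin e → ℤ, (∃ y : Kˣ, ∏ j, d j ^ n j = y ^ p) → ∀ j, (p : ℤ) ∣ n j
  iff : ∀ v, D.Gd v → ((∀ κ ∈ 𝒦, dt κ (D.q v) = 0) ↔ ∀ j, D.LL v (d j) = 0)
  rep : ∀ κ ∈ 𝒦, ∃ a : Fin e → ZMod p, ∀ v, D.Gd v → dt κ (D.q v) = ∑ j, a j * D.LL v (d j)

end H83.LW
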