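import Pool.Agent.H83.LW.ODD
import Pool.Agent.H83.LW.LDef
import Pool.Agent.H38.TD.XD
import Pool.Agent.H38.TD.US
import Pool.Agent.H38.TD.SelAbs
import Pool.Agent.H63.MA.RMkB

/-!
# [H83 LW UCRD] the units modulo `p`-th powers and the fixed units (three theorems, 110-170 lines)

* `sd_of`: `SD K (D.S0 : Set (Pl K))` with `π = D.pi` (`pi_self`, `pi_ne`, `od_eq`).
* `ucrd`: as `xdata` in `H38/TD/XD` (copy the proof): `U = TK K S ⧸ (p-th powers)`, `S = D.S0`, finite, `F` a section with `F 1 = 1`; it gives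
  `one, mem, mul, inj` (with `od_eq`), and `surj`: `x ∈ TK K S` is `F (class of x) * y^p`. Cardinality: `us` (`H38/TD/US`) with `x = 1`,
  `t = ∅`: `p^s ≤ p * #(image of TK K S in Kˣ ⧸ QXs p 1)`, `QXs p 1` = the `p`-th powers of `Kˣ`, and `U` maps onto this image. So
  `p^(s-1) ≤ #U`.
* `dkx`: `u^p = 1` for `u ∈ U` (`F (u^p)` is a `p`-th power: `F (u^n) = F u ^ n * y^p` by induction). `ind_extend` (`H38/TD/SelAbs`) with `ι = Empty`,
  `κ = Fin e`, `B = ⊤` (`Q = U`) gives `g : Fin e → U` with `Ind p g` (drop the empty part). `d j = F (g j)`. `ord0`: `hU.mem`. `ind`: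
  `∏ d j ^ n j = y^p` implies that `F (∏ g j ^ n j)` is a `p`-th power (`F` is multiplicative up to `p`-th powers, also for inverses), so
  `∏ g j ^ n j = 1` and `p ∣ n j`. By `D.rec1 (d j)` (all orders `0` outside `S0`, so the `finsum` is `0`) there is `κ j` with
  `LL v (d j) = dt (κ j) (q v)` for all good `v`. `𝒦 = span (range κ)`. `iff`, `rep`: elements of `𝒦` are `∑ a j • κ j`
  (`Submodule.mem_span_range_iff_exists_fun`), `dt` is bilinear. `card`: the `κ j` are linearly independent: if `∑ a j • κ j = 0` then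
  `x = ∏ d j ^ (a j).val` satisfies `LL v x = ∑ a j LL v (d j) = 0` for all good `v`, so `IsPow p x` (`D.non x`, `F = ∅`; `ord v x = 0` for good
  `v`), so `p ∣ (a j).val`, `a j = 0`. So `#𝒦 = p^e` (`finrank_span_eq_card`, `Module.natCard_eq_pow_finrank`, `Nat.card_zmod`).
-/

set_option autoImplicit false

open scoped NumberField Pointwise
open IsDedekindDomain
open scoped Classical

noncomputable section

namespace H83.LW

open H63.MA H38.BB

variable {K : Type} [Field K] [NumberField K] {p : ℕ} {ζ : K}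

theorem sd_of (D : RD0 K p ζ) : Nonempty {sd : H38.TD.SD K (D.S0 : Set (Pl K)) // sd.π = D.pi} := by
  refine ⟨⟨⟨D.pi, fun v hv => ?_, fun v hv v' hv' hne => ?_⟩, rfl⟩⟩
  · rw [od_eq]
    exact D.pi_self v fun h => hv (Finset.mem_coe.mpr h)
  · rw [od_eq]
    exact D.pi_ne v v' (fun h => hv (Finset.mem_coe.mpr h)) (fun h => hv' (Finset.mem_coe.mpr h))
      hne

theorem ucrd (hp : p.Prime) (D : RD0 K p ζ) (htc : NumberField.IsTotallyComplex K) (s : ℕ)
    (hs : s + 1 ≤ Fintype.card (NumberField.InfinitePlace K)) :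
    ∃ (U : Type) (_ : CommGroup U) (_ : Fintype U) (F : U → Kˣ), UR D U F ∧
      p ^ (s - 1) ≤ Fintype.card U := by
  classical
  obtain ⟨sd⟩ := sd_of D
  set S : Set (H38.TD.Pl K) := (D.S0 : Set (Pl K)) with hSdef
  have hS : S.Finite := Finset.finite_toSet _
  have hTK : ∀ x : Kˣ, x ∈ H38.TD.TK K S ↔ ∀ v, v ∉ D.S0 → ord v x = 0 := by
    intro x
    constructor
    · intro h v hv
      rw [← od_eq]
      exact h v fun h1 => hv (Finset.mem_coe.mp h1)
    · intro h v hv
      rw [od_eq]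
      exact h v fun h1 => hv (Finset.mem_coe.mpr h1)
  haveI := H38.TD.tk_fg K S hS
  obtain ⟨hne, -⟩ := H38.TD.fg_index (H38.TD.TK K S) p hp 0 (fun i => Fin.elim0 i)
    (fun n _ => Subsingleton.elim _ _)
  set R := (powMonoidHom p : H38.TD.TK K S →* H38.TD.TK K S).range with hR
  have hfi : R.FiniteIndex := ⟨hne⟩
  have hfin : Finite (H38.TD.TK K S ⧸ R) := inferInstance
  obtain ⟨g, hg1, hg⟩ : ∃ g : (H38.TD.TK K S ⧸ R) → H38.TD.TK K S,
      g 1 = 1 ∧ ∀ u, (QuotientGroup.mk (g u) : H38.TD.TK K S ⧸ R) = u := by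
    refine ⟨fun u => if u = 1 then 1 else u.out, by simp, fun u => ?_⟩
    by_cases hu : u = 1
    · simp only [if_pos hu, hu]
      rfl
    · simp only [if_neg hu]
      exact QuotientGroup.out_eq' u
  have hsur : ∀ x : H38.TD.TK K S, ∃ y : H38.TD.TK K S,
      x = g (QuotientGroup.mk x) * y ^ p := by
    intro x
    obtain ⟨y, hy⟩ := QuotientGroup.eq.1 (hg (QuotientGroup.mk x))
    refine ⟨y, ?_⟩
    have h3 : y ^ p = (g (QuotientGroup.mk x))⁻¹ * x := hy
    rw [h3, mul_inv_cancel_left]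
  letI := Fintype.ofFinite (H38.TD.TK K S ⧸ R)
  refine ⟨H38.TD.TK K S ⧸ R, inferInstance, inferInstance, fun u => (g u : Kˣ),
    ⟨?_, ?_, ?_, ?_, ?_⟩, ?_⟩
  · simp only [hg1, OneMemClass.coe_one]
  · intro u
    exact (hTK _).mp (g u).2
  · intro u u'
    obtain ⟨y, hy⟩ := QuotientGroup.eq.1 ((by
      rw [QuotientGroup.mk_mul, hg, hg, hg] : (QuotientGroup.mk (g u * g u') :
        H38.TD.TK K S ⧸ R) = QuotientGroup.mk (g (u * u'))))
    refine ⟨(y : Kˣ), ?_⟩
    have h2 : g (u * u') = g u * g u' * y ^ p := by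
      have h3 : y ^ p = (g u * g u')⁻¹ * g (u * u') := hy
      rw [h3, mul_inv_cancel_left]
    simp only [h2, Subgroup.coe_mul, Subgroup.coe_pow]
  · rintro u ⟨y, hy⟩
    have hy1 : y ∈ H38.TD.TK K S := by
      intro v hv
      have h1 := (g u).2 v hv
      rw [hy, H38.TD.od_pow] at h1
      have h2 : (p : ℤ) ≠ 0 := by exact_mod_cast hp.ne_zero
      rcases mul_eq_zero.1 h1 with h | h
      · exact absurd h h2
      · exact h
    rw [← hg u, QuotientGroup.eq_one_iff]
    refine ⟨⟨y, hy1⟩, ?_⟩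
    apply Subtype.ext
    exact hy.symm
  · intro x hx
    obtain ⟨y, hy⟩ := hsur ⟨x, (hTK x).mpr hx⟩
    exact ⟨_, (y : Kˣ), congrArg Subtype.val hy⟩
  · have h1 := H38.TD.us p hp 1 htc s hs S hS sd.1 ∅ (by simp)
    rw [Finset.card_empty, add_zero, Finset.coe_empty, Set.union_empty] at h1
    have h2 : Nat.card ((H38.TD.TK K S).map (QuotientGroup.mk' (H38.TD.QXs p 1))) ≤
        Fintype.card (H38.TD.TK K S ⧸ R) := by
      rw [← Nat.card_eq_fintype_card]
      refine Nat.card_le_card_of_surjective (fun u => ⟨QuotientGroup.mk' (H38.TD.QXs p 1)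
        (g u : Kˣ), Subgroup.mem_map_of_mem _ (g u).2⟩) ?_
      rintro ⟨_, x, hx, rfl⟩
      obtain ⟨y, hy⟩ := hsur ⟨x, hx⟩
      refine ⟨QuotientGroup.mk ⟨x, hx⟩, Subtype.ext ?_⟩
      have h3 : x = (g (QuotientGroup.mk ⟨x, hx⟩) : Kˣ) * (y : Kˣ) ^ p := congrArg Subtype.val hy
      change QuotientGroup.mk' (H38.TD.QXs p 1) (g (QuotientGroup.mk ⟨x, hx⟩) : Kˣ) =
        QuotientGroup.mk' (H38.TD.QXs p 1) x
      conv_rhs => rw [h3]
      rw [map_mul]
      have h4 : QuotientGroup.mk' (H38.TD.QXs p 1) ((y : Kˣ) ^ p) = 1 := by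
        rw [QuotientGroup.mk'_apply, QuotientGroup.eq_one_iff]
        exact Subgroup.mem_sup_right ⟨(y : Kˣ), rfl⟩
      rw [h4]
      exact (mul_one (QuotientGroup.mk' (H38.TD.QXs p 1) (g (QuotientGroup.mk ⟨x, hx⟩) : Kˣ))).symm
    have h3 := h1.trans (Nat.mul_le_mul_left p h2)
    rcases Nat.eq_zero_or_pos s with h0 | h0
    · rw [h0, Nat.zero_sub, pow_zero]
      exact Fintype.card_pos
    · have h4 : p ^ s = p * p ^ (s - 1) := by
        rw [← pow_succ']
        congr 1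
        omega
      rw [h4] at h3
      exact Nat.le_of_mul_le_mul_left h3 hp.pos

theorem dkx (hp : p.Prime) (hζ : IsPrimitiveRoot ζ p) (D : RD K p ζ) {U : Type} [CommGroup U]
    [Fintype U] (F : U → Kˣ) (hU : UR D.toRD0 U F) (e : ℕ) (he : p ^ e ≤ Fintype.card U) :
    ∃ (d : Fin e → Kˣ) (𝒦 : Submodule (ZMod p) (Fin D.r → ZMod p)),
      DK D.toRD0 e d 𝒦 ∧ Nat.card 𝒦 = p ^ e := by
  classical
  have : Fact p.Prime := ⟨hp⟩
  have : NeZero p := ⟨hp.ne_zero⟩
  -- the homomorphism to `Kˣ` modulo `p`-th powers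
  set Q := (powMonoidHom p : Kˣ →* Kˣ).range with hQdef
  let Φ : U →* Kˣ ⧸ Q := MonoidHom.mk' (fun u => QuotientGroup.mk (F u)) (by
    intro u u'
    obtain ⟨y, hy⟩ := hU.mul u u'
    rw [hy, QuotientGroup.mk_mul, QuotientGroup.mk_mul]
    have h1 : (QuotientGroup.mk (y ^ p) : Kˣ ⧸ Q) = 1 :=
      (QuotientGroup.eq_one_iff _).mpr ⟨y, rfl⟩
    rw [h1]
    exact mul_one (QuotientGroup.mk (F u) * QuotientGroup.mk (F u') : Kˣ ⧸ Q))
  have hΦ : ∀ u, Φ u = QuotientGroup.mk (F u) := fun u => rfl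
  have hinj : ∀ u, Φ u = 1 → u = 1 := by
    intro u hu
    rw [hΦ, QuotientGroup.eq_one_iff] at hu
    obtain ⟨y, hy⟩ := hu
    exact hU.inj u ⟨y, hy.symm⟩
  have hpow : ∀ u : U, u ^ p = 1 := by
    intro u
    apply hinj
    rw [map_pow, hΦ, ← QuotientGroup.mk_pow, QuotientGroup.eq_one_iff]
    exact ⟨F u, rfl⟩
  have hemp : H38.TD.Ind p (fun i : Empty => (1 : U)) := by
    intro n _ i
    exact i.elim
  obtain ⟨g, -, hg⟩ := H38.TD.ind_extend (κ := Fin e) p hp hpow (fun _ : Empty => (1 : U)) hemp ⊤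
    (by
      rw [Fintype.card_empty, zero_add, Fintype.card_fin, Subgroup.card_top,
        Nat.card_eq_fintype_card]
      exact he)
  have hg' : ∀ n : Fin e → ℤ, ∏ j, g j ^ n j = 1 → ∀ j, (p : ℤ) ∣ n j := by
    intro n hn j
    have h1 := hg (Sum.elim (fun i => i.elim) n) (by
      rw [Fintype.prod_sum_type]
      simpa using hn) (Sum.inr j)
    exact h1
  set d : Fin e → Kˣ := fun j => F (g j) with hd
  have hd0 : ∀ j v, v ∉ D.S0 → ord v (d j) = 0 := fun j v hv => hU.mem _ v hv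
  have hind : ∀ n : Fin e → ℤ, (∃ y : Kˣ, ∏ j, d j ^ n j = y ^ p) → ∀ j, (p : ℤ) ∣ n j := by
    rintro n ⟨y, hy⟩
    apply hg' n
    apply hinj
    rw [map_prod]
    have h1 : ∀ j, Φ (g j ^ n j) = QuotientGroup.mk (d j ^ n j) := by
      intro j
      rw [map_zpow, hΦ, ← QuotientGroup.mk_zpow]
    rw [Finset.prod_congr rfl fun j _ => h1 j]
    have h2 : (QuotientGroup.mk (∏ j, d j ^ n j) : Kˣ ⧸ Q) =
        ∏ j, (QuotientGroup.mk (d j ^ n j) : Kˣ ⧸ Q) := map_prod (QuotientGroup.mk' Q) _ _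
    rw [← h2, hy, QuotientGroup.eq_one_iff]
    exact ⟨y, rfl⟩
  have hκ : ∀ j : Fin e, ∃ κ : Fin D.r → ZMod p, ∀ v, D.Gd v → D.LL v (d j) = dt κ (D.q v) := by
    intro j
    obtain ⟨κ, h⟩ := D.rec1 (d j)
    refine ⟨κ, fun v hv => ?_⟩
    rw [h v hv]
    have h1 : ∀ w : Pl K, (if w ∈ D.S0 then (0 : ZMod p) else
        D.lam w * (ord w (d j) : ZMod p) * D.LL w (D.pi v)) = 0 := by
      intro w
      split_ifs with hw
      · rfl
      · rw [hd0 j w hw, Int.cast_zero, mul_zero, zero_mul]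
    rw [finsum_congr h1, finsum_zero, add_zero]
    rfl
  choose κ hκ using hκ
  have hdtsum : ∀ (a : Fin e → ZMod p) (x : Fin D.r → ZMod p),
      dt (∑ j, a j • κ j) x = ∑ j, a j * dt (κ j) x := by
    intro a x
    unfold dt
    simp only [Finset.sum_apply, Pi.smul_apply, smul_eq_mul, Finset.sum_mul, Finset.mul_sum]
    rw [Finset.sum_comm]
    simp only [mul_assoc]
  have hrep : ∀ κ' ∈ Submodule.span (ZMod p) (Set.range κ), ∃ a : Fin e → ZMod p,
      ∀ v, D.Gd v → dt κ' (D.q v) = ∑ j, a j * D.LL v (d j) := by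
    intro κ' h
    obtain ⟨a, rfl⟩ := (Submodule.mem_span_range_iff_exists_fun (ZMod p)).mp h
    refine ⟨a, fun v hv => ?_⟩
    rw [hdtsum]
    exact Finset.sum_congr rfl fun j _ => by rw [hκ j v hv]
  have hmem : ∀ j, κ j ∈ Submodule.span (ZMod p) (Set.range κ) := fun j =>
    Submodule.subset_span ⟨j, rfl⟩
  refine ⟨d, Submodule.span (ZMod p) (Set.range κ), ⟨hd0, hind, fun v hv => ⟨fun h j => ?_,
    fun h κ' h' => ?_⟩, hrep⟩, ?_⟩
  · rw [hκ j v hv]
    exact h _ (hmem j)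
  · obtain ⟨a, ha⟩ := hrep κ' h'
    rw [ha v hv]
    exact Finset.sum_eq_zero fun j _ => by rw [h j, mul_zero]
  · have hli : LinearIndependent (ZMod p) κ := by
      rw [Fintype.linearIndependent_iff]
      intro a ha
      have hx : IsPow p (∏ j, d j ^ (a j).val) := by
        by_contra hx
        obtain ⟨v, hv, _, _, hL⟩ := D.non _ hx ∅
        apply hL
        have h1 : ∀ (s : Finset (Fin e)), D.LL v (∏ j ∈ s, d j ^ (a j).val) =
            ∑ j ∈ s, a j * D.LL v (d j) := by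
          intro s
          induction s using Finset.induction_on with
          | empty => rw [Finset.prod_empty, Finset.sum_empty]; exact LL_one hp hζ D.toRD0 hv.1
          | insert j s hj ih =>
            rw [Finset.prod_insert hj, Finset.sum_insert hj, LL_mul hp hζ D.toRD0 hv.1, ih]
            congr 1
            have h2 := LL_zpow hp hζ D.toRD0 hv.1 (d j) ((a j).val : ℤ)
            rw [zpow_natCast] at h2
            rw [h2, Int.cast_natCast, ZMod.natCast_zmod_val]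
        rw [h1]
        have h2 : ∑ j, a j * D.LL v (d j) = dt (∑ j, a j • κ j) (D.q v) := by
          rw [hdtsum]
          exact Finset.sum_congr rfl fun j _ => by rw [hκ j v hv]
        rw [h2, ha]
        unfold dt
        simp
      obtain ⟨y, hy⟩ := hx
      intro j
      have h1 := hind (fun j => ((a j).val : ℤ)) ⟨y, by
        rw [hy]
        exact Finset.prod_congr rfl fun j _ => zpow_natCast _ _⟩ j
      have h2 : p ∣ (a j).val := by exact_mod_cast h1
      have h3 := Nat.eq_zero_of_dvd_of_lt h2 (ZMod.val_lt _)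
      exact (ZMod.val_eq_zero _).mp h3
    rw [Module.natCard_eq_pow_finrank (K := ZMod p), finrank_span_eq_card hli, Nat.card_zmod,
      Fintype.card_fin]

end H83.LW
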