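import Pool.Agent.H83.LW.NRMT
import Pool.Agent.H83.LW.UCRD
import Pool.Agent.H83.LW.GRPB
import Pool.Agent.H83.LW.HCTP
import Pool.Agent.H38.TD.KxE

/-!
# [H83 LW HXM] the homomorphisms over a good class (assembly; proved)

Compare `adata_x` in `H38/TD/Adata.lean`. `S = (D.S0 : Set (Pl K))`, `x = xx D i`, `supp = i.support`. `¬ IsPow p x` (`xx_np`), so `kxe`
(`H38/TD/KxE`) gives `M`, `DX : KX K M p ζp x`; `NumberField M` (`NumberField.of_module_finite K M`). `Sp v = Spl DX.γ v` (for `v : Pl K`).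
* first property: `spl_of_LL` (`ODD`): `ord v x = 0` for `v ∉ S0 ∪ supp` (`ord_xx`).
* `kum_of` gives `H : Kum p K ζp x M`; `good_norm` gives for every `j : Fin e` an element `y j : Mˣ` with `Nm K M (y j) = d j` and of order `0` at all
  primes of `M` not over `S0`: `y j ∈ TU K M S` (`od_eq`, `ov_iff`), `nU K M (y j) = d j` (`nm_nU`).
* `hind` of `homcnt'`: if `∏ (d j)^{n j} = x^l y^p`, take the order at some `v ∈ supp` (`i ≠ 0`): `0 = l (i v).val + p (…)`, so `p ∣ l`, `l = p l'`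
  (`p` prime, `0 < (i v).val < p`), and `∏ (d j)^{n j} = (x^{l'} y)^p`: `hK.ind`.
* `H R`: for `R` with `R ∩ S0 = ∅`, disjoint from `supp`, and (`flag` or `#supp ≤ #(R.filter Sp)`): from `homcnt'` with `B = Bg pd`
  (`grpb_st`, `ker_le_Bg`, `fx_le_Bg`, `tp_le_Bg`), `J0 = Fin e`, `mm = m`, `e0 = y`, `J2 = Empty` if `flag` holds and `J2 = tp A p` (`c2 = Subtype.val`)
  otherwise (as in `homcnt`, end of `H38/TD/HomCnt.lean`). `hgen`: `flag`: `closure (ker ∪ fx) = Bg`, so the closure contains `Bg` and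
  `range m`, hence is `⊤` by `hm`; otherwise the closure contains `ker, fx, tp`, so `Bg`. `sp = R.filter Sp`. `hs1 : 4 #A + 1 ≤ s`;
  `#(Fin e) = e ≤ #A`: `he`. `H R = ∅` for the other `R`.
  `x ∈ TK K (S ∪ supp)`, `hram`: `ord_xx`, `od_eq`. `hSp`: `D.above` (`Above p v` is `(p : 𝓞 K) ∈ v.asIdeal`). `sd` from `sd_of`.
-/

set_option autoImplicit false

open scoped NumberField Pointwise
open scoped Classical

noncomputable section

namespace H83.LW

open H38.TD H38.ML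

variable {K Ω : Type} [Field K] [NumberField K] [Field Ω] [Algebra K Ω] [IsAlgClosure K Ω]

/-- no condition on the number of split places is needed -/
def Flg {A P : Type} [CommGroup A] [Group P] {p : ℕ} (pd : H38.TD.PD p A P) : Prop :=
  Subgroup.closure (((nh pd.θ p).ker : Set A) ∪ (fx pd.θ : Set A)) = Bg pd

private theorem hxm_zpow {K : Type} [Field K] [NumberField K] (v : H38.TD.Pl K) (x : Kˣ) (n : ℤ) :
    od v (x ^ n) = n * od v x := by
  unfold od
  rw [map_zpow, toAdd_zpow]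
  simp

theorem hxm {A P : Type} [CommGroup A] [Finite A] [Group P] [Finite P] {p : ℕ} [NeZero p]
    (pd : H38.TD.PD p A P) (hp : p.Prime) (hp2 : H63.MA.MOne p K) (k : ℕ) (ζ : K)
    (hζ : IsPrimitiveRoot ζ (p ^ k)) (ζp : K)
    (hζp : IsPrimitiveRoot ζp p) (hA : ∀ t : A, t ^ p ^ k = 1)
    (htc : NumberField.IsTotallyComplex K) (s : ℕ)
    (hs : s + 1 ≤ Fintype.card (NumberField.InfinitePlace K)) (hs1 : 4 * Nat.card A + 1 ≤ s)
    (D : H63.MA.RD0 K p ζp) (e : ℕ) (he : e ≤ Nat.card A) (m : Fin e → A)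
    (hm : Subgroup.closure ((Bg pd : Set A) ∪ Set.range m) = ⊤)
    (d : Fin e → Kˣ) (𝒦 : Submodule (ZMod p) (Fin D.r → ZMod p)) (hK : DK D e d 𝒦)
    (i : H63.MA.Pl K →₀ ZMod p) (hi : ∀ v ∈ i.support, D.Gd v)
    (hcl : cl D i = 0) (hne : i ≠ 0) (hgood : (Rl D i).card = p)
    (hY : ∀ v ∈ i.support, ∀ κ ∈ 𝒦, H63.MA.dt κ (D.q v) = 0) :
    ∃ (Sp : H63.MA.Pl K → Prop) (H : Finset (H63.MA.Pl K) → Finset (Gal(Ω/K) →* P)),
      (∀ v, v ∉ D.S0 → v ∉ i.support → D.LL v (xx D i) = 0 → Sp v) ∧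
      (∀ R : Finset (H63.MA.Pl K), (∀ v ∈ R, v ∉ D.S0) → Disjoint i.support R →
        (Flg pd ∨ i.support.card ≤ (R.filter Sp).card) →
        (Nat.card (fx pd.θ) / Nat.card ((Bg pd).map (nh pd.θ p))) ^ i.support.card *
          (Nat.card (tp A p) ^ (R.filter Sp).card *
            Nat.card (fx pd.θ ⊓ tp A p : Subgroup A) ^ (R.card - (R.filter Sp).card)) ≤
          (H R).card) ∧
      ∀ R, ∀ ρ ∈ H R, Function.Surjective ρ ∧ FT ρ ∧ OverX pd ζp (xx D i) ρ ∧
        (∀ v, v ∉ D.S0 → v ∉ i.support → v ∉ R → UnrAt ρ v.asIdeal) ∧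
        ∀ v, v ∉ D.S0 → SmallAt p ρ v.asIdeal := by
  have hiS : ∀ v ∈ i.support, v ∉ D.S0 := fun v hv => (hi v hv).1
  obtain ⟨sd, -⟩ := (sd_of D).some
  have hSp : ∀ v : H38.TD.Pl K, v ∉ (D.S0 : Set (H63.MA.Pl K)) → ((p : ℕ) : 𝓞 K) ∉ v.asIdeal := by
    intro v hv h
    exact hv (Finset.mem_coe.2 (D.above v h))
  have hnp : ∀ y : Kˣ, y ^ p ≠ xx D i := by
    intro y hy
    exact xx_np hp D i hiS hne ⟨y, hy⟩
  obtain ⟨M, hM1, hM2, ⟨DX⟩⟩ := kxe (Ω := Ω) p hp ζp hζp (xx D i) hnp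
  have hM3 : NumberField M := NumberField.of_module_finite K M
  obtain ⟨HK⟩ := kum_of (K := K) (M := M) hp DX
  have hxT : xx D i ∈ TK K ((D.S0 : Set (H63.MA.Pl K)) ∪ (i.support : Set (H63.MA.Pl K))) := by
    intro v hv
    rw [Set.mem_union, not_or] at hv
    rw [od_eq, ord_xx D i hiS (fun h => hv.1 (Finset.mem_coe.2 h)),
      Finsupp.notMem_support_iff.1 (fun h => hv.2 (Finset.mem_coe.2 h)), ZMod.val_zero]
    rfl
  have hval : ∀ v ∈ i.support, 0 < (i v).val ∧ (i v).val < p := by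
    intro v hv
    refine ⟨Nat.pos_of_ne_zero fun h => ?_, ZMod.val_lt _⟩
    exact (Finsupp.mem_support_iff.1 hv) ((ZMod.val_eq_zero _).1 h)
  have hram : ∀ v ∈ i.support, ¬ (p : ℤ) ∣ od v (xx D i) := by
    intro v hv h
    rw [od_eq, ord_xx D i hiS (hiS v hv)] at h
    have h4 : p ∣ (i v).val := by exact_mod_cast h
    exact absurd (Nat.le_of_dvd (hval v hv).1 h4) (not_le.2 (hval v hv).2)
  -- the units
  have hnorm : ∀ j : Fin e, ∃ y : Mˣ, H63.MA.Nm K M y = d j ∧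
      ∀ w : H63.MA.Pl M, (∀ v ∈ D.S0, ¬ H63.MA.Over w v) → H63.MA.ord w y = 0 := by
    intro j
    refine good_norm hp hp2 hζp D i hiS hcl hgood HK (d j) (hK.ord0 j) ?_
    intro v hv
    exact (hK.iff v (hi v hv)).1 (hY v hv) j
  choose y hy1 hy2 using hnorm
  have hyT : ∀ j, y j ∈ TU K M (D.S0 : Set (H63.MA.Pl K)) := by
    intro j w hw
    rw [od_eq]
    exact hy2 j w fun v hv h => hw v (Finset.mem_coe.2 hv) ((ov_iff w v).2 h)
  have hind : ∀ n : Fin e → ℤ, (∃ (l : ℤ) (z : Kˣ), ∏ j, nU K M (y j) ^ n j =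
      xx D i ^ l * z ^ p) → ∀ j, (p : ℤ) ∣ n j := by
    rintro n ⟨l, z, h⟩
    have h0 : ∏ j, d j ^ n j = xx D i ^ l * z ^ p := by
      rw [← h]
      refine Finset.prod_congr rfl fun j _ => ?_
      rw [nm_nU, hy1]
    obtain ⟨v, hv⟩ : i.support.Nonempty := Finsupp.support_nonempty_iff.2 hne
    have hord : od v (∏ j, d j ^ n j) = 0 := by
      have : ∏ j, d j ^ n j ∈ TK K (D.S0 : Set (H63.MA.Pl K)) := by
        refine prod_mem fun j _ => zpow_mem ?_ _
        intro w hw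
        rw [od_eq]
        exact hK.ord0 j w fun h => hw (Finset.mem_coe.2 h)
      exact this v fun h => hiS v hv (Finset.mem_coe.1 h)
    rw [h0, od_mul] at hord
    have e1 : od v (xx D i ^ l) = l * ((i v).val : ℤ) := by
      rw [hxm_zpow, od_eq, ord_xx D i hiS (hiS v hv)]
    have e2 : od v (z ^ p) = (p : ℤ) * od v z := by
      rw [← zpow_natCast, hxm_zpow]
    rw [e1, e2] at hord
    have h5 : (p : ℤ) ∣ l * ((i v).val : ℤ) := ⟨-od v z, by linarith⟩
    have hpz : Prime (p : ℤ) := Nat.prime_iff_prime_int.1 hp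
    rcases hpz.dvd_or_dvd h5 with h6 | h6
    · obtain ⟨l', rfl⟩ := h6
      refine hK.ind n ⟨xx D i ^ l' * z, ?_⟩
      rw [h0, mul_pow, ← zpow_natCast (xx D i ^ l'), ← zpow_mul, mul_comm l' (p : ℤ)]
    · exfalso
      have h7 : p ∣ (i v).val := by exact_mod_cast h6
      exact absurd (Nat.le_of_dvd (hval v hv).1 h7) (not_le.2 (hval v hv).2)
  set Sp : H63.MA.Pl K → Prop := fun v => Spl DX.γ v with hSpdef
  have main : ∀ R : Finset (H63.MA.Pl K), (∀ v ∈ R, v ∉ D.S0) → Disjoint i.support R →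
        (Flg pd ∨ i.support.card ≤ (R.filter Sp).card) →
      ∃ H : Finset (Gal(Ω/K) →* P),
        (Nat.card (fx pd.θ) / Nat.card ((Bg pd).map (nh pd.θ p))) ^ i.support.card *
          (Nat.card (tp A p) ^ (R.filter Sp).card *
            Nat.card (fx pd.θ ⊓ tp A p : Subgroup A) ^ (R.card - (R.filter Sp).card)) ≤
          H.card ∧
        ∀ ρ ∈ H, Function.Surjective ρ ∧ FT ρ ∧ OverX pd ζp (xx D i) ρ ∧
        (∀ v, v ∉ D.S0 → v ∉ i.support → v ∉ R → UnrAt ρ v.asIdeal) ∧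
        ∀ v, v ∉ D.S0 → SmallAt p ρ v.asIdeal := by
    intro R hR hdis hfl
    have hspm : ∀ v, v ∈ R.filter Sp ↔ v ∈ R ∧ Spl DX.γ v := by
      intro v
      rw [Finset.mem_filter]
    have key : ∀ (J2 : Type) (_ : Fintype J2) (c2 : J2 → A), (∀ j, c2 j ^ p = 1) →
        Fintype.card J2 ≤ Nat.card A → (IsEmpty J2 ∨ i.support.card ≤ (R.filter Sp).card) →
        Subgroup.closure (((nh pd.θ p).ker : Set A) ∪ (fx pd.θ : Set A) ∪ Set.range c2 ∪
          Set.range m) = ⊤ → ∃ H : Finset (Gal(Ω/K) →* P),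
        (Nat.card (fx pd.θ) / Nat.card ((Bg pd).map (nh pd.θ p))) ^ i.support.card *
          (Nat.card (tp A p) ^ (R.filter Sp).card *
            Nat.card (fx pd.θ ⊓ tp A p : Subgroup A) ^ (R.card - (R.filter Sp).card)) ≤
          H.card ∧
        ∀ ρ ∈ H, Function.Surjective ρ ∧ FT ρ ∧ OverX pd ζp (xx D i) ρ ∧
        (∀ v, v ∉ D.S0 → v ∉ i.support → v ∉ R → UnrAt ρ v.asIdeal) ∧
        ∀ v, v ∉ D.S0 → SmallAt p ρ v.asIdeal := by
      intro J2 _ c2 hc2 hJ2 hfl' hgen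
      obtain ⟨H, hH1, hH2⟩ := homcnt' (Ω := Ω) pd hp k ζ hζ ζp hζp hA htc s hs hs1
        (D.S0 : Set (H63.MA.Pl K)) (Finset.finite_toSet _) sd hSp (xx D i) M DX i.support R
        (R.filter Sp) (fun v hv h => hiS v hv (Finset.mem_coe.1 h))
        (fun v hv h => hR v hv (Finset.mem_coe.1 h)) hdis hxT hram hspm (Bg pd)
        (fun b hb => grpb_st pd b hb) (ker_le_Bg pd) (fx_le_Bg pd) (tp_le_Bg pd) m y hyT hind
        (by rw [Fintype.card_fin]; exact he) c2 hc2 hJ2 hfl' hgen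
      refine ⟨H, hH2, ?_⟩
      intro ρ hρ
      obtain ⟨h1, h2, h3, h4, h5⟩ := hH1 ρ hρ
      exact ⟨h1, h2, h3, fun v hv => h4 v (fun h => hv (Finset.mem_coe.1 h)),
        fun v hv => h5 v (fun h => hv (Finset.mem_coe.1 h))⟩
    rcases hfl with hF | hcard
    · refine key Empty inferInstance (fun j => j.elim) (fun j => j.elim) (by simp)
        (Or.inl inferInstance) ?_
      rw [eq_top_iff, ← hm, Subgroup.closure_le]
      rintro a (ha | ha)
      · have h1 : a ∈ Subgroup.closure (((nh pd.θ p).ker : Set A) ∪ (fx pd.θ : Set A)) := by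
          rw [show Subgroup.closure (((nh pd.θ p).ker : Set A) ∪ (fx pd.θ : Set A)) = Bg pd
            from hF]
          exact ha
        refine Subgroup.closure_mono ?_ h1
        intro b hb
        exact Or.inl (Or.inl hb)
      · exact Subgroup.subset_closure (Or.inr ha)
    · let _ : Fintype (tp A p) := Fintype.ofFinite _
      refine key (tp A p) inferInstance (fun j => (j : A)) (fun j => (grpb_mem_tp _).1 j.2)
        ?_ (Or.inr hcard) ?_
      · rw [← Nat.card_eq_fintype_card]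
        exact Subgroup.card_le_card_group _
      · rw [eq_top_iff, ← hm, Subgroup.closure_le]
        rintro a (ha | ha)
        · refine Subgroup.closure_mono ?_ (show a ∈ Subgroup.closure _ from ha)
          rintro b ((hb | hb) | hb)
          · exact Or.inl (Or.inl (Or.inl hb))
          · exact Or.inl (Or.inl (Or.inr hb))
          · exact Or.inl (Or.inr ⟨⟨b, hb⟩, rfl⟩)
        · exact Subgroup.subset_closure (Or.inr ha)
  refine ⟨Sp, fun R => if h : (∀ v ∈ R, v ∉ D.S0) ∧ Disjoint i.support R ∧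
    (Flg pd ∨ i.support.card ≤ (R.filter Sp).card) then (main R h.1 h.2.1 h.2.2).choose else ∅,
    ?_, ?_, ?_⟩
  · intro v h1 h2 h3
    refine spl_of_LL hp hζp DX D v h1 ?_ h3
    rw [ord_xx D i hiS h1, Finsupp.notMem_support_iff.1 h2, ZMod.val_zero]
    rfl
  · intro R h1 h2 h3
    have h : (∀ v ∈ R, v ∉ D.S0) ∧ Disjoint i.support R ∧
      (Flg pd ∨ i.support.card ≤ (R.filter Sp).card) := ⟨h1, h2, h3⟩
    simp only [dif_pos h]
    exact (main R h1 h2 h3).choose_spec.1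
  · intro R ρ hρ
    simp only at hρ
    split_ifs at hρ with h
    · exact (main R h.1 h.2.1 h.2.2).choose_spec.2 ρ hρ
    · simp at hρ

end H83.LW
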