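import Pool.Agent.H83.LW.CNTA
import Pool.Agent.H83.LW.HXM
import Pool.Agent.H83.LW.ANAT
import Pool.Agent.H38.TD.MertA
import Pool.Agent.H38.TD.Adata
import Pool.Agent.H38.TD.TdMain

/-!
# [H83 LW CNTT] the weighted count of the homomorphisms (assembly, 180-260 lines)

`h₀ = #fx / #range N`, `q = #(fx ⊓ tp)`, `V = #tp`. `grpb1` gives `e'`, `m` with `index Bg = p^e'`; the hypothesis `hB : Bg pd ≠ ⊤` gives `e' ≥ 1` (index `1` means
`⊤`); `ϖ = h₀ p^(e'-1)`, `p ϖ = h₀ p^e'`, `ϖ ≥ 1` as `h₀ ≥ 1` (`range N ≤ fx`: `Subgroup.card_le_of_le`, `adata_range` in `H38/TD/Adata`).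
`D : RD K p ζp` from `exists_RD_of` (`H38/BB/RdOf`) with `S0 ⊇ S₀` (finite); `S = (D.S0 : Set (Pl K))`; `sd_of`. `ucrd`: `U, F`, `p^(s-1) ≤ #U`;
`32 p^e' ≤ p^(e'+5) ≤ p^(s-1)` as `s - 1 ≥ 4 #A ≥ e' + 5` (`#A ≥ #A/#Bg = p^e' ≥ e' + 1`, `p^e' ≥ 2`). `dkx`: `d, 𝒦`.
`hxm` for every good `i` (`IsGd`): choose `Sp i`, `H i` (by `choose`, or `if h : IsGd … then … else …`). `flag = Flg pd`; `hflag`: `grpb2`, where
`2 (p-1) h₀ p ≤ 2 (p-1) (h₀ p^e') p ≤ V`. `cnta` for `ε / 2` gives `w, c, K₃, z₀`.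
`X` large, `z = exp(δ log X)`, `Λ = (1/4) log X`, `Z₁ = ZY D ⊥ w z`. `mert_log` (`H38/TD/MertB`): `∑_{v ∈ Zs S w z} log nv / nv ≤ C₂ log z = C₂ δ log X`;
`δ = 1 / (4 C₂ K₃)` (`Z₁` injects into `Zs S w z`). So `cnta` gives `I`.
`xi ρ` := the good `i` with `ρ ∈ H i R` for some `R` if there is one (unique: `kdet` (`H38/TD/KxE`) gives `xx i = xx i' y^p`; comparing the orders at
all `v ∉ S0`: `(i v).val ≡ (i' v).val mod p`, so `i = i'`, `ord_xx`), `0` otherwise. `r ρ = Z₁.filter (v ∉ supp (xi ρ) ∧ ¬ UnrAt ρ v)`. For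
`(i, R) ∈ I`, `ρ ∈ H i R`: `xi ρ = i`, `r ρ ⊆ R`. `F = I.biUnion H`, `anat` with `N = nm`, `Z = Z₁`, `supp = support`:
`∑_{(i,R) ∈ I} #(H i R) Pv (supp i) Pv R ≤ exp(L) ∑_{ρ ∈ F} Pv (supp (xi ρ) ∪ r ρ)`, `L = LY D ⊥ w z`.
The left side is `≥ ∑ Wt (p ϖ) i ∏_{v ∈ R} (if Sp then V else q) / nm v` by `hxm` (`h_B^#supp V^#spl q^(#R - #spl) ≤ #(H i R)`, where
`h_B = #fx / #(Bg.map N) = h₀ p^e' = p ϖ`; `∏_{v ∈ R} f v = V^#spl q^(#R - #spl)`: see `ana10_prod_f`, `ana10_prod_div` in `H38/TD/Ana10`).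
So `∑_{ρ ∈ F} Pv (T₁ ρ) ≥ c exp(((p-1) h₀ + fb - 1) L)`, `T₁ ρ = supp (xi ρ) ∪ r ρ`.
Transfer to `Po K S`: `Z = Z₁.subtype (· ∉ S)`, `Tr ρ = (T₁ ρ).subtype (· ∉ S)` (all elements of `Z₁` are outside `S0`): `Lv`, `Pv`, `Ln` do not change
(`Finset.sum_subtype…`, `nv = nm`). Properties of `ρ ∈ H i R`, `(i, R) ∈ I`: `Tr ρ ⊆ Z`; `Ln (Tr ρ) ≤ Ln (supp i) + Ln R ≤ 2 Λ = (1/2) log X`; `Lv ≤ ε/2 + ε/2`;
surjective, `FT`, `SmallAt` from `hxm`; unramified outside `Tr ρ`: if `v ∉ supp i`, `v ∉ r ρ`: if `v ∈ R ⊆ Z₁` then `UnrAt` by definition of `r`, and if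
`v ∉ R` by `hxm`.
Lower bound for `exp(Lv Z)`: `lg_low`: `L ≥ Li (gdY D z) - Li (gdY D w) ≥ log log z - C`, `log z = δ log X`, so `exp L ≥ c₃ log X`.
-/

set_option autoImplicit false

open scoped NumberField Pointwise
open scoped Classical

noncomputable section

namespace H83.LW

open H38.TD H38.ML

variable {K Ω : Type} [Field K] [NumberField K] [Field Ω] [Algebra K Ω] [IsAlgClosure K Ω]

section aux

open H63.MA H38.BB

theorem cntt_prod {Pt : Type} (N : Pt → ℕ) (Sp : Pt → Prop) (V q : ℕ) (R : Finset Pt) :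
    ∏ v ∈ R, (if Sp v then (V : ℝ) else q) / (N v : ℝ) =
      (V : ℝ) ^ (R.filter Sp).card * (q : ℝ) ^ (R.card - (R.filter Sp).card) *
        H38.TD.Pv N R := by
  rw [H38.TD.ana10_prod_div, Finset.prod_ite, Finset.prod_const, Finset.prod_const]
  have h1 : (R.filter fun v => ¬ Sp v).card = R.card - (R.filter Sp).card := by
    have h2 : (R.filter Sp).card + (R.filter fun v => ¬ Sp v).card = R.card :=
      Finset.card_filter_add_card_filter_not _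
    omega
  rw [h1]

theorem cntt_Wt {K : Type} [Field K] [NumberField K] {p : ℕ} (h : ℕ)
    (i : H63.MA.Pl K →₀ ZMod p) :
    Wt h i = (h : ℝ) ^ i.support.card * H38.TD.Pv (fun v => nm v) i.support := by
  unfold Wt
  rw [← Finset.prod_const, ← H38.TD.ana10_prod_div]

theorem cntt_inj {K : Type} [Field K] [NumberField K] {p : ℕ} [NeZero p] {ζ : K}
    (D : RD0 K p ζ) (i i' : H63.MA.Pl K →₀ ZMod p)
    (hi : ∀ v ∈ i.support, v ∉ D.S0) (hi' : ∀ v ∈ i'.support, v ∉ D.S0) (y : Kˣ)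
    (h : xx D i = xx D i' * y ^ p) : i = i' := by
  ext v
  by_cases hv : v ∈ D.S0
  · have h1 : i v = 0 := by
      by_contra h0
      exact hi v (Finsupp.mem_support_iff.mpr h0) hv
    have h2 : i' v = 0 := by
      by_contra h0
      exact hi' v (Finsupp.mem_support_iff.mpr h0) hv
    rw [h1, h2]
  · have h1 := congrArg (ord v) h
    rw [ord_mul, ord_pow, ord_xx D i hi hv, ord_xx D i' hi' hv] at h1
    have h2 := congrArg (fun a : ℤ => (a : ZMod p)) h1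
    push_cast at h2
    rw [ZMod.natCast_zmod_val, ZMod.natCast_zmod_val, CharP.cast_eq_zero, zero_mul, add_zero] at h2
    exact h2

theorem cntt_mem {K : Type} [Field K] [NumberField K] {p : ℕ} {ζ : K} {D : RD0 K p ζ} {w z : ℝ}
    {v : H63.MA.Pl K} (hv : v ∈ ZY D ⊥ w z) : D.Gd v ∧ w < nm v ∧ (nm v : ℝ) ≤ z :=
  ⟨(mem_ZY.mp hv).2.1, (mem_ZY.mp hv).2.2.1, (mem_ZY.mp hv).1⟩

/-- the lower bound for the sum of the inverses of the norms -/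
theorem cntt_low {K : Type} [Field K] [NumberField K] {p : ℕ} {ζ : K} (D : RD0 K p ζ) (w : ℝ) :
    ∃ c : ℝ, 0 < c ∧ ∀ z : ℝ, 3 ≤ z → c * Real.log z ≤ Real.exp (LY D ⊥ w z) := by
  obtain ⟨C, _, hC⟩ := lg_low D
  refine ⟨Real.exp (-(C + Li (gdY D w))), Real.exp_pos _, fun z hz => ?_⟩
  have hlz : 0 < Real.log z := Real.log_pos (by linarith)
  have h1 : Li (gdY D z) ≤ Li (ZY D ⊥ w z) + Li (gdY D w) := by
    unfold Li
    have h2 : gdY D z ⊆ ZY D ⊥ w z ∪ gdY D w := by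
      intro v hv
      rw [Finset.mem_union]
      by_cases h : w < nm v
      · left
        rw [mem_ZY]
        rw [chr_mem] at hv
        refine ⟨hv.1, hv.2, h, fun κ hκ => ?_⟩
        rw [(Submodule.mem_bot _).mp hκ]
        unfold dt
        simp
      · right
        rw [chr_mem] at hv ⊢
        exact ⟨not_lt.mp h, hv.2⟩
    refine (Finset.sum_le_sum_of_subset_of_nonneg h2 fun _ _ _ => by positivity).trans ?_
    have h3 := Finset.sum_union_inter (s₁ := ZY D ⊥ w z) (s₂ := gdY D w)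
      (f := fun v => 1 / (nm v : ℝ))
    have h4 : 0 ≤ ∑ v ∈ ZY D ⊥ w z ∩ gdY D w, 1 / (nm v : ℝ) :=
      Finset.sum_nonneg fun _ _ => by positivity
    linarith
  have h2 := hC z hz
  have h3 : Real.log (Real.log z) - (C + Li (gdY D w)) ≤ LY D ⊥ w z := by
    unfold LY
    linarith
  calc Real.exp (-(C + Li (gdY D w))) * Real.log z
      = Real.exp (Real.log (Real.log z) - (C + Li (gdY D w))) := by
        rw [sub_eq_add_neg, Real.exp_add, Real.exp_log hlz, mul_comm]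
    _ ≤ _ := Real.exp_le_exp.mpr h3

theorem cntt_log {K : Type} [Field K] [NumberField K] {p : ℕ} {ζ : K} (D : RD0 K p ζ)
    (w z : ℝ) : ∑ v ∈ ZY D ⊥ w z, Real.log (nm v) / nm v ≤
      ∑ v ∈ H38.TD.Zs (D.S0 : Set (H38.TD.Pl K)) w z,
        Real.log (H38.TD.nv v.1) / (H38.TD.nv v.1 : ℝ) := by
  have h1 : ∀ v ∈ ZY D ⊥ w z, v ∉ (D.S0 : Set (H38.TD.Pl K)) := by
    intro v hv h
    exact (cntt_mem hv).1.1 (Finset.mem_coe.mp h)
  rw [← Finset.sum_subtype_of_mem (p := fun v => v ∉ (D.S0 : Set (H38.TD.Pl K))) _ h1]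
  refine Finset.sum_le_sum_of_subset_of_nonneg ?_ fun v _ _ => ?_
  · intro v hv
    rw [Finset.mem_subtype] at hv
    rw [H38.TD.mem_Zs]
    exact ⟨(cntt_mem hv).2.2, (cntt_mem hv).2.1⟩
  · exact div_nonneg (Real.log_natCast_nonneg _) (Nat.cast_nonneg _)

end aux

theorem cntt {A P : Type} [CommGroup A] [Finite A] [Group P] [Finite P] {p : ℕ} [NeZero p]
    (pd : H38.TD.PD p A P) (hp : p.Prime) (hp2 : H63.MA.MOne p K) (k : ℕ) (ζ : K)
    (hζ : IsPrimitiveRoot ζ (p ^ k)) (ζp : K)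
    (hζp : IsPrimitiveRoot ζp p) (hA : ∀ t : A, t ^ p ^ k = 1)
    (htc : NumberField.IsTotallyComplex K) (s : ℕ)
    (hs : s + 1 ≤ Fintype.card (NumberField.InfinitePlace K)) (hs1 : 4 * Nat.card A + 1 ≤ s)
    (S₀ : Set (H38.TD.Pl K)) (hS₀ : S₀.Finite) (hB : Bg pd ≠ ⊤) :
    ∃ S : Set (H38.TD.Pl K), S.Finite ∧ S₀ ⊆ S ∧
      (∀ v : H38.TD.Pl K, v ∉ S → ((p : ℕ) : 𝓞 K) ∉ v.asIdeal) ∧ Nonempty (SD K S) ∧
      ∀ ε : ℝ, 0 < ε → ∃ c₁ c₃ X₀ : ℝ, 0 < c₁ ∧ 0 < c₃ ∧ ∀ X : ℝ, X₀ ≤ X →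
        ∃ (Z : Finset (Po K S)) (F : Finset (Gal(Ω/K) →* P))
          (Tr : (Gal(Ω/K) →* P) → Finset (Po K S)),
          c₃ * Real.log X ≤ Real.exp (Lv (fun v : Po K S => nv v.1) Z) ∧
          c₁ * Real.exp ((((p : ℝ) - 1) *
              ((Nat.card (fx pd.θ) / Nat.card (nh pd.θ p).range : ℕ) : ℝ) +
              ((Nat.card (fx pd.θ ⊓ tp A p : Subgroup A) : ℝ) +
                ((Nat.card (tp A p) : ℝ) - Nat.card (fx pd.θ ⊓ tp A p : Subgroup A)) / p) - 1) *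
              Lv (fun v : Po K S => nv v.1) Z) ≤
            ∑ ρ ∈ F, Pv (fun v : Po K S => nv v.1) (Tr ρ) ∧
          ∀ ρ ∈ F, Tr ρ ⊆ Z ∧
            Ln (fun v : Po K S => nv v.1) (Tr ρ) ≤ 1 / 2 * Real.log X ∧
            Lv (fun v : Po K S => nv v.1) (Tr ρ) ≤ ε ∧ Function.Surjective ρ ∧ FT ρ ∧
            (∀ v : Po K S, v ∉ Tr ρ → UnrAt ρ v.1.asIdeal) ∧
            ∀ v : Po K S, SmallAt p ρ v.1.asIdeal := by
  classical
  obtain ⟨e', m, hidx, hgen, hcr⟩ := grpb1 hp pd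
  have he1 : 1 ≤ e' := by
    rcases Nat.eq_zero_or_pos e' with h | h
    · exfalso
      rw [h, pow_zero] at hidx
      exact hB (Subgroup.index_eq_one.mp hidx)
    · exact h
  have hp2' := hp.two_le
  set h₀ : ℕ := Nat.card (fx pd.θ) / Nat.card (nh pd.θ p).range with hh₀
  set q : ℕ := Nat.card (fx pd.θ ⊓ tp A p : Subgroup A) with hq
  set V : ℕ := Nat.card (tp A p) with hV
  have hh1 : 1 ≤ h₀ :=
    (Nat.one_le_div_iff Nat.card_pos).2 (Subgroup.card_le_of_le (adata_range pd))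
  have hq1 : 1 ≤ q := Nat.card_pos
  have hqV : q ≤ V := Subgroup.card_le_of_le inf_le_right
  set ϖ : ℕ := h₀ * p ^ (e' - 1) with hϖ
  have hϖ1 : 1 ≤ ϖ := Nat.mul_pos hh1 (pow_pos hp.pos _)
  have hh : p * ϖ = h₀ * p ^ e' := by
    rw [hϖ]
    calc p * (h₀ * p ^ (e' - 1)) = h₀ * p ^ (e' - 1 + 1) := by ring
      _ = _ := by rw [Nat.sub_add_cancel he1]
  have hpe : e' + 1 ≤ p ^ e' := by
    have h1 : e' < 2 ^ e' := Nat.lt_two_pow_self
    have h2 : 2 ^ e' ≤ p ^ e' := Nat.pow_le_pow_left hp2' _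
    omega
  have hpA : p ^ e' ≤ Nat.card A := by
    rw [← hidx]
    exact Nat.le_of_dvd Nat.card_pos (Subgroup.index_dvd_card _)
  have he : e' ≤ Nat.card A := by omega
  have hA2 : 2 ≤ Nat.card A := by omega
  obtain ⟨D, hDS⟩ := H38.BB.exists_RD_of K hp hp2 hζp hS₀.toFinset
  obtain ⟨U, _, _, F, hU, hUc0⟩ := ucrd hp D.toRD0 htc s hs
  have hUc : 32 * p ^ e' ≤ Fintype.card U := by
    refine le_trans ?_ hUc0
    calc 32 * p ^ e' ≤ p ^ 5 * p ^ e' :=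
          Nat.mul_le_mul_right _ (by
            calc 32 = 2 ^ 5 := by norm_num
              _ ≤ p ^ 5 := Nat.pow_le_pow_left hp2' _)
      _ = p ^ (5 + e') := by rw [pow_add]
      _ ≤ p ^ (s - 1) := Nat.pow_le_pow_right hp.pos (by omega)
  obtain ⟨d, 𝒦, hK, hKc⟩ := dkx hp hζp D F hU e' (by
    have := pow_pos hp.pos e'
    omega)
  have hx : ∀ i : H63.MA.Pl K →₀ ZMod p, ∃ (Sp : H63.MA.Pl K → Prop)
      (H : Finset (H63.MA.Pl K) → Finset (Gal(Ω/K) →* P)), IsGd D.toRD0 𝒦 i →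
      (∀ v, v ∉ D.S0 → v ∉ i.support → D.LL v (xx D.toRD0 i) = 0 → Sp v) ∧
      (∀ R : Finset (H63.MA.Pl K), (∀ v ∈ R, v ∉ D.S0) → Disjoint i.support R →
        (Flg pd ∨ i.support.card ≤ (R.filter Sp).card) →
        (Nat.card (fx pd.θ) / Nat.card ((Bg pd).map (nh pd.θ p))) ^ i.support.card *
          (Nat.card (tp A p) ^ (R.filter Sp).card *
            Nat.card (fx pd.θ ⊓ tp A p : Subgroup A) ^ (R.card - (R.filter Sp).card)) ≤
          (H R).card) ∧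
      ∀ R, ∀ ρ ∈ H R, Function.Surjective ρ ∧ FT ρ ∧ OverX pd ζp (xx D.toRD0 i) ρ ∧
        (∀ v, v ∉ D.S0 → v ∉ i.support → v ∉ R → UnrAt ρ v.asIdeal) ∧
        ∀ v, v ∉ D.S0 → SmallAt p ρ v.asIdeal := by
    intro i
    by_cases hi : IsGd D.toRD0 𝒦 i
    · obtain ⟨Sp, H, h1, h2, h3⟩ := hxm (Ω := Ω) pd hp hp2 k ζ hζ ζp hζp hA htc s hs hs1
        D.toRD0 e' he m hgen d 𝒦 hK i hi.2.1 hi.2.2.1 hi.1 hi.2.2.2.1 hi.2.2.2.2
      exact ⟨Sp, H, fun _ => ⟨h1, h2, h3⟩⟩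
    · exact ⟨fun _ => False, fun _ => ∅, fun h => absurd h hi⟩
  choose Sp H hH using hx
  have hsupp : ∀ i, IsGd D.toRD0 𝒦 i → ∀ v ∈ i.support, v ∉ D.S0 := fun i hi v hv =>
    (hi.2.1 v hv).1
  set S : Set (H38.TD.Pl K) := (D.S0 : Set (H38.TD.Pl K)) with hS
  have hSm : ∀ v, v ∈ S ↔ v ∈ D.S0 := fun v => Finset.mem_coe
  refine ⟨S, Finset.finite_toSet _, fun v hv => ?_, fun v hv h => ?_, ?_, fun ε hε => ?_⟩
  · exact (hSm v).mpr (hDS v (hS₀.mem_toFinset.mpr hv))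
  · exact hv ((hSm v).mpr (D.above v h))
  · obtain ⟨sd⟩ := sd_of D.toRD0
    exact ⟨sd.1⟩
  obtain ⟨w, c, K₃, z₀, hc, hK₃, hcn⟩ := cnta hp hp2 hζp D hK hKc F hU hUc ϖ h₀ hϖ1 hh q V hh1 hq1
    hqV (Flg pd) (by
      rcases grpb2 hp pd with h | ⟨h, h'⟩
      · exact Or.inl h
      · refine Or.inr ⟨le_trans ?_ h, h'⟩
        rw [hcr]
        refine Nat.mul_le_mul_right _ (Nat.mul_le_mul_left _ ?_)
        exact Nat.le_mul_of_pos_right _ (pow_pos hp.pos _)) Sp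
    (fun i hi v h1 h2 h3 => (hH i hi).1 v h1 h2 h3) (ε / 2) (by positivity)
  obtain ⟨c₄, hc₄, hlow⟩ := cntt_low D.toRD0 w
  obtain ⟨C₂, hC₂, hml⟩ := mert_log K S
  set δ : ℝ := 1 / (4 * C₂ * K₃) with hδdef
  have hδ : 0 < δ := by positivity
  have hev : ∀ᶠ X : ℝ in Filter.atTop, 1 ≤ X ∧ max z₀ 3 ≤ Real.exp (δ * Real.log X) := by
    have h1 : Filter.Tendsto (fun X : ℝ => δ * Real.log X) Filter.atTop Filter.atTop :=
      Filter.Tendsto.const_mul_atTop hδ Real.tendsto_log_atTop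
    have h2 : Filter.Tendsto (fun X : ℝ => Real.exp (δ * Real.log X)) Filter.atTop Filter.atTop :=
      Real.tendsto_exp_atTop.comp h1
    filter_upwards [Filter.eventually_ge_atTop 1, h2.eventually_ge_atTop (max z₀ 3)] with X a1 a2
    exact ⟨a1, a2⟩
  obtain ⟨X₀, hX₀⟩ := Filter.eventually_atTop.mp hev
  refine ⟨c, c₄ * δ, X₀, hc, by positivity, fun X hX => ?_⟩
  obtain ⟨hX1, hzX⟩ := hX₀ X hX
  set z : ℝ := Real.exp (δ * Real.log X) with hz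
  have hlogz : Real.log z = δ * Real.log X := by rw [hz, Real.log_exp]
  have hz0 : z₀ ≤ z := (le_max_left _ _).trans hzX
  have hz3 : 3 ≤ z := (le_max_right _ _).trans hzX
  obtain ⟨I, hI, hIs⟩ := hcn z hz0 (1 / 4 * Real.log X) (by
    have h1 := (cntt_log D.toRD0 w z).trans (hml w z (by linarith))
    rw [hlogz] at h1
    calc K₃ * ∑ v ∈ ZY D.toRD0 ⊥ w z, Real.log (H63.MA.nm v) / H63.MA.nm v
        ≤ K₃ * (C₂ * (δ * Real.log X)) := mul_le_mul_of_nonneg_left h1 hK₃.le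
      _ = 1 / 4 * Real.log X := by
          rw [hδdef]
          field_simp)
  set Z₁ := ZY D.toRD0 ⊥ w z with hZ₁
  have hZS : ∀ v ∈ Z₁, v ∉ D.S0 := fun v hv => (cntt_mem hv).1.1
  -- the class of a homomorphism
  have hdet : ∀ i i' R R' ρ, IsGd D.toRD0 𝒦 i → IsGd D.toRD0 𝒦 i' → ρ ∈ H i R → ρ ∈ H i' R' →
      i = i' := by
    intro i i' R R' ρ h1 h1' h2 h2'
    obtain ⟨y, hy⟩ := kdet pd hp ζp hζp (xx D.toRD0 i) (xx D.toRD0 i') ρ
      ((hH i h1).2.2 R ρ h2).2.2.1 ((hH i' h1').2.2 R' ρ h2').2.2.1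
    exact cntt_inj D.toRD0 i i' (hsupp i h1) (hsupp i' h1') y hy
  set xi : (Gal(Ω/K) →* P) → (H63.MA.Pl K →₀ ZMod p) := fun ρ =>
    if h : ∃ i, IsGd D.toRD0 𝒦 i ∧ ∃ R, ρ ∈ H i R then h.choose else 0 with hxi
  have hxi1 : ∀ i R ρ, IsGd D.toRD0 𝒦 i → ρ ∈ H i R → xi ρ = i := by
    intro i R ρ hi h
    have h1 : ∃ i, IsGd D.toRD0 𝒦 i ∧ ∃ R, ρ ∈ H i R := ⟨i, hi, R, h⟩
    have h2 : xi ρ = h1.choose := by
      rw [hxi]
      simp only [h1, dif_pos]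
    obtain ⟨h3, R', h4⟩ := h1.choose_spec
    rw [h2]
    exact hdet _ _ R' R ρ h3 hi h4 h
  set r : (Gal(Ω/K) →* P) → Finset (H63.MA.Pl K) := fun ρ =>
    Z₁.filter fun v => v ∉ (xi ρ).support ∧ ¬ UnrAt ρ v.asIdeal with hr
  have hrR : ∀ y ∈ I, ∀ ρ ∈ H y.1 y.2, xi ρ = y.1 ∧ r ρ ⊆ y.2 := by
    intro y hy ρ hρ
    obtain ⟨h1, _⟩ := hI y hy
    have h2 := hxi1 y.1 y.2 ρ h1 hρ
    refine ⟨h2, fun v hv => ?_⟩
    rw [hr] at hv
    simp only [Finset.mem_filter] at hv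
    rw [h2] at hv
    by_contra h3
    exact hv.2.2 (((hH y.1 h1).2.2 y.2 ρ hρ).2.2.2.1 v (hZS v hv.1) hv.2.1 h3)
  have hana := anat (fun v => H63.MA.nm v) Z₁ I (fun i => i.support) H xi r
    (fun y hy => ⟨(hI y hy).2.2.1, (hI y hy).2.2.2.1⟩) hrR
  set Fs := I.biUnion fun y => H y.1 y.2 with hFs
  set T₁ : (Gal(Ω/K) →* P) → Finset (H63.MA.Pl K) := fun ρ => (xi ρ).support ∪ r ρ with hT₁
  have hmemF : ∀ ρ ∈ Fs, ∃ y ∈ I, ρ ∈ H y.1 y.2 := by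
    intro ρ hρ
    rw [hFs, Finset.mem_biUnion] at hρ
    exact hρ
  have hT₁sub : ∀ y ∈ I, ∀ ρ ∈ H y.1 y.2, T₁ ρ ⊆ y.1.support ∪ y.2 := by
    intro y hy ρ hρ
    obtain ⟨h1, h2⟩ := hrR y hy ρ hρ
    rw [hT₁]
    simp only
    rw [h1]
    exact Finset.union_subset_union_right h2
  have hT₁Z : ∀ ρ ∈ Fs, T₁ ρ ⊆ Z₁ := by
    intro ρ hρ
    obtain ⟨y, hy, h⟩ := hmemF ρ hρ
    exact (hT₁sub y hy ρ h).trans (Finset.union_subset (hI y hy).2.1 (hI y hy).2.2.1)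
  have hT₁S : ∀ ρ ∈ Fs, ∀ v ∈ T₁ ρ, v ∉ S := fun ρ hρ v hv h =>
    hZS v (hT₁Z ρ hρ hv) ((hSm v).mp h)
  have hZ₁S : ∀ v ∈ Z₁, v ∉ S := fun v hv h => hZS v hv ((hSm v).mp h)
  have hLvZ : Lv (fun v : Po K S => nv v.1) (Z₁.subtype (· ∉ S)) = LY D.toRD0 ⊥ w z := by
    unfold Lv LY Li
    exact Finset.sum_subtype_of_mem (fun v : H38.TD.Pl K => 1 / (nv v : ℝ)) hZ₁S
  refine ⟨Z₁.subtype (· ∉ S), Fs, fun ρ => (T₁ ρ).subtype (· ∉ S), ?_, ?_, fun ρ hρ => ?_⟩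
  · rw [hLvZ]
    have h1 := hlow z hz3
    rw [hlogz] at h1
    calc c₄ * δ * Real.log X = c₄ * (δ * Real.log X) := by ring
      _ ≤ _ := h1
  · rw [hLvZ]
    have h1 : ∑ ρ ∈ Fs, Pv (fun v : Po K S => nv v.1) ((T₁ ρ).subtype (· ∉ S)) =
        ∑ ρ ∈ Fs, Pv (fun v => H63.MA.nm v) (T₁ ρ) := by
      refine Finset.sum_congr rfl fun ρ hρ => ?_
      unfold Pv
      exact Finset.prod_subtype_of_mem (fun v : H38.TD.Pl K => 1 / (nv v : ℝ)) (hT₁S ρ hρ)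
    rw [h1]
    set L := LY D.toRD0 ⊥ w z with hL
    have h2 : ∑ y ∈ I, Wt (p * ϖ) y.1 * ∏ v ∈ y.2, (if Sp y.1 v then (V : ℝ) else q) /
        H63.MA.nm v ≤ ∑ y ∈ I, ((H y.1 y.2).card : ℝ) *
          (Pv (fun v => H63.MA.nm v) y.1.support * Pv (fun v => H63.MA.nm v) y.2) := by
      refine Finset.sum_le_sum fun y hy => ?_
      obtain ⟨g1, g2, g3, g4, g5, g6⟩ := hI y hy
      have h3 := (hH y.1 g1).2.1 y.2 (fun v hv => hZS v (g3 hv)) g4 g5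
      rw [hcr, ← hh] at h3
      rw [cntt_prod (fun v => H63.MA.nm v), cntt_Wt]
      have h4 : (((p * ϖ : ℕ) : ℝ)) ^ y.1.support.card * ((V : ℝ) ^ (y.2.filter (Sp y.1)).card *
          (q : ℝ) ^ (y.2.card - (y.2.filter (Sp y.1)).card)) ≤ ((H y.1 y.2).card : ℝ) := by
        exact_mod_cast h3
      have h5 := mul_le_mul_of_nonneg_right h4
        (mul_nonneg (ana10_Pv_nonneg (fun v => H63.MA.nm v) y.1.support)
          (ana10_Pv_nonneg (fun v => H63.MA.nm v) y.2))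
      refine le_trans (le_of_eq ?_) h5
      ring
    have h3 := (hIs.trans h2).trans hana
    have h4 : Real.exp ((((p : ℝ) - 1) * h₀ + (q + ((V : ℝ) - q) / p)) * L) =
        Real.exp L * Real.exp ((((p : ℝ) - 1) * h₀ + (q + ((V : ℝ) - q) / p) - 1) * L) := by
      rw [← Real.exp_add]
      congr 1
      ring
    rw [h4] at h3
    have h5 : Real.exp L * (c * Real.exp ((((p : ℝ) - 1) * h₀ + (q + ((V : ℝ) - q) / p) - 1) *
        L)) ≤ Real.exp L * ∑ ρ ∈ Fs, Pv (fun v => H63.MA.nm v) (T₁ ρ) := by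
      refine le_trans (le_of_eq ?_) h3
      ring
    exact le_of_mul_le_mul_left h5 (Real.exp_pos _)
  · obtain ⟨y, hy, h⟩ := hmemF ρ hρ
    obtain ⟨g1, g2, g3, g4, g5, g6, g7, g8, g9⟩ := hI y hy
    obtain ⟨k1, k2, k3, k4, k5⟩ := (hH y.1 g1).2.2 y.2 ρ h
    have hsub := hT₁sub y hy ρ h
    have hLv : Lv (fun v : Po K S => nv v.1) ((T₁ ρ).subtype (· ∉ S)) =
        Lv (fun v : H38.TD.Pl K => nv v) (T₁ ρ) :=
      Finset.sum_subtype_of_mem (fun v : H38.TD.Pl K => 1 / (nv v : ℝ)) (hT₁S ρ hρ)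
    have hLn : Ln (fun v : Po K S => nv v.1) ((T₁ ρ).subtype (· ∉ S)) =
        Ln (fun v : H38.TD.Pl K => nv v) (T₁ ρ) :=
      Finset.sum_subtype_of_mem (fun v : H38.TD.Pl K => Real.log (nv v : ℝ)) (hT₁S ρ hρ)
    refine ⟨?_, ?_, ?_, k1, k2, ?_, fun v => k5 v.1 fun hv => v.2 ((hSm _).mpr hv)⟩
    · intro v hv
      rw [Finset.mem_subtype] at hv ⊢
      exact hT₁Z ρ hρ hv
    · rw [hLn]
      have h1 := (Ln_mono (fun v : H38.TD.Pl K => nv v) two_le_nv hsub).trans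
        (Ln_union_le (fun v : H38.TD.Pl K => nv v) two_le_nv y.1.support y.2)
      have h2 : Ln (fun v : H38.TD.Pl K => nv v) y.1.support ≤ 1 / 4 * Real.log X := g6
      have h3 : Ln (fun v : H38.TD.Pl K => nv v) y.2 ≤ 1 / 4 * Real.log X := g7
      linarith
    · rw [hLv]
      have h1 := (Lv_mono (fun v : H38.TD.Pl K => nv v) hsub).trans
        (Lv_union_le (fun v : H38.TD.Pl K => nv v) y.1.support y.2)
      have h2 : Lv (fun v : H38.TD.Pl K => nv v) y.1.support ≤ ε / 2 := g8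
      have h3 : Lv (fun v : H38.TD.Pl K => nv v) y.2 ≤ ε / 2 := g9
      linarith
    · intro v hv
      rw [Finset.mem_subtype] at hv
      have hvS : v.1 ∉ D.S0 := fun h => v.2 ((hSm _).mpr h)
      have hv' : v.1 ∉ (xi ρ).support ∧ v.1 ∉ r ρ := by
        rw [hT₁] at hv
        simp only [Finset.mem_union, not_or] at hv
        exact hv
      rw [(hrR y hy ρ h).1] at hv'
      by_cases hvR : v.1 ∈ y.2
      · by_contra h6
        apply hv'.2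
        rw [hr]
        simp only [Finset.mem_filter]
        rw [(hrR y hy ρ h).1]
        exact ⟨g3 hvR, hv'.1, h6⟩
      · exact k4 v.1 hvS hv'.1 hvR

end H83.LW
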