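import Pool.Agent.H83.LW.PRD
import Pool.Agent.H83.LW.SML

/-!
# [H83 LW MASS] the total mass of the Kummer classes (four theorems, 80-130 lines)

* `ms_eq`: `Wt h i = ∏_{v ∈ Z} (if i v = 0 then 1 else h / nm v)` for `i ∈ XF Z`; `∑_{i ∈ Z.finsupp univ} ∏_{v ∈ Z} ψ v (i v) =
  ∏_{v ∈ Z} ∑_c ψ v c` (see `ana3_count` in `H38/TD/Ana3`; `Finset.prod_sum`, `Finset.finsupp`, `Finset.sum_map`; or induction on `Z`), and
  `∑_c (if c = 0 then 1 else h / nm v) = 1 + (p - 1) h / nm v`. State the general identity as a private lemma, also for complex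
  `ψ` (it is needed in `ms_cls`).
* `ms_up`: `1 + x ≤ exp x`. `ms_low`: `prd_low` with `a v = (p - 1) h`.
* `ms_cls`: `p^r [cl i = 0] = ∑_{κ} ep(dt κ (cl i))` (`alem_orth` in `MA/ALem`), `dt κ (cl i) = ∑_{v ∈ supp i} i v dt κ (q v)`. So
  `p^r ∑_{XC} Wt = ∑_κ ∏_{v ∈ Z} (1 + (h / nm v) ∑_{c ≠ 0} ep(c dt κ (q v)))`. The inner sum over `c ≠ 0` is `p - 1` if
  `dt κ (q v) = 0` and `-1` otherwise, so every factor is real and `≥ 1 - h / nm v ≥ 0`; the term `κ = 0` is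
  `∏ (1 + (p - 1) h / nm v) = ∑_{XF} Wt`, and all the other terms are `≥ 0`.
-/

set_option autoImplicit false

open scoped NumberField
open IsDedekindDomain
open scoped Classical

noncomputable section

namespace H83.LW

open H63.MA H38.BB

variable {K : Type} [Field K] [NumberField K] {p : ℕ} {ζ : K}

private theorem mss_gen {R : Type} [CommSemiring R] [NeZero p] (Z : Finset (Pl K))
    (ψ : Pl K → ZMod p → R) :
    ∑ i ∈ XF p Z, ∏ v ∈ Z, ψ v (i v) = ∏ v ∈ Z, ∑ c, ψ v c := by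
  unfold XF
  rw [Finset.prod_sum, Finset.finsupp, Finset.sum_map]
  refine Finset.sum_congr rfl fun g _ => ?_
  show ∏ v ∈ Z, ψ v (Finsupp.indicator Z g v) = _
  rw [← Finset.prod_attach Z fun v => ψ v (Finsupp.indicator Z g v)]
  refine Finset.prod_congr rfl fun v _ => ?_
  rw [Finsupp.indicator_of_mem v.2]

private theorem mss_supp {R : Type} [CommSemiring R] [NeZero p] {Z : Finset (Pl K)}
    {i : Pl K →₀ ZMod p} (hi : i ∈ XF p Z) (ψ : Pl K → ZMod p → R) (h0 : ∀ v, ψ v 0 = 1) :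
    ∏ v ∈ i.support, ψ v (i v) = ∏ v ∈ Z, ψ v (i v) := by
  refine Finset.prod_subset (mem_XF.1 hi) fun v _ hv => ?_
  rw [Finsupp.notMem_support_iff.1 hv, h0]

theorem ms_fac [NeZero p] (Z : Finset (Pl K)) (ψ : Pl K → ZMod p → ℂ) (h0 : ∀ v, ψ v 0 = 1) :
    ∑ i ∈ XF p Z, ∏ v ∈ i.support, ψ v (i v) =
      ∏ v ∈ Z, (1 + ∑ c ∈ Finset.univ.filter (fun c : ZMod p => c ≠ 0), ψ v c) := by
  rw [Finset.sum_congr rfl fun i hi => mss_supp hi ψ h0, mss_gen]
  refine Finset.prod_congr rfl fun v _ => ?_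
  rw [← Finset.sum_filter_add_sum_filter_not Finset.univ (fun c : ZMod p => c = 0) (ψ v)]
  have h1 : Finset.univ.filter (fun c : ZMod p => c = 0) = {0} := by
    ext c
    rw [Finset.mem_filter, Finset.mem_singleton]
    exact ⟨fun h => h.2, fun h => ⟨Finset.mem_univ _, h⟩⟩
  rw [h1, Finset.sum_singleton, h0]

private theorem mss_sum [NeZero p] (x : ℝ) :
    ∑ c : ZMod p, (if c = 0 then 1 else x) = 1 + ((p : ℝ) - 1) * x := by
  have h1 : ∀ c : ZMod p, (if c = 0 then 1 else x) = x + if c = 0 then 1 - x else 0 := by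
    intro c
    by_cases h : c = 0
    · rw [if_pos h, if_pos h]
      ring
    · rw [if_neg h, if_neg h]
      ring
  rw [Finset.sum_congr rfl fun c _ => h1 c, Finset.sum_add_distrib, Finset.sum_const,
    Finset.card_univ, ZMod.card, Finset.sum_ite_eq' Finset.univ (0 : ZMod p) (fun _ => 1 - x),
    if_pos (Finset.mem_univ _), nsmul_eq_mul]
  ring

theorem ms_eq [NeZero p] (h : ℕ) (Z : Finset (Pl K)) :
    ∑ i ∈ XF p Z, Wt h i = ∏ v ∈ Z, (1 + ((p : ℝ) - 1) * h / nm v) := by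
  have h1 : ∀ i ∈ XF p Z, Wt h i = ∏ v ∈ Z, (if i v = 0 then (1 : ℝ) else (h : ℝ) / nm v) := by
    intro i hi
    rw [← mss_supp hi (fun v c => if c = 0 then (1 : ℝ) else (h : ℝ) / nm v) (fun v => if_pos rfl)]
    unfold Wt
    refine Finset.prod_congr rfl fun v hv => ?_
    rw [if_neg (Finsupp.mem_support_iff.1 hv)]
  rw [Finset.sum_congr rfl h1, mss_gen Z (fun v c => if c = 0 then (1 : ℝ) else (h : ℝ) / nm v)]
  refine Finset.prod_congr rfl fun v _ => ?_
  rw [mss_sum]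
  ring

private theorem mss_p1 [NeZero p] : 0 ≤ (p : ℝ) - 1 := by
  have h : 1 ≤ p := Nat.one_le_iff_ne_zero.2 (NeZero.ne p)
  have : (1 : ℝ) ≤ p := by exact_mod_cast h
  linarith

private theorem mss_Li (x : ℝ) (h : ℕ) (Z : Finset (Pl K)) :
    ∑ v ∈ Z, x * h / (nm v : ℝ) = x * h * Li Z := by
  unfold Li
  rw [Finset.mul_sum]
  exact Finset.sum_congr rfl fun v _ => by ring

theorem ms_up [NeZero p] (h : ℕ) (Z : Finset (Pl K)) :
    ∑ i ∈ XF p Z, Wt h i ≤ Real.exp (((p : ℝ) - 1) * h * Li Z) := by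
  have hp := mss_p1 (p := p)
  rw [ms_eq, ← mss_Li, Real.exp_sum]
  refine Finset.prod_le_prod (fun v _ => ?_) fun v _ => ?_
  · have : 0 ≤ ((p : ℝ) - 1) * h / nm v := by positivity
    linarith
  · rw [add_comm]
    exact Real.add_one_le_exp _

theorem ms_low (K : Type) [Field K] [NumberField K] (p : ℕ) [NeZero p] (h : ℕ) :
    ∃ c : ℝ, 0 < c ∧ ∀ Z : Finset (Pl K),
      c * Real.exp (((p : ℝ) - 1) * h * Li Z) ≤ ∑ i ∈ XF p Z, Wt h i := by
  have hp := mss_p1 (p := p)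
  obtain ⟨c, hc, hl⟩ := prd_low K (((p : ℝ) - 1) * h)
  refine ⟨c, hc, fun Z => ?_⟩
  rw [ms_eq, ← mss_Li]
  exact hl Z (fun _ => ((p : ℝ) - 1) * h) fun v => ⟨by positivity, le_refl _⟩

theorem ms_cls [NeZero p] (hp : p.Prime) (D : RD0 K p ζ) (h : ℕ) (Z : Finset (Pl K))
    (hZ : ∀ v ∈ Z, (h : ℝ) ≤ nm v) :
    ∑ i ∈ XF p Z, Wt h i ≤ (p : ℝ) ^ D.r * ∑ i ∈ XC D Z, Wt h i := by
  have hp1 := mss_p1 (p := p)
  obtain ⟨G, hG⟩ : ∃ G : (Fin D.r → ZMod p) → Pl K → ℝ, G = fun κ v =>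
    if dt κ (D.q v) = 0 then 1 + ((p : ℝ) - 1) * h / nm v else 1 - (h : ℝ) / nm v := ⟨_, rfl⟩
  -- the inner sums
  have h1 : ∀ κ : Fin D.r → ZMod p, ∑ i ∈ XF p Z, ((Wt h i : ℝ) : ℂ) * ep p (dt κ (cl D i)) =
      ((∏ v ∈ Z, G κ v : ℝ) : ℂ) := by
    intro κ
    have e1 : ∀ i ∈ XF p Z, ((Wt h i : ℝ) : ℂ) * ep p (dt κ (cl D i)) =
        ∏ v ∈ i.support, (fun (v : Pl K) (c : ZMod p) => if c = 0 then (1 : ℂ) else
          ((h : ℂ) / nm v) * ep p (c * dt κ (D.q v))) v (i v) := by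
      intro i _
      have e2 : dt κ (cl D i) = ∑ v ∈ i.support, i v * dt κ (D.q v) := by
        unfold dt cl
        simp only [Finset.sum_apply, Pi.smul_apply, smul_eq_mul, Finset.mul_sum]
        rw [Finset.sum_comm]
        refine Finset.sum_congr rfl fun v _ => Finset.sum_congr rfl fun k _ => ?_
        ring
      rw [e2, aexp_ep_sum hp]
      unfold Wt
      push_cast
      rw [← Finset.prod_mul_distrib]
      refine Finset.prod_congr rfl fun v hv => ?_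
      show _ = if i v = 0 then (1 : ℂ) else ((h : ℂ) / nm v) * ep p (i v * dt κ (D.q v))
      rw [if_neg (Finsupp.mem_support_iff.1 hv)]
    refine (Finset.sum_congr rfl e1).trans ((ms_fac Z (fun (v : Pl K) (c : ZMod p) =>
      if c = 0 then (1 : ℂ) else ((h : ℂ) / nm v) * ep p (c * dt κ (D.q v)))
      (fun v => if_pos rfl)).trans ?_)
    push_cast
    refine Finset.prod_congr rfl fun v _ => ?_
    have e3 : ∑ c ∈ Finset.univ.filter (fun c : ZMod p => c ≠ 0),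
        (if c = 0 then (1 : ℂ) else ((h : ℂ) / nm v) * ep p (c * dt κ (D.q v))) =
        ((h : ℂ) / nm v) * ((if dt κ (D.q v) = 0 then (p : ℂ) else 0) - 1) := by
      rw [← ep_sum hp (dt κ (D.q v)),
        ← Finset.sum_filter_add_sum_filter_not Finset.univ (fun c : ZMod p => c = 0)
          (fun c => ep p (c * dt κ (D.q v)))]
      have h1 : Finset.univ.filter (fun c : ZMod p => c = 0) = {0} := by
        ext c
        rw [Finset.mem_filter, Finset.mem_singleton]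
        exact ⟨fun h => h.2, fun h => ⟨Finset.mem_univ _, h⟩⟩
      rw [h1, Finset.sum_singleton, zero_mul, ep_zero, add_sub_cancel_left, Finset.mul_sum]
      refine Finset.sum_congr rfl fun c hc => ?_
      rw [if_neg (Finset.mem_filter.1 hc).2]
    refine Eq.trans (congrArg (fun t : ℂ => 1 + t) e3) ?_
    rw [hG]
    show _ = (((if dt κ (D.q v) = 0 then 1 + ((p : ℝ) - 1) * h / nm v else
      1 - (h : ℝ) / nm v : ℝ)) : ℂ)
    by_cases h0 : dt κ (D.q v) = 0
    · rw [if_pos h0, if_pos h0]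
      push_cast
      ring
    · rw [if_neg h0, if_neg h0]
      push_cast
      ring
  have h2 : (((p : ℝ) ^ D.r * ∑ i ∈ XC D Z, Wt h i : ℝ) : ℂ) =
      ((∑ κ : Fin D.r → ZMod p, ∏ v ∈ Z, G κ v : ℝ) : ℂ) := by
    rw [Complex.ofReal_sum, Finset.sum_congr rfl fun κ _ => (h1 κ).symm, Finset.sum_comm]
    unfold XC
    rw [Finset.sum_filter]
    push_cast
    rw [Finset.mul_sum]
    refine Finset.sum_congr rfl fun i _ => ?_
    rw [← Finset.mul_sum, alem_orth hp (cl D i)]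
    by_cases h0 : cl D i = 0
    · rw [if_pos h0, if_pos h0, mul_comm]
    · rw [if_neg h0, if_neg h0]
      simp
  have h3 : (p : ℝ) ^ D.r * ∑ i ∈ XC D Z, Wt h i =
      ∑ κ : Fin D.r → ZMod p, ∏ v ∈ Z, G κ v := by exact_mod_cast h2
  rw [h3]
  have h4 : ∀ κ, 0 ≤ ∏ v ∈ Z, G κ v := by
    intro κ
    refine Finset.prod_nonneg fun v hv => ?_
    rw [hG]
    show 0 ≤ if dt κ (D.q v) = 0 then 1 + ((p : ℝ) - 1) * h / nm v else 1 - (h : ℝ) / nm v
    split_ifs
    · have : 0 ≤ ((p : ℝ) - 1) * h / nm v := by positivity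
      linarith
    · have h5 : (0 : ℝ) < nm v := by
        have := one_lt_nm v
        exact_mod_cast (by omega : 0 < nm v)
      have h6 : (h : ℝ) / nm v ≤ 1 := (div_le_one h5).2 (hZ v hv)
      linarith
  have h5 : ∑ i ∈ XF p Z, Wt h i = ∏ v ∈ Z, G 0 v := by
    rw [ms_eq]
    refine Finset.prod_congr rfl fun v _ => ?_
    rw [hG]
    show _ = if dt 0 (D.q v) = 0 then 1 + ((p : ℝ) - 1) * h / nm v else 1 - (h : ℝ) / nm v
    rw [if_pos]
    unfold dt
    refine Finset.sum_eq_zero fun k _ => ?_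
    rw [Pi.zero_apply, zero_mul]
  rw [h5]
  exact Finset.single_le_sum (f := fun κ => ∏ v ∈ Z, G κ v) (fun κ _ => h4 κ)
    (Finset.mem_univ (0 : Fin D.r → ZMod p))

end H83.LW
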