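import Pool.Agent.H83.LW.FAMJ
import Pool.Agent.H83.LW.MASS
import Pool.Agent.H63.MA.ABilB

/-!
# [H83 LW COLN] the columns for a unit which is not locally a power (80-130 lines)

For a disjoint `g` in `Z.powerset` supported in `col c` (`a.j = c a.i` for all `a` with `g a ≠ ∅`): in `ph D (PJ p ϖ) ![1, u] g` the
coefficients `dt (θ a) (x a') = a.t a.j a'.i - a.t a.i a'.j = 0` for `a, a' ∈ col c` (the terms with `g a = ∅` or `g a' = ∅` are `0`:
`Lf D ∅ _ = 0` and `Lf D (g a) (pf D ∅) = Lf D (g a) 1 = 0`), and `dt (θ a) (fun k => LL v (![1, u] k)) = a.t a.j LL v 1 - a.t a.i LL v u =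
- a.t a.i LL v u` (`LL_one`, the primes are outside `S0`). So with `i = ig g`, `k = kg g`:
`phc g = ∑_{v ∈ supp i} (- k v i v LL v u + i v dt κ (q v))`.
`famj` with `Φ i j k = [∀ v ∈ supp i, j v = c i v] ep(∑_{v ∈ supp i} (…))` gives
`∑_{i ∈ XF Z} Wt ϖ i ep(∑ i v dt κ (q v)) ∑_{k ∈ XF (supp i)} ep(- ∑_{v ∈ supp i} k v i v LL v u)`, and the sum over `k` is
`∏_{v ∈ supp i} ∑_{t : ZMod p} ep(- t i v LL v u) = p^{#supp i} [∀ v ∈ supp i, LL v u = 0]` (`i v ≠ 0`; the factorisation of the sum over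
`XF (supp i)`: `ms_fac` in `MASS` or `Finset.prod_sum`-type lemma; alternatively: if some `LL v₀ u ≠ 0`, `v₀ ∈ supp i`, translate `k` by
`single v₀ 1`: the sum is multiplied by a number `≠ 1`, so it is `0`). So the norm is at most
`∑_{i ∈ XF (Z.filter (LL v u = 0))} Wt (p ϖ) i ≤ exp((p - 1) p ϖ Li …)` (`ms_up`).
-/

set_option autoImplicit false

open scoped NumberField
open IsDedekindDomain
open scoped Classical

noncomputable section

namespace H83.LW

open H63.MA H38.BB

variable {K : Type} [Field K] [NumberField K] {p ϖ : ℕ} {ζ : K}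

private theorem cln_apply {J : Type} [Fintype J] (g : J → Finset (Pl K)) (hd : Dj g)
    (c : J → ZMod p) {a : J} {v : Pl K} (hv : v ∈ g a) :
    (∑ a, ∑ v ∈ g a, Finsupp.single v (c a)) v = c a := by
  rw [Finsupp.finsetSum_apply, Finset.sum_eq_single a]
  · rw [Finsupp.finsetSum_apply, Finset.sum_eq_single v]
    · rw [Finsupp.single_apply, if_pos rfl]
    · intro w _ hw
      rw [Finsupp.single_apply, if_neg hw]
    · intro h
      exact absurd hv h
  · intro a' _ ha'
    rw [Finsupp.finsetSum_apply]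
    refine Finset.sum_eq_zero fun w hw => ?_
    rw [Finsupp.single_apply, if_neg]
    rintro rfl
    exact Finset.disjoint_left.1 (hd a' a ha') hw hv
  · intro h
    exact absurd (Finset.mem_univ _) h

private theorem cln_zero {J : Type} [Fintype J] (g : J → Finset (Pl K))
    (c : J → ZMod p) {v : Pl K} (hv : v ∉ Finset.univ.biUnion g) :
    (∑ a, ∑ v ∈ g a, Finsupp.single v (c a)) v = 0 := by
  rw [Finsupp.finsetSum_apply]
  refine Finset.sum_eq_zero fun a _ => ?_
  rw [Finsupp.finsetSum_apply]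
  refine Finset.sum_eq_zero fun w hw => ?_
  rw [Finsupp.single_apply, if_neg]
  rintro rfl
  exact hv (Finset.mem_biUnion.2 ⟨a, Finset.mem_univ _, hw⟩)

private theorem cln_supp {J : Type} [Fintype J] (g : J → Finset (Pl K)) (c : J → ZMod p) :
    (∑ a, ∑ v ∈ g a, Finsupp.single v (c a)).support ⊆ Finset.univ.biUnion g := by
  intro v hv
  by_contra h
  exact (Finsupp.mem_support_iff.1 hv) (cln_zero g c h)

private theorem cln_Wt (i : Pl K →₀ ZMod p) :
    Wt (p * ϖ) i = (p : ℝ) ^ i.support.card * Wt ϖ i := by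
  unfold Wt
  rw [← Finset.prod_const, ← Finset.prod_mul_distrib]
  refine Finset.prod_congr rfl fun v _ => ?_
  push_cast
  ring

private theorem cln_uniq [NeZero p] (X : Finset (Pl K)) (t : Pl K → ZMod p) :
    ((XF p X).filter fun k => ∀ v ∈ X, k v = t v).card ≤ 1 := by
  refine Finset.card_le_one.2 fun k hk k' hk' => ?_
  rw [Finset.mem_filter, mem_XF] at hk hk'
  ext v
  by_cases hv : v ∈ X
  · rw [hk.2 v hv, hk'.2 v hv]
  · rw [Finsupp.notMem_support_iff.1 fun h => hv (hk.1 h),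
      Finsupp.notMem_support_iff.1 fun h => hv (hk'.1 h)]

private theorem cln_one [NeZero p] (X : Finset (Pl K)) (t : Pl K → ZMod p)
    (P : (Pl K →₀ ZMod p) → Prop) (hP : ∀ k, P k → ∀ v ∈ X, k v = t v) :
    ∑ k ∈ XF p X, (if P k then (1 : ℝ) else 0) ≤ 1 := by
  rw [← Finset.sum_filter, Finset.sum_const, nsmul_eq_mul, mul_one]
  have h1 : (XF p X).filter P ⊆ (XF p X).filter fun k => ∀ v ∈ X, k v = t v := by
    intro k hk
    rw [Finset.mem_filter] at hk ⊢
    exact ⟨hk.1, hP k hk.2⟩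
  exact_mod_cast (Finset.card_le_card h1).trans (cln_uniq X t)

private theorem cln_gen {R : Type} [CommSemiring R] [NeZero p] (Z : Finset (Pl K))
    (ψ : Pl K → ZMod p → R) :
    ∑ i ∈ XF p Z, ∏ v ∈ Z, ψ v (i v) = ∏ v ∈ Z, ∑ c, ψ v c := by
  unfold XF
  rw [Finset.prod_sum, Finset.finsupp, Finset.sum_map]
  refine Finset.sum_congr rfl fun g _ => ?_
  show ∏ v ∈ Z, ψ v (Finsupp.indicator Z g v) = _
  rw [← Finset.prod_attach Z fun v => ψ v (Finsupp.indicator Z g v)]
  refine Finset.prod_congr rfl fun v _ => ?_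
  rw [Finsupp.indicator_of_mem v.2]

/-- the phase for families in a column -/
private theorem cln_phc [NeZero p] (hp : p.Prime) (hζ : IsPrimitiveRoot ζ p) (D : RD0 K p ζ)
    (g : JT p ϖ → Finset (Pl K)) (hg : ∀ a, ∀ v ∈ g a, D.Gd v) (hd : Dj g) (u : Kˣ) (c : ZMod p)
    (κ : Fin D.r → ZMod p) (hc : ∀ a, a ∉ col c → g a = ∅) :
    phc D (PJ p ϖ) ![1, u] (fun a => (a.i : ZMod p) • κ) g =
      ∑ v ∈ (ig g).support, (-(kg g v * ig g v * D.LL v u) + ig g v * dt κ (D.q v)) := by
  have hgS : ∀ a, ∀ v ∈ g a, v ∉ D.S0 := fun a v hv => (hg a v hv).1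
  have hiv : ∀ a, ∀ v ∈ g a, ig g v = a.i := fun a v hv =>
    cln_apply g hd (fun a => (a.i : ZMod p)) hv
  have hkv : ∀ a, ∀ v ∈ g a, kg g v = a.t := fun a v hv => cln_apply g hd (fun a => a.t) hv
  have hsupp : (ig g).support = Finset.univ.biUnion g := by
    refine Finset.Subset.antisymm (cln_supp g _) fun v hv => ?_
    obtain ⟨a, -, ha⟩ := Finset.mem_biUnion.1 hv
    rw [Finsupp.mem_support_iff, hiv a v ha]
    exact a.i.2
  rw [hsupp, Finset.sum_biUnion (fun l _ l' _ h => hd l l' h)]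
  have h1 : ∀ a a' : JT p ϖ, dt ((PJ p ϖ).θ a) ((PJ p ϖ).x a') =
      a.t * (a.j * a'.i - a.i * a'.j) := fun a a' => by
    simp [dt, PJ, Fin.sum_univ_two]
    ring
  have h2 : ∀ a : JT p ϖ, ∀ v ∈ g a, dt ((PJ p ϖ).θ a) (fun k => D.LL v (![1, u] k)) =
      -(a.t * a.i * D.LL v u) := fun a v hv => by
    simp [dt, PJ, Fin.sum_univ_two, LL_one hp hζ D (hgS a v hv)]
  have h0 : ∑ a : JT p ϖ, ∑ a' : JT p ϖ, dt ((PJ p ϖ).θ a) ((PJ p ϖ).x a') *
      Lf D (g a) (pf D (g a')) = 0 := by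
    refine Finset.sum_eq_zero fun a _ => Finset.sum_eq_zero fun a' _ => ?_
    by_cases ha : a ∈ (col c : Finset (JT p ϖ))
    · by_cases ha' : a' ∈ (col c : Finset (JT p ϖ))
      · rw [h1, (Finset.mem_filter.1 ha).2, (Finset.mem_filter.1 ha').2]
        ring
      · rw [hc a' ha', lf_pf hp hζ D (hgS a)]
        simp
    · rw [hc a ha]
      unfold Lf
      simp
  unfold phc ph
  rw [h0, add_zero, ← Finset.sum_add_distrib]
  refine Finset.sum_congr rfl fun a _ => ?_
  have h3 : dt ((a.i : ZMod p) • κ) (qf D (g a)) = ∑ v ∈ g a, (a.i : ZMod p) * dt κ (D.q v) := by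
    unfold dt qf
    simp only [Finset.sum_apply, Pi.smul_apply, smul_eq_mul, Finset.mul_sum]
    rw [Finset.sum_comm]
    refine Finset.sum_congr rfl fun v _ => Finset.sum_congr rfl fun k _ => ?_
    ring
  rw [h3, ← Finset.sum_add_distrib]
  refine Finset.sum_congr rfl fun v hv => ?_
  rw [h2 a v hv, hiv a v hv, hkv a v hv]

private theorem cln_cond [NeZero p] (g : JT p ϖ → Finset (Pl K)) (hd : Dj g) (c : ZMod p) :
    (∀ a, a ∉ col c → g a = ∅) ↔ ∀ v ∈ (ig g).support, jg g v = c * ig g v := by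
  have hiv : ∀ a, ∀ v ∈ g a, ig g v = a.i := fun a v hv =>
    cln_apply g hd (fun a => (a.i : ZMod p)) hv
  have hjv : ∀ a, ∀ v ∈ g a, jg g v = a.j := fun a v hv => cln_apply g hd (fun a => a.j) hv
  constructor
  · intro hC v hv
    obtain ⟨a, -, ha⟩ := Finset.mem_biUnion.1 (cln_supp g _ hv)
    have h2 : a ∈ (col c : Finset (JT p ϖ)) := by
      by_contra h
      rw [hC a h] at ha
      exact absurd ha (Finset.notMem_empty _)
    rw [hjv a v ha, hiv a v ha]
    exact (Finset.mem_filter.1 h2).2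
  · intro h a ha
    by_contra hne
    obtain ⟨v, hv⟩ := Finset.nonempty_iff_ne_empty.2 hne
    have h1 := h v (by
      rw [Finsupp.mem_support_iff, hiv a v hv]
      exact a.i.2)
    rw [hjv a v hv, hiv a v hv] at h1
    exact ha (Finset.mem_filter.2 ⟨Finset.mem_univ _, h1⟩)

theorem coln [NeZero p] (hp : p.Prime) (hζ : IsPrimitiveRoot ζ p) (D : RD0 K p ζ)
    (Z : Finset (Pl K)) (hZ : ∀ v ∈ Z, D.Gd v) (u : Kˣ) (c : ZMod p) (κ : Fin D.r → ZMod p) :
    ‖FS D (PJ p ϖ) ![1, u] (fun a => (a.i : ZMod p) • κ) Z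
        (fun g => ∀ a, a ∉ col c → g a = ∅)‖ ≤
      Real.exp (((p : ℝ) - 1) * (p * ϖ : ℕ) * Li (Z.filter fun v => D.LL v u = 0)) := by
  obtain ⟨Q, hQ⟩ : ∃ Q : (Pl K →₀ ZMod p) → (Pl K →₀ ZMod p) → Prop, Q = fun i j =>
    ∀ v ∈ i.support, j v = c * i v := ⟨_, rfl⟩
  obtain ⟨C, hC⟩ : ∃ C : (JT p ϖ → Finset (Pl K)) → Prop, C = fun g =>
    ∀ a, a ∉ col c → g a = ∅ := ⟨_, rfl⟩
  have h1 : FS D (PJ p ϖ) ![1, u] (fun a => (a.i : ZMod p) • κ) Z C =
      ∑ i ∈ XF p Z, ∑ j ∈ XF p i.support, ∑ k ∈ XF p i.support, ((Wt ϖ i : ℝ) : ℂ) *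
        (if Q i j then ep p (∑ v ∈ i.support, (-(k v * i v * D.LL v u) + i v * dt κ (D.q v)))
          else 0) := by
    rw [← famj Z (fun i j k => if Q i j then
      ep p (∑ v ∈ i.support, (-(k v * i v * D.LL v u) + i v * dt κ (D.q v))) else 0)]
    unfold FS
    refine Finset.sum_congr rfl fun g hg => ?_
    rw [Fintype.mem_piFinset] at hg
    by_cases hd : Dj g
    · have hcq : C g ↔ Q (ig g) (jg g) := by
        rw [hC, hQ]
        exact cln_cond g hd c
      by_cases h : C g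
      · rw [if_pos ⟨hd, h⟩, if_pos hd, if_pos (hcq.1 h), cln_phc hp hζ D g
          (fun a v hv => hZ v (Finset.mem_powerset.1 (hg a) hv)) hd u c κ (by
            rw [hC] at h
            exact h)]
      · rw [if_neg (fun h' => h h'.2), if_pos hd, if_neg (fun h' => h (hcq.2 h')), mul_zero]
    · rw [if_neg (fun h => hd h.1), if_neg hd]
  rw [← hC, h1]
  refine (norm_sum_le _ _).trans ?_
  have h2 : ∀ i ∈ XF p Z, ‖∑ j ∈ XF p i.support, ∑ k ∈ XF p i.support, ((Wt ϖ i : ℝ) : ℂ) *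
        (if Q i j then ep p (∑ v ∈ i.support, (-(k v * i v * D.LL v u) + i v * dt κ (D.q v)))
          else 0)‖ ≤ if ∀ v ∈ i.support, D.LL v u = 0 then Wt (p * ϖ) i else 0 := by
    intro i _
    have e1 : ∑ j ∈ XF p i.support, ∑ k ∈ XF p i.support, ((Wt ϖ i : ℝ) : ℂ) *
        (if Q i j then ep p (∑ v ∈ i.support, (-(k v * i v * D.LL v u) + i v * dt κ (D.q v)))
          else 0) = ((Wt ϖ i : ℝ) : ℂ) *
        (((∑ j ∈ XF p i.support, if Q i j then (1 : ℝ) else 0 : ℝ)) : ℂ) *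
        ∑ k ∈ XF p i.support,
          ep p (∑ v ∈ i.support, (-(k v * i v * D.LL v u) + i v * dt κ (D.q v))) := by
      push_cast
      rw [mul_assoc, Finset.sum_mul, Finset.mul_sum]
      refine Finset.sum_congr rfl fun j _ => ?_
      by_cases h : Q i j
      · simp only [if_pos h]
        rw [Complex.ofReal_one, one_mul, Finset.mul_sum]
      · simp only [if_neg h]
        simp
    have e2 : ∑ k ∈ XF p i.support,
          ep p (∑ v ∈ i.support, (-(k v * i v * D.LL v u) + i v * dt κ (D.q v))) =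
        ∏ v ∈ i.support, (ep p (i v * dt κ (D.q v)) *
          if -(i v * D.LL v u) = 0 then (p : ℂ) else 0) := by
      have e3 := cln_gen (p := p) i.support
        (fun v t => ep p (-(t * i v * D.LL v u) + i v * dt κ (D.q v)))
      have e4 : ∀ k ∈ XF p i.support,
          ep p (∑ v ∈ i.support, (-(k v * i v * D.LL v u) + i v * dt κ (D.q v))) =
          ∏ v ∈ i.support, ep p (-(k v * i v * D.LL v u) + i v * dt κ (D.q v)) :=
        fun k _ => aexp_ep_sum hp _ _
      refine (Finset.sum_congr rfl e4).trans (e3.trans ?_)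
      refine Finset.prod_congr rfl fun v _ => ?_
      rw [← ep_sum hp (-(i v * D.LL v u)), Finset.mul_sum]
      refine Finset.sum_congr rfl fun t _ => ?_
      rw [ep_add hp, mul_comm]
      congr 2
      ring
    have e5 : ‖∏ v ∈ i.support, (ep p (i v * dt κ (D.q v)) *
          if -(i v * D.LL v u) = 0 then (p : ℂ) else 0)‖ =
        if ∀ v ∈ i.support, D.LL v u = 0 then (p : ℝ) ^ i.support.card else 0 := by
      rw [norm_prod]
      by_cases h : ∀ v ∈ i.support, D.LL v u = 0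
      · rw [if_pos h, ← Finset.prod_const]
        refine Finset.prod_congr rfl fun v hv => ?_
        rw [h v hv, mul_zero, neg_zero, if_pos rfl, norm_mul, ep_norm, one_mul,
          Complex.norm_natCast]
      · rw [if_neg h]
        rw [not_forall] at h
        obtain ⟨v, hv⟩ := h
        rw [Classical.not_imp] at hv
        refine Finset.prod_eq_zero hv.1 ?_
        have : Fact p.Prime := ⟨hp⟩
        rw [if_neg, mul_zero, norm_zero]
        intro h0
        rcases mul_eq_zero.1 (neg_eq_zero.1 h0) with h1 | h1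
        · exact Finsupp.mem_support_iff.1 hv.1 h1
        · exact hv.2 h1
    have e6 : ∑ j ∈ XF p i.support, (if Q i j then (1 : ℝ) else 0) ≤ 1 :=
      cln_one i.support (fun v => c * i v) (Q i) (fun j hj => by
        rw [hQ] at hj
        exact hj)
    have e7 : 0 ≤ ∑ j ∈ XF p i.support, (if Q i j then (1 : ℝ) else 0) :=
      Finset.sum_nonneg fun j _ => by split_ifs <;> norm_num
    rw [e1, norm_mul, norm_mul, e2, e5, Complex.norm_real, Complex.norm_real, Real.norm_eq_abs,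
      Real.norm_eq_abs, abs_of_nonneg (Wt_nonneg ϖ i), abs_of_nonneg e7]
    by_cases h : ∀ v ∈ i.support, D.LL v u = 0
    · rw [if_pos h, if_pos h, cln_Wt]
      calc Wt ϖ i * (∑ j ∈ XF p i.support, if Q i j then (1 : ℝ) else 0) *
            (p : ℝ) ^ i.support.card ≤ Wt ϖ i * 1 * (p : ℝ) ^ i.support.card :=
          mul_le_mul_of_nonneg_right (mul_le_mul_of_nonneg_left e6 (Wt_nonneg ϖ i))
            (by positivity)
        _ = (p : ℝ) ^ i.support.card * Wt ϖ i := by ring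
    · rw [if_neg h, if_neg h, mul_zero]
  refine (Finset.sum_le_sum h2).trans ?_
  rw [← Finset.sum_filter]
  refine le_trans (Finset.sum_le_sum_of_subset_of_nonneg ?_ fun i _ _ => Wt_nonneg _ i)
    (ms_up (p * ϖ) (Z.filter fun v => D.LL v u = 0))
  intro i hi
  rw [Finset.mem_filter, mem_XF] at hi
  rw [mem_XF]
  intro v hv
  rw [Finset.mem_filter]
  exact ⟨hi.1 hv, hi.2 v hv⟩

end H83.LW
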