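import Pool.Agent.H83.LW.JDef

/-!
# [H83 LW COMB] rows and columns (two theorems, 70-120 lines, finite combinatorics in `ZMod p`)

`lk a a' = (a.t - a'.t) (a.j a'.i - a.i a'.j)` (`PJ_lk`). Put `s a = a.j / a.i ∈ ZMod p` (a field, `a.i ≠ 0`). As `a.i, a'.i ≠ 0`:
`lk a a' = 0` iff `a.t = a'.t` or `s a = s a'`. `row t = {a.t = t}`, `col c = {s a = c}`.
* `comb1`: the cardinalities: `row t ≃ {i ≠ 0} × ZMod p × Fin ϖ`, `col c ≃ {i ≠ 0} × ZMod p × Fin ϖ`: `(p - 1) p ϖ`. Rows and columns are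
  unlinked. For `a' ∉ row t` choose `a` with `a.t = t`, `a.i = 1`, `a.j ≠ s a'` (e.g. `a.j = s a' + 1`), copy `0` (`ϖ ≥ 1`): linked to `a'`.
  For `a' ∉ col c`: `a` with `a.i = 1`, `a.j = c`, `a.t = a'.t + 1`.
* `comb2`: `S` unlinked, `#S ≥ (p - 1) p ϖ ≥ 1`. Choose `a₀ ∈ S`. If all `a ∈ S` have `a.t = a₀.t` then `S ⊆ row a₀.t`, equality by
  cardinality (`Finset.eq_of_subset_of_card_le`). Otherwise there is `a₁ ∈ S` with `a₁.t ≠ a₀.t`, so `s a₁ = s a₀ =: c`. Every `a ∈ S` has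
  `s a = c`: if not, then `a.t = a₀.t` and `a.t = a₁.t`, contradiction. So `S ⊆ col c`, equality.
-/

set_option autoImplicit false

open scoped Classical

noncomputable section

namespace H83.LW

open H63.MA

private theorem comb_lk {p ϖ : ℕ} [Fact p.Prime] (a a' : JT p ϖ) :
    (PJ p ϖ).lk a a' = 0 ↔ a.t = a'.t ∨ a.j * a'.i = a.i * a'.j := by
  rw [PJ_lk, mul_eq_zero, sub_eq_zero, sub_eq_zero]

private theorem comb_nz {p : ℕ} [NeZero p] : Fintype.card {c : ZMod p // c ≠ 0} = p - 1 := by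
  have h1 : Fintype.card {c : ZMod p // c ≠ 0} = (Finset.univ.erase (0 : ZMod p)).card := by
    rw [Fintype.card_subtype]
    congr 1
    ext c
    simp
  rw [h1, Finset.card_erase_of_mem (Finset.mem_univ _), Finset.card_univ, ZMod.card]

private theorem comb_row {p ϖ : ℕ} [NeZero p] (t : ZMod p) :
    (row t : Finset (JT p ϖ)).card = (p - 1) * p * ϖ := by
  have h1 : (row t : Finset (JT p ϖ)).card =
      (Finset.univ : Finset ({c : ZMod p // c ≠ 0} × ZMod p × Fin ϖ)).card := by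
    refine Finset.card_nbij' (fun a => (a.i, a.j, a.copy)) (fun x => ⟨x.1, x.2.1, t, x.2.2⟩)
      ?_ ?_ ?_ ?_
    · intro a _
      simp
    · intro x _
      simp [row]
    · intro a ha
      simp only [row, Finset.coe_filter, Finset.mem_univ, true_and, Set.mem_ofPred_eq] at ha
      cases a
      simp_all
    · intro x _
      rfl
  rw [h1, Finset.card_univ, Fintype.card_prod, Fintype.card_prod, comb_nz, ZMod.card,
    Fintype.card_fin, mul_assoc]

private theorem comb_col {p ϖ : ℕ} [NeZero p] (c : ZMod p) :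
    (col c : Finset (JT p ϖ)).card = (p - 1) * p * ϖ := by
  have h1 : (col c : Finset (JT p ϖ)).card =
      (Finset.univ : Finset ({c : ZMod p // c ≠ 0} × ZMod p × Fin ϖ)).card := by
    refine Finset.card_nbij' (fun a => (a.i, a.t, a.copy)) (fun x => ⟨x.1, c * x.1, x.2.1, x.2.2⟩)
      ?_ ?_ ?_ ?_
    · intro a _
      simp
    · intro x _
      simp [col]
    · intro a ha
      simp only [col, Finset.coe_filter, Finset.mem_univ, true_and, Set.mem_ofPred_eq] at ha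
      cases a
      simp_all
    · intro x _
      rfl
  rw [h1, Finset.card_univ, Fintype.card_prod, Fintype.card_prod, comb_nz, ZMod.card,
    Fintype.card_fin, mul_assoc]

private theorem comb_mem {p ϖ : ℕ} [NeZero p] (S : Finset (JT p ϖ)) :
    S ∈ MM p ϖ ↔ (∃ t, row t = S) ∨ ∃ c, col c = S := by
  simp [MM]

private theorem comb_inrow {p ϖ : ℕ} [NeZero p] (t : ZMod p) (a : JT p ϖ) :
    a ∈ (row t : Finset (JT p ϖ)) ↔ a.t = t := by
  simp [row]

private theorem comb_incol {p ϖ : ℕ} [NeZero p] (c : ZMod p) (a : JT p ϖ) :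
    a ∈ (col c : Finset (JT p ϖ)) ↔ a.j = c * a.i := by
  simp [col]

theorem comb1 {p ϖ : ℕ} [NeZero p] (hp : p.Prime) (hϖ : 1 ≤ ϖ) (S : Finset (JT p ϖ))
    (hS : S ∈ MM p ϖ) : S.card = (p - 1) * p * ϖ ∧
      (∀ a ∈ S, ∀ a' ∈ S, (PJ p ϖ).lk a a' = 0) ∧
      ∀ a', a' ∉ S → ∃ a ∈ S, (PJ p ϖ).lk a a' ≠ 0 := by
  have : Fact p.Prime := ⟨hp⟩
  have h10 : (1 : ZMod p) ≠ 0 := one_ne_zero
  rcases (comb_mem S).1 hS with ⟨t, rfl⟩ | ⟨c, rfl⟩
  · refine ⟨comb_row t, fun a ha a' ha' => ?_, fun a' ha' => ?_⟩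
    · rw [comb_inrow] at ha ha'
      rw [comb_lk]
      exact Or.inl (ha.trans ha'.symm)
    · rw [comb_inrow] at ha'
      have hi : (a'.i : ZMod p) ≠ 0 := a'.i.2
      refine ⟨⟨⟨1, h10⟩, a'.j / a'.i + 1, t, ⟨0, by omega⟩⟩, ?_, ?_⟩
      · rw [comb_inrow]
      · rw [Ne, comb_lk, not_or]
        refine ⟨fun h => ha' h.symm, ?_⟩
        simp only [one_mul]
        rw [add_mul, div_mul_cancel₀ _ hi, one_mul]
        intro h
        exact hi (by simpa using h)
  · refine ⟨comb_col c, fun a ha a' ha' => ?_, fun a' ha' => ?_⟩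
    · rw [comb_incol] at ha ha'
      rw [comb_lk, ha, ha']
      right
      ring
    · rw [comb_incol] at ha'
      refine ⟨⟨⟨1, h10⟩, c, a'.t + 1, ⟨0, by omega⟩⟩, ?_, ?_⟩
      · rw [comb_incol]
        simp
      · rw [Ne, comb_lk, not_or]
        refine ⟨fun h => ?_, ?_⟩
        · simp at h
        · simp only [one_mul]
          exact fun h => ha' h.symm

theorem comb2 {p ϖ : ℕ} [NeZero p] (hp : p.Prime) (hϖ : 1 ≤ ϖ) (S : Finset (JT p ϖ))
    (h : ∀ a ∈ S, ∀ a' ∈ S, (PJ p ϖ).lk a a' = 0) (hc : (p - 1) * p * ϖ ≤ S.card) :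
    S ∈ MM p ϖ := by
  have : Fact p.Prime := ⟨hp⟩
  have hpos : 0 < (p - 1) * p * ϖ := by
    have h2 := hp.two_le
    have h3 : 0 < p - 1 := by omega
    positivity
  obtain ⟨a₀, ha₀⟩ := Finset.card_pos.1 (lt_of_lt_of_le hpos hc)
  rw [comb_mem]
  by_cases hr : ∀ a ∈ S, a.t = a₀.t
  · left
    refine ⟨a₀.t, (Finset.eq_of_subset_of_card_le (fun a ha => ?_) ?_).symm⟩
    · rw [comb_inrow]
      exact hr a ha
    · rw [comb_row]
      exact hc
  · right
    push Not at hr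
    obtain ⟨a₁, ha₁, ht⟩ := hr
    have hi0 : (a₀.i : ZMod p) ≠ 0 := a₀.i.2
    have hi1 : (a₁.i : ZMod p) ≠ 0 := a₁.i.2
    have h1 : a₁.j * a₀.i = a₁.i * a₀.j := ((comb_lk a₁ a₀).1 (h a₁ ha₁ a₀ ha₀)).resolve_left ht
    refine ⟨a₀.j / a₀.i, (Finset.eq_of_subset_of_card_le (fun a ha => ?_) ?_).symm⟩
    · rw [comb_incol]
      have hi : (a.i : ZMod p) ≠ 0 := a.i.2
      rcases (comb_lk a a₀).1 (h a ha a₀ ha₀) with h2 | h2
      · have h3 : a.j * a₁.i = a.i * a₁.j :=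
          ((comb_lk a a₁).1 (h a ha a₁ ha₁)).resolve_left (fun h4 => ht (h4.symm.trans h2))
        rw [div_mul_eq_mul_div, eq_div_iff hi0]
        apply mul_right_cancel₀ hi1
        calc a.j * a₀.i * a₁.i = (a.j * a₁.i) * a₀.i := by ring
          _ = a.i * (a₁.j * a₀.i) := by rw [h3]; ring
          _ = a₀.j * a.i * a₁.i := by rw [h1]; ring
      · rw [div_mul_eq_mul_div, eq_div_iff hi0, h2]
        ring
    · rw [comb_col]
      exact hc

end H83.LW
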