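import Pool.Agent.H83.LW.LDef

/-!
# [H83 LW FAMG] disjoint families and finitely supported functions (100-160 lines)

`c a ≠ 0` for all `a : J`. Both sides as functions of `Z` (for all `Φ` at the same time), induction on `Z`:
* `Z = ∅`: left: the only family is `g = ∅` (all `g a ∈ {∅}`), `wg = 1`, argument `0`; right: `f = 0`, empty product. Both `Φ 0`.
* `insert v Z`, `v ∉ Z`: left: a disjoint family `g` on `insert v Z` either has `v` in no `g a` (a family on `Z`), or `v ∈ g a` for
  exactly one `a`, and `g = update g' a (insert v (g' a))` with `g'` a disjoint family on `Z`, `wg g = wg g' / nm v`, argument of `Φ`: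
  `single v (c a) + (argument for g')`. So `LHS(insert v Z, Φ) = LHS(Z, Φ) + (1 / nm v) ∑_a LHS(Z, fun f => Φ (single v (c a) + f))`.
  Right: `f` on `insert v Z` is `f' + single v x`, `x = f v`: `x = 0` gives `RHS(Z, Φ)`; `x ≠ 0`: the support is `insert v (supp f')`, the
  product gets the factor `#{a | c a = x} / nm v`. So `RHS(insert v Z, Φ) = RHS(Z, Φ) + (1 / nm v) ∑_{x ≠ 0} #{a | c a = x}
  RHS(Z, fun f => Φ (single v x + f))`, and `∑_{x ≠ 0} #{a | c a = x} Ψ x = ∑_a Ψ (c a)` since `c a ≠ 0`
  (`Finset.sum_comp`/`Finset.sum_fiberwise`).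
(Or directly: the map `g ↦ ∑_a ∑_{v ∈ g a} single v (c a)` and its fibres. For the disjoint families it is often convenient to
pass to the functions `v ↦ the a with v ∈ g a`, `{v // v ∈ Z} → Option J`, and `Finset.prod_univ_sum`.)
-/

set_option autoImplicit false

open scoped NumberField
open IsDedekindDomain
open scoped Classical

noncomputable section

namespace H83.LW

open H63.MA

variable {K : Type} [Field K] [NumberField K]

private def ar {J V : Type} [Fintype J] [AddCommMonoid V] (c : J → V)
    (g : J → Finset (Pl K)) : Pl K →₀ V := ∑ a, ∑ v ∈ g a, Finsupp.single v (c a)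

private def ex {J : Type} (v : Pl K) (g : J → Finset (Pl K)) (o : Option J) :
    J → Finset (Pl K) := fun a => if o = some a then insert v (g a) else g a

private def DF {J : Type} [Fintype J] (Z : Finset (Pl K)) : Finset (J → Finset (Pl K)) :=
  (Fintype.piFinset (fun _ : J => Z.powerset)).filter fun g => Dj g

private theorem mem_DF {J : Type} [Fintype J] {Z : Finset (Pl K)} {g : J → Finset (Pl K)} :
    g ∈ DF Z ↔ (∀ a, g a ⊆ Z) ∧ Dj g := by
  unfold DF
  rw [Finset.mem_filter, Fintype.mem_piFinset]
  simp only [Finset.mem_powerset]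

private theorem mem_ex {J : Type} {v : Pl K} {g : J → Finset (Pl K)} (hv : ∀ a, v ∉ g a)
    (o : Option J) (a : J) : v ∈ ex v g o a ↔ o = some a := by
  unfold ex
  split_ifs with h
  · simp [h]
  · simp only [h, iff_false]
    exact hv a

private theorem erase_ex {J : Type} {v : Pl K} {g : J → Finset (Pl K)} (hv : ∀ a, v ∉ g a)
    (o : Option J) (a : J) : (ex v g o a).erase v = g a := by
  unfold ex
  split_ifs with h
  · exact Finset.erase_insert (hv a)
  · exact Finset.erase_eq_of_notMem (hv a)

private theorem df_insert {J : Type} [Fintype J] (Z : Finset (Pl K)) (v : Pl K) (hv : v ∉ Z)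
    (F : (J → Finset (Pl K)) → ℂ) :
    ∑ g ∈ DF (insert v Z), F g = ∑ g ∈ DF Z, ∑ o : Option J, F (ex v g o) := by
  rw [← Finset.sum_product' (DF Z) Finset.univ (fun g o => F (ex v g o))]
  symm
  refine Finset.sum_bij (fun x _ => ex v x.1 x.2) ?_ ?_ ?_ ?_
  · rintro ⟨g, o⟩ hx
    obtain ⟨h1, h2⟩ := mem_DF.1 (Finset.mem_product.1 hx).1
    have h3 : ∀ a, v ∉ g a := fun a h => hv (h1 a h)
    rw [mem_DF]
    dsimp only
    refine ⟨fun a => ?_, fun a a' ha => ?_⟩
    · unfold ex
      split_ifs
      · exact Finset.insert_subset_insert _ (h1 a)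
      · exact (h1 a).trans (Finset.subset_insert _ _)
    · unfold ex
      split_ifs with b1 b2 b2
      · exact absurd (Option.some_injective _ (b1.symm.trans b2)) ha
      · rw [Finset.disjoint_insert_left]
        exact ⟨h3 a', h2 a a' ha⟩
      · rw [Finset.disjoint_insert_right]
        exact ⟨h3 a, h2 a a' ha⟩
      · exact h2 a a' ha
  · rintro ⟨g, o⟩ hx ⟨g', o'⟩ hx' he
    obtain ⟨h1, -⟩ := mem_DF.1 (Finset.mem_product.1 hx).1
    obtain ⟨h1', -⟩ := mem_DF.1 (Finset.mem_product.1 hx').1
    have h3 : ∀ a, v ∉ g a := fun a h => hv (h1 a h)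
    have h3' : ∀ a, v ∉ g' a := fun a h => hv (h1' a h)
    dsimp only at he
    refine Prod.ext ?_ ?_
    · funext a
      have e := congrFun he a
      have e1 := erase_ex h3 o a
      rw [e, erase_ex h3' o' a] at e1
      exact e1.symm
    · apply Option.ext
      intro a
      have e := congrFun he a
      have e1 := mem_ex h3 o a
      rw [e, mem_ex h3' o' a] at e1
      exact e1.symm
  · intro g' hg'
    obtain ⟨h1, h2⟩ := mem_DF.1 hg'
    refine ⟨(fun a => (g' a).erase v, if h : ∃ a, v ∈ g' a then some h.choose else none),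
      ?_, ?_⟩
    · rw [Finset.mem_product, mem_DF]
      refine ⟨⟨fun a x hx => ?_, fun a a' ha => ?_⟩, Finset.mem_univ _⟩
      · rw [Finset.mem_erase] at hx
        exact (Finset.mem_insert.1 (h1 a hx.2)).resolve_left hx.1
      · exact (h2 a a' ha).mono (Finset.erase_subset _ _) (Finset.erase_subset _ _)
    · funext a
      unfold ex
      dsimp only
      by_cases h : ∃ b, v ∈ g' b
      · rw [dif_pos h]
        by_cases ha : v ∈ g' a
        · have e : h.choose = a := by
            by_contra hne
            exact (Finset.disjoint_left.1 (h2 _ _ hne)) h.choose_spec ha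
          rw [if_pos (by rw [e]), Finset.insert_erase ha]
        · have e : ¬ some h.choose = some a := by
            intro e
            have e' := Option.some_injective _ e
            rw [← e'] at ha
            exact ha h.choose_spec
          rw [if_neg e, Finset.erase_eq_of_notMem ha]
      · rw [dif_neg h, if_neg (by simp)]
        exact Finset.erase_eq_of_notMem (fun ha => h ⟨a, ha⟩)
  · rintro ⟨g, o⟩ _
    rfl

private theorem ex_none {J : Type} (v : Pl K) (g : J → Finset (Pl K)) : ex v g none = g := by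
  funext a
  unfold ex
  rw [if_neg (by simp)]

private theorem wg_ex {J : Type} [Fintype J] {v : Pl K} {g : J → Finset (Pl K)}
    (hv : ∀ a, v ∉ g a) (b : J) : wg (ex v g (some b)) = wg g * (1 / (nm v : ℝ)) := by
  unfold wg
  have h1 : ∀ a ∈ (Finset.univ : Finset J), 1 / nr (ex v g (some b) a) =
      1 / nr (g a) * (if b = a then 1 / (nm v : ℝ) else 1) := by
    intro a _
    unfold ex
    by_cases h : b = a
    · subst h
      rw [if_pos rfl, if_pos rfl]
      unfold nr
      rw [Finset.prod_insert (hv b), one_div, one_div, one_div, mul_inv, mul_comm]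
    · rw [if_neg (fun h' => h (Option.some_injective _ h')), if_neg h, mul_one]
  rw [Finset.prod_congr rfl h1, Finset.prod_mul_distrib, Finset.prod_ite_eq,
    if_pos (Finset.mem_univ _)]

private theorem ar_ex {J V : Type} [Fintype J] [AddCommMonoid V] (c : J → V) {v : Pl K}
    {g : J → Finset (Pl K)} (hv : ∀ a, v ∉ g a) (b : J) :
    ar c (ex v g (some b)) = ar c g + Finsupp.single v (c b) := by
  unfold ar
  have h1 : ∀ a ∈ (Finset.univ : Finset J), ∑ u ∈ ex v g (some b) a, Finsupp.single u (c a) =
      ∑ u ∈ g a, Finsupp.single u (c a) + (if b = a then Finsupp.single v (c a) else 0) := by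
    intro a _
    unfold ex
    by_cases h : b = a
    · subst h
      rw [if_pos rfl, if_pos rfl, Finset.sum_insert (hv b), add_comm]
    · rw [if_neg (fun h' => h (Option.some_injective _ h')), if_neg h, add_zero]
  rw [Finset.sum_congr rfl h1, Finset.sum_add_distrib, Finset.sum_ite_eq,
    if_pos (Finset.mem_univ _)]

private theorem mem_fs {V : Type} [AddCommMonoid V] [Fintype V] {Z : Finset (Pl K)}
    {f : Pl K →₀ V} : f ∈ Z.finsupp (fun _ => (Finset.univ : Finset V)) ↔ f.support ⊆ Z := by
  simp [Finset.mem_finsupp_iff]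

private theorem fs_insert {V : Type} [AddCommMonoid V] [Fintype V] (Z : Finset (Pl K))
    (v : Pl K) (hv : v ∉ Z) (G : (Pl K →₀ V) → ℂ) :
    ∑ f ∈ (insert v Z).finsupp (fun _ => (Finset.univ : Finset V)), G f =
      ∑ f ∈ Z.finsupp (fun _ => (Finset.univ : Finset V)), ∑ x : V,
        G (f + Finsupp.single v x) := by
  rw [← Finset.sum_product' (Z.finsupp (fun _ => (Finset.univ : Finset V))) Finset.univ
    (fun f x => G (f + Finsupp.single v x))]
  symm
  have hf0 : ∀ f ∈ Z.finsupp (fun _ => (Finset.univ : Finset V)), f v = 0 := by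
    intro f hf
    by_contra h
    exact hv (mem_fs.1 hf (Finsupp.mem_support_iff.2 h))
  refine Finset.sum_bij (fun x _ => x.1 + Finsupp.single v x.2) ?_ ?_ ?_ ?_
  · rintro ⟨f, x⟩ hx
    have h1 := mem_fs.1 (Finset.mem_product.1 hx).1
    rw [mem_fs]
    dsimp only at h1 ⊢
    refine Finsupp.support_add.trans (Finset.union_subset (h1.trans (Finset.subset_insert _ _)) ?_)
    exact Finsupp.support_single_subset.trans (Finset.singleton_subset_iff.2
      (Finset.mem_insert_self _ _))
  · rintro ⟨f, x⟩ hx ⟨f', x'⟩ hx' he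
    have h1 := hf0 f (Finset.mem_product.1 hx).1
    have h1' := hf0 f' (Finset.mem_product.1 hx').1
    dsimp only at he
    have ex : x = x' := by
      have e := DFunLike.congr_fun he v
      rw [Finsupp.add_apply, Finsupp.add_apply, h1, h1', Finsupp.single_eq_same,
        Finsupp.single_eq_same, zero_add, zero_add] at e
      exact e
    refine Prod.ext ?_ ex
    ext u
    by_cases hu : u = v
    · subst hu
      exact h1.trans h1'.symm
    · have e := DFunLike.congr_fun he u
      rw [Finsupp.add_apply, Finsupp.add_apply, Finsupp.single_eq_of_ne hu,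
        Finsupp.single_eq_of_ne hu, add_zero, add_zero] at e
      exact e
  · intro f hf
    refine ⟨(f.erase v, f v), ?_, ?_⟩
    · rw [Finset.mem_product, mem_fs]
      refine ⟨fun u hu => ?_, Finset.mem_univ _⟩
      dsimp only at hu
      rw [Finsupp.support_erase, Finset.mem_erase] at hu
      exact (Finset.mem_insert.1 (mem_fs.1 hf hu.2)).resolve_left hu.1
    · exact Finsupp.erase_add_single v f
  · rintro ⟨f, x⟩ _
    rfl

private def Wf {V : Type} [AddCommMonoid V] (N : V → ℝ) (f : Pl K →₀ V) : ℝ :=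
  ∏ v ∈ f.support, N (f v) / nm v

private theorem Wf_add {V : Type} [AddCommMonoid V] (N : V → ℝ) (f : Pl K →₀ V)
    (v : Pl K) (hv : f v = 0) (x : V) :
    Wf N (f + Finsupp.single v x) = Wf N f * (if x = 0 then 1 else N x / nm v) := by
  by_cases hx : x = 0
  · subst hx
    rw [Finsupp.single_zero, add_zero, if_pos rfl, mul_one]
  · rw [if_neg hx]
    have hvs : v ∉ f.support := by
      rw [Finsupp.mem_support_iff]
      exact fun h => h hv
    have h1 : (f + Finsupp.single v x).support = insert v f.support := by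
      rw [Finsupp.support_add_eq, Finsupp.support_single_ne_zero v hx, Finset.union_comm,
        Finset.insert_eq]
      rw [Finsupp.support_single_ne_zero v hx, Finset.disjoint_singleton_right]
      exact hvs
    unfold Wf
    rw [h1, Finset.prod_insert hvs, mul_comm]
    congr 1
    · refine Finset.prod_congr rfl fun u hu => ?_
      have hne : u ≠ v := fun h => hvs (h ▸ hu)
      rw [Finsupp.add_apply, Finsupp.single_eq_of_ne hne, add_zero]
    · rw [Finsupp.add_apply, Finsupp.single_eq_same, hv, zero_add]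

private theorem cnt_sum {J V : Type} [Fintype J] [AddCommMonoid V] [Fintype V] (c : J → V)
    (hc : ∀ a, c a ≠ 0) (y : ℝ) (Ψ : V → ℂ) :
    ∑ x : V, (((if x = 0 then 1 else (Fintype.card {a // c a = x} : ℝ) / y : ℝ)) : ℂ) * Ψ x =
      Ψ 0 + ∑ a, (((1 / y : ℝ)) : ℂ) * Ψ (c a) := by
  have h1 : ∀ x ∈ (Finset.univ : Finset V),
      (((if x = 0 then 1 else (Fintype.card {a // c a = x} : ℝ) / y : ℝ)) : ℂ) * Ψ x =
      (if x = 0 then Ψ x else 0) + ∑ a, (if c a = x then (((1 / y : ℝ)) : ℂ) * Ψ x else 0) := by
    intro x _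
    by_cases hx : x = 0
    · subst hx
      rw [if_pos rfl, if_pos rfl]
      have h2 : ∑ a, (if c a = 0 then (((1 / y : ℝ)) : ℂ) * Ψ 0 else 0) = 0 :=
        Finset.sum_eq_zero fun a _ => if_neg (hc a)
      rw [h2]
      simp
    · rw [if_neg hx, if_neg hx, zero_add, ← Finset.sum_filter, Finset.sum_const,
        Fintype.card_subtype, nsmul_eq_mul]
      push_cast
      ring
  rw [Finset.sum_congr rfl h1, Finset.sum_add_distrib, Finset.sum_ite_eq',
    if_pos (Finset.mem_univ _), Finset.sum_comm]
  congr 1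
  refine Finset.sum_congr rfl fun a _ => ?_
  rw [Finset.sum_ite_eq, if_pos (Finset.mem_univ _)]

private theorem main_ind {J V : Type} [Fintype J] [AddCommMonoid V] [Fintype V] (c : J → V)
    (hc : ∀ a, c a ≠ 0) (Z : Finset (Pl K)) : ∀ Φ : (Pl K →₀ V) → ℂ,
    ∑ g ∈ DF Z, ((wg g : ℝ) : ℂ) * Φ (ar c g) =
      ∑ f ∈ Z.finsupp (fun _ => (Finset.univ : Finset V)),
        ((Wf (fun x => (Fintype.card {a // c a = x} : ℝ)) f : ℝ) : ℂ) * Φ f := by
  induction Z using Finset.induction_on with
  | empty =>
    intro Φ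
    have h1 : (DF ∅ : Finset (J → Finset (Pl K))) = {fun _ => ∅} := by
      ext g
      rw [mem_DF, Finset.mem_singleton]
      constructor
      · rintro ⟨h1, -⟩
        funext a
        exact Finset.subset_empty.1 (h1 a)
      · rintro rfl
        exact ⟨fun _ => Finset.Subset.refl _, fun _ _ _ => Finset.disjoint_empty_left _⟩
    have h2 : (∅ : Finset (Pl K)).finsupp (fun _ => (Finset.univ : Finset V)) = {0} := by
      ext f
      rw [mem_fs, Finset.mem_singleton, Finset.subset_empty, Finsupp.support_eq_empty]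
    rw [h1, h2, Finset.sum_singleton, Finset.sum_singleton]
    have h3 : wg (fun _ : J => (∅ : Finset (Pl K))) = 1 := by
      unfold wg nr
      simp
    have h4 : ar c (fun _ : J => (∅ : Finset (Pl K))) = 0 := by
      unfold ar
      simp
    have h5 : Wf (fun x => (Fintype.card {a // c a = x} : ℝ)) (0 : Pl K →₀ V) = 1 := by
      unfold Wf
      rw [Finsupp.support_zero, Finset.prod_empty]
    rw [h3, h4, h5]
  | insert v Z hv ih =>
    intro Φ
    rw [df_insert Z v hv (fun g => ((wg g : ℝ) : ℂ) * Φ (ar c g)),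
      fs_insert Z v hv (fun f => ((Wf (fun x => (Fintype.card {a // c a = x} : ℝ)) f : ℝ) : ℂ) *
        Φ f)]
    have h1 : ∀ g ∈ (DF Z : Finset (J → Finset (Pl K))), ∑ o : Option J,
        ((wg (ex v g o) : ℝ) : ℂ) * Φ (ar c (ex v g o)) =
        ((wg g : ℝ) : ℂ) * (fun f => Φ f + ∑ a, (((1 / (nm v : ℝ) : ℝ)) : ℂ) *
          Φ (f + Finsupp.single v (c a))) (ar c g) := by
      intro g hg
      have h3 : ∀ a, v ∉ g a := fun a h => hv ((mem_DF.1 hg).1 a h)
      rw [Fintype.sum_option, ex_none]
      dsimp only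
      rw [mul_add, Finset.mul_sum]
      congr 1
      refine Finset.sum_congr rfl fun a _ => ?_
      rw [wg_ex h3, ar_ex c h3]
      push_cast
      ring
    have h2 : ∀ f ∈ Z.finsupp (fun _ => (Finset.univ : Finset V)), ∑ x : V,
        ((Wf (fun x => (Fintype.card {a // c a = x} : ℝ)) (f + Finsupp.single v x) : ℝ) : ℂ) *
          Φ (f + Finsupp.single v x) =
        ((Wf (fun x => (Fintype.card {a // c a = x} : ℝ)) f : ℝ) : ℂ) *
          (fun f => Φ f + ∑ a, (((1 / (nm v : ℝ) : ℝ)) : ℂ) *
          Φ (f + Finsupp.single v (c a))) f := by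
      intro f hf
      have h3 : f v = 0 := by
        by_contra h
        exact hv (mem_fs.1 hf (Finsupp.mem_support_iff.2 h))
      have h4 := cnt_sum c hc (nm v : ℝ) (fun x => Φ (f + Finsupp.single v x))
      dsimp only at h4 ⊢
      rw [Finsupp.single_zero, add_zero] at h4
      rw [← h4, Finset.mul_sum]
      refine Finset.sum_congr rfl fun x _ => ?_
      rw [Wf_add _ f v h3 x]
      push_cast
      ring
    rw [Finset.sum_congr rfl h1, Finset.sum_congr rfl h2]
    exact ih (fun f => Φ f + ∑ a, (((1 / (nm v : ℝ) : ℝ)) : ℂ) *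
      Φ (f + Finsupp.single v (c a)))

theorem famg {J V : Type} [Fintype J] [AddCommMonoid V] [Fintype V] (c : J → V)
    (hc : ∀ a, c a ≠ 0) (Z : Finset (Pl K)) (Φ : (Pl K →₀ V) → ℂ) :
    ∑ g ∈ Fintype.piFinset (fun _ : J => Z.powerset),
      (if Dj g then ((wg g : ℝ) : ℂ) * Φ (∑ a, ∑ v ∈ g a, Finsupp.single v (c a)) else 0) =
      ∑ f ∈ Z.finsupp (fun _ => (Finset.univ : Finset V)),
        ((∏ v ∈ f.support, (Fintype.card {a // c a = f v} : ℝ) / nm v : ℝ) : ℂ) * Φ f := by
  have h := main_ind c hc Z Φ
  unfold DF at h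
  rw [Finset.sum_filter] at h
  exact h

end H83.LW
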