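import Pool.Agent.H83.LW.LDef

/-!
# LW-JDEF: the types of the primes in the first moment (complete)

A prime in the support has a type `a = (i, j, t, copy)`, `i ≠ 0`: `i` its exponent in `x`, `j` its exponent in `n`, `t` its coefficient in the
relation, and one of `ϖ` copies (which give the weight `ϖ`). `row t`, `col c`: the maximal unlinked sets. `ig, jg, kg`: the finitely supported
functions of a family.
-/

set_option autoImplicit false

open scoped NumberField
open IsDedekindDomain
open scoped Classical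

noncomputable section

namespace H83.LW

open H63.MA H38.BB

/-- the types -/
structure JT (p ϖ : ℕ) where
  i : {c : ZMod p // c ≠ 0}
  j : ZMod p
  t : ZMod p
  copy : Fin ϖ

/-- the types as a product -/
def JTe (p ϖ : ℕ) : JT p ϖ ≃ {c : ZMod p // c ≠ 0} × ZMod p × ZMod p × Fin ϖ where
  toFun a := (a.i, a.j, a.t, a.copy)
  invFun a := ⟨a.1, a.2.1, a.2.2.1, a.2.2.2⟩
  left_inv _ := rfl
  right_inv _ := rfl

instance (p ϖ : ℕ) [NeZero p] : Fintype (JT p ϖ) := Fintype.ofEquiv _ (JTe p ϖ).symm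

/-- the phase data -/
def PJ (p ϖ : ℕ) : PD p 2 (JT p ϖ) where
  x a := ![a.i, a.j]
  θ a := ![a.t * a.j, -(a.t * a.i)]
  self a := by
    simp [dt, Fin.sum_univ_two]
    ring

theorem PJ_lk (p ϖ : ℕ) (a a' : JT p ϖ) :
    (PJ p ϖ).lk a a' = (a.t - a'.t) * (a.j * a'.i - a.i * a'.j) := by
  simp [PD.lk, PJ, dt, Fin.sum_univ_two]
  ring

/-- the rows -/
def row {p ϖ : ℕ} [NeZero p] (t : ZMod p) : Finset (JT p ϖ) := Finset.univ.filter fun a => a.t = t

/-- the columns -/
def col {p ϖ : ℕ} [NeZero p] (c : ZMod p) : Finset (JT p ϖ) :=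
  Finset.univ.filter fun a => a.j = c * a.i

/-- the maximal unlinked sets -/
def MM (p ϖ : ℕ) [NeZero p] : Finset (Finset (JT p ϖ)) :=
  Finset.univ.image row ∪ Finset.univ.image col

variable {K : Type} [Field K] [NumberField K] {p ϖ : ℕ} [NeZero p]

/-- the exponents of `x` -/
def ig (g : JT p ϖ → Finset (Pl K)) : Pl K →₀ ZMod p :=
  ∑ a, ∑ v ∈ g a, Finsupp.single v (a.i : ZMod p)

/-- the exponents of `n` -/
def jg (g : JT p ϖ → Finset (Pl K)) : Pl K →₀ ZMod p :=
  ∑ a, ∑ v ∈ g a, Finsupp.single v a.j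

/-- the coefficients of the relation -/
def kg (g : JT p ϖ → Finset (Pl K)) : Pl K →₀ ZMod p :=
  ∑ a, ∑ v ∈ g a, Finsupp.single v a.t

end H83.LW
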