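import Pool.Agent.H83.LW.FAMG
import Pool.Agent.H83.LW.JDef

/-!
# [H83 LW FAMJ] the families of types and the triples `(i, j, k)` (two theorems, 80-140 lines)

* `famj`: `famg` with `V = ZMod p × ZMod p × ZMod p`, `c a = (a.i, a.j, a.t)` (`≠ 0` as `a.i ≠ 0`) and the function
  `f ↦ Φ (f.mapRange Prod.fst) (f.mapRange (·.2.1)) (f.mapRange (·.2.2))` (`Finsupp.mapRange_add`/`Finsupp.mapRange.addMonoidHom` and
  `map_sum` for the argument: it becomes `ig g, jg g, kg g`). `#{a | c a = x} = ϖ` if `x.1 ≠ 0` and `0` if `x.1 = 0`. So only the `f`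
  with `(f v).1 ≠ 0` for all `v ∈ supp f` contribute; these correspond to the triples `(i, j, k)`, `i ∈ XF Z`, `j, k ∈ XF (supp i)`:
  `f ↦ (fst f, …)`, inverse `(i, j, k) ↦ (v ↦ (i v, j v, k v))` (`Finsupp.onFinset` or `Finsupp.zipWith`), `supp f = supp i`.
* `fami`: families of pairs `(c, copy)`, `c ≠ 0`, with the weight `h`: `famg` with `V = ZMod p`, `J = {c // c ≠ 0} × Fin h`,
  `#{a | c a = x} = h` for `x ≠ 0`.
-/

set_option autoImplicit false

open scoped NumberField
open IsDedekindDomain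
open scoped Classical

noncomputable section

namespace H83.LW

open H63.MA

variable {K : Type} [Field K] [NumberField K] {p ϖ : ℕ} [NeZero p]

private def cj (a : JT p ϖ) : ZMod p × ZMod p × ZMod p := ((a.i : ZMod p), a.j, a.t)

private theorem cj_ne (a : JT p ϖ) : cj a ≠ 0 := by
  intro h
  exact a.i.2 (congrArg Prod.fst h)

private def p1 (p : ℕ) : ZMod p × ZMod p × ZMod p →+ ZMod p := AddMonoidHom.fst _ _

private def p2 (p : ℕ) : ZMod p × ZMod p × ZMod p →+ ZMod p :=
  (AddMonoidHom.fst _ _).comp (AddMonoidHom.snd _ _)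

private def p3 (p : ℕ) : ZMod p × ZMod p × ZMod p →+ ZMod p :=
  (AddMonoidHom.snd _ _).comp (AddMonoidHom.snd _ _)

private def mr (P : ZMod p × ZMod p × ZMod p →+ ZMod p) :
    (Pl K →₀ ZMod p × ZMod p × ZMod p) →+ (Pl K →₀ ZMod p) := Finsupp.mapRange.addMonoidHom P

private theorem mr_apply (P : ZMod p × ZMod p × ZMod p →+ ZMod p)
    (f : Pl K →₀ ZMod p × ZMod p × ZMod p) (v : Pl K) : mr P f v = P (f v) := by
  unfold mr
  simp

private theorem mr_sum (P : ZMod p × ZMod p × ZMod p →+ ZMod p) (g : JT p ϖ → Finset (Pl K)) :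
    mr P (∑ a, ∑ v ∈ g a, Finsupp.single v (cj a)) =
      ∑ a, ∑ v ∈ g a, Finsupp.single v (P (cj a)) := by
  rw [map_sum]
  refine Finset.sum_congr rfl fun a _ => ?_
  rw [map_sum]
  refine Finset.sum_congr rfl fun v _ => ?_
  unfold mr
  simp

private theorem card_cj (x : ZMod p × ZMod p × ZMod p) (hx : x.1 ≠ 0) :
    Fintype.card {a : JT p ϖ // cj a = x} = ϖ := by
  have e : {a : JT p ϖ // cj a = x} ≃ Fin ϖ :=
    { toFun := fun a => a.1.copy
      invFun := fun c => ⟨⟨⟨x.1, hx⟩, x.2.1, x.2.2, c⟩, rfl⟩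
      left_inv := by
        rintro ⟨⟨⟨i, hi⟩, j, t, c⟩, h⟩
        subst h
        rfl
      right_inv := fun c => rfl }
  rw [Fintype.card_congr e, Fintype.card_fin]

/-- the triple as one function -/
private def tr3 (i j k : Pl K →₀ ZMod p) : Pl K →₀ ZMod p × ZMod p × ZMod p :=
  Finsupp.onFinset (i.support ∪ j.support ∪ k.support) (fun v => (i v, j v, k v)) (by
    intro v hv
    by_contra h
    simp only [Finset.mem_union, Finsupp.mem_support_iff, not_or, not_not] at h
    apply hv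
    rw [h.1.1, h.1.2, h.2]
    rfl)

private theorem tr3_apply (i j k : Pl K →₀ ZMod p) (v : Pl K) :
    tr3 i j k v = (i v, j v, k v) := rfl

theorem famj (Z : Finset (Pl K))
    (Φ : (Pl K →₀ ZMod p) → (Pl K →₀ ZMod p) → (Pl K →₀ ZMod p) → ℂ) :
    ∑ g ∈ Fintype.piFinset (fun _ : JT p ϖ => Z.powerset),
      (if Dj g then ((wg g : ℝ) : ℂ) * Φ (ig g) (jg g) (kg g) else 0) =
      ∑ i ∈ XF p Z, ∑ j ∈ XF p i.support, ∑ k ∈ XF p i.support,
        ((Wt ϖ i : ℝ) : ℂ) * Φ i j k := by
  have h := famg (cj (p := p) (ϖ := ϖ)) cj_ne Z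
    (fun f => Φ (mr (p1 p) f) (mr (p2 p) f) (mr (p3 p) f))
  have h1 : ∀ g : JT p ϖ → Finset (Pl K),
      mr (p1 p) (∑ a, ∑ v ∈ g a, Finsupp.single v (cj a)) = ig g := fun g => mr_sum _ g
  have h2 : ∀ g : JT p ϖ → Finset (Pl K),
      mr (p2 p) (∑ a, ∑ v ∈ g a, Finsupp.single v (cj a)) = jg g := fun g => mr_sum _ g
  have h3 : ∀ g : JT p ϖ → Finset (Pl K),
      mr (p3 p) (∑ a, ∑ v ∈ g a, Finsupp.single v (cj a)) = kg g := fun g => mr_sum _ g
  simp only [h1, h2, h3] at h
  rw [h]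
  clear h h1 h2 h3
  have hS : ∑ f ∈ (Z.finsupp (fun _ => (Finset.univ : Finset (ZMod p × ZMod p × ZMod p)))).filter
      (fun f => ∀ v ∈ f.support, (f v).1 ≠ 0),
      ((∏ v ∈ f.support, (Fintype.card {a : JT p ϖ // cj a = f v} : ℝ) / nm v : ℝ) : ℂ) *
        Φ (mr (p1 p) f) (mr (p2 p) f) (mr (p3 p) f) =
      ∑ f ∈ Z.finsupp (fun _ => (Finset.univ : Finset (ZMod p × ZMod p × ZMod p))),
      ((∏ v ∈ f.support, (Fintype.card {a : JT p ϖ // cj a = f v} : ℝ) / nm v : ℝ) : ℂ) *
        Φ (mr (p1 p) f) (mr (p2 p) f) (mr (p3 p) f) := by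
    apply Finset.sum_filter_of_ne
    intro f _ hne v hv h0
    apply hne
    have h1 : Fintype.card {a : JT p ϖ // cj a = f v} = 0 := by
      rw [Fintype.card_eq_zero_iff]
      refine ⟨fun a => a.1.i.2 ?_⟩
      have h2 := congrArg Prod.fst a.2
      exact h2.trans h0
    rw [Finset.prod_eq_zero hv (by rw [h1]; simp)]
    simp
  refine Eq.trans ?_ (hS.symm.trans ?_)
  · refine Finset.sum_congr rfl fun f _ => ?_
    congr!
  clear hS
  have hR : ∑ i ∈ XF p Z, ∑ j ∈ XF p i.support, ∑ k ∈ XF p i.support,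
      ((Wt ϖ i : ℝ) : ℂ) * Φ i j k =
      ∑ y ∈ (XF p Z).sigma (fun i : Pl K →₀ ZMod p => XF p i.support ×ˢ XF p i.support),
        ((Wt ϖ y.1 : ℝ) : ℂ) * Φ y.1 y.2.1 y.2.2 := by
    rw [Finset.sum_sigma]
    refine Finset.sum_congr rfl fun i _ => ?_
    rw [Finset.sum_product]
  rw [hR]
  symm
  refine Finset.sum_bij (fun y _ => tr3 y.1 y.2.1 y.2.2) ?_ ?_ ?_ ?_
  · rintro ⟨i, j, k⟩ hy
    rw [Finset.mem_sigma, Finset.mem_product] at hy
    obtain ⟨hi, hj, hk⟩ := hy
    dsimp only at hi hj hk ⊢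
    rw [mem_XF] at hi hj hk
    have hv : ∀ v, tr3 i j k v ≠ 0 → i v ≠ 0 := by
      intro v hne h0
      apply hne
      have e1 : j v = 0 := by
        by_contra h
        exact (Finsupp.mem_support_iff.1 (hj (Finsupp.mem_support_iff.2 h))) h0
      have e2 : k v = 0 := by
        by_contra h
        exact (Finsupp.mem_support_iff.1 (hk (Finsupp.mem_support_iff.2 h))) h0
      rw [tr3_apply, h0, e1, e2]
      rfl
    rw [Finset.mem_filter]
    refine ⟨?_, ?_⟩
    · rw [Finset.mem_finsupp_iff]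
      refine ⟨fun v hv' => hi (Finsupp.mem_support_iff.2 (hv v (Finsupp.mem_support_iff.1 hv'))),
        fun _ _ => Finset.mem_univ _⟩
    · intro v hv'
      exact hv v (Finsupp.mem_support_iff.1 hv')
  · rintro ⟨i, j, k⟩ _ ⟨i', j', k'⟩ _ he
    dsimp only at he
    have h1 : i = i' := by
      ext v
      exact congrArg Prod.fst (DFunLike.congr_fun he v)
    have h2 : j = j' := by
      ext v
      exact congrArg (fun x => x.2.1) (DFunLike.congr_fun he v)
    have h3 : k = k' := by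
      ext v
      exact congrArg (fun x => x.2.2) (DFunLike.congr_fun he v)
    subst h1 h2 h3
    rfl
  · intro f hf
    rw [Finset.mem_filter, Finset.mem_finsupp_iff] at hf
    obtain ⟨⟨hf1, -⟩, hf2⟩ := hf
    have hs : ∀ v, f v ≠ 0 → mr (p1 p) f v ≠ 0 := by
      intro v hv
      rw [mr_apply]
      exact hf2 v (Finsupp.mem_support_iff.2 hv)
    refine ⟨⟨mr (p1 p) f, mr (p2 p) f, mr (p3 p) f⟩, ?_, ?_⟩
    · rw [Finset.mem_sigma, Finset.mem_product, mem_XF, mem_XF, mem_XF]
      refine ⟨?_, ?_, ?_⟩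
      · intro v hv
        rw [Finsupp.mem_support_iff, mr_apply] at hv
        exact hf1 (Finsupp.mem_support_iff.2 (fun h0 => hv (by rw [h0, map_zero])))
      · intro v hv
        rw [Finsupp.mem_support_iff, mr_apply] at hv
        exact Finsupp.mem_support_iff.2 (hs v (fun h0 => hv (by rw [h0, map_zero])))
      · intro v hv
        rw [Finsupp.mem_support_iff, mr_apply] at hv
        exact Finsupp.mem_support_iff.2 (hs v (fun h0 => hv (by rw [h0, map_zero])))
    · ext v : 1
      rw [tr3_apply, mr_apply, mr_apply, mr_apply]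
      rfl
  · rintro ⟨i, j, k⟩ hy
    rw [Finset.mem_sigma, Finset.mem_product] at hy
    obtain ⟨hi, hj, hk⟩ := hy
    dsimp only at hi hj hk ⊢
    rw [mem_XF] at hi hj hk
    have e1 : mr (p1 p) (tr3 i j k) = i := by
      ext v : 1
      rw [mr_apply, tr3_apply]
      rfl
    have e2 : mr (p2 p) (tr3 i j k) = j := by
      ext v : 1
      rw [mr_apply, tr3_apply]
      rfl
    have e3 : mr (p3 p) (tr3 i j k) = k := by
      ext v : 1
      rw [mr_apply, tr3_apply]
      rfl
    have hsup : (tr3 i j k).support = i.support := by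
      ext v
      rw [Finsupp.mem_support_iff, Finsupp.mem_support_iff]
      constructor
      · intro hne h0
        apply hne
        have e1 : j v = 0 := by
          by_contra h
          exact (Finsupp.mem_support_iff.1 (hj (Finsupp.mem_support_iff.2 h))) h0
        have e2 : k v = 0 := by
          by_contra h
          exact (Finsupp.mem_support_iff.1 (hk (Finsupp.mem_support_iff.2 h))) h0
        rw [tr3_apply, h0, e1, e2]
        rfl
      · intro hne h0
        rw [tr3_apply] at h0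
        exact hne (congrArg Prod.fst h0)
    rw [e1, e2, e3, hsup]
    congr 2
    unfold Wt
    refine Finset.prod_congr rfl fun v hv => ?_
    rw [card_cj _ (Finsupp.mem_support_iff.1 hv)]

theorem fami (h : ℕ) (Z : Finset (Pl K)) (Φ : (Pl K →₀ ZMod p) → ℂ) :
    ∑ g ∈ Fintype.piFinset (fun _ : {c : ZMod p // c ≠ 0} × Fin h => Z.powerset),
      (if Dj g then ((wg g : ℝ) : ℂ) *
        Φ (∑ a, ∑ v ∈ g a, Finsupp.single v (a.1 : ZMod p)) else 0) =
      ∑ i ∈ XF p Z, ((Wt h i : ℝ) : ℂ) * Φ i := by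
  have hh := famg (fun a : {c : ZMod p // c ≠ 0} × Fin h => (a.1 : ZMod p)) (fun a => a.1.2) Z Φ
  refine Eq.trans ?_ (hh.trans ?_)
  · refine Finset.sum_congr ?_ fun g _ => ?_
    · ext g
      simp only [Fintype.mem_piFinset]
    · by_cases h : Dj g
      · simp only [if_pos h]
      · simp only [if_neg h]
  unfold XF
  refine Finset.sum_congr rfl fun i _ => ?_
  congr 2
  unfold Wt
  refine Finset.prod_congr rfl fun v hv => ?_
  have hx := Finsupp.mem_support_iff.1 hv
  have e : {a : {c : ZMod p // c ≠ 0} × Fin h // (a.1 : ZMod p) = i v} ≃ Fin h :=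
    { toFun := fun a => a.1.2
      invFun := fun c => ⟨(⟨i v, hx⟩, c), rfl⟩
      left_inv := by
        rintro ⟨⟨⟨x, hx'⟩, c⟩, hc⟩
        dsimp only at hc
        subst hc
        rfl
      right_inv := fun c => rfl }
  refine congrArg (fun n : ℕ => (n : ℝ) / (nm v : ℝ)) ?_
  exact (congrArg (fun I => @Fintype.card _ I) (Subsingleton.elim _ _)).trans
    ((Fintype.card_congr e).trans (Fintype.card_fin h))

end H83.LW
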