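import Pool.Agent.H83.LW.BFORM
import Pool.Agent.H63.MA.KumF
import Pool.Agent.H63.MA.ADef

/-!
# [H83 LW RLP] the elements `xx i` of class `0` and the number of relations (four theorems, 90-150 lines)

`i ≠ 0`, the support outside `S0`, `cl D i = 0`.
* `ps_xx`: `prim_of` for `m = i.mapRange (fun c => (c.val : ℤ))` (value `0` at `0`): `m v = 0` on `S0`, `∑ (m v : ZMod p) • q v = cl D i = 0`
  (`ZMod.natCast_zmod_val`), `∏ pi v ^ m v = xx D i` (`zpow_natCast`; the supports agree as `(c.val : ℤ) = 0 ↔ c = 0`).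
* `xx_np`: `ord v (xx D i) = (i v).val` is not divisible by `p` for `v` in the support (`ord_xx` in `BFORM`), so `xx D i` is not a `p`-th
  power.
* `rl_sub`: `Rl D i` is closed under addition and scalar multiplication and contains `0`, so it is the carrier of a `ZMod p`-submodule of
  `Pl K →₀ ZMod p`, finite, of cardinality `p^d`.
* `rlp`: by `kum_exists` (`MA/KumA`, `¬ IsPow`) there is `L` with `Kum p K ζ (xx D i) L`; `rel_tunit` (`MA/KumF`) for `T = S0 ∪ supp i`
  (`ClOne T`: for `v ∉ T` take `pi v`; `hT`: `D.above`; `hr`: `ord v (xx i) = 0` outside `T`; `hc`: `ps_xx`) gives `k` with a nonzero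
  value on `nsp p ζ (xx i) T`, zero outside `nsp`, and `∑_{v ∈ nsp} k v B v (xx i) x = 0` for `x ∈ UT T`. `nsp p ζ (xx i) T = supp i`:
  it is the set of the `v ∈ T`, `v ∤ p`, which are not `Spl`; for `v ∈ S0` not above `p` we have `Spl` by `ps_xx`; for `v ∈ supp i`:
  `¬ Spl` by `spl_dvd` (`MA/SymC`). So `k` (as a finitely supported function) is a nonzero element of `Rl D i`, hence `d ≥ 1`, and
  `p^d = p` or `p^d ≥ p^2`.
-/

set_option autoImplicit false

open scoped NumberField
open IsDedekindDomain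
open scoped Classical

noncomputable section

namespace H83.LW

open H63.MA H38.BB

variable {K : Type} [Field K] [NumberField K] {p : ℕ} {ζ : K}

theorem ps_xx (hp : p.Prime) (D : RD0 K p ζ) (i : Pl K →₀ ZMod p)
    (hi : ∀ v ∈ i.support, v ∉ D.S0) (hcl : cl D i = 0) : PS p ζ D.S0 (xx D i) := by
  have : NeZero p := ⟨hp.ne_zero⟩
  have h0 : (((0 : ZMod p).val : ℕ) : ℤ) = 0 := by
    rw [ZMod.val_zero, Nat.cast_zero]
  have hinj : Function.Injective (fun c : ZMod p => ((c.val : ℕ) : ℤ)) := fun a b hab =>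
    ZMod.val_injective p (by
      have h : ((a.val : ℕ) : ℤ) = ((b.val : ℕ) : ℤ) := hab
      exact_mod_cast h)
  have hs : (Finsupp.mapRange (fun c : ZMod p => ((c.val : ℕ) : ℤ)) h0 i).support = i.support :=
    Finsupp.support_mapRange_of_injective h0 i hinj
  have h := D.prim_of (Finsupp.mapRange (fun c : ZMod p => ((c.val : ℕ) : ℤ)) h0 i) ?_ ?_
  · have e : (Finsupp.mapRange (fun c : ZMod p => ((c.val : ℕ) : ℤ)) h0 i).prod
        (fun v n => D.pi v ^ n) = xx D i := by
      unfold Finsupp.prod xx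
      rw [hs]
      refine Finset.prod_congr rfl fun v _ => ?_
      rw [Finsupp.mapRange_apply]
      show D.pi v ^ (((i v).val : ℕ) : ℤ) = _
      rw [zpow_natCast]
    rw [e] at h
    exact h
  · intro v hv
    rw [Finsupp.mapRange_apply, Finsupp.notMem_support_iff.1 (fun h' => hi v h' hv)]
    exact h0
  · unfold Finsupp.sum
    rw [hs]
    refine Eq.trans (Finset.sum_congr rfl fun v _ => ?_) hcl
    rw [Finsupp.mapRange_apply]
    show ((((i v).val : ℕ) : ℤ) : ZMod p) • D.q v = _
    rw [Int.cast_natCast, ZMod.natCast_zmod_val]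

private theorem rlp_val (hp : p.Prime) {c : ZMod p} (hc : c ≠ 0) : ¬ (p : ℤ) ∣ ((c.val : ℕ) : ℤ) := by
  have : NeZero p := ⟨hp.ne_zero⟩
  intro h
  have h1 : p ∣ c.val := by exact_mod_cast h
  have h2 : 0 < c.val := Nat.pos_of_ne_zero fun h0 => hc ((ZMod.val_eq_zero c).1 h0)
  exact absurd (Nat.le_of_dvd h2 h1) (not_le.2 (ZMod.val_lt c))

theorem xx_np (hp : p.Prime) (D : RD0 K p ζ) (i : Pl K →₀ ZMod p)
    (hi : ∀ v ∈ i.support, v ∉ D.S0) (hne : i ≠ 0) : ¬ IsPow p (xx D i) := by
  rintro ⟨y, hy⟩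
  obtain ⟨v, hv⟩ := Finsupp.support_nonempty_iff.2 hne
  have h1 := ord_xx D i hi (hi v hv)
  rw [← hy, ord_pow] at h1
  exact rlp_val hp (Finsupp.mem_support_iff.1 hv) ⟨ord v y, h1.symm⟩

theorem nsp_xx (hp : p.Prime) (hζ : IsPrimitiveRoot ζ p) (D : RD0 K p ζ) (i : Pl K →₀ ZMod p)
    (hi : ∀ v ∈ i.support, v ∉ D.S0) (hcl : cl D i = 0) :
    nsp p ζ (xx D i) (D.S0 ∪ i.support) = i.support := by
  ext v
  unfold nsp
  rw [Finset.mem_filter, Finset.mem_union]
  constructor
  · rintro ⟨h1 | h1, h2, h3⟩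
    · exact absurd ((ps_xx hp D i hi hcl).2 v h1 h2) h3
    · exact h1
  · intro hv
    have ha : ¬ Above p v := fun h => hi v hv (D.above v h)
    refine ⟨Or.inr hv, ha, fun h => ?_⟩
    have h1 := spl_dvd hp hζ ha h
    rw [ord_xx D i hi (hi v hv)] at h1
    exact rlp_val hp (Finsupp.mem_support_iff.1 hv) h1

theorem rlp [NeZero p] (hp : p.Prime) (hp2 : MOne p K) (hζ : IsPrimitiveRoot ζ p)
    (D : RD0 K p ζ) (i : Pl K →₀ ZMod p) (hi : ∀ v ∈ i.support, v ∉ D.S0) (hcl : cl D i = 0)
    (hne : i ≠ 0) : (Rl D i).card = p ∨ p ^ 2 ≤ (Rl D i).card := by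
  have hF : Fact p.Prime := ⟨hp⟩
  let M : Submodule (ZMod p) (Pl K →₀ ZMod p) :=
    { carrier := {k | IsRl D i k}
      add_mem' := by
        rintro k k' ⟨h1, h2⟩ ⟨h1', h2'⟩
        refine ⟨fun v hv => ?_, fun n hn => ?_⟩
        · rcases Finset.mem_union.1 (Finsupp.support_add hv) with h | h
          · exact h1 h
          · exact h1' h
        · have e : ∀ v ∈ i.support, (k + k') v * B p ζ v (xx D i) n =
              k v * B p ζ v (xx D i) n + k' v * B p ζ v (xx D i) n := fun v _ => by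
            rw [Finsupp.add_apply, add_mul]
          rw [Finset.sum_congr rfl e, Finset.sum_add_distrib, h2 n hn, h2' n hn, add_zero]
      zero_mem' := by
        refine ⟨by simp, fun n _ => ?_⟩
        refine Finset.sum_eq_zero fun v _ => ?_
        rw [Finsupp.zero_apply, zero_mul]
      smul_mem' := by
        rintro c k ⟨h1, h2⟩
        refine ⟨fun v hv => h1 (Finsupp.support_smul hv), fun n hn => ?_⟩
        have e : ∀ v ∈ i.support, (c • k) v * B p ζ v (xx D i) n =
              c * (k v * B p ζ v (xx D i) n) := fun v _ => by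
          rw [Finsupp.smul_apply, smul_eq_mul, mul_assoc]
        rw [Finset.sum_congr rfl e, ← Finset.mul_sum, h2 n hn, mul_zero] }
  have hM : (M : Set (Pl K →₀ ZMod p)) = ↑(Rl D i) := by
    ext k
    have e1 : k ∈ (M : Set (Pl K →₀ ZMod p)) ↔ IsRl D i k := Iff.rfl
    rw [e1, Finset.mem_coe]
    unfold Rl
    rw [Finset.mem_filter, mem_XF]
    exact ⟨fun h => ⟨h.1, h⟩, fun h => h.2⟩
  have hfin : (M : Set (Pl K →₀ ZMod p)).Finite := by
    rw [hM]
    exact Finset.finite_toSet _
  have : Finite M := hfin.to_subtype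
  have hcard : Nat.card M = (Rl D i).card := by
    have e1 : Nat.card M = (M : Set (Pl K →₀ ZMod p)).ncard := Nat.card_coe_set_eq _
    rw [e1, hM, Set.ncard_coe_finset]
  have hpow : Nat.card M = p ^ Module.finrank (ZMod p) M := by
    rw [Module.natCard_eq_pow_finrank (K := ZMod p) (V := M), Nat.card_zmod]
  -- a nonzero element
  obtain ⟨L, _, _, _, ⟨H⟩⟩ := kum_exists hp hζ (xx_np hp D i hi hne)
  have hps := ps_xx hp D i hi hcl
  obtain ⟨k, ⟨v0, hv0, hk0⟩, hkz, hk⟩ := rel_tunit hp hp2 hζ H (D.S0 ∪ i.support)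
    (fun v hv => by
      rw [Finset.mem_union, not_or] at hv
      refine ⟨D.pi v, D.pi_self v hv.1, fun w hw hwv => ?_⟩
      rw [Finset.mem_union, not_or] at hw
      exact D.pi_ne v w hv.1 hw.1 hwv)
    (fun v hv => Finset.mem_union_left _ (D.above v hv))
    (fun v hv => by
      by_contra h
      rw [Finset.mem_union, not_or] at h
      rw [ord_xx D i hi h.1, Finsupp.notMem_support_iff.1 h.2, ZMod.val_zero] at hv
      exact hv (by simp))
    hps.1
  rw [nsp_xx hp hζ D i hi hcl] at hv0 hkz hk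
  obtain ⟨k', hk'⟩ : ∃ k' : Pl K →₀ ZMod p, k' = Finsupp.onFinset i.support k (fun v hv => by
    by_contra h
    exact hv (hkz v h)) := ⟨_, rfl⟩
  have hk'v : ∀ v, k' v = k v := fun v => by rw [hk', Finsupp.onFinset_apply]
  have hk'M : k' ∈ M := by
    show IsRl D i k'
    refine ⟨?_, fun n hn => ?_⟩
    · rw [hk']
      exact Finsupp.support_onFinset_subset
    · have h1 := hk n (by
        rw [mem_UT]
        intro v hv
        rw [Finset.mem_union, not_or] at hv
        exact hn v hv.1 hv.2)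
      refine Eq.trans (Finset.sum_congr rfl fun v _ => ?_) h1
      rw [hk'v]
  have hne' : k' ≠ 0 := fun h => hk0 (by rw [← hk'v, h, Finsupp.zero_apply])
  have h2 : Module.finrank (ZMod p) M ≠ 0 := by
    intro h0
    rw [h0, pow_zero] at hpow
    have h3 := (Nat.card_eq_one_iff_unique.1 hpow).1
    have h4 : (⟨k', hk'M⟩ : M) = 0 := Subsingleton.elim _ _
    exact hne' (congrArg Subtype.val h4)
  rw [← hcard, hpow]
  rcases Nat.lt_or_ge (Module.finrank (ZMod p) M) 2 with h | h
  · left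
    have : Module.finrank (ZMod p) M = 1 := by omega
    rw [this, pow_one]
  · right
    exact Nat.pow_le_pow_right hp.pos h

end H83.LW
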