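import Pool.Agent.H83.LW.MONEB
import Pool.Agent.H83.LW.RLP

/-!
# [H83 LW GOODM] the mass of the bad classes (60-100 lines)

`Z = ZY D 𝒦 w z`, `h = p ϖ`, `M0 = ∑_{XC Z} Wt h`, `Sb` = the sum over the `i ∈ XC Z`, `i ≠ 0`, with `#Rl ≠ p`. `Wt h 0 = 1`, `0 ∈ XC Z`. By `rlp`
(the primes in `Z` are good, so outside `S0`): `#Rl = p` or `#Rl ≥ p²` for `i ≠ 0`. So
`∑_{XC} Wt #Rl ≥ p (M0 - 1) + (p² - p) Sb`. `moneb` with `ε = 1/16`: `(p² - p) Sb ≤ p + (p p^e / #U + 1/16) M0`. As `p² - p ≥ 2`,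
`p / (p² - p) = 1 / (p - 1) ≤ 1` and `p^e / #U ≤ 1/16`... precisely: `Sb ≤ p/(p²-p) + (p^e / #U) p / (p² - p) M0 + (1/32) M0
≤ 1 + (1/32 + 1/32) M0` if `32 p^e ≤ #U`. The sum in the theorem is `≤ Sb + 1` (`i = 0` has weight `1`). `M0 → ∞`: `M0 ≥ p^(-r) ∑_{XF} Wt ≥
c exp((p - 1) h LY)` (`ms_cls`, `ms_low`) and `exp(LY) ≥ c (log z)^τ` (`hlow_of`), `(p - 1) h ≥ 1`; so `2 ≤ M0 / 16` for large `z`. Total
`≤ M0 / 8`.
-/

set_option autoImplicit false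

open scoped NumberField
open IsDedekindDomain
open scoped Classical

noncomputable section

namespace H83.LW

open H63.MA H38.BB

variable {K : Type} [Field K] [NumberField K] {p : ℕ} {ζ : K}

private theorem gdm_big [NeZero p] (hp : p.Prime) (hp2 : MOne p K) (hζ : IsPrimitiveRoot ζ p)
    (D : RD K p ζ) {e : ℕ} {d : Fin e → Kˣ} {𝒦 : Submodule (ZMod p) (Fin D.r → ZMod p)}
    (hK : DK D.toRD0 e d 𝒦) (ϖ : ℕ) (hϖ : 1 ≤ ϖ) (w : ℝ) (hw : ((p * ϖ : ℕ) : ℝ) ≤ w) (T : ℝ) :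
    ∃ z₀ : ℝ, ∀ z : ℝ, z₀ ≤ z →
      T ≤ ∑ i ∈ XC D.toRD0 (ZY D.toRD0 𝒦 w z), Wt (p * ϖ) i := by
  obtain ⟨c, τ, hc, hτ, h1⟩ := hlow_of hp hp2 hζ D.toRD0 hK w
  obtain ⟨c', hc', h2⟩ := ms_low K p (p * ϖ)
  have hp2r : (2 : ℝ) ≤ p := by exact_mod_cast hp.two_le
  have hϖr : (1 : ℝ) ≤ ϖ := by exact_mod_cast hϖ
  have hP : 0 < (p : ℝ) ^ D.r := by positivity
  have ht : Filter.Tendsto (fun z : ℝ => (c' * c / (p : ℝ) ^ D.r) * Real.log z ^ τ)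
      Filter.atTop Filter.atTop :=
    ((tendsto_rpow_atTop hτ).comp Real.tendsto_log_atTop).const_mul_atTop (by positivity)
  obtain ⟨z₁, hz₁⟩ := Filter.eventually_atTop.1 (ht.eventually_ge_atTop T)
  refine ⟨max z₁ 3, fun z hz => ?_⟩
  have hz1 := hz₁ z ((le_max_left _ _).trans hz)
  have hz3 : 3 ≤ z := (le_max_right _ _).trans hz
  have h3 := h1 z hz3
  have h4 := h2 (ZY D.toRD0 𝒦 w z)
  have h5 := ms_cls hp D.toRD0 (p * ϖ) (ZY D.toRD0 𝒦 w z) (fun v hv =>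
    hw.trans (mem_ZY.1 hv).2.2.1.le)
  have h6 : LY D.toRD0 𝒦 w z ≤ ((p : ℝ) - 1) * (p * ϖ : ℕ) * Li (ZY D.toRD0 𝒦 w z) := by
    have h0 : 0 ≤ LY D.toRD0 𝒦 w z := Li_nonneg _
    have h7 : 1 ≤ ((p : ℝ) - 1) * (p * ϖ : ℕ) := by
      push_cast
      refine one_le_mul_of_one_le_of_one_le (by linarith) ?_
      exact one_le_mul_of_one_le_of_one_le (by linarith) hϖr
    exact le_mul_of_one_le_left h0 h7
  have h8 : c' * (c * Real.log z ^ τ) ≤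
      (p : ℝ) ^ D.r * ∑ i ∈ XC D.toRD0 (ZY D.toRD0 𝒦 w z), Wt (p * ϖ) i := by
    refine le_trans (mul_le_mul_of_nonneg_left (h3.trans (Real.exp_le_exp.2 h6)) hc'.le) ?_
    exact h4.trans h5
  refine hz1.trans ?_
  have h9 : c' * c / (p : ℝ) ^ D.r * Real.log z ^ τ = c' * (c * Real.log z ^ τ) / (p : ℝ) ^ D.r := by
    ring
  show c' * c / (p : ℝ) ^ D.r * Real.log z ^ τ ≤ _
  rw [h9, div_le_iff₀ hP, mul_comm _ ((p : ℝ) ^ D.r)]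
  exact h8

theorem goodm [NeZero p] (hp : p.Prime) (hp2 : MOne p K) (hζ : IsPrimitiveRoot ζ p)
    (D : RD K p ζ) {e : ℕ} {d : Fin e → Kˣ} {𝒦 : Submodule (ZMod p) (Fin D.r → ZMod p)}
    (hK : DK D.toRD0 e d 𝒦) {U : Type} [CommGroup U] [Fintype U] (F : U → Kˣ)
    (hU : UR D.toRD0 U F) (hUc : 32 * p ^ e ≤ Fintype.card U) (ϖ : ℕ) (hϖ : 1 ≤ ϖ) (w : ℝ)
    (hw : ((p * ϖ : ℕ) : ℝ) ≤ w) :
    ∃ z₀ : ℝ, ∀ z : ℝ, z₀ ≤ z →
      ∑ i ∈ (XC D.toRD0 (ZY D.toRD0 𝒦 w z)).filter (fun i => (Rl D.toRD0 i).card ≠ p),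
        Wt (p * ϖ) i ≤ (1 / 8) * ∑ i ∈ XC D.toRD0 (ZY D.toRD0 𝒦 w z), Wt (p * ϖ) i := by
  obtain ⟨z₁, h1⟩ := moneb hp hp2 hζ D hK F hU ϖ hϖ w hw (1 / 16) (by norm_num)
  obtain ⟨z₂, h2⟩ := gdm_big hp hp2 hζ D hK ϖ hϖ w hw 32
  refine ⟨max z₁ z₂, fun z hz => ?_⟩
  have h3 := h1 z ((le_max_left _ _).trans hz)
  have h4 := h2 z ((le_max_right _ _).trans hz)
  have hp2r : (2 : ℝ) ≤ p := by exact_mod_cast hp.two_le
  obtain ⟨S, hS⟩ : ∃ S, S = XC D.toRD0 (ZY D.toRD0 𝒦 w z) := ⟨_, rfl⟩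
  obtain ⟨M, hM⟩ : ∃ M, M = ∑ i ∈ S, Wt (p * ϖ) i := ⟨_, rfl⟩
  rw [← hS] at h3 h4 ⊢
  rw [← hM] at h3 h4 ⊢
  rw [Finset.sum_filter]
  obtain ⟨Q, hQ⟩ : ∃ Q, Q = ∑ i ∈ S, (if (Rl D.toRD0 i).card ≠ p then Wt (p * ϖ) i else 0) :=
    ⟨_, rfl⟩
  rw [← hQ]
  have hpt : ∀ i ∈ S, (p : ℝ) * Wt (p * ϖ) i + ((p : ℝ) ^ 2 - p) *
      (if (Rl D.toRD0 i).card ≠ p then Wt (p * ϖ) i else 0) -
      (p : ℝ) ^ 2 * (if i = 0 then 1 else 0) ≤ Wt (p * ϖ) i * (Rl D.toRD0 i).card := by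
    intro i hi
    have hW := Wt_nonneg (p * ϖ) i
    by_cases h0 : i = 0
    · have hW1 : Wt (p * ϖ) i = 1 := by
        rw [h0]
        unfold Wt
        rw [Finsupp.support_zero, Finset.prod_empty]
      rw [if_pos h0, hW1]
      have h5 : (if (Rl D.toRD0 i).card ≠ p then (1 : ℝ) else 0) ≤ 1 := by
        split_ifs
        · norm_num
        · norm_num
      have h6 : ((p : ℝ) ^ 2 - p) * (if (Rl D.toRD0 i).card ≠ p then (1 : ℝ) else 0) ≤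
          ((p : ℝ) ^ 2 - p) * 1 := mul_le_mul_of_nonneg_left h5 (by nlinarith)
      have h7 : (0 : ℝ) ≤ 1 * (Rl D.toRD0 i).card := by positivity
      linarith
    · rw [if_neg h0]
      rw [hS] at hi
      unfold XC at hi
      rw [Finset.mem_filter, mem_XF] at hi
      have hi' : ∀ v ∈ i.support, v ∉ D.S0 := fun v hv =>
        (mem_ZY.1 (hi.1 hv)).2.1.1
      rcases rlp hp hp2 hζ D.toRD0 i hi' hi.2 h0 with h5 | h5
      · rw [if_neg (not_not.2 h5), h5]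
        linarith
      · have h6 : ((p : ℝ) ^ 2) ≤ ((Rl D.toRD0 i).card : ℝ) := by exact_mod_cast h5
        have h7 : (if (Rl D.toRD0 i).card ≠ p then Wt (p * ϖ) i else 0) ≤ Wt (p * ϖ) i := by
          split_ifs
          · exact le_refl _
          · exact hW
        have h8 : ((p : ℝ) ^ 2 - p) * (if (Rl D.toRD0 i).card ≠ p then Wt (p * ϖ) i else 0) ≤
          ((p : ℝ) ^ 2 - p) * Wt (p * ϖ) i := mul_le_mul_of_nonneg_left h7 (by nlinarith)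
        have h9 := mul_le_mul_of_nonneg_left h6 hW
        linarith
  have hsum := Finset.sum_le_sum hpt
  rw [Finset.sum_sub_distrib, Finset.sum_add_distrib, ← Finset.mul_sum, ← Finset.mul_sum,
    ← Finset.mul_sum, ← hM, ← hQ] at hsum
  have h0 : ∑ i ∈ S, (if i = 0 then (1 : ℝ) else 0) ≤ 1 := by
    rw [Finset.sum_ite_eq' S (0 : Pl K →₀ ZMod p) (fun _ => (1 : ℝ))]
    split_ifs
    · exact le_refl _
    · exact zero_le_one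
  have h5 : (p : ℝ) ^ 2 * ∑ i ∈ S, (if i = 0 then (1 : ℝ) else 0) ≤ (p : ℝ) ^ 2 * 1 :=
    mul_le_mul_of_nonneg_left h0 (by positivity)
  have hU1 : (32 : ℝ) * (p : ℝ) ^ e ≤ Fintype.card U := by exact_mod_cast hUc
  have hU0 : (0 : ℝ) < Fintype.card U := lt_of_lt_of_le (by positivity) hU1
  have h6 : (p : ℝ) * (p : ℝ) ^ e / Fintype.card U ≤ p / 32 := by
    rw [div_le_iff₀ hU0]
    nlinarith
  have hM0 : 0 ≤ M := by linarith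
  have h7 := mul_le_mul_of_nonneg_right h6 hM0
  have h8 : ((p : ℝ) ^ 2 - p) * Q ≤ (p / 32 + 1 / 16) * M + (p : ℝ) ^ 2 := by linarith
  have h9 : (p : ℝ) ^ 2 ≤ (p : ℝ) ^ 2 * (M / 32) :=
    le_mul_of_one_le_right (by positivity) (by linarith)
  have h10 : (p / 32 + 1 / 16 + (p : ℝ) ^ 2 / 32) * M ≤ ((p : ℝ) ^ 2 - p) * (1 / 8) * M :=
    mul_le_mul_of_nonneg_right (by nlinarith) hM0
  have h11 : 0 < (p : ℝ) ^ 2 - p := by nlinarith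
  have h12 : ((p : ℝ) ^ 2 - p) * Q ≤ ((p : ℝ) ^ 2 - p) * (1 / 8 * M) := by linarith
  exact le_of_mul_le_mul_left h12 h11

end H83.LW
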