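import Pool.Agent.H38.TD.Grp2
import Pool.Agent.H38.TD.TdAll

/-!
# [H83 LW GRPC] the two cases for `P` (two theorems, 70-110 lines, finite group theory)

* `grpc_pd`: `P` a finite `p`-group, `A₀` abelian of index `p` (so normal, see the beginning of the proof of `grp2` in `H38/TD/Grp2`), `c ∉ A₀`, `c^p = 1`. Take
  `A = A₀` (with the `CommGroup` structure from `hcomm`), `j = A₀.subtype`, `θ` = conjugation by `c`. `gen`: `P / A₀` has order `p` and is generated by the
  image of `c`; `notin`: `c^k ∈ A₀` iff `p ∣ k` (the end of the proof of `grp2` constructs `pd` in exactly this way; see also `grpb_rep`,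
  `grpb_pow_mem`).
* `grpc_real`: `P` is semiabelian (`Semiabelian` in `H38/ML/Defs`): `r = 2`, `H 0 = ⊤`, `A 0 = A₀`, `H 1 = A 1 = zpowers c` for any
  `c ∉ A₀` (`A₀ ⊔ zpowers c = ⊤` as the index is prime), `H k = ⊥`, `A k = ⊥` for `k ≥ 2`; `semiabelian_realizable` (`H38/ML/Semi`).
-/

open scoped Classical

noncomputable section

namespace H83.LW

open H38.TD H38.ML

private theorem grpc_norm {P : Type} [Group P] [Finite P] {p : ℕ} (hp : p.Prime)
    (hP : IsPGroup p P) (A₀ : Subgroup P) (hi : A₀.index = p) : A₀.Normal := by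
  have hFp : Fact p.Prime := ⟨hp⟩
  apply Subgroup.normal_of_index_eq_minFac_card
  obtain ⟨n, hn⟩ := IsPGroup.iff_card.1 hP
  have hn0 : n ≠ 0 := by
    rintro rfl
    have h1 : A₀.index ∣ Nat.card P := Subgroup.index_dvd_card A₀
    rw [hi, hn, pow_zero, Nat.dvd_one] at h1
    exact hp.one_lt.ne' h1
  rw [hi, hn, Nat.Prime.pow_minFac hp hn0]

theorem grpc_pd {P : Type} [Group P] [Finite P] {p : ℕ} (hp : p.Prime) (hP : IsPGroup p P)
    (A₀ : Subgroup P) (hi : A₀.index = p) (hcomm : ∀ a ∈ A₀, ∀ b ∈ A₀, a * b = b * a)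
    (c : P) (hc : c ∉ A₀) (hcp : c ^ p = 1) :
    ∃ (A : Type) (_ : CommGroup A) (_ : Finite A), Nonempty (PD p A P) := by
  have hnorm : A₀.Normal := grpc_norm hp hP A₀ hi
  let instC : CommGroup A₀ :=
    { (inferInstance : Group A₀) with
      mul_comm := fun a b => Subtype.ext (hcomm a a.2 b b.2) }
  have hfin : Finite A₀ := inferInstance
  let pd : @PD p A₀ P instC _ :=
    { θ := (MulAut.conjNormal c : MulAut A₀)
      j := A₀.subtype
      c := c
      jinj := Subtype.val_injective
      cp := hcp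
      conj := fun a => rfl
      gen := fun g => by
        obtain ⟨a, ha, k, h⟩ := grpb_rep hp A₀ hi c hc g
        exact ⟨⟨a, ha⟩, k, h⟩
      notin := fun k hk => by
        obtain ⟨a, ha⟩ := hk
        apply grpb_pow_mem hp A₀ hi c hc k
        rw [← ha]
        exact a.2 }
  exact ⟨A₀, instC, hfin, ⟨pd⟩⟩

theorem grpc_real {P : Type} [Group P] [Finite P] {p : ℕ} (hp : p.Prime) (hP : IsPGroup p P)
    (A₀ : Subgroup P) (hi : A₀.index = p) (hcomm : ∀ a ∈ A₀, ∀ b ∈ A₀, a * b = b * a) :
    Realizable P := by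
  have hnorm : A₀.Normal := grpc_norm hp hP A₀ hi
  have hex : ∃ c : P, c ∉ A₀ := by
    by_contra hcon
    push Not at hcon
    have h1 : A₀ = ⊤ := by
      rw [eq_top_iff]
      intro g _
      exact hcon g
    rw [h1, Subgroup.index_top] at hi
    exact hp.one_lt.ne hi
  obtain ⟨c, hc⟩ := hex
  have hsup : A₀ ⊔ Subgroup.zpowers c = ⊤ := by
    rw [eq_top_iff]
    intro g _
    obtain ⟨a, ha, k, rfl⟩ := grpb_rep hp A₀ hi c hc g
    exact Subgroup.mul_mem_sup ha (Subgroup.npow_mem_zpowers c k)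
  have hzc : ∀ a ∈ Subgroup.zpowers c, ∀ b ∈ Subgroup.zpowers c, a * b = b * a := by
    rintro _ ⟨k, rfl⟩ _ ⟨l, rfl⟩
    exact (Commute.zpow_zpow_self c k l).eq
  apply semiabelian_realizable
  refine ⟨2, fun k => if k = 0 then ⊤ else if k = 1 then Subgroup.zpowers c else ⊥,
    fun k => if k = 0 then A₀ else Subgroup.zpowers c, by simp, by simp, ?_⟩
  intro k hk
  obtain rfl | rfl : k = 0 ∨ k = 1 := by omega
  · refine ⟨by simp, by simp, ?_, ?_, by simpa using hsup⟩
    · intro h _ a ha
      simp only [if_true] at ha ⊢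
      exact hnorm.conj_mem a ha h
    · intro a ha b hb
      simp only [if_true] at ha hb
      exact hcomm a ha b hb
  · refine ⟨by simp, by simp, ?_, ?_, by simp⟩
    · intro h hh a ha
      simp only [one_ne_zero, if_false, if_true] at hh ha ⊢
      exact mul_mem (mul_mem hh ha) (inv_mem hh)
    · intro a ha b hb
      simp only [one_ne_zero, if_false] at ha hb
      exact hzc a ha b hb

end H83.LW
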