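import Pool.Agent.H83.LW.MASS
import Pool.Agent.H38.TD.Markov

/-!
# [H83 LW SIZE] classes of large size (three theorems, 60-100 lines)

The `i ∈ XF Z` with support exactly `R ⊆ Z` are `(p - 1)^{#R}` many, all with `Wt h i = ∏_{v ∈ R} h / nm v`, so for every function `Ψ`:
`∑_{i ∈ XF Z} Wt h i Ψ (supp i) = ∑_{R ∈ Z.powerset} (∏_{v ∈ R} (p - 1) h / nm v) Ψ R` (private lemma; `Finset.sum_fiberwise` for
`i ↦ supp i`, the fibre over `R` is in bijection with the functions `R → {c ≠ 0}`; or by induction on `Z`, or from `ms_fac`).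
* `size_c`: `markov` (`H38/TD/Markov`) with weights `w v = (p - 1) h / nm v` and the function `c v ≥ 0`; `∏ (1 + w v) = ∑_{XF} Wt` (`ms_eq`).
* `size_n`: for `t < #supp i`: `1 ≤ (3/2)^(#supp i - t) = exp(- t log (3/2)) (3/2)^{#supp i}`, and
  `∑_{R} ∏_{v ∈ R} (3/2) (p - 1) h / nm v = ∏ (1 + …) ≤ exp((3/2) (p - 1) h Li Z)`.
-/

set_option autoImplicit false

open scoped NumberField
open IsDedekindDomain
open scoped Classical

noncomputable section

namespace H83.LW

open H63.MA H38.BB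

variable {K : Type} [Field K] [NumberField K] {p : ℕ} {ζ : K}

private theorem sz_gen {R : Type} [CommSemiring R] [NeZero p] (Z : Finset (Pl K))
    (ψ : Pl K → ZMod p → R) :
    ∑ i ∈ XF p Z, ∏ v ∈ Z, ψ v (i v) = ∏ v ∈ Z, ∑ c, ψ v c := by
  unfold XF
  rw [Finset.prod_sum, Finset.finsupp, Finset.sum_map]
  refine Finset.sum_congr rfl fun g _ => ?_
  show ∏ v ∈ Z, ψ v (Finsupp.indicator Z g v) = _
  rw [← Finset.prod_attach Z fun v => ψ v (Finsupp.indicator Z g v)]
  refine Finset.prod_congr rfl fun v _ => ?_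
  rw [Finsupp.indicator_of_mem v.2]

private theorem sz_sum [NeZero p] (x : ℝ) :
    ∑ c : ZMod p, (if c = 0 then 0 else x) = ((p : ℝ) - 1) * x := by
  have h1 : ∀ c : ZMod p, (if c = 0 then 0 else x) = x - if c = 0 then x else 0 := by
    intro c
    by_cases h : c = 0
    · rw [if_pos h, if_pos h]
      ring
    · rw [if_neg h, if_neg h]
      ring
  rw [Finset.sum_congr rfl fun c _ => h1 c, Finset.sum_sub_distrib, Finset.sum_const,
    Finset.card_univ, ZMod.card, Finset.sum_ite_eq' Finset.univ (0 : ZMod p) (fun _ => x),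
    if_pos (Finset.mem_univ _), nsmul_eq_mul]
  ring

private theorem sz_fib [NeZero p] (h : ℕ) (R : Finset (Pl K)) :
    ∑ i ∈ (XF p R).filter (fun i => i.support = R), Wt h i =
      ∏ v ∈ R, ((p : ℝ) - 1) * h / nm v := by
  rw [Finset.sum_filter]
  have h1 : ∀ i ∈ XF p R, (if i.support = R then Wt h i else 0) =
      ∏ v ∈ R, (if i v = 0 then (0 : ℝ) else (h : ℝ) / nm v) := by
    intro i hi
    by_cases hs : i.support = R
    · rw [if_pos hs]
      unfold Wt
      rw [hs]
      refine Finset.prod_congr rfl fun v hv => ?_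
      rw [← hs] at hv
      rw [if_neg (Finsupp.mem_support_iff.1 hv)]
    · rw [if_neg hs]
      symm
      obtain ⟨v, hvR, hv⟩ : ∃ v ∈ R, v ∉ i.support := by
        by_contra hcon
        push Not at hcon
        exact hs (Finset.Subset.antisymm (mem_XF.1 hi) hcon)
      refine Finset.prod_eq_zero hvR ?_
      rw [if_pos (Finsupp.notMem_support_iff.1 hv)]
  rw [Finset.sum_congr rfl h1, sz_gen R (fun v c => if c = 0 then (0 : ℝ) else (h : ℝ) / nm v)]
  refine Finset.prod_congr rfl fun v _ => ?_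
  rw [sz_sum]
  ring

private theorem sz_psi [NeZero p] (h : ℕ) (Z : Finset (Pl K)) (P : Finset (Pl K) → Prop) :
    ∑ i ∈ (XF p Z).filter (fun i => P i.support), Wt h i =
      ∑ R ∈ Z.powerset.filter P, ∏ v ∈ R, ((p : ℝ) - 1) * h / nm v := by
  rw [← Finset.sum_fiberwise_of_maps_to (s := (XF p Z).filter (fun i => P i.support))
    (t := Z.powerset.filter P) (g := fun i => i.support) (fun i hi => by
      rw [Finset.mem_filter, mem_XF] at hi
      rw [Finset.mem_filter, Finset.mem_powerset]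
      exact hi)]
  refine Finset.sum_congr rfl fun R hR => ?_
  rw [← sz_fib]
  refine Finset.sum_congr ?_ fun _ _ => rfl
  rw [Finset.mem_filter, Finset.mem_powerset] at hR
  ext i
  rw [Finset.mem_filter, Finset.mem_filter, mem_XF, Finset.mem_filter, mem_XF]
  constructor
  · rintro ⟨_, h3⟩
    exact ⟨h3.subset, h3⟩
  · rintro ⟨_, h3⟩
    exact ⟨⟨by rw [h3]; exact hR.1, by rw [h3]; exact hR.2⟩, h3⟩

private theorem sz_p1 [NeZero p] : 0 ≤ (p : ℝ) - 1 := by
  have h : 1 ≤ p := Nat.one_le_iff_ne_zero.2 (NeZero.ne p)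
  have : (1 : ℝ) ≤ p := by exact_mod_cast h
  linarith

theorem size_c [NeZero p] (hp : p.Prime) (h : ℕ) (Z : Finset (Pl K)) (c : Pl K → ℝ)
    (hc : ∀ v ∈ Z, 0 ≤ c v) (t : ℝ) (ht : 0 < t) :
    ∑ i ∈ (XF p Z).filter (fun i => t < ∑ v ∈ i.support, c v), Wt h i ≤
      (((p : ℝ) - 1) * h * ∑ v ∈ Z, c v / nm v) / t * ∑ i ∈ XF p Z, Wt h i := by
  have hp1 := sz_p1 (p := p)
  have h1 := H38.TD.markov Z (fun v => ((p : ℝ) - 1) * h / nm v) c (fun v _ => by positivity) hc t ht
  have e1 : ∑ v ∈ Z, ((p : ℝ) - 1) * h / nm v * c v =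
      ((p : ℝ) - 1) * h * ∑ v ∈ Z, c v / nm v := by
    rw [Finset.mul_sum]
    exact Finset.sum_congr rfl fun v _ => by ring
  rw [e1] at h1
  rw [ms_eq, sz_psi h Z (fun R => t < ∑ v ∈ R, c v)]
  exact h1

theorem size_n [NeZero p] (hp : p.Prime) (h : ℕ) (Z : Finset (Pl K)) (t : ℝ) :
    ∑ i ∈ (XF p Z).filter (fun i => t < (i.support.card : ℝ)), Wt h i ≤
      Real.exp (-(t * Real.log (3 / 2)) + 3 / 2 * (((p : ℝ) - 1) * h) * Li Z) := by
  have hp1 := sz_p1 (p := p)
  rw [sz_psi h Z (fun R => t < (R.card : ℝ))]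
  have hl : 0 < Real.log (3 / 2 : ℝ) := Real.log_pos (by norm_num)
  have h1 : ∀ R ∈ Z.powerset.filter (fun R => t < (R.card : ℝ)),
      ∏ v ∈ R, ((p : ℝ) - 1) * h / nm v ≤ Real.exp (-(t * Real.log (3 / 2))) *
        ∏ v ∈ R, (3 / 2 * (((p : ℝ) - 1) * h / nm v)) := by
    intro R hR
    rw [Finset.mem_filter] at hR
    rw [Finset.prod_mul_distrib, Finset.prod_const, ← mul_assoc]
    refine le_mul_of_one_le_left (Finset.prod_nonneg fun v _ => by positivity) ?_
    have h2 : (3 / 2 : ℝ) ^ R.card = Real.exp (R.card * Real.log (3 / 2)) := by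
      rw [Real.exp_nat_mul, Real.exp_log (by norm_num)]
    rw [h2, ← Real.exp_add]
    refine Real.one_le_exp ?_
    have h3 := mul_le_mul_of_nonneg_right hR.2.le hl.le
    linarith
  refine (Finset.sum_le_sum h1).trans ?_
  refine (Finset.sum_le_sum_of_subset_of_nonneg (Finset.filter_subset _ _) fun R _ _ =>
    mul_nonneg (Real.exp_pos _).le (Finset.prod_nonneg fun v _ => by positivity)).trans ?_
  rw [← Finset.mul_sum, ← Finset.prod_one_add, Real.exp_add]
  refine mul_le_mul_of_nonneg_left ?_ (Real.exp_pos _).le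
  refine (H38.TD.prod_le_exp Z _ fun v _ => by positivity).trans (le_of_eq ?_)
  congr 1
  unfold Li
  rw [Finset.mul_sum]
  exact Finset.sum_congr rfl fun v _ => by ring

end H83.LW
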