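import Mathlib

/-!
# [H83 LW UPD] sums over families, one or two variables separated (three theorems, 40-80 lines)

`g ↦ (update g a x₀, g a)` is a bijection from `piFinset S` to the pairs `(g', n)`, `g' ∈ piFinset (update S a {x₀})`, `n ∈ S a`, with
inverse `(g', n) ↦ update g' a n` (`Finset.sum_nbij'` or `Finset.sum_bij'` after `Finset.sum_sigma'`/`Finset.sum_product'`;
`Fintype.mem_piFinset`). `upd2` from `upd1` applied twice. `upd_prod`: `∑_{g ∈ piFinset S} ∏_l f l (g l) = ∏_l ∑_{n ∈ S l} f l n`
(`Finset.prod_univ_sum`).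
-/

set_option autoImplicit false

open scoped Classical

noncomputable section

namespace H83.LW

variable {J X : Type} [Fintype J]

theorem upd1 (a : J) (S : J → Finset X) (x₀ : X) (F : (J → X) → ℂ) :
    ∑ g ∈ Fintype.piFinset S, F g =
      ∑ g ∈ Fintype.piFinset (fun l => if l = a then {x₀} else S l),
        ∑ n ∈ S a, F (Function.update g a n) := by
  rw [← Finset.sum_product']
  refine Finset.sum_bij' (fun g _ => (Function.update g a x₀, g a))
    (fun q _ => Function.update q.1 a q.2) ?_ ?_ ?_ ?_ ?_
  · intro g hg
    rw [Fintype.mem_piFinset] at hg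
    rw [Finset.mem_product, Fintype.mem_piFinset]
    refine ⟨fun l => ?_, hg a⟩
    by_cases hl : l = a
    · subst hl
      simp
    · simp [hl, hg l]
  · intro q hq
    rw [Finset.mem_product, Fintype.mem_piFinset] at hq
    rw [Fintype.mem_piFinset]
    intro l
    by_cases hl : l = a
    · subst hl
      simpa using hq.2
    · have h := hq.1 l
      rw [if_neg hl] at h
      rw [Function.update_of_ne hl]
      exact h
  · intro g _
    simp
  · rintro ⟨g, n⟩ hq
    rw [Finset.mem_product, Fintype.mem_piFinset] at hq
    have h := hq.1 a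
    rw [if_pos rfl, Finset.mem_singleton] at h
    have h1 : Function.update (Function.update g a n) a x₀ = g := by
      rw [Function.update_idem, ← h, Function.update_eq_self]
    have h2 : Function.update g a n a = n := Function.update_self _ _ _
    exact Prod.ext h1 h2
  · intro g _
    simp

theorem upd2 (a a' : J) (haa : a ≠ a') (S : J → Finset X) (x₀ : X) (F : (J → X) → ℂ) :
    ∑ g ∈ Fintype.piFinset S, F g =
      ∑ g ∈ Fintype.piFinset (fun l => if l = a ∨ l = a' then {x₀} else S l),
        ∑ m ∈ S a, ∑ n ∈ S a', F (Function.update (Function.update g a m) a' n) := by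
  rw [upd1 a' S x₀ F]
  rw [upd1 a (fun l => if l = a' then {x₀} else S l) x₀
    (fun g => ∑ n ∈ S a', F (Function.update g a' n))]
  have e1 : (fun l => if l = a then {x₀} else if l = a' then {x₀} else S l) =
      (fun l => if l = a ∨ l = a' then ({x₀} : Finset X) else S l) := by
    funext l
    by_cases h1 : l = a
    · rw [if_pos h1, if_pos (Or.inl h1)]
    · by_cases h2 : l = a'
      · rw [if_neg h1, if_pos h2, if_pos (Or.inr h2)]
      · rw [if_neg h1, if_neg h2, if_neg (not_or.2 ⟨h1, h2⟩)]
  rw [e1, if_neg haa]

theorem upd_prod (S : J → Finset X) (f : J → X → ℝ) :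
    ∑ g ∈ Fintype.piFinset S, ∏ l, f l (g l) = ∏ l, ∑ n ∈ S l, f l n :=
  (Finset.prod_univ_sum S f).symm

end H83.LW
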