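import Pool.Agent.H83.LW.MASS
import Pool.Agent.H83.LW.BLOG
import Pool.Agent.H83.LW.UPD
import Pool.Agent.H83.LW.FAMJ
import Pool.Agent.H83.LW.BFORM

/-!
# [H83 LW LRG] the first moment of the long character sums (150-220 lines)

`Z = ZY D 𝒦 w z`, `y = (log z)^A`, `Y₂ = ZY D ⊥ y z` (the good primes with `y < nm v ≤ z`), `MT = ∑_{XF Z} Wt h`. `fami` (with
`Φ i = ‖Gr D Y₂ i j‖`, as a complex number; take real parts): the left side is
`∑_g [Dj g] wg g ‖Gr D Y₂ (i g) j‖`, `g : J' → Z.powerset`, `J' = {c ≠ 0} × Fin h`, `i g = ∑_a ∑_{v ∈ g a} single v a.1`.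
(1) The `g` with `nr (g a) ≤ y` for all `a`: `‖Gr‖ ≤ Li Y₂ ≤ log log z + C` (`lg_up`), and `∑ wg g ≤ (C log y)^{#J'}` (`upd_prod`, `sm_nr`).
(2) The `g` with `y < nr (g a)` for some `a`; sum over `a`. Fix `a`, and write `‖Gr D Y₂ (i g) j‖ = γ g * Gr D Y₂ (i g) j` with `‖γ g‖ ≤ 1`
(`γ = conj / norm`). `upd1` at `a` (`x₀ = ∅`): fix the other components, pairwise disjoint, `F = ⋃_{l ≠ a} g l`; `n = g a ⊆ Z ∖ F`,
`y < nr n`, and the sum over `v ∈ Y₂ ∖ (F ∪ n)` in `Gr`. `LL v (xx (i g)) = ∑_{l ≠ a} l.1 ∑_{u ∈ g l} LL v (pi u) + a.1 Lf D {v} (pf D n)`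
(`LL_xx`, `lf_pf`). So with `m = {v}`, `nr m = nm v > y`: the sum is
`∏_{l ≠ a} (1 / nr (g l)) ∑_m ∑_n [Disjoint m n] (1 / (nr m nr n)) α m β n ep(j a.1 Lf D m (pf D n))` over `m, n ⊆ gdY D z` with `y < nr`,
`α m = ep(j ∑_{l ≠ a} …)` if `m = {v}` with `v ∈ Y₂ ∖ F`, and `0` otherwise; `β n = γ (update g a n)` if `n ⊆ Z ∖ F` and `0` otherwise.
`blog` (`e = j a.1 ≠ 0`, the set `gdY D z`): `≤ C (log z)^A₁ (y^(-δ) + 1/z)`. The sum over the other components:
`≤ exp(LY)^{#J'} ≤ (C log z)^{#J'}` (`upd_prod`, `sm_full`, `sm_up`).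
Choose `A` with `A δ ≥ A₁ + #J' + 1`: (2) is `≤ C (log z)^(-1) → 0`; (1) is `≤ C (log log z)^{#J' + 1} `, and both together are
`≤ MT` for large `z` since `MT ≥ c'' exp(LY) ≥ c'' c (log z)^τ` (`ms_low`, `hlow`, `(p - 1) h ≥ 1`).
-/

set_option autoImplicit false

open scoped NumberField
open IsDedekindDomain
open scoped Classical

noncomputable section

namespace H83.LW

open H63.MA H38.BB

variable {K : Type} [Field K] [NumberField K] {p : ℕ} {ζ : K}

private def lrgP (J : Type) [Fintype J] (Z : Finset (Pl K)) : Finset (J → Finset (Pl K)) :=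
  Fintype.piFinset (fun _ : J => Z.powerset)

private def lrgI {J : Type} [Fintype J] (cc : J → ZMod p) (g : J → Finset (Pl K)) : Pl K →₀ ZMod p :=
  ∑ a, ∑ v ∈ g a, Finsupp.single v (cc a)

private def lrgc {J : Type} [Fintype J] (D : RD0 K p ζ) (cc : J → ZMod p) (g : J → Finset (Pl K))
    (v : Pl K) : ZMod p :=
  ∑ a, ∑ u ∈ g a, cc a * D.LL v (D.pi u)

private theorem lrg_LL [NeZero p] (hp : p.Prime) (hζ : IsPrimitiveRoot ζ p) (D : RD0 K p ζ)
    {J : Type} [Fintype J] (cc : J → ZMod p) (g : J → Finset (Pl K)) {v : Pl K} (hv : v ∉ D.S0) :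
    D.LL v (xx D (lrgI cc g)) = lrgc D cc g v := by
  rw [LL_xx hp hζ D _ hv]
  have h1 : ∀ i : Pl K →₀ ZMod p, ∑ w ∈ i.support, i w * D.LL v (D.pi w) =
      Finsupp.liftAddHom (fun w => AddMonoidHom.mulRight (D.LL v (D.pi w))) i := by
    intro i
    rw [Finsupp.liftAddHom_apply]
    rfl
  rw [h1]
  unfold lrgI lrgc
  rw [map_sum]
  refine Finset.sum_congr rfl fun a _ => ?_
  rw [map_sum]
  refine Finset.sum_congr rfl fun u _ => ?_
  rw [Finsupp.liftAddHom_apply_single]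
  rfl

private theorem lrg_supp [NeZero p] {J : Type} [Fintype J] (cc : J → ZMod p) (hcc : ∀ a, cc a ≠ 0) (g : J → Finset (Pl K))
    (hd : Dj g) (v : Pl K) : v ∈ (lrgI cc g).support ↔ ∃ a, v ∈ g a := by
  have h1 : lrgI cc g v = ∑ a, if v ∈ g a then cc a else 0 := by
    unfold lrgI
    rw [Finsupp.finsetSum_apply]
    refine Finset.sum_congr rfl fun a _ => ?_
    rw [Finsupp.finsetSum_apply]
    simp only [Finsupp.single_apply]
    rw [Finset.sum_ite_eq' (g a) v (fun _ => cc a)]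
  rw [Finsupp.mem_support_iff, h1]
  constructor
  · intro h2
    by_contra h3
    push Not at h3
    exact h2 (Finset.sum_eq_zero fun a _ => if_neg (h3 a))
  · rintro ⟨a, ha⟩
    rw [Finset.sum_eq_single a]
    · rw [if_pos ha]
      exact hcc a
    · intro b _ hb
      rw [if_neg]
      intro hvb
      exact Finset.disjoint_left.1 (hd b a hb) hvb ha
    · intro h2
      exact absurd (Finset.mem_univ a) h2

private theorem lrg_Gr [NeZero p] (hp : p.Prime) (hζ : IsPrimitiveRoot ζ p) (D : RD0 K p ζ)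
    {J : Type} [Fintype J] (cc : J → ZMod p) (hcc : ∀ a, cc a ≠ 0) (g : J → Finset (Pl K)) (hd : Dj g)
    (Y : Finset (Pl K)) (hY : ∀ v ∈ Y, v ∉ D.S0) (j : ZMod p) :
    Gr D Y (lrgI cc g) j =
      ∑ v ∈ Y.filter (fun v => ∀ a, v ∉ g a), ep p (j * lrgc D cc g v) / (nm v : ℂ) := by
  unfold Gr
  have h1 : Y \ (lrgI cc g).support = Y.filter (fun v => ∀ a, v ∉ g a) := by
    ext v
    rw [Finset.mem_sdiff, Finset.mem_filter, lrg_supp cc hcc g hd]
    push Not
    rfl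
  rw [h1]
  refine Finset.sum_congr rfl fun v hv => ?_
  rw [lrg_LL hp hζ D cc g (hY v (Finset.mem_filter.1 hv).1)]

private theorem lrg_pi (J : Type) [Fintype J] [ij : DecidableEq J] (Z : Finset (Pl K)) :
    lrgP J Z = Fintype.piFinset (fun _ : J => Z.powerset) := by
  have h : ij = fun a b => Classical.propDecidable (a = b) := Subsingleton.elim _ _
  subst h
  rfl

private theorem lrg_fam [NeZero p] (D : RD0 K p ζ) (h : ℕ) (Z Y : Finset (Pl K)) (j : ZMod p) :
    ∑ i ∈ XF p Z, Wt h i * ‖Gr D Y i j‖ =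
      ∑ g ∈ lrgP ({c : ZMod p // c ≠ 0} × Fin h) Z,
        if Dj g then wg g *
          ‖Gr D Y (lrgI (fun a : {c : ZMod p // c ≠ 0} × Fin h => (a.1 : ZMod p)) g) j‖ else 0 := by
  have h0 : lrgP ({c : ZMod p // c ≠ 0} × Fin h) Z =
      Fintype.piFinset (fun _ : {c : ZMod p // c ≠ 0} × Fin h => Z.powerset) := lrg_pi _ Z
  rw [h0]
  have h1 := fami (K := K) (p := p) h Z (fun i => ((‖Gr D Y i j‖ : ℝ) : ℂ))
  apply Complex.ofReal_injective
  rw [Complex.ofReal_sum, Complex.ofReal_sum]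
  have h2 : ∑ i ∈ XF p Z, ((Wt h i * ‖Gr D Y i j‖ : ℝ) : ℂ) =
      ∑ i ∈ XF p Z, ((Wt h i : ℝ) : ℂ) * ((‖Gr D Y i j‖ : ℝ) : ℂ) :=
    Finset.sum_congr rfl fun i _ => by rw [Complex.ofReal_mul]
  rw [h2, ← h1]
  refine Finset.sum_congr rfl fun g _ => ?_
  by_cases hd : Dj g
  · rw [if_pos hd, if_pos hd, Complex.ofReal_mul]
    rfl
  · rw [if_neg hd, if_neg hd, Complex.ofReal_zero]

private theorem lrg_nr_empty : nr (∅ : Finset (Pl K)) = 1 := by
  unfold nr
  rw [Finset.prod_empty]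

private theorem lrg_nr_pos (n : Finset (Pl K)) : 0 < nr n := lt_of_lt_of_le one_pos (one_le_nr n)

private theorem lrg_wg_nonneg {J : Type} [Fintype J] (g : J → Finset (Pl K)) : 0 ≤ wg g :=
  Finset.prod_nonneg fun a _ => by
    have := lrg_nr_pos (g a)
    positivity

private theorem lrg_dj {J : Type} (g : J → Finset (Pl K)) (a : J)
    (ha : g a = ∅) (n : Finset (Pl K)) :
    Dj (Function.update g a n) ↔ Dj g ∧ ∀ l, l ≠ a → Disjoint n (g l) := by
  constructor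
  · intro h
    refine ⟨fun l l' hl => ?_, fun l hl => ?_⟩
    · by_cases h1 : l = a
      · rw [h1, ha]
        exact Finset.disjoint_empty_left _
      · by_cases h2 : l' = a
        · rw [h2, ha]
          exact Finset.disjoint_empty_right _
        · have := h l l' hl
          rwa [Function.update_of_ne h1, Function.update_of_ne h2] at this
    · have := h a l (Ne.symm hl)
      rwa [Function.update_self, Function.update_of_ne hl] at this
  · rintro ⟨h1, h2⟩ l l' hl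
    by_cases h3 : l = a
    · have h4 : l' ≠ a := fun h => hl (h3.trans h.symm)
      rw [h3, Function.update_self, Function.update_of_ne h4]
      exact h2 l' h4
    · by_cases h4 : l' = a
      · rw [h4, Function.update_self, Function.update_of_ne h3]
        exact (h2 l h3).symm
      · rw [Function.update_of_ne h3, Function.update_of_ne h4]
        exact h1 l l' hl

private theorem lrg_wg {J : Type} [Fintype J] (g : J → Finset (Pl K)) (a : J)
    (ha : g a = ∅) (n : Finset (Pl K)) :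
    wg (Function.update g a n) = 1 / nr n * wg g := by
  unfold wg
  rw [← Finset.mul_prod_erase Finset.univ _ (Finset.mem_univ a),
    ← Finset.mul_prod_erase Finset.univ (fun l => 1 / nr (g l)) (Finset.mem_univ a)]
  rw [Function.update_self, ha, lrg_nr_empty, div_one, one_mul]
  congr 1
  refine Finset.prod_congr rfl fun l hl => ?_
  rw [Function.update_of_ne (Finset.ne_of_mem_erase hl)]

private theorem lrg_c [NeZero p] (D : RD0 K p ζ) {J : Type} [Fintype J] (cc : J → ZMod p)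
    (g : J → Finset (Pl K)) (a : J)
    (ha : g a = ∅) (n : Finset (Pl K)) (v : Pl K) :
    lrgc D cc (Function.update g a n) v =
      lrgc D cc g v + cc a * ∑ u ∈ n, D.LL v (D.pi u) := by
  unfold lrgc
  rw [← Finset.add_sum_erase Finset.univ _ (Finset.mem_univ a),
    ← Finset.add_sum_erase Finset.univ (fun a => ∑ u ∈ g a, cc a * D.LL v (D.pi u))
      (Finset.mem_univ a)]
  rw [Function.update_self, ha, Finset.sum_empty, zero_add, Finset.mul_sum, add_comm]
  congr 1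
  refine Finset.sum_congr rfl fun l hl => ?_
  rw [Function.update_of_ne (Finset.ne_of_mem_erase hl)]

private theorem lrg_bil [NeZero p] (hp : p.Prime) (hζ : IsPrimitiveRoot ζ p) (D : RD K p ζ)
    {J : Type} [Fintype J] (cc : J → ZMod p) (hcc : ∀ a, cc a ≠ 0) (j : ZMod p) (y z : ℝ) (Z Y : Finset (Pl K))
    (hZ : Z ⊆ gdY D.toRD0 z) (hY : Y ⊆ gdY D.toRD0 z) (hYy : ∀ v ∈ Y, y < nm v)
    (g : J → Finset (Pl K)) (a : J)
    (ha : g a = ∅) (hd : Dj g) (γ : Finset (Pl K) → ℂ) (B : ℝ)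
    (hB : ∀ (α β : Finset (Pl K) → ℂ), (∀ n, ‖α n‖ ≤ 1) → (∀ n, ‖β n‖ ≤ 1) →
      ‖∑ m ∈ (gdY D.toRD0 z).powerset.filter (fun m => y < nr m),
        ∑ n ∈ (gdY D.toRD0 z).powerset.filter (fun n => y < nr n),
          if Disjoint m n then ((1 / (nr m * nr n) : ℝ) : ℂ) *
            (α m * β n * ep p ((j * cc a) * Lf D.toRD0 m (pf D.toRD0 n))) else 0‖ ≤ B)
    (hγ : ∀ n, ‖γ n‖ ≤ 1) :
    ‖∑ n ∈ Z.powerset, (if Dj (Function.update g a n) ∧ y < nr n then ((1 / nr n : ℝ) : ℂ) *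
      (γ n * Gr D.toRD0 Y (lrgI cc (Function.update g a n)) j) else 0)‖ ≤ B := by
  obtain ⟨α, hα⟩ : ∃ α : Finset (Pl K) → ℂ, α = fun m =>
      if m.card = 1 ∧ (∀ v ∈ m, v ∈ Y ∧ ∀ l, v ∉ g l) then
        ep p (j * ∑ v ∈ m, lrgc D.toRD0 cc g v) else 0 := ⟨_, rfl⟩
  obtain ⟨β, hβ⟩ : ∃ β : Finset (Pl K) → ℂ, β = fun n =>
      if n ⊆ Z ∧ ∀ l, l ≠ a → Disjoint n (g l) then γ n else 0 := ⟨_, rfl⟩
  have hα1 : ∀ n, ‖α n‖ ≤ 1 := by
    intro n
    rw [hα]
    dsimp only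
    split_ifs
    · rw [ep_norm]
    · rw [norm_zero]
      exact zero_le_one
  have hβ1 : ∀ n, ‖β n‖ ≤ 1 := by
    intro n
    rw [hβ]
    dsimp only
    split_ifs
    · exact hγ n
    · rw [norm_zero]
      exact zero_le_one
  refine le_trans (le_of_eq ?_) (hB α β hα1 hβ1)
  congr 1
  rw [Finset.sum_comm]
  obtain ⟨P, hP⟩ : ∃ P : Finset (Finset (Pl K)), P =
      (gdY D.toRD0 z).powerset.filter (fun n => y < nr n) := ⟨_, rfl⟩
  obtain ⟨P', hP'⟩ : ∃ P' : Finset (Finset (Pl K)), P' =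
      Z.powerset.filter (fun n => Dj (Function.update g a n) ∧ y < nr n) := ⟨_, rfl⟩
  have hmem' : ∀ n, n ∈ P' ↔ n ⊆ Z ∧ (∀ l, l ≠ a → Disjoint n (g l)) ∧ y < nr n := by
    intro n
    rw [hP', Finset.mem_filter, Finset.mem_powerset, lrg_dj g a ha]
    constructor
    · rintro ⟨h1, ⟨_, h2⟩, h3⟩
      exact ⟨h1, h2, h3⟩
    · rintro ⟨h1, h2, h3⟩
      exact ⟨h1, ⟨hd, h2⟩, h3⟩
  have hmemP : ∀ n, n ∈ P ↔ n ⊆ gdY D.toRD0 z ∧ y < nr n := by
    intro n
    rw [hP, Finset.mem_filter, Finset.mem_powerset]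
  have hPP : P' ⊆ P := by
    intro n hn
    rw [hmem'] at hn
    rw [hmemP]
    exact ⟨hn.1.trans hZ, hn.2.2⟩
  rw [← hP, ← Finset.sum_filter, ← hP']
  symm
  rw [← Finset.sum_subset hPP]
  · refine Finset.sum_congr rfl fun n hn => ?_
    have hn' := (hmem' n).1 hn
    have hβn : β n = γ n := by
      rw [hβ]
      dsimp only
      rw [if_pos ⟨hn'.1, hn'.2.1⟩]
    have hdn : Dj (Function.update g a n) := (lrg_dj g a ha n).2 ⟨hd, hn'.2.1⟩
    rw [lrg_Gr hp hζ D.toRD0 cc hcc _ hdn Y (fun v hv => (chr_mem.1 (hY hv)).2.1) j]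
    obtain ⟨V, hV⟩ : ∃ V : Finset (Pl K), V =
        Y.filter (fun v => ∀ l, v ∉ Function.update g a n l) := ⟨_, rfl⟩
    have hVmem : ∀ v, v ∈ V ↔ v ∈ Y ∧ v ∉ n ∧ ∀ l, v ∉ g l := by
      intro v
      rw [hV, Finset.mem_filter]
      constructor
      · rintro ⟨h1, h2⟩
        refine ⟨h1, ?_, fun l => ?_⟩
        · have := h2 a
          rwa [Function.update_self] at this
        · by_cases hl : l = a
          · rw [hl, ha]
            exact Finset.notMem_empty v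
          · have := h2 l
            rwa [Function.update_of_ne hl] at this
      · rintro ⟨h1, h2, h3⟩
        refine ⟨h1, fun l => ?_⟩
        by_cases hl : l = a
        · rw [hl, Function.update_self]
          exact h2
        · rw [Function.update_of_ne hl]
          exact h3 l
    rw [← hV]
    have hsub : V.image (fun v => ({v} : Finset (Pl K))) ⊆ P := by
      intro m hm
      obtain ⟨v, hv, rfl⟩ := Finset.mem_image.1 hm
      have hv' := (hVmem v).1 hv
      rw [hmemP]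
      refine ⟨Finset.singleton_subset_iff.2 (hY hv'.1), ?_⟩
      unfold nr
      rw [Finset.prod_singleton]
      exact hYy v hv'.1
    rw [← Finset.sum_subset hsub]
    · rw [Finset.sum_image (fun v _ v' _ h => Finset.singleton_injective h), Finset.mul_sum,
        Finset.mul_sum]
      refine Finset.sum_congr rfl fun v hv => ?_
      have hv' := (hVmem v).1 hv
      have hvS : v ∉ D.toRD0.S0 := (chr_mem.1 (hY hv'.1)).2.1
      rw [if_pos (Finset.disjoint_singleton_left.2 hv'.2.1), hβn]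
      have e1 : α {v} = ep p (j * lrgc D.toRD0 cc g v) := by
        rw [hα]
        dsimp only
        rw [if_pos, Finset.sum_singleton]
        refine ⟨Finset.card_singleton v, fun u hu => ?_⟩
        rw [Finset.mem_singleton] at hu
        rw [hu]
        exact ⟨hv'.1, hv'.2.2⟩
      have e2 : Lf D.toRD0 {v} (pf D.toRD0 n) = ∑ u ∈ n, D.toRD0.LL v (D.toRD0.pi u) := by
        rw [lf_pf hp hζ D.toRD0 (m := {v}) (fun u hu => by
          rw [Finset.mem_singleton] at hu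
          rw [hu]
          exact hvS) n, Finset.sum_singleton]
      have e3 : nr ({v} : Finset (Pl K)) = nm v := by
        unfold nr
        rw [Finset.prod_singleton]
      rw [e1, e2, e3, lrg_c D.toRD0 cc g a ha n v, mul_add, ep_add hp, ← mul_assoc j]
      push_cast
      rw [one_div, mul_inv]
      ring
    · intro m hm hm'
      by_cases hmn : Disjoint m n
      · rw [if_pos hmn]
        have h1 : α m = 0 := by
          rw [hα]
          dsimp only
          rw [if_neg]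
          rintro ⟨h2, h3⟩
          obtain ⟨v, rfl⟩ := Finset.card_eq_one.1 h2
          apply hm'
          rw [Finset.mem_image]
          refine ⟨v, (hVmem v).2 ⟨(h3 v (Finset.mem_singleton_self v)).1,
            Finset.disjoint_singleton_left.1 hmn, (h3 v (Finset.mem_singleton_self v)).2⟩, rfl⟩
        rw [h1]
        ring
      · rw [if_neg hmn]
  · intro n hn hn'
    have h1 : β n = 0 := by
      rw [hβ]
      dsimp only
      rw [if_neg]
      rintro ⟨h2, h3⟩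
      exact hn' ((hmem' n).2 ⟨h2, h3, ((hmemP n).1 hn).2⟩)
    refine Finset.sum_eq_zero fun m _ => ?_
    rw [h1]
    simp

private theorem lrg_unit (u : ℂ) : ∃ γ : ℂ, ‖γ‖ ≤ 1 ∧ γ * u = ((‖u‖ : ℝ) : ℂ) := by
  by_cases hu : u = 0
  · exact ⟨0, by simp, by simp [hu]⟩
  · have h1 : ‖u‖ ≠ 0 := norm_ne_zero_iff.2 hu
    have h1' : ((‖u‖ : ℝ) : ℂ) ≠ 0 := by exact_mod_cast h1
    refine ⟨(starRingEnd ℂ) u / ((‖u‖ : ℝ) : ℂ), ?_, ?_⟩
    · rw [norm_div, RCLike.norm_conj, Complex.norm_real, norm_norm, div_self h1]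
    · have h2 : (starRingEnd ℂ) u * u = ((‖u‖ : ℝ) : ℂ) * ((‖u‖ : ℝ) : ℂ) := by
        rw [mul_comm, Complex.mul_conj, Complex.normSq_eq_norm_sq]
        push_cast
        ring
      rw [div_mul_eq_mul_div, h2, mul_div_assoc, div_self h1', mul_one]

private theorem lrg_two [NeZero p] (hp : p.Prime) (hζ : IsPrimitiveRoot ζ p) (D : RD K p ζ)
    {J : Type} [Fintype J] (cc : J → ZMod p) (hcc : ∀ a, cc a ≠ 0) (j : ZMod p) (y z : ℝ) (Z Y : Finset (Pl K))
    (hZ : Z ⊆ gdY D.toRD0 z) (hY : Y ⊆ gdY D.toRD0 z) (hYy : ∀ v ∈ Y, y < nm v)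
    (a : J) (B : ℝ) (hB0 : 0 ≤ B)
    (hB : ∀ (α β : Finset (Pl K) → ℂ), (∀ n, ‖α n‖ ≤ 1) → (∀ n, ‖β n‖ ≤ 1) →
      ‖∑ m ∈ (gdY D.toRD0 z).powerset.filter (fun m => y < nr m),
        ∑ n ∈ (gdY D.toRD0 z).powerset.filter (fun n => y < nr n),
          if Disjoint m n then ((1 / (nr m * nr n) : ℝ) : ℂ) *
            (α m * β n * ep p ((j * cc a) * Lf D.toRD0 m (pf D.toRD0 n))) else 0‖ ≤ B) :
    ∑ g ∈ lrgP J Z,
      (if Dj g ∧ y < nr (g a) then wg g * ‖Gr D.toRD0 Y (lrgI cc g) j‖ else 0) ≤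
      B * Real.exp (Li Z) ^ Fintype.card (J) := by
  have hγ := fun g : J → Finset (Pl K) =>
    lrg_unit (Gr D.toRD0 Y (lrgI cc g) j)
  choose γ hγ1 hγ2 using hγ
  have h1 : ((∑ g ∈ lrgP J Z,
      (if Dj g ∧ y < nr (g a) then wg g * ‖Gr D.toRD0 Y (lrgI cc g) j‖ else 0) : ℝ) : ℂ) =
      ∑ g ∈ lrgP J Z,
        (if Dj g ∧ y < nr (g a) then ((wg g : ℝ) : ℂ) *
          (γ g * Gr D.toRD0 Y (lrgI cc g) j) else 0) := by
    rw [Complex.ofReal_sum]
    refine Finset.sum_congr rfl fun g _ => ?_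
    by_cases hc : Dj g ∧ y < nr (g a)
    · rw [if_pos hc, if_pos hc, hγ2, Complex.ofReal_mul]
    · rw [if_neg hc, if_neg hc, Complex.ofReal_zero]
  refine (le_abs_self _).trans ?_
  rw [← Real.norm_eq_abs, ← Complex.norm_real, h1]
  unfold lrgP
  rw [upd1 a (fun _ => Z.powerset) ∅]
  have h2 : ∀ g ∈ Fintype.piFinset (fun l : J =>
      if l = a then ({∅} : Finset (Finset (Pl K))) else Z.powerset),
      ‖∑ n ∈ Z.powerset, (if Dj (Function.update g a n) ∧ y < nr (Function.update g a n a) then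
        ((wg (Function.update g a n) : ℝ) : ℂ) *
          (γ (Function.update g a n) * Gr D.toRD0 Y (lrgI cc (Function.update g a n)) j) else 0)‖ ≤
      wg g * B := by
    intro g hg
    have ha : g a = ∅ := by
      have := Fintype.mem_piFinset.1 hg a
      rwa [if_pos rfl, Finset.mem_singleton] at this
    by_cases hd : Dj g
    · have h3 := lrg_bil hp hζ D cc hcc j y z Z Y hZ hY hYy g a ha hd
        (fun n => γ (Function.update g a n)) B hB (fun n => hγ1 _)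
      have h4 : ∑ n ∈ Z.powerset, (if Dj (Function.update g a n) ∧
          y < nr (Function.update g a n a) then
          ((wg (Function.update g a n) : ℝ) : ℂ) *
          (γ (Function.update g a n) * Gr D.toRD0 Y (lrgI cc (Function.update g a n)) j) else 0) =
          ((wg g : ℝ) : ℂ) * ∑ n ∈ Z.powerset, (if Dj (Function.update g a n) ∧ y < nr n then
            ((1 / nr n : ℝ) : ℂ) * (γ (Function.update g a n) *
              Gr D.toRD0 Y (lrgI cc (Function.update g a n)) j) else 0) := by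
        rw [Finset.mul_sum]
        refine Finset.sum_congr rfl fun n _ => ?_
        rw [Function.update_self]
        by_cases hc : Dj (Function.update g a n) ∧ y < nr n
        · rw [if_pos hc, if_pos hc, lrg_wg g a ha n, Complex.ofReal_mul]
          ring
        · rw [if_neg hc, if_neg hc, mul_zero]
      rw [h4, norm_mul, Complex.norm_real, Real.norm_of_nonneg (lrg_wg_nonneg g)]
      exact mul_le_mul_of_nonneg_left h3 (lrg_wg_nonneg g)
    · rw [Finset.sum_eq_zero]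
      · rw [norm_zero]
        exact mul_nonneg (lrg_wg_nonneg g) hB0
      · intro n _
        rw [if_neg]
        rintro ⟨h3, _⟩
        exact hd ((lrg_dj g a ha n).1 h3).1
  refine (norm_sum_le _ _).trans ((Finset.sum_le_sum h2).trans ?_)
  rw [← Finset.sum_mul, mul_comm B]
  refine mul_le_mul_of_nonneg_right ?_ hB0
  have h3 := upd_prod (fun l : J =>
      if l = a then ({∅} : Finset (Finset (Pl K))) else Z.powerset)
      (fun _ n => 1 / nr n)
  have h4 : ∑ g ∈ Fintype.piFinset (fun l : J =>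
      if l = a then ({∅} : Finset (Finset (Pl K))) else Z.powerset), wg g =
      ∏ l : J, ∑ n ∈ (if l = a then ({∅} : Finset (Finset (Pl K)))
        else Z.powerset), 1 / nr n := by
    rw [← h3]
    rfl
  rw [h4]
  have h5 : ∀ l ∈ (Finset.univ : Finset (J)),
      ∑ n ∈ (if l = a then ({∅} : Finset (Finset (Pl K))) else Z.powerset), 1 / nr n ≤
      Real.exp (Li Z) := by
    intro l _
    by_cases hl : l = a
    · rw [if_pos hl, Finset.sum_singleton, lrg_nr_empty, div_one]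
      exact Real.one_le_exp (Li_nonneg Z)
    · rw [if_neg hl]
      exact sm_full Z
  refine (Finset.prod_le_prod (fun l _ => Finset.sum_nonneg fun n _ => ?_) h5).trans ?_
  · have := lrg_nr_pos n
    positivity
  · rw [Finset.prod_const, Finset.card_univ]

private theorem lrg_one [NeZero p] (D : RD0 K p ζ) {J : Type} [Fintype J] (cc : J → ZMod p) (j : ZMod p) (y G Q : ℝ)
    (Z Y : Finset (Pl K)) (hG : Li Y ≤ G)
    (hQ : ∑ n ∈ Z.powerset.filter (fun n => nr n ≤ y), 1 / nr n ≤ Q) :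
    ∑ g ∈ lrgP J Z,
      (if Dj g ∧ ∀ a, nr (g a) ≤ y then wg g * ‖Gr D Y (lrgI cc g) j‖ else 0) ≤
      G * Q ^ Fintype.card (J) := by
  have hG0 : 0 ≤ G := (Li_nonneg Y).trans hG
  have h1 : ∀ i : Pl K →₀ ZMod p, ‖Gr D Y i j‖ ≤ G := by
    intro i
    refine le_trans ?_ hG
    unfold Gr Li
    refine (norm_sum_le _ _).trans ?_
    have h2 : ∀ v ∈ Y \ i.support, ‖ep p (j * D.LL v (xx D i)) / (nm v : ℂ)‖ ≤ 1 / (nm v : ℝ) := by
      intro v _
      rw [norm_div, ep_norm, Complex.norm_natCast]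
    refine (Finset.sum_le_sum h2).trans ?_
    exact Finset.sum_le_sum_of_subset_of_nonneg Finset.sdiff_subset fun v _ _ => by positivity
  have h2 : ∀ g ∈ lrgP J Z,
      (if Dj g ∧ ∀ a, nr (g a) ≤ y then wg g * ‖Gr D Y (lrgI cc g) j‖ else 0) ≤
      (if ∀ a, nr (g a) ≤ y then wg g * G else 0) := by
    intro g _
    by_cases hc : Dj g ∧ ∀ a, nr (g a) ≤ y
    · rw [if_pos hc, if_pos hc.2]
      exact mul_le_mul_of_nonneg_left (h1 _) (lrg_wg_nonneg g)
    · rw [if_neg hc]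
      split_ifs
      · exact mul_nonneg (lrg_wg_nonneg g) hG0
      · exact le_rfl
  refine (Finset.sum_le_sum h2).trans ?_
  rw [← Finset.sum_filter]
  have h3 : (lrgP J Z).filter
      (fun g => ∀ a, nr (g a) ≤ y) =
      Fintype.piFinset (fun _ : J =>
        Z.powerset.filter (fun n => nr n ≤ y)) := by
    ext g
    unfold lrgP
    rw [Finset.mem_filter, Fintype.mem_piFinset, Fintype.mem_piFinset]
    constructor
    · rintro ⟨h4, h5⟩ a
      exact Finset.mem_filter.2 ⟨h4 a, h5 a⟩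
    · intro h4
      exact ⟨fun a => (Finset.mem_filter.1 (h4 a)).1, fun a => (Finset.mem_filter.1 (h4 a)).2⟩
  rw [h3, ← Finset.sum_mul, mul_comm]
  refine mul_le_mul_of_nonneg_left ?_ hG0
  have h4 := upd_prod (fun _ : J =>
      Z.powerset.filter (fun n => nr n ≤ y)) (fun _ n => 1 / nr n)
  have h5 : ∑ g ∈ Fintype.piFinset (fun _ : J =>
      Z.powerset.filter (fun n => nr n ≤ y)), wg g =
      ∏ _l : J,
        ∑ n ∈ Z.powerset.filter (fun n => nr n ≤ y), 1 / nr n := by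
    rw [← h4]
    rfl
  rw [h5, Finset.prod_const, Finset.card_univ]
  refine pow_le_pow_left₀ (Finset.sum_nonneg fun n _ => ?_) hQ _
  have := lrg_nr_pos n
  positivity

private theorem lrg_split [NeZero p] (D : RD0 K p ζ) {J : Type} [Fintype J] (cc : J → ZMod p) (j : ZMod p) (y : ℝ)
    (Z Y : Finset (Pl K)) :
    ∑ g ∈ lrgP J Z,
      (if Dj g then wg g * ‖Gr D Y (lrgI cc g) j‖ else 0) ≤
    ∑ g ∈ lrgP J Z,
      (if Dj g ∧ ∀ a, nr (g a) ≤ y then wg g * ‖Gr D Y (lrgI cc g) j‖ else 0) +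
    ∑ a, ∑ g ∈ lrgP J Z,
      (if Dj g ∧ y < nr (g a) then wg g * ‖Gr D Y (lrgI cc g) j‖ else 0) := by
  rw [Finset.sum_comm (s := (Finset.univ : Finset (J))),
    ← Finset.sum_add_distrib]
  refine Finset.sum_le_sum fun g _ => ?_
  have hnn : 0 ≤ wg g * ‖Gr D Y (lrgI cc g) j‖ := mul_nonneg (lrg_wg_nonneg g) (norm_nonneg _)
  have hn1 : ∀ a : J,
      0 ≤ (if Dj g ∧ y < nr (g a) then wg g * ‖Gr D Y (lrgI cc g) j‖ else 0) := by
    intro a
    split_ifs
    · exact hnn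
    · exact le_rfl
  have hn2 : 0 ≤ (if Dj g ∧ ∀ a, nr (g a) ≤ y then wg g * ‖Gr D Y (lrgI cc g) j‖ else 0) := by
    split_ifs
    · exact hnn
    · exact le_rfl
  by_cases hd : Dj g
  · rw [if_pos hd]
    by_cases hall : ∀ a, nr (g a) ≤ y
    · rw [if_pos ⟨hd, hall⟩]
      exact le_add_of_nonneg_right (Finset.sum_nonneg fun a _ => hn1 a)
    · push Not at hall
      obtain ⟨a, ha⟩ := hall
      have h1 := Finset.single_le_sum (f := fun a =>
        (if Dj g ∧ y < nr (g a) then wg g * ‖Gr D Y (lrgI cc g) j‖ else 0)) (fun a _ => hn1 a)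
        (Finset.mem_univ a)
      have h2 : (if Dj g ∧ y < nr (g a) then wg g * ‖Gr D Y (lrgI cc g) j‖ else 0) =
        wg g * ‖Gr D Y (lrgI cc g) j‖ := if_pos ⟨hd, ha⟩
      rw [h2] at h1
      linarith
  · rw [if_neg hd]
    exact add_nonneg hn2 (Finset.sum_nonneg fun a _ => hn1 a)

private theorem lrg_ev (C₀ C₁ A κ τ : ℝ) (N : ℕ) (hκ : 0 < κ) (hτ : 0 < τ) (hA : 0 < A)
    (C₂ e : ℝ) :
    ∃ z₀ : ℝ, ∀ z : ℝ, z₀ ≤ z → 3 ≤ z ∧ 3 ≤ Real.log z ^ A ∧
      (Real.log (Real.log z) + C₀) * (C₁ * (A * Real.log (Real.log z))) ^ N ≤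
        κ / 2 * Real.log z ^ τ ∧
      C₂ * (1 + Real.log z ^ e / z) ≤ κ / 2 * Real.log z ^ τ := by
  have hl := Real.tendsto_log_atTop
  have hll : Filter.Tendsto (fun z : ℝ => Real.log (Real.log z)) Filter.atTop Filter.atTop :=
    hl.comp hl
  have e1 : ∀ᶠ z : ℝ in Filter.atTop, 3 ≤ z := Filter.eventually_ge_atTop 3
  have e2 : ∀ᶠ z : ℝ in Filter.atTop, 3 ≤ Real.log z ^ A :=
    ((tendsto_rpow_atTop hA).comp hl).eventually_ge_atTop 3
  have e3 : ∀ᶠ z : ℝ in Filter.atTop, 1 ≤ Real.log z := hl.eventually_ge_atTop 1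
  have e4 : ∀ᶠ z : ℝ in Filter.atTop, |C₀| ≤ Real.log (Real.log z) := hll.eventually_ge_atTop _
  have e4' : ∀ᶠ z : ℝ in Filter.atTop, 1 ≤ Real.log (Real.log z) := hll.eventually_ge_atTop _
  have hM : (0 : ℝ) < κ / 2 / (2 * (|C₁| * A + 1) ^ N) := by positivity
  have e5 := hl.eventually ((isLittleO_log_rpow_rpow_atTop ((N + 1 : ℕ) : ℝ) hτ).bound hM)
  have e6 : ∀ᶠ z : ℝ in Filter.atTop, 2 * |C₂| / (κ / 2) ≤ Real.log z ^ τ :=
    ((tendsto_rpow_atTop hτ).comp hl).eventually_ge_atTop _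
  have e7 := (isLittleO_log_rpow_rpow_atTop e one_pos).bound one_pos
  obtain ⟨z₀, hz₀⟩ := Filter.eventually_atTop.1
    (e1.and (e2.and (e3.and (e4.and (e4'.and (e5.and (e6.and e7)))))))
  refine ⟨z₀, fun z hz => ?_⟩
  obtain ⟨f1, f2, f3, f4, f4', f5, f6, f7⟩ := hz₀ z hz
  have hlog0 : 0 < Real.log z := by linarith
  have hll0 : 0 ≤ Real.log (Real.log z) := by linarith
  refine ⟨f1, f2, ?_, ?_⟩
  · rw [Real.rpow_natCast, Real.norm_of_nonneg (by positivity),
      Real.norm_of_nonneg (Real.rpow_nonneg hlog0.le _)] at f5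
    have g1 : |(Real.log (Real.log z) + C₀)| ≤ 2 * Real.log (Real.log z) := by
      rw [abs_le]
      constructor
      · linarith [neg_abs_le C₀]
      · linarith [le_abs_self C₀]
    have g2 : |C₁ * (A * Real.log (Real.log z))| ≤ (|C₁| * A + 1) * Real.log (Real.log z) := by
      rw [abs_mul, abs_mul, abs_of_pos hA, abs_of_nonneg hll0]
      nlinarith [abs_nonneg C₁]
    calc (Real.log (Real.log z) + C₀) * (C₁ * (A * Real.log (Real.log z))) ^ N
        ≤ |(Real.log (Real.log z) + C₀) * (C₁ * (A * Real.log (Real.log z))) ^ N| := le_abs_self _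
      _ = |(Real.log (Real.log z) + C₀)| * |C₁ * (A * Real.log (Real.log z))| ^ N := by
          rw [abs_mul, abs_pow]
      _ ≤ (2 * Real.log (Real.log z)) * ((|C₁| * A + 1) * Real.log (Real.log z)) ^ N := by
          gcongr
      _ = 2 * (|C₁| * A + 1) ^ N * Real.log (Real.log z) ^ (N + 1) := by
          rw [mul_pow, pow_succ]
          ring
      _ ≤ 2 * (|C₁| * A + 1) ^ N * (κ / 2 / (2 * (|C₁| * A + 1) ^ N) * Real.log z ^ τ) := by
          gcongr
      _ = κ / 2 * Real.log z ^ τ := by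
          have : (2 * (|C₁| * A + 1) ^ N) ≠ 0 := by positivity
          field_simp
  · have hz0 : 0 < z := by linarith
    rw [Real.norm_of_nonneg (Real.rpow_nonneg hlog0.le _),
      Real.norm_of_nonneg (Real.rpow_nonneg hz0.le _), Real.rpow_one, one_mul] at f7
    have g1 : Real.log z ^ e / z ≤ 1 := by
      rw [div_le_one hz0]
      exact f7
    have g0 : 0 ≤ Real.log z ^ e / z := div_nonneg (Real.rpow_nonneg hlog0.le _) hz0.le
    have g2 : C₂ * (1 + Real.log z ^ e / z) ≤ |C₂| * 2 := by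
      calc C₂ * (1 + Real.log z ^ e / z) ≤ |C₂| * (1 + Real.log z ^ e / z) :=
            mul_le_mul_of_nonneg_right (le_abs_self _) (by linarith)
        _ ≤ |C₂| * 2 := mul_le_mul_of_nonneg_left (by linarith) (abs_nonneg _)
    rw [div_le_iff₀ (by positivity)] at f6
    linarith

theorem lrg [NeZero p] (hp : p.Prime) (hζ : IsPrimitiveRoot ζ p) (D : RD K p ζ)
    (𝒦 : Submodule (ZMod p) (Fin D.r → ZMod p)) (w : ℝ) (c τ : ℝ) (hc : 0 < c) (hτ : 0 < τ)
    (hlow : ∀ z : ℝ, 3 ≤ z → c * Real.log z ^ τ ≤ Real.exp (LY D.toRD0 𝒦 w z)) (h : ℕ)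
    (hh : 1 ≤ h) :
    ∃ A z₀ : ℝ, 0 < A ∧ ∀ z : ℝ, z₀ ≤ z → ∀ j : ZMod p, j ≠ 0 →
      ∑ i ∈ XF p (ZY D.toRD0 𝒦 w z), Wt h i *
          ‖Gr D.toRD0 (ZY D.toRD0 ⊥ (Real.log z ^ A) z) i j‖ ≤
        ∑ i ∈ XF p (ZY D.toRD0 𝒦 w z), Wt h i := by
  have : Fact p.Prime := ⟨hp⟩
  obtain ⟨C, A₁, δ, hC, hA₁, hδ, hb⟩ := blog hp hζ D
  obtain ⟨C₀, hC₀, hG⟩ := lg_up D.toRD0
  obtain ⟨C₁, hC₁, hN⟩ := sm_nr D.toRD0
  obtain ⟨C₂, hC₂, hU⟩ := sm_up D.toRD0
  obtain ⟨c', hc', hM⟩ := ms_low K p h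
  obtain ⟨N, hNN⟩ : ∃ N : ℕ, N = Fintype.card ({c : ZMod p // c ≠ 0} × Fin h) := ⟨_, rfl⟩
  obtain ⟨A, hA⟩ : ∃ A : ℝ, A = (A₁ + N + 1) / δ := ⟨_, rfl⟩
  have hA0 : 0 < A := by rw [hA]; positivity
  have hAδ : A * δ = A₁ + N + 1 := by
    rw [hA]
    field_simp
  obtain ⟨z₀, hz₀⟩ := lrg_ev C₀ C₁ A (c' * c) τ N (by positivity) hτ hA0
    (N * (C * C₂ ^ N)) (A₁ + N)
  refine ⟨A, z₀, hA0, fun z hz j hj => ?_⟩
  obtain ⟨f1, f2, f3, f4⟩ := hz₀ z hz
  have hlog1 : 1 ≤ Real.log z := by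
    rw [Real.le_log_iff_exp_le (by linarith)]
    linarith [Real.exp_one_lt_d9]
  have hlog0 : 0 < Real.log z := by linarith
  obtain ⟨y, hy⟩ : ∃ y : ℝ, y = Real.log z ^ A := ⟨_, rfl⟩
  rw [← hy] at f2 ⊢
  have hlogy : Real.log y = A * Real.log (Real.log z) := by
    rw [hy, Real.log_rpow hlog0]
  obtain ⟨Z, hZd⟩ : ∃ Z : Finset (Pl K), Z = ZY D.toRD0 𝒦 w z := ⟨_, rfl⟩
  obtain ⟨Y, hYd⟩ : ∃ Y : Finset (Pl K), Y = ZY D.toRD0 ⊥ y z := ⟨_, rfl⟩
  have hZ : Z ⊆ gdY D.toRD0 z := by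
    rw [hZd]
    intro v hv
    exact chr_mem.2 ⟨(mem_ZY.1 hv).1, (mem_ZY.1 hv).2.1⟩
  have hY : Y ⊆ gdY D.toRD0 z := by
    rw [hYd]
    intro v hv
    exact chr_mem.2 ⟨(mem_ZY.1 hv).1, (mem_ZY.1 hv).2.1⟩
  have hYy : ∀ v ∈ Y, y < nm v := by
    intro v hv
    rw [hYd] at hv
    exact (mem_ZY.1 hv).2.2.1
  rw [← hZd, ← hYd, lrg_fam]
  obtain ⟨cc, hccd⟩ : ∃ cc : {c : ZMod p // c ≠ 0} × Fin h → ZMod p, cc = fun a => (a.1 : ZMod p) := ⟨_, rfl⟩
  have hcc : ∀ a, cc a ≠ 0 := by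
    intro a
    rw [hccd]
    exact a.1.2
  rw [← hccd]
  refine (lrg_split D.toRD0 cc j y Z Y).trans ?_
  -- the bounds
  have hone := lrg_one D.toRD0 cc j y (Real.log (Real.log z) + C₀) (C₁ * Real.log y) Z Y
    ((Li_mono hY).trans (hG z f1)) (hN Z y f2 (fun v hv => (chr_mem.1 (hZ hv)).2))
  rw [← hNN, hlogy] at hone
  obtain ⟨B, hB⟩ : ∃ B : ℝ, B = C * Real.log z ^ A₁ * (y ^ (-δ) + 1 / z) := ⟨_, rfl⟩
  have hy0 : 0 < y := by linarith
  have hz0 : 0 < z := by linarith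
  have hB0 : 0 ≤ B := by
    rw [hB]
    positivity
  have htwo : ∀ a : {c : ZMod p // c ≠ 0} × Fin h,
      ∑ g ∈ lrgP ({c : ZMod p // c ≠ 0} × Fin h) Z,
        (if Dj g ∧ y < nr (g a) then wg g * ‖Gr D.toRD0 Y (lrgI cc g) j‖ else 0) ≤
        B * Real.exp (Li Z) ^ N := by
    intro a
    rw [hNN]
    refine lrg_two hp hζ D cc hcc j y z Z Y hZ hY hYy a B hB0 (fun α β hα hβ => ?_)
    rw [hB]
    exact hb (j * cc a) (mul_ne_zero hj (hcc a)) α β hα hβ y z (by linarith) f1 _ (Finset.Subset.refl _)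
  have hsum2 : ∑ a : {c : ZMod p // c ≠ 0} × Fin h,
      ∑ g ∈ lrgP ({c : ZMod p // c ≠ 0} × Fin h) Z,
        (if Dj g ∧ y < nr (g a) then wg g * ‖Gr D.toRD0 Y (lrgI cc g) j‖ else 0) ≤
        N * (B * Real.exp (Li Z) ^ N) := by
    refine (Finset.sum_le_sum fun a _ => htwo a).trans ?_
    rw [Finset.sum_const, Finset.card_univ, ← hNN, nsmul_eq_mul]
  have hexpLi : Real.exp (Li Z) ≤ C₂ * Real.log z := by
    have := hU 𝒦 w z f1
    unfold LY at this
    rwa [← hZd] at this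
  have hBN : B * Real.exp (Li Z) ^ N ≤ C * C₂ ^ N * (1 + Real.log z ^ (A₁ + N) / z) := by
    have h1 : Real.exp (Li Z) ^ N ≤ (C₂ * Real.log z) ^ N :=
      pow_le_pow_left₀ (Real.exp_pos _).le hexpLi N
    have h2 : y ^ (-δ) = Real.log z ^ (-(A₁ + N + 1)) := by
      rw [hy, ← Real.rpow_mul hlog0.le]
      congr 1
      linarith
    have h3 : Real.log z ^ A₁ * Real.log z ^ N = Real.log z ^ (A₁ + N) := by
      rw [Real.rpow_add hlog0, Real.rpow_natCast]
    have h4 : Real.log z ^ (A₁ + N) * Real.log z ^ (-(A₁ + N + 1)) ≤ 1 := by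
      rw [← Real.rpow_add hlog0]
      refine Real.rpow_le_one_of_one_le_of_nonpos hlog1 ?_
      linarith
    calc B * Real.exp (Li Z) ^ N ≤ B * (C₂ * Real.log z) ^ N := mul_le_mul_of_nonneg_left h1 hB0
      _ = C * C₂ ^ N * (Real.log z ^ (A₁ + N) * Real.log z ^ (-(A₁ + N + 1)) +
            Real.log z ^ (A₁ + N) / z) := by
          rw [hB, h2, mul_pow, ← h3]
          ring
      _ ≤ _ := by
          refine mul_le_mul_of_nonneg_left ?_ (by positivity)
          linarith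
  have hMT : c' * c * Real.log z ^ τ ≤ ∑ i ∈ XF p Z, Wt h i := by
    refine le_trans ?_ (hM Z)
    have h1 := hlow z f1
    unfold LY at h1
    rw [← hZd] at h1
    have h2 : Li Z ≤ ((p : ℝ) - 1) * h * Li Z := by
      have h3 : (2 : ℝ) ≤ p := by exact_mod_cast hp.two_le
      have h4 : (1 : ℝ) ≤ h := by exact_mod_cast hh
      have h5 : (1 : ℝ) ≤ ((p : ℝ) - 1) * h := by nlinarith
      have h6 := Li_nonneg Z
      nlinarith
    rw [mul_assoc]
    exact mul_le_mul_of_nonneg_left (h1.trans (Real.exp_le_exp.2 h2)) hc'.le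
  have h7 : (N : ℝ) * (B * Real.exp (Li Z) ^ N) ≤
      N * (C * C₂ ^ N) * (1 + Real.log z ^ (A₁ + N) / z) := by
    rw [mul_assoc]
    exact mul_le_mul_of_nonneg_left hBN (Nat.cast_nonneg N)
  linarith

end H83.LW
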