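import Pool.Agent.H83.LW.SMT
import Pool.Agent.H83.LW.LRG

/-!
# [H83 LW SPLM] the character sums are bounded for most classes (40-70 lines)

`A` from `lrg`, `y = (log z)^A`; for large `z`: `w ≤ y ≤ z`, so `ZY D ⊥ w z` is the disjoint union of `ZY D ⊥ w y` and `ZY D ⊥ y z`, and
`Gr (ZY ⊥ w z) i j = Gr (ZY ⊥ w y) i j + Gr (ZY ⊥ y z) i j`. If `B < ‖Gr‖` then one of the two summands has norm `> B/2`. For given `j`
(`Markov`): the mass of the first case is `≤ (4 / B²) C MT` (`smt`), of the second `≤ (2 / B) MT` (`lrg`). Sum over the `j`: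
`p (4 C / B² + 2 / B) ≤ ε` for `B` large.
-/

set_option autoImplicit false

open scoped NumberField
open IsDedekindDomain
open scoped Classical

noncomputable section

namespace H83.LW

open H63.MA H38.BB

variable {K : Type} [Field K] [NumberField K] {p : ℕ} {ζ : K}

private theorem splm_split (D : RD0 K p ζ) (w y z : ℝ) (hwy : w ≤ y) (hyz : y ≤ z)
    (i : Pl K →₀ ZMod p) (j : ZMod p) :
    Gr D (ZY D ⊥ w z) i j = Gr D (ZY D ⊥ w y) i j + Gr D (ZY D ⊥ y z) i j := by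
  unfold Gr
  have h1 : ZY D ⊥ w z \ i.support = (ZY D ⊥ w y \ i.support) ∪ (ZY D ⊥ y z \ i.support) := by
    ext v
    rw [Finset.mem_union, Finset.mem_sdiff, Finset.mem_sdiff, Finset.mem_sdiff, mem_ZY, mem_ZY,
      mem_ZY]
    constructor
    · rintro ⟨⟨h2, h3, h4, h5⟩, h6⟩
      rcases le_or_gt (nm v : ℝ) y with h7 | h7
      · exact Or.inl ⟨⟨h7, h3, h4, h5⟩, h6⟩
      · exact Or.inr ⟨⟨h2, h3, h7, h5⟩, h6⟩
    · rintro (⟨⟨h2, h3, h4, h5⟩, h6⟩ | ⟨⟨h2, h3, h4, h5⟩, h6⟩)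
      · exact ⟨⟨h2.trans hyz, h3, h4, h5⟩, h6⟩
      · exact ⟨⟨h2, h3, lt_of_le_of_lt hwy h4, h5⟩, h6⟩
  rw [h1, Finset.sum_union]
  rw [Finset.disjoint_left]
  intro v hv hv'
  have h2 := (mem_ZY.1 (Finset.mem_sdiff.1 hv).1).1
  have h3 := (mem_ZY.1 (Finset.mem_sdiff.1 hv').1).2.2.1
  linarith

private theorem splm_markov {ι : Type} (S : Finset ι) (wt f g : ι → ℝ) (hw : ∀ i, 0 ≤ wt i)
    (hg : ∀ i, 0 ≤ g i) (B M C : ℝ) (hB : 1 ≤ B)
    (h1 : ∑ i ∈ S, wt i * f i ^ 2 ≤ C * M) (h2 : ∑ i ∈ S, wt i * g i ≤ M) :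
    ∑ i ∈ S.filter (fun i => B < f i + g i), wt i ≤ (4 * C + 2) / B * M := by
  have hB0 : 0 < B := by linarith
  have h3 : ∀ i ∈ S.filter (fun i => B < f i + g i), wt i ≤
      4 / B ^ 2 * (wt i * f i ^ 2) + 2 / B * (wt i * g i) := by
    intro i hi
    have hi' := (Finset.mem_filter.1 hi).2
    have h4 : 1 ≤ 4 / B ^ 2 * f i ^ 2 + 2 / B * g i := by
      rcases le_or_gt (f i) (B / 2) with h5 | h5
      · have h6 : B / 2 ≤ g i := by linarith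
        have h7 : 2 / B * (B / 2) ≤ 2 / B * g i := mul_le_mul_of_nonneg_left h6 (by positivity)
        have h8 : 2 / B * (B / 2) = 1 := by field_simp
        have h9 : 0 ≤ 4 / B ^ 2 * f i ^ 2 := by positivity
        linarith
      · have h6 : (B / 2) ^ 2 ≤ f i ^ 2 := pow_le_pow_left₀ (by positivity) h5.le 2
        have h7 : 4 / B ^ 2 * (B / 2) ^ 2 ≤ 4 / B ^ 2 * f i ^ 2 :=
          mul_le_mul_of_nonneg_left h6 (by positivity)
        have h8 : 4 / B ^ 2 * (B / 2) ^ 2 = 1 := by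
          field_simp
          norm_num
        have h9 : 0 ≤ 2 / B * g i := mul_nonneg (by positivity) (hg i)
        linarith
    have h5 := mul_le_mul_of_nonneg_left h4 (hw i)
    nlinarith
  refine (Finset.sum_le_sum h3).trans ?_
  have hnn : ∀ i, 0 ≤ 4 / B ^ 2 * (wt i * f i ^ 2) + 2 / B * (wt i * g i) := fun i => by
    have := hw i
    have := hg i
    positivity
  refine (Finset.sum_le_sum_of_subset_of_nonneg (Finset.filter_subset _ _)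
    fun i _ _ => hnn i).trans ?_
  rw [Finset.sum_add_distrib, ← Finset.mul_sum, ← Finset.mul_sum]
  have h4 := mul_le_mul_of_nonneg_left h1 (show (0 : ℝ) ≤ 4 / B ^ 2 by positivity)
  have h5 := mul_le_mul_of_nonneg_left h2 (show (0 : ℝ) ≤ 2 / B by positivity)
  have hCM : 0 ≤ C * M := le_trans (Finset.sum_nonneg fun i _ => by
    have := hw i
    positivity) h1
  have h6 : 4 / B ^ 2 ≤ 4 / B := by
    rw [div_le_div_iff₀ (by positivity) hB0]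
    nlinarith
  have h7 := mul_le_mul_of_nonneg_right h6 hCM
  have h8 : (4 * C + 2) / B * M = 4 / B * (C * M) + 2 / B * M := by ring
  rw [h8]
  linarith

private theorem splm_bi {ι κ : Type} [DecidableEq κ] (s : Finset ι) (t : ι → Finset κ) (f : κ → ℝ)
    (hf : ∀ x, 0 ≤ f x) : ∑ x ∈ s.biUnion t, f x ≤ ∑ a ∈ s, ∑ x ∈ t a, f x := by
  induction s using Finset.induction_on with
  | empty => simp
  | insert a s ha ih =>
    rw [Finset.biUnion_insert, Finset.sum_insert ha]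
    have h1 := Finset.sum_union_inter (s₁ := t a) (s₂ := s.biUnion t) (f := f)
    have h2 : 0 ≤ ∑ x ∈ t a ∩ s.biUnion t, f x := Finset.sum_nonneg fun x _ => hf x
    linarith

private theorem splm_ev (A w : ℝ) (hA : 0 < A) :
    ∃ z₀ : ℝ, ∀ z : ℝ, z₀ ≤ z → w ≤ Real.log z ^ A ∧ Real.log z ^ A ≤ z := by
  have hl := Real.tendsto_log_atTop
  have e0 : ∀ᶠ z : ℝ in Filter.atTop, 1 ≤ z := Filter.eventually_ge_atTop 1
  have e1 : ∀ᶠ z : ℝ in Filter.atTop, w ≤ Real.log z ^ A :=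
    ((tendsto_rpow_atTop hA).comp hl).eventually_ge_atTop w
  have e3 : ∀ᶠ z : ℝ in Filter.atTop, 1 ≤ Real.log z := hl.eventually_ge_atTop 1
  have e2 := (isLittleO_log_rpow_rpow_atTop A one_pos).bound one_pos
  obtain ⟨z₀, hz₀⟩ := Filter.eventually_atTop.1 (e0.and (e1.and (e3.and e2)))
  refine ⟨z₀, fun z hz => ?_⟩
  obtain ⟨f0, f1, f3, f2⟩ := hz₀ z hz
  refine ⟨f1, ?_⟩
  rwa [Real.norm_of_nonneg (Real.rpow_nonneg (by linarith) _),
    Real.norm_of_nonneg (Real.rpow_nonneg (by linarith) _), Real.rpow_one, one_mul] at f2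

theorem splm [NeZero p] (hp : p.Prime) (hζ : IsPrimitiveRoot ζ p) (D : RD K p ζ)
    (𝒦 : Submodule (ZMod p) (Fin D.r → ZMod p)) (w : ℝ) (c τ : ℝ) (hc : 0 < c) (hτ : 0 < τ)
    (hlow : ∀ z : ℝ, 3 ≤ z → c * Real.log z ^ τ ≤ Real.exp (LY D.toRD0 𝒦 w z)) (h : ℕ)
    (hh : 1 ≤ h) (ε : ℝ) (hε : 0 < ε) :
    ∃ B z₀ : ℝ, 0 < B ∧ ∀ z : ℝ, z₀ ≤ z →
      ∑ i ∈ (XF p (ZY D.toRD0 𝒦 w z)).filter (fun i => ∃ j : ZMod p, j ≠ 0 ∧
          B < ‖Gr D.toRD0 (ZY D.toRD0 ⊥ w z) i j‖), Wt h i ≤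
        ε * ∑ i ∈ XF p (ZY D.toRD0 𝒦 w z), Wt h i := by
  obtain ⟨A, z₁, hA, h1⟩ := lrg hp hζ D 𝒦 w c τ hc hτ hlow h hh
  obtain ⟨C, z₂, hC, h2⟩ := smt hp hζ D 𝒦 w c τ hc hτ hlow h hh A hA
  obtain ⟨z₃, h3⟩ := splm_ev A w hA
  have hp0 : (0 : ℝ) < p := by exact_mod_cast hp.pos
  obtain ⟨B, hB⟩ : ∃ B : ℝ, B = max 1 (p * (4 * C + 2) / ε) := ⟨_, rfl⟩
  have hB1 : 1 ≤ B := by
    rw [hB]
    exact le_max_left _ _
  have hB2 : p * (4 * C + 2) / ε ≤ B := by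
    rw [hB]
    exact le_max_right _ _
  have hB0 : 0 < B := by linarith
  refine ⟨B, max z₁ (max z₂ z₃), hB0, fun z hz => ?_⟩
  have hz1 : z₁ ≤ z := (le_max_left _ _).trans hz
  have hz2 : z₂ ≤ z := ((le_max_left _ _).trans (le_max_right _ _)).trans hz
  have hz3 : z₃ ≤ z := ((le_max_right _ _).trans (le_max_right _ _)).trans hz
  obtain ⟨g1, g2⟩ := h3 z hz3
  obtain ⟨y, hy⟩ : ∃ y : ℝ, y = Real.log z ^ A := ⟨_, rfl⟩
  obtain ⟨Z, hZd⟩ : ∃ Z : Finset (Pl K), Z = ZY D.toRD0 𝒦 w z := ⟨_, rfl⟩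
  obtain ⟨MT, hMT⟩ : ∃ MT : ℝ, MT = ∑ i ∈ XF p Z, Wt h i := ⟨_, rfl⟩
  have hMT0 : 0 ≤ MT := by
    rw [hMT]
    exact Finset.sum_nonneg fun i _ => Wt_nonneg h i
  have k1 : ∀ j : ZMod p, j ≠ 0 → ∑ i ∈ XF p Z, Wt h i *
      ‖Gr D.toRD0 (ZY D.toRD0 ⊥ y z) i j‖ ≤ MT := by
    intro j hj
    rw [hMT, hZd, hy]
    exact h1 z hz1 j hj
  have k2 : ∀ j : ZMod p, j ≠ 0 → ∑ i ∈ XF p Z, Wt h i *
      ‖Gr D.toRD0 (ZY D.toRD0 ⊥ w y) i j‖ ^ 2 ≤ C * MT := by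
    intro j hj
    rw [hMT, hZd, hy]
    exact h2 z hz2 j hj
  rw [← hy] at g1 g2
  rw [← hZd, ← hMT]
  have hsub : (XF p Z).filter (fun i => ∃ j : ZMod p, j ≠ 0 ∧
      B < ‖Gr D.toRD0 (ZY D.toRD0 ⊥ w z) i j‖) ⊆
      (Finset.univ.filter (fun j : ZMod p => j ≠ 0)).biUnion (fun j =>
        (XF p Z).filter (fun i => B < ‖Gr D.toRD0 (ZY D.toRD0 ⊥ w y) i j‖ +
          ‖Gr D.toRD0 (ZY D.toRD0 ⊥ y z) i j‖)) := by
    intro i hi
    obtain ⟨h4, j, hj, h5⟩ := Finset.mem_filter.1 hi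
    rw [Finset.mem_biUnion]
    refine ⟨j, Finset.mem_filter.2 ⟨Finset.mem_univ _, hj⟩, Finset.mem_filter.2 ⟨h4, ?_⟩⟩
    refine lt_of_lt_of_le h5 ?_
    rw [splm_split D.toRD0 w y z g1 g2 i j]
    exact norm_add_le _ _
  have hcard : ((Finset.univ.filter (fun j : ZMod p => j ≠ 0)).card : ℝ) ≤ p := by
    have h2 : (Finset.univ.filter (fun j : ZMod p => j ≠ 0)).card ≤ Fintype.card (ZMod p) :=
      Finset.card_le_univ _
    rw [ZMod.card] at h2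
    exact_mod_cast h2
  refine (Finset.sum_le_sum_of_subset_of_nonneg hsub fun i _ _ => Wt_nonneg h i).trans ?_
  refine (splm_bi _ _ (fun i : Pl K →₀ ZMod p => Wt h i) (fun i => Wt_nonneg h i)).trans ?_
  have hm : ∀ j ∈ Finset.univ.filter (fun j : ZMod p => j ≠ 0),
      ∑ i ∈ (XF p Z).filter (fun i => B < ‖Gr D.toRD0 (ZY D.toRD0 ⊥ w y) i j‖ +
          ‖Gr D.toRD0 (ZY D.toRD0 ⊥ y z) i j‖), Wt h i ≤ (4 * C + 2) / B * MT := by
    intro j hj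
    have hj0 := (Finset.mem_filter.1 hj).2
    exact splm_markov (XF p Z) (fun i => Wt h i)
      (fun i => ‖Gr D.toRD0 (ZY D.toRD0 ⊥ w y) i j‖)
      (fun i => ‖Gr D.toRD0 (ZY D.toRD0 ⊥ y z) i j‖) (fun i => Wt_nonneg h i)
      (fun i => norm_nonneg _) B MT C hB1 (k2 j hj0) (k1 j hj0)
  refine (Finset.sum_le_sum hm).trans ?_
  rw [Finset.sum_const, nsmul_eq_mul]
  have h6 : 0 ≤ (4 * C + 2) / B * MT := by positivity
  refine (mul_le_mul_of_nonneg_right hcard h6).trans ?_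
  rw [← mul_assoc]
  refine mul_le_mul_of_nonneg_right ?_ hMT0
  rw [← mul_div_assoc, div_le_iff₀ hB0]
  rw [div_le_iff₀ hε] at hB2
  linarith

end H83.LW
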