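import Pool.Agent.H83.LW.GOODM
import Pool.Agent.H83.LW.SPLM
import Pool.Agent.H83.LW.SIZE

/-!
# [H83 LW GXM] the mass of the good classes (assembly, 120-180 lines)

`h = p ϖ = h₀ p^e`, `Z = ZY D 𝒦 w z`, `MT = ∑_{XF Z} Wt h`, `M0 = ∑_{XC Z} Wt h`, `MT ≤ p^r M0` (`ms_cls`, `h ≤ w < nm v` on `Z`), `L = LY D ⊥ w z`,
`λ = LY D 𝒦 w z`. `K₁ = K₂ = 16 (p - 1) h p^r` (`> 0`). `hlow_of` gives `c, τ`.
The `i ∈ XC Z` which are not in the set of the theorem satisfy one of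
(1) `#Rl ≠ p` (this includes `i = 0`: `Rl D 0 = {0}`, as `XF p ∅ = {0}`, `1 ≠ p`): mass `≤ M0 / 8` (`goodm`);
(2) `B < ‖Gr‖` for some `j ≠ 0`: mass `≤ ε' MT ≤ M0 / 8` for `ε' = 1 / (8 p^r)` (`splm`);
(3) `#supp > t = 13/10 (p - 1) h₀ L`: `ly_up` and `hcard`: `L ≥ p^e λ - C`, so `t ≥ 13/10 (p - 1) h λ - C'`, and by `size_n` the mass is
`≤ C'' exp((3/2 - 13/10 log (3/2)) (p - 1) h λ) ≤ C'' exp(98/100 (p - 1) h λ)` since `log (3/2) ≥ 2/5` (`le_log_three_half` in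
`H38/TD/AnaMass`), which is `≤ M0 / 16` for large `z` as `M0 ≥ p^(-r) MT ≥ c' exp((p - 1) h λ)` (`ms_low`) and `λ → ∞`;
(4) `∑_{supp} log nm > Λ`: `size_c`: mass `≤ ((p - 1) h ∑_Z log nm / nm) / Λ MT ≤ ((p - 1) h / K₁) p^r M0 = M0 / 16` (`Λ > 0`: if `Z = ∅` then
the set is empty and `Λ ≥ 0`; in general `ZY D ⊥ w z` is nonempty for large `z` and `Λ ≥ K₁ ∑ > 0`; `Z ⊆ ZY D ⊥ w z`);
(5) `Li supp > ε`: `size_c` with `c v = 1 / nm v`, `t = ε`: mass `≤ ((p - 1) h ∑_Z 1 / nm²) / ε MT ≤ ((p - 1) h / K₂) MT ≤ M0 / 16`, by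
the hypothesis `K₂ ∑ ≤ min ε 1 ≤ ε`.
Sum: `≤ (1/8 + 1/8 + 1/16 + 1/16 + 1/16) M0 ≤ M0 / 2`. So the mass of the set is `≥ M0 / 2 ≥ c'' exp((p - 1) h λ) ≥ c''' exp((p - 1) h₀ L)`, since
`h λ = h₀ p^e λ ≥ h₀ (L - C)` (`ly_low`).
-/

set_option autoImplicit false

open scoped NumberField
open IsDedekindDomain
open scoped Classical

noncomputable section

namespace H83.LW

open H63.MA H38.BB

variable {K : Type} [Field K] [NumberField K] {p : ℕ} {ζ : K}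

/-- the good classes -/
def GX [NeZero p] (D : RD0 K p ζ) (𝒦 : Submodule (ZMod p) (Fin D.r → ZMod p)) (h₀ : ℕ)
    (w z B Λ ε : ℝ) : Finset (Pl K →₀ ZMod p) :=
  (XC D (ZY D 𝒦 w z)).filter fun i => i ≠ 0 ∧ (Rl D i).card = p ∧
    (∀ j : ZMod p, j ≠ 0 → ‖Gr D (ZY D ⊥ w z) i j‖ ≤ B) ∧
    (i.support.card : ℝ) ≤ 13 / 10 * ((p : ℝ) - 1) * h₀ * LY D ⊥ w z ∧
    ∑ v ∈ i.support, Real.log (nm v) ≤ Λ ∧ Li i.support ≤ ε

private theorem gxm_log : (2 / 5 : ℝ) ≤ Real.log (3 / 2) := by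
  rw [Real.le_log_iff_exp_le (by norm_num)]
  have h := Real.exp_one_lt_d9
  have h1 : Real.exp (2 / 5) ^ 5 = Real.exp 1 ^ 2 := by
    rw [← Real.exp_nat_mul, ← Real.exp_nat_mul]
    norm_num
  by_contra hcon
  rw [not_le] at hcon
  have h2 : (3 / 2 : ℝ) ^ 5 < Real.exp (2 / 5) ^ 5 :=
    pow_lt_pow_left₀ hcon (by norm_num) (by norm_num)
  have h3 : Real.exp 1 ^ 2 ≤ (2.7182818286 : ℝ) ^ 2 :=
    pow_le_pow_left₀ (Real.exp_pos _).le h.le 2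
  rw [h1] at h2
  have h4 := h2.trans_le h3
  norm_num at h4

private theorem gxm_union {ι : Type} [DecidableEq ι] (A B : Finset ι) (f : ι → ℝ) (hf : ∀ i, 0 ≤ f i) :
    ∑ i ∈ A ∪ B, f i ≤ ∑ i ∈ A, f i + ∑ i ∈ B, f i := by
  rw [← Finset.sum_union_inter]
  exact le_add_of_nonneg_right (Finset.sum_nonneg fun i _ => hf i)

private theorem gxm_sub (D : RD0 K p ζ) (𝒦 : Submodule (ZMod p) (Fin D.r → ZMod p)) (w z : ℝ) :
    ZY D 𝒦 w z ⊆ ZY D ⊥ w z := by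
  intro v hv
  rw [mem_ZY] at hv ⊢
  refine ⟨hv.1, hv.2.1, hv.2.2.1, fun κ hκ => ?_⟩
  rw [(Submodule.mem_bot (ZMod p)).1 hκ]
  unfold dt
  refine Finset.sum_eq_zero fun k _ => ?_
  rw [Pi.zero_apply, zero_mul]

private theorem gxm_zero [NeZero p] (hp : p.Prime) (D : RD0 K p ζ) : (Rl D 0).card ≠ p := by
  have h1 : (Rl D 0).card ≤ 1 := by
    refine (Finset.card_le_card (Finset.filter_subset _ _)).trans ?_
    refine Finset.card_le_one.2 fun k hk k' hk' => ?_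
    rw [mem_XF, Finsupp.support_zero, Finset.subset_empty] at hk hk'
    rw [Finsupp.support_eq_empty.1 hk, Finsupp.support_eq_empty.1 hk']
  have h2 := hp.two_le
  omega

theorem gxm [NeZero p] (hp : p.Prime) (hp2 : MOne p K) (hζ : IsPrimitiveRoot ζ p)
    (D : RD K p ζ) {e : ℕ} {d : Fin e → Kˣ} {𝒦 : Submodule (ZMod p) (Fin D.r → ZMod p)}
    (hK : DK D.toRD0 e d 𝒦) (hcard : Nat.card 𝒦 = p ^ e) {U : Type} [CommGroup U] [Fintype U]
    (F : U → Kˣ) (hU : UR D.toRD0 U F) (hUc : 32 * p ^ e ≤ Fintype.card U) (ϖ h₀ : ℕ)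
    (hϖ : 1 ≤ ϖ) (hh : p * ϖ = h₀ * p ^ e) :
    ∃ K₁ K₂ : ℝ, 0 < K₁ ∧ 0 < K₂ ∧ ∀ ε : ℝ, 0 < ε → ∀ w : ℝ, ((p * ϖ : ℕ) : ℝ) ≤ w →
      (∀ z : ℝ, K₂ * ∑ v ∈ ZY D.toRD0 ⊥ w z, 1 / (nm v : ℝ) ^ 2 ≤ min ε 1) →
      ∃ c B z₀ : ℝ, 0 < c ∧ 0 < B ∧ ∀ z : ℝ, z₀ ≤ z → ∀ Λ : ℝ,
        K₁ * ∑ v ∈ ZY D.toRD0 ⊥ w z, Real.log (nm v) / nm v ≤ Λ →
        c * Real.exp (((p : ℝ) - 1) * h₀ * LY D.toRD0 ⊥ w z) ≤
          ∑ i ∈ GX D.toRD0 𝒦 h₀ w z B Λ ε, Wt (p * ϖ) i := by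
  have hp2r : (2 : ℝ) ≤ p := by exact_mod_cast hp.two_le
  have hϖr : (1 : ℝ) ≤ ϖ := by exact_mod_cast hϖ
  obtain ⟨H, hH⟩ : ∃ H : ℝ, H = ((p * ϖ : ℕ) : ℝ) := ⟨_, rfl⟩
  have hH1 : 1 ≤ H := by
    rw [hH]
    push_cast
    exact one_le_mul_of_one_le_of_one_le (by linarith) hϖr
  have hHh : H = h₀ * (p : ℝ) ^ e := by
    rw [hH, hh]
    push_cast
    ring
  obtain ⟨P, hP⟩ : ∃ P : ℝ, P = (p : ℝ) ^ D.r := ⟨_, rfl⟩
  have hP1 : 1 ≤ P := by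
    rw [hP]
    exact one_le_pow₀ (by linarith)
  obtain ⟨q, hq⟩ : ∃ q : ℝ, q = (p : ℝ) - 1 := ⟨_, rfl⟩
  have hq1 : 1 ≤ q := by linarith
  have hpϖ1 : 1 ≤ p * ϖ := Nat.mul_pos hp.pos hϖ
  refine ⟨16 * q * H * P, 16 * q * H * P, by positivity, by positivity, fun ε hε w hw hsq => ?_⟩
  obtain ⟨c₁, τ, hc₁, hτ, hlow⟩ := hlow_of hp hp2 hζ D.toRD0 hK w
  obtain ⟨c₂, hc₂, hml⟩ := ms_low K p (p * ϖ)
  obtain ⟨z₁, hz₁⟩ := goodm hp hp2 hζ D hK F hU hUc ϖ hϖ w hw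
  obtain ⟨B, z₂, hB, hz₂⟩ := splm hp hζ D 𝒦 w c₁ τ hc₁ hτ hlow (p * ϖ) hpϖ1 (1 / (8 * P))
    (by positivity)
  obtain ⟨C₃, hC₃, hup⟩ := ly_up hp hζ D 𝒦 w
  obtain ⟨C₅, hC₅, hlo⟩ := ly_low hp hp2 hζ D.toRD0 hK w
  obtain ⟨C₄, hC₄⟩ : ∃ C₄ : ℝ, C₄ = 13 / 10 * q * h₀ * C₃ * Real.log (3 / 2) := ⟨_, rfl⟩
  obtain ⟨T, hT⟩ : ∃ T : ℝ, T = 50 * Real.log (16 * P * Real.exp C₄ / c₂) := ⟨_, rfl⟩
  have ht : Filter.Tendsto (fun z : ℝ => c₁ * Real.log z ^ τ) Filter.atTop Filter.atTop :=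
    ((tendsto_rpow_atTop hτ).comp Real.tendsto_log_atTop).const_mul_atTop hc₁
  obtain ⟨z₃, hz₃⟩ := Filter.eventually_atTop.1 (ht.eventually_ge_atTop (Real.exp T))
  refine ⟨c₂ / P * Real.exp (-(q * h₀ * C₅)) / 2, B, max (max z₁ z₂) (max z₃ 3), by positivity, hB,
    fun z hz Λ hΛ => ?_⟩
  have hzz₁ : z₁ ≤ z := ((le_max_left _ _).trans (le_max_left _ _)).trans hz
  have hzz₂ : z₂ ≤ z := ((le_max_right _ _).trans (le_max_left _ _)).trans hz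
  have hzz₃ : z₃ ≤ z := ((le_max_left _ _).trans (le_max_right _ _)).trans hz
  have hz3 : 3 ≤ z := ((le_max_right _ _).trans (le_max_right _ _)).trans hz
  have g1 := hz₁ z hzz₁
  have g2 := hz₂ z hzz₂
  have g3 : Real.exp T ≤ c₁ * Real.log z ^ τ := hz₃ z hzz₃
  have g4 := hlow z hz3
  have g5 := hup z hz3
  have g6 := hlo z hz3
  have g7 := hsq z
  obtain ⟨Z, hZ⟩ : ∃ Z, Z = ZY D.toRD0 𝒦 w z := ⟨_, rfl⟩
  obtain ⟨Z', hZ'⟩ : ∃ Z', Z' = ZY D.toRD0 ⊥ w z := ⟨_, rfl⟩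
  obtain ⟨lam, hlam⟩ : ∃ lam, lam = LY D.toRD0 𝒦 w z := ⟨_, rfl⟩
  obtain ⟨L, hL⟩ : ∃ L, L = LY D.toRD0 ⊥ w z := ⟨_, rfl⟩
  have hZZ' : Z ⊆ Z' := by
    rw [hZ, hZ']
    exact gxm_sub D.toRD0 𝒦 w z
  have hLiZ : Li Z = lam := by
    rw [hZ, hlam]
    rfl
  have hlam0 : 0 ≤ lam := by
    rw [← hLiZ]
    exact Li_nonneg _
  have hTlam : T ≤ lam := by
    rw [hlam]
    exact Real.exp_le_exp.1 (g3.trans g4)
  have hcls := ms_cls hp D.toRD0 (p * ϖ) Z (fun v hv => by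
    rw [hZ] at hv
    exact hw.trans (mem_ZY.1 hv).2.2.1.le)
  have hml' := hml Z
  rw [← hH, hLiZ, ← hq] at hml'
  rw [hcard, ← hlam, ← hL] at g5
  rw [← hlam, ← hL] at g6
  rw [← hZ'] at g7 hΛ
  rw [← hZ] at g1 g2
  rw [← hP] at hcls
  rw [← hL, ← hq]
  unfold GX
  rw [← hZ, ← hL, ← hq, ← hZ']
  rw [← hZ'] at g2
  obtain ⟨MT, hMT⟩ : ∃ MT, MT = ∑ i ∈ XF p Z, Wt (p * ϖ) i := ⟨_, rfl⟩
  obtain ⟨M, hM⟩ : ∃ M, M = ∑ i ∈ XC D.toRD0 Z, Wt (p * ϖ) i := ⟨_, rfl⟩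
  rw [← hMT] at hcls hml' g2
  rw [← hM] at hcls g1
  have hMT0 : 0 ≤ MT := by
    rw [hMT]
    exact Finset.sum_nonneg fun i _ => Wt_nonneg _ i
  have hM0 : 0 ≤ M := by
    rw [hM]
    exact Finset.sum_nonneg fun i _ => Wt_nonneg _ i
  have hP0 : 0 < P := by linarith
  have hMTM : MT / P ≤ M := by
    rw [div_le_iff₀ hP0, mul_comm]
    exact hcls
  have hqH : 1 ≤ q * H := one_le_mul_of_one_le_of_one_le hq1 hH1
  -- the number of primes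
  have g3' : ∑ i ∈ (XF p Z).filter (fun i => 13 / 10 * q * h₀ * L < (i.support.card : ℝ)),
      Wt (p * ϖ) i ≤ 1 / 16 * M := by
    have s1 := size_n hp (p * ϖ) Z (13 / 10 * q * h₀ * L)
    rw [← hH, ← hq, hLiZ] at s1
    refine s1.trans ?_
    have s2 : -(13 / 10 * q * h₀ * L * Real.log (3 / 2)) + 3 / 2 * (q * H) * lam ≤
        C₄ + 49 / 50 * (q * H * lam) := by
      have s3 : q * h₀ * ((p : ℝ) ^ e * lam) ≤ q * h₀ * (L + C₃) := by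
        refine mul_le_mul_of_nonneg_left ?_ (by positivity)
        push_cast at g5
        exact g5
      have s4 : q * H * lam = q * h₀ * ((p : ℝ) ^ e * lam) := by
        rw [hHh]
        ring
      have hlg := gxm_log
      have s5 : 13 / 10 * (q * H * lam) * Real.log (3 / 2) ≤
          13 / 10 * (q * h₀ * (L + C₃)) * Real.log (3 / 2) := by
        refine mul_le_mul_of_nonneg_right ?_ (by linarith)
        rw [s4]
        linarith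
      have s6 : 13 / 10 * (q * H * lam) * (2 / 5) ≤ 13 / 10 * (q * H * lam) * Real.log (3 / 2) :=
        mul_le_mul_of_nonneg_left hlg (by positivity)
      rw [hC₄]
      nlinarith
    refine (Real.exp_le_exp.2 s2).trans ?_
    have s7 : 16 * P * Real.exp C₄ / c₂ ≤ Real.exp (1 / 50 * (q * H * lam)) := by
      have s8 : 0 < 16 * P * Real.exp C₄ / c₂ := by positivity
      rw [← Real.log_le_iff_le_exp s8]
      have s9 : lam ≤ q * H * lam := le_mul_of_one_le_left hlam0 hqH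
      linarith
    have s10 : Real.exp (C₄ + 49 / 50 * (q * H * lam)) * (16 * P) ≤
        c₂ * Real.exp (q * H * lam) := by
      have s11 : Real.exp (q * H * lam) =
          Real.exp (49 / 50 * (q * H * lam)) * Real.exp (1 / 50 * (q * H * lam)) := by
        rw [← Real.exp_add]
        congr 1
        ring
      rw [div_le_iff₀ hc₂] at s7
      rw [s11, Real.exp_add]
      have s12 := mul_le_mul_of_nonneg_left s7 (Real.exp_pos (49 / 50 * (q * H * lam))).le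
      linarith
    have s13 : Real.exp (C₄ + 49 / 50 * (q * H * lam)) ≤ MT / (16 * P) := by
      rw [le_div_iff₀ (by positivity)]
      exact s10.trans hml'
    have s14 : MT / (16 * P) = 1 / 16 * (MT / P) := by
      field_simp
    rw [s14] at s13
    linarith
  -- the size
  have g4' : ∑ i ∈ (XF p Z).filter (fun i => Λ < ∑ v ∈ i.support, Real.log (nm v)),
      Wt (p * ϖ) i ≤ 1 / 16 * M := by
    have hlogp : ∀ v : Pl K, 0 < Real.log (nm v) := fun v => by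
      have := one_lt_nm v
      exact Real.log_pos (by exact_mod_cast this)
    have hnm0 : ∀ v : Pl K, (0 : ℝ) < nm v := fun v => by
      have := one_lt_nm v
      exact_mod_cast (by omega : 0 < nm v)
    have hpos : ∀ v ∈ Z', 0 ≤ Real.log (nm v) / (nm v : ℝ) := fun v _ =>
      (div_pos (hlogp v) (hnm0 v)).le
    have t0 : 0 ≤ ∑ v ∈ Z', Real.log (nm v) / (nm v : ℝ) := Finset.sum_nonneg hpos
    have t1 : ∑ v ∈ Z, Real.log (nm v) / (nm v : ℝ) ≤ ∑ v ∈ Z', Real.log (nm v) / (nm v : ℝ) :=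
      Finset.sum_le_sum_of_subset_of_nonneg hZZ' fun v hv _ => hpos v hv
    have t2 : 0 ≤ Λ := le_trans (by positivity) hΛ
    rcases t2.eq_or_lt with hΛ0 | hΛ0
    · have t3 : (XF p Z).filter (fun i => Λ < ∑ v ∈ i.support, Real.log (nm v)) = ∅ := by
        refine Finset.filter_eq_empty_iff.2 fun i hi h => ?_
        have t4 : i.support = ∅ := by
          refine Finset.eq_empty_of_forall_notMem fun v hv => ?_
          have t5 : v ∈ Z' := hZZ' (mem_XF.1 hi hv)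
          have t6 := Finset.single_le_sum (f := fun v => Real.log (nm v) / (nm v : ℝ)) hpos t5
          have t7 := div_pos (hlogp v) (hnm0 v)
          have t8 : 0 < 16 * q * H * P := by positivity
          have t9 : 0 < ∑ v ∈ Z', Real.log (nm v) / (nm v : ℝ) := lt_of_lt_of_le t7 t6
          have t10 := mul_pos t8 t9
          linarith
        rw [t4, Finset.sum_empty] at h
        linarith
      rw [t3, Finset.sum_empty]
      linarith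
    · have t3 := size_c hp (p * ϖ) Z (fun v => Real.log (nm v)) (fun v _ => (hlogp v).le) Λ hΛ0
      rw [← hH, ← hq, ← hMT] at t3
      refine t3.trans ?_
      have t4 : q * H * ∑ v ∈ Z, Real.log (nm v) / (nm v : ℝ) / 1 ≤ Λ / (16 * P) := by
        rw [le_div_iff₀ (by positivity)]
        have t5 : q * H * (16 * P) * ∑ v ∈ Z, Real.log (nm v) / (nm v : ℝ) ≤
            q * H * (16 * P) * ∑ v ∈ Z', Real.log (nm v) / (nm v : ℝ) :=
          mul_le_mul_of_nonneg_left t1 (by positivity)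
        simp only [div_one]
        linarith
      simp only [div_one] at t4
      have t6 : q * H * (∑ v ∈ Z, Real.log (nm v) / (nm v : ℝ)) / Λ ≤ 1 / (16 * P) := by
        rw [div_le_iff₀ hΛ0]
        refine t4.trans (le_of_eq ?_)
        ring
      refine (mul_le_mul_of_nonneg_right t6 hMT0).trans ?_
      have t7 : 1 / (16 * P) * MT = 1 / 16 * (MT / P) := by
        field_simp
      rw [t7]
      linarith
  have g5' : ∑ i ∈ (XF p Z).filter (fun i => ε < ∑ v ∈ i.support, 1 / (nm v : ℝ)),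
      Wt (p * ϖ) i ≤ 1 / 16 * M := by
    have t3 := size_c hp (p * ϖ) Z (fun v => 1 / (nm v : ℝ)) (fun v _ => by positivity) ε hε
    rw [← hH, ← hq, ← hMT] at t3
    refine t3.trans ?_
    have t1 : ∑ v ∈ Z, 1 / (nm v : ℝ) / (nm v : ℝ) ≤ ∑ v ∈ Z', 1 / (nm v : ℝ) ^ 2 := by
      have e1 : ∑ v ∈ Z, 1 / (nm v : ℝ) / (nm v : ℝ) = ∑ v ∈ Z, 1 / (nm v : ℝ) ^ 2 :=
        Finset.sum_congr rfl fun v _ => by
          rw [div_div, pow_two]
      rw [e1]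
      exact Finset.sum_le_sum_of_subset_of_nonneg hZZ' fun v _ _ => by positivity
    have t4 : q * H * ∑ v ∈ Z, 1 / (nm v : ℝ) / (nm v : ℝ) ≤ ε / (16 * P) := by
      rw [le_div_iff₀ (by positivity)]
      have t5 : q * H * (16 * P) * ∑ v ∈ Z, 1 / (nm v : ℝ) / (nm v : ℝ) ≤
          q * H * (16 * P) * ∑ v ∈ Z', 1 / (nm v : ℝ) ^ 2 :=
        mul_le_mul_of_nonneg_left t1 (by positivity)
      have t6 : 16 * q * H * P * ∑ v ∈ Z', 1 / (nm v : ℝ) ^ 2 ≤ ε := g7.trans (min_le_left _ _)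
      linarith
    have t6 : q * H * (∑ v ∈ Z, 1 / (nm v : ℝ) / (nm v : ℝ)) / ε ≤ 1 / (16 * P) := by
      rw [div_le_iff₀ hε]
      refine t4.trans (le_of_eq ?_)
      ring
    refine (mul_le_mul_of_nonneg_right t6 hMT0).trans ?_
    have t7 : 1 / (16 * P) * MT = 1 / 16 * (MT / P) := by
      field_simp
    rw [t7]
    linarith
  have g2' : ∑ i ∈ (XF p Z).filter (fun i => ∃ j : ZMod p, j ≠ 0 ∧
      B < ‖Gr D.toRD0 Z' i j‖), Wt (p * ϖ) i ≤ 1 / 8 * M := by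
    refine g2.trans ?_
    have t7 : 1 / (8 * P) * MT = 1 / 8 * (MT / P) := by
      field_simp
    rw [t7]
    linarith
  -- the sum
  obtain ⟨G, hG⟩ : ∃ G, G = (XC D.toRD0 Z).filter fun i => i ≠ 0 ∧ (Rl D.toRD0 i).card = p ∧
    (∀ j : ZMod p, j ≠ 0 → ‖Gr D.toRD0 Z' i j‖ ≤ B) ∧
    (i.support.card : ℝ) ≤ 13 / 10 * q * h₀ * L ∧
    ∑ v ∈ i.support, Real.log (nm v) ≤ Λ ∧ Li i.support ≤ ε := ⟨_, rfl⟩
  rw [← hG]
  have hcov : XC D.toRD0 Z ⊆ G ∪ ((XC D.toRD0 Z).filter (fun i => (Rl D.toRD0 i).card ≠ p) ∪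
      ((XF p Z).filter (fun i => ∃ j : ZMod p, j ≠ 0 ∧ B < ‖Gr D.toRD0 Z' i j‖) ∪
      ((XF p Z).filter (fun i => 13 / 10 * q * h₀ * L < (i.support.card : ℝ)) ∪
      ((XF p Z).filter (fun i => Λ < ∑ v ∈ i.support, Real.log (nm v)) ∪
      (XF p Z).filter (fun i => ε < ∑ v ∈ i.support, 1 / (nm v : ℝ)))))) := by
    intro i hi
    have hiF : i ∈ XF p Z := (Finset.mem_filter.1 hi).1
    rw [Finset.mem_union, Finset.mem_union, Finset.mem_union, Finset.mem_union, Finset.mem_union,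
      hG, Finset.mem_filter, Finset.mem_filter, Finset.mem_filter, Finset.mem_filter,
      Finset.mem_filter, Finset.mem_filter]
    by_cases a1 : (Rl D.toRD0 i).card = p
    · by_cases a2 : ∃ j : ZMod p, j ≠ 0 ∧ B < ‖Gr D.toRD0 Z' i j‖
      · exact Or.inr (Or.inr (Or.inl ⟨hiF, a2⟩))
      · by_cases a3 : 13 / 10 * q * h₀ * L < (i.support.card : ℝ)
        · exact Or.inr (Or.inr (Or.inr (Or.inl ⟨hiF, a3⟩)))
        · by_cases a4 : Λ < ∑ v ∈ i.support, Real.log (nm v)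
          · exact Or.inr (Or.inr (Or.inr (Or.inr (Or.inl ⟨hiF, a4⟩))))
          · by_cases a5 : ε < ∑ v ∈ i.support, 1 / (nm v : ℝ)
            · exact Or.inr (Or.inr (Or.inr (Or.inr (Or.inr ⟨hiF, a5⟩))))
            · refine Or.inl ⟨hi, fun h0 => ?_, a1, fun j hj => ?_, not_lt.1 a3, not_lt.1 a4,
                not_lt.1 a5⟩
              · rw [h0] at a1
                exact gxm_zero hp D.toRD0 a1
              · by_contra hcon
                exact a2 ⟨j, hj, not_le.1 hcon⟩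
    · exact Or.inr (Or.inl ⟨hi, a1⟩)
  have hW := Wt_nonneg (K := K) (p := p) (p * ϖ)
  obtain ⟨A1, hA1⟩ : ∃ A1, A1 = (XC D.toRD0 Z).filter (fun i => (Rl D.toRD0 i).card ≠ p) :=
    ⟨_, rfl⟩
  obtain ⟨A2, hA2⟩ : ∃ A2, A2 = (XF p Z).filter (fun i => ∃ j : ZMod p, j ≠ 0 ∧
    B < ‖Gr D.toRD0 Z' i j‖) := ⟨_, rfl⟩
  obtain ⟨A3, hA3⟩ : ∃ A3, A3 = (XF p Z).filter (fun i =>
    13 / 10 * q * h₀ * L < (i.support.card : ℝ)) := ⟨_, rfl⟩
  obtain ⟨A4, hA4⟩ : ∃ A4, A4 = (XF p Z).filter (fun i =>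
    Λ < ∑ v ∈ i.support, Real.log (nm v)) := ⟨_, rfl⟩
  obtain ⟨A5, hA5⟩ : ∃ A5, A5 = (XF p Z).filter (fun i =>
    ε < ∑ v ∈ i.support, 1 / (nm v : ℝ)) := ⟨_, rfl⟩
  rw [← hA1, ← hA2, ← hA3, ← hA4, ← hA5] at hcov
  rw [← hA1] at g1
  rw [← hA2] at g2'
  rw [← hA3] at g3'
  rw [← hA4] at g4'
  rw [← hA5] at g5'
  have u0 : M ≤ ∑ i ∈ G ∪ (A1 ∪ (A2 ∪ (A3 ∪ (A4 ∪ A5)))), Wt (p * ϖ) i := by
    rw [hM]
    exact Finset.sum_le_sum_of_subset_of_nonneg hcov fun i _ _ => hW i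
  have u1 := gxm_union G (A1 ∪ (A2 ∪ (A3 ∪ (A4 ∪ A5)))) (Wt (p * ϖ)) hW
  have u2 := gxm_union A1 (A2 ∪ (A3 ∪ (A4 ∪ A5))) (Wt (p * ϖ)) hW
  have u3 := gxm_union A2 (A3 ∪ (A4 ∪ A5)) (Wt (p * ϖ)) hW
  have u4 := gxm_union A3 (A4 ∪ A5) (Wt (p * ϖ)) hW
  have u5 := gxm_union A4 A5 (Wt (p * ϖ)) hW
  have u6 : M / 2 ≤ ∑ i ∈ G, Wt (p * ϖ) i := by linarith
  refine le_trans ?_ u6
  have w1 : q * h₀ * L ≤ q * H * lam + q * h₀ * C₅ := by
    have w2 : q * h₀ * L ≤ q * h₀ * ((p : ℝ) ^ e * lam + C₅) :=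
      mul_le_mul_of_nonneg_left g6 (by positivity)
    rw [hHh]
    linarith
  have w3 : Real.exp (-(q * h₀ * C₅)) * Real.exp (q * h₀ * L) ≤ Real.exp (q * H * lam) := by
    rw [← Real.exp_add]
    exact Real.exp_le_exp.2 (by linarith)
  have w4 : c₂ * Real.exp (q * H * lam) / P ≤ M := by
    refine le_trans ?_ hMTM
    exact div_le_div_of_nonneg_right hml' hP0.le
  have w5 : c₂ / P * (Real.exp (-(q * h₀ * C₅)) * Real.exp (q * h₀ * L)) ≤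
      c₂ / P * Real.exp (q * H * lam) := mul_le_mul_of_nonneg_left w3 (by positivity)
  have w6 : c₂ / P * Real.exp (q * H * lam) = c₂ * Real.exp (q * H * lam) / P := by ring
  rw [w6] at w5
  have w7 : c₂ / P * Real.exp (-(q * h₀ * C₅)) / 2 * Real.exp (q * h₀ * L) =
      c₂ / P * (Real.exp (-(q * h₀ * C₅)) * Real.exp (q * h₀ * L)) / 2 := by ring
  rw [w7]
  linarith

end H83.LW
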