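import Pool.Agent.H83.LW.BLKA
import Pool.Agent.H83.LW.BLKB
import Pool.Agent.H83.LW.BLKC

/-!
# [H83 LW LM] the main terms: maximal unlinked sets (assembly, 120-200 lines)

`Z = ZY D 𝒦 w z`, `λ = LY D 𝒦 w z = Li Z`, `E₀ = exp(M λ)`. Let `C_A, A, δ` be the constants of `blka`, `A₀ = (A + 1) / δ`, `y = (log z)^A₀` (so
`y ≥ 3` for large `z`), `η = τ / (4 (A₀ + 1))`, so `y^η ≤ (log z)^(τ/4)`. `log y = A₀ log log z`.
For `S, S' ⊆ J` put `T(S, S') = FS (fun g => Lgs y g = S ∧ spg g = S')`, `T(S) = FS (fun g => Lgs y g = S)`, and for `S ∈ 𝓜`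
`T'(S) = FS (fun g => ∀ a ∉ S, g a = ∅)`. Finite sums: `FS True = ∑_S T(S)`, `T(S) = ∑_{S'} T(S, S')`, and `T(S, S') = 0` unless
`S ⊆ S'` (`y < nr (g a)` implies `g a ≠ ∅`, as `nr ∅ = 1`).
(1) `S ∉ 𝓜`, `S` contains a linked pair: `blka`: `‖T(S)‖ ≤ C_A (log z)^A ((log z)^(-A-1) + 1/z) ≤ 2 C_A / log z` (for large `z`), which tends
to `0`, while `E₀ ≥ 1`.
(2) `S ∉ 𝓜`, `S` unlinked: `#S < M` by `h2`; `blkc` (condition `Lgs y g = S`, so `nr (g a) ≤ y` for `a ∉ S`):
`‖T(S)‖ ≤ C (log y)^{#J} exp(#S λ) ≤ C (log y)^{#J} exp(-λ) E₀` and `exp(-λ) ≤ 1 / (c (log z)^τ)` by `hlow`: `o(E₀)`.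
(3) `S ∈ 𝓜`, `S ⊂ S'`, `S ≠ S'`: there is `a' ∈ S' ∖ S`, and by `h1` an `a ∈ S` with `lk a a' ≠ 0`: `blkb`:
`‖T(S, S')‖ ≤ C y^η (log y)^{#J} exp((M - 1) λ) ≤ C (log z)^(τ/4) (log y)^{#J} E₀ / (c (log z)^τ) = o(E₀)`.
(4) `S ∈ 𝓜`: `T'(S) - T(S, S)` is the sum over the `g` with `g a = ∅` for `a ∉ S` and (not `Lgs y g = S ∧ spg g = S`), i.e. with
`nr (g a) ≤ y` for some `a ∈ S` (if all `a ∈ S` are large then `Lgs y g = S = spg g`, as `Lgs ⊆ spg ⊆ S`). Order: let `a` be the first such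
element (`Fintype.equivFin` or any linear order), i.e. write the condition as a disjoint union over `a ∈ S` of the conditions
`nr (g a) ≤ y ∧ ∀ a₁ < a in S, y < nr (g a₁)`; each is bounded by `blkc` with the set `S.erase a`: `≤ C (log y)^{#J} exp((M - 1) λ)`. (Or:
partition according to the set `Lgs y g = S₁ ⊂ S`, `S₁ ≠ S`, and use `blkc` with `S₁`; this is simpler.) `o(E₀)`.
Sum up: `FS True - ∑_{S ∈ 𝓜} T'(S) = ∑_{S ∉ 𝓜} T(S) + ∑_{S ∈ 𝓜} (∑_{S' ≠ S} T(S, S') + (T(S, S) - T'(S)))`.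
All bounds are uniform in `b`, `κ`. The elementary limits: `(log y)^{#J} (log z)^(-τ/2) → 0` with `log y = A₀ log log z`
(`isLittleO_log_rpow_atTop` / `Real.isLittleO_pow_log_id_atTop`, composed with `Real.tendsto_log_atTop`).
-/

set_option autoImplicit false

open scoped NumberField
open IsDedekindDomain
open scoped Classical

noncomputable section

namespace H83.LW

open H63.MA H38.BB

variable {K : Type} [Field K] [NumberField K] {p : ℕ} {ζ : K} {m : ℕ} {J : Type} [Fintype J]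

private theorem fs_congr (D : RD0 K p ζ) (P : PD p m J) (b : Fin m → Kˣ)
    (κ : J → Fin D.r → ZMod p) (Z : Finset (Pl K)) {C C' : (J → Finset (Pl K)) → Prop}
    (h : ∀ g, C g ↔ C' g) : FS D P b κ Z C = FS D P b κ Z C' := by
  have : C = C' := funext fun g => propext (h g)
  rw [this]

private theorem fs_zero (D : RD0 K p ζ) (P : PD p m J) (b : Fin m → Kˣ)
    (κ : J → Fin D.r → ZMod p) (Z : Finset (Pl K)) {C : (J → Finset (Pl K)) → Prop}
    (h : ∀ g, ¬ C g) : FS D P b κ Z C = 0 := by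
  unfold FS
  refine Finset.sum_eq_zero fun g _ => ?_
  rw [if_neg fun hh => h g hh.2]

private theorem fs_part {ι : Type} [Fintype ι] (D : RD0 K p ζ) (P : PD p m J) (b : Fin m → Kˣ)
    (κ : J → Fin D.r → ZMod p) (Z : Finset (Pl K)) (C : (J → Finset (Pl K)) → Prop)
    (f : (J → Finset (Pl K)) → ι) :
    FS D P b κ Z C = ∑ i, FS D P b κ Z (fun g => C g ∧ f g = i) := by
  unfold FS
  rw [Finset.sum_comm]
  refine Finset.sum_congr rfl fun g _ => ?_
  rw [Finset.sum_eq_single (f g)]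
  · by_cases h : Dj g ∧ C g
    · rw [if_pos h, if_pos ⟨h.1, h.2, rfl⟩]
    · rw [if_neg h, if_neg fun hh => h ⟨hh.1, hh.2.1⟩]
  · intro i _ hi
    rw [if_neg fun hh => hi hh.2.2.symm]
  · intro h
    exact absurd (Finset.mem_univ _) h

private theorem lgs_sub {y : ℝ} (hy : 1 ≤ y) (g : J → Finset (Pl K)) : Lgs y g ⊆ spg g := by
  intro a ha
  simp only [Lgs, spg, Finset.mem_filter, Finset.mem_univ, true_and] at ha ⊢
  intro h
  rw [h] at ha
  simp [nr] at ha
  linarith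

private theorem psi_tendsto (CA A C A0 τ : ℝ) (hτ : 0 < τ) (n : ℕ) :
    Filter.Tendsto (fun z : ℝ => CA * (Real.log z ^ (-1 : ℝ) + Real.log z ^ A / z) +
      C * ((A0 * Real.log (Real.log z)) ^ n * Real.log z ^ (-(τ / 2)))) Filter.atTop
      (nhds 0) := by
  have h1 : Filter.Tendsto (fun z : ℝ => Real.log z ^ (-1 : ℝ)) Filter.atTop (nhds 0) :=
    (tendsto_rpow_neg_atTop one_pos).comp Real.tendsto_log_atTop
  have h2 : Filter.Tendsto (fun z : ℝ => Real.log z ^ A / z) Filter.atTop (nhds 0) := by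
    have := (isLittleO_log_rpow_rpow_atTop A (one_pos)).tendsto_div_nhds_zero
    refine this.congr fun z => ?_
    rw [Real.rpow_one]
  have h3 : Filter.Tendsto (fun x : ℝ => (A0 * Real.log x) ^ n * x ^ (-(τ / 2))) Filter.atTop
      (nhds 0) := by
    have h4 := (isLittleO_log_rpow_rpow_atTop (n : ℝ) (half_pos hτ)).tendsto_div_nhds_zero
    have h5 := h4.const_mul (A0 ^ n)
    rw [mul_zero] at h5
    refine h5.congr' ?_
    filter_upwards [Filter.eventually_gt_atTop (0 : ℝ)] with x hx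
    rw [mul_pow, Real.rpow_neg hx.le, Real.rpow_natCast]
    ring
  have h6 := h3.comp Real.tendsto_log_atTop
  have h7 := ((h1.add h2).const_mul CA).add (h6.const_mul C)
  simpa using h7

theorem lm (hp : p.Prime) (hζ : IsPrimitiveRoot ζ p) (D : RD K p ζ) (P : PD p m J)
    (𝒦 : Submodule (ZMod p) (Fin D.r → ZMod p)) (w : ℝ) (M : ℕ) (hM : 1 ≤ M)
    (𝓜 : Finset (Finset J))
    (h1 : ∀ S ∈ 𝓜, S.card = M ∧ (∀ a ∈ S, ∀ a' ∈ S, P.lk a a' = 0) ∧
      ∀ a', a' ∉ S → ∃ a ∈ S, P.lk a a' ≠ 0)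
    (h2 : ∀ S : Finset J, (∀ a ∈ S, ∀ a' ∈ S, P.lk a a' = 0) → M ≤ S.card → S ∈ 𝓜)
    (c τ : ℝ) (hc : 0 < c) (hτ : 0 < τ)
    (hlow : ∀ z : ℝ, 3 ≤ z → c * Real.log z ^ τ ≤ Real.exp (LY D.toRD0 𝒦 w z)) :
    ∀ ε : ℝ, 0 < ε → ∃ z₀ : ℝ, ∀ z : ℝ, z₀ ≤ z →
      ∀ (b : Fin m → Kˣ) (κ : J → Fin D.r → ZMod p), BSup D.toRD0 b ∅ →
        ‖FS D.toRD0 P b κ (ZY D.toRD0 𝒦 w z) (fun _ => True) -
          ∑ S ∈ 𝓜, FS D.toRD0 P b κ (ZY D.toRD0 𝒦 w z) (fun g => ∀ a, a ∉ S → g a = ∅)‖ ≤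
          ε * Real.exp ((M : ℝ) * LY D.toRD0 𝒦 w z) := by
  classical
  obtain ⟨CA, A, δ, hCA, hA, hδ, hblka⟩ := blka hp hζ D P
  obtain ⟨A0, hA0⟩ : ∃ A0 : ℝ, A0 = (A + 1) / δ := ⟨_, rfl⟩
  have hA0pos : 0 < A0 := by rw [hA0]; positivity
  obtain ⟨η, hη⟩ : ∃ η : ℝ, η = τ / (4 * (A0 + 1)) := ⟨_, rfl⟩
  have hηpos : 0 < η := by rw [hη]; positivity
  have hA0η : A0 * η ≤ τ / 4 := by
    rw [hη, mul_div_assoc', div_le_div_iff₀ (by positivity) (by norm_num)]
    nlinarith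
  obtain ⟨CB, hCB, hblkb⟩ := blkb hp hζ D P 𝒦 w η hηpos
  obtain ⟨CC, hCC, hblkc⟩ := blkc D.toRD0 P
  obtain ⟨n, hn⟩ : ∃ n : ℕ, n = Fintype.card J := ⟨_, rfl⟩
  rw [← hn] at hblkb hblkc
  obtain ⟨R, hR⟩ : ∃ R : ℝ, R = (Fintype.card (Finset J) : ℝ) := ⟨_, rfl⟩
  have hR1 : 1 ≤ R := by
    rw [hR]
    exact_mod_cast Fintype.card_pos
  intro ε hε
  have hlim := psi_tendsto CA A ((CB + CC) / c) A0 τ hτ n
  have hy3 : Filter.Tendsto (fun z : ℝ => Real.log z ^ A0) Filter.atTop Filter.atTop :=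
    (tendsto_rpow_atTop hA0pos).comp Real.tendsto_log_atTop
  have hev : ∀ᶠ z : ℝ in Filter.atTop, 3 ≤ z ∧ 3 ≤ Real.log z ^ A0 ∧ 1 ≤ Real.log z ∧
      CA * (Real.log z ^ (-1 : ℝ) + Real.log z ^ A / z) +
      (CB + CC) / c * ((A0 * Real.log (Real.log z)) ^ n * Real.log z ^ (-(τ / 2))) ≤
        ε / (3 * R ^ 2) := by
    have e1 := Filter.eventually_ge_atTop (3 : ℝ)
    have e2 := hy3.eventually_ge_atTop (3 : ℝ)
    have e3 := Real.tendsto_log_atTop.eventually_ge_atTop (1 : ℝ)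
    have e4 := hlim.eventually_le_const (show (0 : ℝ) < ε / (3 * R ^ 2) by positivity)
    filter_upwards [e1, e2, e3, e4] with z a1 a2 a3 a4
    exact ⟨a1, a2, a3, a4⟩
  obtain ⟨z₀, hz₀⟩ := Filter.eventually_atTop.1 hev
  refine ⟨z₀, fun z hz b κ hb => ?_⟩
  obtain ⟨hz3, hy, hL1, hψ⟩ := hz₀ z hz
  obtain ⟨y, hydef⟩ : ∃ y : ℝ, y = Real.log z ^ A0 := ⟨_, rfl⟩
  rw [← hydef] at hy
  obtain ⟨ψ, hψdef⟩ : ∃ ψ : ℝ, ψ = CA * (Real.log z ^ (-1 : ℝ) + Real.log z ^ A / z) +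
      (CB + CC) / c * ((A0 * Real.log (Real.log z)) ^ n * Real.log z ^ (-(τ / 2))) := ⟨_, rfl⟩
  rw [← hψdef] at hψ
  have hL0 : 0 < Real.log z := by linarith
  have hz0 : 0 < z := by linarith
  have hlogy : Real.log y = A0 * Real.log (Real.log z) := by
    rw [hydef, Real.log_rpow hL0]
  have hlogy0 : 0 ≤ Real.log y := Real.log_nonneg (by linarith)
  obtain ⟨lam, hlam⟩ : ∃ lam : ℝ, lam = LY D.toRD0 𝒦 w z := ⟨_, rfl⟩
  have hlow' := hlow z hz3
  rw [← hlam] at hlow' ⊢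
  have hlam0 : 0 ≤ lam := by
    rw [hlam, LY, Li]
    exact Finset.sum_nonneg fun v _ => by positivity
  obtain ⟨E0, hE0⟩ : ∃ E0 : ℝ, E0 = Real.exp ((M : ℝ) * lam) := ⟨_, rfl⟩
  rw [← hE0]
  have hE01 : 1 ≤ E0 := by rw [hE0]; exact Real.one_le_exp (by positivity)
  have hE0pos : 0 < E0 := by linarith
  -- the exponential with one factor less
  have hexp1 : Real.exp (((M : ℝ) - 1) * lam) ≤ E0 * (Real.log z ^ (-τ) / c) := by
    have h3 : Real.exp (((M : ℝ) - 1) * lam) = E0 * Real.exp (-lam) := by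
      rw [hE0, ← Real.exp_add]
      congr 1
      ring
    rw [h3]
    refine mul_le_mul_of_nonneg_left ?_ hE0pos.le
    rw [Real.exp_neg, Real.rpow_neg hL0.le, ← one_div, ← one_div, div_div, one_div, one_div]
    refine inv_anti₀ (by positivity) ?_
    rw [mul_comm]
    exact hlow'
  have hexpS : ∀ k : ℕ, k < M → Real.exp ((k : ℝ) * lam) ≤ Real.exp (((M : ℝ) - 1) * lam) := by
    intro k hk
    refine Real.exp_le_exp.2 (mul_le_mul_of_nonneg_right ?_ hlam0)
    have : ((k : ℝ) + 1) ≤ M := by exact_mod_cast hk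
    linarith
  have hLneg : Real.log z ^ (-τ) ≤ Real.log z ^ (-(τ / 2)) :=
    Real.rpow_le_rpow_of_exponent_le hL1 (by linarith)
  have hln : 0 ≤ (A0 * Real.log (Real.log z)) ^ n := by
    rw [← hlogy]
    positivity
  have hLh : 0 ≤ Real.log z ^ (-(τ / 2)) := (Real.rpow_pos_of_pos hL0 _).le
  have hψ1 : CA * (Real.log z ^ (-1 : ℝ) + Real.log z ^ A / z) ≤ ψ := by
    rw [hψdef]
    have : 0 ≤ (CB + CC) / c * ((A0 * Real.log (Real.log z)) ^ n * Real.log z ^ (-(τ / 2))) := by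
      positivity
    linarith
  have hψ1' : 0 ≤ CA * (Real.log z ^ (-1 : ℝ) + Real.log z ^ A / z) := by
    have a1 : 0 ≤ Real.log z ^ (-1 : ℝ) := (Real.rpow_pos_of_pos hL0 _).le
    have a2 : 0 ≤ Real.log z ^ A := (Real.rpow_pos_of_pos hL0 _).le
    positivity
  have hψ2 : (CB + CC) / c * ((A0 * Real.log (Real.log z)) ^ n * Real.log z ^ (-(τ / 2))) ≤ ψ := by
    rw [hψdef]
    linarith
  have hψ0 : 0 ≤ ψ := hψ1'.trans hψ1
  -- small terms: at most `M - 1` large variables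
  have hsmall : ∀ (S : Finset J) (Cn : (J → Finset (Pl K)) → Prop), S.card < M →
      (∀ g, Cn g → ∀ a, a ∉ S → nr (g a) ≤ y) →
      ‖FS D.toRD0 P b κ (ZY D.toRD0 𝒦 w z) Cn‖ ≤ ψ * E0 := by
    intro S Cn hS hCn
    have h4 := hblkc (ZY D.toRD0 𝒦 w z) y (fun v hv => (mem_ZY.1 hv).2.1) hy b κ S Cn hCn
    refine h4.trans ?_
    have h5 : Real.exp ((S.card : ℝ) * Li (ZY D.toRD0 𝒦 w z)) ≤
        E0 * (Real.log z ^ (-(τ / 2)) / c) := by
      have h6 : Li (ZY D.toRD0 𝒦 w z) = lam := by rw [hlam]; rfl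
      rw [h6]
      refine (hexpS _ hS).trans (hexp1.trans ?_)
      gcongr
    calc CC * Real.log y ^ n * Real.exp ((S.card : ℝ) * Li (ZY D.toRD0 𝒦 w z))
        ≤ CC * Real.log y ^ n * (E0 * (Real.log z ^ (-(τ / 2)) / c)) := by gcongr
      _ = (CC / c * ((A0 * Real.log (Real.log z)) ^ n * Real.log z ^ (-(τ / 2)))) * E0 := by
          rw [hlogy]; ring
      _ ≤ ψ * E0 := by
          refine mul_le_mul_of_nonneg_right (le_trans ?_ hψ2) hE0pos.le
          refine mul_le_mul_of_nonneg_right ?_ (by positivity)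
          gcongr
          linarith
  -- `S ∉ 𝓜`
  have hnot : ∀ S : Finset J, S ∉ 𝓜 →
      ‖FS D.toRD0 P b κ (ZY D.toRD0 𝒦 w z) (fun g => Lgs y g = S)‖ ≤ ψ * E0 := by
    intro S hS
    by_cases hlk : ∃ a ∈ S, ∃ a' ∈ S, P.lk a a' ≠ 0
    · have h4 := hblka 𝒦 w y z hy hz3 b κ hb S hlk
      refine h4.trans ?_
      have h5 : y ^ (-δ) = Real.log z ^ (-(A + 1)) := by
        rw [hydef, ← Real.rpow_mul hL0.le]
        congr 1
        rw [hA0]
        field_simp
      have h6 : Real.log z ^ A * Real.log z ^ (-(A + 1)) = Real.log z ^ (-1 : ℝ) := by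
        rw [← Real.rpow_add hL0]
        congr 1
        ring
      calc CA * Real.log z ^ A * (y ^ (-δ) + 1 / z)
          = CA * (Real.log z ^ A * Real.log z ^ (-(A + 1)) + Real.log z ^ A / z) := by
            rw [h5]; ring
        _ = CA * (Real.log z ^ (-1 : ℝ) + Real.log z ^ A / z) := by rw [h6]
        _ ≤ ψ := hψ1
        _ ≤ ψ * E0 := le_mul_of_one_le_right hψ0 hE01
    · push Not at hlk
      have hcard : S.card < M := by
        by_contra hc'
        exact hS (h2 S hlk (not_lt.1 hc'))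
      refine hsmall S _ hcard fun g hg a ha => ?_
      by_contra hlt
      refine ha ?_
      rw [← hg]
      simp only [Lgs, Finset.mem_filter, Finset.mem_univ, true_and]
      exact not_le.1 hlt
  -- `S ∈ 𝓜`
  have hin : ∀ S ∈ 𝓜, ‖FS D.toRD0 P b κ (ZY D.toRD0 𝒦 w z) (fun g => Lgs y g = S) -
      FS D.toRD0 P b κ (ZY D.toRD0 𝒦 w z) (fun g => ∀ a, a ∉ S → g a = ∅)‖ ≤
        R * (2 * (ψ * E0)) := by
    intro S hS
    obtain ⟨hScard, hSun, hSmax⟩ := h1 S hS
    rw [fs_part D.toRD0 P b κ _ (fun g => Lgs y g = S) spg,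
      fs_part D.toRD0 P b κ _ (fun g => ∀ a, a ∉ S → g a = ∅) (Lgs y),
      ← Finset.sum_sub_distrib]
    refine (norm_sum_le _ _).trans ?_
    have hcardR : R * (2 * (ψ * E0)) = ∑ _S' : Finset J, 2 * (ψ * E0) := by
      rw [Finset.sum_const, nsmul_eq_mul, hR]
      rfl
    rw [hcardR]
    refine Finset.sum_le_sum fun S' _ => ?_
    by_cases hSS : S' = S
    · rw [hSS]
      have h5 : FS D.toRD0 P b κ (ZY D.toRD0 𝒦 w z) (fun g => Lgs y g = S ∧ spg g = S) =
          FS D.toRD0 P b κ (ZY D.toRD0 𝒦 w z)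
            (fun g => (∀ a, a ∉ S → g a = ∅) ∧ Lgs y g = S) := by
        refine fs_congr D.toRD0 P b κ _ fun g => ⟨fun hg => ⟨fun a ha => ?_, hg.1⟩, fun hg =>
          ⟨hg.2, ?_⟩⟩
        · by_contra hne
          refine ha ?_
          rw [← hg.2]
          simp only [spg, Finset.mem_filter, Finset.mem_univ, true_and]
          exact hne
        · apply Finset.Subset.antisymm
          · intro a ha
            by_contra haS
            simp only [spg, Finset.mem_filter, Finset.mem_univ, true_and] at ha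
            exact ha (hg.1 a haS)
          · rw [← hg.2]
            exact lgs_sub (by linarith) g
      rw [h5, sub_self, norm_zero]
      positivity
    · refine (norm_sub_le _ _).trans ?_
      have hT : ‖FS D.toRD0 P b κ (ZY D.toRD0 𝒦 w z) (fun g => Lgs y g = S ∧ spg g = S')‖ ≤
          ψ * E0 := by
        by_cases hsub : S ⊆ S'
        · obtain ⟨a', ha'1, ha'2⟩ : ∃ a' ∈ S', a' ∉ S := by
            by_contra hcon
            push Not at hcon
            exact hSS (Finset.Subset.antisymm hcon hsub)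
          obtain ⟨a, haS, halk⟩ := hSmax a' ha'2
          have h6 := hblkb y z hy hz3 b κ hb S S' hsub hSun ⟨a, haS, a', ha'1, ha'2, halk⟩
          refine h6.trans ?_
          rw [hScard, ← hlam]
          have hyη : y ^ η ≤ Real.log z ^ (τ / 4) := by
            rw [hydef, ← Real.rpow_mul hL0.le]
            exact Real.rpow_le_rpow_of_exponent_le hL1 hA0η
          have hLL : Real.log z ^ (τ / 4) * Real.log z ^ (-τ) ≤ Real.log z ^ (-(τ / 2)) := by
            rw [← Real.rpow_add hL0]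
            exact Real.rpow_le_rpow_of_exponent_le hL1 (by linarith)
          have hLτ : 0 ≤ Real.log z ^ (-τ) := (Real.rpow_pos_of_pos hL0 _).le
          calc CB * y ^ η * Real.log y ^ n * Real.exp (((M : ℝ) - 1) * lam)
              ≤ CB * Real.log z ^ (τ / 4) * Real.log y ^ n *
                  (E0 * (Real.log z ^ (-τ) / c)) := by gcongr
            _ = CB / c * (Real.log y ^ n * (Real.log z ^ (τ / 4) * Real.log z ^ (-τ))) * E0 := by
                ring
            _ ≤ CB / c * (Real.log y ^ n * Real.log z ^ (-(τ / 2))) * E0 := by gcongr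
            _ ≤ ψ * E0 := by
                refine mul_le_mul_of_nonneg_right (le_trans ?_ hψ2) hE0pos.le
                rw [hlogy]
                refine mul_le_mul_of_nonneg_right ?_ (by positivity)
                gcongr
                linarith
        · rw [fs_zero D.toRD0 P b κ _ fun g hg => ?_, norm_zero]
          · positivity
          · refine hsub ?_
            rw [← hg.1, ← hg.2]
            exact lgs_sub (by linarith) g
      have hU : ‖FS D.toRD0 P b κ (ZY D.toRD0 𝒦 w z)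
          (fun g => (∀ a, a ∉ S → g a = ∅) ∧ Lgs y g = S')‖ ≤ ψ * E0 := by
        by_cases hsub : S' ⊆ S
        · have hcard : S'.card < M := by
            rw [← hScard]
            exact Finset.card_lt_card (Finset.ssubset_iff_subset_ne.2 ⟨hsub, hSS⟩)
          refine hsmall S' _ hcard fun g hg a ha => ?_
          by_contra hlt
          refine ha ?_
          rw [← hg.2]
          simp only [Lgs, Finset.mem_filter, Finset.mem_univ, true_and]
          exact not_le.1 hlt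
        · rw [fs_zero D.toRD0 P b κ _ fun g hg => ?_, norm_zero]
          · positivity
          · refine hsub ?_
            rw [← hg.2]
            refine (lgs_sub (by linarith) g).trans fun a ha => ?_
            by_contra haS
            simp only [spg, Finset.mem_filter, Finset.mem_univ, true_and] at ha
            exact ha (hg.1 a haS)
      linarith
  -- assembly
  have htot : FS D.toRD0 P b κ (ZY D.toRD0 𝒦 w z) (fun _ => True) =
      ∑ S : Finset J, FS D.toRD0 P b κ (ZY D.toRD0 𝒦 w z) (fun g => Lgs y g = S) := by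
    rw [fs_part D.toRD0 P b κ _ (fun _ => True) (Lgs y)]
    refine Finset.sum_congr rfl fun S _ => fs_congr D.toRD0 P b κ _ fun g => ?_
    simp
  rw [htot, ← Finset.sum_compl_add_sum 𝓜, add_sub_assoc, ← Finset.sum_sub_distrib]
  refine (norm_add_le _ _).trans ?_
  have hb1 : ‖∑ S ∈ 𝓜ᶜ, FS D.toRD0 P b κ (ZY D.toRD0 𝒦 w z) (fun g => Lgs y g = S)‖ ≤
      R * (ψ * E0) := by
    refine (norm_sum_le _ _).trans ?_
    refine (Finset.sum_le_card_nsmul _ _ (ψ * E0) fun S hS => hnot S (by simpa using hS)).trans ?_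
    rw [nsmul_eq_mul, hR]
    refine mul_le_mul_of_nonneg_right ?_ (by positivity)
    exact_mod_cast Finset.card_le_univ _
  have hb2 : ‖∑ S ∈ 𝓜, (FS D.toRD0 P b κ (ZY D.toRD0 𝒦 w z) (fun g => Lgs y g = S) -
      FS D.toRD0 P b κ (ZY D.toRD0 𝒦 w z) (fun g => ∀ a, a ∉ S → g a = ∅))‖ ≤
      R * (R * (2 * (ψ * E0))) := by
    refine (norm_sum_le _ _).trans ?_
    refine (Finset.sum_le_card_nsmul _ _ _ fun S hS => hin S hS).trans ?_
    rw [nsmul_eq_mul]
    refine mul_le_mul_of_nonneg_right ?_ (by positivity)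
    rw [hR]
    exact_mod_cast Finset.card_le_univ _
  refine (add_le_add hb1 hb2).trans ?_
  have h9 : R * (ψ * E0) + R * (R * (2 * (ψ * E0))) ≤ 3 * R ^ 2 * ψ * E0 := by
    have h10 : 0 ≤ ψ * E0 := by positivity
    nlinarith [mul_nonneg (mul_nonneg (by linarith : (0:ℝ) ≤ R) (by linarith : (0:ℝ) ≤ R - 1)) h10]
  refine h9.trans ?_
  refine mul_le_mul_of_nonneg_right ?_ hE0pos.le
  calc 3 * R ^ 2 * ψ ≤ 3 * R ^ 2 * (ε / (3 * R ^ 2)) := by gcongr
    _ = ε := by field_simp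

end H83.LW
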