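import Pool.Agent.H83.LW.EUY

/-!
# [H83 LW LYB] upper bounds for `LY` (two theorems, 60-100 lines)

* `ly_up`: `∑_{κ ∈ 𝒦} Re ep(dt κ (q v)) = #𝒦` or `0` according to whether `dt κ (q v) = 0` for all `κ ∈ 𝒦` (see `EUY`). So
  `#𝒦 * LY D 𝒦 w z = ∑_{κ ∈ 𝒦} ∑_{v ∈ ZY D ⊥ w z} Re ep(dt κ (q v)) / nm v`. The term `κ = 0` is `LY D ⊥ w z`; for `κ ≠ 0`, i.e.
  `κ ∉ ⊥`, `euy` with `𝒦 = ⊥`, `E = ∅`, `η = 1` gives `≤ log (nr ∅) + C = C` (`fE ∅ μ κ v = dt κ (q v)`, `nr ∅ = 1`).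
* `ly_split`: `∑_{t : ZMod p} ep(t * dt κ (q v)) = p` or `0` according to whether `dt κ (q v) = 0`. So the left side is
  `∑_t ∑_{v ∈ ZY D 𝒦 w z} Re ep(dt (t • κ) (q v)) / nm v`; `t = 0` gives `LY D 𝒦 w z`, and for `t ≠ 0` we have `t • κ ∉ 𝒦`: `euy`.
-/

set_option autoImplicit false

open scoped NumberField
open IsDedekindDomain
open scoped Classical

noncomputable section

namespace H83.LW

open H63.MA H38.BB

variable {K : Type} [Field K] [NumberField K] {p : ℕ} {ζ : K}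

private theorem lyb_one (hp : p.Prime) (hζ : IsPrimitiveRoot ζ p) (D : RD K p ζ)
    (𝒦 : Submodule (ZMod p) (Fin D.r → ZMod p)) (w : ℝ) :
    ∃ C : ℝ, 0 < C ∧ ∀ z : ℝ, 3 ≤ z → ∀ κ : Fin D.r → ZMod p, κ ∉ 𝒦 →
      ∑ v ∈ ZY D.toRD0 𝒦 w z, (ep p (dt κ (D.q v))).re / nm v ≤ C := by
  obtain ⟨C, hC, h⟩ := euy hp hζ D 𝒦 w 1 one_pos
  refine ⟨C, hC, fun z hz κ hκ => ?_⟩
  have h1 := h z hz ∅ (fun _ => 0) κ (fun v hv => absurd hv (Finset.notMem_empty v)) (Or.inr hκ)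
  have h2 : nr (∅ : Finset (Pl K)) = 1 := by
    unfold nr
    simp
  have h3 : ∀ v, fE D.toRD0 ∅ (fun _ => 0) κ v = dt κ (D.q v) := by
    intro v
    unfold fE
    simp
  rw [h2, Real.log_one, mul_zero, zero_add, Finset.sdiff_empty] at h1
  simp only [h3] at h1
  exact h1

theorem ly_up (hp : p.Prime) (hζ : IsPrimitiveRoot ζ p) (D : RD K p ζ)
    (𝒦 : Submodule (ZMod p) (Fin D.r → ZMod p)) (w : ℝ) :
    ∃ C : ℝ, 0 < C ∧ ∀ z : ℝ, 3 ≤ z →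
      (Nat.card 𝒦 : ℝ) * LY D.toRD0 𝒦 w z ≤ LY D.toRD0 ⊥ w z + C := by
  have : NeZero p := ⟨hp.ne_zero⟩
  obtain ⟨C, hC, h⟩ := lyb_one hp hζ D ⊥ w
  obtain ⟨S, hS⟩ : ∃ S : Finset (Fin D.r → ZMod p),
      S = Finset.univ.filter (fun κ : Fin D.r → ZMod p => κ ∈ 𝒦) := ⟨_, rfl⟩
  have hcard : Nat.card 𝒦 = S.card := Nat.subtype_card S fun κ => by
    rw [hS, Finset.mem_filter]
    simp
  have h0 : (0 : Fin D.r → ZMod p) ∈ S := by
    rw [hS, Finset.mem_filter]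
    exact ⟨Finset.mem_univ _, 𝒦.zero_mem⟩
  have hS0 : 0 < (S.card : ℝ) := by
    have h2 := Finset.card_pos.2 ⟨_, h0⟩
    exact_mod_cast h2
  refine ⟨S.card * C, by positivity, fun z hz => ?_⟩
  have e1 : (Nat.card 𝒦 : ℝ) * LY D.toRD0 𝒦 w z =
      ∑ κ ∈ S, ∑ v ∈ ZY D.toRD0 ⊥ w z, (ep p (dt κ (D.q v))).re / nm v := by
    rw [hcard, Finset.sum_comm]
    have h1 : ∀ v ∈ ZY D.toRD0 ⊥ w z, ∑ κ ∈ S, (ep p (dt κ (D.q v))).re / nm v =
        if v ∈ ZY D.toRD0 𝒦 w z then S.card * (1 / (nm v : ℝ)) else 0 := by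
      intro v hv
      rw [mem_ZY] at hv
      have h2 : ∑ κ ∈ S, (ep p (dt κ (D.q v))).re / nm v =
          (∑ κ ∈ S, ep p (dt κ (D.q v))).re / nm v := by
        rw [← Finset.sum_div, Complex.re_sum]
      rw [h2, hS, euy_orth hp 𝒦 (D.q v), ← hS]
      by_cases h3 : ∀ κ ∈ 𝒦, dt κ (D.q v) = 0
      · rw [if_pos h3, if_pos (mem_ZY.2 ⟨hv.1, hv.2.1, hv.2.2.1, h3⟩), Complex.ofReal_re]
        ring
      · rw [if_neg h3, if_neg fun h => h3 (mem_ZY.1 h).2.2.2, Complex.zero_re, zero_div]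
    rw [Finset.sum_congr rfl h1, ← Finset.sum_filter]
    have h4 : (ZY D.toRD0 ⊥ w z).filter (fun v => v ∈ ZY D.toRD0 𝒦 w z) =
        ZY D.toRD0 𝒦 w z := by
      ext v
      rw [Finset.mem_filter]
      constructor
      · intro h
        exact h.2
      · intro h
        refine ⟨?_, h⟩
        rw [mem_ZY] at h ⊢
        refine ⟨h.1, h.2.1, h.2.2.1, fun κ hκ => ?_⟩
        have h5 : κ = 0 := (Submodule.mem_bot _).1 hκ
        exact h.2.2.2 κ (by rw [h5]; exact 𝒦.zero_mem)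
    rw [h4, ← Finset.mul_sum]
    rfl
  rw [e1, ← Finset.add_sum_erase S _ h0]
  have h1 : ∑ v ∈ ZY D.toRD0 ⊥ w z, (ep p (dt 0 (D.q v))).re / nm v = LY D.toRD0 ⊥ w z := by
    unfold LY Li
    refine Finset.sum_congr rfl fun v _ => ?_
    have h2 : dt (0 : Fin D.r → ZMod p) (D.q v) = 0 := by
      unfold dt
      simp
    rw [h2, ep_zero, Complex.one_re]
  have h2 : ∑ κ ∈ S.erase 0, ∑ v ∈ ZY D.toRD0 ⊥ w z, (ep p (dt κ (D.q v))).re / nm v ≤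
      ∑ _κ ∈ S.erase 0, C := by
    refine Finset.sum_le_sum fun κ hκ => ?_
    exact h z hz κ fun h3 => (Finset.mem_erase.1 hκ).1 ((Submodule.mem_bot _).1 h3)
  rw [Finset.sum_const, nsmul_eq_mul] at h2
  have h3 : ((S.erase 0).card : ℝ) ≤ S.card := by
    exact_mod_cast Finset.card_erase_le
  have h4 := mul_le_mul_of_nonneg_right h3 hC.le
  rw [h1]
  linarith

theorem ly_split (hp : p.Prime) (hζ : IsPrimitiveRoot ζ p) (D : RD K p ζ)
    (𝒦 : Submodule (ZMod p) (Fin D.r → ZMod p)) (w : ℝ) :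
    ∃ C : ℝ, 0 < C ∧ ∀ z : ℝ, 3 ≤ z → ∀ κ : Fin D.r → ZMod p, κ ∉ 𝒦 →
      (p : ℝ) * Li ((ZY D.toRD0 𝒦 w z).filter fun v => dt κ (D.q v) = 0) ≤
        LY D.toRD0 𝒦 w z + C := by
  have : NeZero p := ⟨hp.ne_zero⟩
  have : Fact p.Prime := ⟨hp⟩
  obtain ⟨C, hC, h⟩ := lyb_one hp hζ D 𝒦 w
  have hp0 : (0 : ℝ) < p := by exact_mod_cast hp.pos
  refine ⟨p * C, by positivity, fun z hz κ hκ => ?_⟩
  have hdt : ∀ (t : ZMod p) (x : Fin D.r → ZMod p), dt (t • κ) x = t * dt κ x := by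
    intro t x
    unfold dt
    rw [Finset.mul_sum]
    refine Finset.sum_congr rfl fun k _ => ?_
    rw [Pi.smul_apply, smul_eq_mul, mul_assoc]
  have e1 : (p : ℝ) * Li ((ZY D.toRD0 𝒦 w z).filter fun v => dt κ (D.q v) = 0) =
      ∑ t : ZMod p, ∑ v ∈ ZY D.toRD0 𝒦 w z, (ep p (dt (t • κ) (D.q v))).re / nm v := by
    rw [Finset.sum_comm]
    unfold Li
    rw [Finset.mul_sum, Finset.sum_filter]
    refine Finset.sum_congr rfl fun v _ => ?_
    have h1 : ∑ t : ZMod p, (ep p (dt (t • κ) (D.q v))).re / nm v =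
        (∑ t : ZMod p, ep p (t * dt κ (D.q v))).re / nm v := by
      rw [← Finset.sum_div, Complex.re_sum]
      congr 1
      exact Finset.sum_congr rfl fun t _ => by rw [hdt]
    rw [h1, ep_sum hp]
    split_ifs
    · rw [Complex.natCast_re]
      ring
    · rw [Complex.zero_re, zero_div]
  rw [e1, ← Finset.add_sum_erase Finset.univ _ (Finset.mem_univ (0 : ZMod p))]
  have h1 : ∑ v ∈ ZY D.toRD0 𝒦 w z, (ep p (dt ((0 : ZMod p) • κ) (D.q v))).re / nm v =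
      LY D.toRD0 𝒦 w z := by
    unfold LY Li
    refine Finset.sum_congr rfl fun v _ => ?_
    rw [hdt, zero_mul, ep_zero, Complex.one_re]
  have h2 : ∑ t ∈ (Finset.univ : Finset (ZMod p)).erase 0,
      ∑ v ∈ ZY D.toRD0 𝒦 w z, (ep p (dt (t • κ) (D.q v))).re / nm v ≤
      ∑ _t ∈ (Finset.univ : Finset (ZMod p)).erase 0, C := by
    refine Finset.sum_le_sum fun t ht => ?_
    have ht0 : t ≠ 0 := (Finset.mem_erase.1 ht).1
    refine h z hz (t • κ) fun h3 => hκ ?_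
    have h4 := 𝒦.smul_mem t⁻¹ h3
    rwa [smul_smul, inv_mul_cancel₀ ht0, one_smul] at h4
  rw [Finset.sum_const, nsmul_eq_mul] at h2
  have h3 : (((Finset.univ : Finset (ZMod p)).erase 0).card : ℝ) ≤ p := by
    have h4 : ((Finset.univ : Finset (ZMod p)).erase 0).card ≤ p := by
      refine Finset.card_erase_le.trans ?_
      rw [Finset.card_univ, ZMod.card]
    exact_mod_cast h4
  have h4 := mul_le_mul_of_nonneg_right h3 hC.le
  rw [h1]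
  linarith

end H83.LW
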