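import Pool.Agent.H83.LW.LGB
import Pool.Agent.H38.BB.CFld

/-!
# [H83 LW LYL] lower bound for `LY` (80-130 lines)

`DK D e d 𝒦`: the units `d j` have order `0` outside `S0`, and for good `v` the condition `dt κ (q v) = 0` for all `κ ∈ 𝒦` means
`LL v (d j) = 0` for all `j`.
`fld` (`H38/BB/CFld`) with `m = e`, `b = d`, `Δ = ⊤`: a number field `M / K`, `[M : K] ≤ #(⊤) = p^e`, such that for every prime `u` of `M` of
prime norm over `v ∉ S0`: `nm v = nm u` and `dt δ (fun k => LL v (d k)) = 0` for all `δ` (take `δ = Pi.single k 1`: `LL v (d k) = 0`).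
Reciprocity data for `M`: `exists_RD0_of M` (`H38/BB/RdOf`; see the beginning of the proof of `sing` in `H38/BB/CSin`, which does exactly
this) gives `D' : RD0 M p (algebraMap K M ζ)` whose `S0` contains all primes over the primes of `D.S0`. For `u ∈ gdY D' z`: let `v` be the prime
below (`exists_below` in `MA/KumB`); `v ∉ D.S0` (as `u ∉ D'.S0`), `nm v = nm u` is prime and `≤ z`, so `v` is good and satisfies the conditions.
At most `[M : K] ≤ p^e` primes `u` lie over a given `v` (`over_card` in `CFld`). So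
`Li (gdY D' z) ≤ p^e Li {v ∈ gdY D z | ∀ κ ∈ 𝒦, dt κ (q v) = 0} ≤ p^e (LY D 𝒦 w z + Li (gdY D w))` (the primes with `nm v ≤ w`).
`lg_low D'` and `lg_up D` (`LGB`): `LY D ⊥ w z ≤ Li (gdY D z) ≤ log log z + C ≤ Li (gdY D' z) + C'`.
-/

set_option autoImplicit false

open scoped NumberField
open IsDedekindDomain
open scoped Classical

noncomputable section

namespace H83.LW

open H63.MA H38.BB

variable {K : Type} [Field K] [NumberField K] {p : ℕ} {ζ : K}

theorem ly_low (hp : p.Prime) (hp2 : MOne p K) (hζ : IsPrimitiveRoot ζ p) (D : RD0 K p ζ)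
    {e : ℕ} {d : Fin e → Kˣ} {𝒦 : Submodule (ZMod p) (Fin D.r → ZMod p)} (h : DK D e d 𝒦)
    (w : ℝ) : ∃ C : ℝ, 0 < C ∧ ∀ z : ℝ, 3 ≤ z →
      LY D ⊥ w z ≤ (p : ℝ) ^ e * LY D 𝒦 w z + C := by
  have hpz : NeZero p := ⟨hp.ne_zero⟩
  obtain ⟨M, iF, iN, iA, hfin, hM⟩ := fld hp hζ D d h.ord0
    (⊤ : Submodule (ZMod p) (Fin e → ZMod p))
  have hζM : IsPrimitiveRoot (algebraMap K M ζ) p :=
    hζ.map_of_injective (algebraMap K M).injective
  obtain ⟨D', hD', -⟩ := exists_RD0_of M hp (mone_map hp2 M) hζM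
    (D.S0.biUnion fun v => (over_finite (L := M) v).toFinset)
  have hcard : Nat.card (⊤ : Submodule (ZMod p) (Fin e → ZMod p)) = p ^ e := by
    rw [Nat.card_congr (Submodule.topEquiv (R := ZMod p) (M := Fin e → ZMod p)).toEquiv,
      Nat.card_fun, Nat.card_zmod, Nat.card_fin]
  rw [hcard] at hfin
  obtain ⟨C₁, hC₁, h1⟩ := lg_low D'
  obtain ⟨C₂, hC₂, h2⟩ := lg_up D
  choose β hβ using fun u : Pl M => exists_below (K := K) u
  have hLi : ∀ A : Finset (Pl K), 0 ≤ Li A := fun A => Finset.sum_nonneg fun v _ => by positivity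
  refine ⟨(p : ℝ) ^ e * Li (gdY D w) + C₁ + C₂, by have := hLi (gdY D w); positivity,
    fun z hz => ?_⟩
  obtain ⟨W, hW⟩ : ∃ W : Finset (Pl K),
      W = (gdY D z).filter fun v => ∀ κ ∈ 𝒦, dt κ (D.q v) = 0 := ⟨_, rfl⟩
  have hmaps : ∀ u ∈ gdY D' z, β u ∈ W ∧ nm (β u) = nm u := by
    intro u hu
    rw [chr_mem] at hu
    obtain ⟨huz, huS, hup⟩ := hu
    have hv : β u ∉ D.S0 := by
      intro hv
      refine huS (hD' u ?_)
      rw [Finset.mem_biUnion]
      refine ⟨β u, hv, ?_⟩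
      rw [Set.Finite.mem_toFinset]
      exact hβ u
    obtain ⟨h3, h4⟩ := hM u (β u) (hβ u) hup hv
    have hgd : D.Gd (β u) := ⟨hv, by rw [h3]; exact hup⟩
    refine ⟨?_, h3⟩
    rw [hW, Finset.mem_filter, chr_mem]
    refine ⟨⟨by rw [h3]; exact huz, hgd⟩, (h.iff (β u) hgd).2 fun j => ?_⟩
    have h5 := h4 (Pi.single j 1) Submodule.mem_top
    unfold dt at h5
    rw [Finset.sum_eq_single j (fun i _ hi => by rw [Pi.single_eq_of_ne hi, zero_mul])
      (fun hj => absurd (Finset.mem_univ j) hj), Pi.single_eq_same, one_mul] at h5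
    exact h5
  have h6 : Li (gdY D' z) ≤ (p : ℝ) ^ e * Li W := by
    unfold Li
    rw [← Finset.sum_fiberwise_of_maps_to (fun u hu => (hmaps u hu).1)
      (fun u => 1 / (nm u : ℝ)), Finset.mul_sum]
    refine Finset.sum_le_sum fun v hv => ?_
    have h7 : ∑ u ∈ (gdY D' z).filter (fun u => β u = v), 1 / (nm u : ℝ) =
        (((gdY D' z).filter (fun u => β u = v)).card : ℝ) * (1 / (nm v : ℝ)) := by
      rw [← nsmul_eq_mul, ← Finset.sum_const]
      refine Finset.sum_congr rfl fun u hu => ?_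
      rw [Finset.mem_filter] at hu
      rw [← (hmaps u hu.1).2, hu.2]
    rw [h7]
    refine mul_le_mul_of_nonneg_right ?_ (by positivity)
    have h8 := (over_card v ((gdY D' z).filter (fun u => β u = v)) fun u hu => by
      rw [← (Finset.mem_filter.1 hu).2]
      exact hβ u).trans hfin
    exact_mod_cast h8
  have h9 : Li W ≤ LY D 𝒦 w z + Li (gdY D w) := by
    have hsub : W ⊆ ZY D 𝒦 w z ∪ gdY D w := by
      intro v hv
      rw [hW, Finset.mem_filter, chr_mem] at hv
      rw [Finset.mem_union, mem_ZY, chr_mem]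
      rcases le_or_gt (nm v : ℝ) w with hvw | hvw
      · exact Or.inr ⟨hvw, hv.1.2⟩
      · exact Or.inl ⟨hv.1.1, hv.1.2, hvw, hv.2⟩
    calc Li W ≤ Li (ZY D 𝒦 w z ∪ gdY D w) :=
          Finset.sum_le_sum_of_subset_of_nonneg hsub fun v _ _ => by positivity
      _ ≤ Li (ZY D 𝒦 w z) + Li (gdY D w) := by
          have h10 := Finset.sum_union_inter (s₁ := ZY D 𝒦 w z) (s₂ := gdY D w)
            (f := fun v : Pl K => 1 / (nm v : ℝ))
          have h11 := hLi (ZY D 𝒦 w z ∩ gdY D w)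
          unfold Li at h11 ⊢
          linarith
  have h12 : LY D ⊥ w z ≤ Li (gdY D z) :=
    Finset.sum_le_sum_of_subset_of_nonneg (fun v hv =>
      chr_mem.2 ⟨(mem_ZY.1 hv).1, (mem_ZY.1 hv).2.1⟩) fun v _ _ => by positivity
  have h13 := h1 z hz
  have h14 := h2 z hz
  have h15 := mul_le_mul_of_nonneg_left h9 (show (0 : ℝ) ≤ (p : ℝ) ^ e by positivity)
  linarith

end H83.LW
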