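import Pool.Agent.H83.LW.LGB

/-!
# [H83 LW MERS] passage to `s = 1 + 1 / log z` for signed functions (30-60 lines)

`|t v| ≤ 1`. Apply `mer K 2` (`H38/BB/CMer`) to `t' v = 1 + t v ∈ [0, 2]`:
`∑_{v ∈ gdY} (1 + t v) / nm v ≤ ∑' (if Gd v then (1 + t v) (nm v)^(-s) else 0) + C`, the right side is
`∑' (if Gd v then (nm v)^(-s) else 0) + ∑' (if Gd v then t v (nm v)^(-s) else 0) + C` (both series are summable by
`pz_summable`, `1 < s`), and by `gup` the first series is at most `Li (gdY D z) + C' = ∑_{v ∈ gdY} 1 / nm v + C'`. Subtract.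
-/

set_option autoImplicit false

open scoped NumberField
open IsDedekindDomain
open scoped Classical

noncomputable section

namespace H83.LW

open H63.MA H38.BB

variable {K : Type} [Field K] [NumberField K] {p : ℕ} {ζ : K}

theorem mers (D : RD0 K p ζ) : ∃ C : ℝ, 0 < C ∧ ∀ t : Pl K → ℝ, (∀ v, |t v| ≤ 1) →
    ∀ z : ℝ, 3 ≤ z → ∑ v ∈ gdY D z, t v / nm v ≤
      (∑' v : Pl K, if D.Gd v then t v * (nm v : ℝ) ^ (-(1 + 1 / Real.log z)) else 0) + C := by
  obtain ⟨C₁, hC₁, h1⟩ := mer K 2 (by norm_num)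
  obtain ⟨C₂, hC₂, h2⟩ := gup D
  refine ⟨C₁ + C₂, by positivity, fun t ht z hz => ?_⟩
  have hz0 : 0 < z := by linarith
  have hlog1 : 1 ≤ Real.log z := by
    rw [Real.le_log_iff_exp_le hz0]
    linarith [Real.exp_one_lt_d9]
  have hlog0 : 0 < Real.log z := by linarith
  have hs : 1 < 1 + 1 / Real.log z := by
    have : 0 < 1 / Real.log z := by positivity
    linarith
  have hsum := pz_summable K hs
  have h3 := h1 p ζ D (fun v => 1 + t v)
    (fun v => ⟨by have := abs_le.1 (ht v); linarith, by have := abs_le.1 (ht v); linarith⟩) z hz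
  have h4 := h2 z hz
  set s : ℝ := 1 + 1 / Real.log z with hsdef
  have hA : Summable fun v : Pl K => if D.Gd v then (nm v : ℝ) ^ (-s) else 0 := by
    refine Summable.of_norm_bounded hsum fun v => ?_
    have h0 : (0 : ℝ) ≤ (nm v : ℝ) ^ (-s) := by positivity
    by_cases h : D.Gd v
    · rw [if_pos h, Real.norm_of_nonneg h0]
    · rw [if_neg h, norm_zero]
      exact h0
  have hB : Summable fun v : Pl K => if D.Gd v then t v * (nm v : ℝ) ^ (-s) else 0 := by
    refine Summable.of_norm_bounded hsum fun v => ?_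
    have h0 : (0 : ℝ) ≤ (nm v : ℝ) ^ (-s) := by positivity
    by_cases h : D.Gd v
    · rw [if_pos h, norm_mul, Real.norm_of_nonneg h0, Real.norm_eq_abs]
      exact mul_le_of_le_one_left h0 (ht v)
    · rw [if_neg h, norm_zero]
      exact h0
  have h5 : (∑' v : Pl K, if D.Gd v then (1 + t v) * (nm v : ℝ) ^ (-s) else 0) =
      (∑' v : Pl K, if D.Gd v then (nm v : ℝ) ^ (-s) else 0) +
        ∑' v : Pl K, if D.Gd v then t v * (nm v : ℝ) ^ (-s) else 0 := by
    rw [← hA.tsum_add hB]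
    refine tsum_congr fun v => ?_
    by_cases h : D.Gd v
    · rw [if_pos h, if_pos h, if_pos h]
      ring
    · rw [if_neg h, if_neg h, if_neg h, add_zero]
  have h6 : ∑ v ∈ gdY D z, (1 + t v) / (nm v : ℝ) =
      Li (gdY D z) + ∑ v ∈ gdY D z, t v / (nm v : ℝ) := by
    unfold Li
    rw [← Finset.sum_add_distrib]
    refine Finset.sum_congr rfl fun v _ => ?_
    rw [add_div]
  rw [h5] at h3
  have h7 : ∑ v ∈ gdY D z, (1 + t v) / (nm v : ℝ) ≤ _ := h3
  rw [h6] at h7
  linarith

end H83.LW
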