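import Pool.Agent.H83.LW.LDef
import Pool.Agent.H63.MA.SymC

/-!
# [H83 LW RELC] the number of relations as a character sum (100-160 lines)

`X = supp i`, all `v ∈ X` good. For `k ∈ XF X` let `φ_k(n) = ∑_{v ∈ X} k v * B v (xx i) n`, additive in `n ∈ Kˣ` (`B_mul_right`; `v ∤ p`
by `D.above`) and `0` on `p`-th powers (`B_zpow_right` or `B_mul_right` and characteristic `p`). The function
`ψ_k(u, j) = φ_k(F u * xx j)` on the finite group `U × XF X` (`XF X` = the functions supported in `X`) satisfies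
`ψ_k(u u', j + j') = ψ_k(u, j) + ψ_k(u', j')`: `F (u u') = F u F u' y^p`, and `xx (j + j') = xx j xx j' y^p` for some `y`
(`(j v).val + (j' v).val ≡ ((j + j') v).val` modulo `p`; for the products over the supports use products over `X`, the factor is `1` if the
exponent is `0`).
* if `k` is a relation (`IsRl D i k`), then all `ψ_k(u, j) = 0` (`F u * xx j` has order `0` outside `S0 ∪ X`), so
  `∑_{u, j} ep(ψ_k) = #U p^{#X}` (`ep p 0 = 1`; `#(XF X) = p^{#X}`, `Finset.card_finsupp`).
* if `k` is not a relation, then `ψ_k ≠ 0`: there is `n` of order `0` outside `S0 ∪ X` with `φ_k(n) ≠ 0`. Let `j v = ord v n` (mod `p`) for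
  `v ∈ X`; `n / xx j` has order divisible by `p` at all `v ∈ X` and `0` outside `S0 ∪ X`, so `n = xx j * ∏_{v ∈ X} (pi v)^{p m v} * n'` with
  `n'` of order `0` outside `S0` (`pi_self`, `pi_ne`), `n' = F u y^p` by `hU.surj`. So `φ_k(n) = φ_k(F u * xx j) = ψ_k(u, j) ≠ 0`.
  Then `∑_{u, j} ep(ψ_k(u, j)) = 0`: translate by `(u₀, j₀)` with `ψ_k(u₀, j₀) ≠ 0`: the sum is multiplied by `ep(ψ_k(u₀, j₀)) ≠ 1`
  (see how `ep` sums are treated in `MA/ALem`, `alem_orth`).
So the right side is `#(Rl D i) #U p^{#X}`.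
-/

set_option autoImplicit false

open scoped NumberField
open IsDedekindDomain
open scoped Classical

noncomputable section

namespace H83.LW

open H63.MA H38.BB

variable {K : Type} [Field K] [NumberField K] {p : ℕ} {ζ : K}

private theorem rlc_xx [NeZero p] (D : RD0 K p ζ) {X : Finset (Pl K)} {j : Pl K →₀ ZMod p}
    (hj : j.support ⊆ X) : xx D j = ∏ v ∈ X, D.pi v ^ (j v).val := by
  unfold xx
  refine Finset.prod_subset hj fun v _ hv => ?_
  rw [Finsupp.notMem_support_iff.1 hv, ZMod.val_zero, pow_zero]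

omit [NumberField K] in
private theorem rlc_pow [NeZero p] (z : Kˣ) (a b : ZMod p) :
    ∃ y : Kˣ, z ^ (a + b).val = z ^ a.val * z ^ b.val * y ^ p := by
  refine ⟨(z ^ ((a.val + b.val) / p))⁻¹, ?_⟩
  have h1 : a.val + b.val = p * ((a.val + b.val) / p) + (a + b).val := by
    rw [ZMod.val_add]
    exact (Nat.div_add_mod _ _).symm
  have h2 : z ^ a.val * z ^ b.val = (z ^ ((a.val + b.val) / p)) ^ p * z ^ (a + b).val := by
    rw [← pow_add, ← pow_mul, ← pow_add]
    congr 1
    rw [mul_comm ((a.val + b.val) / p)]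
    exact h1
  rw [h2, inv_pow]
  group

private theorem rlc_xx_add [NeZero p] (D : RD0 K p ζ) {X : Finset (Pl K)} {j j' : Pl K →₀ ZMod p}
    (hj : j.support ⊆ X) (hj' : j'.support ⊆ X) :
    ∃ y : Kˣ, xx D (j + j') = xx D j * xx D j' * y ^ p := by
  have hjj : (j + j').support ⊆ X := by
    intro v hv
    rcases Finset.mem_union.1 (Finsupp.support_add hv) with h | h
    · exact hj h
    · exact hj' h
  choose y hy using fun v => rlc_pow (p := p) (D.pi v) (j v) (j' v)
  refine ⟨∏ v ∈ X, y v, ?_⟩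
  rw [rlc_xx D hjj, rlc_xx D hj, rlc_xx D hj', ← Finset.prod_pow, ← Finset.prod_mul_distrib,
    ← Finset.prod_mul_distrib]
  exact Finset.prod_congr rfl fun v _ => hy v

private theorem rlc_ord (D : RD0 K p ζ) {X : Finset (Pl K)} (hX : ∀ v ∈ X, v ∉ D.S0)
    (f : Pl K → ℤ) {w : Pl K} (hw : w ∉ D.S0) :
    ord w (∏ v ∈ X, D.pi v ^ f v) = if w ∈ X then f w else 0 := by
  rw [ord_prod]
  by_cases hwX : w ∈ X
  · rw [if_pos hwX, Finset.sum_eq_single w]
    · rw [ord_zpow, D.pi_self w hw, mul_one]
    · intro v hv hvw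
      rw [ord_zpow, D.pi_ne v w (hX v hv) hw (fun h => hvw h.symm), mul_zero]
    · intro h
      exact absurd hwX h
  · rw [if_neg hwX]
    refine Finset.sum_eq_zero fun v hv => ?_
    rw [ord_zpow, D.pi_ne v w (hX v hv) hw (fun h => hwX (h ▸ hv)), mul_zero]

theorem relc [NeZero p] (hp : p.Prime) (hζ : IsPrimitiveRoot ζ p) (D : RD0 K p ζ)
    {U : Type} [CommGroup U] [Fintype U] (F : U → Kˣ) (hU : UR D U F) (i : Pl K →₀ ZMod p)
    (hi : ∀ v ∈ i.support, D.Gd v) :
    ((Rl D i).card : ℂ) * (Fintype.card U * (p : ℂ) ^ i.support.card) =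
      ∑ j ∈ XF p i.support, ∑ k ∈ XF p i.support, ∑ u : U,
        ep p (∑ v ∈ i.support, k v * B p ζ v (xx D i) (F u * xx D j)) := by
  obtain ⟨X, hX⟩ : ∃ X, X = i.support := ⟨_, rfl⟩
  rw [← hX] at hi ⊢
  have hXS : ∀ v ∈ X, v ∉ D.S0 := fun v hv => (hi v hv).1
  have hXa : ∀ v ∈ X, ¬ Above p v := fun v hv h => hXS v hv (D.above v h)
  obtain ⟨φ, hφ⟩ : ∃ φ : (Pl K →₀ ZMod p) → Kˣ → ZMod p, φ = fun k n =>
    ∑ v ∈ X, k v * B p ζ v (xx D i) n := ⟨_, rfl⟩
  have hφ' : ∀ k n, ∑ v ∈ X, k v * B p ζ v (xx D i) n = φ k n := fun k n => by rw [hφ]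
  have hadd : ∀ k n n', φ k (n * n') = φ k n + φ k n' := fun k n n' => by
    rw [← hφ', ← hφ', ← hφ', ← Finset.sum_add_distrib]
    refine Finset.sum_congr rfl fun v hv => ?_
    rw [B_mul_right hp hζ (hXa v hv), mul_add]
  have hpow : ∀ k y, φ k (y ^ p) = 0 := fun k y => by
    rw [← hφ']
    refine Finset.sum_eq_zero fun v hv => ?_
    have h := B_zpow_right hp hζ (hXa v hv) (xx D i) y (p : ℤ)
    rw [zpow_natCast] at h
    rw [h]
    simp
  simp only [hφ']
  rw [Finset.sum_comm]
  have hcard : ((XF p X).card : ℂ) = (p : ℂ) ^ X.card := by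
    unfold XF
    rw [Finset.card_finsupp, Finset.prod_const, Finset.card_univ, ZMod.card]
    push_cast
    rfl
  have hin : ∀ k ∈ XF p X, (∑ j ∈ XF p X, ∑ u : U, ep p (φ k (F u * xx D j))) =
      if IsRl D i k then (Fintype.card U : ℂ) * (p : ℂ) ^ X.card else 0 := by
    intro k hk
    have hkX := mem_XF.1 hk
    by_cases hR : IsRl D i k
    · rw [if_pos hR]
      have h0 : ∀ j ∈ XF p X, ∀ u ∈ (Finset.univ : Finset U), ep p (φ k (F u * xx D j)) = 1 := by
        intro j hj u _
        have h1 := hR.2 (F u * xx D j) (fun v hv hvX => by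
          rw [← hX] at hvX
          rw [ord_mul, hU.mem u v hv, zero_add, rlc_xx D (mem_XF.1 hj)]
          have h2 := rlc_ord D hXS (fun v => ((j v).val : ℤ)) hv
          rw [if_neg hvX] at h2
          simpa only [zpow_natCast] using h2)
        rw [← hX, hφ'] at h1
        rw [h1, ep_zero]
      rw [Finset.sum_congr rfl fun j hj => Finset.sum_congr rfl fun u hu => h0 j hj u hu,
        Finset.sum_const, Finset.sum_const, Finset.card_univ, nsmul_eq_mul, nsmul_eq_mul, mul_one,
        hcard, mul_comm]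
    · rw [if_neg hR]
      -- the element of the group
      have hex : ∃ u₀ : U, ∃ j₀ ∈ XF p X, φ k (F u₀ * xx D j₀) ≠ 0 := by
        unfold IsRl at hR
        rw [not_and, ← hX] at hR
        have hR' := hR hkX
        rw [not_forall] at hR'
        obtain ⟨n, hn⟩ := hR'
        rw [Classical.not_imp] at hn
        obtain ⟨hn1, hn2⟩ := hn
        rw [hφ'] at hn2
        obtain ⟨j₀, hj₀⟩ : ∃ j₀ : Pl K →₀ ZMod p, j₀ = Finsupp.onFinset X
          (fun v => if v ∈ X then (ord v n : ZMod p) else 0) (fun v h => by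
            by_contra h'
            exact h (if_neg h')) := ⟨_, rfl⟩
        have hj₀v : ∀ v ∈ X, j₀ v = (ord v n : ZMod p) := fun v hv => by
          rw [hj₀, Finsupp.onFinset_apply, if_pos hv]
        have hj₀X : j₀.support ⊆ X := by
          rw [hj₀]
          exact Finsupp.support_onFinset_subset
        have hm : ∀ v : Pl K, ∃ m : ℤ, v ∈ X → ord v n = ((j₀ v).val : ℤ) + p * m := by
          intro v
          by_cases hv : v ∈ X
          · have h1 : (((j₀ v).val : ℤ) : ZMod p) = (ord v n : ZMod p) := by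
              rw [Int.cast_natCast, ZMod.natCast_zmod_val, hj₀v v hv]
            obtain ⟨m, hm⟩ := (ZMod.intCast_eq_intCast_iff_dvd_sub _ _ _).1 h1
            exact ⟨m, fun _ => by linarith⟩
          · exact ⟨0, fun h => absurd h hv⟩
        choose m hm using hm
        obtain ⟨t, ht⟩ : ∃ t : Kˣ, t = ∏ v ∈ X, D.pi v ^ m v := ⟨_, rfl⟩
        have hn' : ∀ w, w ∉ D.S0 → ord w (n * (xx D j₀ * t ^ p)⁻¹) = 0 := by
          intro w hw
          have e1 : ord w (xx D j₀) = if w ∈ X then ((j₀ w).val : ℤ) else 0 := by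
            rw [rlc_xx D hj₀X]
            have h2 := rlc_ord D hXS (fun v => ((j₀ v).val : ℤ)) hw
            simpa only [zpow_natCast] using h2
          have e2 : ord w t = if w ∈ X then m w else 0 := by
            rw [ht]
            exact rlc_ord D hXS m hw
          rw [ord_mul, ord_inv, ord_mul, ord_pow, e1, e2]
          by_cases hwX : w ∈ X
          · rw [if_pos hwX, if_pos hwX, hm w hwX]
            ring
          · rw [if_neg hwX, if_neg hwX, hn1 w hw hwX]
            ring
        obtain ⟨u₀, y, hy⟩ := hU.surj _ hn'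
        refine ⟨u₀, j₀, mem_XF.2 hj₀X, fun h0 => hn2 ?_⟩
        have e3 : n = F u₀ * xx D j₀ * (y ^ p * t ^ p) := by
          have e4 : n = n * (xx D j₀ * t ^ p)⁻¹ * (xx D j₀ * t ^ p) := by group
          rw [e4, hy]
          simp only [mul_comm, mul_left_comm, mul_assoc]
        rw [e3, hadd, hadd k (y ^ p), h0, hpow, hpow]
        ring
      obtain ⟨u₀, j₀, hj₀, hne⟩ := hex
      have hj₀X := mem_XF.1 hj₀
      have hψ : ∀ j ∈ XF p X, ∀ u, φ k (F (u * u₀) * xx D (j + j₀)) =
          φ k (F u * xx D j) + φ k (F u₀ * xx D j₀) := by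
        intro j hj u
        obtain ⟨y1, hy1⟩ := hU.mul u u₀
        obtain ⟨y2, hy2⟩ := rlc_xx_add D (mem_XF.1 hj) hj₀X
        have e : F (u * u₀) * xx D (j + j₀) =
            (F u * xx D j) * (F u₀ * xx D j₀) * (y1 ^ p * y2 ^ p) := by
          rw [hy1, hy2]
          simp only [mul_comm, mul_left_comm, mul_assoc]
        rw [e, hadd, hadd k (y1 ^ p), hpow, hpow, hadd]
        ring
      have hS : (∑ j ∈ XF p X, ∑ u : U, ep p (φ k (F u * xx D j))) =
          ep p (φ k (F u₀ * xx D j₀)) * ∑ j ∈ XF p X, ∑ u : U, ep p (φ k (F u * xx D j)) := by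
        have e1 : (∑ j ∈ XF p X, ∑ u : U, ep p (φ k (F u * xx D j))) =
            ∑ j ∈ XF p X, ∑ u : U, ep p (φ k (F (u * u₀) * xx D (j + j₀))) := by
          symm
          refine Finset.sum_bij' (fun j _ => j + j₀) (fun j _ => j - j₀) ?_ ?_ ?_ ?_ ?_
          · intro j hj
            rw [mem_XF] at hj ⊢
            intro v hv
            rcases Finset.mem_union.1 (Finsupp.support_add hv) with h | h
            · exact hj h
            · exact hj₀X h
          · intro j hj
            rw [mem_XF] at hj ⊢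
            intro v hv
            rcases Finset.mem_union.1 (Finsupp.support_sub hv) with h | h
            · exact hj h
            · exact hj₀X h
          · intro j _
            exact add_sub_cancel_right _ _
          · intro j _
            exact sub_add_cancel _ _
          · intro j _
            exact Fintype.sum_equiv (Equiv.mulRight u₀) _ _ fun u => rfl
        refine e1.trans ?_
        rw [Finset.mul_sum]
        refine Finset.sum_congr rfl fun j hj => ?_
        rw [Finset.mul_sum]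
        refine Finset.sum_congr rfl fun u _ => ?_
        rw [hψ j hj u, ep_add hp, mul_comm]
      have h1 : (1 - ep p (φ k (F u₀ * xx D j₀))) *
          (∑ j ∈ XF p X, ∑ u : U, ep p (φ k (F u * xx D j))) = 0 := by
        rw [sub_mul, one_mul, ← hS, sub_self]
      rcases mul_eq_zero.1 h1 with h2 | h2
      · exact absurd ((ep_eq_one hp _).1 (sub_eq_zero.1 h2).symm) hne
      · exact h2
  rw [Finset.sum_congr rfl hin, ← Finset.sum_filter, Finset.sum_const, nsmul_eq_mul]
  unfold Rl
  rw [← hX]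

end H83.LW
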