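import Pool.Agent.H83.LW.FAMJ
import Pool.Agent.H83.LW.RELC
import Pool.Agent.H83.LW.BFORM
import Pool.Agent.H63.MA.ALem

/-!
# [H83 LW MONEW] the first moment as a sum over families (70-110 lines)

For `i ∈ XF Z` with `X = supp i`: `Wt (p ϖ) i = p^{#X} Wt ϖ i`. By `relc`:
`Wt (p ϖ) i #(Rl D i) #U = Wt ϖ i ∑_{j, k ∈ XF X} ∑_u ep(∑_{v ∈ X} k v B v (xx i) (F u xx j))`. Moreover
`p^r [cl i = 0] = ∑_κ ep(dt κ (cl i))` (`alem_orth` in `MA/ALem`, up to the order of the arguments). So the left side is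
`∑_u ∑_κ ∑_{i ∈ XF Z} ∑_{j, k ∈ XF X} Wt ϖ i ep(dt κ (cl i)) ep(∑_v k v B v (xx i) (F u xx j))`, and by `famj` the inner sum is
`∑_g [Dj g] wg g ep(dt κ (cl (ig g))) ep(∑ kg B …)`. For `g` disjoint, in `Z.powerset`: `bph` (the primes in `Z` are good) gives
`ep(ph D (PJ p ϖ) ![1, F u] g)`, and `dt κ (cl (ig g)) = ∑_a dt (a.i • κ) (qf (g a))` (`cl (ig g) = ∑_a a.i • qf (g a)`). So the term is
`wg g ep(phc …)`. (`famj` is applied with `Φ i j k = ep(…)`; for the other `g`, not disjoint, both sides are `0`.)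
-/

set_option autoImplicit false

open scoped NumberField
open IsDedekindDomain
open scoped Classical

noncomputable section

namespace H83.LW

open H63.MA H38.BB

variable {K : Type} [Field K] [NumberField K] {p ϖ : ℕ} {ζ : K}

private theorem mnw_apply {J : Type} [Fintype J] (g : J → Finset (Pl K)) (hd : Dj g)
    (c : J → ZMod p) {a : J} {v : Pl K} (hv : v ∈ g a) :
    (∑ a, ∑ v ∈ g a, Finsupp.single v (c a)) v = c a := by
  rw [Finsupp.finsetSum_apply, Finset.sum_eq_single a]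
  · rw [Finsupp.finsetSum_apply, Finset.sum_eq_single v]
    · rw [Finsupp.single_apply, if_pos rfl]
    · intro w _ hw
      rw [Finsupp.single_apply, if_neg hw]
    · intro h
      exact absurd hv h
  · intro a' _ ha'
    rw [Finsupp.finsetSum_apply]
    refine Finset.sum_eq_zero fun w hw => ?_
    rw [Finsupp.single_apply, if_neg]
    rintro rfl
    exact Finset.disjoint_left.1 (hd a' a ha') hw hv
  · intro h
    exact absurd (Finset.mem_univ _) h

private theorem mnw_zero {J : Type} [Fintype J] (g : J → Finset (Pl K))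
    (c : J → ZMod p) {v : Pl K} (hv : v ∉ Finset.univ.biUnion g) :
    (∑ a, ∑ v ∈ g a, Finsupp.single v (c a)) v = 0 := by
  rw [Finsupp.finsetSum_apply]
  refine Finset.sum_eq_zero fun a _ => ?_
  rw [Finsupp.finsetSum_apply]
  refine Finset.sum_eq_zero fun w hw => ?_
  rw [Finsupp.single_apply, if_neg]
  rintro rfl
  exact hv (Finset.mem_biUnion.2 ⟨a, Finset.mem_univ _, hw⟩)

private theorem mnw_supp {J : Type} [Fintype J] (g : J → Finset (Pl K)) (c : J → ZMod p) :
    (∑ a, ∑ v ∈ g a, Finsupp.single v (c a)).support ⊆ Finset.univ.biUnion g := by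
  intro v hv
  by_contra h
  exact (Finsupp.mem_support_iff.1 hv) (mnw_zero g c h)

private theorem mnw_sum {M : Type} [AddCommMonoid M] {J : Type} [Fintype J]
    (g : J → Finset (Pl K)) (hd : Dj g)
    (c : J → ZMod p) (Φ : Pl K → ZMod p → M) (h0 : ∀ v, Φ v 0 = 0) :
    ∑ v ∈ (∑ a, ∑ v ∈ g a, Finsupp.single v (c a)).support,
        Φ v ((∑ a, ∑ v ∈ g a, Finsupp.single v (c a)) v) =
      ∑ a, ∑ v ∈ g a, Φ v (c a) := by
  rw [Finset.sum_subset (mnw_supp g c) (fun v _ hv => by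
    rw [Finsupp.notMem_support_iff.1 hv, h0]), Finset.sum_biUnion (fun l _ l' _ h => hd l l' h)]
  refine Finset.sum_congr rfl fun a _ => Finset.sum_congr rfl fun v hv => ?_
  rw [mnw_apply g hd c hv]

/-- the class characters -/
private theorem mnw_cl [NeZero p] (D : RD0 K p ζ) (g : JT p ϖ → Finset (Pl K)) (hd : Dj g)
    (κ : Fin D.r → ZMod p) :
    ∑ a : JT p ϖ, dt ((a.i : ZMod p) • κ) (qf D (g a)) = dt κ (cl D (ig g)) := by
  have h1 : cl D (ig g) = ∑ a : JT p ϖ, (a.i : ZMod p) • qf D (g a) := by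
    unfold cl
    have := mnw_sum g hd (fun a : JT p ϖ => (a.i : ZMod p)) (fun v c => c • D.q v)
      (fun v => zero_smul _ _)
    refine this.trans (Finset.sum_congr rfl fun a _ => ?_)
    unfold qf
    rw [Finset.smul_sum]
  rw [h1]
  unfold dt
  simp only [Finset.sum_apply, Pi.smul_apply, smul_eq_mul, Finset.mul_sum]
  rw [Finset.sum_comm]
  refine Finset.sum_congr rfl fun k _ => Finset.sum_congr rfl fun a _ => ?_
  ring

private theorem mnw_Wt (i : Pl K →₀ ZMod p) :
    Wt (p * ϖ) i = (p : ℝ) ^ i.support.card * Wt ϖ i := by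
  unfold Wt
  rw [← Finset.prod_const, ← Finset.prod_mul_distrib]
  refine Finset.prod_congr rfl fun v _ => ?_
  push_cast
  ring

theorem monew [NeZero p] (hp : p.Prime) (hζ : IsPrimitiveRoot ζ p) (D : RD0 K p ζ)
    {U : Type} [CommGroup U] [Fintype U] (F : U → Kˣ) (hU : UR D U F) (Z : Finset (Pl K))
    (hZ : ∀ v ∈ Z, D.Gd v) :
    (((∑ i ∈ XC D Z, Wt (p * ϖ) i * (Rl D i).card) * (Fintype.card U * (p : ℝ) ^ D.r) : ℝ) : ℂ) =
      ∑ u : U, ∑ κ : Fin D.r → ZMod p, FS D (PJ p ϖ) ![1, F u] (fun a => (a.i : ZMod p) • κ) Z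
        (fun _ => True) := by
  -- one inner sum
  have h1 : ∀ (u : U) (κ : Fin D.r → ZMod p),
      FS D (PJ p ϖ) ![1, F u] (fun a => (a.i : ZMod p) • κ) Z (fun _ => True) =
      ∑ i ∈ XF p Z, ∑ j ∈ XF p i.support, ∑ k ∈ XF p i.support, ((Wt ϖ i : ℝ) : ℂ) *
        (ep p (∑ v ∈ i.support, k v * B p ζ v (xx D i) (F u * xx D j)) *
          ep p (dt κ (cl D i))) := by
    intro u κ
    rw [← famj Z (fun i j k => ep p (∑ v ∈ i.support, k v * B p ζ v (xx D i) (F u * xx D j)) *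
          ep p (dt κ (cl D i)))]
    unfold FS
    refine Finset.sum_congr rfl fun g hg => ?_
    rw [Fintype.mem_piFinset] at hg
    by_cases hd : Dj g
    · rw [if_pos ⟨hd, trivial⟩, if_pos hd]
      congr 1
      unfold phc
      rw [bph hp hζ D g (fun a v hv => hZ v (Finset.mem_powerset.1 (hg a) hv)) hd (F u)
        (hU.mem u), mnw_cl D g hd κ, ep_add hp]
    · rw [if_neg (fun h => hd h.1), if_neg hd]
  have h2 : ∀ i ∈ XF p Z, ∑ u : U, ∑ κ : Fin D.r → ZMod p,
      ∑ j ∈ XF p i.support, ∑ k ∈ XF p i.support, ((Wt ϖ i : ℝ) : ℂ) *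
        (ep p (∑ v ∈ i.support, k v * B p ζ v (xx D i) (F u * xx D j)) *
          ep p (dt κ (cl D i))) =
      if cl D i = 0 then
        ((Wt (p * ϖ) i * (Rl D i).card * (Fintype.card U * (p : ℝ) ^ D.r) : ℝ) : ℂ) else 0 := by
    intro i hi
    have hiG : ∀ v ∈ i.support, D.Gd v := fun v hv => hZ v (mem_XF.1 hi hv)
    have e1 : ∑ u : U, ∑ κ : Fin D.r → ZMod p,
        ∑ j ∈ XF p i.support, ∑ k ∈ XF p i.support, ((Wt ϖ i : ℝ) : ℂ) *
        (ep p (∑ v ∈ i.support, k v * B p ζ v (xx D i) (F u * xx D j)) *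
          ep p (dt κ (cl D i))) =
        ((Wt ϖ i : ℝ) : ℂ) * (∑ κ : Fin D.r → ZMod p, ep p (dt κ (cl D i))) *
          ∑ j ∈ XF p i.support, ∑ k ∈ XF p i.support, ∑ u : U,
            ep p (∑ v ∈ i.support, k v * B p ζ v (xx D i) (F u * xx D j)) := by
      rw [Finset.sum_comm, mul_assoc, Finset.sum_mul, Finset.mul_sum]
      refine Finset.sum_congr rfl fun κ _ => ?_
      rw [Finset.sum_comm, Finset.mul_sum, Finset.mul_sum]
      refine Finset.sum_congr rfl fun j _ => ?_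
      rw [Finset.sum_comm, Finset.mul_sum, Finset.mul_sum]
      refine Finset.sum_congr rfl fun k _ => ?_
      rw [Finset.mul_sum, Finset.mul_sum]
      refine Finset.sum_congr rfl fun u _ => ?_
      ring
    rw [e1, alem_orth hp, ← relc hp hζ D F hU i hiG, mnw_Wt]
    by_cases h0 : cl D i = 0
    · rw [if_pos h0, if_pos h0]
      push_cast
      ring
    · rw [if_neg h0, if_neg h0]
      ring
  have h3 : ∑ u : U, ∑ κ : Fin D.r → ZMod p, FS D (PJ p ϖ) ![1, F u]
      (fun a => (a.i : ZMod p) • κ) Z (fun _ => True) =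
      ∑ i ∈ XF p Z, ∑ u : U, ∑ κ : Fin D.r → ZMod p,
      ∑ j ∈ XF p i.support, ∑ k ∈ XF p i.support, ((Wt ϖ i : ℝ) : ℂ) *
        (ep p (∑ v ∈ i.support, k v * B p ζ v (xx D i) (F u * xx D j)) *
          ep p (dt κ (cl D i))) := by
    rw [Finset.sum_congr rfl fun u _ => Finset.sum_congr rfl fun κ _ => h1 u κ,
      Finset.sum_congr rfl fun u _ => Finset.sum_comm, Finset.sum_comm]
  rw [h3, Finset.sum_congr rfl h2, ← Finset.sum_filter]
  unfold XC
  push_cast
  rw [Finset.sum_mul]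

end H83.LW
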