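import Pool.Agent.H83.LW.FAMJ
import Pool.Agent.H83.LW.MASS
import Pool.Agent.H63.MA.ALem

/-!
# [H83 LW ROWB] the rows and the columns, trivial bounds (80-130 lines)

`∑_κ ep(phc g) = ep(ph g) ∑_κ ep(dt κ (cl (ig g))) = ep(ph g) p^r [cl (ig g) = 0]` (for disjoint `g`:
`∑_a dt (a.i • κ) (qf (g a)) = dt κ (cl (ig g))`; `alem_orth` in `MA/ALem`). So the norm of the left side is at most `p^r` times the sum
of `wg g` over the disjoint `g` with `cl (ig g) = 0` and the support condition.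
* `rowb`: for disjoint `g` the condition `∀ a ∉ row t, g a = ∅` means `kg g v = t` for all `v ∈ supp (ig g)` (`supp (ig g) = ⋃ g a`,
  `kg g v = a.t` for `v ∈ g a`). `famj` with `Φ i j k = [cl i = 0] [∀ v ∈ supp i, k v = t]`: the sum is
  `∑_{i ∈ XC Z} Wt ϖ i #{j ∈ XF (supp i)} #{k | k = t on supp i} = ∑_{i ∈ XC Z} Wt ϖ i p^{#supp i} = ∑_{XC} Wt (p ϖ) i` (for `t = 0` also:
  `k = 0` is the only one).
* `colb`: the condition `∀ a ∉ col c, g a = ∅` means `jg g v = c * ig g v` on the support; the same with `j` and `k` exchanged.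
-/

set_option autoImplicit false

open scoped NumberField
open IsDedekindDomain
open scoped Classical

noncomputable section

namespace H83.LW

open H63.MA H38.BB

variable {K : Type} [Field K] [NumberField K] {p ϖ : ℕ} {ζ : K}

private theorem rwb_apply {J : Type} [Fintype J] (g : J → Finset (Pl K)) (hd : Dj g)
    (c : J → ZMod p) {a : J} {v : Pl K} (hv : v ∈ g a) :
    (∑ a, ∑ v ∈ g a, Finsupp.single v (c a)) v = c a := by
  rw [Finsupp.finsetSum_apply, Finset.sum_eq_single a]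
  · rw [Finsupp.finsetSum_apply, Finset.sum_eq_single v]
    · rw [Finsupp.single_apply, if_pos rfl]
    · intro w _ hw
      rw [Finsupp.single_apply, if_neg hw]
    · intro h
      exact absurd hv h
  · intro a' _ ha'
    rw [Finsupp.finsetSum_apply]
    refine Finset.sum_eq_zero fun w hw => ?_
    rw [Finsupp.single_apply, if_neg]
    rintro rfl
    exact Finset.disjoint_left.1 (hd a' a ha') hw hv
  · intro h
    exact absurd (Finset.mem_univ _) h

private theorem rwb_zero {J : Type} [Fintype J] (g : J → Finset (Pl K))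
    (c : J → ZMod p) {v : Pl K} (hv : v ∉ Finset.univ.biUnion g) :
    (∑ a, ∑ v ∈ g a, Finsupp.single v (c a)) v = 0 := by
  rw [Finsupp.finsetSum_apply]
  refine Finset.sum_eq_zero fun a _ => ?_
  rw [Finsupp.finsetSum_apply]
  refine Finset.sum_eq_zero fun w hw => ?_
  rw [Finsupp.single_apply, if_neg]
  rintro rfl
  exact hv (Finset.mem_biUnion.2 ⟨a, Finset.mem_univ _, hw⟩)

private theorem rwb_supp {J : Type} [Fintype J] (g : J → Finset (Pl K)) (c : J → ZMod p) :
    (∑ a, ∑ v ∈ g a, Finsupp.single v (c a)).support ⊆ Finset.univ.biUnion g := by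
  intro v hv
  by_contra h
  exact (Finsupp.mem_support_iff.1 hv) (rwb_zero g c h)

private theorem rwb_sum {M : Type} [AddCommMonoid M] {J : Type} [Fintype J]
    (g : J → Finset (Pl K)) (hd : Dj g)
    (c : J → ZMod p) (Φ : Pl K → ZMod p → M) (h0 : ∀ v, Φ v 0 = 0) :
    ∑ v ∈ (∑ a, ∑ v ∈ g a, Finsupp.single v (c a)).support,
        Φ v ((∑ a, ∑ v ∈ g a, Finsupp.single v (c a)) v) =
      ∑ a, ∑ v ∈ g a, Φ v (c a) := by
  rw [Finset.sum_subset (rwb_supp g c) (fun v _ hv => by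
    rw [Finsupp.notMem_support_iff.1 hv, h0]), Finset.sum_biUnion (fun l _ l' _ h => hd l l' h)]
  refine Finset.sum_congr rfl fun a _ => Finset.sum_congr rfl fun v hv => ?_
  rw [rwb_apply g hd c hv]

/-- the class characters -/
private theorem rwb_cl [NeZero p] (D : RD0 K p ζ) (g : JT p ϖ → Finset (Pl K)) (hd : Dj g)
    (κ : Fin D.r → ZMod p) :
    ∑ a : JT p ϖ, dt ((a.i : ZMod p) • κ) (qf D (g a)) = dt κ (cl D (ig g)) := by
  have h1 : cl D (ig g) = ∑ a : JT p ϖ, (a.i : ZMod p) • qf D (g a) := by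
    unfold cl
    have := rwb_sum g hd (fun a : JT p ϖ => (a.i : ZMod p)) (fun v c => c • D.q v)
      (fun v => zero_smul _ _)
    refine this.trans (Finset.sum_congr rfl fun a _ => ?_)
    unfold qf
    rw [Finset.smul_sum]
  rw [h1]
  unfold dt
  simp only [Finset.sum_apply, Pi.smul_apply, smul_eq_mul, Finset.mul_sum]
  rw [Finset.sum_comm]
  refine Finset.sum_congr rfl fun k _ => Finset.sum_congr rfl fun a _ => ?_
  ring

private theorem rwb_Wt (i : Pl K →₀ ZMod p) :
    Wt (p * ϖ) i = (p : ℝ) ^ i.support.card * Wt ϖ i := by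
  unfold Wt
  rw [← Finset.prod_const, ← Finset.prod_mul_distrib]
  refine Finset.prod_congr rfl fun v _ => ?_
  push_cast
  ring

private theorem rwb_wg0 {J : Type} [Fintype J] (g : J → Finset (Pl K)) : 0 ≤ wg g :=
  Finset.prod_nonneg fun a _ => one_div_nonneg.2 (zero_le_one.trans (one_le_nr (g a)))

private theorem rwb_card [NeZero p] (X : Finset (Pl K)) :
    ((XF p X).card : ℝ) = (p : ℝ) ^ X.card := by
  unfold XF
  rw [Finset.card_finsupp, Finset.prod_const, Finset.card_univ, ZMod.card]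
  push_cast
  rfl

private theorem rwb_uniq [NeZero p] (X : Finset (Pl K)) (t : Pl K → ZMod p) :
    ((XF p X).filter fun k => ∀ v ∈ X, k v = t v).card ≤ 1 := by
  refine Finset.card_le_one.2 fun k hk k' hk' => ?_
  rw [Finset.mem_filter, mem_XF] at hk hk'
  ext v
  by_cases hv : v ∈ X
  · rw [hk.2 v hv, hk'.2 v hv]
  · rw [Finsupp.notMem_support_iff.1 fun h => hv (hk.1 h),
      Finsupp.notMem_support_iff.1 fun h => hv (hk'.1 h)]

private theorem rwb_one [NeZero p] (X : Finset (Pl K)) (t : Pl K → ZMod p)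
    (P : (Pl K →₀ ZMod p) → Prop) (hP : ∀ k, P k → ∀ v ∈ X, k v = t v) :
    ∑ k ∈ XF p X, (if P k then (1 : ℝ) else 0) ≤ 1 := by
  rw [← Finset.sum_filter, Finset.sum_const, nsmul_eq_mul, mul_one]
  have h1 : (XF p X).filter P ⊆ (XF p X).filter fun k => ∀ v ∈ X, k v = t v := by
    intro k hk
    rw [Finset.mem_filter] at hk ⊢
    exact ⟨hk.1, hP k hk.2⟩
  exact_mod_cast (Finset.card_le_card h1).trans (rwb_uniq X t)

private theorem rwb_gen [NeZero p] (hp : p.Prime) (D : RD0 K p ζ) (Z : Finset (Pl K)) (u : Kˣ)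
    (C : (JT p ϖ → Finset (Pl K)) → Prop)
    (Q : (Pl K →₀ ZMod p) → (Pl K →₀ ZMod p) → (Pl K →₀ ZMod p) → Prop)
    (hQ : ∀ g, Dj g → C g → Q (ig g) (jg g) (kg g))
    (hcount : ∀ i : Pl K →₀ ZMod p, ∑ j ∈ XF p i.support, ∑ k ∈ XF p i.support,
      (if Q i j k then (1 : ℝ) else 0) ≤ (p : ℝ) ^ i.support.card) :
    ‖∑ κ : Fin D.r → ZMod p, FS D (PJ p ϖ) ![1, u] (fun a => (a.i : ZMod p) • κ) Z C‖ ≤
      (p : ℝ) ^ D.r * ∑ i ∈ XC D Z, Wt (p * ϖ) i := by
  have h1 : ∑ κ : Fin D.r → ZMod p, FS D (PJ p ϖ) ![1, u] (fun a => (a.i : ZMod p) • κ) Z C =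
      ∑ g ∈ Fintype.piFinset (fun _ : JT p ϖ => Z.powerset),
        if Dj g ∧ C g then ((wg g : ℝ) : ℂ) * (ep p (ph D (PJ p ϖ) ![1, u] g) *
          (if cl D (ig g) = 0 then (p : ℂ) ^ D.r else 0)) else 0 := by
    unfold FS
    rw [Finset.sum_comm]
    refine Finset.sum_congr rfl fun g _ => ?_
    by_cases h : Dj g ∧ C g
    · simp only [if_pos h]
      rw [← Finset.mul_sum, ← alem_orth hp (cl D (ig g))]
      congr 1
      rw [Finset.mul_sum]
      refine Finset.sum_congr rfl fun κ _ => ?_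
      unfold phc
      rw [rwb_cl D g h.1 κ, ep_add hp]
    · simp only [if_neg h]
      exact Finset.sum_const_zero
  have h2 : ∑ g ∈ Fintype.piFinset (fun _ : JT p ϖ => Z.powerset),
      (if Dj g then wg g * (if cl D (ig g) = 0 ∧ Q (ig g) (jg g) (kg g) then 1 else 0) else 0) =
      ∑ i ∈ XF p Z, ∑ j ∈ XF p i.support, ∑ k ∈ XF p i.support,
        Wt ϖ i * (if cl D i = 0 ∧ Q i j k then 1 else 0) := by
    have h := famj (ϖ := ϖ) Z (fun i j k => if cl D i = 0 ∧ Q i j k then (1 : ℂ) else 0)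
    have e1 : ∀ g : JT p ϖ → Finset (Pl K), (if Dj g then ((wg g : ℝ) : ℂ) *
        (if cl D (ig g) = 0 ∧ Q (ig g) (jg g) (kg g) then (1 : ℂ) else 0) else 0) =
        (((if Dj g then wg g * (if cl D (ig g) = 0 ∧ Q (ig g) (jg g) (kg g) then 1 else 0)
          else 0 : ℝ)) : ℂ) := by
      intro g
      split_ifs <;> push_cast <;> rfl
    have e2 : ∀ i j k : Pl K →₀ ZMod p, ((Wt ϖ i : ℝ) : ℂ) *
        (if cl D i = 0 ∧ Q i j k then (1 : ℂ) else 0) =
        (((Wt ϖ i * (if cl D i = 0 ∧ Q i j k then 1 else 0) : ℝ)) : ℂ) := by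
      intro i j k
      split_ifs <;> push_cast <;> rfl
    simp only [e1, e2] at h
    exact_mod_cast h
  rw [h1]
  refine (norm_sum_le _ _).trans ?_
  have h3 : ∀ g ∈ Fintype.piFinset (fun _ : JT p ϖ => Z.powerset),
      ‖if Dj g ∧ C g then ((wg g : ℝ) : ℂ) * (ep p (ph D (PJ p ϖ) ![1, u] g) *
          (if cl D (ig g) = 0 then (p : ℂ) ^ D.r else 0)) else 0‖ ≤
      (p : ℝ) ^ D.r *
      (if Dj g then wg g * (if cl D (ig g) = 0 ∧ Q (ig g) (jg g) (kg g) then 1 else 0) else 0) := by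
    intro g _
    have hnn : 0 ≤ (p : ℝ) ^ D.r *
        (if Dj g then wg g * (if cl D (ig g) = 0 ∧ Q (ig g) (jg g) (kg g) then 1 else 0)
          else 0) := by
      have := rwb_wg0 g
      split_ifs
      · positivity
      · simp
      · simp
    by_cases h : Dj g ∧ C g
    · by_cases h0 : cl D (ig g) = 0
      · rw [if_pos h, if_pos h0, if_pos h.1, if_pos ⟨h0, hQ g h.1 h.2⟩, norm_mul, norm_mul,
          ep_norm, Complex.norm_real, Real.norm_eq_abs, abs_of_nonneg (rwb_wg0 g), norm_pow,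
          Complex.norm_natCast]
        exact le_of_eq (by ring)
      · rw [if_pos h, if_neg h0, mul_zero, mul_zero, norm_zero]
        exact hnn
    · rw [if_neg h, norm_zero]
      exact hnn
  refine (Finset.sum_le_sum h3).trans ?_
  rw [← Finset.mul_sum, h2]
  refine mul_le_mul_of_nonneg_left ?_ (by positivity)
  unfold XC
  rw [Finset.sum_filter]
  refine Finset.sum_le_sum fun i _ => ?_
  have e3 : ∑ j ∈ XF p i.support, ∑ k ∈ XF p i.support,
        Wt ϖ i * (if cl D i = 0 ∧ Q i j k then (1 : ℝ) else 0) =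
      Wt ϖ i * if cl D i = 0 then ∑ j ∈ XF p i.support, ∑ k ∈ XF p i.support,
        (if Q i j k then (1 : ℝ) else 0) else 0 := by
    by_cases h0 : cl D i = 0
    · rw [if_pos h0, Finset.mul_sum]
      refine Finset.sum_congr rfl fun j _ => ?_
      rw [Finset.mul_sum]
      refine Finset.sum_congr rfl fun k _ => ?_
      congr 1
      exact if_congr ⟨fun h => h.2, fun h => ⟨h0, h⟩⟩ rfl rfl
    · rw [if_neg h0, mul_zero]
      refine Finset.sum_eq_zero fun j _ => Finset.sum_eq_zero fun k _ => ?_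
      rw [if_neg fun h => h0 h.1, mul_zero]
  rw [e3]
  by_cases h0 : cl D i = 0
  · rw [if_pos h0, if_pos h0, rwb_Wt, mul_comm ((p : ℝ) ^ i.support.card)]
    exact mul_le_mul_of_nonneg_left (hcount i) (Wt_nonneg ϖ i)
  · rw [if_neg h0, if_neg h0, mul_zero]

theorem rowb [NeZero p] (hp : p.Prime) (D : RD0 K p ζ) (Z : Finset (Pl K)) (u : Kˣ) (t : ZMod p) :
    ‖∑ κ : Fin D.r → ZMod p, FS D (PJ p ϖ) ![1, u] (fun a => (a.i : ZMod p) • κ) Z
        (fun g => ∀ a, a ∉ row t → g a = ∅)‖ ≤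
      (p : ℝ) ^ D.r * ∑ i ∈ XC D Z, Wt (p * ϖ) i := by
  refine rwb_gen hp D Z u _ (fun i _ k => ∀ v ∈ i.support, k v = t) ?_ ?_
  · intro g hd hC v hv
    obtain ⟨a, -, ha⟩ := Finset.mem_biUnion.1 (rwb_supp g _ hv)
    have h1 : kg g v = a.t := rwb_apply g hd (fun a => a.t) ha
    have h2 : a ∈ (row t : Finset (JT p ϖ)) := by
      by_contra h
      rw [hC a h] at ha
      exact absurd ha (Finset.notMem_empty _)
    rw [h1]
    exact (Finset.mem_filter.1 h2).2
  · intro i
    refine (Finset.sum_le_sum fun j _ => rwb_one i.support (fun _ => t)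
      (fun k => ∀ v ∈ i.support, k v = t) (fun k h => h)).trans (le_of_eq ?_)
    rw [Finset.sum_const, nsmul_eq_mul, mul_one, rwb_card]

theorem colb [NeZero p] (hp : p.Prime) (D : RD0 K p ζ) (Z : Finset (Pl K)) (u : Kˣ) (c : ZMod p) :
    ‖∑ κ : Fin D.r → ZMod p, FS D (PJ p ϖ) ![1, u] (fun a => (a.i : ZMod p) • κ) Z
        (fun g => ∀ a, a ∉ col c → g a = ∅)‖ ≤
      (p : ℝ) ^ D.r * ∑ i ∈ XC D Z, Wt (p * ϖ) i := by
  refine rwb_gen hp D Z u _ (fun i j _ => ∀ v ∈ i.support, j v = c * i v) ?_ ?_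
  · intro g hd hC v hv
    obtain ⟨a, -, ha⟩ := Finset.mem_biUnion.1 (rwb_supp g _ hv)
    have h1 : jg g v = a.j := rwb_apply g hd (fun a => a.j) ha
    have h3 : ig g v = a.i := rwb_apply g hd (fun a => (a.i : ZMod p)) ha
    have h2 : a ∈ (col c : Finset (JT p ϖ)) := by
      by_contra h
      rw [hC a h] at ha
      exact absurd ha (Finset.notMem_empty _)
    rw [h1, h3]
    exact (Finset.mem_filter.1 h2).2
  · intro i
    rw [Finset.sum_comm]
    refine (Finset.sum_le_sum fun j _ => rwb_one i.support (fun v => c * i v)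
      (fun k => ∀ v ∈ i.support, k v = c * i v) (fun k h => h)).trans (le_of_eq ?_)
    rw [Finset.sum_const, nsmul_eq_mul, mul_one, rwb_card]

end H83.LW
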