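import Pool.Agent.H83.LW.LM
import Pool.Agent.H83.LW.COMB
import Pool.Agent.H83.LW.MONEW
import Pool.Agent.H83.LW.ROWB
import Pool.Agent.H83.LW.COLN
import Pool.Agent.H83.LW.LYB
import Pool.Agent.H83.LW.LYL

/-!
# [H83 LW MONEB] the first moment (assembly, 120-200 lines)

* `hlow_of`: `ly_low` and `lg_low`: `LY D ⊥ w z ≥ Li (gdY D z) - Li (gdY D w) ≥ log log z - C` (`gdY D z ∖ ZY D ⊥ w z ⊆ gdY D w`), so
  `LY D 𝒦 w z ≥ p^(-e) (log log z - C')`, `exp(LY) ≥ c (log z)^(p^(-e))`: `τ = 1 / p^e`.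
* `moneb`: `h = p ϖ`, `Z = ZY D 𝒦 w z`, `λ = LY D 𝒦 w z`, `M = (p - 1) p ϖ` (`≥ 1`), `M0 = ∑_{XC Z} Wt h`. `lm` for `P = PJ p ϖ`, `𝓜 = MM p ϖ`
  (`comb1`, `comb2`), `b = ![1, F u]` (`BSup`: order `0` outside `S0`), `κ a = a.i • κ`: for every `u`, `κ`, and any `ε₁ > 0`, for large `z`:
  `‖FS True - ∑_{S ∈ MM} FS S‖ ≤ ε₁ exp(M λ)`. Sum over `κ` (`p^r` values) and use `‖∑_{S ∈ MM} ∑_κ FS S‖ ≤ ∑_t ‖∑_κ FS (row t)‖ + ∑_c
  ‖∑_κ FS (col c)‖` (`MM = image row ∪ image col`; nonnegative terms: `Finset.sum_union_inter`/`sum_image_le`-type estimates: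
  `∑_{S ∈ A ∪ B} f S ≤ ∑_{S ∈ A} f S + ∑_{S ∈ B} f S`, `∑_{S ∈ univ.image r} f S ≤ ∑_t f (r t)`).
  `rowb`: `≤ p^r M0` each; `colb`: `≤ p^r M0` each.
  Let `u ∈ U`, `κ_u` with `LL v (F u) = dt κ_u (q v)` for all good `v` (`D.rec1 (F u)`: all the terms with `w ∉ S0` vanish since
  `ord w (F u) = 0`). If `κ_u ∉ 𝒦`: `coln` and `ly_split`: `p Li (Z.filter (LL v (F u) = 0)) ≤ λ + C`, so
  `‖∑_κ FS (col c)‖ ≤ p^r exp((p - 1) ϖ (λ + C))`, which is `≤ ε₁ exp(M λ)` for large `z` (`M = p (p-1) ϖ`, `λ → ∞` by `hlow_of`).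
  The number of the `u` with `κ_u ∈ 𝒦` is at most `p^e`: by `hK.rep` there is `a : Fin e → ZMod p` with
  `LL v (F u) = ∑ a j LL v (d j)` for all good `v`, so `c = F u * ∏ (d j)^{-(a j).val}` has `LL v c = 0` for all good `v`, and order `0`
  outside `S0`, so `IsPow p c` (`D.non c`, `F = ∅`); so `F u = ∏ (d j)^{(a j).val} y^p`. Two `u, u'` with the same `a`:
  `F u / F u' = (y / y')^p`, so `F (u u'⁻¹)` is a `p`-th power (`hU.mul`, `hU.one`: `F (u u'⁻¹) F u' z^p = F u`), `u = u'` (`hU.inj`). So `u ↦ a` is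
  injective on these `u`.
  Altogether (`monew`): `#U p^r ∑ Wt #Rl ≤ ∑_u (p p^r M0 + [κ_u ∈ 𝒦] p p^r M0 + p ε₁ exp(M λ) + p^r ε₁ exp(M λ))`, so
  `∑ Wt #Rl ≤ p M0 + (p^e p / #U) M0 + C ε₁ exp(M λ)`, and `exp(M λ) = exp((p - 1) h λ) ≤ C' ∑_{XF Z} Wt h ≤ C' p^r M0` (`ms_low`, `ms_cls`;
  `h ≤ w < nm v` on `Z`). Choose `ε₁` with `C C' p^r ε₁ ≤ ε`.
-/

set_option autoImplicit false

open scoped NumberField
open IsDedekindDomain
open scoped Classical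

noncomputable section

namespace H83.LW

open H63.MA H38.BB

variable {K : Type} [Field K] [NumberField K] {p : ℕ} {ζ : K}

theorem hlow_of (hp : p.Prime) (hp2 : MOne p K) (hζ : IsPrimitiveRoot ζ p) (D : RD0 K p ζ)
    {e : ℕ} {d : Fin e → Kˣ} {𝒦 : Submodule (ZMod p) (Fin D.r → ZMod p)} (hK : DK D e d 𝒦)
    (w : ℝ) : ∃ c τ : ℝ, 0 < c ∧ 0 < τ ∧ ∀ z : ℝ, 3 ≤ z →
      c * Real.log z ^ τ ≤ Real.exp (LY D 𝒦 w z) := by
  obtain ⟨C₁, hC₁, h1⟩ := lg_low D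
  obtain ⟨C₂, hC₂, h2⟩ := ly_low hp hp2 hζ D hK w
  have hp0 : (0 : ℝ) < p := by exact_mod_cast hp.pos
  obtain ⟨C₃, hC₃⟩ : ∃ C₃ : ℝ, C₃ = C₁ + Li (gdY D w) + C₂ := ⟨_, rfl⟩
  obtain ⟨P, hP⟩ : ∃ P : ℝ, P = (p : ℝ) ^ e := ⟨_, rfl⟩
  have hP0 : 0 < P := by rw [hP]; positivity
  refine ⟨Real.exp (-(C₃ / P)), 1 / P, Real.exp_pos _, by positivity, fun z hz => ?_⟩
  have hlog : 0 < Real.log z := Real.log_pos (by linarith)
  have h3 : Li (gdY D z) ≤ LY D ⊥ w z + Li (gdY D w) := by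
    have hsub : gdY D z ⊆ ZY D ⊥ w z ∪ gdY D w := by
      intro v hv
      rw [chr_mem] at hv
      rw [Finset.mem_union, mem_ZY, chr_mem]
      rcases le_or_gt (nm v : ℝ) w with hvw | hvw
      · exact Or.inr ⟨hvw, hv.2⟩
      · refine Or.inl ⟨hv.1, hv.2, hvw, fun κ hκ => ?_⟩
        rw [(Submodule.mem_bot _).1 hκ]
        simp [dt]
    calc Li (gdY D z) ≤ Li (ZY D ⊥ w z ∪ gdY D w) :=
          Finset.sum_le_sum_of_subset_of_nonneg hsub fun v _ _ => by positivity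
      _ ≤ Li (ZY D ⊥ w z) + Li (gdY D w) := by
          have h10 := Finset.sum_union_inter (s₁ := ZY D ⊥ w z) (s₂ := gdY D w)
            (f := fun v : Pl K => 1 / (nm v : ℝ))
          have h11 : 0 ≤ Li (ZY D ⊥ w z ∩ gdY D w) :=
            Finset.sum_nonneg fun v _ => by positivity
          unfold Li at h11 ⊢
          linarith
  have h4 := h1 z hz
  have h5 := h2 z hz
  rw [← hP] at h5
  have h6 : (Real.log (Real.log z) - C₃) / P ≤ LY D 𝒦 w z := by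
    rw [div_le_iff₀ hP0]
    rw [hC₃]
    linarith
  refine le_trans (le_of_eq ?_) (Real.exp_le_exp.2 h6)
  rw [Real.rpow_def_of_pos hlog, ← Real.exp_add]
  congr 1
  field_simp
  ring

private theorem mm_sum {p ϖ : ℕ} [NeZero p] (f : Finset (JT p ϖ) → ℝ) (hf : ∀ S, 0 ≤ f S) :
    ∑ S ∈ MM p ϖ, f S ≤ ∑ t, f (row t) + ∑ c, f (col c) := by
  classical
  have him : ∀ r : ZMod p → Finset (JT p ϖ), ∑ S ∈ Finset.univ.image r, f S ≤ ∑ t, f (r t) := by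
    intro r
    rw [← Finset.sum_fiberwise_of_maps_to (s := Finset.univ) (t := Finset.univ.image r)
      (g := r) (fun t _ => Finset.mem_image_of_mem _ (Finset.mem_univ t)) (fun t => f (r t))]
    refine Finset.sum_le_sum fun S hS => ?_
    obtain ⟨t, _, ht⟩ := Finset.mem_image.1 hS
    rw [← ht]
    exact Finset.single_le_sum (f := fun t' => f (r t')) (fun t' _ => hf _)
      (Finset.mem_filter.2 ⟨Finset.mem_univ t, rfl⟩)
  have h1 := Finset.sum_union_inter (s₁ := Finset.univ.image (row (p := p) (ϖ := ϖ)))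
    (s₂ := Finset.univ.image (col (p := p) (ϖ := ϖ))) (f := f)
  have h2 : 0 ≤ ∑ S ∈ Finset.univ.image (row (p := p) (ϖ := ϖ)) ∩
      Finset.univ.image (col (p := p) (ϖ := ϖ)), f S := Finset.sum_nonneg fun S _ => hf S
  have h3 := him row
  have h4 := him col
  unfold MM
  linarith

/-- the number of the `u` with class in `𝒦` -/
private theorem count_u [NeZero p] (hp : p.Prime) (hζ : IsPrimitiveRoot ζ p)
    (D : RD K p ζ) {e : ℕ} {d : Fin e → Kˣ} {𝒦 : Submodule (ZMod p) (Fin D.r → ZMod p)}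
    (hK : DK D.toRD0 e d 𝒦) {U : Type} [CommGroup U] [Fintype U] (F : U → Kˣ)
    (hU : UR D.toRD0 U F) (κu : U → Fin D.r → ZMod p)
    (hκu : ∀ u v, D.Gd v → D.LL v (F u) = dt (κu u) (D.q v)) :
    (Finset.univ.filter fun u => κu u ∈ 𝒦).card ≤ p ^ e := by
  classical
  have hex : ∀ u, κu u ∈ 𝒦 → ∃ a : Fin e → ZMod p, ∀ v, D.Gd v →
      D.LL v (F u) = ∑ j, a j * D.LL v (d j) := by
    intro u hu
    obtain ⟨a, ha⟩ := hK.rep _ hu
    exact ⟨a, fun v hv => (hκu u v hv).trans (ha v hv)⟩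
  have hcard : (Finset.univ : Finset (Fin e → ZMod p)).card = p ^ e := by
    rw [Finset.card_univ, Fintype.card_fun, ZMod.card, Fintype.card_fin]
  rw [← hcard]
  refine Finset.card_le_card_of_injOn
    (fun u => if h : κu u ∈ 𝒦 then (hex u h).choose else 0) (fun u _ => Finset.mem_coe.2
      (Finset.mem_univ _)) ?_
  intro u hu u' hu' heq
  have h1 : κu u ∈ 𝒦 := (Finset.mem_filter.1 (Finset.mem_coe.1 hu)).2
  have h1' : κu u' ∈ 𝒦 := (Finset.mem_filter.1 (Finset.mem_coe.1 hu')).2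
  simp only [dif_pos h1, dif_pos h1'] at heq
  have h2 := (hex u h1).choose_spec
  have h2' := (hex u' h1').choose_spec
  rw [heq] at h2
  have h3 : ∀ v, D.Gd v → D.LL v (F u * (F u')⁻¹) = 0 := by
    intro v hv
    have hv0 : v ∉ D.S0 := hv.1
    rw [LL_mul hp hζ D.toRD0 hv0, ← zpow_neg_one, LL_zpow hp hζ D.toRD0 hv0, h2 v hv, h2' v hv]
    push_cast
    ring
  have h4 : IsPow p (F u * (F u')⁻¹) := by
    by_contra hnp
    obtain ⟨v, hv, _, _, hne⟩ := D.non _ hnp ∅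
    exact hne (h3 v hv)
  obtain ⟨y, hy⟩ := h4
  obtain ⟨y', hy'⟩ := hU.mul (u * u'⁻¹) u'
  rw [inv_mul_cancel_right] at hy'
  have h5 : F (u * u'⁻¹) = (y * y'⁻¹) ^ p := by
    rw [mul_pow, hy, hy', inv_pow, mul_right_comm (F (u * u'⁻¹) * F u') (y' ^ p) (F u')⁻¹,
      mul_inv_cancel_right, mul_inv_cancel_right]
  have h6 := hU.inj _ ⟨_, h5⟩
  exact mul_inv_eq_one.1 h6

theorem moneb [NeZero p] (hp : p.Prime) (hp2 : MOne p K) (hζ : IsPrimitiveRoot ζ p)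
    (D : RD K p ζ) {e : ℕ} {d : Fin e → Kˣ} {𝒦 : Submodule (ZMod p) (Fin D.r → ZMod p)}
    (hK : DK D.toRD0 e d 𝒦) {U : Type} [CommGroup U] [Fintype U] (F : U → Kˣ)
    (hU : UR D.toRD0 U F) (ϖ : ℕ) (hϖ : 1 ≤ ϖ) (w : ℝ) (hw : ((p * ϖ : ℕ) : ℝ) ≤ w) :
    ∀ ε : ℝ, 0 < ε → ∃ z₀ : ℝ, ∀ z : ℝ, z₀ ≤ z →
      ∑ i ∈ XC D.toRD0 (ZY D.toRD0 𝒦 w z), Wt (p * ϖ) i * (Rl D.toRD0 i).card ≤
        ((p : ℝ) + p * (p : ℝ) ^ e / Fintype.card U + ε) *
          ∑ i ∈ XC D.toRD0 (ZY D.toRD0 𝒦 w z), Wt (p * ϖ) i := by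
  classical
  have hp1 : 1 ≤ p := hp.one_le
  have hp2r : (2 : ℝ) ≤ p := by exact_mod_cast hp.two_le
  have hϖr : (1 : ℝ) ≤ ϖ := by exact_mod_cast hϖ
  obtain ⟨c1, τ, hc1, hτ, hlow⟩ := hlow_of hp hp2 hζ D.toRD0 hK w
  obtain ⟨CS, hCS, hsplit⟩ := ly_split hp hζ D 𝒦 w
  obtain ⟨c0, hc0, hms⟩ := ms_low K p (p * ϖ)
  obtain ⟨M, hM⟩ : ∃ M : ℕ, M = (p - 1) * p * ϖ := ⟨_, rfl⟩
  have hM1 : 1 ≤ M := by
    rw [hM]
    have h1 : 1 ≤ p - 1 := by have := hp.two_le; omega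
    exact Nat.one_le_iff_ne_zero.2 (by positivity)
  have hMr : (M : ℝ) = ((p : ℝ) - 1) * p * ϖ := by
    rw [hM]
    push_cast [Nat.cast_sub hp1]
    ring
  obtain ⟨N, hN⟩ : ∃ N : ℝ, N = (p : ℝ) ^ D.r := ⟨_, rfl⟩
  have hN0 : 0 < N := by rw [hN]; positivity
  obtain ⟨κu, hκu⟩ : ∃ κu : U → Fin D.r → ZMod p,
      ∀ u v, D.Gd v → D.LL v (F u) = dt (κu u) (D.q v) := by
    have h1 : ∀ u, ∃ κ : Fin D.r → ZMod p, ∀ v, D.Gd v → D.LL v (F u) = dt κ (D.q v) := by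
      intro u
      obtain ⟨κ, hκ⟩ := D.rec1 (F u)
      refine ⟨κ, fun v hv => ?_⟩
      rw [hκ v hv, finsum_eq_zero_of_forall_eq_zero fun w' => ?_, add_zero]
      · rfl
      · split_ifs with hw'
        · rfl
        · rw [hU.mem u w' hw']
          simp
    choose κu hκu using h1
    exact ⟨κu, hκu⟩
  have hcount := count_u hp hζ D hK F hU κu hκu
  intro ε hε
  obtain ⟨ε1, hε1⟩ : ∃ ε1 : ℝ, ε1 = ε * c0 / ((1 + p) * N) := ⟨_, rfl⟩
  have hε1pos : 0 < ε1 := by rw [hε1]; positivity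
  obtain ⟨z1, hlm⟩ := lm hp hζ D (PJ p ϖ) 𝒦 w M hM1 (MM p ϖ)
    (fun S hS => by rw [hM]; exact comb1 hp hϖ S hS)
    (fun S hS hc => comb2 hp hϖ S hS (by rw [← hM]; exact hc)) c1 τ hc1 hτ hlow ε1 hε1pos
  obtain ⟨z2, hz2⟩ : ∃ z2 : ℝ, ∀ z, z2 ≤ z →
      Real.exp (((p : ℝ) - 1) * ϖ * CS) / c1 * Real.log z ^ (-τ) ≤ ε1 := by
    have h1 : Filter.Tendsto (fun z : ℝ => Real.exp (((p : ℝ) - 1) * ϖ * CS) / c1 *
        Real.log z ^ (-τ)) Filter.atTop (nhds 0) := by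
      have h2 := ((tendsto_rpow_neg_atTop hτ).comp Real.tendsto_log_atTop).const_mul
        (Real.exp (((p : ℝ) - 1) * ϖ * CS) / c1)
      simpa using h2
    obtain ⟨z2, hz2⟩ := Filter.eventually_atTop.1 (h1.eventually_le_const hε1pos)
    exact ⟨z2, hz2⟩
  refine ⟨max (max z1 z2) 3, fun z hz => ?_⟩
  have hz1 : z1 ≤ z := (le_max_left _ _).trans ((le_max_left _ _).trans hz)
  have hz2' : z2 ≤ z := (le_max_right _ _).trans ((le_max_left _ _).trans hz)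
  have hz3 : 3 ≤ z := (le_max_right _ _).trans hz
  have hL0 : 0 < Real.log z := Real.log_pos (by linarith)
  obtain ⟨Z, hZdef⟩ : ∃ Z : Finset (Pl K), Z = ZY D.toRD0 𝒦 w z := ⟨_, rfl⟩
  have hZgd : ∀ v ∈ Z, D.Gd v := fun v hv => by
    rw [hZdef] at hv
    exact (mem_ZY.1 hv).2.1
  have hZw : ∀ v ∈ Z, ((p * ϖ : ℕ) : ℝ) ≤ nm v := fun v hv => by
    rw [hZdef] at hv
    exact hw.trans (mem_ZY.1 hv).2.2.1.le
  obtain ⟨lam, hlam⟩ : ∃ lam : ℝ, lam = Li Z := ⟨_, rfl⟩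
  have hlamLY : LY D.toRD0 𝒦 w z = lam := by rw [hlam, hZdef]; rfl
  have hlam0 : 0 ≤ lam := by
    rw [hlam]
    exact Finset.sum_nonneg fun v _ => by positivity
  obtain ⟨E, hE⟩ : ∃ E : ℝ, E = Real.exp ((M : ℝ) * lam) := ⟨_, rfl⟩
  have hE0 : 0 < E := by rw [hE]; exact Real.exp_pos _
  have hlmz := hlm z hz1
  rw [hlamLY, ← hE, ← hZdef] at hlmz
  have hspl := hsplit z hz3
  rw [hlamLY, ← hZdef] at hspl
  rw [← hZdef]
  obtain ⟨M0, hM0⟩ : ∃ M0 : ℝ, M0 = ∑ i ∈ XC D.toRD0 Z, Wt (p * ϖ) i := ⟨_, rfl⟩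
  obtain ⟨M1, hM1'⟩ : ∃ M1 : ℝ, M1 = ∑ i ∈ XC D.toRD0 Z, Wt (p * ϖ) i *
    (Rl D.toRD0 i).card := ⟨_, rfl⟩
  rw [← hM0, ← hM1']
  have hM00 : 0 ≤ M0 := by
    rw [hM0]
    exact Finset.sum_nonneg fun i _ => Wt_nonneg _ _
  have hM10 : 0 ≤ M1 := by
    rw [hM1']
    exact Finset.sum_nonneg fun i _ => mul_nonneg (Wt_nonneg _ _) (Nat.cast_nonneg _)
  -- the main terms
  have hrow : ∀ (u : U) (t : ZMod p), ‖∑ κ : Fin D.r → ZMod p, FS D.toRD0 (PJ p ϖ) ![1, F u]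
      (fun a => (a.i : ZMod p) • κ) Z (fun g => ∀ a, a ∉ row t → g a = ∅)‖ ≤ N * M0 := by
    intro u t
    rw [hN, hM0]
    exact rowb hp D.toRD0 Z (F u) t
  have hcol : ∀ (u : U) (c : ZMod p), ‖∑ κ : Fin D.r → ZMod p, FS D.toRD0 (PJ p ϖ) ![1, F u]
      (fun a => (a.i : ZMod p) • κ) Z (fun g => ∀ a, a ∉ col c → g a = ∅)‖ ≤ N * M0 := by
    intro u c
    rw [hN, hM0]
    exact colb hp D.toRD0 Z (F u) c
  have hcardκ : ((Finset.univ : Finset (Fin D.r → ZMod p)).card : ℝ) = N := by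
    rw [Finset.card_univ, Fintype.card_fun, ZMod.card, Fintype.card_fin, hN]
    push_cast
    rfl
  have hexpM : Real.exp (((p : ℝ) - 1) * (p * ϖ : ℕ) * lam) = E := by
    rw [hE, hMr]
    congr 1
    push_cast
    ring
  have hcoln : ∀ (u : U) (c : ZMod p), κu u ∉ 𝒦 → ‖∑ κ : Fin D.r → ZMod p,
      FS D.toRD0 (PJ p ϖ) ![1, F u]
      (fun a => (a.i : ZMod p) • κ) Z (fun g => ∀ a, a ∉ col c → g a = ∅)‖ ≤ N * (ε1 * E) := by
    intro u c hu
    refine (norm_sum_le _ _).trans ?_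
    refine (Finset.sum_le_card_nsmul _ _ (ε1 * E) fun κ _ => ?_).trans ?_
    · refine (coln hp hζ D.toRD0 Z hZgd (F u) c κ).trans ?_
      have h1 : (Z.filter fun v => D.toRD0.LL v (F u) = 0) =
          Z.filter fun v => dt (κu u) (D.q v) = 0 := by
        refine Finset.filter_congr fun v hv => ?_
        rw [hκu u v (hZgd v hv)]
      rw [h1]
      have h2 := hspl (κu u) hu
      have h3 : ((p : ℝ) - 1) * (p * ϖ : ℕ) * Li (Z.filter fun v => dt (κu u) (D.q v) = 0) ≤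
          ((p : ℝ) - 1) * ϖ * (lam + CS) := by
        have h4 : 0 ≤ ((p : ℝ) - 1) * ϖ := by
          have : 0 ≤ (p : ℝ) - 1 := by linarith
          positivity
        calc ((p : ℝ) - 1) * (p * ϖ : ℕ) * Li (Z.filter fun v => dt (κu u) (D.q v) = 0)
            = ((p : ℝ) - 1) * ϖ * (p * Li (Z.filter fun v => dt (κu u) (D.q v) = 0)) := by
              push_cast; ring
          _ ≤ _ := mul_le_mul_of_nonneg_left h2 h4
      refine (Real.exp_le_exp.2 h3).trans ?_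
      have h5 : ((p : ℝ) - 1) * ϖ * (lam + CS) ≤
          ((p : ℝ) - 1) * ϖ * CS + (M * lam) + (-lam) := by
        rw [hMr]
        have h6 : 0 ≤ (((p : ℝ) - 1) * ϖ * ((p : ℝ) - 1) - 1) * lam := by
          refine mul_nonneg ?_ hlam0
          have h7 : (1 : ℝ) ≤ (p : ℝ) - 1 := by linarith
          have h8 : (1 : ℝ) ≤ ((p : ℝ) - 1) * ϖ := by nlinarith
          nlinarith
        nlinarith
      refine (Real.exp_le_exp.2 h5).trans ?_
      rw [Real.exp_add, Real.exp_add, ← hE]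
      have h9 := hlow z hz3
      rw [hlamLY] at h9
      have h10 : Real.exp (-lam) ≤ Real.log z ^ (-τ) / c1 := by
        rw [Real.exp_neg, Real.rpow_neg hL0.le, ← one_div, ← one_div, div_div, one_div, one_div]
        refine inv_anti₀ (mul_pos (Real.rpow_pos_of_pos hL0 _) hc1) ?_
        rw [mul_comm]
        exact h9
      calc Real.exp (((p : ℝ) - 1) * ϖ * CS) * E * Real.exp (-lam)
          ≤ Real.exp (((p : ℝ) - 1) * ϖ * CS) * E * (Real.log z ^ (-τ) / c1) := by gcongr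
        _ = (Real.exp (((p : ℝ) - 1) * ϖ * CS) / c1 * Real.log z ^ (-τ)) * E := by ring
        _ ≤ ε1 * E := mul_le_mul_of_nonneg_right (hz2 z hz2') hE0.le
    · rw [nsmul_eq_mul, hcardκ]
  -- the bound for each `u`
  have hT : ∀ u : U, ‖∑ κ : Fin D.r → ZMod p, FS D.toRD0 (PJ p ϖ) ![1, F u]
      (fun a => (a.i : ZMod p) • κ) Z (fun _ => True)‖ ≤
        N * (ε1 * E) + p * (N * M0) + ((if κu u ∈ 𝒦 then p * (N * M0) else 0) +
          p * (N * (ε1 * E))) := by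
    intro u
    have hb : BSup D.toRD0 ![1, F u] ∅ := by
      refine ⟨fun v hv => absurd hv (Finset.notMem_empty v), fun k v hv _ => ?_⟩
      fin_cases k
      · exact ord_one v
      · exact hU.mem u v hv
    obtain ⟨f, hf⟩ : ∃ f : Finset (JT p ϖ) → ℝ, f = fun S => ‖∑ κ : Fin D.r → ZMod p,
      FS D.toRD0 (PJ p ϖ) ![1, F u] (fun a => (a.i : ZMod p) • κ) Z
        (fun g => ∀ a, a ∉ S → g a = ∅)‖ := ⟨_, rfl⟩
    have h1 : ‖∑ κ : Fin D.r → ZMod p, (FS D.toRD0 (PJ p ϖ) ![1, F u]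
        (fun a => (a.i : ZMod p) • κ) Z (fun _ => True) - ∑ S ∈ MM p ϖ,
          FS D.toRD0 (PJ p ϖ) ![1, F u] (fun a => (a.i : ZMod p) • κ) Z
            (fun g => ∀ a, a ∉ S → g a = ∅))‖ ≤ N * (ε1 * E) := by
      refine (norm_sum_le _ _).trans ?_
      refine (Finset.sum_le_card_nsmul _ _ (ε1 * E) fun κ _ =>
        hlmz ![1, F u] (fun a => (a.i : ZMod p) • κ) hb).trans ?_
      rw [nsmul_eq_mul, hcardκ]
    have h2 : ‖∑ κ : Fin D.r → ZMod p, ∑ S ∈ MM p ϖ,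
          FS D.toRD0 (PJ p ϖ) ![1, F u] (fun a => (a.i : ZMod p) • κ) Z
            (fun g => ∀ a, a ∉ S → g a = ∅)‖ ≤ ∑ t, f (row t) + ∑ c, f (col c) := by
      rw [Finset.sum_comm]
      refine (norm_sum_le _ _).trans ?_
      rw [hf]
      exact mm_sum (fun S => ‖∑ κ : Fin D.r → ZMod p,
        FS D.toRD0 (PJ p ϖ) ![1, F u] (fun a => (a.i : ZMod p) • κ) Z
          (fun g => ∀ a, a ∉ S → g a = ∅)‖) fun S => norm_nonneg _
    have h3 : ∑ t, f (row t) ≤ p * (N * M0) := by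
      refine (Finset.sum_le_card_nsmul _ _ (N * M0) fun t _ => ?_).trans ?_
      · rw [hf]
        exact hrow u t
      · rw [nsmul_eq_mul, Finset.card_univ, ZMod.card]
    have h4 : ∑ c, f (col c) ≤ (if κu u ∈ 𝒦 then p * (N * M0) else 0) +
        p * (N * (ε1 * E)) := by
      split_ifs with hu
      · have h5 : ∑ c, f (col c) ≤ p * (N * M0) := by
          refine (Finset.sum_le_card_nsmul _ _ (N * M0) fun c _ => ?_).trans ?_
          · rw [hf]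
            exact hcol u c
          · rw [nsmul_eq_mul, Finset.card_univ, ZMod.card]
        have h6 : 0 ≤ (p : ℝ) * (N * (ε1 * E)) := by positivity
        linarith
      · have h5 : ∑ c, f (col c) ≤ p * (N * (ε1 * E)) := by
          refine (Finset.sum_le_card_nsmul _ _ (N * (ε1 * E)) fun c _ => ?_).trans ?_
          · rw [hf]
            exact hcoln u c hu
          · rw [nsmul_eq_mul, Finset.card_univ, ZMod.card]
        linarith
    have h7 : (∑ κ : Fin D.r → ZMod p, FS D.toRD0 (PJ p ϖ) ![1, F u]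
        (fun a => (a.i : ZMod p) • κ) Z (fun _ => True)) =
        (∑ κ : Fin D.r → ZMod p, (FS D.toRD0 (PJ p ϖ) ![1, F u]
        (fun a => (a.i : ZMod p) • κ) Z (fun _ => True) - ∑ S ∈ MM p ϖ,
          FS D.toRD0 (PJ p ϖ) ![1, F u] (fun a => (a.i : ZMod p) • κ) Z
            (fun g => ∀ a, a ∉ S → g a = ∅))) +
        ∑ κ : Fin D.r → ZMod p, ∑ S ∈ MM p ϖ,
          FS D.toRD0 (PJ p ϖ) ![1, F u] (fun a => (a.i : ZMod p) • κ) Z
            (fun g => ∀ a, a ∉ S → g a = ∅) := by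
      rw [Finset.sum_sub_distrib]
      ring
    rw [h7]
    refine (norm_add_le _ _).trans ?_
    linarith
  -- assembly
  obtain ⟨V, hV⟩ : ∃ V : ℝ, V = (Fintype.card U : ℝ) := ⟨_, rfl⟩
  have hV1 : 0 < V := by
    rw [hV]
    have : 0 < Fintype.card U := Fintype.card_pos_iff.2 ⟨1⟩
    exact_mod_cast this
  have hmw := monew (ϖ := ϖ) hp hζ D.toRD0 F hU Z hZgd
  have hsum : M1 * (V * N) ≤ V * (N * (ε1 * E) + p * (N * M0)) +
      ((p : ℝ) ^ e * (p * (N * M0)) + V * (p * (N * (ε1 * E)))) := by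
    have h1 : M1 * (V * N) = ‖((M1 * (V * N) : ℝ) : ℂ)‖ := by
      rw [Complex.norm_real, Real.norm_of_nonneg (by positivity)]
    rw [h1]
    have h2 : ((M1 * (V * N) : ℝ) : ℂ) = ∑ u : U, ∑ κ : Fin D.r → ZMod p,
        FS D.toRD0 (PJ p ϖ) ![1, F u] (fun a => (a.i : ZMod p) • κ) Z (fun _ => True) := by
      rw [hM1', hV, hN]
      exact hmw
    rw [h2]
    refine (norm_sum_le _ _).trans ?_
    refine (Finset.sum_le_sum fun u _ => hT u).trans ?_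
    rw [Finset.sum_add_distrib, Finset.sum_add_distrib, Finset.sum_add_distrib, Finset.sum_const,
      Finset.sum_const, Finset.sum_const, nsmul_eq_mul, nsmul_eq_mul, nsmul_eq_mul,
      Finset.card_univ, ← hV, ← Finset.sum_filter, Finset.sum_const, nsmul_eq_mul]
    have h3 : ((Finset.univ.filter fun u => κu u ∈ 𝒦).card : ℝ) ≤ (p : ℝ) ^ e := by
      exact_mod_cast hcount
    have h4 : 0 ≤ (p : ℝ) * (N * M0) := by positivity
    have h5 := mul_le_mul_of_nonneg_right h3 h4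
    linarith
  have hEM : c0 * E ≤ N * M0 := by
    have h1 := hms Z
    rw [← hlam, hexpM] at h1
    refine h1.trans ?_
    rw [hN, hM0]
    exact ms_cls hp D.toRD0 (p * ϖ) Z hZw
  have h11 : (1 + p) * ε1 * E ≤ ε * M0 := by
    have h12 : (1 + (p : ℝ)) * ε1 * E = ε / N * (c0 * E) := by
      rw [hε1]
      field_simp
    rw [h12]
    calc ε / N * (c0 * E) ≤ ε / N * (N * M0) := by gcongr
      _ = ε * M0 := by field_simp
  have h13 : M1 * (V * N) ≤ (((p : ℝ) + p * (p : ℝ) ^ e / V + ε) * M0) * (V * N) := by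
    refine hsum.trans ?_
    have h14 : (((p : ℝ) + p * (p : ℝ) ^ e / V + ε) * M0) * (V * N) =
        V * (p * (N * M0)) + (p : ℝ) ^ e * (p * (N * M0)) + V * N * (ε * M0) := by
      field_simp
    rw [h14]
    have h15 : V * N * ((1 + p) * ε1 * E) ≤ V * N * (ε * M0) := by gcongr
    linarith
  rw [← hV]
  exact le_of_mul_le_mul_right h13 (by positivity)

end H83.LW
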