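import Pool.Agent.H83.LW.RLP

/-!
# [H83 LW NRMT] fixed units are norms of units (two theorems, 100-160 lines)

* `norm_of_rel'`: the proof of `norm_of_rel` in `MA/KumF` with a stronger conclusion. `kumF_core` there is proved from `norm_index` with the
  subgroup `((UT TL).map (Nm K L)).subgroupOf (UT T)`: its elements are norms of elements `y ∈ UT TL`, `TL` = the primes of `L` over `T`
  (`kumF_exTL`). So repeat `kumF_core` with the conclusion `∀ x ∈ I, ∃ y : Lˣ, Nm K L y = x ∧ ∀ w, (∀ v ∈ T, ¬ Over w v) → ord w y = 0`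
  and then `norm_of_rel` (copy; or derive it: `norm_of_rel` shows that the element is in `I`).
* `good_norm`: `T = S0 ∪ supp i`, `X = supp i`; `nsp p ζ (xx i) T = X` (`nsp_xx`), `ClOne T` (take `pi v` for `v ∉ T`), `hT`: `D.above`,
  `hr`: `ord v (xx i) = 0` for `v ∉ T` (`ord_xx`), `hc`: `ps_xx`. `h1`: let `k, k'` be two relations on `UT T`; cut off outside `X` they are
  elements of `Rl D i` (as finitely supported functions), a `ZMod p`-vector space with `p` elements, so of dimension one: `a k + a' k' = 0` on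
  `X` for some `(a, a') ≠ (0, 0)`. `hB`: `B v (xx i) δ = ord v δ LL v (xx i) - ord v (xx i) LL v δ = 0` (`bform`). `norm_of_rel'` gives `y` with
  `Nm y = δ`, of order `0` at all primes of `L` not over `T`. Let `w` be over `v ∈ X`: `p ∤ ord v (xx i)` (`ord_xx`, `0 < (i v).val < p`), so
  by `ram_case` (`MA/KumC`) `w` is the only prime over `v` and `ord w (inc c) = p ord v c` for `c ∈ Kˣ`; hence `ord w (au s y) = ord w y` for
  all `s` (`nonsplit_stable` in `MA/KumB` or so), and by `kum_norm` (`MA/KumA`) `0 = p ord v δ = ord w (inc (Nm y)) = ∑_{s} ord w (au s y) = p ord w y`. So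
  `ord w y = 0`. Hence `y` has order `0` at all primes not over `S0`.
-/

set_option autoImplicit false

open scoped NumberField
open IsDedekindDomain
open scoped Classical

noncomputable section

namespace H83.LW

open H63.MA H38.BB

private theorem nrmt_core {K : Type} [Field K] [NumberField K] {L : Type} [Field L] [NumberField L]
    [Algebra K L] {p : ℕ} (hp : p.Prime) (hp2 : MOne p K) {ζ : K} (hζ : IsPrimitiveRoot ζ p)
    {c : Kˣ} (H : Kum p K ζ c L) (T : Finset (Pl K)) (hcl : ClOne T)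
    (hT : ∀ v, Above p v → v ∈ T) (hr : ∀ v : Pl K, ¬ (p : ℤ) ∣ ord v c → v ∈ T)
    (hc : Prim p c) :
    ∃ (φ : Additive (UT T) →+ (nsp p ζ c T → ZMod p)) (I : AddSubgroup (Additive (UT T))),
      (∀ x v, φ x v = B p ζ v.1 c (x.toMul : Kˣ)) ∧ I ≤ φ.ker ∧
      I.index * p = p ^ (nsp p ζ c T).card ∧
      ∀ x ∈ I, ∃ y : Lˣ, Nm K L y = (x.toMul : Kˣ) ∧
        ∀ w : Pl L, (∀ v ∈ T, ¬ Over w v) → ord w y = 0 := by
  classical
  obtain ⟨TL, hTL⟩ := kumF_exTL (L := L) T
  obtain ⟨hle, hidx⟩ := norm_index hp hp2 hζ H T TL hTL hcl hT hr hc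
  have hnA : ∀ v : nsp p ζ c T, ¬ Above p v.1 := by
    intro v
    have := v.2
    unfold nsp at this
    exact (Finset.mem_filter.1 this).2.1
  let φ : Additive (UT T) →+ (nsp p ζ c T → ZMod p) :=
    { toFun := fun x v => B p ζ v.1 c (x.toMul : Kˣ)
      map_zero' := by
        funext v
        exact B_one_right hp hζ (hnA v) c
      map_add' := by
        intro x y
        funext v
        exact B_mul_right hp hζ (hnA v) c _ _ }
  refine ⟨φ, Subgroup.toAddSubgroup (((UT TL).map (Nm K L)).subgroupOf (UT T)),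
    fun x v => rfl, ?_, ?_, ?_⟩
  · intro x hx
    change x.toMul ∈ ((UT TL).map (Nm K L)).subgroupOf (UT T) at hx
    rw [Subgroup.mem_subgroupOf, Subgroup.mem_map] at hx
    obtain ⟨y, _, hy⟩ := hx
    rw [AddMonoidHom.mem_ker]
    funext v
    change B p ζ v.1 c (x.toMul : Kˣ) = 0
    rw [← hy]
    exact B_norm hp hp2 hζ H (hnA v) y
  · rw [Subgroup.index_toAddSubgroup]
    exact hidx
  · intro x hx
    change x.toMul ∈ ((UT TL).map (Nm K L)).subgroupOf (UT T) at hx
    rw [Subgroup.mem_subgroupOf, Subgroup.mem_map] at hx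
    obtain ⟨y, hyT, hy⟩ := hx
    refine ⟨y, hy, fun w hw => ?_⟩
    rw [mem_UT] at hyT
    refine hyT w fun hwT => ?_
    obtain ⟨v, hv, hvw⟩ := (hTL w).1 hwT
    exact hw v hv hvw

theorem norm_of_rel' {K : Type} [Field K] [NumberField K] {L : Type} [Field L] [NumberField L]
    [Algebra K L] {p : ℕ} (hp : p.Prime) (hp2 : MOne p K) {ζ : K} (hζ : IsPrimitiveRoot ζ p)
    {c : Kˣ} (H : Kum p K ζ c L) (T : Finset (Pl K)) (hcl : ClOne T)
    (hT : ∀ v, Above p v → v ∈ T) (hr : ∀ v : Pl K, ¬ (p : ℤ) ∣ ord v c → v ∈ T)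
    (hc : Prim p c)
    (h1 : ∀ k k' : Pl K → ZMod p,
      (∀ x ∈ UT T, ∑ v ∈ nsp p ζ c T, k v * B p ζ v c x = 0) →
      (∀ x ∈ UT T, ∑ v ∈ nsp p ζ c T, k' v * B p ζ v c x = 0) →
      ∃ a a' : ZMod p, (a ≠ 0 ∨ a' ≠ 0) ∧ ∀ v ∈ nsp p ζ c T, a * k v + a' * k' v = 0)
    (b : Kˣ) (hb : b ∈ UT T) (hB : ∀ v ∈ nsp p ζ c T, B p ζ v c b = 0) :
    ∃ y : Lˣ, Nm K L y = b ∧ ∀ w : Pl L, (∀ v ∈ T, ¬ Over w v) → ord w y = 0 := by
  classical
  have : Fact p.Prime := ⟨hp⟩
  obtain ⟨φ, I, hφ, hI, hidx, hIy⟩ := nrmt_core hp hp2 hζ H T hcl hT hr hc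
  have hIpos : 0 < I.index := by
    rcases Nat.eq_zero_or_pos I.index with h | h
    · rw [h, zero_mul] at hidx
      exact absurd hidx.symm (pow_pos hp.pos _).ne'
    · exact h
  let W : Submodule (ZMod p) (nsp p ζ c T → ZMod p) := AddSubgroup.toZModSubmodule p φ.range
  have hrel : ∀ f ∈ W.dualAnnihilator, ∀ g ∈ W.dualAnnihilator,
      ∃ a a' : ZMod p, (a ≠ 0 ∨ a' ≠ 0) ∧ a • f + a' • g = 0 := by
    intro f hf g hg
    obtain ⟨k, hk, hkf⟩ := kumF_dual (nsp p ζ c T) f
    obtain ⟨k', hk', hkg⟩ := kumF_dual (nsp p ζ c T) g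
    have hz : ∀ (f : Module.Dual (ZMod p) (nsp p ζ c T → ZMod p)) (k : Pl K → ZMod p),
        f ∈ W.dualAnnihilator →
        (∀ y : Pl K → ZMod p, f (fun v => y v) = ∑ v ∈ nsp p ζ c T, k v * y v) →
        ∀ x ∈ UT T, ∑ v ∈ nsp p ζ c T, k v * B p ζ v c x = 0 := by
      intro f k hf hkf x hx
      have h1 := hkf (fun v => B p ζ v c x)
      rw [← h1]
      have h2 : (fun v : nsp p ζ c T => B p ζ v c x) = φ (Additive.ofMul ⟨x, hx⟩) := by
        funext v
        rw [hφ]
        rfl
      rw [h2]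
      rw [Submodule.mem_dualAnnihilator] at hf
      exact hf _ ⟨_, rfl⟩
    obtain ⟨a, a', haa, hrl⟩ := h1 k k' (hz f k hf hkf) (hz g k' hg hkg)
    refine ⟨a, a', haa, ?_⟩
    ext1 v
    apply LinearMap.ext_ring
    have e1 := hkf (fun w => if w = v.1 then 1 else 0)
    have e2 := hkg (fun w => if w = v.1 then 1 else 0)
    have e3 : (fun w : nsp p ζ c T => (if w.1 = v.1 then 1 else 0 : ZMod p)) =
        LinearMap.single (ZMod p) (fun _ => ZMod p) v 1 := by
      funext w
      rw [LinearMap.single_apply, Pi.single_apply]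
      simp only [Subtype.ext_iff]
    rw [e3] at e1 e2
    rw [LinearMap.comp_apply, LinearMap.zero_comp, LinearMap.zero_apply, LinearMap.add_apply,
      LinearMap.smul_apply, LinearMap.smul_apply, e1, e2]
    simp only [mul_ite, mul_one, mul_zero, Finset.sum_ite_eq', v.2, if_true, smul_eq_mul]
    exact hrl v.1 v.2
  have hdim : Module.finrank (ZMod p) W.dualAnnihilator ≤ 1 := by
    by_cases hbot : W.dualAnnihilator = ⊥
    · rw [hbot]; simp
    · obtain ⟨f, hf, hf0⟩ := Submodule.exists_mem_ne_zero_of_ne_bot hbot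
      refine finrank_le_one (⟨f, hf⟩ : W.dualAnnihilator) ?_
      rintro ⟨g, hg⟩
      obtain ⟨a, a', haa, h⟩ := hrel f hf g hg
      have ha' : a' ≠ 0 := by
        rintro rfl
        rw [zero_smul, add_zero] at h
        rcases haa with h3 | h3
        · exact hf0 ((smul_eq_zero.1 h).resolve_left h3)
        · exact h3 rfl
      refine ⟨-(a'⁻¹ * a), ?_⟩
      apply Subtype.ext
      change (-(a'⁻¹ * a)) • f = g
      have h4 : a' • g = -(a • f) := by rw [eq_neg_iff_add_eq_zero, add_comm]; exact h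
      have h5 : a'⁻¹ * a' = 1 := inv_mul_cancel₀ ha'
      apply LinearMap.ext
      intro z
      have h6 := congrArg (fun l : Module.Dual (ZMod p) (nsp p ζ c T → ZMod p) => l z) h4
      simp only [LinearMap.smul_apply, LinearMap.neg_apply, smul_eq_mul] at h6 ⊢
      linear_combination (-a'⁻¹) * h6 + (g z) * h5
  have hsum : Module.finrank (ZMod p) W + Module.finrank (ZMod p) W.dualAnnihilator =
      (nsp p ζ c T).card := by
    rw [Subspace.finrank_add_finrank_dualAnnihilator_eq, Module.finrank_fintype_fun_eq_card,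
      Fintype.card_coe]
  have hcardW : Nat.card φ.range = p ^ Module.finrank (ZMod p) W := by
    have := Module.natCard_eq_pow_finrank (K := ZMod p) (V := W)
    rw [Nat.card_zmod] at this
    exact this
  have h3 : Nat.card φ.range ∣ I.index := by
    rw [← AddSubgroup.index_ker]
    exact AddSubgroup.index_dvd_of_le hI
  have h4 : I.index * p ≤ Nat.card φ.range * p := by
    rw [hidx, hcardW, ← pow_succ]
    exact Nat.pow_le_pow_right hp.pos (by omega)
  have h5 : Nat.card φ.range = I.index :=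
    le_antisymm (Nat.le_of_dvd hIpos h3) (Nat.le_of_mul_le_mul_right h4 hp.pos)
  rw [← AddSubgroup.index_ker] at h5
  have h6 := AddSubgroup.relIndex_mul_index hI
  rw [h5] at h6
  have h7 : I.relIndex φ.ker = 1 := by
    have : I.relIndex φ.ker * I.index = 1 * I.index := by rw [h6, one_mul]
    exact Nat.eq_of_mul_eq_mul_right hIpos this
  rw [AddSubgroup.relIndex_eq_one] at h7
  have h8 : Additive.ofMul (⟨b, hb⟩ : UT T) ∈ φ.ker := by
    rw [AddMonoidHom.mem_ker]
    funext v
    rw [hφ]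
    exact hB v.1 v.2
  exact hIy _ (h7 h8)


private theorem nrmt_sub {K : Type} [Field K] [NumberField K] {p : ℕ} {ζ : K} [NeZero p]
    (hp : p.Prime) (D : RD0 K p ζ) (i : Pl K →₀ ZMod p) (hgood : (Rl D i).card = p)
    (k k' : Pl K →₀ ZMod p) (hk : IsRl D i k) (hk' : IsRl D i k') :
    ∃ a a' : ZMod p, (a ≠ 0 ∨ a' ≠ 0) ∧ a • k + a' • k' = 0 := by
  have hF : Fact p.Prime := ⟨hp⟩
  let M : Submodule (ZMod p) (Pl K →₀ ZMod p) :=
    { carrier := {k | IsRl D i k}
      add_mem' := by
        rintro k k' ⟨h1, h2⟩ ⟨h1', h2'⟩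
        refine ⟨fun v hv => ?_, fun n hn => ?_⟩
        · rcases Finset.mem_union.1 (Finsupp.support_add hv) with h | h
          · exact h1 h
          · exact h1' h
        · have e : ∀ v ∈ i.support, (k + k') v * B p ζ v (xx D i) n =
              k v * B p ζ v (xx D i) n + k' v * B p ζ v (xx D i) n := fun v _ => by
            rw [Finsupp.add_apply, add_mul]
          rw [Finset.sum_congr rfl e, Finset.sum_add_distrib, h2 n hn, h2' n hn, add_zero]
      zero_mem' := by
        refine ⟨by simp, fun n _ => ?_⟩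
        refine Finset.sum_eq_zero fun v _ => ?_
        rw [Finsupp.zero_apply, zero_mul]
      smul_mem' := by
        rintro c k ⟨h1, h2⟩
        refine ⟨fun v hv => h1 (Finsupp.support_smul hv), fun n hn => ?_⟩
        have e : ∀ v ∈ i.support, (c • k) v * B p ζ v (xx D i) n =
              c * (k v * B p ζ v (xx D i) n) := fun v _ => by
          rw [Finsupp.smul_apply, smul_eq_mul, mul_assoc]
        rw [Finset.sum_congr rfl e, ← Finset.mul_sum, h2 n hn, mul_zero] }
  have hM : (M : Set (Pl K →₀ ZMod p)) = ↑(Rl D i) := by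
    ext k
    have e1 : k ∈ (M : Set (Pl K →₀ ZMod p)) ↔ IsRl D i k := Iff.rfl
    rw [e1, Finset.mem_coe]
    unfold Rl
    rw [Finset.mem_filter, mem_XF]
    exact ⟨fun h => ⟨h.1, h⟩, fun h => h.2⟩
  have hfin : (M : Set (Pl K →₀ ZMod p)).Finite := by
    rw [hM]
    exact Finset.finite_toSet _
  have : Finite M := hfin.to_subtype
  have hcard : Nat.card M = (Rl D i).card := by
    have e1 : Nat.card M = (M : Set (Pl K →₀ ZMod p)).ncard := Nat.card_coe_set_eq _
    rw [e1, hM, Set.ncard_coe_finset]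
  have hpow : Nat.card M = p ^ Module.finrank (ZMod p) M := by
    rw [Module.natCard_eq_pow_finrank (K := ZMod p) (V := M), Nat.card_zmod]
  have h1 : Module.finrank (ZMod p) M = 1 := by
    rw [hcard, hgood] at hpow
    have h2 : p ^ 1 = p ^ Module.finrank (ZMod p) M := by rw [pow_one]; exact hpow
    exact (Nat.pow_right_injective hp.two_le h2).symm
  obtain ⟨v, _, hv⟩ := finrank_eq_one_iff'.1 h1
  obtain ⟨c, hc⟩ := hv ⟨k, hk⟩
  obtain ⟨c', hc'⟩ := hv ⟨k', hk'⟩
  have e1 : c • (v : Pl K →₀ ZMod p) = k := congrArg Subtype.val hc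
  have e2 : c' • (v : Pl K →₀ ZMod p) = k' := congrArg Subtype.val hc'
  by_cases h : c' = 0 ∧ c = 0
  · refine ⟨1, 0, Or.inl one_ne_zero, ?_⟩
    rw [← e1, h.2, zero_smul, smul_zero, zero_smul, add_zero]
  · refine ⟨c', -c, ?_, ?_⟩
    · by_contra hcon
      rw [not_or, not_not, not_not] at hcon
      exact h ⟨hcon.1, neg_eq_zero.1 hcon.2⟩
    · rw [← e1, ← e2, smul_smul, smul_smul, ← add_smul, neg_mul, mul_comm c' c, add_neg_cancel,
        zero_smul]

theorem good_norm {K : Type} [Field K] [NumberField K] {L : Type} [Field L] [NumberField L]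
    [Algebra K L] {p : ℕ} [NeZero p] (hp : p.Prime) (hp2 : MOne p K) {ζ : K}
    (hζ : IsPrimitiveRoot ζ p) (D : RD0 K p ζ) (i : Pl K →₀ ZMod p)
    (hi : ∀ v ∈ i.support, v ∉ D.S0) (hcl : cl D i = 0) (hgood : (Rl D i).card = p)
    (H : Kum p K ζ (xx D i) L) (δ : Kˣ) (hδ : ∀ v, v ∉ D.S0 → ord v δ = 0)
    (hδX : ∀ v ∈ i.support, D.LL v δ = 0) :
    ∃ y : Lˣ, Nm K L y = δ ∧ ∀ w : Pl L, (∀ v ∈ D.S0, ¬ Over w v) → ord w y = 0 := by
  have hps := ps_xx hp D i hi hcl
  have hnsp := nsp_xx hp hζ D i hi hcl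
  have hk : ∀ k : Pl K → ZMod p,
      (∀ x ∈ UT (D.S0 ∪ i.support), ∑ v ∈ nsp p ζ (xx D i) (D.S0 ∪ i.support),
        k v * B p ζ v (xx D i) x = 0) →
      ∃ kf : Pl K →₀ ZMod p, IsRl D i kf ∧ ∀ v ∈ i.support, kf v = k v := by
    intro k hk
    rw [hnsp] at hk
    have h0 : ∀ v ∈ i.support, (Finsupp.onFinset i.support (fun v => if v ∈ i.support then k v else 0)
        (fun v hv => by
          by_contra h
          exact hv (if_neg h)) : Pl K →₀ ZMod p) v = k v := by
      intro v hv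
      rw [Finsupp.onFinset_apply, if_pos hv]
    refine ⟨_, ⟨Finsupp.support_onFinset_subset, fun n hn => ?_⟩, h0⟩
    have h1 := hk n (by
      rw [mem_UT]
      intro v hv
      rw [Finset.mem_union, not_or] at hv
      exact hn v hv.1 hv.2)
    refine Eq.trans (Finset.sum_congr rfl fun v hv => ?_) h1
    rw [h0 v hv]
  obtain ⟨y, hy, hyT⟩ := norm_of_rel' hp hp2 hζ H (D.S0 ∪ i.support)
    (fun v hv => by
      rw [Finset.mem_union, not_or] at hv
      refine ⟨D.pi v, D.pi_self v hv.1, fun w hw hwv => ?_⟩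
      rw [Finset.mem_union, not_or] at hw
      exact D.pi_ne v w hv.1 hw.1 hwv)
    (fun v hv => Finset.mem_union_left _ (D.above v hv))
    (fun v hv => by
      by_contra h
      rw [Finset.mem_union, not_or] at h
      rw [ord_xx D i hi h.1, Finsupp.notMem_support_iff.1 h.2, ZMod.val_zero] at hv
      exact hv (by simp))
    hps.1
    (fun k k' h h' => by
      obtain ⟨kf, h1, h2⟩ := hk k h
      obtain ⟨kf', h1', h2'⟩ := hk k' h'
      obtain ⟨a, a', haa, h3⟩ := nrmt_sub hp D i hgood kf kf' h1 h1'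
      refine ⟨a, a', haa, fun v hv => ?_⟩
      rw [hnsp] at hv
      have h4 := DFunLike.congr_fun h3 v
      rw [Finsupp.add_apply, Finsupp.smul_apply, Finsupp.smul_apply, smul_eq_mul, smul_eq_mul,
        Finsupp.zero_apply, h2 v hv, h2' v hv] at h4
      exact h4)
    δ
    (by
      rw [mem_UT]
      intro v hv
      rw [Finset.mem_union, not_or] at hv
      exact hδ v hv.1)
    (by
      intro v hv
      rw [hnsp] at hv
      rw [bform hp hζ D (hi v hv), hδ v (hi v hv), hδX v hv]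
      simp)
  refine ⟨y, hy, fun w hw => ?_⟩
  obtain ⟨v, hv⟩ := exists_below (K := K) w
  by_cases hvT : v ∈ D.S0 ∪ i.support
  · rcases Finset.mem_union.1 hvT with h | h
    · exact absurd hv (hw v h)
    · have hvS := hi v h
      have ha : ¬ Above p v := fun h' => hvS (D.above v h')
      have hnd : ¬ (p : ℤ) ∣ ord v (xx D i) := by
        rw [ord_xx D i hi hvS]
        intro hd
        have h1 : p ∣ (i v).val := by exact_mod_cast hd
        have h2 : 0 < (i v).val := Nat.pos_of_ne_zero fun h0 =>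
          (Finsupp.mem_support_iff.1 h) ((ZMod.val_eq_zero _).1 h0)
        exact absurd (Nat.le_of_dvd h2 h1) (not_le.2 (ZMod.val_lt _))
      obtain ⟨hg, hx, _⟩ := ram_case hp hζ H ha hnd hv
      have hst : ∀ j : ℕ, ord w (au (H.σ ^ j) y) = ord w y := by
        intro j
        induction j with
        | zero => rw [pow_zero, kumF_au_one]
        | succ j ih => rw [pow_succ', kumF_au_mul, nonsplit_stable hp hζ H hg hv, ih]
      have h1 := hx (Nm K L y)
      rw [kum_norm hp hζ H, ord_prod, Finset.sum_congr rfl fun j _ => hst j, Finset.sum_const,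
        Finset.card_range, nsmul_eq_mul, hy, hδ v hvS, mul_zero] at h1
      exact (mul_eq_zero.1 h1).resolve_left (by exact_mod_cast hp.ne_zero)
  · refine hyT w fun v' hv' hvw => ?_
    rw [← below_unique hv hvw] at hv'
    exact hvT hv'

end H83.LW
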