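import Pool.Agent.H38.TD.PRes
import Pool.Agent.H63.MA.KumD
import Pool.Agent.H63.MA.RDef
import Pool.Agent.H63.MA.SymB

/-!
# [H83 LW ODD] the two languages for places and Kummer extensions (five theorems, 80-130 lines)

Both `H38.TD.Pl` and `H63.MA.Pl` are `HeightOneSpectrum (𝓞 K)`.
* `od_eq`: `od v x = -toAdd (v.valuationOfNeZero x)` and `ord v x = -WithZero.log (v.valuation K x)`
  (`valuationOfNeZero_eq`: the coercion of `valuationOfNeZero` is the valuation).
* `ov_iff`: `Ov w v` is `w.asIdeal.under (𝓞 K) = v.asIdeal`, `Over w v` is `w.asIdeal.comap (algebraMap …) = v.asIdeal` (`Iff.rfl` or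
  `Ideal.under_def`).
* `kum_of`: from `DX : KX K M p ζ x`: `γ = β`, `σ = DX.γ`; `[M : K] = #Gal(M/K) = p` (`IsGalois.card_aut_eq_finrank`; `DX.gen`, `DX.ord`:
  the group is `zpowers γ`, of order `orderOf γ = p`). Give it as `Nonempty (Σ' …)`-free statement: a `Kum` with `H.γ = DX.β`.
* `nm_nU`: `nU K M y` and `Nm K M y` are the same element (`Units.map (Algebra.norm K)` in both cases; see `MA/KumA`).
* `spl_of_LL`: `v ∉ D.S0`, `ord v x = 0`, `D.LL v x = 0`: then `lg p ζ v x = 0` (definition of `LL`), by `lg_eq_zero_iff` (`MA/SymB`)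
  `x = y^p o` with `One1 v o` (in the sense of `H63.MA`: `v.valuation K (o - 1) < 1`); write `o = a / b` with `a, b ∈ 𝓞 K ∖ v`
  (`HeightOneSpectrum.exists_…` or `exists_int_div`/`exists_int` in the two libraries; `ord v o = 0`), then `a - b ∈ v`, so
  `o ∈ H38.TD.One1 v` and `x ∈ PRes p v`; `spl_of_pres` (`H38/TD/PRes`).
-/

set_option autoImplicit false

open scoped NumberField Pointwise
open IsDedekindDomain

noncomputable section

namespace H83.LW

theorem od_eq {K : Type} [Field K] [NumberField K] (v : H63.MA.Pl K) (x : Kˣ) :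
    H38.TD.od v x = H63.MA.ord v x := by
  unfold H63.MA.ord H38.TD.od
  rw [← HeightOneSpectrum.valuationOfNeZero_eq v x]
  rfl

theorem ov_iff {K M : Type} [Field K] [NumberField K] [Field M] [NumberField M] [Algebra K M]
    (w : H63.MA.Pl M) (v : H63.MA.Pl K) : H38.TD.Ov w v ↔ H63.MA.Over w v :=
  Iff.rfl

theorem kum_of {K M : Type} [Field K] [NumberField K] [Field M] [NumberField M] [Algebra K M]
    [IsGalois K M] {p : ℕ} {ζ : K} {x : Kˣ} (hp : p.Prime) (DX : H38.TD.KX K M p ζ x) :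
    Nonempty (H63.MA.Kum p K ζ x M) := by
  have hfd : FiniteDimensional K M := Module.Finite.of_restrictScalars_finite ℚ K M
  refine ⟨⟨DX.β, DX.γ, ?_, DX.act, ?_⟩⟩
  · have h := congrArg (fun u : Mˣ => (u : M)) DX.pow
    simpa [H38.TD.iU] using h
  · rw [← IsGalois.card_aut_eq_finrank K M]
    have h1 : orderOf DX.γ = Nat.card (Gal(M/K)) := by
      apply orderOf_eq_card_of_forall_mem_zpowers
      intro g
      obtain ⟨k, hk⟩ := DX.gen g
      exact ⟨k, by rw [hk]; exact zpow_natCast _ _⟩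
    rw [← h1, DX.ord]

theorem nm_nU {K M : Type} [Field K] [Field M] [Algebra K M] (y : Mˣ) :
    H38.TD.nU K M y = H63.MA.Nm K M y := by
  rfl

theorem spl_of_LL {K M : Type} [Field K] [NumberField K] [Field M] [NumberField M] [Algebra K M]
    [IsGalois K M] {p : ℕ} {ζ : K} {x : Kˣ} (hp : p.Prime) (hζ : IsPrimitiveRoot ζ p)
    (DX : H38.TD.KX K M p ζ x) (D : H63.MA.RD0 K p ζ) (v : H63.MA.Pl K) (hv : v ∉ D.S0)
    (hx : H63.MA.ord v x = 0) (hL : D.LL v x = 0) : H38.TD.Spl DX.γ v := by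
  have hab : ¬ H63.MA.Above p v := fun h => hv (D.above v h)
  unfold H63.MA.RD0.LL at hL
  rw [hx, neg_zero, zpow_zero, mul_one] at hL
  obtain ⟨y, hy, hone⟩ := (H63.MA.lg_eq_zero_iff hp hζ hab hx).1 hL
  have ho := H63.MA.ord_of_one1 hone
  obtain ⟨a, b, ha, hb, hoab⟩ := H38.TD.exists_int_div v (x * (y ^ p)⁻¹) (by rw [od_eq]; exact ho)
  refine H38.TD.spl_of_pres DX hp hζ v hab ?_
  have hmem : x * (y ^ p)⁻¹ ∈ H38.TD.One1 v := by
    refine ⟨a, b, ha, hb, ?_, hoab⟩
    rw [← HeightOneSpectrum.valuation_lt_one_iff_mem (K := K)]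
    have e1 : algebraMap (𝓞 K) K (a - b) = ((x * (y ^ p)⁻¹ : Kˣ) - 1 : K) * algebraMap (𝓞 K) K b := by
      rw [map_sub, sub_mul, one_mul]
      congr 1
      exact hoab.symm
    change v.valuation K (algebraMap (𝓞 K) K (a - b)) < 1
    rw [e1, map_mul]
    have h2 : v.valuation K (algebraMap (𝓞 K) K b) ≤ 1 := v.valuation_le_one b
    exact mul_lt_one_of_lt_of_le hone h2
  have e : x = (x * (y ^ p)⁻¹) * y ^ p := by group
  unfold H38.TD.PRes
  rw [e]
  exact Subgroup.mul_mem_sup hmem ⟨y, rfl⟩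

end H83.LW
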