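import Pool.Agent.H38.TD.Sel

/-!
# [H83 LW SELT] choice of units, with given seeds (80-130 lines: copy of `sel`)

The same as `sel` in `H38/TD/Sel.lean` (copy the proof), started with the given elements `e0 j ∈ Mˣ`, `j ∈ J0`, whose norms are independent
modulo `⟨x⟩ (Kˣ)^p`: in the proof the extension starts with the empty family `Empty.elim`; start instead with
`g0 : J0 → Kˣ ⧸ QXs p x`, `g0 j = q (nU K M (e0 j))`, which satisfies `Ind p g0` by `hind` (a relation `∏ g0 j ^ n j = 1` means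
`∏ nU (e0 j)^(n j) ∈ QXs p x`, i.e. `= x^l y^p`). In every step the number of the elements already chosen is larger by `#J0`
(`hJ`). At the end the relation `(∏ nU (e0 j)^{n0 j}) (∏ nU (e j)^{n j}) (∏ f j^{m j}) = x^l y^p` gives `p ∣` all exponents.
-/

open scoped NumberField Pointwise
open H38.ML H38.TD

noncomputable section

namespace H83.LW

variable {K M : Type} [Field K] [NumberField K] [Field M] [NumberField M] [Algebra K M]
  [IsGalois K M] {p : ℕ} {ζ : K} {x : Kˣ}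

private theorem selt_le {p a b c d : ℕ} (hp : 0 < p) (h : p ^ a ≤ p ^ b * c) (hd : d + b ≤ a) :
    p ^ d ≤ c := by
  have h1 : p ^ b * p ^ d ≤ p ^ b * c := by
    calc p ^ b * p ^ d = p ^ (d + b) := by rw [pow_add, mul_comm]
      _ ≤ p ^ a := Nat.pow_le_pow_right hp hd
      _ ≤ _ := h
  exact Nat.le_of_mul_le_mul_left h1 (by positivity)

private theorem selt_ac0 {G : Type*} [CommGroup G] (a b c d e : G)
    (h : ((a * b) * c) * (d * e) = 1) : (((d * a) * b) * c) * e = 1 := by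
  rw [← h]
  simp only [mul_comm, mul_left_comm, mul_assoc]

private theorem selt_empty {Q ι κ : Type} [CommGroup Q] [Fintype ι] [Fintype κ] [IsEmpty κ] (p : ℕ)
    (g : ι → Q) (hg : Ind p g) (g' : κ → Q) : Ind p (Sum.elim g g') := by
  intro n hn
  rw [Fintype.prod_sum_type, Fintype.prod_empty (ι := κ), mul_one] at hn
  have h1 := hg (fun i => n (Sum.inl i)) hn
  rintro (i | k)
  · exact h1 i
  · exact isEmptyElim k

omit [IsGalois K M] in
private theorem selt_tu_mono {T T' : Set (H38.TD.Pl K)} (h : T ⊆ T') {e : Mˣ} (he : e ∈ TU K M T) :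
    e ∈ TU K M T' := fun Q hQ => he Q fun v hv => hQ v (h hv)

private theorem selt_tk_mono {K : Type} [Field K] [NumberField K] {T T' : Set (H38.TD.Pl K)} (h : T ⊆ T')
    {e : Kˣ} (he : e ∈ TK K T) : e ∈ TK K T' := fun v hv => he v fun h1 => hv (h h1)

private theorem selt_ac {G : Type*} [CommGroup G] (z a b c d e : G)
    (h : z * (((a * b) * c) * (d * e)) = 1) : ((((z * d) * a) * b) * c) * e = 1 := by
  rw [← h]
  simp only [mul_comm, mul_left_comm, mul_assoc]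

theorem sel' (D : KX K M p ζ x) (hp : p.Prime) (hζ : IsPrimitiveRoot ζ p)
    (htc : NumberField.IsTotallyComplex K) (s : ℕ)
    (hs : s + 1 ≤ Fintype.card (NumberField.InfinitePlace K)) (S : Set (H38.TD.Pl K))
    (hS : S.Finite)
    (sd : SD K S) (hSp : ∀ v : H38.TD.Pl K, v ∉ S → ((p : ℕ) : 𝓞 K) ∉ v.asIdeal)
    (supp R sp : Finset (H38.TD.Pl K)) (hsupp : ∀ v ∈ supp, v ∉ S) (hR : ∀ v ∈ R, v ∉ S)
    (hdis : Disjoint supp R) (hx : x ∈ TK K (S ∪ (supp : Set (H38.TD.Pl K))))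
    (hsp : ∀ v, v ∈ sp ↔ v ∈ R ∧ Spl D.γ v)
    {J0 J1 J2 J3 : Type} [Fintype J0] [Fintype J1] [Fintype J2] [Fintype J3] (e0 : J0 → Mˣ)
    (hind : ∀ n : J0 → ℤ, (∃ (l : ℤ) (y : Kˣ), ∏ j, nU K M (e0 j) ^ n j = x ^ l * y ^ p) →
      ∀ j, (p : ℤ) ∣ n j)
    (hJ : Fintype.card J0 + Fintype.card J1 + Fintype.card J2 + Fintype.card J3 + 1 ≤ s)
    (hflag : IsEmpty J2 ∨ supp.card ≤ sp.card) :
    ∃ (e : (J1 ⊕ J2) ⊕ Fin sp.card → Mˣ) (f : J3 ⊕ Fin (supp.card + R.card - sp.card) → Kˣ),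
      (∀ j, e (Sum.inl (Sum.inl j)) ∈ TU K M (S ∪ (supp : Set (H38.TD.Pl K)))) ∧
      (∀ j, e (Sum.inl (Sum.inr j)) ∈ TU K M (S ∪ (R : Set (H38.TD.Pl K)))) ∧
      (∀ j, e j ∈ TU K M (S ∪ (supp : Set (H38.TD.Pl K)) ∪ (R : Set (H38.TD.Pl K)))) ∧
      (∀ j, f (Sum.inl j) ∈ TK K S) ∧
      (∀ j, f j ∈ TK K (S ∪ (supp : Set (H38.TD.Pl K)) ∪ (R : Set (H38.TD.Pl K)))) ∧
      ∀ (n0 : J0 → ℤ) (n : (J1 ⊕ J2) ⊕ Fin sp.card → ℤ)
        (m : J3 ⊕ Fin (supp.card + R.card - sp.card) → ℤ)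
        (l : ℤ) (y : Kˣ), (∏ j, nU K M (e0 j) ^ n0 j) *
          ((∏ j, nU K M (e j) ^ n j) * (∏ j, f j ^ m j)) = x ^ l * y ^ p →
        (∀ j, (p : ℤ) ∣ n0 j) ∧ (∀ j, (p : ℤ) ∣ n j) ∧ (∀ j, (p : ℤ) ∣ m j) := by
  classical
  have hp0 : 0 < p := hp.pos
  set q : Kˣ →* Kˣ ⧸ QXs p x := QuotientGroup.mk' (QXs p x) with hq
  have hpow : ∀ y : Kˣ, q (y ^ p) = 1 := by
    intro y
    rw [hq, QuotientGroup.mk'_apply, QuotientGroup.eq_one_iff]
    exact Subgroup.mem_sup_right ⟨y, rfl⟩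
  have hQ : ∀ z : Kˣ ⧸ QXs p x, z ^ p = 1 := by
    intro z
    obtain ⟨y, rfl⟩ := QuotientGroup.mk'_surjective (QXs p x) z
    rw [← map_pow]
    exact hpow y
  have hodx : ∀ v, v ∉ S → v ∉ supp → (p : ℤ) ∣ od v x := by
    intro v h1 h2
    have h3 : od v x = 0 := by
      apply hx v
      rintro (h | h)
      · exact h1 h
      · exact h2 h
    rw [h3]
    exact dvd_zero _
  have hspR : sp ⊆ R := fun v hv => ((hsp v).1 hv).1
  have hspc : sp.card ≤ R.card := Finset.card_le_card hspR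
  -- step 1
  have b3 := us p hp x htc s hs S hS sd ∅ (by simp)
  rw [Finset.coe_empty, Set.union_empty, Finset.card_empty, add_zero] at b3
  obtain ⟨g0, hg0d⟩ : ∃ g0 : J0 → Kˣ ⧸ QXs p x, ∀ j, g0 j = q (nU K M (e0 j)) :=
    ⟨_, fun _ => rfl⟩
  have hg0 : Ind p g0 := by
    intro n hn j
    refine hind n ?_ j
    have e1 : ∏ j, g0 j ^ n j = q (∏ j, nU K M (e0 j) ^ n j) := by
      rw [map_prod]
      refine Finset.prod_congr rfl fun j _ => ?_
      rw [map_zpow, hg0d]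
    rw [e1, hq, QuotientGroup.mk'_apply, QuotientGroup.eq_one_iff] at hn
    obtain ⟨a, ⟨l, rfl⟩, b, ⟨y, rfl⟩, hab⟩ := Subgroup.mem_sup.1 hn
    exact ⟨l, y, hab.symm⟩
  obtain ⟨g3, hg3B, hg3⟩ := ind_extend (κ := J3) p hp hQ _ hg0
    ((TK K S).map (QuotientGroup.mk' (QXs p x)))
    (selt_le (a := s) (b := 1) hp0 (by rw [pow_one]; exact b3)
      (by omega))
  -- step 2
  have b1 := la4 D hp hζ htc s hs S sd hSp (S ∪ (supp : Set (H38.TD.Pl K)))
    (hS.union supp.finite_toSet) Set.subset_union_left ∅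
    (fun v hv _ => hodx v (fun h => hv (Or.inl h)) (fun h => hv (Or.inr h))) ∅
    (by simp)
  rw [Finset.card_empty, add_zero] at b1
  obtain ⟨g1, hg1B, hg1⟩ := ind_extend (κ := J1) p hp hQ _ hg3 _
    (selt_le hp0 b1 (by
      rw [Fintype.card_sum]
      omega))
  -- step 3
  have s3 : ∃ g2 : J2 → Kˣ ⧸ QXs p x, (∀ k, g2 k ∈
      ((TU K M (S ∪ (R : Set (H38.TD.Pl K)))).map (nU K M)).map (QuotientGroup.mk' (QXs p x))) ∧
      Ind p (Sum.elim (Sum.elim (Sum.elim g0 g3) g1) g2) := by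
    rcases hflag with hE | hle
    · exact ⟨fun k => hE.elim k, fun k => hE.elim k, selt_empty p _ hg1 _⟩
    · have b2 := la4 D hp hζ htc s hs S sd hSp (S ∪ (R : Set (H38.TD.Pl K)))
        (hS.union R.finite_toSet) Set.subset_union_left supp
        (fun v hv hv2 => hodx v (fun h => hv (Or.inl h)) hv2) sp
        (fun v hv => ⟨Or.inr (hspR hv), ((hsp v).1 hv).2⟩)
      refine ind_extend (κ := J2) p hp hQ _ hg1 _ (selt_le hp0 b2 ?_)
      rw [Fintype.card_sum, Fintype.card_sum]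
      omega
  obtain ⟨g2, hg2B, hg2⟩ := s3
  -- step 4
  have b4 := la4 D hp hζ htc s hs S sd hSp (S ∪ (supp : Set (H38.TD.Pl K)) ∪ (R : Set (H38.TD.Pl K)))
    ((hS.union supp.finite_toSet).union R.finite_toSet)
    (Set.subset_union_left.trans Set.subset_union_left) ∅
    (fun v hv _ => hodx v (fun h => hv (Or.inl (Or.inl h))) (fun h => hv (Or.inl (Or.inr h)))) sp
    (fun v hv => ⟨Or.inr (hspR hv), ((hsp v).1 hv).2⟩)
  rw [Finset.card_empty] at b4
  obtain ⟨g4, hg4B, hg4⟩ := ind_extend (κ := Fin sp.card) p hp hQ _ hg2 _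
    (selt_le hp0 b4 (by
      rw [Fintype.card_sum, Fintype.card_sum, Fintype.card_sum, Fintype.card_fin]
      omega))
  -- step 5
  have b5 := us p hp x htc s hs S hS sd (supp ∪ R) (by
    intro v hv
    rcases Finset.mem_union.1 hv with h | h
    · exact hsupp v h
    · exact hR v h)
  rw [Finset.coe_union, ← Set.union_assoc, Finset.card_union_of_disjoint hdis] at b5
  obtain ⟨g5, hg5B, hg5⟩ := ind_extend (κ := Fin (supp.card + R.card - sp.card)) p hp hQ _ hg4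
    ((TK K (S ∪ (supp : Set (H38.TD.Pl K)) ∪ (R : Set (H38.TD.Pl K)))).map (QuotientGroup.mk' (QXs p x)))
    (selt_le (a := s + (supp.card + R.card)) (b := 1) hp0 (by rw [pow_one]; exact b5) (by
      rw [Fintype.card_sum, Fintype.card_sum, Fintype.card_sum, Fintype.card_sum,
        Fintype.card_fin, Fintype.card_fin]
      omega))
  -- representatives
  have r3 : ∀ j, ∃ u : Kˣ, u ∈ TK K S ∧ q u = g3 j := fun j => hg3B j
  have r5 : ∀ j, ∃ u : Kˣ, u ∈ TK K (S ∪ (supp : Set (H38.TD.Pl K)) ∪ (R : Set (H38.TD.Pl K))) ∧ q u = g5 j :=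
    fun j => hg5B j
  have r1 : ∀ j, ∃ e : Mˣ, e ∈ TU K M (S ∪ (supp : Set (H38.TD.Pl K))) ∧ q (nU K M e) = g1 j := by
    intro j
    obtain ⟨u, ⟨e, he, rfl⟩, hu⟩ := hg1B j
    exact ⟨e, he, hu⟩
  have r2 : ∀ j, ∃ e : Mˣ, e ∈ TU K M (S ∪ (R : Set (H38.TD.Pl K))) ∧ q (nU K M e) = g2 j := by
    intro j
    obtain ⟨u, ⟨e, he, rfl⟩, hu⟩ := hg2B j
    exact ⟨e, he, hu⟩
  have r4 : ∀ j, ∃ e : Mˣ, e ∈ TU K M (S ∪ (supp : Set (H38.TD.Pl K)) ∪ (R : Set (H38.TD.Pl K))) ∧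
      q (nU K M e) = g4 j := by
    intro j
    obtain ⟨u, ⟨e, he, rfl⟩, hu⟩ := hg4B j
    exact ⟨e, he, hu⟩
  choose f3 hf3 hf3' using r3
  choose f5 hf5 hf5' using r5
  choose e1 he1 he1' using r1
  choose e2 he2 he2' using r2
  choose e4 he4 he4' using r4
  refine ⟨Sum.elim (Sum.elim e1 e2) e4, Sum.elim f3 f5, he1, he2, ?_, hf3, ?_, ?_⟩
  · rintro ((j | j) | j)
    · exact selt_tu_mono Set.subset_union_left (he1 j)
    · refine selt_tu_mono ?_ (he2 j)
      rintro v (h | h)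
      · exact Or.inl (Or.inl h)
      · exact Or.inr h
    · exact he4 j
  · rintro (j | j)
    · exact selt_tk_mono (Set.subset_union_left.trans Set.subset_union_left) (hf3 j)
    · exact hf5 j
  · intro n0 n m l y hrel
    have h1 := congrArg q hrel
    have hR1 : q (x ^ l * y ^ p) = 1 := by
      rw [hq, QuotientGroup.mk'_apply, QuotientGroup.eq_one_iff]
      exact Subgroup.mul_mem _ (Subgroup.mem_sup_left ⟨l, rfl⟩) (Subgroup.mem_sup_right ⟨y, rfl⟩)
    rw [hR1, map_mul, map_mul, map_prod, map_prod, map_prod] at h1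
    simp only [map_zpow] at h1
    rw [Fintype.prod_sum_type, Fintype.prod_sum_type, Fintype.prod_sum_type] at h1
    simp only [Sum.elim_inl, Sum.elim_inr, hf3', hf5', he1', he2', he4', ← hg0d] at h1
    have h2 := hg5 (Sum.elim (Sum.elim (Sum.elim (Sum.elim (Sum.elim n0
      (fun j => m (Sum.inl j))) (fun j => n (Sum.inl (Sum.inl j))))
      (fun j => n (Sum.inl (Sum.inr j)))) (fun j => n (Sum.inr j)))
      (fun j => m (Sum.inr j))) (by
        rw [Fintype.prod_sum_type, Fintype.prod_sum_type, Fintype.prod_sum_type,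
          Fintype.prod_sum_type, Fintype.prod_sum_type]
        simp only [Sum.elim_inl, Sum.elim_inr]
        exact selt_ac _ _ _ _ _ _ h1)
    refine ⟨fun j => h2 (Sum.inl (Sum.inl (Sum.inl (Sum.inl (Sum.inl j))))), ?_, ?_⟩
    · rintro ((j | j) | j)
      · exact h2 (Sum.inl (Sum.inl (Sum.inl (Sum.inr j))))
      · exact h2 (Sum.inl (Sum.inl (Sum.inr j)))
      · exact h2 (Sum.inl (Sum.inr j))
    · rintro (j | j)
      · exact h2 (Sum.inl (Sum.inl (Sum.inl (Sum.inl (Sum.inr j)))))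
      · exact h2 (Sum.inr j)

end H83.LW
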