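import Pool.Agent.H83.LW.MASS
import Pool.Agent.H83.LW.EUY
import Pool.Agent.H83.LW.BFORM

/-!
# [H83 LW SMT] the second moment of the short character sums (120-180 lines)

`Z = ZY D 𝒦 w z`, `y = (log z)^A`, `Y₁ = ZY D ⊥ w y` (so `nm v ≤ y` on `Y₁`), `MT = ∑_{XF Z} Wt h`. Expand
`‖Gr D Y₁ i j‖² = ∑_{v, v' ∈ Y₁ ∖ supp i} ep(j LL v (xx i)) conj(ep(j LL v' (xx i))) / (nm v nm v')` and exchange the sums: for given `v, v'` the
sum is over the `i ∈ XF Z` with `v, v' ∉ supp i`, i.e. `i ∈ XF (Z ∖ {v, v'})`.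
* `v = v'`: the inner sum is `∑ Wt h i / (nm v)² ≤ MT / (nm v)²`; `∑_v 1 / (nm v)² ≤ ∑' v, (nm v)^(-2)`, a constant.
* `v ≠ v'`: `LL v (xx i) - LL v' (xx i) = ∑_{u ∈ supp i} i u (LL v (pi u) - LL v' (pi u))` (`LL_xx` in `BFORM`), so
  `ep(j LL v (xx i)) conj(ep(j LL v' (xx i))) = ∏_{u ∈ supp i} ep(i u f u)` with `f u = j LL v (pi u) - j LL v' (pi u)`, and by `ms_fac` the sum
  over `i ∈ XF (Z ∖ {v, v'})` is `∏_{u ∈ Z ∖ {v, v'}} (1 + (h / nm u) ∑_{c ≠ 0} ep(c f u))`. `prd` with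
  `f' u = h ∑_{c ≠ 0} ep(c f u)`, `A = h p`: norm `≤ C exp(h ∑_{c ≠ 0} ∑_{u ∈ Z ∖ {v, v'}} Re ep(c f u) / nm u)`. Here
  `c f u = fE D {v, v'} μ 0 u`, `μ v = c j`, `μ v' = - c j`, `μ ≠ 0`; `v, v' ∉ S0`. `euy` with
  `η`: `≤ η log (nm v nm v') + C' ≤ 2 η log y + C'`. So the inner sum is `≤ C'' y^(2 η h p)`.
  Sum over `v, v'`: `(Li Y₁)² ≤ (log log y + C)²` (`lg_up`, `Y₁ ⊆ gdY D y`, `y ≥ 3`). With `η = τ / (8 h p (|A| + 1))`: total
  `≤ C (log z)^(τ/4) (log log y + C)² ≤ (log z)^τ c' ≤ MT` for large `z`, because `MT ≥ c'' exp((p - 1) h LY) ≥ c'' exp(LY) ≥ c'' c (log z)^τ`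
  (`ms_low`, `hlow`, `(p - 1) h ≥ 1`, `LY ≥ 0`).
(For `A ≤ 0` the statement is also true: then `y ≤ 1` and `Y₁ = ∅`; it is enough to treat `A > 0`, or use `hA`.)
-/

set_option autoImplicit false

open scoped NumberField
open IsDedekindDomain
open scoped Classical

noncomputable section

namespace H83.LW

open H63.MA H38.BB

variable {K : Type} [Field K] [NumberField K] {p : ℕ} {ζ : K}

private theorem smt_nm0 (v : Pl K) : (0 : ℝ) < nm v := by
  have := eula_two_le v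
  linarith

private theorem smt_sq (K : Type) [Field K] [NumberField K] : ∃ S : ℝ, 0 ≤ S ∧
    ∀ Z : Finset (Pl K), ∑ v ∈ Z, 1 / (nm v : ℝ) ^ 2 ≤ S := by
  have hs := pz_summable K (s := 2) (by norm_num)
  refine ⟨∑' v : Pl K, (nm v : ℝ) ^ (-(2 : ℝ)), tsum_nonneg fun v => by positivity, fun Z => ?_⟩
  refine le_trans (le_of_eq (Finset.sum_congr rfl fun v _ => ?_))
    (hs.sum_le_tsum Z fun v _ => by positivity)
  rw [Real.rpow_neg (Nat.cast_nonneg _), one_div]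
  congr 1
  exact_mod_cast (Real.rpow_natCast (nm v : ℝ) 2).symm

/-- the inner sum for two different primes -/
private theorem smt_off [NeZero p] (hp : p.Prime) (hζ : IsPrimitiveRoot ζ p) (D : RD K p ζ)
    (𝒦 : Submodule (ZMod p) (Fin D.r → ZMod p)) (w : ℝ) (h : ℕ) (η : ℝ) (hη : 0 < η) :
    ∃ C C' : ℝ, 0 < C ∧ 0 < C' ∧ ∀ z : ℝ, 3 ≤ z → ∀ (y : ℝ), 1 ≤ y → ∀ v v' : Pl K, v ≠ v' →
      v ∉ D.S0 → v' ∉ D.S0 → (nm v : ℝ) ≤ y → (nm v' : ℝ) ≤ y → ∀ j : ZMod p, j ≠ 0 →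
      ‖∑ i ∈ XF p (ZY D.toRD0 𝒦 w z \ {v, v'}), ((Wt h i : ℝ) : ℂ) *
        ep p (j * D.toRD0.LL v (xx D.toRD0 i) - j * D.toRD0.LL v' (xx D.toRD0 i))‖ ≤
        C * Real.exp (h * p * (2 * η * Real.log y + C')) := by
  obtain ⟨C, hC, hprd⟩ := prd K ((h : ℝ) * p)
  obtain ⟨C', hC', heuy⟩ := euy hp hζ D 𝒦 w η hη
  refine ⟨C, C', by linarith, hC', fun z hz y hy v v' hvv hv hv' hny hny' j hj => ?_⟩
  obtain ⟨f, hf⟩ : ∃ f : Pl K → ZMod p, f = fun u => j * D.toRD0.LL v (D.toRD0.pi u) -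
      j * D.toRD0.LL v' (D.toRD0.pi u) := ⟨_, rfl⟩
  obtain ⟨ψ, hψ⟩ : ∃ ψ : Pl K → ZMod p → ℂ, ψ = fun u c =>
      if c = 0 then 1 else (h : ℂ) / (nm u : ℂ) * ep p (c * f u) := ⟨_, rfl⟩
  have hψ0 : ∀ u, ψ u 0 = 1 := by
    intro u
    rw [hψ]
    exact if_pos rfl
  have h1 : ∀ i : Pl K →₀ ZMod p, ((Wt h i : ℝ) : ℂ) *
      ep p (j * D.toRD0.LL v (xx D.toRD0 i) - j * D.toRD0.LL v' (xx D.toRD0 i)) =
      ∏ u ∈ i.support, ψ u (i u) := by
    intro i
    have e1 : j * D.toRD0.LL v (xx D.toRD0 i) - j * D.toRD0.LL v' (xx D.toRD0 i) =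
        ∑ u ∈ i.support, i u * f u := by
      rw [LL_xx hp hζ D.toRD0 i hv, LL_xx hp hζ D.toRD0 i hv', Finset.mul_sum, Finset.mul_sum,
        ← Finset.sum_sub_distrib]
      refine Finset.sum_congr rfl fun u _ => ?_
      rw [hf]
      ring
    have e2 : ∀ s : Finset (Pl K), ep p (∑ u ∈ s, i u * f u) = ∏ u ∈ s, ep p (i u * f u) := by
      intro s
      induction s using Finset.induction_on with
      | empty => rw [Finset.sum_empty, Finset.prod_empty, ep_zero]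
      | insert a s ha ih => rw [Finset.sum_insert ha, Finset.prod_insert ha, ep_add hp, ih]
    rw [e1, e2]
    unfold Wt
    rw [Complex.ofReal_prod, ← Finset.prod_mul_distrib]
    refine Finset.prod_congr rfl fun u hu => ?_
    rw [hψ]
    dsimp only
    rw [if_neg (Finsupp.mem_support_iff.1 hu)]
    push_cast
    rfl
  rw [Finset.sum_congr rfl fun i _ => h1 i, ms_fac _ ψ hψ0]
  obtain ⟨F, hF⟩ : ∃ F : Pl K → ℂ, F = fun u => (h : ℂ) *
      ∑ c ∈ Finset.univ.filter (fun c : ZMod p => c ≠ 0), ep p (c * f u) := ⟨_, rfl⟩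
  have hcard : ((Finset.univ.filter (fun c : ZMod p => c ≠ 0)).card : ℝ) ≤ p := by
    have h2 : (Finset.univ.filter (fun c : ZMod p => c ≠ 0)).card ≤ Fintype.card (ZMod p) :=
      Finset.card_le_univ _
    rw [ZMod.card] at h2
    exact_mod_cast h2
  have h2 : ∏ u ∈ ZY D.toRD0 𝒦 w z \ {v, v'},
      (1 + ∑ c ∈ Finset.univ.filter (fun c : ZMod p => c ≠ 0), ψ u c) =
      ∏ u ∈ ZY D.toRD0 𝒦 w z \ {v, v'}, (1 + F u / (nm u : ℂ)) := by
    refine Finset.prod_congr rfl fun u _ => ?_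
    congr 1
    rw [hF]
    dsimp only
    rw [Finset.mul_sum, Finset.sum_div]
    refine Finset.sum_congr rfl fun c hc => ?_
    rw [hψ]
    dsimp only
    rw [if_neg (Finset.mem_filter.1 hc).2]
    ring
  rw [h2]
  have hFn : ∀ u, ‖F u‖ ≤ (h : ℝ) * p := by
    intro u
    rw [hF]
    dsimp only
    rw [norm_mul, Complex.norm_natCast]
    refine mul_le_mul_of_nonneg_left ?_ (Nat.cast_nonneg _)
    refine (norm_sum_le _ _).trans ?_
    refine le_trans (le_of_eq (Finset.sum_congr rfl fun c _ => ep_norm p _)) ?_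
    rw [Finset.sum_const, nsmul_eq_mul, mul_one]
    exact hcard
  refine (hprd _ F hFn).trans ?_
  refine mul_le_mul_of_nonneg_left (Real.exp_le_exp.2 ?_) (by linarith)
  have h3 : ∑ u ∈ ZY D.toRD0 𝒦 w z \ {v, v'}, (F u).re / nm u =
      h * ∑ c ∈ Finset.univ.filter (fun c : ZMod p => c ≠ 0),
        ∑ u ∈ ZY D.toRD0 𝒦 w z \ {v, v'}, (ep p (c * f u)).re / nm u := by
    rw [Finset.sum_comm, Finset.mul_sum]
    refine Finset.sum_congr rfl fun u _ => ?_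
    have e1 : (F u).re = h * ∑ c ∈ Finset.univ.filter (fun c : ZMod p => c ≠ 0),
        (ep p (c * f u)).re := by
      rw [hF]
      dsimp only
      have e2 : (h : ℂ) = ((h : ℝ) : ℂ) := by push_cast; rfl
      rw [e2, Complex.re_ofReal_mul, Complex.re_sum]
    rw [e1, mul_div_assoc, Finset.sum_div]
  rw [h3, mul_assoc]
  refine mul_le_mul_of_nonneg_left ?_ (Nat.cast_nonneg _)
  have hlogy : 0 ≤ Real.log y := Real.log_nonneg hy
  have h4 : ∀ c ∈ Finset.univ.filter (fun c : ZMod p => c ≠ 0),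
      ∑ u ∈ ZY D.toRD0 𝒦 w z \ {v, v'}, (ep p (c * f u)).re / nm u ≤
        2 * η * Real.log y + C' := by
    intro c hc
    have hc0 := (Finset.mem_filter.1 hc).2
    obtain ⟨μ, hμ⟩ : ∃ μ : Pl K → ZMod p, μ = fun x => if x = v then c * j else -(c * j) :=
      ⟨_, rfl⟩
    have h5 := heuy z hz {v, v'} μ 0 (by
      intro x hx
      rw [Finset.mem_insert, Finset.mem_singleton] at hx
      rcases hx with rfl | rfl
      · exact hv
      · exact hv') (Or.inl ⟨v, Finset.mem_insert_self _ _, by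
        rw [hμ]
        dsimp only
        rw [if_pos rfl]
        have : Fact p.Prime := ⟨hp⟩
        exact mul_ne_zero hc0 hj⟩)
    have h6 : ∀ u, fE D.toRD0 {v, v'} μ 0 u = c * f u := by
      intro u
      unfold fE
      have e0 : dt (0 : Fin D.r → ZMod p) (D.toRD0.q u) = 0 := by
        unfold dt
        refine Finset.sum_eq_zero fun k _ => ?_
        rw [Pi.zero_apply, zero_mul]
      rw [e0, add_zero, Finset.sum_pair hvv, hμ, hf]
      dsimp only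
      rw [if_pos rfl, if_neg (Ne.symm hvv)]
      ring
    have h7 : Real.log (nr ({v, v'} : Finset (Pl K))) ≤ 2 * Real.log y := by
      have e1 : nr ({v, v'} : Finset (Pl K)) = nm v * nm v' := by
        unfold nr
        rw [Finset.prod_pair hvv]
      rw [e1, Real.log_mul (smt_nm0 v).ne' (smt_nm0 v').ne']
      have e2 := Real.log_le_log (smt_nm0 v) hny
      have e3 := Real.log_le_log (smt_nm0 v') hny'
      linarith
    have h8 : ∑ u ∈ ZY D.toRD0 𝒦 w z \ {v, v'}, (ep p (c * f u)).re / nm u =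
        ∑ u ∈ ZY D.toRD0 𝒦 w z \ {v, v'}, (ep p (fE D.toRD0 {v, v'} μ 0 u)).re / nm u :=
      Finset.sum_congr rfl fun u _ => by rw [h6]
    rw [h8]
    refine h5.trans ?_
    have h9 := mul_le_mul_of_nonneg_left h7 hη.le
    linarith
  refine (Finset.sum_le_sum h4).trans ?_
  rw [Finset.sum_const, nsmul_eq_mul]
  refine mul_le_mul_of_nonneg_right hcard ?_
  positivity

/-- expansion of the square -/
private theorem smt_expand [NeZero p] (hp : p.Prime) (D : RD0 K p ζ) (h : ℕ)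
    (Z Y : Finset (Pl K)) (j : ZMod p) :
    ((∑ i ∈ XF p Z, Wt h i * ‖Gr D Y i j‖ ^ 2 : ℝ) : ℂ) =
      ∑ v ∈ Y, ∑ v' ∈ Y, (1 / ((nm v : ℂ) * (nm v' : ℂ))) *
        ∑ i ∈ XF p (Z \ {v, v'}), ((Wt h i : ℝ) : ℂ) *
          ep p (j * D.LL v (xx D i) - j * D.LL v' (xx D i)) := by
  have h1 : ∀ i : Pl K →₀ ZMod p, ((Wt h i * ‖Gr D Y i j‖ ^ 2 : ℝ) : ℂ) =
      ∑ v ∈ Y, ∑ v' ∈ Y, if v ∉ i.support ∧ v' ∉ i.support then
        (1 / ((nm v : ℂ) * (nm v' : ℂ))) * (((Wt h i : ℝ) : ℂ) *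
          ep p (j * D.LL v (xx D i) - j * D.LL v' (xx D i))) else 0 := by
    intro i
    have e1 : ((‖Gr D Y i j‖ ^ 2 : ℝ) : ℂ) = Gr D Y i j * (starRingEnd ℂ) (Gr D Y i j) := by
      rw [Complex.mul_conj, Complex.normSq_eq_norm_sq]
    have e2 : Gr D Y i j = ∑ v ∈ Y, if v ∉ i.support then
        ep p (j * D.LL v (xx D i)) / (nm v : ℂ) else 0 := by
      unfold Gr
      rw [← Finset.sum_filter]
      congr 1
      ext v
      rw [Finset.mem_sdiff, Finset.mem_filter]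
    have e3 : (starRingEnd ℂ) (Gr D Y i j) = ∑ v ∈ Y, if v ∉ i.support then
        ep p (-(j * D.LL v (xx D i))) / (nm v : ℂ) else 0 := by
      rw [e2, map_sum]
      refine Finset.sum_congr rfl fun v _ => ?_
      by_cases hv : v ∉ i.support
      · rw [if_pos hv, if_pos hv, map_div₀, bilA_ep_neg hp, Complex.conj_natCast]
      · rw [if_neg hv, if_neg hv, map_zero]
    rw [Complex.ofReal_mul, e1, e3, e2, Finset.sum_mul_sum, Finset.mul_sum]
    refine Finset.sum_congr rfl fun v _ => ?_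
    rw [Finset.mul_sum]
    refine Finset.sum_congr rfl fun v' _ => ?_
    by_cases hv : v ∉ i.support
    · by_cases hv' : v' ∉ i.support
      · rw [if_pos hv, if_pos hv', if_pos ⟨hv, hv'⟩, sub_eq_add_neg, ep_add hp]
        ring
      · rw [if_neg hv', if_neg (show ¬ (v ∉ i.support ∧ v' ∉ i.support) from fun hc => hv' hc.2),
          mul_zero, mul_zero]
    · rw [if_neg hv, if_neg (show ¬ (v ∉ i.support ∧ v' ∉ i.support) from fun hc => hv hc.1),
        zero_mul, mul_zero]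
  rw [Complex.ofReal_sum, Finset.sum_congr rfl fun i _ => h1 i, Finset.sum_comm]
  refine Finset.sum_congr rfl fun v _ => ?_
  rw [Finset.sum_comm]
  refine Finset.sum_congr rfl fun v' _ => ?_
  rw [← Finset.sum_filter, ← Finset.mul_sum]
  congr 1
  refine Finset.sum_congr ?_ fun _ _ => rfl
  ext i
  rw [Finset.mem_filter, mem_XF, mem_XF]
  constructor
  · rintro ⟨h2, h3, h4⟩ u hu
    rw [Finset.mem_sdiff, Finset.mem_insert, Finset.mem_singleton]
    refine ⟨h2 hu, ?_⟩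
    rintro (rfl | rfl)
    · exact h3 hu
    · exact h4 hu
  · intro h2
    refine ⟨h2.trans Finset.sdiff_subset, fun h3 => ?_, fun h3 => ?_⟩
    · have h4 := (Finset.mem_sdiff.1 (h2 h3)).2
      exact h4 (Finset.mem_insert_self _ _)
    · have h4 := (Finset.mem_sdiff.1 (h2 h3)).2
      exact h4 (Finset.mem_insert_of_mem (Finset.mem_singleton_self _))

private theorem smt_ev (C₀ M A κ τ : ℝ) (hκ : 0 < κ) (hτ : 0 < τ) (hA : 0 < A) :
    ∃ z₀ : ℝ, ∀ z : ℝ, z₀ ≤ z → 3 ≤ z ∧ 3 ≤ Real.log z ^ A ∧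
      (A * Real.log (Real.log z) + C₀) ^ 2 * (M * Real.log z ^ (τ / 4)) ≤
        κ * Real.log z ^ τ := by
  have hl := Real.tendsto_log_atTop
  have hll : Filter.Tendsto (fun z : ℝ => Real.log (Real.log z)) Filter.atTop Filter.atTop :=
    hl.comp hl
  have e1 : ∀ᶠ z : ℝ in Filter.atTop, 3 ≤ z := Filter.eventually_ge_atTop 3
  have e2 : ∀ᶠ z : ℝ in Filter.atTop, 3 ≤ Real.log z ^ A :=
    ((tendsto_rpow_atTop hA).comp hl).eventually_ge_atTop 3
  have e3 : ∀ᶠ z : ℝ in Filter.atTop, 1 ≤ Real.log z := hl.eventually_ge_atTop 1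
  have e4 : ∀ᶠ z : ℝ in Filter.atTop, |C₀| ≤ Real.log (Real.log z) := hll.eventually_ge_atTop _
  have hM : (0 : ℝ) < κ / ((A + 1) ^ 2 * (|M| + 1)) := by positivity
  have hτ' : 0 < 3 * τ / 4 := by positivity
  have e5 := hl.eventually ((isLittleO_log_rpow_rpow_atTop ((2 : ℕ) : ℝ) hτ').bound hM)
  obtain ⟨z₀, hz₀⟩ := Filter.eventually_atTop.1 (e1.and (e2.and (e3.and (e4.and e5))))
  refine ⟨z₀, fun z hz => ?_⟩
  obtain ⟨f1, f2, f3, f4, f5⟩ := hz₀ z hz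
  have hlog0 : 0 < Real.log z := by linarith
  have hll0 : 0 ≤ Real.log (Real.log z) := (abs_nonneg _).trans f4
  refine ⟨f1, f2, ?_⟩
  rw [Real.rpow_natCast, Real.norm_of_nonneg (by positivity),
    Real.norm_of_nonneg (Real.rpow_nonneg hlog0.le _)] at f5
  have g1 : |A * Real.log (Real.log z) + C₀| ≤ (A + 1) * Real.log (Real.log z) := by
    have g0 : 0 ≤ A * Real.log (Real.log z) := by positivity
    rw [abs_le]
    constructor
    · linarith [neg_abs_le C₀]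
    · linarith [le_abs_self C₀]
  have g2 : (A * Real.log (Real.log z) + C₀) ^ 2 ≤ ((A + 1) * Real.log (Real.log z)) ^ 2 := by
    rw [← sq_abs]
    exact pow_le_pow_left₀ (abs_nonneg _) g1 2
  have g3 : M * Real.log z ^ (τ / 4) ≤ (|M| + 1) * Real.log z ^ (τ / 4) :=
    mul_le_mul_of_nonneg_right (by linarith [le_abs_self M]) (Real.rpow_nonneg hlog0.le _)
  calc (A * Real.log (Real.log z) + C₀) ^ 2 * (M * Real.log z ^ (τ / 4))
      ≤ (A * Real.log (Real.log z) + C₀) ^ 2 * ((|M| + 1) * Real.log z ^ (τ / 4)) :=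
        mul_le_mul_of_nonneg_left g3 (sq_nonneg _)
    _ ≤ ((A + 1) * Real.log (Real.log z)) ^ 2 * ((|M| + 1) * Real.log z ^ (τ / 4)) :=
        mul_le_mul_of_nonneg_right g2 (by positivity)
    _ = (A + 1) ^ 2 * (|M| + 1) * Real.log (Real.log z) ^ 2 * Real.log z ^ (τ / 4) := by ring
    _ ≤ (A + 1) ^ 2 * (|M| + 1) * (κ / ((A + 1) ^ 2 * (|M| + 1)) * Real.log z ^ (3 * τ / 4)) *
        Real.log z ^ (τ / 4) := by gcongr
    _ = κ * (Real.log z ^ (3 * τ / 4) * Real.log z ^ (τ / 4)) := by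
        have : (A + 1) ^ 2 * (|M| + 1) ≠ 0 := by positivity
        field_simp
    _ = κ * Real.log z ^ τ := by
        rw [← Real.rpow_add hlog0]
        congr 2
        ring

theorem smt [NeZero p] (hp : p.Prime) (hζ : IsPrimitiveRoot ζ p) (D : RD K p ζ)
    (𝒦 : Submodule (ZMod p) (Fin D.r → ZMod p)) (w : ℝ) (c τ : ℝ) (hc : 0 < c) (hτ : 0 < τ)
    (hlow : ∀ z : ℝ, 3 ≤ z → c * Real.log z ^ τ ≤ Real.exp (LY D.toRD0 𝒦 w z)) (h : ℕ)
    (hh : 1 ≤ h) (A : ℝ) (hA : 0 < A) :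
    ∃ C z₀ : ℝ, 0 < C ∧ ∀ z : ℝ, z₀ ≤ z → ∀ j : ZMod p, j ≠ 0 →
      ∑ i ∈ XF p (ZY D.toRD0 𝒦 w z), Wt h i *
          ‖Gr D.toRD0 (ZY D.toRD0 ⊥ w (Real.log z ^ A)) i j‖ ^ 2 ≤
        C * ∑ i ∈ XF p (ZY D.toRD0 𝒦 w z), Wt h i := by
  have hp0 : (0 : ℝ) < p := by exact_mod_cast hp.pos
  have hh0 : (0 : ℝ) < h := by exact_mod_cast hh
  obtain ⟨η, hηd⟩ : ∃ η : ℝ, η = τ / (8 * h * p * (A + 1)) := ⟨_, rfl⟩
  have hη : 0 < η := by
    rw [hηd]
    positivity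
  obtain ⟨S, hS0, hS⟩ := smt_sq K
  obtain ⟨Cp, C', hCp, hC', hoff⟩ := smt_off hp hζ D 𝒦 w h η hη
  obtain ⟨C₀, hC₀, hG⟩ := lg_up D.toRD0
  obtain ⟨c', hc', hM⟩ := ms_low K p h
  obtain ⟨z₀, hz₀⟩ := smt_ev C₀ (Cp * Real.exp (h * p * C')) A (c' * c) τ (by positivity) hτ hA
  refine ⟨S + 1, z₀, by positivity, fun z hz j hj => ?_⟩
  obtain ⟨f1, f2, f3⟩ := hz₀ z hz
  have hlog1 : 1 ≤ Real.log z := by
    rw [Real.le_log_iff_exp_le (by linarith)]
    linarith [Real.exp_one_lt_d9]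
  have hlog0 : 0 < Real.log z := by linarith
  obtain ⟨y, hy⟩ : ∃ y : ℝ, y = Real.log z ^ A := ⟨_, rfl⟩
  rw [← hy] at f2 ⊢
  have hlogy : Real.log y = A * Real.log (Real.log z) := by
    rw [hy, Real.log_rpow hlog0]
  have hy1 : 1 ≤ y := by linarith
  obtain ⟨Z, hZd⟩ : ∃ Z : Finset (Pl K), Z = ZY D.toRD0 𝒦 w z := ⟨_, rfl⟩
  obtain ⟨Y, hYd⟩ : ∃ Y : Finset (Pl K), Y = ZY D.toRD0 ⊥ w y := ⟨_, rfl⟩
  have hYm : ∀ v ∈ Y, (nm v : ℝ) ≤ y ∧ v ∉ D.S0 := by
    intro v hv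
    rw [hYd] at hv
    exact ⟨(mem_ZY.1 hv).1, (mem_ZY.1 hv).2.1.1⟩
  have hYg : Y ⊆ gdY D.toRD0 y := by
    rw [hYd]
    intro v hv
    exact chr_mem.2 ⟨(mem_ZY.1 hv).1, (mem_ZY.1 hv).2.1⟩
  obtain ⟨MT, hMT⟩ : ∃ MT : ℝ, MT = ∑ i ∈ XF p Z, Wt h i := ⟨_, rfl⟩
  obtain ⟨Q, hQ⟩ : ∃ Q : ℝ, Q = Cp * Real.exp (h * p * (2 * η * Real.log y + C')) := ⟨_, rfl⟩
  have hQ0 : 0 ≤ Q := by
    rw [hQ]
    positivity
  have hMT0 : 0 ≤ MT := by
    rw [hMT]
    exact Finset.sum_nonneg fun i _ => Wt_nonneg h i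
  rw [← hZd, ← hYd, ← hMT]
  -- the pairs
  have hpair : ∀ v ∈ Y, ∀ v' ∈ Y, ‖(1 / ((nm v : ℂ) * (nm v' : ℂ))) *
      ∑ i ∈ XF p (Z \ {v, v'}), ((Wt h i : ℝ) : ℂ) *
        ep p (j * D.toRD0.LL v (xx D.toRD0 i) - j * D.toRD0.LL v' (xx D.toRD0 i))‖ ≤
      (if v = v' then MT * (1 / (nm v : ℝ) ^ 2) else 0) +
        1 / (nm v : ℝ) * (1 / (nm v' : ℝ)) * Q := by
    intro v hv v' hv'
    have hn : ‖(1 / ((nm v : ℂ) * (nm v' : ℂ)))‖ = 1 / (nm v : ℝ) * (1 / (nm v' : ℝ)) := by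
      rw [norm_div, norm_mul, Complex.norm_natCast, Complex.norm_natCast, norm_one,
        one_div_mul_one_div]
    rw [norm_mul, hn]
    have hnn : 0 ≤ 1 / (nm v : ℝ) * (1 / (nm v' : ℝ)) := by positivity
    by_cases hvv : v = v'
    · rw [if_pos hvv]
      have h1 : ‖∑ i ∈ XF p (Z \ {v, v'}), ((Wt h i : ℝ) : ℂ) *
          ep p (j * D.toRD0.LL v (xx D.toRD0 i) - j * D.toRD0.LL v' (xx D.toRD0 i))‖ ≤ MT := by
        refine (norm_sum_le _ _).trans ?_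
        rw [hMT]
        refine le_trans (le_of_eq (Finset.sum_congr rfl fun i _ => ?_))
          (Finset.sum_le_sum_of_subset_of_nonneg (f := fun i => Wt h i) ?_
            fun i _ _ => Wt_nonneg h i)
        · rw [norm_mul, ep_norm, mul_one, Complex.norm_real, Real.norm_of_nonneg (Wt_nonneg h i)]
        · intro i hi
          rw [mem_XF] at hi ⊢
          exact hi.trans Finset.sdiff_subset
      have h2 := mul_le_mul_of_nonneg_left h1 hnn
      have h3 : 1 / (nm v : ℝ) * (1 / (nm v' : ℝ)) * MT = MT * (1 / (nm v : ℝ) ^ 2) := by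
        rw [← hvv]
        ring
      have h4 : 0 ≤ 1 / (nm v : ℝ) * (1 / (nm v' : ℝ)) * Q := mul_nonneg hnn hQ0
      linarith
    · rw [if_neg hvv, zero_add]
      refine mul_le_mul_of_nonneg_left ?_ hnn
      rw [hQ, hZd]
      exact hoff z f1 y hy1 v v' hvv (hYm v hv).2 (hYm v' hv').2 (hYm v hv).1 (hYm v' hv').1 j hj
  have hsum : ∑ i ∈ XF p Z, Wt h i * ‖Gr D.toRD0 Y i j‖ ^ 2 ≤
      MT * ∑ v ∈ Y, 1 / (nm v : ℝ) ^ 2 + Li Y * Li Y * Q := by
    have h1 := smt_expand hp D.toRD0 h Z Y j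
    refine (le_abs_self _).trans ?_
    rw [← Real.norm_eq_abs, ← Complex.norm_real, h1]
    refine (norm_sum_le _ _).trans ?_
    refine (Finset.sum_le_sum fun v hv => (norm_sum_le _ _).trans
      (Finset.sum_le_sum fun v' hv' => hpair v hv v' hv')).trans (le_of_eq ?_)
    have h2 : ∀ v ∈ Y, ∑ v' ∈ Y, ((if v = v' then MT * (1 / (nm v : ℝ) ^ 2) else 0) +
        1 / (nm v : ℝ) * (1 / (nm v' : ℝ)) * Q) =
        MT * (1 / (nm v : ℝ) ^ 2) + 1 / (nm v : ℝ) * Li Y * Q := by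
      intro v hv
      rw [Finset.sum_add_distrib, Finset.sum_ite_eq, if_pos hv]
      congr 1
      unfold Li
      rw [Finset.mul_sum, Finset.sum_mul]
    rw [Finset.sum_congr rfl h2, Finset.sum_add_distrib, ← Finset.mul_sum]
    congr 1
    rw [← Finset.sum_mul, ← Finset.sum_mul]
    rfl
  have hLiY : Li Y ≤ A * Real.log (Real.log z) + C₀ := by
    refine (Li_mono hYg).trans ((hG y f2).trans ?_)
    have h1 : Real.log (Real.log y) ≤ Real.log y := by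
      have h2 := Real.log_le_sub_one_of_pos (show 0 < Real.log y from
        Real.log_pos (by linarith))
      linarith
    rw [hlogy] at h1 ⊢
    linarith
  have hQ2 : Q ≤ Cp * Real.exp (h * p * C') * Real.log z ^ (τ / 4) := by
    rw [hQ, hlogy, mul_assoc Cp]
    refine mul_le_mul_of_nonneg_left ?_ hCp.le
    have h1 : Real.log z ^ (τ / 4) = Real.exp (τ / 4 * Real.log (Real.log z)) := by
      rw [Real.rpow_def_of_pos hlog0]
      congr 1
      ring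
    rw [h1, ← Real.exp_add]
    refine Real.exp_le_exp.2 ?_
    have hll0 : 0 ≤ Real.log (Real.log z) := Real.log_nonneg hlog1
    have h2 : h * p * (2 * η * (A * Real.log (Real.log z)) + C') =
        h * p * C' + (2 * η * h * p * A) * Real.log (Real.log z) := by ring
    rw [h2]
    have h3 : 2 * η * h * p * A ≤ τ / 4 := by
      have h4 : 2 * η * h * p * A = τ / 4 * (A / (A + 1)) := by
        rw [hηd]
        field_simp
        ring
      rw [h4]
      have h5 : A / (A + 1) ≤ 1 := by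
        rw [div_le_one (by positivity)]
        linarith
      have h6 : 0 ≤ τ / 4 := by positivity
      nlinarith
    have h7 := mul_le_mul_of_nonneg_right h3 hll0
    linarith
  have hMTl : c' * c * Real.log z ^ τ ≤ MT := by
    rw [hMT]
    refine le_trans ?_ (hM Z)
    have h1 := hlow z f1
    unfold LY at h1
    rw [← hZd] at h1
    have h2 : Li Z ≤ ((p : ℝ) - 1) * h * Li Z := by
      have h3 : (2 : ℝ) ≤ p := by exact_mod_cast hp.two_le
      have h4 : (1 : ℝ) ≤ h := by exact_mod_cast hh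
      have h5 : (1 : ℝ) ≤ ((p : ℝ) - 1) * h := by nlinarith
      have h6 := Li_nonneg Z
      nlinarith
    rw [mul_assoc]
    exact mul_le_mul_of_nonneg_left (h1.trans (Real.exp_le_exp.2 h2)) hc'.le
  have hLi0 := Li_nonneg Y
  have hfin : Li Y * Li Y * Q ≤ MT := by
    calc Li Y * Li Y * Q ≤ (A * Real.log (Real.log z) + C₀) ^ 2 *
          (Cp * Real.exp (h * p * C') * Real.log z ^ (τ / 4)) := by
          rw [← pow_two]
          exact mul_le_mul (pow_le_pow_left₀ hLi0 hLiY 2) hQ2 hQ0 (sq_nonneg _)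
      _ ≤ c' * c * Real.log z ^ τ := f3
      _ ≤ MT := hMTl
  have h8 := mul_le_mul_of_nonneg_left (hS Y) hMT0
  linarith

end H83.LW
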