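import Pool.Agent.H83.LW.TDMT
import Pool.Agent.H38.TD.TdMalle

/-!
# [H83 LW TDML] the nonabelian case (assembly: adaptation of `td_malle`, 150-250 lines)

Copy of the proof of `td_malle` in `H38/TD/TdMalle.lean` with `td_main'` instead of `td_main`. Differences: `pd` is given (hypothesis), so `grp2`, `hclos`, `hfl` are not
needed; the number of infinite places: `base_field (Nat.card G) (4 * Nat.card G + 2)` instead of `3 * …`, `s = 4 * Nat.card G + 1`; and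
`hp2 : MOne p K`: for `p ≠ 2` by `mone_odd` (`MA/Base`); for `p = 2`: `P` is not commutative, so `8 ∣ #P = 2^k`
(`#P ≠ 1, 2, 4`: groups of order `1, p, p²` are commutative, `IsPGroup.commutative_of_card_eq_prime_sq` or so), `k ≥ 3`, and `ζ^(2^(k-2))` is a primitive 4-th root
of unity (`ζ` primitive of order `2^k`), whose square is `-1`.
-/

open scoped NumberField Pointwise
open H38.ML

noncomputable section

namespace H83.LW

open H38.TD

theorem td_malle' {n : ℕ} (hn : 2 ≤ n) (G : Subgroup (Equiv.Perm (Fin n)))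
    (hG : MulAction.IsPretransitive G (Fin n)) {p : ℕ} (hp : p.Prime)
    (hleast : ∀ g : G, orderOf g = p ↔ g ≠ 1 ∧ ind (g : Equiv.Perm (Fin n)) = indG G)
    (N : Subgroup G) (hN : N.Normal) (htow : GoodTower N) (hNp : ¬ p ∣ Nat.card N)
    (P F : Type) [Group P] [Group F] [Finite P] [Finite F] (φ : G ⧸ N ≃* P × F)
    (hP : IsPGroup p P) (hFp : ¬ p ∣ Nat.card F) (hF : Realizable F)
    (A : Type) [CommGroup A] [Finite A] (pd : H38.TD.PD p A P)
    (hnc : ∃ a b : P, a * b ≠ b * a) :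
    ∃ K₀ : IntermediateField ℚ QBar, FiniteDimensional ℚ K₀ ∧
      ∀ K : IntermediateField ℚ QBar, K₀ ≤ K → FiniteDimensional ℚ K →
        ∃ c : ℝ, 0 < c ∧ ∃ B₀ : ℝ, ∀ B : ℝ, B₀ ≤ B →
          ((⌈c * B ^ (1 / (indG G : ℝ)) * Real.log B ^ (betaAll G K - 1)⌉₊ : ℕ) : ℕ∞) ≤
            nK G K B := by
  classical
  have := Fact.mk hp
  obtain ⟨z, hzθ, hzp, hz1, hzgen⟩ := grp2z hp hP pd hnc
  obtain ⟨k, hk⟩ := IsPGroup.iff_card.mp hP
  have hk3 : 3 ≤ k := by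
    by_contra hlt
    have hk2 : k ≤ 2 := by omega
    obtain ⟨x, y, hxy⟩ := hnc
    apply hxy
    interval_cases k
    · have h1 : Nat.card P = 1 := by rw [hk, pow_zero]
      have : Subsingleton P := (Nat.card_eq_one_iff_unique.mp h1).1
      exact Subsingleton.elim _ _
    · have h1 : Nat.card P = p := by rw [hk, pow_one]
      have : IsCyclic P := isCyclic_of_prime_card h1
      have h2 : IsMulCommutative P := IsCyclic.isMulCommutative
      exact h2.is_comm.comm x y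
    · have h2 : IsMulCommutative P := IsPGroup.isMulCommutative_of_card_eq_prime_sq hk
      exact h2.is_comm.comm x y
  have hcardQ : Nat.card (G ⧸ N) = Nat.card P * Nat.card F := by
    rw [Nat.card_congr φ.toEquiv, Nat.card_prod]
  have hcardG : Nat.card G = Nat.card P * Nat.card F * Nat.card N := by
    rw [Subgroup.card_eq_card_quotient_mul_card_subgroup N, hcardQ]
  have hPG : Nat.card P ∣ Nat.card G := by
    rw [hcardG, mul_assoc]
    exact dvd_mul_right _ _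
  have hpP : p ∣ Nat.card P := by
    rw [hk]
    exact dvd_pow_self p (by omega)
  have hpG : p ∣ Nat.card G := hpP.trans hPG
  have hAP : Nat.card A ≤ Nat.card G :=
    (Nat.card_le_card_of_injective pd.j pd.jinj).trans (Nat.le_of_dvd Nat.card_pos hPG)
  have hA : ∀ t : A, t ^ p ^ k = 1 := by
    intro t
    apply pd.jinj
    rw [map_pow, map_one, ← hk, pow_card_eq_one']
  obtain ⟨K₁, hK₁, hreal⟩ := hF
  obtain ⟨K₂, hK₂, hbase⟩ := base_field (Nat.card G) (4 * Nat.card G + 2) Nat.card_pos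
  refine ⟨K₁ ⊔ K₂, IntermediateField.finiteDimensional_sup K₁ K₂, ?_⟩
  intro K hK hKfin
  have : NumberField K := numberField_of_finite K
  obtain ⟨⟨ζG, hζG⟩, htc, hpl⟩ := hbase K inferInstance (le_trans le_sup_right hK)
  obtain ⟨ρF, hρF, hftF⟩ := hreal K (le_trans le_sup_left hK) hKfin
  obtain ⟨M, hMfin, hMgal, e, heinj, he⟩ := factor ρF hftF
  have : NumberField M := NumberField.of_module_finite K M
  -- roots of unity
  have hζ : ∃ ζ : K, IsPrimitiveRoot ζ (p ^ k) := by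
    rw [← hk]
    obtain ⟨m, hm⟩ := hPG
    exact ⟨ζG ^ m, hζG.pow Nat.card_pos (by rw [hm, mul_comm])⟩
  have hζp : ∃ ζ : K, IsPrimitiveRoot ζ p := by
    obtain ⟨m, hm⟩ := hpG
    exact ⟨ζG ^ m, hζG.pow Nat.card_pos (by rw [hm, mul_comm])⟩
  obtain ⟨ζ, hζ⟩ := hζ
  obtain ⟨ζp, hζp⟩ := hζp
  have hmone : H63.MA.MOne p K := by
    by_cases h2 : p = 2
    · subst h2
      have h3 : (2 : ℕ) ^ k = 2 ^ (k - 2) * 4 := by
        rw [show (4 : ℕ) = 2 ^ 2 by norm_num, ← pow_add]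
        congr 1
        omega
      have h4 : IsPrimitiveRoot (ζ ^ 2 ^ (k - 2)) 4 := hζ.pow (by positivity) h3
      have h5 : IsPrimitiveRoot ((ζ ^ 2 ^ (k - 2)) ^ 2) 2 := h4.pow (by norm_num) (by norm_num)
      exact ⟨ζ ^ 2 ^ (k - 2), h5.eq_neg_one_of_two_right⟩
    · exact H63.MA.mone_odd hp h2 K
  -- bad primes
  have hGne : (((Nat.card G * n.factorial : ℕ) : ℕ) : 𝓞 K) ≠ 0 := by
    rw [Nat.cast_ne_zero]
    exact Nat.mul_ne_zero Nat.card_pos.ne' (Nat.factorial_ne_zero n)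
  let B₀ : Set (Ideal (𝓞 K)) := {v | ∃ Q : Ideal (𝓞 K), Q.IsPrime ∧
    Ideal.span {(((Nat.card G * n.factorial : ℕ) : ℕ) : 𝓞 K)} ≤ Q ∧ Q.under (𝓞 K) = v} ∪
    {v | v.IsPrime ∧ v ≠ ⊥ ∧ ¬ Unr K M v}
  have hB₀ : B₀.Finite := (finite_primes_below K K _ (by simpa using hGne)).union
    (finite_not_unr K M)
  let S₀ : Set (Pl K) := {v | v.asIdeal ∈ B₀}
  have hS₀ : S₀.Finite := by
    refine Set.Finite.of_finite_image (f := fun v : Pl K => v.asIdeal) (hB₀.subset ?_) ?_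
    · rintro _ ⟨v, hv, rfl⟩
      exact hv
    · intro v _ v' _ h
      exact IsDedekindDomain.HeightOneSpectrum.ext h
  have hS₀mem : ∀ v : Pl K, (((Nat.card G * n.factorial : ℕ) : ℕ) : 𝓞 K) ∈ v.asIdeal →
      v ∈ S₀ := by
    intro v hmem
    refine Or.inl ⟨v.asIdeal, v.isPrime, ?_, ?_⟩
    · rw [Ideal.span_singleton_le_iff_mem]; exact hmem
    · ext x; simp [Ideal.mem_comap]
  -- the classes
  obtain ⟨a₀, g, hga, hg, ha1, hnconj⟩ := classes G K ζG hζG ⊤ N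
  have hleast' : ∀ g : G, g ≠ 1 → ind (g : Equiv.Perm (Fin n)) = indG G →
      g ∈ (⊤ : Subgroup G) ∧ Nat.Coprime (orderOf g) (Nat.card N) := by
    intro g hg hi
    refine ⟨Subgroup.mem_top g, ?_⟩
    rw [(hleast g).mpr ⟨hg, hi⟩]
    exact (Nat.Prime.coprime_iff_not_dvd hp).mpr hNp
  have hbeta := beta_eq_betaAll G K ⊤ N hleast'
  have hbpos : 0 < betaAll G K := by
    obtain ⟨g₀, hg₀⟩ := exists_prime_orderOf_dvd_card' (G := G) p hpG
    have h1 := (hleast g₀).mp hg₀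
    have : Nonempty (Quot fun g h : {g : G // g ≠ 1 ∧
        ind (g : Equiv.Perm (Fin n)) = indG G} => KConj G K g.1 h.1) := ⟨Quot.mk _ ⟨g₀, h1⟩⟩
    have : Finite (Quot fun g h : {g : G // g ≠ 1 ∧
        ind (g : Equiv.Perm (Fin n)) = indG G} => KConj G K g.1 h.1) :=
      Finite.of_surjective (Quot.mk _) Quot.mk_surjective
    exact Nat.card_pos
  have hd := cls_count pd hp (beta G K ⊤ N) (fun c => (φ (a₀ c)).1) (by
      intro c
      have h1 : orderOf (g c) = p := (hleast (g c)).mpr ⟨(hg c).2.1, (hg c).2.2.1⟩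
      have h2 : (φ (a₀ c)) ^ p = 1 := by
        rw [← map_pow, ← hga c, ← QuotientGroup.mk_pow, ← h1, pow_orderOf_eq_one]
        simp
      exact (Prod.ext_iff.mp h2).1) (by
      intro c hc1
      apply ha1 c
      have h1 : orderOf (g c) = p := (hleast (g c)).mpr ⟨(hg c).2.1, (hg c).2.2.1⟩
      have h2 : (φ (a₀ c)) ^ p = 1 := by
        rw [← map_pow, ← hga c, ← QuotientGroup.mk_pow, ← h1, pow_orderOf_eq_one]
        simp
      have h3 : (φ (a₀ c)).2 ^ p = 1 := (Prod.ext_iff.mp h2).2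
      have h4 : (φ (a₀ c)).2 = 1 := by
        rw [← orderOf_eq_one_iff]
        rcases (Nat.dvd_prime hp).mp (orderOf_dvd_of_pow_eq_one h3) with h | h
        · exact h
        · exact absurd (h ▸ orderOf_dvd_natCard _) hFp
      have h5 : φ (a₀ c) = 1 := Prod.ext hc1 h4
      rwa [map_eq_one_iff φ φ.injective] at h5) (by
      intro c c' y hy
      have h2' : ∀ c, (φ (a₀ c)).2 = 1 := by
        intro c
        have h1 : orderOf (g c) = p := (hleast (g c)).mpr ⟨(hg c).2.1, (hg c).2.2.1⟩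
        have h2 : (φ (a₀ c)) ^ p = 1 := by
          rw [← map_pow, ← hga c, ← QuotientGroup.mk_pow, ← h1, pow_orderOf_eq_one]
          simp
        have h3 : (φ (a₀ c)).2 ^ p = 1 := (Prod.ext_iff.mp h2).2
        rw [← orderOf_eq_one_iff]
        rcases (Nat.dvd_prime hp).mp (orderOf_dvd_of_pow_eq_one h3) with h | h
        · exact h
        · exact absurd (h ▸ orderOf_dvd_natCard _) hFp
      apply hnconj c c' (φ.symm (y, 1))
      apply φ.injective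
      rw [map_mul, map_mul, map_inv, φ.apply_symm_apply]
      ext
      · exact hy
      · simp [h2' c, h2' c'])
  rw [hbeta] at hd
  obtain ⟨S, hS, hS₀S, c₁, hc₁, X₀, hcount⟩ := td_main' (Ω := QBar) pd hp hmone k ζ hζ ζp hζp hA htc
    (4 * Nat.card G + 1) (by omega) (by omega) S₀ hS₀ z hzθ hzp hz1 hzgen (betaAll G K - 1)
    (by
      have h1 : ((betaAll G K - 1 : ℕ) : ℝ) + 2 = (betaAll G K : ℝ) + 1 := by
        rw [Nat.cast_sub hbpos]
        push_cast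
        ring
      rw [h1]
      exact hd)
  let S' : Set (Ideal (𝓞 K)) := (fun v : Pl K => v.asIdeal) '' S
  have hS' : S'.Finite := hS.image _
  have hS'S : ∀ v : Pl K, v.asIdeal ∉ S' → v ∉ S := fun v hv h => hv ⟨v, h, rfl⟩
  have hSS' : ∀ v : Pl K, v ∉ S → v.asIdeal ∉ S' := by
    rintro v hv ⟨u, hu, h⟩
    exact hv (IsDedekindDomain.HeightOneSpectrum.ext h ▸ hu)
  have hSG : ∀ v : Pl K, v.asIdeal ∉ S' → ((Nat.card G : ℕ) : 𝓞 K) ∉ v.asIdeal := by
    intro v hv h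
    apply hS'S v hv
    apply hS₀S
    apply hS₀mem v
    rw [Nat.cast_mul]
    exact Ideal.mul_mem_right _ _ h
  have hSn : ∀ v : Ideal (𝓞 K), v.IsPrime → v ≠ ⊥ → v ∉ S' →
      ((n.factorial : ℕ) : 𝓞 K) ∉ v := by
    intro v hvp hv0 hv h
    apply hS'S ⟨v, hvp, hv0⟩ hv
    apply hS₀S
    apply hS₀mem ⟨v, hvp, hv0⟩
    rw [Nat.cast_mul]
    exact Ideal.mul_mem_left _ _ h
  obtain ⟨C, hC0, hC⟩ := disc_bound QBar n S' hS' hSn
  have i₀ : Fin n := ⟨0, by omega⟩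
  -- the homomorphism `ρF` is unramified outside `S`
  have hunF : ∀ v : Pl K, v ∉ S → UnrAt ρF v.asIdeal := by
    intro v hv 𝔓 h𝔓 h𝔓v τ hτ
    have h1 : Unr K M (𝔓.under (𝓞 K)) := by
      by_contra h
      apply hv
      apply hS₀S
      refine Or.inr ⟨v.isPrime, v.ne_bot, ?_⟩
      rw [← h𝔓v]
      exact h
    rw [← he τ, res_eq_one M 𝔓 h1 τ hτ, map_one]
  have hcop : Nat.Coprime (Nat.card P) (Nat.card F) := by
    rw [hk]
    exact Nat.Coprime.pow_left _ ((Nat.Prime.coprime_iff_not_dvd hp).mpr hFp)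
  have hone : ∀ (X : ℝ) (ρ : Gal(QBar/K) →* P), (Function.Surjective ρ ∧ FT ρ ∧
      (∀ v, v ∉ S → SmallAt p ρ v.asIdeal) ∧
          ∃ T : Finset (Pl K), (∀ v ∈ T, v ∉ S) ∧ ((∏ v ∈ T, nv v : ℕ) : ℝ) ≤ X ∧
            ∀ v, v ∉ S → v ∉ T → UnrAt ρ v.asIdeal) →
      ∃ ρ' : Gal(QBar/K) →* G, Function.Surjective ρ' ∧ FT ρ' ∧
        (∀ σ, ((ρ' σ : G) : G ⧸ N) = φ.symm (ρ σ, ρF σ)) ∧
        (relDisc K (fieldOf i₀ ρ') : ℝ) ≤ C * X ^ indG G := by
    intro X ρ ⟨hsur, hft, hsm, T, hTS, hTX, hTun⟩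
    have hsm' : ∀ v : Pl K, v.asIdeal ∉ S' → ∀ 𝔓 : Ideal (𝓞 QBar), 𝔓.IsPrime →
        𝔓.under (𝓞 K) = v.asIdeal → Nat.card ((𝔓.inertia Gal(QBar/K)).map
          (φ.symm.toMonoidHom.comp (ρ.prod ρF))) ∣ p := by
      intro v hv 𝔓 h𝔓 h𝔓v
      exact card_map_dvd hp hP φ ρ ρF _ (hsm v (hS'S v hv) 𝔓 h𝔓 h𝔓v)
        (hunF v (hS'S v hv) 𝔓 h𝔓 h𝔓v)
    have hun' : ∀ v : Pl K, v.asIdeal ∉ S' → v ∉ T →
        UnrAt (φ.symm.toMonoidHom.comp (ρ.prod ρF)) v.asIdeal := by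
      intro v hv hvT 𝔓 h𝔓 h𝔓v τ hτ
      change φ.symm (ρ τ, ρF τ) = 1
      rw [hTun v (hS'S v hv) hvT 𝔓 h𝔓 h𝔓v τ hτ, hunF v (hS'S v hv) 𝔓 h𝔓 h𝔓v τ hτ]
      exact map_one φ.symm
    have hft' : FT (φ.symm.toMonoidHom.comp (ρ.prod ρF)) :=
      ft_comp _ _ (ft_of_two ρ ρF _ hft hftF fun σ h h' => by
        rw [MonoidHom.prod_apply, h, h']; rfl)
    obtain ⟨ρ', h1, h2, h3, h4⟩ := td_one G hG i₀ hp (fun g hg => ((hleast g).mp hg).2) N htow K
      htc (by omega) ζG hζG (φ.symm.toMonoidHom.comp (ρ.prod ρF))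
      (φ.symm.surjective.comp (cop_surj ρ ρF hsur hρF hcop)) hft' S' hSG hsm' T
      (fun v hv => hSS' v (hTS v hv)) hun' C hC
    refine ⟨ρ', h1, h2, h3, ?_⟩
    calc (relDisc K (fieldOf i₀ ρ') : ℝ) ≤ ((C * (∏ v ∈ T, nv v) ^ indG G : ℕ) : ℝ) := by
          exact_mod_cast h4
      _ = (C : ℝ) * ((∏ v ∈ T, nv v : ℕ) : ℝ) ^ indG G := by push_cast; ring
      _ ≤ (C : ℝ) * X ^ indG G := by
          apply mul_le_mul_of_nonneg_left _ (Nat.cast_nonneg C)
          exact pow_le_pow_left₀ (Nat.cast_nonneg _) hTX _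
  choose! ρf hρf using hone
  have hind : 0 < indG G := by
    obtain ⟨g₀, hg₀⟩ := exists_prime_orderOf_dvd_card' (G := G) p hpG
    have h1 := (hleast g₀).mp hg₀
    rw [← h1.2]
    exact ind_pos _ (fun h => h1.1 (Subtype.ext h))
  obtain ⟨c, hc, B₁, hB⟩ := asym (indG G) (betaAll G K - 1) (Nat.card G ^ Nat.card G) C hind
    (pow_pos Nat.card_pos _) hC0 c₁ hc₁ X₀
  refine ⟨c, hc, B₁, ?_⟩
  intro B hBB
  obtain ⟨X, hX₀, hX0, hXB, hXc⟩ := hB B hBB
  obtain ⟨Fs, hTc, hTs⟩ := hcount X hX₀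
  have hinj : Set.InjOn (ρf X) (Fs : Set (Gal(QBar/K) →* P)) := by
    intro ρ hρ ρ₂ hρ₂ h
    apply MonoidHom.ext
    intro σ
    have h1 := (hρf X ρ (hTs ρ hρ)).2.2.1 σ
    have h2 := (hρf X ρ₂ (hTs ρ₂ hρ₂)).2.2.1 σ
    rw [h, h2] at h1
    exact (Prod.ext_iff.mp (φ.symm.injective h1)).1.symm
  have hmany := many_classes G hG K i₀ B (Fs.image (ρf X)) (by
    intro ρ hρ
    obtain ⟨ρ₂, hρ₂, rfl⟩ := Finset.mem_image.mp hρ
    obtain ⟨h1, h2, _, h4⟩ := hρf X ρ₂ (hTs ρ₂ hρ₂)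
    exact ⟨h1, h2, h4.trans hXB⟩)
  rw [Finset.card_image_of_injOn hinj] at hmany
  cases hk : nK G K B using ENat.recTopCoe with
  | top => exact le_top
  | coe k =>
    rw [hk] at hmany
    have h1 : Fs.card ≤ Nat.card G ^ Nat.card G * k := by exact_mod_cast hmany
    have h2 : (Fs.card : ℝ) ≤ ((Nat.card G ^ Nat.card G : ℕ) : ℝ) * k := by exact_mod_cast h1
    have hpos : (0 : ℝ) < ((Nat.card G ^ Nat.card G : ℕ) : ℝ) := by
      exact_mod_cast pow_pos (Nat.card_pos (α := G)) _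
    have h3 : c * B ^ (1 / (indG G : ℝ)) * Real.log B ^ (betaAll G K - 1) ≤ (k : ℝ) := by
      refine hXc.trans ?_
      rw [div_le_iff₀ hpos]
      calc c₁ * X * Real.log X ^ (betaAll G K - 1) ≤ Fs.card := hTc
        _ ≤ ((Nat.card G ^ Nat.card G : ℕ) : ℝ) * k := h2
        _ = k * ((Nat.card G ^ Nat.card G : ℕ) : ℝ) := mul_comm _ _
    have h4 : ⌈c * B ^ (1 / (indG G : ℝ)) * Real.log B ^ (betaAll G K - 1)⌉₊ ≤ k :=
      Nat.ceil_le.mpr h3
    exact_mod_cast h4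

end H83.LW
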