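import Pool.Agent.H83.LW.CNTT
import Pool.Agent.H38.TD.TdMain

/-!
# [H83 LW TDMT] the count of homomorphisms onto `P` (assembly: adaptation of `td_main`, 150-250 lines)

Copy of the proof of `td_main` in `H38/TD/TdMain.lean`. If `Bg pd = ⊤` then `td_main` itself applies (`grp3` for `pd.θ` gives `hfl`; `3 #A + 1 ≤ 4 #A + 1 ≤ s`).
Otherwise: `cntt` gives `S` and (instead of `adata` and `ana_main`) for `ε = ε₀` from `cutb` (with `dcount_upper K S`, `dcount_lower K S hS`) the constants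
`c₁, c₃, X₀` and for large `X` the data `Z, F, Tr`. `exists_twd` with `sd`, `cutc W nv … F Tr … Z … ε₀ (c₂ / 2) (max 1 t₁) X …`, and then
`c₂/2 X exp(-L) ∑_{ρ ∈ F} Pv (Tr ρ) ≥ (c₂/2) X c₁ exp((… - 1) L - L) ≥ (c₂/2) c₁ X (exp L)^d ≥ (c₂/2) c₁ c₃^d X (log X)^d` by `hd` (`L ≥ 0`).
The properties of the twisted homomorphisms as in `td_main`.
-/

open scoped NumberField Pointwise
open H38.ML
open scoped Classical

noncomputable section

namespace H83.LW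

open H38.TD

variable {K Ω : Type} [Field K] [NumberField K] [Field Ω] [Algebra K Ω] [IsAlgClosure K Ω]

theorem td_main' {A P : Type} [CommGroup A] [Finite A] [Group P] [Finite P] {p : ℕ}
    (pd : H38.TD.PD p A P) (hp : p.Prime) (hp2 : H63.MA.MOne p K) (k : ℕ) (ζ : K)
    (hζ : IsPrimitiveRoot ζ (p ^ k)) (ζp : K)
    (hζp : IsPrimitiveRoot ζp p) (hA : ∀ t : A, t ^ p ^ k = 1)
    (htc : NumberField.IsTotallyComplex K) (s : ℕ)
    (hs : s + 1 ≤ Fintype.card (NumberField.InfinitePlace K)) (hs1 : 4 * Nat.card A + 1 ≤ s)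
    (S₀ : Set (H38.TD.Pl K)) (hS₀ : S₀.Finite)
    (z : A) (hzθ : pd.θ z = z) (hzp : z ^ p = 1) (hz1 : z ≠ 1)
    (hzgen : ∀ H : Subgroup P, H ⊔ Subgroup.zpowers (pd.j z) = ⊤ → H = ⊤) (d : ℕ)
    (hd : (d : ℝ) + 2 ≤ ((p : ℝ) - 1) *
        ((Nat.card (fx pd.θ) / Nat.card (nh pd.θ p).range : ℕ) : ℝ) +
      ((Nat.card (fx pd.θ ⊓ tp A p : Subgroup A) : ℝ) +
        ((Nat.card (tp A p) : ℝ) - Nat.card (fx pd.θ ⊓ tp A p : Subgroup A)) / p)) :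
    ∃ S : Set (H38.TD.Pl K), S.Finite ∧ S₀ ⊆ S ∧ ∃ c : ℝ, 0 < c ∧ ∃ X₀ : ℝ, ∀ X : ℝ, X₀ ≤ X →
      ∃ Fs : Finset (Gal(Ω/K) →* P), c * X * Real.log X ^ d ≤ (Fs.card : ℝ) ∧
        ∀ ρ ∈ Fs, Function.Surjective ρ ∧ FT ρ ∧ (∀ v, v ∉ S → SmallAt p ρ v.asIdeal) ∧
          ∃ T : Finset (H38.TD.Pl K), (∀ v ∈ T, v ∉ S) ∧ ((∏ v ∈ T, nv v : ℕ) : ℝ) ≤ X ∧
            ∀ v, v ∉ S → v ∉ T → UnrAt ρ v.asIdeal := by
  have : NeZero p := ⟨hp.ne_zero⟩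
  by_cases hBt : Bg pd = ⊤
  · exact td_main pd hp k ζ hζ ζp hζp hA htc s hs (by omega) S₀ hS₀
      (grp3 hp pd.θ (grpa_pd_theta_p pd) hBt) z hzθ hzp hz1 hzgen d hd
  obtain ⟨S, hS, hS₀S, hSp, ⟨sd⟩, hcnt⟩ :=
    cntt (Ω := Ω) pd hp hp2 k ζ hζ ζp hζp hA htc s hs hs1 S₀ hS₀ hBt
  refine ⟨S, hS, hS₀S, ?_⟩
  have hN2 : ∀ v : Po K S, 2 ≤ (fun v : Po K S => nv v.1) v := fun v => two_le_nv v.1
  -- the twisting data
  have hjz1 : pd.j z ≠ 1 := fun h => hz1 (pd.jinj (h.trans (map_one pd.j).symm))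
  have hjzp : pd.j z ^ p = 1 := by rw [← map_pow, hzp, map_one]
  have hzj : ∀ a : A, pd.j z * pd.j a = pd.j a * pd.j z := by
    intro a
    rw [← map_mul, ← map_mul, mul_comm]
  have hzc0 : pd.j z * pd.c = pd.c * pd.j z := by
    have h := pd.conj z
    rw [hzθ] at h
    exact (eq_mul_of_mul_inv_eq h).symm
  have hzc : ∀ g : P, pd.j z * g = g * pd.j z := by
    intro g
    obtain ⟨a, n, rfl⟩ := pd.gen g
    have h1 : Commute (pd.j z) (pd.j a) := hzj a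
    have h2 : Commute (pd.j z) (pd.c ^ n) := Commute.pow_right hzc0 n
    exact (h1.mul_right h2 : Commute _ _)
  obtain ⟨W, hW1, hW2, hW3⟩ := exists_twd (Ω := Ω) hp ζp hζp S sd hSp (pd.j z) hjz1 hjzp hzc
  -- constants
  obtain ⟨C₁, hC₁, hup⟩ := dcount_upper K S
  obtain ⟨c₂, hc₂, t₀, hlow⟩ := dcount_lower K S hS
  obtain ⟨ε₀, hε₀, t₁, hcut⟩ := cutb (fun v : Po K S => nv v.1) (fun v => two_le_nv v.1) C₁ hC₁ hup
    c₂ hc₂ t₀ hlow
  obtain ⟨c₁, c₃, X₁, hc₁, hc₃, hcnt2⟩ := hcnt ε₀ hε₀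
  refine ⟨c₂ / 2 * c₁ * c₃ ^ d, by positivity, ?_⟩
  -- large X
  have hev : ∀ᶠ X : ℝ in Filter.atTop, 1 ≤ X ∧ X₁ ≤ X ∧ 1 ≤ c₃ * Real.log X ∧
      max 1 t₁ ≤ Real.exp (1 / 2 * Real.log X) := by
    have h3 : Filter.Tendsto (fun X : ℝ => c₃ * Real.log X) Filter.atTop Filter.atTop :=
      Filter.Tendsto.const_mul_atTop hc₃ Real.tendsto_log_atTop
    have h4 : Filter.Tendsto (fun X : ℝ => Real.exp (1 / 2 * Real.log X)) Filter.atTop
        Filter.atTop := Real.tendsto_exp_atTop.comp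
      (Filter.Tendsto.const_mul_atTop (by norm_num) Real.tendsto_log_atTop)
    filter_upwards [Filter.eventually_ge_atTop 1, Filter.eventually_ge_atTop X₁,
      h3.eventually_ge_atTop 1, h4.eventually_ge_atTop (max 1 t₁)] with X a1 a2 a4 a5
    exact ⟨a1, a2, a4, a5⟩
  obtain ⟨X₀, hX₀⟩ := Filter.eventually_atTop.mp hev
  refine ⟨X₀, fun X hX => ?_⟩
  obtain ⟨hX1, hXX₁, hzL, hXt⟩ := hX₀ X hX
  have hlogX : 0 ≤ Real.log X := Real.log_nonneg hX1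
  obtain ⟨Z, F, Tr, hL, hanaX, hTrF⟩ := hcnt2 X hXX₁
  have hLpos : 0 ≤ Lv (fun v : Po K S => nv v.1) Z := by
    have h := hzL.trans hL
    rw [← Real.exp_zero] at h
    exact Real.exp_le_exp.mp h
  obtain ⟨Fs, hFs, hcard⟩ := cutc W (fun v : Po K S => nv v.1) hN2 F Tr (by
      intro ρ hρ v hv I hI τ hτ
      rw [hW1] at hI
      obtain ⟨𝔓, h𝔓, h𝔓v, rfl⟩ := hI
      exact (hTrF ρ hρ).2.2.2.2.2.1 v hv 𝔓 h𝔓 h𝔓v τ hτ) Z (fun ρ hρ => (hTrF ρ hρ).1) ε₀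
    (c₂ / 2) (max 1 t₁) X (by positivity) (by positivity) (by
      intro n hn t ht
      exact hcut n hn t ((le_max_right _ _).trans ht)) (fun ρ hρ => (hTrF ρ hρ).2.2.1) (by
      intro ρ hρ
      have h1 : ((∏ v ∈ Tr ρ, nv v.1 : ℕ) : ℝ) ≤ Real.exp (1 / 2 * Real.log X) := by
        rw [← exp_Ln (fun v : Po K S => nv v.1) hN2]
        exact Real.exp_le_exp.mpr (hTrF ρ hρ).2.1
      calc max 1 t₁ * ((∏ v ∈ Tr ρ, nv v.1 : ℕ) : ℝ)
          ≤ Real.exp (1 / 2 * Real.log X) * Real.exp (1 / 2 * Real.log X) :=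
            mul_le_mul hXt h1 (Nat.cast_nonneg _) (Real.exp_pos _).le
        _ = X := by
            rw [← Real.exp_add, ← add_mul, add_halves, one_mul,
              Real.exp_log (by linarith)])
  refine ⟨Fs, ?_, ?_⟩
  · refine le_trans ?_ hcard
    obtain ⟨E, hE⟩ : ∃ E : ℝ, E = ((p : ℝ) - 1) *
        ((Nat.card (fx pd.θ) / Nat.card (nh pd.θ p).range : ℕ) : ℝ) +
      ((Nat.card (fx pd.θ ⊓ tp A p : Subgroup A) : ℝ) +
        ((Nat.card (tp A p) : ℝ) - Nat.card (fx pd.θ ⊓ tp A p : Subgroup A)) / p) := ⟨_, rfl⟩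
    rw [← hE] at hd hanaX
    obtain ⟨L, hLdef⟩ : ∃ L : ℝ, L = Lv (fun v : Po K S => nv v.1) Z := ⟨_, rfl⟩
    rw [← hLdef] at hL hLpos hanaX ⊢
    have h1 : (c₃ * Real.log X) ^ d ≤ Real.exp (d * L) := by
      rw [Real.exp_nat_mul]
      exact pow_le_pow_left₀ (by positivity) hL d
    have h2 : Real.exp (d * L) ≤ Real.exp ((E - 1) * L) * Real.exp (-L) := by
      rw [← Real.exp_add]
      apply Real.exp_le_exp.mpr
      nlinarith
    calc c₂ / 2 * c₁ * c₃ ^ d * X * Real.log X ^ d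
        = c₂ / 2 * X * c₁ * (c₃ * Real.log X) ^ d := by
          rw [mul_pow c₃]; ring
      _ ≤ c₂ / 2 * X * c₁ * (Real.exp ((E - 1) * L) * Real.exp (-L)) := by
          apply mul_le_mul_of_nonneg_left (h1.trans h2)
          have : 0 ≤ X := by linarith
          positivity
      _ = c₂ / 2 * X * Real.exp (-L) * (c₁ * Real.exp ((E - 1) * L)) := by ring
      _ ≤ _ := by
          apply mul_le_mul_of_nonneg_left hanaX
          have : 0 ≤ X := by linarith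
          positivity
  · intro ρ' hρ'
    obtain ⟨ρ, hρ, D₀, D', T', rfl, hT'X, hT'u, htri⟩ := hFs ρ' hρ'
    obtain ⟨-, -, -, hsur, hft, hun, hsm⟩ := hTrF ρ hρ
    refine ⟨?_, ft_tw W hW2 D₀ D' ρ hft, ?_, ?_⟩
    · rw [← MonoidHom.range_eq_top]
      apply hzgen
      rw [eq_top_iff]
      intro g _
      obtain ⟨σ, rfl⟩ := hsur g
      have h1 : ρ σ = W.tw ((∏ v ∈ D₀, W.κ v)⁻¹ * ∏ v ∈ D', W.κ v) ρ σ *
          (W.zc (((∏ v ∈ D₀, W.κ v)⁻¹ * ∏ v ∈ D', W.κ v) σ))⁻¹ := by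
        change ρ σ = ρ σ * W.zc _ * (W.zc _)⁻¹
        rw [mul_assoc, mul_inv_cancel, mul_one]
      rw [h1]
      exact Subgroup.mul_mem_sup ⟨σ, rfl⟩ (Subgroup.inv_mem _ (hW3 _))
    · intro v hv 𝔓 h𝔓 h𝔓v
      have hI : 𝔓.inertia Gal(Ω/K) ∈ W.In ⟨v, hv⟩ := by
        rw [hW1]
        exact ⟨𝔓, h𝔓, h𝔓v, rfl⟩
      rcases htri ⟨v, hv⟩ with h | h | h
      · have h1 : (𝔓.inertia Gal(Ω/K)).map
            (W.tw ((∏ v ∈ D₀, W.κ v)⁻¹ * ∏ v ∈ D', W.κ v) ρ) ≤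
            Subgroup.zpowers (pd.j z) := by
          rintro _ ⟨τ, hτ, rfl⟩
          rw [h _ hI τ hτ]
          exact hW3 _
        refine (Nat.card_le_card_of_injective _ (Subgroup.inclusion_injective h1)).trans ?_
        rw [Nat.card_zpowers]
        exact orderOf_le_of_pow_eq_one hp.pos hjzp
      · have h1 : (𝔓.inertia Gal(Ω/K)).map
            (W.tw ((∏ v ∈ D₀, W.κ v)⁻¹ * ∏ v ∈ D', W.κ v) ρ) = ⊥ := by
          rw [eq_bot_iff]
          rintro _ ⟨τ, hτ, rfl⟩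
          rw [h _ hI τ hτ]
          exact Subgroup.mem_bot.mpr rfl
        rw [h1, Subgroup.card_bot]
        exact hp.one_le
      · have h1 : (𝔓.inertia Gal(Ω/K)).map
            (W.tw ((∏ v ∈ D₀, W.κ v)⁻¹ * ∏ v ∈ D', W.κ v) ρ) =
            (𝔓.inertia Gal(Ω/K)).map ρ := by
          ext g
          constructor
          · rintro ⟨τ, hτ, rfl⟩
            exact ⟨τ, hτ, (h _ hI τ hτ).symm⟩
          · rintro ⟨τ, hτ, rfl⟩
            exact ⟨τ, hτ, h _ hI τ hτ⟩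
        rw [h1]
        exact hsm ⟨v, hv⟩ 𝔓 h𝔓 h𝔓v
    · refine ⟨T'.map (Function.Embedding.subtype _), ?_, ?_, ?_⟩
      · intro v hv
        obtain ⟨v', _, rfl⟩ := Finset.mem_map.mp hv
        exact v'.2
      · rw [Finset.prod_map]
        exact hT'X
      · intro v hvS hv 𝔓 h𝔓 h𝔓v τ hτ
        refine hT'u ⟨v, hvS⟩ (fun h => hv (Finset.mem_map.mpr ⟨_, h, rfl⟩)) _ ?_ τ hτ
        rw [hW1]
        exact ⟨𝔓, h𝔓, h𝔓v, rfl⟩

end H83.LW
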